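import Pool.Agent.Lib.MP_478c11_gt.DB.Spec

set_option autoImplicit false

namespace Pool.Agent.Lib.MP478c11.DB

open Set Filter Topology MeasureTheory
open scoped ContDiff

namespace AVGM

theorem En_nonneg (l : ℝ) (g B B₁ : ℝ → ℝ) (z : ℝ) : 0 ≤ En l g B B₁ z := by
  unfold En
  positivity

theorem point {l G b b₁ f : ℝ} (hl : 1 ≤ l) (hG : 0 < G) :
    f * b ^ 2 = 1 / (2 * l ^ 2) * (f / √G * (l ^ 2 * √G * b ^ 2 + b₁ ^ 2 / √G)
      - f / G * (b₁ * b₁ + b * (-(l ^ 2 * G * b)))) := by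
  have h1 : √G ≠ 0 := (Real.sqrt_pos.mpr hG).ne'
  have h2 : √G ^ 2 = G := Real.sq_sqrt hG.le
  have hl0 : l ≠ 0 := by linarith
  have hG0 : G ≠ 0 := hG.ne'
  set s := √G with hs
  rw [← h2]
  field_simp
  ring

end AVGM

open AVGM in
theorem specAVG (hENJ : SpecENJ) : SpecAVG := by
  intro m M L hm hL
  obtain ⟨C₀, hC₀, henj⟩ := hENJ m M L hm hL
  have hsm : 0 < √m := Real.sqrt_pos.mpr hm
  refine ⟨C₀ * (|M| * L / √m + |M| / m + |M| ^ 2 * L / m ^ 2) + 1, by positivity, ?_⟩
  intro c d l g g₁ g₂ B B₁ f f₁ hO hdL hf hf₁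
  have hcd := hO.cd
  have hl := hO.l1
  have hl0 : (0 : ℝ) < l := by linarith
  have hdmem : d ∈ Icc c d := right_mem_Icc.mpr hcd.le
  have hcmem : c ∈ Icc c d := left_mem_Icc.mpr hcd.le
  have hM : 0 < M := by
    have := hO.b c hcmem
    linarith [this.1, this.2.1]
  rw [abs_of_pos hM]
  have hgpos : ∀ z ∈ Icc c d, 0 < g z := fun z hz => hm.trans_le (hO.b z hz).1
  have cg : ContinuousOn g (Icc c d) := fun z hz =>
    (hO.dg z hz).1.continuousAt.continuousWithinAt
  have cg₁ : ContinuousOn g₁ (Icc c d) := fun z hz =>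
    (hO.dg z hz).2.continuousAt.continuousWithinAt
  have cB : ContinuousOn B (Icc c d) := fun z hz =>
    (hO.dB z hz).1.continuousAt.continuousWithinAt
  have cB₁ : ContinuousOn B₁ (Icc c d) := fun z hz =>
    (hO.dB z hz).2.continuousAt.continuousWithinAt
  have cf : ContinuousOn f (Icc c d) := fun z hz =>
    (hf z hz).1.continuousAt.continuousWithinAt
  have csg : ContinuousOn (fun z => √(g z)) (Icc c d) := cg.sqrt
  have hsg : ∀ z ∈ Icc c d, √(g z) ≠ 0 := fun z hz => (Real.sqrt_pos.mpr (hgpos z hz)).ne'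
  set Ed := En l g B B₁ d with hEd
  have hEd0 : 0 ≤ Ed := En_nonneg _ _ _ _ _
  have hE1 : ∀ z ∈ Icc c d, |En l g B B₁ z - Ed| ≤ C₀ / l * Ed := fun z hz =>
    (henj c d l g g₁ g₂ B B₁ hO hdL z hz d hdmem).2.1
  have hE2 : ∀ z ∈ Icc c d, |B z * B₁ z| ≤ C₀ * Ed / (2 * l) := by
    intro z hz
    have h1 := henj c d l g g₁ g₂ B B₁ hO hdL z hz d hdmem
    rw [le_div_iff₀ (by positivity)]
    calc |B z * B₁ z| * (2 * l) = 2 * l * |B z * B₁ z| := by ring
      _ ≤ En l g B B₁ z := h1.2.2.1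
      _ ≤ C₀ * Ed := h1.1
  -- the functions
  set r : ℝ → ℝ := fun z => f z / √(g z) with hr
  set q : ℝ → ℝ := fun z => f z / g z with hq
  set q' : ℝ → ℝ := fun z => (f₁ z * g z - f z * g₁ z) / g z ^ 2 with hq'
  set w : ℝ → ℝ := fun z => B z * B₁ z with hw
  set w' : ℝ → ℝ := fun z => B₁ z * B₁ z + B z * (-(l ^ 2 * g z * B z)) with hw'
  have cr : ContinuousOn r (Icc c d) := cf.div csg hsg
  have cq : ContinuousOn q (Icc c d) := cf.div cg fun z hz => (hgpos z hz).ne'
  have cq' : ContinuousOn q' (Icc c d) :=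
    ((hf₁.mul cg).sub (cf.mul cg₁)).div (cg.pow 2) fun z hz => pow_ne_zero 2 (hgpos z hz).ne'
  have cw : ContinuousOn w (Icc c d) := cB.mul cB₁
  have cw' : ContinuousOn w' (Icc c d) :=
    (cB₁.mul cB₁).add (cB.mul ((continuousOn_const.mul cg).mul cB).neg)
  have cE : ContinuousOn (En l g B B₁) (Icc c d) := by
    unfold En
    exact ((continuousOn_const.mul csg).mul (cB.pow 2)).add ((cB₁.pow 2).div csg hsg)
  have ii : ∀ {u : ℝ → ℝ}, ContinuousOn u (Icc c d) → IntervalIntegrable u volume c d := by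
    intro u hu
    exact ContinuousOn.intervalIntegrable (by rwa [uIcc_of_le hcd.le])
  have hH : (∫ z in c..d, (q' z * w z + q z * w' z)) = q d * w d - q c * w c := by
    apply intervalIntegral.integral_eq_sub_of_hasDerivAt (f := fun z => q z * w z)
    · intro z hz
      rw [uIcc_of_le hcd.le] at hz
      have h1 : HasDerivAt q (q' z) z := (hf z hz).1.div (hO.dg z hz).1 (hgpos z hz).ne'
      have h2 : HasDerivAt w (w' z) z := (hO.dB z hz).1.mul (hO.dB z hz).2
      exact h1.mul h2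
    · exact ii ((cq'.mul cw).add (cq.mul cw'))
  have hH' : (∫ z in c..d, (q' z * w z + q z * w' z))
      = (∫ z in c..d, q' z * w z) + ∫ z in c..d, q z * w' z :=
    intervalIntegral.integral_add (ii (cq'.mul cw)) (ii (cq.mul cw'))
  have i1 : IntervalIntegrable (fun z => r z * En l g B B₁ z) volume c d := ii (cr.mul cE)
  have i2 : IntervalIntegrable (fun z => q z * w' z) volume c d := ii (cq.mul cw')
  have i3 : IntervalIntegrable (fun z => Ed * r z) volume c d := ii (continuousOn_const.mul cr)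
  have hmain : (∫ z in c..d, f z * B z ^ 2) = 1 / (2 * l ^ 2) *
      ((∫ z in c..d, r z * En l g B B₁ z) - ∫ z in c..d, q z * w' z) := by
    rw [← intervalIntegral.integral_sub i1 i2,
      ← intervalIntegral.integral_const_mul]
    apply intervalIntegral.integral_congr
    intro z hz
    rw [uIcc_of_le hcd.le] at hz
    exact point hl (hgpos z hz)
  have hrE : (∫ z in c..d, r z * En l g B B₁ z) - Ed * (∫ z in c..d, r z)
      = ∫ z in c..d, r z * (En l g B B₁ z - Ed) := by
    rw [← intervalIntegral.integral_const_mul,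
      ← intervalIntegral.integral_sub i1 i3]
    apply intervalIntegral.integral_congr
    intro z _
    show r z * En l g B B₁ z - Ed * r z = r z * (En l g B B₁ z - Ed)
    ring
  have hfin : (∫ z in c..d, f z * B z ^ 2) - Ed / (2 * l ^ 2) * (∫ z in c..d, r z)
      = 1 / (2 * l ^ 2) * ((∫ z in c..d, r z * (En l g B B₁ z - Ed)) - (q d * w d - q c * w c)
        + ∫ z in c..d, q' z * w z) := by
    rw [hmain, ← hrE, ← hH, hH']
    ring
  rw [hfin]
  -- bounds
  have hdc : |d - c| ≤ L := by rw [abs_of_pos (by linarith)]; exact hdL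
  have b1 : |∫ z in c..d, r z * (En l g B B₁ z - Ed)| ≤ M / √m * (C₀ / l * Ed) * L := by
    rw [← Real.norm_eq_abs]
    refine (intervalIntegral.norm_integral_le_of_norm_le_const
      (C := M / √m * (C₀ / l * Ed)) ?_).trans ?_
    · intro z hz
      rw [uIoc_of_le hcd.le] at hz
      have hz' : z ∈ Icc c d := Ioc_subset_Icc_self hz
      rw [Real.norm_eq_abs, abs_mul]
      apply mul_le_mul _ (hE1 z hz') (abs_nonneg _) (by positivity)
      show |f z / √(g z)| ≤ M / √m
      rw [abs_div, abs_of_pos (Real.sqrt_pos.mpr (hgpos z hz'))]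
      exact div_le_div₀ hM.le (hf z hz').2.1 hsm (Real.sqrt_le_sqrt (hO.b z hz').1)
    · exact mul_le_mul_of_nonneg_left hdc (by positivity)
  have b2 : ∀ z ∈ Icc c d, |q z * w z| ≤ M / m * (C₀ * Ed / (2 * l)) := by
    intro z hz
    rw [abs_mul]
    apply mul_le_mul _ (hE2 z hz) (abs_nonneg _) (by positivity)
    show |f z / g z| ≤ M / m
    rw [abs_div, abs_of_pos (hgpos z hz)]
    exact div_le_div₀ hM.le (hf z hz).2.1 hm (hO.b z hz).1
  have b3 : |∫ z in c..d, q' z * w z| ≤ (M * M + M * M) / m ^ 2 * (C₀ * Ed / (2 * l)) * L := by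
    rw [← Real.norm_eq_abs]
    refine (intervalIntegral.norm_integral_le_of_norm_le_const
      (C := (M * M + M * M) / m ^ 2 * (C₀ * Ed / (2 * l))) ?_).trans ?_
    · intro z hz
      rw [uIoc_of_le hcd.le] at hz
      have hz' : z ∈ Icc c d := Ioc_subset_Icc_self hz
      rw [Real.norm_eq_abs, abs_mul]
      apply mul_le_mul _ (hE2 z hz') (abs_nonneg _) (by positivity)
      show |(f₁ z * g z - f z * g₁ z) / g z ^ 2| ≤ (M * M + M * M) / m ^ 2
      have hb := hO.b z hz'
      have hg0 := hgpos z hz'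
      rw [abs_div, abs_of_pos (by positivity : 0 < g z ^ 2)]
      apply div_le_div₀ (by positivity) _ (by positivity)
      · exact pow_le_pow_left₀ hm.le hb.1 2
      · have h1 : |f₁ z * g z| ≤ M * M := by
          rw [abs_mul, abs_of_pos hg0]
          exact mul_le_mul (hf z hz').2.2 hb.2.1 hg0.le hM.le
        have h2 : |f z * g₁ z| ≤ M * M := by
          rw [abs_mul]
          exact mul_le_mul (hf z hz').2.1 hb.2.2.1 (abs_nonneg _) hM.le
        exact (abs_sub _ _).trans (add_le_add h1 h2)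
    · exact mul_le_mul_of_nonneg_left hdc (by positivity)
  rw [abs_mul, abs_of_pos (by positivity : (0 : ℝ) < 1 / (2 * l ^ 2))]
  have hsum : |(∫ z in c..d, r z * (En l g B B₁ z - Ed)) - (q d * w d - q c * w c)
      + ∫ z in c..d, q' z * w z| ≤ M / √m * (C₀ / l * Ed) * L
        + 2 * (M / m * (C₀ * Ed / (2 * l))) + (M * M + M * M) / m ^ 2 * (C₀ * Ed / (2 * l)) * L := by
    have h1 := b2 d hdmem
    have h2 := b2 c hcmem
    rw [abs_le] at b1 b3 h1 h2 ⊢
    constructor <;> linarith [b1.1, b1.2, b3.1, b3.2, h1.1, h1.2, h2.1, h2.2]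
  refine (mul_le_mul_of_nonneg_left hsum (by positivity)).trans ?_
  have h3 : 1 / (2 * l ^ 2) * (M / √m * (C₀ / l * Ed) * L
        + 2 * (M / m * (C₀ * Ed / (2 * l))) + (M * M + M * M) / m ^ 2 * (C₀ * Ed / (2 * l)) * L)
      = (C₀ * (M * L / √m + M / m + M ^ 2 * L / m ^ 2) / 2) * Ed / l ^ 3 := by
    have hs0 : √m ≠ 0 := hsm.ne'
    have hm0 : m ≠ 0 := hm.ne'
    have hl0' : l ≠ 0 := hl0.ne'
    field_simp
    ring
  rw [h3]
  apply div_le_div_of_nonneg_right _ (by positivity)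
  apply mul_le_mul_of_nonneg_right _ hEd0
  have h4 : 0 ≤ C₀ * (M * L / √m + M / m + M ^ 2 * L / m ^ 2) := by positivity
  linarith

end Pool.Agent.Lib.MP478c11.DB
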