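import Pool.Agent.Lib.MP_478c11_gt.DB.Many

/-! # Module BUM: the maximum principle in a zone between two necks. -/

set_option autoImplicit false

namespace Pool.Agent.Lib.MP478c11.DB

open Set Filter Topology MeasureTheory
open scoped ContDiff

namespace BUMM

/-- a function with a zero and a positive derivative is positive just to the right -/
lemma pos_right {ψ : ℝ → ℝ} {z d : ℝ} (h : HasDerivAt ψ d z) (hd : 0 < d) (h0 : ψ z = 0) :
    ∃ e : ℝ, z < e ∧ ∀ t ∈ Ioo z e, 0 < ψ t := by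
  have h1 := hasDerivAt_iff_tendsto_slope.mp h
  have h2 : ∀ᶠ t in 𝓝[≠] z, 0 < slope ψ z t := h1.eventually (lt_mem_nhds hd)
  have h3 : ∀ᶠ t in 𝓝[>] z, 0 < slope ψ z t :=
    h2.filter_mono (nhdsWithin_mono z (fun t ht => ne_of_gt ht))
  obtain ⟨e, he, hs⟩ := mem_nhdsGT_iff_exists_Ioo_subset.mp h3
  refine ⟨e, he, fun t ht => ?_⟩
  have h4 : 0 < slope ψ z t := hs ht
  rw [slope_def_field, h0, sub_zero] at h4
  have h5 : 0 < t - z := sub_pos.mpr ht.1
  exact (div_pos_iff_of_pos_right h5).mp h4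

lemma maxp {s t : ℝ} {h φ ψ : ℝ → ℝ} (hh : ∀ z ∈ Icc s t, 0 < h z)
    (hφ : ∀ z ∈ Icc s t, HasDerivAt φ (ψ z / h z) z)
    (hψ : ∀ z ∈ Ioo s t, 0 < φ z → ∃ d : ℝ, 0 < d ∧ HasDerivAt ψ d z) (hs : φ s ≤ 0) (ht : φ t ≤ 0) :
    ∀ z ∈ Icc s t, φ z ≤ 0 := by
  intro z₁ hz₁
  by_contra hcon
  have hpos : 0 < φ z₁ := not_le.mp hcon
  have hc : ContinuousOn φ (Icc s t) := fun z hz => (hφ z hz).continuousAt.continuousWithinAt
  obtain ⟨z₀, hz₀, hmax⟩ := isCompact_Icc.exists_isMaxOn (⟨z₁, hz₁⟩ : (Icc s t).Nonempty) hc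
  have h5 : φ z₁ ≤ φ z₀ := hmax hz₁
  have h6 : 0 < φ z₀ := lt_of_lt_of_le hpos h5
  have h7 : s < z₀ := by
    refine lt_of_le_of_ne hz₀.1 fun h => ?_
    rw [← h] at h6
    exact absurd h6 (not_lt.mpr hs)
  have h8 : z₀ < t := by
    refine lt_of_le_of_ne hz₀.2 fun h => ?_
    rw [h] at h6
    exact absurd h6 (not_lt.mpr ht)
  have h10 : IsLocalMax φ z₀ := hmax.isLocalMax (Icc_mem_nhds h7 h8)
  have h11 : ψ z₀ / h z₀ = 0 := h10.hasDerivAt_eq_zero (hφ z₀ hz₀)
  have h12 : ψ z₀ = 0 := by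
    rcases div_eq_zero_iff.mp h11 with h | h
    · exact h
    · exact absurd h (hh z₀ hz₀).ne'
  obtain ⟨d, hd, hdψ⟩ := hψ z₀ ⟨h7, h8⟩ h6
  obtain ⟨e, he, hpos⟩ := pos_right hdψ hd h12
  obtain ⟨r, hr1, hr2⟩ := exists_between (lt_min he h8)
  have hr3 : r < e := lt_of_lt_of_le hr2 (min_le_left _ _)
  have hr4 : r < t := lt_of_lt_of_le hr2 (min_le_right _ _)
  have hmono : StrictMonoOn φ (Icc z₀ r) := by
    refine strictMonoOn_of_deriv_pos (convex_Icc _ _) ?_ ?_
    · exact hc.mono fun x hx => ⟨h7.le.trans hx.1, hx.2.trans hr4.le⟩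
    · intro x hx
      rw [interior_Icc] at hx
      have hx' : x ∈ Icc s t := ⟨(h7.trans hx.1).le, (hx.2.trans hr4).le⟩
      rw [(hφ x hx').deriv]
      exact div_pos (hpos x ⟨hx.1, hx.2.trans hr3⟩) (hh x hx')
  have h13 : φ z₀ < φ r := hmono ⟨le_rfl, hr1.le⟩ ⟨hr1.le, le_rfl⟩ hr1
  have h14 : φ r ≤ φ z₀ := hmax ⟨(h7.trans hr1).le, hr4.le⟩
  exact absurd h13 (not_lt.mpr h14)

end BUMM

open BUMM in
/-- BUM -/
theorem specBUM : SpecBUM := by
  intro h s t hsm hst hpos hW
  have hcd : Continuous (deriv h) := hsm.continuous_deriv (by simp)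
  have hne : (Icc s t).Nonempty := ⟨s, le_rfl, hst.le⟩
  obtain ⟨zm, hzm, hmin⟩ := isCompact_Icc.exists_isMinOn hne hsm.continuous.continuousOn
  obtain ⟨D, hD⟩ := isCompact_Icc.exists_bound_of_continuousOn (s := Icc s t) hcd.continuousOn
  set h0 := h zm with hh0
  have h0p : 0 < h0 := hpos zm hzm
  have hge : ∀ z ∈ Icc s t, h0 ≤ h z := fun z hz => hmin hz
  have hD0 : 0 ≤ D := (norm_nonneg _).trans (hD s ⟨le_rfl, hst.le⟩)
  set l := (D + 1) / h0 with hl
  have hlp : 0 < l := by positivity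
  have hlh : ∀ z ∈ Icc s t, 1 ≤ deriv h z + l * h z := by
    intro z hz
    have h1 : D + 1 ≤ l * h z := by
      calc D + 1 = l * h0 := by rw [hl]; field_simp
        _ ≤ l * h z := mul_le_mul_of_nonneg_left (hge z hz) hlp.le
    have h2 := hD z hz
    rw [Real.norm_eq_abs] at h2
    have h3 := (abs_le.mp h2).1
    linarith
  set A := 1 / (l * h0) with hA
  have hAp : 0 < A := by positivity
  set θ : ℝ → ℝ := fun z => A * (Real.exp (l * (t - s)) - Real.exp (l * (z - s))) with hθ
  have hθ0 : ∀ z ∈ Icc s t, 0 ≤ θ z := by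
    intro z hz
    refine mul_nonneg hAp.le (sub_nonneg.mpr (Real.exp_le_exp.mpr ?_))
    have := hz.2
    gcongr
  have hθ1 : ∀ z, θ z ≤ A * Real.exp (l * (t - s)) := by
    intro z
    refine mul_le_mul_of_nonneg_left ?_ hAp.le
    have := Real.exp_pos (l * (z - s))
    linarith
  have hE : ∀ z, HasDerivAt (fun z => Real.exp (l * (z - s)))
      (Real.exp (l * (z - s)) * (l * 1)) z := fun z =>
    (((hasDerivAt_id z).sub_const s).const_mul l).exp
  have hθd : ∀ z, HasDerivAt θ (-(A * l * Real.exp (l * (z - s)))) z := by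
    intro z
    refine (((hE z).const_sub (Real.exp (l * (t - s)))).const_mul A).congr_deriv ?_
    ring
  have hhd : ∀ z, HasDerivAt h (deriv h z) z := fun z =>
    (hsm.differentiable (by norm_num) z).hasDerivAt
  refine ⟨A * Real.exp (l * (t - s)), by positivity, ?_⟩
  intro n hn F y v R hS hF z hz
  have hR0 : 0 ≤ R := (abs_nonneg _).trans (hF z hz)
  set m := max |y s| |y t| with hm
  have hm0 : 0 ≤ m := (abs_nonneg _).trans (le_max_left _ _)
  have key : ∀ σ : ℝ, |σ| = 1 → ∀ ε : ℝ, 0 < ε → ∀ z ∈ Icc s t,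
      σ * y z ≤ m + (R + ε) * θ z := by
    intro σ hσ ε hε
    have hmx := maxp (s := s) (t := t) (h := h) (φ := fun z => σ * y z - (m + (R + ε) * θ z))
      (ψ := fun z => σ * v z + (R + ε) * (A * l) * (h z * Real.exp (l * (z - s)))) hpos ?_ ?_ ?_ ?_
    · intro x hx
      have h9 : σ * y x - (m + (R + ε) * θ x) ≤ 0 := hmx x hx
      linarith
    · intro x hx
      have hp := hpos x hx
      have h1 := ((hS x hx).1.const_mul σ).sub (((hθd x).const_mul (R + ε)).const_add m)
      refine h1.congr_deriv ?_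
      field_simp
      ring
    · intro x hx hxp
      have hx' : x ∈ Icc s t := ⟨hx.1.le, hx.2.le⟩
      have hp := hpos x hx'
      refine ⟨_, ?_, ((hS x hx').2.const_mul σ).add
        (((hhd x).mul (hE x)).const_mul ((R + ε) * (A * l)))⟩
      have e : σ * (((n : ℝ) ^ 2 * W h x * y x + F x) / h x) + (R + ε) * (A * l) *
          (deriv h x * Real.exp (l * (x - s)) + h x * (Real.exp (l * (x - s)) * (l * 1))) =
          ((n : ℝ) ^ 2 * W h x * (σ * y x) + σ * F x + (R + ε) * (A * l) *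
          (h x * ((deriv h x + l * h x) * Real.exp (l * (x - s))))) / h x := by
        field_simp
      rw [e]
      refine div_pos ?_ hp
      have h1 : 0 < σ * y x := by
        have h2 : 0 ≤ (R + ε) * θ x := mul_nonneg (by linarith) (hθ0 x hx')
        have h3 : 0 < σ * y x - (m + (R + ε) * θ x) := hxp
        linarith
      have h4 : 0 ≤ (n : ℝ) ^ 2 * W h x * (σ * y x) :=
        mul_nonneg (mul_nonneg (by positivity) (hW x hx).le) h1.le
      have h5 : -R ≤ σ * F x := by
        have h6 : |σ * F x| ≤ R := by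
          rw [abs_mul, hσ, one_mul]
          exact hF x hx'
        exact (abs_le.mp h6).1
      have h7 : 1 ≤ Real.exp (l * (x - s)) := by
        apply Real.one_le_exp
        have := hx.1
        apply mul_nonneg hlp.le
        linarith
      have h8 : 1 ≤ (deriv h x + l * h x) * Real.exp (l * (x - s)) := by
        have := hlh x hx'
        nlinarith
      have h9 : h0 ≤ h x * ((deriv h x + l * h x) * Real.exp (l * (x - s))) := by
        calc h0 ≤ h x * 1 := by rw [mul_one]; exact hge x hx'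
          _ ≤ _ := mul_le_mul_of_nonneg_left h8 hp.le
      have h10 : (R + ε) ≤ (R + ε) * (A * l) *
          (h x * ((deriv h x + l * h x) * Real.exp (l * (x - s)))) := by
        calc (R + ε) = (R + ε) * (A * l) * h0 := by
              rw [hA]
              field_simp
          _ ≤ _ := mul_le_mul_of_nonneg_left h9 (by positivity)
      linarith
    · show σ * y s - (m + (R + ε) * θ s) ≤ 0
      have h1 : σ * y s ≤ m := by
        refine (le_abs_self _).trans ?_
        rw [abs_mul, hσ, one_mul]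
        exact le_max_left _ _
      have h2 : 0 ≤ (R + ε) * θ s := mul_nonneg (by linarith) (hθ0 s ⟨le_rfl, hst.le⟩)
      linarith
    · show σ * y t - (m + (R + ε) * θ t) ≤ 0
      have h1 : σ * y t ≤ m := by
        refine (le_abs_self _).trans ?_
        rw [abs_mul, hσ, one_mul]
        exact le_max_right _ _
      have h2 : 0 ≤ (R + ε) * θ t := mul_nonneg (by linarith) (hθ0 t ⟨hst.le, le_rfl⟩)
      linarith
  have key2 : ∀ σ : ℝ, |σ| = 1 → σ * y z ≤ m + A * Real.exp (l * (t - s)) * R := by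
    intro σ hσ
    refine le_of_forall_pos_le_add fun ε hε => ?_
    have hCp : 0 < A * Real.exp (l * (t - s)) := by positivity
    have h1 := key σ hσ (ε / (A * Real.exp (l * (t - s)))) (by positivity) z hz
    have h2 : (R + ε / (A * Real.exp (l * (t - s)))) * θ z ≤
        (R + ε / (A * Real.exp (l * (t - s)))) * (A * Real.exp (l * (t - s))) :=
      mul_le_mul_of_nonneg_left (hθ1 z) (by positivity)
    have h3 : (R + ε / (A * Real.exp (l * (t - s)))) * (A * Real.exp (l * (t - s))) =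
        A * Real.exp (l * (t - s)) * R + ε := by
      rw [add_mul, div_mul_cancel₀ _ hCp.ne']
      ring
    linarith
  rw [abs_le]
  have h1 := key2 1 abs_one
  have h2 := key2 (-1) (by rw [abs_neg, abs_one])
  constructor <;> linarith

end Pool.Agent.Lib.MP478c11.DB
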