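import Pool.Agent.Lib.MP_478c11_gt.DB.Many

/-!
# Module CTV: the condition `Y q * f - V q * e ≠ 0` is kept under small perturbations
(a variation of module CNT).
-/

set_option autoImplicit false

namespace Pool.Agent.Lib.MP478c11.DB

open Set Filter Topology MeasureTheory
open scoped ContDiff

noncomputable section

theorem specCTV (hPD : SpecPD) (hLUN : SpecLUN) (hDEP : SpecDEP) : SpecCTV := by
  intro h κ a p q b c d D hpc hcd hdq hκ n e f hn Y V hL hne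
  obtain ⟨μ1, hμ1, hpd⟩ := hPD h κ a p q b c d D hpc hcd hdq hκ 0 1 one_pos
  obtain ⟨C, μ2, hC, hμ2, hdep⟩ := hDEP h κ a p q b c d D hpc hcd hdq hκ n
  obtain ⟨X, hX⟩ : ∃ X : ℝ, X = |Y q * f - V q * e| := ⟨_, rfl⟩
  have hXpos : 0 < X := by
    rw [hX]; exact abs_pos.mpr hne
  obtain ⟨K, hK⟩ : ∃ K : ℝ, K = (|f| + |e| + 1) * (C * (1 + |V p|)) := ⟨_, rfl⟩
  have hKpos : 0 < K := by
    rw [hK]; positivity
  refine ⟨min (min μ1 μ2) (X / (2 * K)), by positivity, ?_⟩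
  intro μ hμ Y₁ V₁ hL1 hzero
  have h1 : |μ| ≤ μ1 := hμ.trans ((min_le_left _ _).trans (min_le_left _ _))
  have h2 : |μ| ≤ μ2 := hμ.trans ((min_le_left _ _).trans (min_le_right _ _))
  have h3 : |μ| ≤ X / (2 * K) := hμ.trans (min_le_right _ _)
  obtain ⟨D1, -, -, -⟩ := hpd μ h1
  have off : ∀ z, z ∉ Icc c d → pert h κ μ z = h z := by
    intro z hz
    simp [pert, hκ.2 z hz]
  obtain ⟨l1, -⟩ := hLUN h (pert h κ μ) a p q b D D1 n hn
  have eV := l1 ⟨c, hpc, fun z hz => off z (fun hz' => absurd hz'.1 (not_le.mpr hz))⟩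
    Y V Y₁ V₁ hL hL1
  have sub : Icc p q ⊆ Ioo a b :=
    fun z hz => ⟨lt_of_lt_of_le D.ap hz.1, lt_of_le_of_lt hz.2 D.qb⟩
  have key := hdep μ h2 Y V Y₁ V₁ (fun z hz => hL.sys z (sub hz))
    (fun z hz => hL1.sys z (sub hz)) (by rw [hL1.one, hL.one]) eV.symm q ⟨D.pq.le, le_rfl⟩
  rw [hL.one, abs_one] at key
  have hXeq : X = |(Y q - Y₁ q) * f - (V q - V₁ q) * e| := by
    rw [hX]
    congr 1
    linarith
  have e1 : |(Y q - Y₁ q) * f - (V q - V₁ q) * e| ≤ |Y q - Y₁ q| * |f| + |V q - V₁ q| * |e| := by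
    have := abs_sub ((Y q - Y₁ q) * f) ((V q - V₁ q) * e)
    rwa [abs_mul, abs_mul] at this
  rw [abs_sub_comm (Y q) (Y₁ q), abs_sub_comm (V q) (V₁ q)] at e1
  have e2 : |Y₁ q - Y q| * |f| + |V₁ q - V q| * |e|
      ≤ (|f| + |e| + 1) * (|Y₁ q - Y q| + |V₁ q - V q|) := by
    nlinarith [abs_nonneg f, abs_nonneg e, abs_nonneg (Y₁ q - Y q), abs_nonneg (V₁ q - V q),
      mul_nonneg (abs_nonneg f) (abs_nonneg (V₁ q - V q)),
      mul_nonneg (abs_nonneg e) (abs_nonneg (Y₁ q - Y q))]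
  have e3 : (|f| + |e| + 1) * (|Y₁ q - Y q| + |V₁ q - V q|)
      ≤ (|f| + |e| + 1) * (C * |μ| * (1 + |V p|)) :=
    mul_le_mul_of_nonneg_left key (by positivity)
  have e4 : (|f| + |e| + 1) * (C * |μ| * (1 + |V p|)) = K * |μ| := by
    rw [hK]; ring
  have e5 : K * |μ| ≤ X / 2 := by
    have := mul_le_mul_of_nonneg_left h3 hKpos.le
    have e : K * (X / (2 * K)) = X / 2 := by
      field_simp
    linarith
  linarith

end

end Pool.Agent.Lib.MP478c11.DB
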