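import Pool.Agent.Lib.MP_478c11_gt.DB.Many

/-! # Module DEC: exponential decay inside a zone with positive curvature. -/

set_option autoImplicit false

namespace Pool.Agent.Lib.MP478c11.DB

open Set Filter Topology MeasureTheory
open scoped ContDiff

namespace DECM

/-- a function with a zero and a positive derivative is positive just to the right -/
lemma pos_right {ψ : ℝ → ℝ} {z d : ℝ} (h : HasDerivAt ψ d z) (hd : 0 < d) (h0 : ψ z = 0) :
    ∃ e : ℝ, z < e ∧ ∀ t ∈ Ioo z e, 0 < ψ t := by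
  have h1 := hasDerivAt_iff_tendsto_slope.mp h
  have h2 : ∀ᶠ t in 𝓝[≠] z, 0 < slope ψ z t := h1.eventually (lt_mem_nhds hd)
  have h3 : ∀ᶠ t in 𝓝[>] z, 0 < slope ψ z t :=
    h2.filter_mono (nhdsWithin_mono z (fun t ht => ne_of_gt ht))
  obtain ⟨e, he, hs⟩ := mem_nhdsGT_iff_exists_Ioo_subset.mp h3
  refine ⟨e, he, fun t ht => ?_⟩
  have h4 : 0 < slope ψ z t := hs ht
  rw [slope_def_field, h0, sub_zero] at h4
  have h5 : 0 < t - z := sub_pos.mpr ht.1
  exact (div_pos_iff_of_pos_right h5).mp h4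

lemma maxpr {s t : ℝ} {h φ ψ : ℝ → ℝ} (hst : s < t) (hh : ∀ z ∈ Icc s t, 0 < h z)
    (hφ : ∀ z ∈ Icc s t, HasDerivAt φ (ψ z / h z) z)
    (hψ : ∀ z ∈ Icc s t, 0 < φ z → ∃ d : ℝ, 0 < d ∧ HasDerivAt ψ d z)
    (hs : φ s ≤ 0) (ht : φ t ≤ 0) : ∀ z ∈ Icc s t, φ z ≤ 0 := by
  intro z₁ hz₁
  by_contra hcon
  have hpos : 0 < φ z₁ := not_le.mp hcon
  have hc : ContinuousOn φ (Icc s t) := fun z hz => (hφ z hz).continuousAt.continuousWithinAt
  obtain ⟨z₀, hz₀, hmax⟩ := isCompact_Icc.exists_isMaxOn (nonempty_Icc.mpr hst.le) hc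
  have h5 : φ z₁ ≤ φ z₀ := hmax hz₁
  have h6 : 0 < φ z₀ := lt_of_lt_of_le hpos h5
  have h7 : s < z₀ := by
    refine lt_of_le_of_ne hz₀.1 fun h => ?_
    rw [← h] at h6
    exact absurd h6 (not_lt.mpr hs)
  have h8 : z₀ < t := by
    refine lt_of_le_of_ne hz₀.2 fun h => ?_
    rw [h] at h6
    exact absurd h6 (not_lt.mpr ht)
  have h10 : IsLocalMax φ z₀ := hmax.isLocalMax (Icc_mem_nhds h7 h8)
  have h11 : ψ z₀ / h z₀ = 0 := h10.hasDerivAt_eq_zero (hφ z₀ hz₀)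
  have h12 : ψ z₀ = 0 := by
    rcases div_eq_zero_iff.mp h11 with h | h
    · exact h
    · exact absurd h (hh z₀ hz₀).ne'
  obtain ⟨d, hd, hdψ⟩ := hψ z₀ hz₀ h6
  obtain ⟨e, he, hpos⟩ := pos_right hdψ hd h12
  obtain ⟨r, hr1, hr2⟩ := exists_between (lt_min he h8)
  have hr3 : r < e := lt_of_lt_of_le hr2 (min_le_left _ _)
  have hr4 : r < t := lt_of_lt_of_le hr2 (min_le_right _ _)
  have hmono : StrictMonoOn φ (Icc z₀ r) := by
    refine strictMonoOn_of_deriv_pos (convex_Icc _ _) ?_ ?_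
    · exact hc.mono fun x hx => ⟨hz₀.1.trans hx.1, hx.2.trans hr4.le⟩
    · intro x hx
      rw [interior_Icc] at hx
      have hx' : x ∈ Icc s t := ⟨hz₀.1.trans hx.1.le, (hx.2.trans hr4).le⟩
      rw [(hφ x hx').deriv]
      exact div_pos (hpos x ⟨hx.1, hx.2.trans hr3⟩) (hh x hx')
  have h13 : φ z₀ < φ r := hmono ⟨le_rfl, hr1.le⟩ ⟨hr1.le, le_rfl⟩ hr1
  have h14 : φ r ≤ φ z₀ := hmax ⟨(h7.trans hr1).le, hr4.le⟩
  exact absurd h13 (not_lt.mpr h14)

/-- the pointwise inequality -/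
lemma ineq {hz hp H L M R w₀ Wz e₁ e₂ N lam Y F : ℝ} (h0 : 0 < hz) (h1 : hz ≤ H) (h2 : |hp| ≤ H)
    (hM : 0 ≤ M) (hR : 0 ≤ R) (hw0 : 0 < w₀) (hW : w₀ ≤ Wz) (he1 : 0 < e₁) (he2 : 0 < e₂)
    (hN : 1 ≤ N) (hlam : 0 < lam) (hL : L = lam * N) (hlH : lam ^ 2 * H ^ 2 + lam * H ^ 2 ≤ w₀)
    (hF : |F| ≤ R) (hφ : 0 < Y - (M * (e₁ + e₂) + R / w₀)) :
    0 < (N ^ 2 * Wz * Y + F) - hz * (hp * (M * (L * (e₁ - e₂))) + hz * (M * (L * (L * e₁ + L * e₂)))) := by
  have hL0 : 0 < L := by rw [hL]; positivity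
  have hH : 0 < H := h0.trans_le h1
  have hLH : L ^ 2 * H ^ 2 + L * H ^ 2 ≤ N ^ 2 * w₀ := by
    have e1 : L ^ 2 * H ^ 2 + L * H ^ 2 ≤ N ^ 2 * (lam ^ 2 * H ^ 2 + lam * H ^ 2) := by
      rw [hL]
      have hNN : N ≤ N ^ 2 := by nlinarith
      have q := mul_le_mul_of_nonneg_right hNN (show 0 ≤ lam * H ^ 2 by positivity)
      nlinarith
    exact e1.trans (mul_le_mul_of_nonneg_left hlH (by positivity))
  have a1 : hz * (hp * (M * (L * (e₁ - e₂)))) ≤ M * (e₁ + e₂) * (L * H ^ 2) := by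
    have b1 : |hp * (e₁ - e₂)| ≤ H * (e₁ + e₂) := by
      rw [abs_mul]
      refine mul_le_mul h2 ?_ (abs_nonneg _) hH.le
      rw [abs_le]
      constructor <;> linarith
    have b2 : hp * (e₁ - e₂) ≤ H * (e₁ + e₂) := (le_abs_self _).trans b1
    have b3 : hz * (hp * (e₁ - e₂)) ≤ H * (H * (e₁ + e₂)) :=
      (mul_le_mul_of_nonneg_left b2 h0.le).trans
        (mul_le_mul_of_nonneg_right h1 (by positivity))
    have b4 := mul_le_mul_of_nonneg_left b3 (show 0 ≤ M * L by positivity)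
    nlinarith
  have a2 : hz * (hz * (M * (L * (L * e₁ + L * e₂)))) ≤ M * (e₁ + e₂) * (L ^ 2 * H ^ 2) := by
    have b1 : hz * hz ≤ H * H := mul_le_mul h1 h1 h0.le hH.le
    have b2 := mul_le_mul_of_nonneg_left b1 (show 0 ≤ M * (e₁ + e₂) * L ^ 2 by positivity)
    nlinarith
  have a3 : M * (e₁ + e₂) * (L ^ 2 * H ^ 2 + L * H ^ 2) ≤ M * (e₁ + e₂) * (N ^ 2 * w₀) :=
    mul_le_mul_of_nonneg_left hLH (by positivity)
  have a4 : N ^ 2 * w₀ * (M * (e₁ + e₂) + R / w₀) = M * (e₁ + e₂) * (N ^ 2 * w₀) + N ^ 2 * R := by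
    field_simp
  have a5 : N ^ 2 * w₀ * (M * (e₁ + e₂) + R / w₀) ≤ N ^ 2 * Wz * (M * (e₁ + e₂) + R / w₀) := by
    refine mul_le_mul_of_nonneg_right ?_ (by positivity)
    exact mul_le_mul_of_nonneg_left hW (by positivity)
  have a6 : R ≤ N ^ 2 * R := by
    have : 1 ≤ N ^ 2 := one_le_pow₀ hN
    nlinarith
  have a7 : -R ≤ F := (abs_le.mp hF).1
  have a8 : 0 < N ^ 2 * Wz * (Y - (M * (e₁ + e₂) + R / w₀)) := by
    have : 0 < Wz := hw0.trans_le hW
    positivity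
  nlinarith

/-- the barrier bound -/
lemma barrier {h : ℝ → ℝ} {s t w₀ H lam : ℝ} (hsm : ContDiff ℝ ∞ h) (hst : s < t)
    (hpos : ∀ z ∈ Icc s t, 0 < h z) (hW : ∀ z ∈ Icc s t, w₀ ≤ W h z) (hw0 : 0 < w₀)
    (hH : ∀ z ∈ Icc s t, h z ≤ H ∧ |deriv h z| ≤ H) (hlam : 0 < lam)
    (hlH : lam ^ 2 * H ^ 2 + lam * H ^ 2 ≤ w₀) {n : ℕ} (hn : 1 ≤ n) {F y v : ℝ → ℝ} {R M : ℝ}
    (hS : Sys h n F y v (Icc s t)) (hb : ∀ z ∈ Icc s t, |F z| ≤ R ∧ y z ≤ M) (hM : 0 ≤ M) (hR : 0 ≤ R) :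
    ∀ z ∈ Icc s t, y z ≤ M * (Real.exp (lam * n * (z - t)) + Real.exp (lam * n * (s - z))) + R / w₀ := by
  have hN : (1 : ℝ) ≤ n := by exact_mod_cast hn
  obtain ⟨L, hL⟩ : ∃ L : ℝ, L = lam * n := ⟨_, rfl⟩
  have hL0 : 0 < L := by rw [hL]; positivity
  have hE1 : ∀ z, HasDerivAt (fun z => Real.exp (L * (z - t))) (L * Real.exp (L * (z - t))) z := by
    intro z
    have h1 : HasDerivAt (fun z : ℝ => L * (z - t)) L z := by
      simpa using ((hasDerivAt_id z).sub_const t).const_mul L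
    rw [mul_comm]
    exact h1.exp
  have hE2 : ∀ z, HasDerivAt (fun z => Real.exp (L * (s - z))) (-(L * Real.exp (L * (s - z)))) z := by
    intro z
    have h1 : HasDerivAt (fun z : ℝ => L * (s - z)) (-L) z := by
      simpa using ((hasDerivAt_id z).const_sub s).const_mul L
    have h2 := h1.exp
    rwa [mul_neg, mul_comm] at h2
  have hd : ∀ z, HasDerivAt h (deriv h z) z := fun z =>
    (hsm.differentiable (by simp)).differentiableAt.hasDerivAt
  rw [← hL]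
  obtain ⟨φ, hφ⟩ : ∃ φ : ℝ → ℝ, φ = fun z => y z - (M * (Real.exp (L * (z - t)) + Real.exp (L * (s - z))) + R / w₀) :=
    ⟨_, rfl⟩
  obtain ⟨ψ, hψ⟩ : ∃ ψ : ℝ → ℝ, ψ = fun z => v z - h z * (M * (L * (Real.exp (L * (z - t)) - Real.exp (L * (s - z))))) :=
    ⟨_, rfl⟩
  suffices hmain : ∀ z ∈ Icc s t, φ z ≤ 0 by
    intro z hz
    have := hmain z hz
    rw [hφ] at this
    simp only at this
    linarith
  apply maxpr (ψ := ψ) hst hpos
  · intro z hz
    have h1 := (hS z hz).1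
    have h2 := (((hE1 z).add (hE2 z)).const_mul M).add_const (R / w₀)
    have h3 := h1.sub h2
    have hz0 := (hpos z hz).ne'
    have e : v z / h z - M * (L * Real.exp (L * (z - t)) + -(L * Real.exp (L * (s - z)))) = ψ z / h z := by
      rw [hψ]
      field_simp
      ring
    rw [e] at h3
    rw [hφ]
    exact h3
  · intro z hz hφz
    have h1 := (hS z hz).2
    have h2 := (hd z).mul ((((hE1 z).sub (hE2 z)).const_mul L).const_mul M)
    have h3 := h1.sub h2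
    have hz0 := (hpos z hz)
    refine ⟨_, ?_, by rw [hψ]; exact h3⟩
    have hφz' : 0 < y z - (M * (Real.exp (L * (z - t)) + Real.exp (L * (s - z))) + R / w₀) := by
      rw [hφ] at hφz
      exact hφz
    have key := ineq (hp := deriv h z) (L := L) (lam := lam) (Wz := W h z) (N := (n : ℝ)) (F := F z) hz0
      (hH z hz).1 (hH z hz).2 hM hR hw0 (hW z hz) (Real.exp_pos (L * (z - t))) (Real.exp_pos (L * (s - z)))
      hN hlam hL hlH (hb z hz).1 hφz'
    have e : (↑n ^ 2 * W h z * y z + F z) / h z - (deriv h z * (M * (L * (Real.exp (L * (z - t)) - Real.exp (L * (s - z))))) +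
        h z * (M * (L * (L * Real.exp (L * (z - t)) - -(L * Real.exp (L * (s - z))))))) =
        ((↑n ^ 2 * W h z * y z + F z) - h z * (deriv h z * (M * (L * (Real.exp (L * (z - t)) - Real.exp (L * (s - z))))) +
        h z * (M * (L * (L * Real.exp (L * (z - t)) + L * Real.exp (L * (s - z))))))) / h z := by
      field_simp
      ring
    have := div_pos key hz0
    rw [← e] at this
    exact this
  · rw [hφ]
    have h1 := (hb s (left_mem_Icc.mpr hst.le)).2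
    have h2 : 0 ≤ M * Real.exp (L * (s - t)) := by positivity
    have h3 : 0 ≤ R / w₀ := by positivity
    simp only [sub_self, mul_zero, Real.exp_zero]
    nlinarith
  · rw [hφ]
    have h1 := (hb t (right_mem_Icc.mpr hst.le)).2
    have h2 : 0 ≤ M * Real.exp (L * (s - t)) := by positivity
    have h3 : 0 ≤ R / w₀ := by positivity
    simp only [sub_self, mul_zero, Real.exp_zero]
    nlinarith

end DECM

open DECM

theorem specDEC : SpecDEC := by
  intro h s t hsm hst hhW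
  have hcW : Continuous (W h) := by
    have h1 : Continuous (deriv h) := hsm.continuous_deriv (by simp)
    have h2 : ContDiff ℝ ∞ (deriv h) := (contDiff_infty_iff_deriv.mp hsm).2
    have h3 : Continuous (deriv (deriv h)) := h2.continuous_deriv (by simp)
    have h4 := hsm.continuous
    unfold W
    fun_prop
  have hcd : Continuous (deriv h) := hsm.continuous_deriv (by simp)
  have hne : (Icc s t).Nonempty := nonempty_Icc.mpr hst.le
  obtain ⟨zw, hzw, hw⟩ := isCompact_Icc.exists_isMinOn hne hcW.continuousOn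
  obtain ⟨zW, hzW, hWM⟩ := isCompact_Icc.exists_isMaxOn hne hcW.continuousOn
  obtain ⟨zh, hzh, hhm⟩ := isCompact_Icc.exists_isMinOn hne hsm.continuous.continuousOn
  obtain ⟨zH, hzH, hhM⟩ := isCompact_Icc.exists_isMaxOn hne hsm.continuous.continuousOn
  obtain ⟨zD, hzD, hDM⟩ := isCompact_Icc.exists_isMaxOn hne hcd.abs.continuousOn
  obtain ⟨w₀, hw0⟩ : ∃ x, x = W h zw := ⟨_, rfl⟩
  obtain ⟨W₁, hW1⟩ : ∃ x, x = W h zW := ⟨_, rfl⟩
  obtain ⟨h₀, hh0⟩ : ∃ x, x = h zh := ⟨_, rfl⟩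
  obtain ⟨H, hH⟩ : ∃ x, x = max (h zH) |deriv h zD| := ⟨_, rfl⟩
  have pw0 : 0 < w₀ := by rw [hw0]; exact (hhW zw hzw).2
  have ph0 : 0 < h₀ := by rw [hh0]; exact (hhW zh hzh).1
  have pW1 : 0 < W₁ := by rw [hW1]; exact (hhW zW hzW).2
  have pH : 0 < H := by rw [hH]; exact lt_of_lt_of_le (hhW zH hzH).1 (le_max_left _ _)
  have bH : ∀ z ∈ Icc s t, h z ≤ H ∧ |deriv h z| ≤ H := by
    intro z hz
    rw [hH]
    exact ⟨le_trans (hhM hz) (le_max_left _ _), le_trans (hDM hz) (le_max_right _ _)⟩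
  have bw : ∀ z ∈ Icc s t, w₀ ≤ W h z := fun z hz => by rw [hw0]; exact hw hz
  have bW : ∀ z ∈ Icc s t, W h z ≤ W₁ := fun z hz => by rw [hW1]; exact hWM hz
  have bh : ∀ z ∈ Icc s t, h₀ ≤ h z := fun z hz => by rw [hh0]; exact hhm hz
  obtain ⟨lam, hlam⟩ : ∃ x, x = min 1 (w₀ / (2 * H ^ 2)) := ⟨_, rfl⟩
  have pl : 0 < lam := by rw [hlam]; exact lt_min one_pos (by positivity)
  have hl1 : lam ≤ 1 := by rw [hlam]; exact min_le_left _ _
  have hl2 : lam * H ^ 2 ≤ w₀ / 2 := by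
    have : lam ≤ w₀ / (2 * H ^ 2) := by rw [hlam]; exact min_le_right _ _
    have h2 := mul_le_mul_of_nonneg_right this (show 0 ≤ H ^ 2 by positivity)
    have e : w₀ / (2 * H ^ 2) * H ^ 2 = w₀ / 2 := by field_simp
    rwa [e] at h2
  have hlH : lam ^ 2 * H ^ 2 + lam * H ^ 2 ≤ w₀ := by
    have : lam ^ 2 * H ^ 2 ≤ lam * H ^ 2 := by
      refine mul_le_mul_of_nonneg_right ?_ (by positivity)
      nlinarith
    linarith
  obtain ⟨l, hl⟩ : ∃ x, x = t - s := ⟨_, rfl⟩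
  have pl' : 0 < l := by rw [hl]; linarith
  refine ⟨(2 + 1 / w₀) * (1 + 24 * H / l + W₁ * l / (12 * h₀)) + l / (12 * h₀), lam * l / 12, by positivity, by positivity, ?_⟩
  intro n hn F y v R M hS hb
  have hN : (1 : ℝ) ≤ n := by exact_mod_cast hn
  have hR : 0 ≤ R := (abs_nonneg _).trans (hb s (left_mem_Icc.mpr hst.le)).1
  have hM : 0 ≤ M := (abs_nonneg _).trans (hb s (left_mem_Icc.mpr hst.le)).2
  have b1 := barrier hsm hst (fun z hz => (hhW z hz).1) bw pw0 bH pl hlH hn hS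
    (fun z hz => ⟨(hb z hz).1, (le_abs_self _).trans (hb z hz).2⟩) hM hR
  have hS' : Sys h n (fun z => -F z) (fun z => -y z) (fun z => -v z) (Icc s t) := by
    intro z hz
    obtain ⟨h1, h2⟩ := hS z hz
    refine ⟨?_, ?_⟩
    · have := h1.neg
      rwa [← neg_div] at this
    · have := h2.neg
      rw [← neg_div] at this
      have e : -(↑n ^ 2 * W h z * y z + F z) = ↑n ^ 2 * W h z * -y z + -F z := by ring
      rwa [e] at this
  have b2 := barrier hsm hst (fun z hz => (hhW z hz).1) bw pw0 bH pl hlH hn hS'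
    (fun z hz => ⟨by rw [abs_neg]; exact (hb z hz).1, (neg_le_abs _).trans (hb z hz).2⟩) hM hR
  obtain ⟨e, he⟩ : ∃ x, x = Real.exp (-(lam * l / 12 * n)) := ⟨_, rfl⟩
  obtain ⟨B, hB⟩ : ∃ x, x = 2 * M * e + R / w₀ := ⟨_, rfl⟩
  have pe : 0 < e := by rw [he]; exact Real.exp_pos _
  have hB0 : 0 ≤ B := by rw [hB]; positivity
  have hyB : ∀ z, s + l / 12 ≤ z → z ≤ t - l / 12 → |y z| ≤ B := by
    intro z hz1 hz2
    have hz : z ∈ Icc s t := ⟨by linarith, by linarith⟩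
    have c1 : Real.exp (lam * n * (z - t)) ≤ e := by
      rw [he]
      apply Real.exp_le_exp.mpr
      have : 0 < lam * n := by positivity
      nlinarith
    have c2 : Real.exp (lam * n * (s - z)) ≤ e := by
      rw [he]
      apply Real.exp_le_exp.mpr
      have : 0 < lam * n := by positivity
      nlinarith
    have c3 : M * (Real.exp (lam * n * (z - t)) + Real.exp (lam * n * (s - z))) + R / w₀ ≤ B := by
      rw [hB]
      nlinarith
    rw [abs_le]
    constructor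
    · have := b2 z hz
      linarith
    · have := b1 z hz
      linarith
  intro z hz
  rw [← he]
  have hz1 : s + l / 3 ≤ z := by have := hz.1; rw [hl]; linarith
  have hz2 : z ≤ t - l / 3 := by have := hz.2; rw [hl]; linarith
  obtain ⟨z₁, hz₁⟩ : ∃ x, x = z + l / 12 := ⟨_, rfl⟩
  have hzz : z < z₁ := by rw [hz₁]; linarith
  have hIcc : ∀ x ∈ Icc z z₁, x ∈ Icc s t ∧ |y x| ≤ B := by
    intro x hx
    have hx1 := hx.1
    have hx2 := hx.2
    rw [hz₁] at hx2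
    exact ⟨⟨by linarith, by linarith⟩, hyB x (by linarith) (by linarith)⟩
  have hcy : ContinuousOn y (Icc z z₁) := fun x hx =>
    ((hS x (hIcc x hx).1).1).continuousAt.continuousWithinAt
  obtain ⟨ξ, hξ, hξ'⟩ := exists_hasDerivAt_eq_slope y (fun x => v x / h x) hzz hcy
    (fun x hx => (hS x (hIcc x (Ioo_subset_Icc_self hx)).1).1)
  have hξI := hIcc ξ (Ioo_subset_Icc_self hξ)
  have hvξ : |v ξ| ≤ 24 * H / l * B := by
    have ph := (hhW ξ hξI.1).1
    have e1 : v ξ = h ξ * ((y z₁ - y z) / (z₁ - z)) := by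
      rw [← hξ']
      field_simp
    have e2 : z₁ - z = l / 12 := by rw [hz₁]; ring
    rw [e1, e2, abs_mul, abs_of_pos ph, abs_div, abs_of_pos (show 0 < l / 12 by positivity)]
    have e3 : |y z₁ - y z| ≤ 2 * B := by
      have q1 := (hIcc z₁ (right_mem_Icc.mpr hzz.le)).2
      have q2 := (hIcc z (left_mem_Icc.mpr hzz.le)).2
      have := abs_sub (y z₁) (y z)
      linarith
    have e4 : |y z₁ - y z| / (l / 12) ≤ 2 * B / (l / 12) :=
      div_le_div_of_nonneg_right e3 (by positivity)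
    calc h ξ * (|y z₁ - y z| / (l / 12)) ≤ H * (2 * B / (l / 12)) :=
          mul_le_mul (bH ξ hξI.1).1 e4 (by positivity) pH.le
      _ = 24 * H / l * B := by field_simp; ring
  have hvd : |v ξ - v z| ≤ ((n : ℝ) ^ 2 * W₁ * B + R) / h₀ * (l / 12) := by
    have hbd : ∀ x ∈ Icc z z₁, ‖((n : ℝ) ^ 2 * W h x * y x + F x) / h x‖ ≤ ((n : ℝ) ^ 2 * W₁ * B + R) / h₀ := by
      intro x hx
      obtain ⟨hx1, hx2⟩ := hIcc x hx
      have px := (hhW x hx1).1
      have pWx := (hhW x hx1).2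
      rw [Real.norm_eq_abs, abs_div, abs_of_pos px]
      have f1 : |(n : ℝ) ^ 2 * W h x * y x + F x| ≤ (n : ℝ) ^ 2 * W₁ * B + R := by
        refine (abs_add_le _ _).trans (add_le_add ?_ (hb x hx1).1)
        rw [abs_mul, abs_of_pos (show 0 < (n : ℝ) ^ 2 * W h x by positivity)]
        refine mul_le_mul ?_ hx2 (abs_nonneg _) (by positivity)
        exact mul_le_mul_of_nonneg_left (bW x hx1) (by positivity)
      calc |(n : ℝ) ^ 2 * W h x * y x + F x| / h x ≤ ((n : ℝ) ^ 2 * W₁ * B + R) / h x :=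
            div_le_div_of_nonneg_right f1 px.le
        _ ≤ ((n : ℝ) ^ 2 * W₁ * B + R) / h₀ :=
            div_le_div_of_nonneg_left (by positivity) ph0 (bh x hx1)
    have := (convex_Icc z z₁).norm_image_sub_le_of_norm_hasDerivWithin_le
      (f := v) (f' := fun x => ((n : ℝ) ^ 2 * W h x * y x + F x) / h x)
      (fun x hx => ((hS x (hIcc x hx).1).2).hasDerivWithinAt) hbd
      (left_mem_Icc.mpr hzz.le) (Ioo_subset_Icc_self hξ)
    rw [Real.norm_eq_abs, Real.norm_eq_abs] at this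
    refine this.trans ?_
    refine mul_le_mul_of_nonneg_left ?_ (by positivity)
    rw [abs_of_pos (sub_pos.mpr hξ.1)]
    have := hξ.2
    rw [hz₁] at this
    linarith
  have hvz : |v z| ≤ 24 * H / l * B + ((n : ℝ) ^ 2 * W₁ * B + R) / h₀ * (l / 12) := by
    have : v z = v ξ - (v ξ - v z) := by ring
    rw [this]
    exact (abs_sub _ _).trans (add_le_add hvξ hvd)
  have hyz := (hIcc z (left_mem_Icc.mpr hzz.le)).2
  have hN2 : (1 : ℝ) ≤ (n : ℝ) ^ 2 := one_le_pow₀ hN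
  have hBe : B ≤ (2 + 1 / w₀) * (e * M + R) := by
    rw [hB]
    have : R / w₀ = 1 / w₀ * R := by ring
    rw [this]
    have q1 : 0 ≤ 1 / w₀ * (e * M) := by positivity
    nlinarith
  obtain ⟨N2, hN2'⟩ : ∃ x, x = (n : ℝ) ^ 2 := ⟨_, rfl⟩
  rw [← hN2'] at hvz hN2 ⊢
  have k0 : 0 < N2 := by linarith
  obtain ⟨A, hA⟩ : ∃ x, x = 1 + 24 * H / l + W₁ * l / (12 * h₀) := ⟨_, rfl⟩
  obtain ⟨D, hD⟩ : ∃ x, x = l / (12 * h₀) := ⟨_, rfl⟩
  rw [← hA, ← hD]
  have pA : 0 < A := by rw [hA]; positivity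
  have pD : 0 < D := by rw [hD]; positivity
  have pq : 0 ≤ 24 * H / l := by positivity
  have k1 : |y z| + |v z| ≤ N2 * (A * B) + N2 * (D * R) := by
    have k2 : (N2 * W₁ * B + R) / h₀ * (l / 12) = N2 * (W₁ * l / (12 * h₀) * B) + D * R := by
      rw [hD]
      field_simp
    have k3 : N2 * (A * B) = N2 * (W₁ * l / (12 * h₀) * B) + N2 * ((1 + 24 * H / l) * B) := by
      rw [hA]
      ring
    have k4 : (1 + 24 * H / l) * B ≤ N2 * ((1 + 24 * H / l) * B) :=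
      le_mul_of_one_le_left (by positivity) hN2
    have k5 : D * R ≤ N2 * (D * R) := le_mul_of_one_le_left (by positivity) hN2
    rw [k2] at hvz
    rw [k3]
    have k6 : (1 + 24 * H / l) * B = B + 24 * H / l * B := by ring
    linarith
  have k7 : A * B ≤ (2 + 1 / w₀) * A * (e * M + R) := by
    have := mul_le_mul_of_nonneg_left hBe pA.le
    calc A * B ≤ A * ((2 + 1 / w₀) * (e * M + R)) := this
      _ = (2 + 1 / w₀) * A * (e * M + R) := by ring
  have k8 : D * R ≤ D * (e * M + R) := by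
    refine mul_le_mul_of_nonneg_left ?_ pD.le
    have : 0 ≤ e * M := by positivity
    linarith
  calc |y z| + |v z| ≤ N2 * (A * B) + N2 * (D * R) := k1
    _ ≤ N2 * ((2 + 1 / w₀) * A * (e * M + R)) + N2 * (D * (e * M + R)) :=
        add_le_add (mul_le_mul_of_nonneg_left k7 k0.le) (mul_le_mul_of_nonneg_left k8 k0.le)
    _ = ((2 + 1 / w₀) * A + D) * N2 * (e * M + R) := by ring

end Pool.Agent.Lib.MP478c11.DB
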