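import Pool.Agent.Lib.MP_478c11_gt.DB.Many

/-!
# MP_478c11, DB, module EMB
-/

set_option autoImplicit false

namespace Pool.Agent.Lib.MP478c11.DB

open Set Filter Topology MeasureTheory
open scoped ContDiff

theorem specEMB (hVBS : SpecVBS) (hGLB : SpecGLB) (hFXN : SpecFXN) : SpecEMB := by
  classical
  intro h a b k p q hM hk hneck hNB
  obtain ⟨n₂, C₁, B₁, hC₁, hn₂, hbig⟩ := hGLB h a b k p q hM hk hneck
  obtain ⟨C₃, hC₃, hv⟩ := hVBS h a b hM.sph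
  have hfx : ∀ n : ℕ, ∃ C : ℝ, 0 < C ∧ (2 ≤ n → ∀ (F y v : ℝ → ℝ) (R M : ℝ),
      Sys h n F y v (Ioo a b) → (∀ z ∈ Ioo a b, |F z| ≤ R ∧ |y z| ≤ M) →
        ∀ z ∈ Ioo a b, |y z| ≤ C * R) := by
    intro n
    by_cases hn : 2 ≤ n
    · obtain ⟨C, hC, hh⟩ := hFXN h a b k p q hM hk n (by omega) (hNB n hn)
      exact ⟨C, hC, fun _ => hh⟩
    · exact ⟨1, one_pos, fun h2 => absurd h2 hn⟩
  choose Cf hCf hf using hfx
  obtain ⟨C₂, hC₂d⟩ : ∃ C₂, C₂ = ∑ n ∈ Finset.range n₂, Cf n := ⟨_, rfl⟩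
  have hC₂ : 0 ≤ C₂ := by
    rw [hC₂d]
    exact Finset.sum_nonneg fun n _ => (hCf n).le
  have hCle : ∀ n, n < n₂ → Cf n ≤ C₂ := by
    intro n hn
    rw [hC₂d]
    exact Finset.single_le_sum (f := Cf) (fun m _ => (hCf m).le) (Finset.mem_range.2 hn)
  have hy : ∀ n : ℕ, 2 ≤ n → ∀ (F y v : ℝ → ℝ) (R M : ℝ), Sys h n F y v (Ioo a b) →
      (∀ z ∈ Ioo a b, |F z| ≤ R ∧ |y z| ≤ M) → 0 ≤ R →
        ∀ z ∈ Ioo a b, |y z| ≤ (C₁ + C₂) * (n : ℝ) ^ B₁ * R := by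
    intro n hn F y v R M hS hb hR z hz
    have hn1 : (1 : ℝ) ≤ (n : ℝ) := by
      have : 1 ≤ n := by omega
      exact_mod_cast this
    have hpow : (1 : ℝ) ≤ (n : ℝ) ^ B₁ := one_le_pow₀ hn1
    rcases lt_or_ge n n₂ with h1 | h1
    · have h2 := hf n hn F y v R M hS hb z hz
      refine h2.trans ?_
      apply mul_le_mul_of_nonneg_right _ hR
      have h3 := hCle n h1
      nlinarith
    · have h2 := hbig n h1 F y v R M hS hb z hz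
      refine h2.trans ?_
      apply mul_le_mul_of_nonneg_right _ hR
      apply mul_le_mul_of_nonneg_right _ (by linarith)
      linarith
  refine ⟨(C₁ + C₂ + 1) * (1 + C₃), B₁ + 2, by positivity, ?_⟩
  intro n hn F y v R M hS hb z hz
  have hR : 0 ≤ R := (abs_nonneg _).trans (hb z hz).1
  have hn1 : (1 : ℝ) ≤ (n : ℝ) := by
    have : 1 ≤ n := by omega
    exact_mod_cast this
  have hpow : (1 : ℝ) ≤ (n : ℝ) ^ B₁ := one_le_pow₀ hn1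
  have hpow2 : (1 : ℝ) ≤ (n : ℝ) ^ (B₁ + 2) := one_le_pow₀ hn1
  have hpow3 : (n : ℝ) ^ B₁ ≤ (n : ℝ) ^ (B₁ + 2) := pow_le_pow_right₀ hn1 (by omega)
  have hyn := hy n hn F y v R M hS hb hR
  constructor
  · refine (hyn z hz).trans ?_
    apply mul_le_mul_of_nonneg_right _ hR
    have h1 : C₁ + C₂ ≤ (C₁ + C₂ + 1) * (1 + C₃) := by nlinarith
    have h0 : 0 ≤ C₁ + C₂ := by linarith
    calc (C₁ + C₂) * (n : ℝ) ^ B₁ ≤ (C₁ + C₂) * (n : ℝ) ^ (B₁ + 2) :=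
          mul_le_mul_of_nonneg_left hpow3 h0
      _ ≤ (C₁ + C₂ + 1) * (1 + C₃) * (n : ℝ) ^ (B₁ + 2) :=
          mul_le_mul_of_nonneg_right h1 (by linarith)
  · have h2 := hv n (by omega) F y v R ((C₁ + C₂) * (n : ℝ) ^ B₁ * R) hS
      (fun w hw => ⟨(hb w hw).1, hyn w hw⟩) z hz
    refine h2.trans ?_
    have h3 : (n : ℝ) ^ 2 * ((C₁ + C₂) * (n : ℝ) ^ B₁ * R) + R
        = ((C₁ + C₂) * (n : ℝ) ^ (B₁ + 2) + 1) * R := by ring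
    rw [h3, ← mul_assoc]
    apply mul_le_mul_of_nonneg_right _ hR
    have h4 : (C₁ + C₂) * (n : ℝ) ^ (B₁ + 2) + 1 ≤ (C₁ + C₂ + 1) * (n : ℝ) ^ (B₁ + 2) := by
      linarith
    have h5 : 0 ≤ (C₁ + C₂ + 1) * (n : ℝ) ^ (B₁ + 2) := by positivity
    calc C₃ * ((C₁ + C₂) * (n : ℝ) ^ (B₁ + 2) + 1)
        ≤ C₃ * ((C₁ + C₂ + 1) * (n : ℝ) ^ (B₁ + 2)) := mul_le_mul_of_nonneg_left h4 hC₃.le
      _ ≤ (1 + C₃) * ((C₁ + C₂ + 1) * (n : ℝ) ^ (B₁ + 2)) := by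
          apply mul_le_mul_of_nonneg_right _ h5
          linarith
      _ = (C₁ + C₂ + 1) * (1 + C₃) * (n : ℝ) ^ (B₁ + 2) := by ring

end Pool.Agent.Lib.MP478c11.DB
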