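import Pool.Agent.Lib.MP_478c11_gt.DB.Many

/-! # Module EXR: continuation by a convex cap -/

set_option autoImplicit false

namespace Pool.Agent.Lib.MP478c11.DB

open Set Filter Topology MeasureTheory
open scoped ContDiff

noncomputable section

namespace EXRM

theorem const_of {f f' : ℝ → ℝ} (hf : ∀ z, HasDerivAt f (f' z) z) (hc : Continuous f') {a b : ℝ}
    (h0 : ∀ z ∈ uIcc a b, f' z = 0) : f b = f a := by
  have h1 := intervalIntegral.integral_eq_sub_of_hasDerivAt (fun z _ => hf z)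
    (hc.intervalIntegrable a b)
  have h2 : ∫ z in a..b, f' z = ∫ _ in a..b, (0 : ℝ) := intervalIntegral.integral_congr h0
  rw [h2, intervalIntegral.integral_zero] at h1
  linarith

theorem bound_of {f f' : ℝ → ℝ} (hf : ∀ z, HasDerivAt f (f' z) z) (hc : Continuous f')
    {a b M : ℝ} (hab : a ≤ b) (h0 : ∀ z ∈ Icc a b, |f' z| ≤ M) : |f b - f a| ≤ M * (b - a) := by
  have h1 := intervalIntegral.integral_eq_sub_of_hasDerivAt (fun z _ => hf z)
    (hc.intervalIntegrable a b)
  have h2 : ‖∫ z in a..b, f' z‖ ≤ M * |b - a| :=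
    intervalIntegral.norm_integral_le_of_norm_le_const (by
      intro x hx
      rw [uIoc_of_le hab] at hx
      exact h0 x ⟨hx.1.le, hx.2⟩)
  rw [h1, Real.norm_eq_abs, abs_of_nonneg (sub_nonneg.2 hab)] at h2
  exact h2

theorem build {g : ℝ → ℝ} (hg : ContDiff ℝ ∞ g) (z₀ y₀ v₀ : ℝ) :
    ∃ u v : ℝ → ℝ, ContDiff ℝ ∞ u ∧ (∀ z, HasDerivAt u (v z) z) ∧
      (∀ z, HasDerivAt v (g z) z) ∧ u z₀ = y₀ ∧ v z₀ = v₀ := by
  have hgc := hg.continuous
  have hv' : ∀ z, HasDerivAt (fun z => v₀ + ∫ t in z₀..z, g t) (g z) z := fun z =>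
    (hgc.integral_hasStrictDerivAt z₀ z).hasDerivAt.const_add v₀
  obtain ⟨v, hv⟩ : ∃ v : ℝ → ℝ, v = fun z => v₀ + ∫ t in z₀..z, g t := ⟨_, rfl⟩
  rw [← hv] at hv'
  have hvc : Continuous v := continuous_iff_continuousAt.2 (fun z => (hv' z).continuousAt)
  have hu' : ∀ z, HasDerivAt (fun z => y₀ + ∫ t in z₀..z, v t) (v z) z := fun z =>
    (hvc.integral_hasStrictDerivAt z₀ z).hasDerivAt.const_add y₀
  obtain ⟨u, hu⟩ : ∃ u : ℝ → ℝ, u = fun z => y₀ + ∫ t in z₀..z, v t := ⟨_, rfl⟩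
  rw [← hu] at hu'
  refine ⟨u, v, ?_, hu', hv', by rw [hu]; simp, by rw [hv]; simp⟩
  have h1 : deriv u = v := funext fun z => (hu' z).deriv
  have h2 : deriv v = g := funext fun z => (hv' z).deriv
  refine contDiff_infty_iff_deriv.2 ⟨fun z => (hu' z).differentiableAt, ?_⟩
  rw [h1]
  refine contDiff_infty_iff_deriv.2 ⟨fun z => (hv' z).differentiableAt, ?_⟩
  rw [h2]
  exact hg

end EXRM

open EXRM in
theorem specEXR : SpecEXR := by
  intro h z₀ hs hpos hW
  have hs1 : ContDiff ℝ ∞ (deriv h) := (contDiff_infty_iff_deriv.1 hs).2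
  have hs2 : ContDiff ℝ ∞ (deriv (deriv h)) := (contDiff_infty_iff_deriv.1 hs1).2
  have hd0 : ∀ z, HasDerivAt h (deriv h z) z := fun z =>
    ((contDiff_infty_iff_deriv.1 hs).1 z).hasDerivAt
  have hd1 : ∀ z, HasDerivAt (deriv h) (deriv (deriv h) z) z := fun z =>
    ((contDiff_infty_iff_deriv.1 hs1).1 z).hasDerivAt
  have hc0 := hs.continuous
  have hc1 := hs1.continuous
  have hc2 := hs2.continuous
  -- the bound c
  obtain ⟨C, hC⟩ := (isCompact_Icc (a := z₀) (b := z₀ + 1)).exists_bound_of_continuousOn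
    hc2.continuousOn
  obtain ⟨c, hcdef⟩ : ∃ c : ℝ, c = |C| + 1 := ⟨_, rfl⟩
  have hc : 1 ≤ c := by
    rw [hcdef]
    have := abs_nonneg C
    linarith
  have hcb : ∀ z ∈ Icc z₀ (z₀ + 1), |deriv (deriv h) z| ≤ c := by
    intro z hz
    have h1 := hC z hz
    rw [Real.norm_eq_abs] at h1
    have := le_abs_self C
    rw [hcdef]
    linarith
  -- the continuity argument
  have hev : ∃ ε : ℝ, 0 < ε ∧ ∀ α β z : ℝ, |α| < ε → |β| < ε → |z - z₀| < ε →
      0 < (deriv h z + α) ^ 2 / 4 - (h z + β) * deriv (deriv h) z / 2 ∧ 0 < h z + β := by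
    have hcont1 : Continuous (fun p : ℝ × ℝ × ℝ =>
        (deriv h p.2.2 + p.1) ^ 2 / 4 - (h p.2.2 + p.2.1) * deriv (deriv h) p.2.2 / 2) := by
      fun_prop
    have hcont2 : Continuous (fun p : ℝ × ℝ × ℝ => h p.2.2 + p.2.1) := by
      fun_prop
    have he1 : ∀ᶠ p : ℝ × ℝ × ℝ in 𝓝 (0, 0, z₀),
        0 < (deriv h p.2.2 + p.1) ^ 2 / 4 - (h p.2.2 + p.2.1) * deriv (deriv h) p.2.2 / 2 := by
      apply hcont1.continuousAt.eventually_const_lt
      show 0 < (deriv h z₀ + 0) ^ 2 / 4 - (h z₀ + 0) * deriv (deriv h) z₀ / 2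
      rw [add_zero, add_zero]
      exact hW
    have he2 : ∀ᶠ p : ℝ × ℝ × ℝ in 𝓝 (0, 0, z₀), 0 < h p.2.2 + p.2.1 := by
      apply hcont2.continuousAt.eventually_const_lt
      show 0 < h z₀ + 0
      rw [add_zero]
      exact hpos
    obtain ⟨ε, hε, hε2⟩ := Metric.eventually_nhds_iff.1 (he1.and he2)
    refine ⟨ε, hε, fun α β z hα hβ hz => ?_⟩
    have := hε2 (y := (α, β, z)) (by
      rw [Prod.dist_eq, Prod.dist_eq]
      simp only [Real.dist_eq, sub_zero]
      exact max_lt hα (max_lt hβ hz))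
    exact this
  obtain ⟨ε, hε, hΦ⟩ := hev
  obtain ⟨σ, hσdef⟩ : ∃ σ : ℝ, σ = min 1 (ε / (4 * c)) := ⟨_, rfl⟩
  have hσ0 : 0 < σ := by
    rw [hσdef]
    exact lt_min one_pos (by positivity)
  have hσ1 : σ ≤ 1 := by
    rw [hσdef]
    exact min_le_left _ _
  have hσ2 : 2 * c * σ < ε := by
    have h1 : σ ≤ ε / (4 * c) := by
      rw [hσdef]
      exact min_le_right _ _
    rw [le_div_iff₀ (by positivity)] at h1
    nlinarith
  have hσ3 : σ < ε := by nlinarith
  -- the cutoff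
  obtain ⟨χ, hχdef⟩ : ∃ χ : ℝ → ℝ, χ = fun z => Real.smoothTransition ((z - z₀) / σ) := ⟨_, rfl⟩
  have hχs : ContDiff ℝ ∞ χ := by
    rw [hχdef]
    exact Real.smoothTransition.contDiff.comp ((contDiff_id.sub contDiff_const).div_const σ)
  have hχ0 : ∀ z, z ≤ z₀ → χ z = 0 := by
    intro z hz
    rw [hχdef]
    exact Real.smoothTransition.zero_of_nonpos (div_nonpos_of_nonpos_of_nonneg (by linarith) hσ0.le)
  have hχ1 : ∀ z, z₀ + σ ≤ z → χ z = 1 := by
    intro z hz
    rw [hχdef]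
    apply Real.smoothTransition.one_of_one_le
    rw [le_div_iff₀ hσ0]
    linarith
  have hχn : ∀ z, 0 ≤ χ z := by
    intro z
    rw [hχdef]
    exact Real.smoothTransition.nonneg _
  have hχl : ∀ z, χ z ≤ 1 := by
    intro z
    rw [hχdef]
    exact Real.smoothTransition.le_one _
  obtain ⟨g, hgdef⟩ : ∃ g : ℝ → ℝ, g = fun z => deriv (deriv h) z - χ z * (deriv (deriv h) z + c) :=
    ⟨_, rfl⟩
  have hgs : ContDiff ℝ ∞ g := by
    rw [hgdef]
    exact hs2.sub (hχs.mul (hs2.add contDiff_const))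
  have hgc := hgs.continuous
  obtain ⟨u, v, hus, hu', hv', hu0, hv0⟩ := build hgs z₀ (h z₀) (deriv h z₀)
  have hvc : Continuous v := continuous_iff_continuousAt.2 (fun z => (hv' z).continuousAt)
  have hduu : deriv u = v := funext fun z => (hu' z).deriv
  have hdvv : deriv v = g := funext fun z => (hv' z).deriv
  have hWu : ∀ z, W u z = v z ^ 2 / 4 - u z * g z / 2 := by
    intro z
    unfold W
    rw [hduu, hdvv]
  -- differences
  have hD1 : ∀ z, HasDerivAt (fun z => v z - deriv h z) (g z - deriv (deriv h) z) z := fun z =>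
    (hv' z).sub (hd1 z)
  have hD0 : ∀ z, HasDerivAt (fun z => u z - h z) (v z - deriv h z) z := fun z =>
    (hu' z).sub (hd0 z)
  have hleft1 : ∀ z, z ≤ z₀ → v z - deriv h z = 0 := by
    intro z hz
    have h1 := const_of hD1 (hgc.sub hc2) (a := z₀) (b := z) (by
      intro t ht
      rw [uIcc_of_ge hz] at ht
      rw [hgdef]
      show deriv (deriv h) t - χ t * (deriv (deriv h) t + c) - deriv (deriv h) t = 0
      rw [hχ0 t ht.2]
      ring)
    rw [h1, hv0]
    ring
  have hleft0 : ∀ z, z ≤ z₀ → u z - h z = 0 := by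
    intro z hz
    have h1 := const_of hD0 (hvc.sub hc1) (a := z₀) (b := z) (by
      intro t ht
      rw [uIcc_of_ge hz] at ht
      exact hleft1 t ht.2)
    rw [h1, hu0]
    ring
  have hgle : ∀ z ∈ Icc z₀ (z₀ + 1), g z ≤ deriv (deriv h) z := by
    intro z hz
    have h1 := (abs_le.1 (hcb z hz)).1
    have h2 := hχn z
    rw [hgdef]
    show deriv (deriv h) z - χ z * (deriv (deriv h) z + c) ≤ deriv (deriv h) z
    have := mul_nonneg h2 (show 0 ≤ deriv (deriv h) z + c by linarith)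
    linarith
  have hgd : ∀ z ∈ Icc z₀ (z₀ + 1), |g z - deriv (deriv h) z| ≤ 2 * c := by
    intro z hz
    have h1 := abs_le.1 (hcb z hz)
    have h2 := hχn z
    have h3 := hχl z
    have h4 := hgle z hz
    have h5 : g z = deriv (deriv h) z - χ z * (deriv (deriv h) z + c) := by rw [hgdef]
    rw [abs_le]
    refine ⟨?_, by linarith⟩
    have := mul_le_mul h3 (show deriv (deriv h) z + c ≤ 2 * c by linarith) (by linarith) zero_le_one
    linarith
  have hmid1 : ∀ z ∈ Icc z₀ (z₀ + σ), |v z - deriv h z| ≤ 2 * c * σ := by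
    intro z hz
    have h1 := bound_of hD1 (hgc.sub hc2) (a := z₀) (b := z) (M := 2 * c) hz.1 (by
      intro t ht
      exact hgd t ⟨ht.1, by linarith [ht.2, hz.2]⟩)
    rw [hv0, sub_self, sub_zero] at h1
    refine h1.trans ?_
    exact mul_le_mul_of_nonneg_left (by linarith [hz.2]) (by linarith)
  have hmid0 : ∀ z ∈ Icc z₀ (z₀ + σ), |u z - h z| ≤ 2 * c * σ := by
    intro z hz
    have h1 := bound_of hD0 (hvc.sub hc1) (a := z₀) (b := z) (M := 2 * c * σ) hz.1 (by
      intro t ht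
      exact hmid1 t ⟨ht.1, by linarith [ht.2, hz.2]⟩)
    rw [hu0, sub_self, sub_zero] at h1
    refine h1.trans ?_
    have h2 : 0 ≤ 2 * c * σ := by positivity
    calc 2 * c * σ * (z - z₀) ≤ 2 * c * σ * 1 :=
          mul_le_mul_of_nonneg_left (by linarith [hz.2]) h2
      _ = 2 * c * σ := mul_one _
  have hmid : ∀ z ∈ Icc z₀ (z₀ + σ), 0 < u z ∧ 0 < W u z := by
    intro z hz
    have h1 := hΦ (v z - deriv h z) (u z - h z) z ((hmid1 z hz).trans_lt hσ2)
      ((hmid0 z hz).trans_lt hσ2) (by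
        rw [abs_of_nonneg (by linarith [hz.1])]
        linarith [hz.2])
    have e1 : deriv h z + (v z - deriv h z) = v z := by ring
    have e2 : h z + (u z - h z) = u z := by ring
    rw [e1, e2] at h1
    refine ⟨h1.2, ?_⟩
    rw [hWu]
    have h2 := mul_le_mul_of_nonneg_left (hgle z ⟨hz.1, by linarith [hz.2]⟩) h1.2.le
    linarith [h1.1]
  -- the parabola
  obtain ⟨z₁, hz₁⟩ : ∃ z₁ : ℝ, z₁ = z₀ + σ := ⟨_, rfl⟩
  have hg1 : ∀ z, z₁ ≤ z → g z = -c := by
    intro z hz
    rw [hgdef]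
    show deriv (deriv h) z - χ z * (deriv (deriv h) z + c) = -c
    rw [hχ1 z (by rw [← hz₁]; exact hz)]
    ring
  have hE1 : ∀ z, HasDerivAt (fun z => v z + c * (z - z₁)) (g z + c) z := by
    intro z
    have h1 : HasDerivAt (fun z : ℝ => c * (z - z₁)) (c * 1) z :=
      ((hasDerivAt_id z).sub_const z₁).const_mul c
    rw [mul_one] at h1
    exact (hv' z).add h1
  have hv1 : ∀ z, z₁ ≤ z → v z = v z₁ - c * (z - z₁) := by
    intro z hz
    have h1 := const_of hE1 (hgc.add continuous_const) (a := z₁) (b := z) (by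
      intro t ht
      rw [uIcc_of_le hz] at ht
      rw [hg1 t ht.1]
      ring)
    linarith
  have hE0 : ∀ z, HasDerivAt (fun z => u z - v z₁ * (z - z₁) + c * (z - z₁) ^ 2 / 2)
      (v z - v z₁ + c * (z - z₁)) z := by
    intro z
    have h1 : HasDerivAt (fun z : ℝ => v z₁ * (z - z₁)) (v z₁ * 1) z :=
      ((hasDerivAt_id z).sub_const z₁).const_mul (v z₁)
    have h2 : HasDerivAt (fun z : ℝ => c * (z - z₁) ^ 2 / 2) (c * (2 * (z - z₁))  / 2) z := by
      have h3 : HasDerivAt (fun z : ℝ => (z - z₁) ^ 2) (2 * (z - z₁)) z := by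
        have h4 := ((hasDerivAt_id z).sub_const z₁).pow 2
        have h5 : ((2 : ℕ) : ℝ) * (id z - z₁) ^ (2 - 1) * 1 = 2 * (z - z₁) := by
          simp
        rw [h5] at h4
        exact h4
      exact (h3.const_mul c).div_const 2
    have h3 := ((hu' z).sub h1).add h2
    have h4 : v z - v z₁ * 1 + c * (2 * (z - z₁)) / 2 = v z - v z₁ + c * (z - z₁) := by ring
    rw [h4] at h3
    exact h3
  have hu1 : ∀ z, z₁ ≤ z → u z = u z₁ + v z₁ * (z - z₁) - c * (z - z₁) ^ 2 / 2 := by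
    intro z hz
    have h1 := const_of hE0 ((hvc.sub continuous_const).add
        (continuous_const.mul (continuous_id.sub continuous_const))) (a := z₁) (b := z) (by
      intro t ht
      rw [uIcc_of_le hz] at ht
      rw [hv1 t ht.1]
      ring)
    have h2 : u z₁ - v z₁ * (z₁ - z₁) + c * (z₁ - z₁) ^ 2 / 2 = u z₁ := by ring
    rw [h2] at h1
    linarith
  have hA : 0 < u z₁ := (hmid z₁ ⟨by rw [hz₁]; linarith, by rw [hz₁]⟩).1
  obtain ⟨A, hAdef⟩ : ∃ A : ℝ, A = u z₁ := ⟨_, rfl⟩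
  obtain ⟨B, hBdef⟩ : ∃ B : ℝ, B = v z₁ := ⟨_, rfl⟩
  rw [← hAdef] at hA hu1
  rw [← hBdef] at hu1 hv1
  obtain ⟨s, hsdef⟩ : ∃ s : ℝ, s = Real.sqrt (B ^ 2 + 2 * c * A) := ⟨_, rfl⟩
  have hc' : 0 < c := by linarith
  have hs0 : 0 < s := by
    rw [hsdef]
    exact Real.sqrt_pos.2 (by positivity)
  have hsq : s ^ 2 = B ^ 2 + 2 * c * A := by
    rw [hsdef]
    exact Real.sq_sqrt (by positivity)
  have hsB : |B| < s := by
    apply abs_lt_of_sq_lt_sq _ hs0.le
    rw [hsq]
    have : 0 < 2 * c * A := by positivity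
    linarith
  obtain ⟨hsB1, hsB2⟩ := abs_lt.1 hsB
  obtain ⟨τ, hτdef⟩ : ∃ τ : ℝ, τ = (B + s) / c := ⟨_, rfl⟩
  have hτc : c * τ = B + s := by
    rw [hτdef]
    field_simp
  have hτ0 : 0 < τ := by
    rw [hτdef]
    exact div_pos (by linarith) hc'
  have hfac : ∀ t : ℝ, 2 * c * (A + B * t - c * t ^ 2 / 2) = (c * τ - c * t) * (c * t - (B - s)) := by
    intro t
    rw [hτc]
    nlinarith [hsq]
  refine ⟨u, z₁ + τ, by rw [hz₁]; linarith, hus, fun z hz => by linarith [hleft0 z hz], ?_, ?_, ?_, ?_⟩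
  · have h1 := hu1 (z₁ + τ) (by linarith)
    have h2 := hfac τ
    have h3 : z₁ + τ - z₁ = τ := by ring
    rw [h3] at h1
    rw [sub_self, zero_mul] at h2
    have h4 : A + B * τ - c * τ ^ 2 / 2 = 0 := by
      rcases mul_eq_zero.1 h2 with h | h
      · exact absurd h (by positivity)
      · exact h
    rw [h1, h4]
  · rw [hduu, hv1 (z₁ + τ) (by linarith)]
    have h3 : z₁ + τ - z₁ = τ := by ring
    rw [h3, hτc]
    linarith
  · intro z hz hz2
    rcases le_total z z₁ with hzz | hzz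
    · exact (hmid z ⟨hz, by rw [← hz₁]; exact hzz⟩).1
    · rw [hu1 z hzz]
      have h1 := hfac (z - z₁)
      have h2 : 0 < (c * τ - c * (z - z₁)) * (c * (z - z₁) - (B - s)) := by
        apply mul_pos
        · have := mul_lt_mul_of_pos_left (show z - z₁ < τ by linarith) hc'
          linarith
        · have := mul_nonneg hc'.le (show 0 ≤ z - z₁ by linarith)
          linarith
      rw [← h1] at h2
      exact (mul_pos_iff_of_pos_left (by positivity)).1 h2
  · intro z hz hz2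
    rcases le_total z z₁ with hzz | hzz
    · exact (hmid z ⟨hz, by rw [← hz₁]; exact hzz⟩).2
    · rw [hWu, hg1 z hzz, hv1 z hzz, hu1 z hzz]
      have h1 := hfac (z - z₁)
      rcases eq_or_lt_of_le hz2 with he | hlt
      · have h3 : z - z₁ = τ := by rw [he]; ring
        rw [h3] at h1 ⊢
        rw [sub_self, zero_mul] at h1
        have h4 : A + B * τ - c * τ ^ 2 / 2 = 0 := by
          rcases mul_eq_zero.1 h1 with h | h
          · exact absurd h (by positivity)
          · exact h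
        rw [h4, hτc]
        have h5 : (B - (B + s)) ^ 2 / 4 - 0 * -c / 2 = s ^ 2 / 4 := by ring
        rw [h5]
        positivity
      · have h2 : 0 < (c * τ - c * (z - z₁)) * (c * (z - z₁) - (B - s)) := by
          apply mul_pos
          · have := mul_lt_mul_of_pos_left (show z - z₁ < τ by linarith) hc'
            linarith
          · have := mul_nonneg hc'.le (show 0 ≤ z - z₁ by linarith)
            linarith
        rw [← h1] at h2
        have h3 : 0 < A + B * (z - z₁) - c * (z - z₁) ^ 2 / 2 :=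
          (mul_pos_iff_of_pos_left (by positivity)).1 h2
        have h4 := mul_pos h3 hc'
        have h5 := sq_nonneg (B - c * (z - z₁))
        linarith

end

end Pool.Agent.Lib.MP478c11.DB
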