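import Pool.Agent.Lib.MP_478c11_gt.DB.Many

/-! # Module EXT: near a neck `h` agrees with a dumbbell. -/

set_option autoImplicit false

namespace Pool.Agent.Lib.MP478c11.DB

open Set Filter Topology MeasureTheory
open scoped ContDiff

namespace EXTM

lemma dneg (h : ℝ → ℝ) : deriv (fun z => h (-z)) = fun z => -deriv h (-z) := by
  funext z
  exact deriv_comp_neg h z

lemma ddneg (h : ℝ → ℝ) : deriv (deriv (fun z => h (-z))) = fun z => deriv (deriv h) (-z) := by
  rw [dneg]
  funext z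
  rw [deriv.fun_neg, deriv_comp_neg, neg_neg]

lemma Wneg (h : ℝ → ℝ) (z : ℝ) : W (fun z => h (-z)) z = W h (-z) := by
  unfold W
  rw [ddneg, dneg]
  ring

lemma W_ev {g h : ℝ → ℝ} {z : ℝ} (H : g =ᶠ[𝓝 z] h) : W g =ᶠ[𝓝 z] W h := by
  have h1 : deriv g =ᶠ[𝓝 z] deriv h := H.deriv
  have h2 : deriv (deriv g) =ᶠ[𝓝 z] deriv (deriv h) := h1.deriv
  filter_upwards [H, h1, h2] with x e0 e1 e2
  unfold W
  rw [e0, e1, e2]

lemma ev_of_Ioo {g h : ℝ → ℝ} {s t z : ℝ} (H : ∀ x, s < x → x < t → g x = h x) (h1 : s < z)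
    (h2 : z < t) : g =ᶠ[𝓝 z] h := by
  filter_upwards [Ioo_mem_nhds h1 h2] with x hx
  exact H x hx.1 hx.2

/-- the right step -/
lemma right_step (hEXR : SpecEXR) {h : ℝ → ℝ} {b z₀ : ℝ} (last : Prop) (hs : ContDiff ℝ ∞ h)
    (hh : 0 < h z₀) (hW : 0 < W h z₀)
    (hlast : last → z₀ < b ∧ h b = 0 ∧ deriv h b < 0 ∧ (∀ z, z₀ ≤ z → z < b → 0 < h z) ∧
      ∀ z, z₀ ≤ z → z ≤ b → 0 < W h z) :
    ∃ (g : ℝ → ℝ) (b' : ℝ), z₀ < b' ∧ ContDiff ℝ ∞ g ∧ (∀ z, z ≤ z₀ → g z = h z) ∧
      g b' = 0 ∧ deriv g b' < 0 ∧ (∀ z, z₀ ≤ z → z < b' → 0 < g z) ∧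
      (∀ z, z₀ ≤ z → z ≤ b' → 0 < W g z) ∧ (last → b' = b ∧ ∀ z, g z = h z) := by
  by_cases hl : last
  · obtain ⟨h1, h2, h3, h4, h5⟩ := hlast hl
    exact ⟨h, b, h1, hs, fun _ _ => rfl, h2, h3, h4, h5, fun _ => ⟨rfl, fun _ => rfl⟩⟩
  · obtain ⟨g, b', h1, h2, h3, h4, h5, h6, h7⟩ := hEXR h z₀ hs hh hW
    exact ⟨g, b', h1, h2, h3, h4, h5, h6, h7, fun h8 => absurd h8 hl⟩

/-- the left step: the reflected right step -/
lemma left_step (hEXR : SpecEXR) {h : ℝ → ℝ} {a z₀ : ℝ} (first : Prop) (hs : ContDiff ℝ ∞ h)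
    (hh : 0 < h z₀) (hW : 0 < W h z₀)
    (hfirst : first → a < z₀ ∧ h a = 0 ∧ 0 < deriv h a ∧ (∀ z, a < z → z ≤ z₀ → 0 < h z) ∧
      ∀ z, a ≤ z → z ≤ z₀ → 0 < W h z) :
    ∃ (g : ℝ → ℝ) (a' : ℝ), a' < z₀ ∧ ContDiff ℝ ∞ g ∧ (∀ z, z₀ ≤ z → g z = h z) ∧
      g a' = 0 ∧ 0 < deriv g a' ∧ (∀ z, a' < z → z ≤ z₀ → 0 < g z) ∧
      (∀ z, a' ≤ z → z ≤ z₀ → 0 < W g z) ∧ (first → a' = a ∧ ∀ z, g z = h z) := by
  obtain ⟨G, c, h1, h2, h3, h4, h5, h6, h7, h8⟩ := right_step hEXR (h := fun z => h (-z))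
    (b := -a) (z₀ := -z₀) first (hs.comp contDiff_neg)
    (by show 0 < h (- -z₀); rw [neg_neg]; exact hh)
    (by rw [Wneg, neg_neg]; exact hW)
    (by
      intro hf
      obtain ⟨k1, k2, k3, k4, k5⟩ := hfirst hf
      refine ⟨by linarith, ?_, ?_, ?_, ?_⟩
      · show h (- -a) = 0
        rw [neg_neg]
        exact k2
      · rw [dneg]
        show -deriv h (- -a) < 0
        rw [neg_neg]
        linarith
      · intro z hz1 hz2
        exact k4 (-z) (by linarith) (by linarith)
      · intro z hz1 hz2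
        rw [Wneg]
        exact k5 (-z) (by linarith) (by linarith))
  refine ⟨fun z => G (-z), -c, by linarith, h2.comp contDiff_neg, ?_, ?_, ?_, ?_, ?_, ?_⟩
  · intro z hz
    show G (-z) = h z
    rw [h3 (-z) (by linarith)]
    show h (- -z) = h z
    rw [neg_neg]
  · show G (- -c) = 0
    rw [neg_neg]
    exact h4
  · rw [dneg]
    show 0 < -deriv G (- -c)
    rw [neg_neg]
    linarith
  · intro z hz1 hz2
    exact h6 (-z) (by linarith) (by linarith)
  · intro z hz1 hz2
    rw [Wneg]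
    exact h7 (-z) (by linarith) (by linarith)
  · intro hf
    obtain ⟨k1, k2⟩ := h8 hf
    refine ⟨by linarith, ?_⟩
    intro z
    show G (-z) = h z
    rw [k2 (-z)]
    show h (- -z) = h z
    rw [neg_neg]

end EXTM

open EXTM in
theorem specEXT (hEXR : SpecEXR) : SpecEXT := by
  intro h a b k p q H j hj
  -- the order of the necks
  have hlt : ∀ i i' : ℕ, i < i' → i' < k → q i < p i' := by
    intro i i'
    induction i' with
    | zero => intro h1; exact absurd h1 (Nat.not_lt_zero i)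
    | succ m ih =>
      intro h1 h2
      have h3 := H.qp m h2
      rcases Nat.lt_succ_iff_lt_or_eq.mp h1 with h4 | h4
      · have h5 := ih h4 (by omega)
        have h6 := (H.pq m (by omega)).2.1
        linarith
      · rw [h4]
        exact h3
  obtain ⟨apj, pqj, qbj⟩ := H.pq j hj
  -- the bounds on the left and on the right
  obtain ⟨L, hL1, hL2, hL3⟩ : ∃ L : ℝ, L < p j ∧ a ≤ L ∧ ∀ i < j, q i ≤ L := by
    rcases Nat.eq_zero_or_pos j with h0 | h0
    · exact ⟨a, apj, le_rfl, fun i hi => absurd hi (by omega)⟩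
    · refine ⟨q (j - 1), hlt (j - 1) j (by omega) hj, ?_, ?_⟩
      · obtain ⟨k1, k2, k3⟩ := H.pq (j - 1) (by omega)
        linarith
      · intro i hi
        rcases Nat.lt_or_ge i (j - 1) with h4 | h4
        · have h5 := hlt i (j - 1) h4 (by omega)
          have h6 := (H.pq (j - 1) (by omega)).2.1
          linarith
        · have h5 : i = j - 1 := by omega
          rw [h5]
  obtain ⟨R, hR1, hR2, hR3⟩ : ∃ R : ℝ, q j < R ∧ R ≤ b ∧ ∀ i, j < i → i < k → R ≤ p i := by
    by_cases h0 : j + 1 < k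
    · refine ⟨p (j + 1), hlt j (j + 1) (by omega) h0, ?_, ?_⟩
      · obtain ⟨k1, k2, k3⟩ := H.pq (j + 1) h0
        linarith
      · intro i hi hik
        rcases Nat.lt_or_ge (j + 1) i with h4 | h4
        · have h5 := hlt (j + 1) i h4 hik
          have h6 := (H.pq (j + 1) h0).2.1
          linarith
        · have h5 : i = j + 1 := by omega
          rw [h5]
    · exact ⟨b, qbj, le_rfl, fun i hi hik => absurd hik (by omega)⟩
  obtain ⟨η, hη, e1, e2⟩ : ∃ η : ℝ, 0 < η ∧ L < p j - η ∧ q j + η < R := by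
    refine ⟨min (p j - L) (R - q j) / 2, ?_, ?_, ?_⟩
    · have : 0 < min (p j - L) (R - q j) := lt_min (by linarith) (by linarith)
      linarith
    · have : min (p j - L) (R - q j) ≤ p j - L := min_le_left _ _
      linarith
    · have : min (p j - L) (R - q j) ≤ R - q j := min_le_right _ _
      linarith
  -- `W > 0` in the two gaps
  have hWl : ∀ z, L < z → z < p j → 0 < W h z := by
    intro z h1 h2
    refine H.posW z ⟨by linarith, by linarith⟩ ?_
    intro i hi hz
    rcases lt_trichotomy i j with h4 | h4 | h4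
    · have := hL3 i h4
      linarith [hz.2]
    · rw [h4] at hz
      linarith [hz.1]
    · have := hlt j i h4 hi
      linarith [hz.1]
  have hWr : ∀ z, q j < z → z < R → 0 < W h z := by
    intro z h1 h2
    refine H.posW z ⟨by linarith, by linarith⟩ ?_
    intro i hi hz
    rcases lt_trichotomy i j with h4 | h4 | h4
    · have := hL3 i h4
      linarith [hz.2]
    · rw [h4] at hz
      linarith [hz.2]
    · have := hR3 i h4 hi
      linarith [hz.1]
  have hpos : ∀ z, a < z → z < b → 0 < h z := H.sph.pos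
  -- the right step
  obtain ⟨g, b', r1, r2, r3, r4, r5, r6, r7, r8⟩ := right_step hEXR (h := h) (b := b)
    (z₀ := q j + η) (j + 1 = k) H.sph.smooth (hpos _ (by linarith) (by linarith))
    (hWr _ (by linarith) e2)
    (by
      intro hl
      refine ⟨by linarith, H.sph.hb, H.sph.db, fun z h1 h2 => hpos z (by linarith) h2, ?_⟩
      intro z h1 h2
      refine H.posW z ⟨by linarith, h2⟩ ?_
      intro i hi hz
      rcases Nat.lt_or_ge i j with h4 | h4
      · have := hL3 i h4
        linarith [hz.2]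
      · have h5 : i = j := by omega
        rw [h5] at hz
        linarith [hz.2])
  -- `g = h` on the left, the left step
  have hgh : ∀ z, z < q j + η → g =ᶠ[𝓝 z] h := by
    intro z hz
    filter_upwards [Iio_mem_nhds hz] with x hx
    exact r3 x (le_of_lt hx)
  have hgW : ∀ z, z < q j + η → W g z = W h z := fun z hz => (W_ev (hgh z hz)).eq_of_nhds
  obtain ⟨f, a', l1, l2, l3, l4, l5, l6, l7, l8⟩ := left_step hEXR (h := g) (a := a)
    (z₀ := p j - η) (j = 0) r2
    (by rw [r3 _ (by linarith)]; exact hpos _ (by linarith) (by linarith))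
    (by rw [hgW _ (by linarith)]; exact hWl _ e1 (by linarith))
    (by
      intro hl
      refine ⟨by linarith, ?_, ?_, ?_, ?_⟩
      · rw [r3 _ (by linarith)]
        exact H.sph.ha
      · rw [(hgh a (by linarith)).deriv_eq]
        exact H.sph.da
      · intro z h1 h2
        rw [r3 _ (by linarith)]
        exact hpos z h1 (by linarith)
      · intro z h1 h2
        rw [hgW _ (by linarith)]
        refine H.posW z ⟨h1, by linarith⟩ ?_
        intro i hi hz
        rcases Nat.eq_zero_or_pos i with h4 | h4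
        · rw [h4, ← hl] at hz
          linarith [hz.1]
        · have := hlt 0 i h4 hi
          rw [← hl] at this
          linarith [hz.1])
  -- `f = g` on the right of `p j - η`
  have hfg : ∀ z, p j - η < z → f =ᶠ[𝓝 z] g := by
    intro z hz
    filter_upwards [Ioi_mem_nhds hz] with x hx
    exact l3 x (le_of_lt hx)
  have hfh : ∀ z, p j - η < z → z < q j + η → f =ᶠ[𝓝 z] h := fun z h1 h2 =>
    (hfg z h1).trans (hgh z h2)
  have hfW : ∀ z, p j - η < z → z < q j + η → W f z = W h z := fun z h1 h2 =>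
    (W_ev (hfh z h1 h2)).eq_of_nhds
  have hfWg : ∀ z, p j - η < z → W f z = W g z := fun z h1 => (W_ev (hfg z h1)).eq_of_nhds
  have hfz : ∀ z ∈ Icc (p j - η) (q j + η), f z = h z := by
    intro z hz
    rw [l3 z hz.1, r3 z hz.2]
  refine ⟨f, a', b', η, hη, ?_, l1, r1, by linarith, by linarith, hfz, ?_, ?_⟩
  · refine ⟨l2, by linarith, pqj, by linarith, l4, ?_, ?_, l5, ?_, ?_, ?_, ?_, ?_, ?_⟩
    · rw [l3 b' (by linarith)]
      exact r4
    · intro z h1 h2
      rcases le_or_gt z (p j - η) with h3 | h3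
      · exact l6 z h1 h3
      · rw [l3 z h3.le]
        rcases le_or_gt z (q j + η) with h4 | h4
        · rw [r3 z h4]
          exact hpos z (by linarith) (by linarith)
        · exact r6 z h4.le h2
    · rw [(hfg b' (by linarith)).deriv_eq]
      exact r5
    · intro z h1 h2
      rcases le_or_gt z (p j - η) with h3 | h3
      · exact l7 z h1 h3
      · rw [hfW z h3 (by linarith)]
        exact hWl z (by linarith) h2
    · intro z h1 h2
      rw [hfW z (by linarith) (by linarith)]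
      exact H.neg j hj z ⟨h1, h2⟩
    · intro z h1 h2
      rcases lt_or_ge z (q j + η) with h3 | h3
      · rw [hfW z (by linarith) h3]
        exact hWr z h1 (by linarith)
      · rw [hfWg z (by linarith)]
        exact r7 z h3 h2
    · rw [(W_ev (hfh (p j) (by linarith) (by linarith))).deriv_eq]
      exact (H.dp j hj).1
    · rw [(W_ev (hfh (q j) (by linarith) (by linarith))).deriv_eq]
      exact (H.dp j hj).2
  · intro h0
    obtain ⟨k1, k2⟩ := l8 h0
    refine ⟨k1, ?_⟩
    intro z hz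
    rw [k2 z, r3 z hz]
  · intro h0
    obtain ⟨k1, k2⟩ := r8 h0
    refine ⟨k1, ?_⟩
    intro z hz
    rw [l3 z hz, k2 z]

end Pool.Agent.Lib.MP478c11.DB
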