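import Pool.Agent.Lib.MP_478c11_gt.DB.Many

set_option autoImplicit false

namespace Pool.Agent.Lib.MP478c11.DB

open Set Filter Topology MeasureTheory
open scoped ContDiff

namespace FNGM

/-- closeness adds up -/
theorem nrTrans {h h₁ h₂ : ℝ → ℝ} {a b : ℝ} {N : ℕ} {δ δ' : ℝ} (hS : Sph h a b) (h1 : Nr h h₁ a b N δ)
    (h2 : Nr h₁ h₂ a b N δ') : Nr h h₂ a b N (δ + δ') := by
  obtain ⟨hS1, ⟨c1, d1, hac1, hcd1, hdb1, he1⟩, hi1⟩ := h1
  obtain ⟨hS2, ⟨c2, d2, hac2, hcd2, hdb2, he2⟩, hi2⟩ := h2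
  refine ⟨hS2, ⟨min c1 c2, max d1 d2, lt_min hac1 hac2, ?_, max_lt hdb1 hdb2, fun z hz => ?_⟩, fun i hi z => ?_⟩
  · exact lt_of_le_of_lt (min_le_left _ _) (lt_of_lt_of_le hcd1 (le_max_left _ _))
  · have hz1 : z ∉ Icc c1 d1 := fun h => hz ⟨le_trans (min_le_left _ _) h.1, le_trans h.2 (le_max_left _ _)⟩
    have hz2 : z ∉ Icc c2 d2 := fun h => hz ⟨le_trans (min_le_right _ _) h.1, le_trans h.2 (le_max_right _ _)⟩
    rw [he2 z hz2, he1 z hz1]
  · have e : (fun z => h₂ z - h z) = fun z => (h₁ z - h z) + (h₂ z - h₁ z) := by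
      funext z
      ring
    have hA : ContDiffAt ℝ i (fun z => h₁ z - h z) z :=
      ((hS1.smooth.sub hS.smooth).of_le (by exact_mod_cast le_top)).contDiffAt
    have hB : ContDiffAt ℝ i (fun z => h₂ z - h₁ z) z :=
      ((hS2.smooth.sub hS1.smooth).of_le (by exact_mod_cast le_top)).contDiffAt
    rw [e, iteratedDeriv_fun_add hA hB]
    exact le_trans (abs_add_le _ _) (add_le_add (hi1 i hi z) (hi2 i hi z))

end FNGM

/-- the functions which satisfy the a priori estimate are dense -/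
theorem specFNG (hGEN : SpecGEN) (hZER : SpecZER) (hMU2 : SpecMU2) : SpecFNG := by
  intro h a b hS N δ hδ
  obtain ⟨h₁, hN1, hz⟩ := hGEN h a b hS N (δ / 2) (by linarith)
  obtain ⟨k, p, q, hM⟩ := hZER h₁ a b hN1.1 hz
  obtain ⟨h₂, hN2, hE⟩ := hMU2 h₁ a b k p q hM N (δ / 2) (by linarith)
  refine ⟨h₂, ?_, hE⟩
  have h3 := FNGM.nrTrans hS hN1 hN2
  rwa [add_halves] at h3

end Pool.Agent.Lib.MP478c11.DB
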