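import Pool.Agent.Lib.MP_478c11_gt.DB.Many

/-!
# MP_478c11_gt, DB: module FXN (helper74)

A fixed `n` without bounded solutions of the homogeneous system: the a priori estimate. (The middle
part `[p, q]` is treated with the two Wronskians with the left and the right solution, Gronwall is
not needed.)
-/

set_option autoImplicit false

namespace Pool.Agent.Lib.MP478c11.DB

open Set Filter Topology MeasureTheory
open scoped ContDiff

noncomputable section

namespace FXNM

lemma chain {h : ℝ → ℝ} {a b : ℝ} {k : ℕ} {p q : ℕ → ℝ} (M : Many h a b k p q) :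
    ∀ j < k, p 0 < q j := by
  intro j
  induction j with
  | zero =>
    intro hj
    exact (M.pq 0 hj).2.1
  | succ j ih =>
    intro hj
    have h1 := ih (by omega)
    have h2 := M.qp j hj
    have h3 := (M.pq (j + 1) hj).2.1
    linarith

lemma sys_mono {h : ℝ → ℝ} {n : ℕ} {F y v : ℝ → ℝ} {I J : Set ℝ} (hs : Sys h n F y v J)
    (hIJ : I ⊆ J) : Sys h n F y v I := fun z hz => hs z (hIJ hz)

lemma sys_smul {h : ℝ → ℝ} {n : ℕ} {y v : ℝ → ℝ} {I : Set ℝ} (c : ℝ) (hs : Sys h n O y v I) :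
    Sys h n O (fun z => c * y z) (fun z => c * v z) I := by
  intro z hz
  obtain ⟨h1, h2⟩ := hs z hz
  constructor
  · exact (h1.const_mul c).congr_deriv (by ring)
  · refine (h2.const_mul c).congr_deriv ?_
    simp only [O, add_zero]
    ring

lemma mv (f f' : ℝ → ℝ) (P Q K : ℝ) (hf : ∀ z ∈ Icc P Q, HasDerivAt f (f' z) z)
    (hb : ∀ z ∈ Icc P Q, |f' z| ≤ K) (hK : 0 ≤ K) (x y : ℝ) (hx : x ∈ Icc P Q)
    (hy : y ∈ Icc P Q) : |f y - f x| ≤ K * (Q - P) := by
  have h1 := Convex.norm_image_sub_le_of_norm_hasDerivWithin_le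
    (fun z hz => (hf z hz).hasDerivWithinAt) (fun z hz => hb z hz) (convex_Icc P Q) hx hy
  rw [Real.norm_eq_abs, Real.norm_eq_abs] at h1
  have h2 : |y - x| ≤ Q - P := by
    rw [abs_le]
    constructor <;> linarith [hx.1, hx.2, hy.1, hy.2]
  exact h1.trans (mul_le_mul_of_nonneg_left h2 hK)

end FXNM

open FXNM

/-- **FXN**: a fixed `n` without bounded solutions. -/
theorem specFXN (_hGRW : SpecGRW) (hWRO : SpecWRO) (hUNS : SpecUNS) (hCPM : SpecCPM) :
    SpecFXN := by
  intro h a b k p q M hk n hn hNB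
  obtain ⟨C₁, hC₁, hcaps⟩ := hCPM h a b k p q M hk
  obtain ⟨⟨Y, V, sY, Y1, Yb, Yx⟩, ⟨Z, U, sZ, Z1, Zb, Zx⟩⟩ := hcaps n hn
  have hPQ : p 0 < q (k - 1) := chain M (k - 1) (by omega)
  have haP : a < p 0 := (M.pq 0 (by omega)).1
  have hQb : q (k - 1) < b := (M.pq (k - 1) (by omega)).2.2
  generalize p 0 = P at *
  generalize q (k - 1) = Q at *
  have sub : Icc P Q ⊆ Ioo a b := fun z hz => ⟨haP.trans_le hz.1, hz.2.trans_lt hQb⟩
  have subL : Ioc a P ⊆ Ioo a b := fun z hz => ⟨hz.1, hz.2.trans_lt (hPQ.trans hQb)⟩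
  have subR : Ico Q b ⊆ Ioo a b := fun z hz => ⟨(haP.trans hPQ).trans_le hz.1, hz.2⟩
  have PI : P ∈ Icc P Q := ⟨le_rfl, hPQ.le⟩
  have QI : Q ∈ Icc P Q := ⟨hPQ.le, le_rfl⟩
  have cY : ContinuousOn Y (Icc P Q) := fun z hz =>
    (sY z (sub hz)).1.continuousAt.continuousWithinAt
  have cZ : ContinuousOn Z (Icc P Q) := fun z hz =>
    (sZ z (sub hz)).1.continuousAt.continuousWithinAt
  have ch : ContinuousOn h (Icc P Q) := M.sph.smooth.continuous.continuousOn
  have hpos : ∀ z ∈ Icc P Q, h z ≠ 0 := fun z hz => (M.sph.pos z (sub hz).1 (sub hz).2).ne'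
  obtain ⟨KY, hKY⟩ := isCompact_Icc.exists_bound_of_continuousOn cY
  obtain ⟨KZ, hKZ⟩ := isCompact_Icc.exists_bound_of_continuousOn cZ
  obtain ⟨LY, hLY⟩ := isCompact_Icc.exists_bound_of_continuousOn (cY.div ch hpos)
  obtain ⟨LZ, hLZ⟩ := isCompact_Icc.exists_bound_of_continuousOn (cZ.div ch hpos)
  have KY0 : 0 ≤ KY := (norm_nonneg _).trans (hKY P PI)
  have KZ0 : 0 ≤ KZ := (norm_nonneg _).trans (hKZ P PI)
  have LY0 : 0 ≤ LY := (norm_nonneg _).trans (hLY P PI)
  have LZ0 : 0 ≤ LZ := (norm_nonneg _).trans (hLZ P PI)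
  -- the Wronskian is not zero
  have hDne : Y Q * U Q - V Q * Z Q ≠ 0 := by
    intro h0
    have hV : V Q = Y Q * U Q := by
      rw [Z1] at h0
      linarith
    have key := hUNS h a b M.sph n O Y V (fun z => Y Q * Z z) (fun z => Y Q * U z) (Ioo a b)
      ordConnected_Ioo (Subset.refl _) sY (sys_smul (Y Q) sZ) Q (sub QI) (by simp [Z1]) hV
    have hbd : ∀ z ∈ Ioo a b, |Y z| ≤ max (max 1 KY) |Y Q| := by
      intro z hz
      rcases le_or_gt z P with h1 | h1
      · exact (Yb z ⟨hz.1, h1⟩).trans ((le_max_left _ _).trans (le_max_left _ _))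
      · rcases le_or_gt z Q with h2 | h2
        · exact (hKY z ⟨h1.le, h2⟩).trans ((le_max_right _ _).trans (le_max_left _ _))
        · rw [(key z hz).1, abs_mul]
          have h3 : |Y Q| * |Z z| ≤ |Y Q| * 1 :=
            mul_le_mul_of_nonneg_left (Zb z ⟨h2.le, hz.2⟩) (abs_nonneg _)
          rw [mul_one] at h3
          exact h3.trans (le_max_right _ _)
    have h4 := hNB Y V _ sY hbd P (sub PI)
    rw [Y1] at h4
    exact one_ne_zero h4
  have hconst : ∀ z ∈ Icc P Q, Y z * U z - V z * Z z = Y Q * U Q - V Q * Z Q := fun z hz =>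
    hWRO.2 h n Z U Y V (Ioo a b) ordConnected_Ioo sZ sY z (sub hz) Q (sub QI)
  generalize hDdef : Y Q * U Q - V Q * Z Q = D at *
  have hD0 : 0 < |D| := abs_pos.2 hDne
  have hn2 : (0 : ℝ) ≤ (n : ℝ) ^ 2 := by positivity
  have hQP : 0 ≤ Q - P := by linarith
  have T10 : 0 ≤ C₁ * (n : ℝ) ^ 2 + LY * (Q - P) := by positivity
  have T20 : 0 ≤ C₁ * (n : ℝ) ^ 2 + LZ * (Q - P) := by positivity
  have hT0 : 0 ≤ (KZ * (C₁ * (n : ℝ) ^ 2 + LY * (Q - P)) +
      KY * (C₁ * (n : ℝ) ^ 2 + LZ * (Q - P))) / |D| := by positivity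
  refine ⟨C₁ + (KZ * (C₁ * (n : ℝ) ^ 2 + LY * (Q - P)) +
      KY * (C₁ * (n : ℝ) ^ 2 + LZ * (Q - P))) / |D|, by linarith, ?_⟩
  intro F y v R M' hs hb
  have R0 : 0 ≤ R := (abs_nonneg _).trans (hb P (sub PI)).1
  obtain ⟨xl, xl'⟩ := Yx F y v R M' (sys_mono hs subL) R0 (fun z hz => hb z (subL hz))
  obtain ⟨xr, xr'⟩ := Zx F y v R M' (sys_mono hs subR) R0 (fun z hz => hb z (subR hz))
  -- the Wronskians with the source
  have w1 : ∀ z ∈ Icc P Q, |Y z * v z - V z * y z| ≤ (C₁ * (n : ℝ) ^ 2 + LY * (Q - P)) * R := by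
    intro z hz
    have h1 := mv (fun z => Y z * v z - V z * y z) (fun z => Y z * F z / h z) P Q (LY * R)
      (fun z hz => hWRO.1 h n F y v Y V (Ioo a b) hs sY z (sub hz))
      (fun z hz => by
        have h2 : Y z * F z / h z = Y z / h z * F z := by ring
        rw [h2, abs_mul]
        exact mul_le_mul (hLY z hz) (hb z (sub hz)).1 (abs_nonneg _) LY0)
      (mul_nonneg LY0 R0) P z PI hz
    have h3 : Y P * v P - V P * y P = v P - y P * V P := by
      rw [Y1]
      ring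
    simp only [h3] at h1
    have h4 : |Y z * v z - V z * y z| ≤ |Y z * v z - V z * y z - (v P - y P * V P)| +
        |v P - y P * V P| := by
      have h5 := abs_add_le (Y z * v z - V z * y z - (v P - y P * V P)) (v P - y P * V P)
      rwa [sub_add_cancel] at h5
    nlinarith
  have w2 : ∀ z ∈ Icc P Q, |Z z * v z - U z * y z| ≤ (C₁ * (n : ℝ) ^ 2 + LZ * (Q - P)) * R := by
    intro z hz
    have h1 := mv (fun z => Z z * v z - U z * y z) (fun z => Z z * F z / h z) P Q (LZ * R)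
      (fun z hz => hWRO.1 h n F y v Z U (Ioo a b) hs sZ z (sub hz))
      (fun z hz => by
        have h2 : Z z * F z / h z = Z z / h z * F z := by ring
        rw [h2, abs_mul]
        exact mul_le_mul (hLZ z hz) (hb z (sub hz)).1 (abs_nonneg _) LZ0)
      (mul_nonneg LZ0 R0) Q z QI hz
    have h3 : Z Q * v Q - U Q * y Q = v Q - y Q * U Q := by
      rw [Z1]
      ring
    simp only [h3] at h1
    have h4 : |Z z * v z - U z * y z| ≤ |Z z * v z - U z * y z - (v Q - y Q * U Q)| +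
        |v Q - y Q * U Q| := by
      have h5 := abs_add_le (Z z * v z - U z * y z - (v Q - y Q * U Q)) (v Q - y Q * U Q)
      rwa [sub_add_cancel] at h5
    nlinarith
  have mid : ∀ z ∈ Icc P Q, |y z| ≤ (KZ * (C₁ * (n : ℝ) ^ 2 + LY * (Q - P)) +
      KY * (C₁ * (n : ℝ) ^ 2 + LZ * (Q - P))) / |D| * R := by
    intro z hz
    have h1 : y z * D = (Y z * v z - V z * y z) * Z z - (Z z * v z - U z * y z) * Y z := by
      rw [← hconst z hz]
      ring
    have h2 : |y z| * |D| ≤ (C₁ * (n : ℝ) ^ 2 + LY * (Q - P)) * R * KZ +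
        (C₁ * (n : ℝ) ^ 2 + LZ * (Q - P)) * R * KY := by
      rw [← abs_mul, h1]
      refine (abs_sub _ _).trans ?_
      rw [abs_mul, abs_mul]
      have hz1 : |Z z| ≤ KZ := hKZ z hz
      have hy1 : |Y z| ≤ KY := hKY z hz
      exact add_le_add
        (mul_le_mul (w1 z hz) hz1 (abs_nonneg _) (mul_nonneg T10 R0))
        (mul_le_mul (w2 z hz) hy1 (abs_nonneg _) (mul_nonneg T20 R0))
    rw [div_mul_eq_mul_div, le_div_iff₀ hD0]
    linarith
  have hCR : 0 ≤ C₁ * R := by positivity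
  intro z hz
  rcases le_or_gt z P with h1 | h1
  · have h2 := xl z ⟨hz.1, h1⟩
    have h3 := Yb z ⟨hz.1, h1⟩
    have h4 := mid P PI
    have h5 : |y z| ≤ |y z - y P * Y z| + |y P * Y z| := by
      have h6 := abs_add_le (y z - y P * Y z) (y P * Y z)
      rwa [sub_add_cancel] at h6
    have h7 : |y P * Y z| ≤ |y P| := by
      rw [abs_mul]
      have h8 : |y P| * |Y z| ≤ |y P| * 1 := mul_le_mul_of_nonneg_left h3 (abs_nonneg _)
      rwa [mul_one] at h8
    rw [add_mul]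
    linarith
  · rcases le_or_gt z Q with h2 | h2
    · have h3 := mid z ⟨h1.le, h2⟩
      rw [add_mul]
      linarith
    · have h3 := xr z ⟨h2.le, hz.2⟩
      have h4 := Zb z ⟨h2.le, hz.2⟩
      have h5 := mid Q QI
      have h6 : |y z| ≤ |y z - y Q * Z z| + |y Q * Z z| := by
        have h7 := abs_add_le (y z - y Q * Z z) (y Q * Z z)
        rwa [sub_add_cancel] at h7
      have h8 : |y Q * Z z| ≤ |y Q| := by
        rw [abs_mul]
        have h9 : |y Q| * |Z z| ≤ |y Q| * 1 := mul_le_mul_of_nonneg_left h4 (abs_nonneg _)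
        rwa [mul_one] at h9
      rw [add_mul]
      linarith

end

end Pool.Agent.Lib.MP478c11.DB
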