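import Pool.Agent.Lib.MP_478c11_gt.DB.Many

/-!
# MP_478c11, DB: module GEN (simple zeros are dense)
-/

set_option autoImplicit false

namespace Pool.Agent.Lib.MP478c11.DB

open Set Filter Topology MeasureTheory
open scoped ContDiff

namespace GENM

/-- the linear part of the perturbation -/
noncomputable def AA (h κ : ℝ → ℝ) (z : ℝ) : ℝ := √(h z) * κ z

/-- the quadratic part of the perturbation -/
noncomputable def BB (κ : ℝ → ℝ) (z : ℝ) : ℝ := κ z ^ 2

/-- the perturbation -/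
noncomputable def gg (h κ : ℝ → ℝ) (μ z : ℝ) : ℝ := 2 * μ * AA h κ z + μ ^ 2 * BB κ z

theorem pert_eq (h κ : ℝ → ℝ) (μ : ℝ) : pert h κ μ = fun z => h z + gg h κ μ z := by
  funext z
  unfold pert gg AA BB
  ring

theorem contDiff_of {f : ℝ → ℝ} {c d : ℝ} (h0 : ∀ z, z ∉ Icc c d → f z = 0)
    (h1 : ∀ z ∈ Icc c d, ContDiffAt ℝ ∞ f z) : ContDiff ℝ ∞ f := by
  rw [contDiff_iff_contDiffAt]
  intro z
  by_cases hz : z ∈ Icc c d
  · exact h1 z hz
  · have h2 : ∀ᶠ y in 𝓝 z, y ∉ Icc c d := isClosed_Icc.isOpen_compl.mem_nhds hz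
    have h3 : f =ᶠ[𝓝 z] fun _ => 0 := by
      filter_upwards [h2] with y hy
      exact h0 y hy
    exact contDiffAt_const.congr_of_eventuallyEq h3

theorem bound {f : ℝ → ℝ} {c d : ℝ} (hf : ContDiff ℝ ∞ f) (h0 : ∀ z, z ∉ Icc c d → f z = 0)
    (i : ℕ) : ∃ M : ℝ, 0 ≤ M ∧ ∀ z, |iteratedDeriv i f z| ≤ M := by
  have hc : HasCompactSupport f := HasCompactSupport.intro isCompact_Icc (fun z hz => h0 z hz)
  have h1 : Continuous (iteratedFDeriv ℝ i f) :=
    hf.continuous_iteratedFDeriv (by exact_mod_cast le_top)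
  obtain ⟨M, hM⟩ := h1.bounded_above_of_compact_support (hc.iteratedFDeriv i)
  refine ⟨max M 0, le_max_right _ _, fun z => ?_⟩
  rw [← Real.norm_eq_abs, ← norm_iteratedFDeriv_eq_norm_iteratedDeriv]
  exact (hM z).trans (le_max_left _ _)

theorem bounds {f : ℝ → ℝ} {c d : ℝ} (hf : ContDiff ℝ ∞ f) (h0 : ∀ z, z ∉ Icc c d → f z = 0)
    (N : ℕ) : ∃ M : ℝ, 0 ≤ M ∧ ∀ i ≤ N, ∀ z, |iteratedDeriv i f z| ≤ M := by
  choose M h1 hM using bound hf h0
  refine ⟨∑ i ∈ Finset.range (N + 1), M i, Finset.sum_nonneg (fun i _ => h1 i),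
    fun i hi z => (hM i z).trans ?_⟩
  exact Finset.single_le_sum (f := M) (fun j _ => h1 j) (Finset.mem_range.2 (by omega))

theorem iter_gg {h κ : ℝ → ℝ} (hA : ContDiff ℝ ∞ (AA h κ)) (hB : ContDiff ℝ ∞ (BB κ)) (μ : ℝ)
    (i : ℕ) (z : ℝ) : iteratedDeriv i (gg h κ μ) z =
      2 * μ * iteratedDeriv i (AA h κ) z + μ ^ 2 * iteratedDeriv i (BB κ) z := by
  have hA' : ContDiffAt ℝ i (AA h κ) z := (hA.of_le (by exact_mod_cast le_top)).contDiffAt
  have hB' : ContDiffAt ℝ i (BB κ) z := (hB.of_le (by exact_mod_cast le_top)).contDiffAt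
  have e1 : gg h κ μ = (fun z => 2 * μ * AA h κ z) + fun z => μ ^ 2 * BB κ z := rfl
  rw [e1, iteratedDeriv_add (contDiffAt_const.mul hA') (contDiffAt_const.mul hB'),
    iteratedDeriv_const_mul _ hA', iteratedDeriv_const_mul _ hB']

theorem W_congr {f g : ℝ → ℝ} {z : ℝ} (hfg : f =ᶠ[𝓝 z] g) : W f z = W g z := by
  unfold W
  rw [hfg.deriv_eq, hfg.deriv.deriv_eq, hfg.eq_of_nhds]

theorem W_diff {h g : ℝ → ℝ} (hh : ContDiff ℝ ∞ h) (hg : ContDiff ℝ ∞ g) (z : ℝ) {H e : ℝ}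
    (h0 : |h z| ≤ H) (h1 : |deriv h z| ≤ H) (h2 : |deriv (deriv h) z| ≤ H)
    (g0 : |g z| ≤ e) (g1 : |deriv g z| ≤ e) (g2 : |deriv (deriv g) z| ≤ e) :
    W h z - (3 / 2 * H * e + 3 / 4 * e ^ 2) ≤ W (fun z => h z + g z) z := by
  obtain ⟨hd, hd'⟩ := contDiff_infty_iff_deriv.1 hh
  obtain ⟨gd, gd'⟩ := contDiff_infty_iff_deriv.1 hg
  have hdd := (contDiff_infty_iff_deriv.1 hd').1
  have gdd := (contDiff_infty_iff_deriv.1 gd').1
  have e1 : deriv (fun z => h z + g z) = fun z => deriv h z + deriv g z := by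
    funext y
    exact deriv_fun_add (hd y) (gd y)
  have e2 : deriv (fun z => deriv h z + deriv g z) z = deriv (deriv h) z + deriv (deriv g) z :=
    deriv_fun_add (hdd z) (gdd z)
  unfold W
  rw [e1, e2]
  have hH : 0 ≤ H := (abs_nonneg _).trans h0
  have he : 0 ≤ e := (abs_nonneg _).trans g0
  have key : ∀ x y : ℝ, |x| ≤ H → |y| ≤ e → |x * y| ≤ H * e := by
    intro x y hx hy
    rw [abs_mul]
    exact mul_le_mul hx hy (abs_nonneg _) hH
  have key' : ∀ x y : ℝ, |x| ≤ e → |y| ≤ e → |x * y| ≤ e * e := by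
    intro x y hx hy
    rw [abs_mul]
    exact mul_le_mul hx hy (abs_nonneg _) he
  have k1 := (abs_le.1 (key _ _ h1 g1)).1
  have k3 := (abs_le.1 (key _ _ h0 g2)).2
  have k4 := (abs_le.1 (key _ _ h2 g0)).2
  have k5 := (abs_le.1 (key' _ _ g0 g2)).2
  have k6 := sq_nonneg (deriv g z)
  nlinarith [sq_nonneg e]

/-- a cutoff function -/
theorem cutoff (a b η : ℝ) (hη : 0 < η) (hab : a + 2 * η < b - 2 * η) : ∃ κ : ℝ → ℝ, ContDiff ℝ ∞ κ ∧
    (∀ z, z ∉ Icc (a + η / 4) (b - η / 4) → κ z = 0) ∧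
    ∀ z ∈ Ioo (a + η / 2) (b - η / 2), κ z = z ^ 2 / 2 := by
  let φ : ContDiffBump ((a + b) / 2) := ⟨(b - a) / 2 - η / 2, (b - a) / 2 - η / 4, by linarith, by linarith⟩
  refine ⟨fun z => z ^ 2 / 2 * φ z, ?_, ?_, ?_⟩
  · exact ((contDiff_id.pow 2).div_const _).mul φ.contDiff
  · intro z hz
    have h1 : φ z = 0 := by
      apply φ.zero_of_le_dist
      show (b - a) / 2 - η / 4 ≤ dist z ((a + b) / 2)
      rw [Real.dist_eq]
      by_contra hcon
      push Not at hcon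
      rw [abs_lt] at hcon
      exact hz ⟨by linarith [hcon.1], by linarith [hcon.2]⟩
    show z ^ 2 / 2 * φ z = 0
    rw [h1, mul_zero]
  · intro z hz
    have h1 : φ z = 1 := by
      apply φ.one_of_mem_closedBall
      rw [Metric.mem_closedBall, Real.dist_eq, abs_le]
      show -((b - a) / 2 - η / 2) ≤ z - (a + b) / 2 ∧ z - (a + b) / 2 ≤ (b - a) / 2 - η / 2
      exact ⟨by linarith [hz.1], by linarith [hz.2]⟩
    show z ^ 2 / 2 * φ z = z ^ 2 / 2
    rw [h1, mul_one]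

/-- Sard in dimension one -/
theorem sard (f : ℝ → ℝ) (s : Set ℝ) (h1 : ∀ z ∈ s, HasDerivAt f 0 z) : volume (f '' s) = 0 := by
  refine addHaar_image_eq_zero_of_det_fderivWithin_eq_zero (f' := fun _ => (0 : ℝ →L[ℝ] ℝ)) volume ?_ ?_
  · intro x hx
    have h2 := (h1 x hx).hasFDerivAt.hasFDerivWithinAt (s := s)
    have h3 : (ContinuousLinearMap.toSpanSingleton ℝ (0 : ℝ)) = (0 : ℝ →L[ℝ] ℝ) := by
      ext
      simp
    rwa [h3] at h2
  · intro x hx
    show LinearMap.det _ = 0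
    simp

theorem exists_mu (f : ℝ → ℝ) (s : Set ℝ) (h1 : ∀ z ∈ s, HasDerivAt f 0 z) (μ₀ : ℝ) (h0 : 0 < μ₀) :
    ∃ μ : ℝ, 0 < μ ∧ μ ≤ μ₀ ∧ ∀ z ∈ s, f z + μ ≠ 0 := by
  have h2 := sard f s h1
  have h3 : ∃ x ∈ Ioo (-μ₀) 0, x ∉ f '' s := by
    by_contra hcon
    push Not at hcon
    have h4 : volume (Ioo (-μ₀) 0) ≤ volume (f '' s) := measure_mono hcon
    rw [h2, Real.volume_Ioo] at h4
    have h5 : (0 : ℝ) < 0 - -μ₀ := by linarith
    exact absurd h4 (not_le.2 (ENNReal.ofReal_pos.2 h5))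
  obtain ⟨x, hx, hxs⟩ := h3
  refine ⟨-x, by linarith [hx.2], by linarith [hx.1], ?_⟩
  intro z hz h6
  exact hxs ⟨z, hz, by linarith⟩

end GENM

open GENM in
theorem specGEN (hSQR : SpecSQR) : SpecGEN := by
  intro h a b hS N δ hδ
  have hab := hS.ab
  obtain ⟨hd, hd'⟩ := contDiff_infty_iff_deriv.1 hS.smooth
  obtain ⟨hdd, hdd'⟩ := contDiff_infty_iff_deriv.1 hd'
  have hWc : Continuous (W h) := by
    unfold W
    exact ((hd'.continuous.pow 2).div_const _).sub ((hS.smooth.continuous.mul hdd'.continuous).div_const _)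
  have hWa : 0 < W h a := by
    unfold W
    rw [hS.ha]
    have := hS.da
    have : 0 < deriv h a ^ 2 := by positivity
    linarith
  have hWb : 0 < W h b := by
    unfold W
    rw [hS.hb]
    have h1 := hS.db
    have : 0 < deriv h b ^ 2 := by
      have := mul_pos (neg_pos.2 h1) (neg_pos.2 h1)
      nlinarith
    linarith
  -- the choice of η
  obtain ⟨η, hη, hη1, hη2, hη3⟩ : ∃ η : ℝ, 0 < η ∧ a + 2 * η < b - 2 * η ∧
      (∀ z ∈ Icc a (a + η), 0 < W h z) ∧ ∀ z ∈ Icc (b - η) b, 0 < W h z := by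
    have h1 : ∀ᶠ z in 𝓝 a, 0 < W h z := hWc.continuousAt.eventually (lt_mem_nhds hWa)
    have h2 : ∀ᶠ z in 𝓝 b, 0 < W h z := hWc.continuousAt.eventually (lt_mem_nhds hWb)
    obtain ⟨e1, he1, h1'⟩ := Metric.eventually_nhds_iff.1 h1
    obtain ⟨e2, he2, h2'⟩ := Metric.eventually_nhds_iff.1 h2
    refine ⟨min (min (e1 / 2) (e2 / 2)) ((b - a) / 5), lt_min (lt_min (by linarith) (by linarith)) (by linarith),
      ?_, ?_, ?_⟩
    · have := min_le_right (min (e1 / 2) (e2 / 2)) ((b - a) / 5)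
      linarith
    · intro z hz
      apply h1'
      rw [Real.dist_eq, abs_lt]
      have := (min_le_left (min (e1 / 2) (e2 / 2)) ((b - a) / 5)).trans (min_le_left _ _)
      exact ⟨by linarith [hz.1], by linarith [hz.2]⟩
    · intro z hz
      apply h2'
      rw [Real.dist_eq, abs_lt]
      have := (min_le_left (min (e1 / 2) (e2 / 2)) ((b - a) / 5)).trans (min_le_right _ _)
      exact ⟨by linarith [hz.1], by linarith [hz.2]⟩
  obtain ⟨κ, hκ, hκ0, hκ1⟩ := cutoff a b η hη hη1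
  obtain ⟨c, hc⟩ : ∃ c : ℝ, c = a + η / 4 := ⟨_, rfl⟩
  obtain ⟨d, hdef⟩ : ∃ d : ℝ, d = b - η / 4 := ⟨_, rfl⟩
  rw [← hc, ← hdef] at hκ0
  have hcd : c < d := by rw [hc, hdef]; linarith
  have hac : a < c := by rw [hc]; linarith
  have hdb : d < b := by rw [hdef]; linarith
  have hpos : ∀ z ∈ Icc c d, 0 < h z := fun z hz => hS.pos z (by linarith [hz.1]) (by linarith [hz.2])
  have hA0 : ∀ z, z ∉ Icc c d → AA h κ z = 0 := by
    intro z hz
    unfold AA
    rw [hκ0 z hz, mul_zero]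
  have hB0 : ∀ z, z ∉ Icc c d → BB κ z = 0 := by
    intro z hz
    unfold BB
    rw [hκ0 z hz]
    norm_num
  have hA : ContDiff ℝ ∞ (AA h κ) := contDiff_of hA0
    (fun z hz => (hS.smooth.contDiffAt.sqrt (hpos z hz).ne').mul hκ.contDiffAt)
  have hB : ContDiff ℝ ∞ (BB κ) := hκ.pow 2
  have hg : ∀ μ, ContDiff ℝ ∞ (gg h κ μ) := fun μ =>
    (contDiff_const.mul hA).add (contDiff_const.mul hB)
  have hg0 : ∀ μ z, z ∉ Icc c d → gg h κ μ z = 0 := by
    intro μ z hz
    unfold gg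
    rw [hA0 z hz, hB0 z hz]
    ring
  obtain ⟨M1, hM1, hA1⟩ := bounds hA hA0 (N + 2)
  obtain ⟨M2, hM2, hB1⟩ := bounds hB hB0 (N + 2)
  obtain ⟨M, hM⟩ : ∃ M : ℝ, M = 2 * M1 + M2 := ⟨_, rfl⟩
  have hM0 : 0 ≤ M := by rw [hM]; positivity
  have hgb : ∀ μ : ℝ, |μ| ≤ 1 → ∀ i ≤ N + 2, ∀ z, |iteratedDeriv i (gg h κ μ) z| ≤ |μ| * M := by
    intro μ hμ i hi z
    rw [iter_gg hA hB, hM]
    have h1 := hA1 i hi z
    have h2 := hB1 i hi z
    calc |2 * μ * iteratedDeriv i (AA h κ) z + μ ^ 2 * iteratedDeriv i (BB κ) z|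
        ≤ |2 * μ * iteratedDeriv i (AA h κ) z| + |μ ^ 2 * iteratedDeriv i (BB κ) z| := abs_add_le _ _
      _ = 2 * |μ| * |iteratedDeriv i (AA h κ) z| + |μ| * |μ| * |iteratedDeriv i (BB κ) z| := by
          rw [abs_mul, abs_mul, abs_mul, abs_two, pow_two, abs_mul]
      _ ≤ 2 * |μ| * M1 + |μ| * 1 * M2 := by
          have h3 := abs_nonneg μ
          have h4 := abs_nonneg (iteratedDeriv i (BB κ) z)
          gcongr
      _ = |μ| * (2 * M1 + M2) := by ring
  -- bounds on the compact interval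
  obtain ⟨H0, hH0⟩ := isCompact_Icc.exists_bound_of_continuousOn (s := Icc a b) hS.smooth.continuous.continuousOn
  obtain ⟨H1, hH1⟩ := isCompact_Icc.exists_bound_of_continuousOn (s := Icc a b) hd'.continuous.continuousOn
  obtain ⟨H2, hH2⟩ := isCompact_Icc.exists_bound_of_continuousOn (s := Icc a b) hdd'.continuous.continuousOn
  obtain ⟨H, hH⟩ : ∃ H : ℝ, H = max (max H0 H1) (max H2 0) := ⟨_, rfl⟩
  have hHn : 0 ≤ H := by rw [hH]; exact (le_max_right _ _).trans (le_max_right _ _)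
  have hHa : ∀ z ∈ Icc a b, |h z| ≤ H := fun z hz =>
    (hH0 z hz).trans (by rw [hH]; exact (le_max_left _ _).trans (le_max_left _ _))
  have hHb : ∀ z ∈ Icc a b, |deriv h z| ≤ H := fun z hz =>
    (hH1 z hz).trans (by rw [hH]; exact (le_max_right _ _).trans (le_max_left _ _))
  have hHc : ∀ z ∈ Icc a b, |deriv (deriv h) z| ≤ H := fun z hz =>
    (hH2 z hz).trans (by rw [hH]; exact (le_max_left _ _).trans (le_max_right _ _))
  -- a lower bound of `W` near the poles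
  obtain ⟨w0, hw0p, hW1, hW2⟩ : ∃ w0 : ℝ, 0 < w0 ∧ (∀ z ∈ Icc a (a + η), w0 ≤ W h z) ∧
      ∀ z ∈ Icc (b - η) b, w0 ≤ W h z := by
    obtain ⟨z1, hz1, hz1m⟩ := isCompact_Icc.exists_isMinOn (s := Icc a (a + η)) ⟨a, le_refl _, by linarith⟩
      hWc.continuousOn
    obtain ⟨z2, hz2, hz2m⟩ := isCompact_Icc.exists_isMinOn (s := Icc (b - η) b) ⟨b, by linarith, le_refl _⟩
      hWc.continuousOn
    refine ⟨min (W h z1) (W h z2), lt_min (hη2 z1 hz1) (hη3 z2 hz2), ?_, ?_⟩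
    · intro z hz
      exact (min_le_left _ _).trans (hz1m hz)
    · intro z hz
      exact (min_le_right _ _).trans (hz2m hz)
  have hne : (Icc c d).Nonempty := ⟨c, le_refl _, hcd.le⟩
  have hsq : ContinuousOn (fun z => √(h z)) (Icc c d) := (Real.continuous_sqrt.comp hS.smooth.continuous).continuousOn
  obtain ⟨z1, hz1, hz1m⟩ := isCompact_Icc.exists_isMinOn hne hsq
  obtain ⟨r0, hr0⟩ : ∃ r0 : ℝ, r0 = √(h z1) := ⟨_, rfl⟩
  have hr0p : 0 < r0 := by rw [hr0]; exact Real.sqrt_pos.2 (hpos z1 hz1)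
  have hrle : ∀ z ∈ Icc c d, r0 ≤ √(h z) := by
    intro z hz
    rw [hr0]
    exact hz1m hz
  obtain ⟨k0, hk0, hk⟩ := bound hκ hκ0 0
  have hkle : ∀ z, |κ z| ≤ k0 := by
    intro z
    have := hk z
    rwa [iteratedDeriv_zero] at this
  -- the choice of μ₀
  obtain ⟨E, hE⟩ : ∃ E : ℝ, E = 3 / 2 * H * M + 3 / 4 * M ^ 2 := ⟨_, rfl⟩
  have hE0 : 0 ≤ E := by rw [hE]; positivity
  obtain ⟨μ₀, hμ₀⟩ : ∃ μ₀ : ℝ, μ₀ = min (min 1 (δ / (M + 1))) (min (w0 / (E + 1) / 2) (r0 / (k0 + 1) / 2)) :=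
    ⟨_, rfl⟩
  have hμ₀p : 0 < μ₀ := by
    rw [hμ₀]
    refine lt_min (lt_min one_pos (by positivity)) (lt_min (by positivity) (by positivity))
  -- the choice of μ
  obtain ⟨μ, hμp, hμl, hμs⟩ := exists_mu (deriv (deriv fun z => √(h z)))
    {z | z ∈ Ioo (a + η / 2) (b - η / 2) ∧ HasDerivAt (deriv (deriv fun z => √(h z))) 0 z} (fun z hz => hz.2) μ₀ hμ₀p
  have hμ : |μ| ≤ μ₀ := by rw [abs_of_pos hμp]; exact hμl
  have m1 : |μ| ≤ 1 := hμ.trans (by rw [hμ₀]; exact (min_le_left _ _).trans (min_le_left _ _))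
  have m2 : |μ| ≤ δ / (M + 1) := hμ.trans (by rw [hμ₀]; exact (min_le_left _ _).trans (min_le_right _ _))
  have m3 : |μ| ≤ w0 / (E + 1) / 2 :=
    hμ.trans (by rw [hμ₀]; exact (min_le_right _ _).trans (min_le_left _ _))
  have m4 : |μ| ≤ r0 / (k0 + 1) / 2 :=
    hμ.trans (by rw [hμ₀]; exact (min_le_right _ _).trans (min_le_right _ _))
  have hμn := abs_nonneg μ
  have m2' : |μ| * M ≤ δ := by
    rw [le_div_iff₀ (by linarith)] at m2
    nlinarith
  have m3' : |μ| * E < w0 := by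
    rw [div_div, le_div_iff₀ (by positivity)] at m3
    nlinarith
  have m4' : |μ| * k0 < r0 := by
    rw [div_div, le_div_iff₀ (by positivity)] at m4
    nlinarith
  have hsub : ∀ z, z ∉ Icc c d → pert h κ μ =ᶠ[𝓝 z] h := by
    intro z hz
    have h2 : ∀ᶠ y in 𝓝 z, y ∉ Icc c d := isClosed_Icc.isOpen_compl.mem_nhds hz
    filter_upwards [h2] with y hy
    rw [pert_eq]
    show h y + gg h κ μ y = h y
    rw [hg0 μ y hy, add_zero]
  have hBp : ∀ z ∈ Ioo a b, 0 < √(h z) + μ * κ z := by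
    intro z hz
    by_cases hz' : z ∈ Icc c d
    · have h1 := hrle z hz'
      have h2 : |μ * κ z| < r0 := by
        rw [abs_mul]
        exact lt_of_le_of_lt (mul_le_mul_of_nonneg_left (hkle z) hμn) m4'
      have h3 := (abs_lt.1 h2).1
      linarith
    · rw [hκ0 z hz', mul_zero, add_zero]
      exact Real.sqrt_pos.2 (hS.pos z hz.1 hz.2)
  have hsm : ContDiff ℝ ∞ (pert h κ μ) := by
    rw [pert_eq]
    exact hS.smooth.add (hg μ)
  have hna : a ∉ Icc c d := fun hh => by linarith [hh.1]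
  have hnb : b ∉ Icc c d := fun hh => by linarith [hh.2]
  have hWpos : ∀ z ∈ Icc a b, w0 ≤ W h z → 0 < W (pert h κ μ) z := by
    intro z hz hw
    have e0 := hgb μ m1 0 (by omega) z
    have e1 := hgb μ m1 1 (by omega) z
    have e2 := hgb μ m1 2 (by omega) z
    rw [iteratedDeriv_zero] at e0
    rw [iteratedDeriv_one] at e1
    rw [show (2 : ℕ) = 1 + 1 from rfl, iteratedDeriv_succ, iteratedDeriv_one] at e2
    have h3 := W_diff hS.smooth (hg μ) z (hHa z hz) (hHb z hz) (hHc z hz) e0 e1 e2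
    rw [pert_eq]
    have h4 : 3 / 2 * H * (|μ| * M) + 3 / 4 * (|μ| * M) ^ 2 ≤ |μ| * E := by
      rw [hE]
      have h5 : (|μ| * M) ^ 2 ≤ |μ| * M ^ 2 := by
        have : |μ| ^ 2 ≤ |μ| := by nlinarith
        nlinarith [sq_nonneg M]
      nlinarith
    linarith
  refine ⟨pert h κ μ, ⟨?_, ?_, ?_⟩, ?_⟩
  · constructor
    · exact hsm
    · exact hab
    · rw [(hsub a hna).eq_of_nhds]; exact hS.ha
    · rw [(hsub b hnb).eq_of_nhds]; exact hS.hb
    · intro z hza hzb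
      by_cases hz : z ∈ Icc c d
      · have h1 := hBp z ⟨hza, hzb⟩
        have h2 : pert h κ μ z = (√(h z) + μ * κ z) ^ 2 := by
          have h3 := Real.sq_sqrt (hpos z hz).le
          unfold pert
          linear_combination -h3
        rw [h2]
        positivity
      · rw [(hsub z hz).eq_of_nhds]; exact hS.pos z hza hzb
    · rw [(hsub a hna).deriv_eq]; exact hS.da
    · rw [(hsub b hnb).deriv_eq]; exact hS.db
  · exact ⟨c, d, hac, hcd, hdb, fun z hz => (hsub z hz).eq_of_nhds⟩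
  · intro i hi z
    have e1 : (fun z => pert h κ μ z - h z) = gg h κ μ := by
      rw [pert_eq]
      funext y
      show h y + gg h κ μ y - h y = gg h κ μ y
      ring
    rw [e1]
    exact (hgb μ m1 i (by omega) z).trans m2'
  · intro z hz hz0
    have hz1 : z ∈ Ioo (a + η / 2) (b - η / 2) := by
      constructor
      · by_contra hcon
        push Not at hcon
        have := hWpos z hz (hW1 z ⟨hz.1, by linarith⟩)
        linarith
      · by_contra hcon
        push Not at hcon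
        have := hWpos z hz (hW2 z ⟨by linarith, hz.2⟩)
        linarith
    have hκd : ∀ y ∈ Ioo (a + η / 2) (b - η / 2), deriv (deriv κ) y = 1 := by
      intro y hy
      have h1 : ∀ y ∈ Ioo (a + η / 2) (b - η / 2), deriv κ y = y := by
        intro y hy
        have h2 : κ =ᶠ[𝓝 y] fun y => y ^ 2 / 2 := by
          filter_upwards [Ioo_mem_nhds hy.1 hy.2] with x hx
          exact hκ1 x hx
        rw [h2.deriv_eq]
        have h3 : HasDerivAt (fun y : ℝ => y ^ 2 / 2) (((2 : ℕ) : ℝ) * y ^ (2 - 1) / 2) y := (hasDerivAt_pow 2 y).div_const 2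
        rw [h3.deriv]
        norm_num
      have h2 : deriv κ =ᶠ[𝓝 y] fun y => y := by
        filter_upwards [Ioo_mem_nhds hy.1 hy.2] with x hx
        exact h1 x hx
      rw [h2.deriv_eq]
      exact (hasDerivAt_id y).deriv
    have hform : ∀ y ∈ Ioo (a + η / 2) (b - η / 2), W (pert h κ μ) y =
        -(√(h y) + μ * κ y) ^ 3 * (deriv (deriv fun z => √(h z)) y + μ) := by
      intro y hy
      have hy1 : a < y := by linarith [hy.1]
      have hy2 : y < b := by linarith [hy.2]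
      have h1 := (hSQR.2 h κ μ y hS.smooth hκ (hS.pos y hy1 hy2) (hBp y ⟨hy1, hy2⟩)).2
      rw [h1, hκd y hy, mul_one]
    have hza : a < z := by linarith [hz1.1]
    have hzb : z < b := by linarith [hz1.2]
    have hR := hBp z ⟨hza, hzb⟩
    have hf0 : deriv (deriv fun z => √(h z)) z + μ = 0 := by
      have h1 := hform z hz1
      rw [hz0] at h1
      have h2 : -(√(h z) + μ * κ z) ^ 3 ≠ 0 := by
        have : 0 < (√(h z) + μ * κ z) ^ 3 := by positivity
        linarith [neg_ne_zero.2 this.ne']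
      exact (mul_eq_zero.1 h1.symm).resolve_left h2
    -- smoothness of the root
    have hrs : ContDiffAt ℝ ∞ (fun z => √(h z)) z := (hSQR.1 h z hS.smooth (hS.pos z hza hzb)).1
    have hr1 : ContDiffAt ℝ ∞ (deriv fun z => √(h z)) z := hrs.derivWithin (by exact le_refl _)
    have hr2 : ContDiffAt ℝ ∞ (deriv (deriv fun z => √(h z))) z := hr1.derivWithin (by exact le_refl _)
    have hdf : HasDerivAt (deriv (deriv fun z => √(h z))) (deriv (deriv (deriv fun z => √(h z))) z) z :=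
      (hr2.differentiableAt (by simp)).hasDerivAt
    have hne3 : deriv (deriv (deriv fun z => √(h z))) z ≠ 0 := by
      intro h0
      rw [h0] at hdf
      exact hμs z ⟨hz1, hdf⟩ hf0
    have hRd : DifferentiableAt ℝ (fun y => -(√(h y) + μ * κ y) ^ 3) z := by
      have h1 : DifferentiableAt ℝ (fun y => √(h y)) z := hrs.differentiableAt (by simp)
      have h2 : DifferentiableAt ℝ κ z := (hκ.differentiable (by simp)) z
      exact ((h1.add (h2.const_mul μ)).pow 3).neg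
    have hprod := hRd.hasDerivAt.mul (hdf.add_const μ)
    have hev : W (pert h κ μ) =ᶠ[𝓝 z] fun y => -(√(h y) + μ * κ y) ^ 3 * (deriv (deriv fun z => √(h z)) y + μ) := by
      filter_upwards [Ioo_mem_nhds hz1.1 hz1.2] with y hy
      exact hform y hy
    rw [hev.deriv_eq]
    have hval : deriv (fun y => -(√(h y) + μ * κ y) ^ 3 * (deriv (deriv fun z => √(h z)) y + μ)) z =
        -(√(h z) + μ * κ z) ^ 3 * deriv (deriv (deriv fun z => √(h z))) z := by
      have h1 := hprod.deriv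
      have h2 : (deriv (fun y => -(√(h y) + μ * κ y) ^ 3) z) * (deriv (deriv fun z => √(h z)) z + μ) = 0 := by
        rw [hf0, mul_zero]
      have h3 : deriv (fun y => -(√(h y) + μ * κ y) ^ 3 * (deriv (deriv fun z => √(h z)) y + μ)) z =
          (deriv (fun y => -(√(h y) + μ * κ y) ^ 3) z) * (deriv (deriv fun z => √(h z)) z + μ) +
            -(√(h z) + μ * κ z) ^ 3 * deriv (deriv (deriv fun z => √(h z))) z := h1
      rw [h3, h2, zero_add]
    rw [hval]
    have h4 : 0 < (√(h z) + μ * κ z) ^ 3 := by positivity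
    exact mul_ne_zero (neg_ne_zero.2 h4.ne') hne3

end Pool.Agent.Lib.MP478c11.DB
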