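import Pool.Agent.Lib.MP_478c11_gt.DB.Many

/-! Module GLB of `DB/Many.lean`: the a priori estimate for large `n`. -/

set_option autoImplicit false

namespace Pool.Agent.Lib.MP478c11.DB

open Set Filter Topology MeasureTheory
open scoped ContDiff

noncomputable section

namespace GLBM

/-- uniform constants for finitely many indices -/
theorem unif {P : ℕ → ℝ → ℝ → ℕ → Prop}
    (mono : ∀ j C c B C' c' B', 0 < C → C ≤ C' → c' ≤ c → B ≤ B' → P j C c B → P j C' c' B') (k : ℕ)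
    (hk : ∀ j < k, ∃ (C c : ℝ) (B : ℕ), 0 < C ∧ 0 < c ∧ P j C c B) :
    ∃ (C c : ℝ) (B : ℕ), 0 < C ∧ 0 < c ∧ ∀ j < k, P j C c B := by
  induction k with
  | zero => exact ⟨1, 1, 0, one_pos, one_pos, fun j hj => absurd hj (Nat.not_lt_zero j)⟩
  | succ k ih =>
    obtain ⟨C, c, B, hC, hc, hP⟩ := ih (fun j hj => hk j (Nat.lt_succ_of_lt hj))
    obtain ⟨C₁, c₁, B₁, hC₁, hc₁, hP₁⟩ := hk k (Nat.lt_succ_self k)
    refine ⟨max C C₁, min c c₁, max B B₁, lt_of_lt_of_le hC (le_max_left _ _), lt_min hc hc₁, fun j hj => ?_⟩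
    rcases Nat.lt_succ_iff_lt_or_eq.1 hj with h | h
    · exact mono j C c B _ _ _ hC (le_max_left _ _) (min_le_left _ _) (le_max_left _ _) (hP j h)
    · subst h
      exact mono j C₁ c₁ B₁ _ _ _ hC₁ (le_max_right _ _) (min_le_right _ _) (le_max_right _ _) hP₁

theorem sys_mono {h : ℝ → ℝ} {n : ℕ} {F y v : ℝ → ℝ} {I J : Set ℝ} (hs : Sys h n F y v I) (hJ : J ⊆ I) :
    Sys h n F y v J := fun z hz => hs z (hJ hz)

/-- the estimate in a neck -/
def NK (h : ℝ → ℝ) (a b s t C c : ℝ) (B : ℕ) : Prop :=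
  ∀ n : ℕ, 2 ≤ n → ∀ (F y v : ℝ → ℝ) (R M : ℝ), Sys h n F y v (Ioo a b) →
    (∀ z ∈ Ioo a b, |F z| ≤ R ∧ |y z| ≤ M) → ∀ z ∈ Icc s t, |y z| ≤ C * (n : ℝ) ^ B * (R + Real.exp (-(c * n)) * M)

/-- the estimate between two necks -/
def BM (h : ℝ → ℝ) (a b s t C : ℝ) : Prop :=
  ∀ n : ℕ, 1 ≤ n → ∀ (F y v : ℝ → ℝ) (R : ℝ), Sys h n F y v (Ioo a b) →
    (∀ z ∈ Ioo a b, |F z| ≤ R) → ∀ z ∈ Icc s t, |y z| ≤ max |y s| |y t| + C * R

theorem nonneg {a b R : ℝ} {F : ℝ → ℝ} (hab : a < b) (hF : ∀ z ∈ Ioo a b, |F z| ≤ R) : 0 ≤ R :=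
  le_trans (abs_nonneg _) (hF ((a + b) / 2) ⟨by linarith, by linarith⟩)

theorem NK.mono {h : ℝ → ℝ} {a b s t C c : ℝ} {B : ℕ} {C' c' : ℝ} {B' : ℕ} (hab : a < b) (hC : 0 < C) (h1 : C ≤ C')
    (h2 : c' ≤ c) (h3 : B ≤ B') (hN : NK h a b s t C c B) : NK h a b s t C' c' B' := by
  intro n hn F y v R M hs hb z hz
  have hR : 0 ≤ R := nonneg hab (fun z hz => (hb z hz).1)
  have hM : 0 ≤ M := nonneg (F := y) hab (fun z hz => (hb z hz).2)
  have hn1 : (1 : ℝ) ≤ n := by exact_mod_cast (le_trans one_le_two hn)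
  refine le_trans (hN n hn F y v R M hs hb z hz) ?_
  have e1 : Real.exp (-(c * n)) ≤ Real.exp (-(c' * n)) := by
    refine Real.exp_le_exp.2 ?_
    have := mul_le_mul_of_nonneg_right h2 (le_trans zero_le_one hn1)
    linarith
  have e2 : R + Real.exp (-(c * n)) * M ≤ R + Real.exp (-(c' * n)) * M :=
    add_le_add le_rfl (mul_le_mul_of_nonneg_right e1 hM)
  have e3 : (n : ℝ) ^ B ≤ (n : ℝ) ^ B' := pow_le_pow_right₀ hn1 h3
  have e4 : C * (n : ℝ) ^ B ≤ C' * (n : ℝ) ^ B' :=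
    mul_le_mul h1 e3 (by positivity) (le_trans hC.le h1)
  exact mul_le_mul e4 e2 (add_nonneg hR (mul_nonneg (Real.exp_pos _).le hM))
    (mul_nonneg (le_trans hC.le h1) (by positivity))

theorem BM.mono {h : ℝ → ℝ} {a b s t C C' : ℝ} (hab : a < b) (h1 : C ≤ C') (hN : BM h a b s t C) :
    BM h a b s t C' := by
  intro n hn F y v R hs hb z hz
  have hR : 0 ≤ R := nonneg hab hb
  exact le_trans (hN n hn F y v R hs hb z hz) (add_le_add le_rfl (mul_le_mul_of_nonneg_right h1 hR))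

/-! ### The order of the necks -/

theorem p_mono {h : ℝ → ℝ} {a b : ℝ} {k : ℕ} {p q : ℕ → ℝ} (hm : Many h a b k p q) (i : ℕ) :
    ∀ j, i ≤ j → j < k → p i ≤ p j := by
  intro j hij
  induction j, hij using Nat.le_induction with
  | base => intro _; exact le_rfl
  | succ j _ ih =>
    intro hj
    have h1 := ih (by omega)
    have h2 := (hm.pq j (by omega)).2.1
    have h3 := hm.qp j hj
    linarith

theorem q_mono {h : ℝ → ℝ} {a b : ℝ} {k : ℕ} {p q : ℕ → ℝ} (hm : Many h a b k p q) (i : ℕ) :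
    ∀ j, i ≤ j → j < k → q i ≤ q j := by
  intro j hij
  induction j, hij using Nat.le_induction with
  | base => intro _; exact le_rfl
  | succ j _ ih =>
    intro hj
    have h1 := ih (by omega)
    have h2 := (hm.pq (j + 1) hj).2.1
    have h3 := hm.qp j hj
    linarith

theorem cover {h : ℝ → ℝ} {a b : ℝ} {k : ℕ} {p q : ℕ → ℝ} (_ : Many h a b k p q) (z : ℝ) :
    ∀ j, z ≤ q j → z ≤ p 0 ∨ (∃ i, i ≤ j ∧ z ∈ Icc (p i) (q i)) ∨
      ∃ i, i + 1 ≤ j ∧ z ∈ Icc (q i) (p (i + 1)) := by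
  intro j
  induction j with
  | zero =>
    intro hz
    rcases le_total z (p 0) with h1 | h1
    · exact Or.inl h1
    · exact Or.inr (Or.inl ⟨0, le_rfl, h1, hz⟩)
  | succ j ih =>
    intro hz
    rcases le_total z (q j) with h1 | h1
    · rcases ih h1 with h2 | ⟨i, hi, h2⟩ | ⟨i, hi, h2⟩
      · exact Or.inl h2
      · exact Or.inr (Or.inl ⟨i, by omega, h2⟩)
      · exact Or.inr (Or.inr ⟨i, by omega, h2⟩)
    · rcases le_total z (p (j + 1)) with h2 | h2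
      · exact Or.inr (Or.inr ⟨j, le_rfl, h1, h2⟩)
      · exact Or.inr (Or.inl ⟨j + 1, le_rfl, h2, hz⟩)

/-! ### The local estimates -/

theorem neck (hLNK : SpecLNK) {h : ℝ → ℝ} {a b : ℝ} {k : ℕ} {p q : ℕ → ℝ} (hm : Many h a b k p q)
    (j : ℕ) (hj : j < k) (hg : GoodNeck h (p j) (q j)) :
    ∃ (C c : ℝ) (B : ℕ), 0 < C ∧ 0 < c ∧ NK h a b (p j) (q j) C c B := by
  obtain ⟨h', a', b', η₀, hη₀, hD, h1, h2, h3, h4⟩ := hg
  obtain ⟨g1, g2, g3⟩ := hm.pq j hj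
  obtain ⟨η, hη, hη1, hη2, hη3⟩ : ∃ η : ℝ, 0 < η ∧ η ≤ η₀ ∧ a < p j - η ∧ q j + η < b := by
    refine ⟨min η₀ (min ((p j - a) / 2) ((b - q j) / 2)), ?_, min_le_left _ _, ?_, ?_⟩
    · exact lt_min hη₀ (lt_min (by linarith) (by linarith))
    · have := le_trans (min_le_right η₀ _) (min_le_left ((p j - a) / 2) ((b - q j) / 2))
      linarith
    · have := le_trans (min_le_right η₀ _) (min_le_right ((p j - a) / 2) ((b - q j) / 2))
      linarith
  obtain ⟨C, c, B, hC, hc, hN⟩ := hLNK h h' a' (p j) (q j) b' η hm.sph.smooth hD h4 hη (by linarith) (by linarith)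
    (fun z hz => h3 z ⟨by linarith [hz.1], by linarith [hz.2]⟩)
  refine ⟨C, c, B, hC, hc, ?_⟩
  intro n hn F y v R M hs hb z hz
  have hsub : Icc (p j - η) (q j + η) ⊆ Ioo a b := fun z hz => ⟨by linarith [hz.1], by linarith [hz.2]⟩
  exact hN n hn F y v R M (sys_mono hs hsub) (fun z hz => hb z (hsub hz)) z hz

theorem betw (hBUM : SpecBUM) {h : ℝ → ℝ} {a b : ℝ} {k : ℕ} {p q : ℕ → ℝ} (hm : Many h a b k p q)
    (j : ℕ) (hj : j + 1 < k) : ∃ C : ℝ, 0 < C ∧ BM h a b (q j) (p (j + 1)) C := by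
  obtain ⟨g1, g2, g3⟩ := hm.pq j (by omega)
  obtain ⟨g4, g5, g6⟩ := hm.pq (j + 1) hj
  have hsub : Icc (q j) (p (j + 1)) ⊆ Ioo a b := fun z hz => ⟨by linarith [hz.1], by linarith [hz.2]⟩
  obtain ⟨C, hC, hB⟩ := hBUM h (q j) (p (j + 1)) hm.sph.smooth (hm.qp j hj)
    (fun z hz => hm.sph.pos z (hsub hz).1 (hsub hz).2) (fun z hz => by
      refine hm.posW z ⟨(hsub ⟨hz.1.le, hz.2.le⟩).1.le, (hsub ⟨hz.1.le, hz.2.le⟩).2.le⟩ (fun i hi hzi => ?_)
      rcases Nat.lt_or_ge j i with h1 | h1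
      · have h2 := p_mono hm (j + 1) i h1 hi
        linarith [hz.2, hzi.1]
      · have h2 := q_mono hm i j h1 (by omega)
        linarith [hz.1, hzi.2])
  refine ⟨C, hC, ?_⟩
  intro n hn F y v R hs hb z hz
  exact hB n hn F y v R (sys_mono hs hsub) (fun z hz => hb z (hsub hz)) z hz

theorem expo {C c : ℝ} (hC : 0 < C) (hc : 0 < c) (B : ℕ) : ∃ n₂ : ℕ, 2 ≤ n₂ ∧ ∀ n : ℕ, n₂ ≤ n →
    C * (n : ℝ) ^ B * Real.exp (-(c * n)) ≤ 1 / 2 := by
  have h1 := Real.tendsto_pow_mul_exp_neg_atTop_nhds_zero B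
  have h2 : Tendsto (fun n : ℕ => c * (n : ℝ)) atTop atTop :=
    tendsto_natCast_atTop_atTop.const_mul_atTop hc
  have h3 := h1.comp h2
  have h4 : (0 : ℝ) < c ^ B / (2 * C) := by positivity
  obtain ⟨N, hN⟩ := Filter.eventually_atTop.1 (h3.eventually (gt_mem_nhds h4))
  refine ⟨max N 2, le_max_right _ _, fun n hn => ?_⟩
  have h5 := hN n (le_trans (le_max_left _ _) hn)
  have h6 : (c * (n : ℝ)) ^ B * Real.exp (-(c * (n : ℝ))) < c ^ B / (2 * C) := h5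
  rw [mul_pow, lt_div_iff₀ (by positivity)] at h6
  have h7 : (0 : ℝ) < c ^ B := by positivity
  have h8 : c ^ B * (C * (n : ℝ) ^ B * Real.exp (-(c * n)) * 2) < c ^ B * 1 := by
    calc c ^ B * (C * (n : ℝ) ^ B * Real.exp (-(c * n)) * 2)
        = c ^ B * (n : ℝ) ^ B * Real.exp (-(c * (n : ℝ))) * (2 * C) := by ring
      _ < c ^ B := h6
      _ = c ^ B * 1 := by ring
  have h9 := lt_of_mul_lt_mul_left h8 h7.le
  linarith

end GLBM

theorem specGLB (hCPM : SpecCPM) (hLNK : SpecLNK) (hBUM : SpecBUM) : SpecGLB := by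
  intro h a b k p q hm hk hg
  have hab := hm.sph.ab
  obtain ⟨C, c, B, hC, hc, hN⟩ := GLBM.unif (P := fun j C c B => GLBM.NK h a b (p j) (q j) C c B)
    (fun j C c B C' c' B' h1 h2 h3 h4 h5 => GLBM.NK.mono hab h1 h2 h3 h4 h5) k
    (fun j hj => GLBM.neck hLNK hm j hj (hg j hj))
  obtain ⟨C₁, _, _, hC₁, _, hB⟩ := GLBM.unif (P := fun j C _ _ => j + 1 < k → GLBM.BM h a b (q j) (p (j + 1)) C)
    (fun j C c B C' c' B' h1 h2 h3 h4 h5 h6 => GLBM.BM.mono hab h2 (h5 h6)) k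
    (fun j _ => by
      by_cases hj : j + 1 < k
      · obtain ⟨C, hC, h1⟩ := GLBM.betw hBUM hm j hj
        exact ⟨C, 1, 0, hC, one_pos, fun _ => h1⟩
      · exact ⟨1, 1, 0, one_pos, one_pos, fun h => absurd h hj⟩)
  obtain ⟨C₂, hC₂, hcap⟩ := hCPM h a b k p q hm hk
  obtain ⟨n₂, hn₂, hexp⟩ := GLBM.expo hC hc B
  refine ⟨n₂, 2 * (C + C₁ + C₂), B, by positivity, hn₂, ?_⟩
  intro n hn F y v R M hs hb z hz
  have hn2 : 2 ≤ n := le_trans hn₂ hn
  have hn1 : (1 : ℝ) ≤ n := by exact_mod_cast (le_trans one_le_two hn2)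
  have hR : 0 ≤ R := GLBM.nonneg hab (fun z hz => (hb z hz).1)
  obtain ⟨S, hS⟩ : ∃ S : ℝ, S = sSup ((fun z => |y z|) '' Ioo a b) := ⟨_, rfl⟩
  have hbdd : BddAbove ((fun z => |y z|) '' Ioo a b) := by
    refine ⟨M, ?_⟩
    rintro _ ⟨w, hw, rfl⟩
    exact (hb w hw).2
  have hyS : ∀ z ∈ Ioo a b, |y z| ≤ S := fun w hw => by
    rw [hS]
    exact le_csSup hbdd ⟨w, hw, rfl⟩
  have hS0 : 0 ≤ S := GLBM.nonneg (F := y) hab hyS
  have hnB : (1 : ℝ) ≤ (n : ℝ) ^ B := one_le_pow₀ hn1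
  -- the bound on the necks
  have hneck : ∀ j < k, ∀ w ∈ Icc (p j) (q j), |y w| ≤ C * (n : ℝ) ^ B * R + S / 2 := fun j hj w hw => by
    have h1 := hN j hj n hn2 F y v R S hs (fun z hz => ⟨(hb z hz).1, hyS z hz⟩) w hw
    have h2 := mul_le_mul_of_nonneg_right (hexp n hn) hS0
    calc |y w| ≤ C * (n : ℝ) ^ B * (R + Real.exp (-(c * n)) * S) := h1
      _ = C * (n : ℝ) ^ B * R + C * (n : ℝ) ^ B * Real.exp (-(c * n)) * S := by ring
      _ ≤ C * (n : ℝ) ^ B * R + S / 2 := by linarith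
  have hall : ∀ w ∈ Ioo a b, |y w| ≤ C * (n : ℝ) ^ B * R + S / 2 + (C₁ + C₂) * R := fun w hw => by
    obtain ⟨⟨Y, V, _, _, hY1, hYb⟩, ⟨Z, U, _, _, hZ1, hZb⟩⟩ := hcap n (le_trans one_le_two hn2)
    obtain ⟨g1, g2, g3⟩ := hm.pq 0 (by omega)
    obtain ⟨g4, g5, g6⟩ := hm.pq (k - 1) (by omega)
    have e1 : 0 ≤ C₁ * R := mul_nonneg hC₁.le hR
    have e2 : 0 ≤ C₂ * R := mul_nonneg hC₂.le hR
    rcases le_total w (q (k - 1)) with h1 | h1
    · rcases GLBM.cover hm w (k - 1) h1 with h2 | ⟨i, hi, h2⟩ | ⟨i, hi, h2⟩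
      · have hsub : Ioc a (p 0) ⊆ Ioo a b := fun z hz => ⟨hz.1, by linarith [hz.2]⟩
        have h3 := (hYb F y v R M (GLBM.sys_mono hs hsub) hR (fun z hz => hb z (hsub hz))).1 w ⟨hw.1, h2⟩
        have h4 := hneck 0 (by omega) (p 0) ⟨le_rfl, g2.le⟩
        have h5 : |y (p 0) * Y w| ≤ |y (p 0)| := by
          rw [abs_mul]
          exact mul_le_of_le_one_right (abs_nonneg _) (hY1 w ⟨hw.1, h2⟩)
        have h6 : |y w| ≤ |y w - y (p 0) * Y w| + |y (p 0) * Y w| := by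
          have := abs_add_le (y w - y (p 0) * Y w) (y (p 0) * Y w)
          rwa [sub_add_cancel] at this
        linarith
      · have h3 := hneck i (by omega) w h2
        linarith
      · have h3 := hB i (by omega) (by omega) n (le_trans one_le_two hn2) F y v R hs (fun z hz => (hb z hz).1) w h2
        have h4 := hneck i (by omega) (q i) ⟨(hm.pq i (by omega)).2.1.le, le_rfl⟩
        have h5 := hneck (i + 1) (by omega) (p (i + 1)) ⟨le_rfl, (hm.pq (i + 1) (by omega)).2.1.le⟩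
        have h6 := max_le h4 h5
        linarith
    · have hsub : Ico (q (k - 1)) b ⊆ Ioo a b := fun z hz => ⟨by linarith [hz.1], hz.2⟩
      have h3 := (hZb F y v R M (GLBM.sys_mono hs hsub) hR (fun z hz => hb z (hsub hz))).1 w ⟨h1, hw.2⟩
      have h4 := hneck (k - 1) (by omega) (q (k - 1)) ⟨g5.le, le_rfl⟩
      have h5 : |y (q (k - 1)) * Z w| ≤ |y (q (k - 1))| := by
        rw [abs_mul]
        exact mul_le_of_le_one_right (abs_nonneg _) (hZ1 w ⟨h1, hw.2⟩)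
      have h6 : |y w| ≤ |y w - y (q (k - 1)) * Z w| + |y (q (k - 1)) * Z w| := by
        have := abs_add_le (y w - y (q (k - 1)) * Z w) (y (q (k - 1)) * Z w)
        rwa [sub_add_cancel] at this
      linarith
  have hSle : S ≤ C * (n : ℝ) ^ B * R + S / 2 + (C₁ + C₂) * R := by
    rw [hS]
    refine csSup_le ⟨_, (a + b) / 2, ⟨by linarith, by linarith⟩, rfl⟩ ?_
    rintro _ ⟨w, hw, rfl⟩
    have := hall w hw
    rw [hS] at this
    exact this
  have h1 : (C₁ + C₂) * R ≤ (C₁ + C₂) * (n : ℝ) ^ B * R := by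
    have h2 : (C₁ + C₂) * 1 ≤ (C₁ + C₂) * (n : ℝ) ^ B := mul_le_mul_of_nonneg_left hnB (by positivity)
    rw [mul_one] at h2
    exact mul_le_mul_of_nonneg_right h2 hR
  calc |y z| ≤ S := hyS z hz
    _ ≤ 2 * (C * (n : ℝ) ^ B * R + (C₁ + C₂) * (n : ℝ) ^ B * R) := by linarith
    _ = 2 * (C + C₁ + C₂) * (n : ℝ) ^ B * R := by ring

end

end Pool.Agent.Lib.MP478c11.DB
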