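import Pool.Agent.Lib.MP_478c11_gt.DB.Spec

/-!
# MP_478c11_gt, DB, module LIN: linear systems have solutions on the whole interval

Weighted contraction on the bounded continuous functions on the interval.
-/

set_option autoImplicit false

namespace Pool.Agent.Lib.MP478c11.DB

open Set Filter Topology MeasureTheory
open scoped ContDiff BoundedContinuousFunction

noncomputable section

namespace LINM

theorem hasDerivAt_prim {E : Type*} [NormedAddCommGroup E] [NormedSpace ℝ E] [CompleteSpace E]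
    {a b c : ℝ} (hc : c ∈ Ioo a b) {F : ℝ → E} (hF : ContinuousOn F (Ioo a b)) {t : ℝ}
    (ht : t ∈ Ioo a b) : HasDerivAt (fun t => ∫ s in c..t, F s) (F t) t := by
  have hsub : uIcc c t ⊆ Ioo a b := ordConnected_Ioo.uIcc_subset hc ht
  exact intervalIntegral.integral_hasDerivAt_right ((hF.mono hsub).intervalIntegrable)
    (hF.stronglyMeasurableAtFilter isOpen_Ioo t ht) (hF.continuousAt (isOpen_Ioo.mem_nhds ht))

/-- the field -/
def G (p r : ℝ → ℝ) (t : ℝ) (x : ℝ × ℝ) : ℝ × ℝ := (p t * x.2, r t * x.1)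

theorem G_norm (p r : ℝ → ℝ) (t : ℝ) (x : ℝ × ℝ) : ‖G p r t x‖ ≤ (|p t| + |r t|) * ‖x‖ := by
  have h1 : |x.2| ≤ ‖x‖ := norm_snd_le x
  have h2 : |x.1| ≤ ‖x‖ := norm_fst_le x
  have h3 := abs_nonneg (p t)
  have h4 := abs_nonneg (r t)
  have h5 := norm_nonneg x
  rw [Prod.norm_def]
  apply max_le
  · show ‖p t * x.2‖ ≤ _
    rw [Real.norm_eq_abs, abs_mul]
    nlinarith
  · show ‖r t * x.1‖ ≤ _
    rw [Real.norm_eq_abs, abs_mul]
    nlinarith

theorem G_sub (p r : ℝ → ℝ) (t : ℝ) (x x' : ℝ × ℝ) :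
    G p r t x - G p r t x' = G p r t (x - x') := by
  unfold G
  ext
  · show p t * x.2 - p t * x'.2 = p t * (x.2 - x'.2)
    ring
  · show r t * x.1 - r t * x'.1 = r t * (x.1 - x'.1)
    ring

theorem G_cont {I : Set ℝ} {p r : ℝ → ℝ} (hp : ContinuousOn p I) (hr : ContinuousOn r I)
    {f : ℝ → ℝ × ℝ} (hf : ContinuousOn f I) : ContinuousOn (fun t => G p r t (f t)) I :=
  (hp.mul hf.snd).prodMk (hr.mul hf.fst)

/-- extension by zero -/
def ex (a b : ℝ) (z : Ioo a b →ᵇ ℝ × ℝ) (t : ℝ) : ℝ × ℝ :=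
  open Classical in if h : t ∈ Ioo a b then z ⟨t, h⟩ else 0

theorem ex_of {a b : ℝ} (z : Ioo a b →ᵇ ℝ × ℝ) {t : ℝ} (h : t ∈ Ioo a b) :
    ex a b z t = z ⟨t, h⟩ := by
  unfold ex
  rw [dif_pos h]

theorem ex_cont {a b : ℝ} (z : Ioo a b →ᵇ ℝ × ℝ) : ContinuousOn (ex a b z) (Ioo a b) := by
  rw [continuousOn_iff_continuous_domRestrict]
  have h : (Ioo a b).domRestrict (ex a b z) = z := by
    funext t
    exact ex_of z t.2
  rw [h]
  exact z.continuous

/-- the weight -/
def om (p r : ℝ → ℝ) (c t : ℝ) : ℝ := 2 * Real.cosh (2 * ∫ s in c..t, (|p s| + |r s|))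

theorem two_le_om (p r : ℝ → ℝ) (c t : ℝ) : 2 ≤ om p r c t := by
  unfold om
  have := Real.one_le_cosh (2 * ∫ s in c..t, (|p s| + |r s|))
  linarith

section

variable {a b c : ℝ} {p r : ℝ → ℝ}

theorem m_cont (hp : ContinuousOn p (Ioo a b)) (hr : ContinuousOn r (Ioo a b)) :
    ContinuousOn (fun s => |p s| + |r s|) (Ioo a b) := hp.abs.add hr.abs

theorem om_cont (hc : c ∈ Ioo a b) (hp : ContinuousOn p (Ioo a b))
    (hr : ContinuousOn r (Ioo a b)) : ContinuousOn (om p r c) (Ioo a b) := by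
  have h1 : ContinuousOn (fun t => ∫ s in c..t, (|p s| + |r s|)) (Ioo a b) := fun t ht =>
    (hasDerivAt_prim hc (m_cont hp hr) ht).continuousAt.continuousWithinAt
  exact (Real.continuous_cosh.comp_continuousOn (h1.const_mul 2)).const_mul 2

theorem int_om (hc : c ∈ Ioo a b) (hp : ContinuousOn p (Ioo a b))
    (hr : ContinuousOn r (Ioo a b)) {t : ℝ} (ht : t ∈ Ioo a b) :
    |∫ s in c..t, (|p s| + |r s|) * om p r c s| ≤ om p r c t / 2 := by
  have hsub : uIcc c t ⊆ Ioo a b := ordConnected_Ioo.uIcc_subset hc ht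
  have h1 : ∀ s ∈ uIcc c t, HasDerivAt (fun t => Real.sinh (2 * ∫ s in c..t, (|p s| + |r s|)))
      ((|p s| + |r s|) * om p r c s) s := by
    intro s hs
    have h2 := ((hasDerivAt_prim hc (m_cont hp hr) (hsub hs)).const_mul 2).sinh
    refine h2.congr_deriv ?_
    unfold om
    ring
  rw [intervalIntegral.integral_eq_sub_of_hasDerivAt h1
    ((((m_cont hp hr).mul (om_cont hc hp hr)).mono hsub).intervalIntegrable)]
  rw [intervalIntegral.integral_same, mul_zero, Real.sinh_zero, sub_zero]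
  unfold om
  rw [mul_div_cancel_left₀ _ (two_ne_zero)]
  obtain ⟨X, hX⟩ : ∃ X : ℝ, X = 2 * ∫ s in c..t, (|p s| + |r s|) := ⟨_, rfl⟩
  rw [← hX, abs_le]
  have h3 := Real.sinh_lt_cosh X
  have h4 := Real.sinh_lt_cosh (-X)
  rw [Real.sinh_neg, Real.cosh_neg] at h4
  constructor <;> linarith

/-- the integral -/
def J (a b : ℝ) (p r : ℝ → ℝ) (c : ℝ) (z : Ioo a b →ᵇ ℝ × ℝ) (t : ℝ) : ℝ × ℝ :=
  ∫ s in c..t, G p r s (om p r c s • ex a b z s)

theorem J_cont (hc : c ∈ Ioo a b) (hp : ContinuousOn p (Ioo a b))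
    (hr : ContinuousOn r (Ioo a b)) (z : Ioo a b →ᵇ ℝ × ℝ) :
    ContinuousOn (fun s => G p r s (om p r c s • ex a b z s)) (Ioo a b) :=
  G_cont hp hr ((om_cont hc hp hr).smul (ex_cont z))

theorem J_deriv (hc : c ∈ Ioo a b) (hp : ContinuousOn p (Ioo a b))
    (hr : ContinuousOn r (Ioo a b)) (z : Ioo a b →ᵇ ℝ × ℝ) {t : ℝ} (ht : t ∈ Ioo a b) :
    HasDerivAt (J a b p r c z) (G p r t (om p r c t • ex a b z t)) t :=
  hasDerivAt_prim hc (J_cont hc hp hr z) ht

theorem J_dist (hc : c ∈ Ioo a b) (hp : ContinuousOn p (Ioo a b))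
    (hr : ContinuousOn r (Ioo a b)) (z z' : Ioo a b →ᵇ ℝ × ℝ) {t : ℝ} (ht : t ∈ Ioo a b) :
    ‖J a b p r c z t - J a b p r c z' t‖ ≤ om p r c t / 2 * dist z z' := by
  have hsub : uIcc c t ⊆ Ioo a b := ordConnected_Ioo.uIcc_subset hc ht
  unfold J
  rw [← intervalIntegral.integral_sub
    (((J_cont hc hp hr z).mono hsub).intervalIntegrable)
    (((J_cont hc hp hr z').mono hsub).intervalIntegrable)]
  have h1 : ‖∫ s in c..t, (G p r s (om p r c s • ex a b z s) -
      G p r s (om p r c s • ex a b z' s))‖ ≤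
      |∫ s in c..t, ((|p s| + |r s|) * om p r c s) * dist z z'| := by
    apply intervalIntegral.norm_integral_le_abs_of_norm_le
    · refine Eventually.of_forall fun s => ?_
      by_cases hs : s ∈ Ioo a b
      · rw [G_sub, ← smul_sub, ex_of z hs, ex_of z' hs]
        refine (G_norm p r s _).trans ?_
        have hom : |om p r c s| = om p r c s := abs_of_nonneg (by linarith [two_le_om p r c s])
        rw [norm_smul, Real.norm_eq_abs, hom, ← mul_assoc]
        have h2 : ‖z ⟨s, hs⟩ - z' ⟨s, hs⟩‖ ≤ dist z z' := by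
          rw [← dist_eq_norm]
          exact BoundedContinuousFunction.dist_coe_le_dist _
        have h3 : 0 ≤ (|p s| + |r s|) * om p r c s :=
          mul_nonneg (by positivity) (by linarith [two_le_om p r c s])
        exact mul_le_mul_of_nonneg_left h2 h3
      · unfold ex
        rw [dif_neg hs, dif_neg hs, sub_self, norm_zero]
        have h3 : 0 ≤ (|p s| + |r s|) * om p r c s :=
          mul_nonneg (by positivity) (by linarith [two_le_om p r c s])
        exact mul_nonneg h3 dist_nonneg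
    · exact ((((m_cont hp hr).mul (om_cont hc hp hr)).mul continuousOn_const).mono
        hsub).intervalIntegrable
  refine h1.trans ?_
  rw [intervalIntegral.integral_mul_const, abs_mul, abs_of_nonneg (dist_nonneg : 0 ≤ dist z z')]
  exact mul_le_mul_of_nonneg_right (int_om hc hp hr ht) dist_nonneg

theorem J_zero (t : ℝ) : J a b p r c 0 t = 0 := by
  unfold J
  have h : ∀ s, G p r s (om p r c s • ex a b 0 s) = 0 := by
    intro s
    have h1 : ex a b (0 : Ioo a b →ᵇ ℝ × ℝ) s = 0 := by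
      unfold ex
      split_ifs <;> rfl
    rw [h1, smul_zero]
    unfold G
    simp
  simp only [h, intervalIntegral.integral_zero]

theorem exists_fix (hc : c ∈ Ioo a b) (hp : ContinuousOn p (Ioo a b))
    (hr : ContinuousOn r (Ioo a b)) (x0 : ℝ × ℝ) :
    ∃ z : Ioo a b →ᵇ ℝ × ℝ, ∀ t ∈ Ioo a b, om p r c t • ex a b z t = x0 + J a b p r c z t := by
  have hJc : ∀ z : Ioo a b →ᵇ ℝ × ℝ, ContinuousOn (J a b p r c z) (Ioo a b) := fun z t ht =>
    (J_deriv hc hp hr z ht).continuousAt.continuousWithinAt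
  have hpos : ∀ t, 0 < om p r c t := fun t => by linarith [two_le_om p r c t]
  have hTc : ∀ z : Ioo a b →ᵇ ℝ × ℝ, ContinuousOn
      (fun t => (om p r c t)⁻¹ • (x0 + J a b p r c z t)) (Ioo a b) := fun z =>
    ((om_cont hc hp hr).inv₀ fun t _ => (hpos t).ne').smul (continuousOn_const.add (hJc z))
  have hTb : ∀ (z : Ioo a b →ᵇ ℝ × ℝ) (t : Ioo a b),
      ‖(om p r c t)⁻¹ • (x0 + J a b p r c z t)‖ ≤ ‖x0‖ + dist z 0 := by
    intro z t
    rw [norm_smul, norm_inv, Real.norm_eq_abs, abs_of_pos (hpos t)]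
    have h1 := J_dist hc hp hr z 0 t.2
    rw [J_zero, sub_zero] at h1
    have h2 : ‖x0 + J a b p r c z t‖ ≤ ‖x0‖ + om p r c t / 2 * dist z 0 :=
      (norm_add_le _ _).trans (by linarith)
    have h3 := two_le_om p r c t
    rw [inv_mul_le_iff₀ (hpos t)]
    have h4 : 0 ≤ dist z 0 := dist_nonneg
    have h5 := norm_nonneg x0
    nlinarith
  let T : (Ioo a b →ᵇ ℝ × ℝ) → (Ioo a b →ᵇ ℝ × ℝ) := fun z =>
    BoundedContinuousFunction.ofNormedAddCommGroup
      (fun t : Ioo a b => (om p r c t)⁻¹ • (x0 + J a b p r c z t))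
      (continuousOn_iff_continuous_domRestrict.1 (hTc z)) (‖x0‖ + dist z 0) (hTb z)
  have hT : ∀ z (t : Ioo a b), T z t = (om p r c t)⁻¹ • (x0 + J a b p r c z t) := fun z t => rfl
  have hcon : ContractingWith (1 / 2) T := by
    refine ⟨by norm_num, LipschitzWith.of_dist_le_mul fun z z' => ?_⟩
    rw [BoundedContinuousFunction.dist_le (by positivity)]
    intro t
    rw [hT, hT, dist_eq_norm, ← smul_sub, add_sub_add_left_eq_sub, norm_smul, norm_inv,
      Real.norm_eq_abs, abs_of_pos (hpos t), inv_mul_le_iff₀ (hpos t)]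
    refine (J_dist hc hp hr z z' t.2).trans (le_of_eq ?_)
    push_cast
    ring
  refine ⟨hcon.fixedPoint T, fun t ht => ?_⟩
  have h1 : T (hcon.fixedPoint T) = hcon.fixedPoint T := hcon.fixedPoint_isFixedPt
  have h2 := hT (hcon.fixedPoint T) ⟨t, ht⟩
  rw [h1] at h2
  rw [ex_of _ ht, h2, smul_smul, mul_inv_cancel₀ (hpos t).ne', one_smul]

theorem exists_sol (hc : c ∈ Ioo a b) (hp : ContinuousOn p (Ioo a b))
    (hr : ContinuousOn r (Ioo a b)) (y₀ v₀ : ℝ) :
    ∃ y v : ℝ → ℝ, (∀ t ∈ Ioo a b, HasDerivAt y (p t * v t) t ∧ HasDerivAt v (r t * y t) t) ∧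
      y c = y₀ ∧ v c = v₀ := by
  obtain ⟨z, hz⟩ := exists_fix hc hp hr (y₀, v₀)
  refine ⟨fun t => y₀ + (J a b p r c z t).1, fun t => v₀ + (J a b p r c z t).2, ?_, ?_, ?_⟩
  · intro t ht
    have h1 := J_deriv hc hp hr z ht
    rw [hz t ht] at h1
    exact ⟨h1.fst.const_add y₀, h1.snd.const_add v₀⟩
  · show y₀ + (J a b p r c z c).1 = y₀
    unfold J
    rw [intervalIntegral.integral_same]
    exact add_zero y₀
  · show v₀ + (J a b p r c z c).2 = v₀
    unfold J
    rw [intervalIntegral.integral_same]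
    exact add_zero v₀

end

end LINM

theorem specLIN : SpecLIN := by
  intro h a p q b hD n c hc y₀ v₀
  have h1 : ContinuousOn (fun z => (h z)⁻¹) (Ioo a b) :=
    hD.smooth.continuous.continuousOn.inv₀ fun z hz => (hD.pos z hz.1 hz.2).ne'
  have hd1 : ContDiff ℝ ∞ (deriv h) := (contDiff_infty_iff_deriv.1 hD.smooth).2
  have hd2 : ContDiff ℝ ∞ (deriv (deriv h)) := (contDiff_infty_iff_deriv.1 hd1).2
  have hW : Continuous (W h) := by
    unfold W
    exact ((hd1.continuous.pow 2).div_const 4).sub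
      ((hD.smooth.continuous.mul hd2.continuous).div_const 2)
  have h2 : ContinuousOn (fun z => (n : ℝ) ^ 2 * W h z * (h z)⁻¹) (Ioo a b) :=
    (continuous_const.mul hW).continuousOn.mul h1
  obtain ⟨y, v, hyv, hy, hv⟩ := LINM.exists_sol hc h1 h2 y₀ v₀
  refine ⟨y, v, fun z hz => ?_, hy, hv⟩
  obtain ⟨h3, h4⟩ := hyv z hz
  refine ⟨h3.congr_deriv (by rw [div_eq_mul_inv, mul_comm]), h4.congr_deriv ?_⟩
  unfold O
  rw [add_zero, div_eq_mul_inv]
  ring

end

end Pool.Agent.Lib.MP478c11.DB
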