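import Pool.Agent.Lib.MP_478c11_gt.DB.Many
import Pool.Agent.Lib.MP_478c11_gt.DB.LIN

/-!
# MP_478c11_gt, DB, module LIS: linear systems on a sphere have solutions on the whole interval
-/

set_option autoImplicit false

namespace Pool.Agent.Lib.MP478c11.DB

open Set Filter Topology MeasureTheory
open scoped ContDiff

noncomputable section

theorem specLIS : SpecLIS := by
  intro h a b hD n c hc y₀ v₀
  have h1 : ContinuousOn (fun z => (h z)⁻¹) (Ioo a b) :=
    hD.smooth.continuous.continuousOn.inv₀ fun z hz => (hD.pos z hz.1 hz.2).ne'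
  have hd1 : ContDiff ℝ ∞ (deriv h) := (contDiff_infty_iff_deriv.1 hD.smooth).2
  have hd2 : ContDiff ℝ ∞ (deriv (deriv h)) := (contDiff_infty_iff_deriv.1 hd1).2
  have hW : Continuous (W h) := by
    unfold W
    exact ((hd1.continuous.pow 2).div_const 4).sub
      ((hD.smooth.continuous.mul hd2.continuous).div_const 2)
  have h2 : ContinuousOn (fun z => (n : ℝ) ^ 2 * W h z * (h z)⁻¹) (Ioo a b) :=
    (continuous_const.mul hW).continuousOn.mul h1
  obtain ⟨y, v, hyv, hy, hv⟩ := LINM.exists_sol hc h1 h2 y₀ v₀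
  refine ⟨y, v, fun z hz => ?_, hy, hv⟩
  obtain ⟨h3, h4⟩ := hyv z hz
  refine ⟨h3.congr_deriv (by rw [div_eq_mul_inv, mul_comm]), h4.congr_deriv ?_⟩
  unfold O
  rw [add_zero, div_eq_mul_inv]
  ring

end

end Pool.Agent.Lib.MP478c11.DB
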