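import Pool.Agent.Lib.MP_478c11_gt.DB.Many

/-!
# Unbendable spheres of revolution (MP_478c11_gt), module LNK: the estimate near a neck
-/

set_option autoImplicit false

namespace Pool.Agent.Lib.MP478c11.DB

open Set Filter Topology MeasureTheory
open scoped ContDiff

noncomputable section

namespace LNKM

/-- The cutoff. -/
def chi (p q η : ℝ) (z : ℝ) : ℝ :=
  Real.smoothTransition ((z - (p - 11 * η / 18)) / (2 * η / 9)) *
    Real.smoothTransition (((q + 11 * η / 18) - z) / (2 * η / 9))

theorem chi_smooth (p q η : ℝ) : ContDiff ℝ ∞ (chi p q η) := by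
  unfold chi
  apply ContDiff.mul
  · exact Real.smoothTransition.contDiff.comp ((contDiff_id.sub contDiff_const).div_const _)
  · exact Real.smoothTransition.contDiff.comp ((contDiff_const.sub contDiff_id).div_const _)

theorem chi_one {p q η : ℝ} (hη : 0 < η) {z : ℝ} (h1 : p - 7 * η / 18 ≤ z)
    (h2 : z ≤ q + 7 * η / 18) : chi p q η z = 1 := by
  unfold chi
  have h3 : (0 : ℝ) < 2 * η / 9 := by positivity
  rw [Real.smoothTransition.one_of_one_le, Real.smoothTransition.one_of_one_le, mul_one]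
  · rw [one_le_div h3]
    linarith
  · rw [one_le_div h3]
    linarith

theorem chi_zero {p q η : ℝ} (hη : 0 < η) {z : ℝ}
    (h1 : z < p - 11 * η / 18 ∨ q + 11 * η / 18 < z) : chi p q η z = 0 := by
  unfold chi
  have h3 : (0 : ℝ) < 2 * η / 9 := by positivity
  rcases h1 with h1 | h1
  · rw [Real.smoothTransition.zero_of_nonpos, zero_mul]
    exact div_nonpos_of_nonpos_of_nonneg (by linarith) h3.le
  · rw [Real.smoothTransition.zero_of_nonpos (x := ((q + 11 * η / 18) - z) / (2 * η / 9)), mul_zero]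
    exact div_nonpos_of_nonpos_of_nonneg (by linarith) h3.le

theorem chi_bd (p q η z : ℝ) : |chi p q η z| ≤ 1 := by
  unfold chi
  rw [abs_of_nonneg (mul_nonneg (Real.smoothTransition.nonneg _) (Real.smoothTransition.nonneg _))]
  exact mul_le_one₀ (Real.smoothTransition.le_one _) (Real.smoothTransition.nonneg _)
    (Real.smoothTransition.le_one _)

theorem dconst {f : ℝ → ℝ} {z c : ℝ} {U : Set ℝ} (hU : IsOpen U) (hz : z ∈ U)
    (h : ∀ w ∈ U, f w = c) : deriv f z = 0 ∧ deriv (deriv f) z = 0 := by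
  have h1 : ∀ w ∈ U, deriv f w = 0 := by
    intro w hw
    have h2 : f =ᶠ[𝓝 w] fun _ => c := by
      filter_upwards [hU.mem_nhds hw] with x hx
      exact h x hx
    rw [h2.deriv_eq, deriv_const]
  refine ⟨h1 z hz, ?_⟩
  have h2 : deriv f =ᶠ[𝓝 z] fun _ => (0 : ℝ) := by
    filter_upwards [hU.mem_nhds hz] with x hx
    exact h1 x hx
  rw [h2.deriv_eq, deriv_const]

theorem W_congr {h h' : ℝ → ℝ} {z : ℝ} (he : h' =ᶠ[𝓝 z] h) : W h' z = W h z := by
  unfold W
  rw [he.deriv_eq, he.deriv.deriv_eq, he.eq_of_nhds]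

theorem smooth_deriv {f : ℝ → ℝ} (hf : ContDiff ℝ ∞ f) : ContDiff ℝ ∞ (deriv f) := by
  have h1 : ContDiff ℝ (∞ + 1) f := hf
  exact ((contDiff_succ_iff_deriv (n := ∞)).1 h1).2.2

/-- The new system. -/
theorem sys_new {h h' : ℝ → ℝ} {a' p q b' η : ℝ} (hs : ContDiff ℝ ∞ h) (hpos : ∀ z, a' < z → z < b' → 0 < h' z)
    (hη : 0 < η) (heq : ∀ z ∈ Icc (p - η) (q + η), h' z = h z) {n : ℕ} {F y v : ℝ → ℝ}
    (hS : Sys h n F y v (Icc (p - η) (q + η))) :
    Sys h' n
      (fun z => chi p q η z * F z + 2 * h z * deriv (chi p q η) z * v z +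
        h z * (deriv h z * deriv (chi p q η) z + h z * deriv (deriv (chi p q η)) z) * y z)
      (fun z => chi p q η z * y z)
      (fun z => chi p q η z * v z + h z * deriv (chi p q η) z * y z) (Ioo a' b') := by
  have hχ1 : ∀ z, HasDerivAt (chi p q η) (deriv (chi p q η) z) z := fun z =>
    ((chi_smooth p q η).differentiable (by simp)).differentiableAt.hasDerivAt
  have hχ2 : ∀ z, HasDerivAt (deriv (chi p q η)) (deriv (deriv (chi p q η)) z) z := fun z =>
    ((smooth_deriv (chi_smooth p q η)).differentiable (by simp)).differentiableAt.hasDerivAt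
  have hh1 : ∀ z, HasDerivAt h (deriv h z) z := fun z =>
    (hs.differentiable (by simp)).differentiableAt.hasDerivAt
  intro z hz
  by_cases hz1 : z ∈ Ioo (p - η) (q + η)
  · have he : h' =ᶠ[𝓝 z] h := by
      filter_upwards [isOpen_Ioo.mem_nhds hz1] with x hx
      exact heq x (Ioo_subset_Icc_self hx)
    have hW : W h' z = W h z := W_congr he
    have hh : h' z = h z := he.eq_of_nhds
    have hp : 0 < h z := by
      rw [← hh]
      exact hpos z hz.1 hz.2
    have hne : h z ≠ 0 := hp.ne'
    obtain ⟨dy, dv⟩ := hS z (Ioo_subset_Icc_self hz1)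
    constructor
    · have h1 := (hχ1 z).mul dy
      have h2 : (chi p q η z * v z + h z * deriv (chi p q η) z * y z) / h' z =
          deriv (chi p q η) z * y z + chi p q η z * (v z / h z) := by
        rw [hh]
        field_simp
        ring
      simp only [h2]
      exact h1
    · have h1 := ((hχ1 z).mul dv).add (((hh1 z).mul (hχ2 z)).mul dy)
      have h2 : ((n : ℝ) ^ 2 * W h' z * (chi p q η z * y z) +
          (chi p q η z * F z + 2 * h z * deriv (chi p q η) z * v z +
            h z * (deriv h z * deriv (chi p q η) z + h z * deriv (deriv (chi p q η)) z) * y z)) / h' z =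
          deriv (chi p q η) z * v z + chi p q η z * (((n : ℝ) ^ 2 * W h z * y z + F z) / h z) +
            ((deriv h z * deriv (chi p q η) z + h z * deriv (deriv (chi p q η)) z) * y z +
              h z * deriv (chi p q η) z * (v z / h z)) := by
        rw [hh, hW]
        field_simp
        ring
      simp only [h2]
      exact h1
  · have hU : IsOpen {w : ℝ | w < p - 11 * η / 18 ∨ q + 11 * η / 18 < w} :=
      (isOpen_gt' _).union (isOpen_lt' _)
    have hzU : z ∈ {w : ℝ | w < p - 11 * η / 18 ∨ q + 11 * η / 18 < w} := by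
      by_contra hc
      simp only [mem_setOf_eq, not_or, not_lt] at hc
      exact hz1 ⟨by linarith [hc.1], by linarith [hc.2]⟩
    have h0 : ∀ w ∈ {w : ℝ | w < p - 11 * η / 18 ∨ q + 11 * η / 18 < w}, chi p q η w = 0 :=
      fun w hw => chi_zero hη hw
    have h1 : ∀ w ∈ {w : ℝ | w < p - 11 * η / 18 ∨ q + 11 * η / 18 < w},
        deriv (chi p q η) w = 0 := fun w hw => (dconst hU hw h0).1
    have h2 : deriv (deriv (chi p q η)) z = 0 := (dconst hU hzU h0).2
    constructor
    · have h3 : (fun z => chi p q η z * y z) =ᶠ[𝓝 z] fun _ => (0 : ℝ) := by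
        filter_upwards [hU.mem_nhds hzU] with x hx
        rw [h0 x hx, zero_mul]
      simp only [h0 z hzU, h1 z hzU]
      rw [zero_mul, mul_zero, zero_mul, add_zero, zero_div]
      exact (hasDerivAt_const z (0 : ℝ)).congr_of_eventuallyEq h3
    · have h3 : (fun z => chi p q η z * v z + h z * deriv (chi p q η) z * y z) =ᶠ[𝓝 z]
          fun _ => (0 : ℝ) := by
        filter_upwards [hU.mem_nhds hzU] with x hx
        rw [h0 x hx, h1 x hx]
        ring
      simp only [h0 z hzU, h1 z hzU, h2]
      have h4 : ((n : ℝ) ^ 2 * W h' z * (0 * y z) + (0 * F z + 2 * h z * 0 * v z +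
          h z * (deriv h z * 0 + h z * 0) * y z)) / h' z = 0 := by
        ring
      rw [h4]
      exact (hasDerivAt_const z (0 : ℝ)).congr_of_eventuallyEq h3

end LNKM

open LNKM in
theorem specLNK (hDEC : SpecDEC) : SpecLNK := by
  intro h h' a' p q b' η hs hD hE hη ha hb heq
  have hpq : p < q := hD.pq
  have hloc : ∀ z ∈ Ioo (p - η) (q + η), 0 < h z ∧ W h' z = W h z := by
    intro z hz
    have he : h' =ᶠ[𝓝 z] h := by
      filter_upwards [isOpen_Ioo.mem_nhds hz] with x hx
      exact heq x (Ioo_subset_Icc_self hx)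
    refine ⟨?_, W_congr he⟩
    rw [← he.eq_of_nhds]
    exact hD.pos z (by linarith [hz.1]) (by linarith [hz.2])
  obtain ⟨C₁, c₁, hC₁, hc₁, hdec1⟩ := hDEC h (q + η / 6) (q + 5 * η / 6) hs (by linarith) (by
    intro z hz
    obtain ⟨h1, h2⟩ := hloc z ⟨by linarith [hz.1], by linarith [hz.2]⟩
    refine ⟨h1, ?_⟩
    rw [← h2]
    exact hD.W3 z (by linarith [hz.1]) (by linarith [hz.2]))
  obtain ⟨C₂, c₂, hC₂, hc₂, hdec2⟩ := hDEC h (p - 5 * η / 6) (p - η / 6) hs (by linarith) (by
    intro z hz
    obtain ⟨h1, h2⟩ := hloc z ⟨by linarith [hz.1], by linarith [hz.2]⟩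
    refine ⟨h1, ?_⟩
    rw [← h2]
    exact hD.W1 z (by linarith [hz.1]) (by linarith [hz.2]))
  have hcχ : Continuous (chi p q η) := (chi_smooth p q η).continuous
  have hcχ1 : Continuous (deriv (chi p q η)) := (smooth_deriv (chi_smooth p q η)).continuous
  have hcχ2 : Continuous (deriv (deriv (chi p q η))) :=
    (smooth_deriv (smooth_deriv (chi_smooth p q η))).continuous
  have hch : Continuous h := hs.continuous
  have hch1 : Continuous (deriv h) := (smooth_deriv hs).continuous
  obtain ⟨K₁, hK₁⟩ := (isCompact_Icc (a := p - η) (b := q + η)).exists_bound_of_continuousOn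
    (f := fun z => 2 * h z * deriv (chi p q η) z) (by fun_prop)
  obtain ⟨K₂, hK₂⟩ := (isCompact_Icc (a := p - η) (b := q + η)).exists_bound_of_continuousOn
    (f := fun z => h z * (deriv h z * deriv (chi p q η) z + h z * deriv (deriv (chi p q η)) z))
    (by fun_prop)
  obtain ⟨C₀, B, hC₀, hest⟩ := hE
  obtain ⟨K, hK, hKK₁, hKK₂⟩ : ∃ K : ℝ, 0 ≤ K ∧ K₁ ≤ K ∧ K₂ ≤ K :=
    ⟨max 0 (max K₁ K₂), le_max_left _ _, (le_max_left _ _).trans (le_max_right _ _),
      (le_max_right _ _).trans (le_max_right _ _)⟩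
  refine ⟨C₀ * (1 + K * (C₁ + C₂)), min c₁ c₂, B + 2, by positivity, lt_min hc₁ hc₂, ?_⟩
  intro n hn F y v R M hS hb2 z hz
  have hn1 : (1 : ℝ) ≤ (n : ℝ) := by
    have : 1 ≤ n := by omega
    exact_mod_cast this
  have hR : 0 ≤ R := (abs_nonneg _).trans (hb2 p ⟨by linarith, by linarith⟩).1
  have hM : 0 ≤ M := (abs_nonneg _).trans (hb2 p ⟨by linarith, by linarith⟩).2
  set E : ℝ := Real.exp (-(min c₁ c₂ * n)) with hEdef
  have hE0 : 0 < E := Real.exp_pos _
  have hE1 : Real.exp (-(c₁ * n)) ≤ E := by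
    apply Real.exp_le_exp.2
    have : min c₁ c₂ * n ≤ c₁ * n := mul_le_mul_of_nonneg_right (min_le_left _ _) (by linarith)
    linarith
  have hE2 : Real.exp (-(c₂ * n)) ≤ E := by
    apply Real.exp_le_exp.2
    have : min c₁ c₂ * n ≤ c₂ * n := mul_le_mul_of_nonneg_right (min_le_right _ _) (by linarith)
    linarith
  -- the bound of `|y| + |v|` in the middle thirds
  have hn2 : (1 : ℝ) ≤ (n : ℝ) ^ 2 := one_le_pow₀ hn1
  set D : ℝ := (C₁ + C₂) * (n : ℝ) ^ 2 * (E * M + R) with hDdef
  have hD0 : 0 ≤ D := by positivity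
  have hmid : ∀ x, (q + 7 * η / 18 ≤ x ∧ x ≤ q + 11 * η / 18) ∨
      (p - 11 * η / 18 ≤ x ∧ x ≤ p - 7 * η / 18) → |y x| + |v x| ≤ D := by
    intro x hx
    rcases hx with hx | hx
    · have hsub : Icc (q + η / 6) (q + 5 * η / 6) ⊆ Icc (p - η) (q + η) :=
        Icc_subset_Icc (by linarith) (by linarith)
      have h1 := hdec1 n (by omega) F y v R M (fun w hw => hS w (hsub hw))
        (fun w hw => hb2 w (hsub hw)) x ⟨by linarith [hx.1], by linarith [hx.2]⟩
      refine h1.trans ?_
      have h2 : Real.exp (-(c₁ * n)) * M + R ≤ E * M + R := by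
        have := mul_le_mul_of_nonneg_right hE1 hM
        linarith
      have h3 : C₁ * (n : ℝ) ^ 2 ≤ (C₁ + C₂) * (n : ℝ) ^ 2 :=
        mul_le_mul_of_nonneg_right (by linarith) (by positivity)
      exact mul_le_mul h3 h2 (by positivity) (by positivity)
    · have hsub : Icc (p - 5 * η / 6) (p - η / 6) ⊆ Icc (p - η) (q + η) :=
        Icc_subset_Icc (by linarith) (by linarith)
      have h1 := hdec2 n (by omega) F y v R M (fun w hw => hS w (hsub hw))
        (fun w hw => hb2 w (hsub hw)) x ⟨by linarith [hx.1], by linarith [hx.2]⟩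
      refine h1.trans ?_
      have h2 : Real.exp (-(c₂ * n)) * M + R ≤ E * M + R := by
        have := mul_le_mul_of_nonneg_right hE2 hM
        linarith
      have h3 : C₂ * (n : ℝ) ^ 2 ≤ (C₁ + C₂) * (n : ℝ) ^ 2 :=
        mul_le_mul_of_nonneg_right (by linarith) (by positivity)
      exact mul_le_mul h3 h2 (by positivity) (by positivity)
  have hU : IsOpen {w : ℝ | w < p - 11 * η / 18 ∨ q + 11 * η / 18 < w} :=
    (isOpen_gt' _).union (isOpen_lt' _)
  have hU0 : ∀ w ∈ {w : ℝ | w < p - 11 * η / 18 ∨ q + 11 * η / 18 < w}, chi p q η w = 0 :=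
    fun w hw => chi_zero hη hw
  have hV : IsOpen (Ioo (p - 7 * η / 18) (q + 7 * η / 18)) := isOpen_Ioo
  have hV1 : ∀ w ∈ Ioo (p - 7 * η / 18) (q + 7 * η / 18), chi p q η w = 1 :=
    fun w hw => chi_one hη hw.1.le hw.2.le
  have hbound : ∀ x ∈ Ioo a' b', |chi p q η x * F x + 2 * h x * deriv (chi p q η) x * v x +
        h x * (deriv h x * deriv (chi p q η) x + h x * deriv (deriv (chi p q η)) x) * y x| ≤
        R + K * D ∧ |chi p q η x * y x| ≤ M := by
    intro x hx
    have hKD : 0 ≤ K * D := mul_nonneg hK hD0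
    by_cases hxU : x ∈ {w : ℝ | w < p - 11 * η / 18 ∨ q + 11 * η / 18 < w}
    · have h1 := dconst hU hxU hU0
      rw [hU0 x hxU, h1.1, h1.2]
      constructor
      · have : (0 * F x + 2 * h x * 0 * v x + h x * (deriv h x * 0 + h x * 0) * y x) = 0 := by ring
        rw [this, abs_zero]
        linarith
      · rw [zero_mul, abs_zero]
        exact hM
    · have hxI : x ∈ Icc (p - η) (q + η) := by
        simp only [mem_setOf_eq, not_or, not_lt] at hxU
        exact ⟨by linarith [hxU.1], by linarith [hxU.2]⟩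
      have hyM : |chi p q η x * y x| ≤ M := by
        rw [abs_mul]
        calc |chi p q η x| * |y x| ≤ 1 * M :=
              mul_le_mul (chi_bd p q η x) (hb2 x hxI).2 (abs_nonneg _) zero_le_one
          _ = M := one_mul M
      have hFR : |chi p q η x * F x| ≤ R := by
        rw [abs_mul]
        calc |chi p q η x| * |F x| ≤ 1 * R :=
              mul_le_mul (chi_bd p q η x) (hb2 x hxI).1 (abs_nonneg _) zero_le_one
          _ = R := one_mul R
      refine ⟨?_, hyM⟩
      by_cases hxV : x ∈ Ioo (p - 7 * η / 18) (q + 7 * η / 18)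
      · have h1 := dconst hV hxV hV1
        rw [h1.1, h1.2]
        have : (chi p q η x * F x + 2 * h x * 0 * v x + h x * (deriv h x * 0 + h x * 0) * y x) =
            chi p q η x * F x := by ring
        rw [this]
        linarith
      · have hm : |y x| + |v x| ≤ D := by
          apply hmid
          simp only [mem_setOf_eq, not_or, not_lt] at hxU
          by_cases hc : q + 7 * η / 18 ≤ x
          · exact Or.inl ⟨hc, hxU.2⟩
          · right
            refine ⟨hxU.1, ?_⟩
            by_contra hc2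
            exact hxV ⟨by linarith, by linarith⟩
        have k1 : |2 * h x * deriv (chi p q η) x| ≤ K := (hK₁ x hxI).trans hKK₁
        have k2 : |h x * (deriv h x * deriv (chi p q η) x + h x * deriv (deriv (chi p q η)) x)| ≤ K :=
          (hK₂ x hxI).trans hKK₂
        have t1 : |2 * h x * deriv (chi p q η) x * v x| ≤ K * |v x| := by
          rw [abs_mul]
          exact mul_le_mul_of_nonneg_right k1 (abs_nonneg _)
        have t2 : |h x * (deriv h x * deriv (chi p q η) x + h x * deriv (deriv (chi p q η)) x) * y x| ≤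
            K * |y x| := by
          rw [abs_mul]
          exact mul_le_mul_of_nonneg_right k2 (abs_nonneg _)
        have t3 : K * (|y x| + |v x|) ≤ K * D := mul_le_mul_of_nonneg_left hm hK
        have t4 := abs_add_le (chi p q η x * F x + 2 * h x * deriv (chi p q η) x * v x)
          (h x * (deriv h x * deriv (chi p q η) x + h x * deriv (deriv (chi p q η)) x) * y x)
        have t5 := abs_add_le (chi p q η x * F x) (2 * h x * deriv (chi p q η) x * v x)
        linarith
  have hfin := (hest n hn _ _ _ (R + K * D) M (sys_new hs hD.pos hη heq hS) hbound z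
    ⟨by linarith [hz.1], by linarith [hz.2]⟩).1
  have hone : chi p q η z = 1 := chi_one hη (by linarith [hz.1]) (by linarith [hz.2])
  simp only [hone, one_mul] at hfin
  refine hfin.trans ?_
  have hnB : (0 : ℝ) < (n : ℝ) ^ B := by positivity
  have e1 : R + K * D ≤ (1 + K * (C₁ + C₂)) * (n : ℝ) ^ 2 * (R + E * M) := by
    have e2 : K * D = K * (C₁ + C₂) * (n : ℝ) ^ 2 * (R + E * M) := by
      rw [hDdef]
      ring
    have e3 : R ≤ (n : ℝ) ^ 2 * (R + E * M) := by
      have e4 : 0 ≤ E * M := by positivity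
      calc R ≤ R + E * M := by linarith
        _ = 1 * (R + E * M) := (one_mul _).symm
        _ ≤ (n : ℝ) ^ 2 * (R + E * M) := mul_le_mul_of_nonneg_right hn2 (by linarith)
    rw [e2]
    linarith
  calc C₀ * (n : ℝ) ^ B * (R + K * D)
      ≤ C₀ * (n : ℝ) ^ B * ((1 + K * (C₁ + C₂)) * (n : ℝ) ^ 2 * (R + E * M)) :=
        mul_le_mul_of_nonneg_left e1 (by positivity)
    _ = C₀ * (1 + K * (C₁ + C₂)) * (n : ℝ) ^ (B + 2) * (R + E * M) := by ring

end

end Pool.Agent.Lib.MP478c11.DB
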