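import Pool.Agent.Lib.MP_478c11_gt.DB.Many

/-!
# MP_478c11, module MEV: the measure argument, with a countable exceptional set
-/

set_option autoImplicit false

namespace Pool.Agent.Lib.MP478c11.DB

open Set Filter Topology MeasureTheory
open scoped ContDiff

namespace MEVM

theorem cell (A : Set ℝ) (t : ℝ) (h : ∀ x ∈ A, ∀ y ∈ A, |x - y| ≤ t) :
    volume A ≤ ENNReal.ofReal (2 * t) := by
  rcases A.eq_empty_or_nonempty with rfl | ⟨x₀, hx₀⟩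
  · simp
  · have h1 : A ⊆ Icc (x₀ - t) (x₀ + t) := by
      intro x hx
      have h2 := abs_le.mp (h x hx x₀ hx₀)
      exact ⟨by linarith [h2.1], by linarith [h2.2]⟩
    refine (measure_mono h1).trans ?_
    rw [Real.volume_Icc]
    exact ENNReal.ofReal_le_ofReal (by linarith)

theorem cover (A : Set ℝ) (u s t : ℝ) (N : ℕ) (hs : 0 < s) (hA : A ⊆ Ioo 0 u)
    (hN : u ≤ N * s) (h : ∀ x ∈ A, ∀ y ∈ A, |x - y| ≤ s → |x - y| ≤ t) :
    volume A ≤ (N : ENNReal) * ENNReal.ofReal (2 * t) := by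
  have h1 : A ⊆ ⋃ i ∈ Finset.range N, (A ∩ Icc ((i : ℝ) * s) (((i : ℝ) + 1) * s)) := by
    intro x hx
    have hx0 := hA hx
    have h2 : 0 ≤ x / s := (div_pos hx0.1 hs).le
    have h3 : (⌊x / s⌋₊ : ℝ) ≤ x / s := Nat.floor_le h2
    have h4 : x / s < (⌊x / s⌋₊ : ℝ) + 1 := Nat.lt_floor_add_one _
    have h5 : x / s < N := by
      rw [div_lt_iff₀ hs]
      exact hx0.2.trans_le hN
    have h6 : ⌊x / s⌋₊ < N := by
      rw [Nat.floor_lt h2]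
      exact h5
    refine mem_iUnion₂.mpr ⟨⌊x / s⌋₊, Finset.mem_range.mpr h6, hx, ?_, ?_⟩
    · rw [le_div_iff₀ hs] at h3
      exact h3
    · rw [div_lt_iff₀ hs] at h4
      exact h4.le
  calc volume A ≤ volume (⋃ i ∈ Finset.range N, (A ∩ Icc ((i : ℝ) * s) (((i : ℝ) + 1) * s))) :=
        measure_mono h1
    _ ≤ ∑ i ∈ Finset.range N, volume (A ∩ Icc ((i : ℝ) * s) (((i : ℝ) + 1) * s)) :=
        measure_biUnion_finset_le _ _
    _ ≤ ∑ _i ∈ Finset.range N, ENNReal.ofReal (2 * t) := by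
        refine Finset.sum_le_sum fun i _ => cell _ t ?_
        intro x hx y hy
        refine h x hx.1 y hy.1 (abs_le.mpr ⟨?_, ?_⟩)
        · have h7 := hx.2.1
          have h8 := hy.2.2
          have h9 : ((i : ℝ) + 1) * s = (i : ℝ) * s + s := by ring
          linarith
        · have h7 := hx.2.2
          have h8 := hy.2.1
          have h9 : ((i : ℝ) + 1) * s = (i : ℝ) * s + s := by ring
          linarith
    _ = (N : ENNReal) * ENNReal.ofReal (2 * t) := by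
        rw [Finset.sum_const, Finset.card_range, nsmul_eq_mul]

theorem bad (D : ℕ → ℝ → ℝ) (n B : ℕ) (c₀ c₁ u ε : ℝ) (hn : 1 ≤ n) (h0 : 0 < c₀) (h1 : 0 < c₁)
    (hu : 0 < u) (hε : 0 < ε)
    (H : ∀ μ ∈ Ioo 0 u, ∀ μ' ∈ Ioo 0 u, |μ - μ'| ≤ c₀ / n →
      c₁ * |μ - μ'| ≤ (n : ℝ) ^ B * (|D n μ| + |D n μ'|)) :
    volume {μ : ℝ | μ ∈ Ioo 0 u ∧ (n : ℝ) ^ (B + 3) * |D n μ| < ε} ≤
      ENNReal.ofReal (4 * (u / c₀ + 1) / c₁ * ε * (1 / (n : ℝ) ^ 2)) := by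
  have hn0 : (0 : ℝ) < n := by exact_mod_cast hn
  have hn1 : (1 : ℝ) ≤ n := by exact_mod_cast hn
  have hs : 0 < c₀ / n := div_pos h0 hn0
  have hN : u ≤ (⌈u / (c₀ / n)⌉₊ : ℝ) * (c₀ / n) := by
    have h2 := Nat.le_ceil (u / (c₀ / n))
    rwa [div_le_iff₀ hs] at h2
  have h3 := cover {μ : ℝ | μ ∈ Ioo 0 u ∧ (n : ℝ) ^ (B + 3) * |D n μ| < ε} u (c₀ / n)
    (2 * ε / (c₁ * (n : ℝ) ^ 3)) ⌈u / (c₀ / n)⌉₊ hs (fun x hx => hx.1) hN (by
      intro x hx y hy hxy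
      have h4 := H x hx.1 y hy.1 hxy
      have h5 : (n : ℝ) ^ 3 * ((n : ℝ) ^ B * (|D n x| + |D n y|)) ≤ 2 * ε := by
        have e1 := hx.2
        have e2 := hy.2
        have e3 : (n : ℝ) ^ 3 * ((n : ℝ) ^ B * (|D n x| + |D n y|)) =
            (n : ℝ) ^ (B + 3) * |D n x| + (n : ℝ) ^ (B + 3) * |D n y| := by ring
        rw [e3]
        linarith
      have h6 : (n : ℝ) ^ 3 * (c₁ * |x - y|) ≤ 2 * ε :=
        (mul_le_mul_of_nonneg_left h4 (by positivity)).trans h5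
      rw [le_div_iff₀ (by positivity)]
      calc |x - y| * (c₁ * (n : ℝ) ^ 3) = (n : ℝ) ^ 3 * (c₁ * |x - y|) := by ring
        _ ≤ 2 * ε := h6)
  refine h3.trans ?_
  rw [← ENNReal.ofReal_natCast, ← ENNReal.ofReal_mul (by positivity)]
  refine ENNReal.ofReal_le_ofReal ?_
  have h7 : (⌈u / (c₀ / n)⌉₊ : ℝ) ≤ (n : ℝ) * (u / c₀ + 1) := by
    have h8 : (⌈u / (c₀ / n)⌉₊ : ℝ) < u / (c₀ / n) + 1 := Nat.ceil_lt_add_one (by positivity)
    have h9 : u / (c₀ / n) = n * (u / c₀) := by field_simp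
    rw [h9] at h8 ⊢
    nlinarith
  calc (⌈u / (c₀ / n)⌉₊ : ℝ) * (2 * (2 * ε / (c₁ * (n : ℝ) ^ 3)))
      ≤ ((n : ℝ) * (u / c₀ + 1)) * (2 * (2 * ε / (c₁ * (n : ℝ) ^ 3))) :=
        mul_le_mul_of_nonneg_right h7 (by positivity)
    _ = 4 * (u / c₀ + 1) / c₁ * ε * (1 / (n : ℝ) ^ 2) := by
        field_simp
        ring

end MEVM

theorem specMEV : SpecMEV := by
  classical
  intro D n₀ B c₀ c₁ u E hn₀ h0 h1 hu hE H
  have hsum : Summable (fun n : ℕ => 1 / (n : ℝ) ^ 2) :=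
    Real.summable_one_div_nat_pow.mpr (by norm_num)
  set Z : ℝ := ∑' n : ℕ, 1 / (n : ℝ) ^ 2 with hZ
  have hZ0 : 0 ≤ Z := tsum_nonneg fun n => by positivity
  set K : ℝ := 4 * (u / c₀ + 1) / c₁ with hK
  have hK0 : 0 < K := by positivity
  set ε : ℝ := u / (2 * K * (Z + 1)) with hε
  have hε0 : 0 < ε := by positivity
  refine ⟨ε, hε0, ?_⟩
  by_contra hcon
  push Not at hcon
  have hcov : Ioo 0 u ⊆ E ∪ ⋃ n : ℕ, (if n₀ ≤ n then
      {μ : ℝ | μ ∈ Ioo 0 u ∧ (n : ℝ) ^ (B + 3) * |D n μ| < ε} else ∅) := by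
    intro μ hμ
    by_cases hμE : μ ∈ E
    · exact Or.inl hμE
    · obtain ⟨n, hn, hlt⟩ := hcon μ hμ hμE
      refine Or.inr (mem_iUnion.mpr ⟨n, ?_⟩)
      rw [if_pos hn]
      exact ⟨hμ, hlt⟩
  have hle : ∀ n : ℕ, volume (if n₀ ≤ n then
      {μ : ℝ | μ ∈ Ioo 0 u ∧ (n : ℝ) ^ (B + 3) * |D n μ| < ε} else ∅) ≤
      ENNReal.ofReal (K * ε * (1 / (n : ℝ) ^ 2)) := by
    intro n
    by_cases hn : n₀ ≤ n
    · rw [if_pos hn]
      exact MEVM.bad D n B c₀ c₁ u ε (hn₀.trans hn) h0 h1 hu hε0 (H n hn)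
    · rw [if_neg hn]
      simp
  have h2 : ENNReal.ofReal u ≤ ENNReal.ofReal (K * ε * Z) := by
    calc ENNReal.ofReal u = volume (Ioo 0 u) := by rw [Real.volume_Ioo, sub_zero]
      _ ≤ volume (E ∪ ⋃ n : ℕ, (if n₀ ≤ n then
          {μ : ℝ | μ ∈ Ioo 0 u ∧ (n : ℝ) ^ (B + 3) * |D n μ| < ε} else ∅)) := measure_mono hcov
      _ ≤ volume E + volume (⋃ n : ℕ, (if n₀ ≤ n then
          {μ : ℝ | μ ∈ Ioo 0 u ∧ (n : ℝ) ^ (B + 3) * |D n μ| < ε} else ∅)) := measure_union_le _ _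
      _ = volume (⋃ n : ℕ, (if n₀ ≤ n then
          {μ : ℝ | μ ∈ Ioo 0 u ∧ (n : ℝ) ^ (B + 3) * |D n μ| < ε} else ∅)) := by
        rw [hE.measure_zero volume, zero_add]
      _ ≤ ∑' n : ℕ, volume (if n₀ ≤ n then
          {μ : ℝ | μ ∈ Ioo 0 u ∧ (n : ℝ) ^ (B + 3) * |D n μ| < ε} else ∅) := measure_iUnion_le _
      _ ≤ ∑' n : ℕ, ENNReal.ofReal (K * ε * (1 / (n : ℝ) ^ 2)) := ENNReal.tsum_le_tsum hle
      _ = ENNReal.ofReal (∑' n : ℕ, K * ε * (1 / (n : ℝ) ^ 2)) :=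
          (ENNReal.ofReal_tsum_of_nonneg (fun n => by positivity) (hsum.mul_left _)).symm
      _ = ENNReal.ofReal (K * ε * Z) := by rw [tsum_mul_left]
  have h3 : u ≤ K * ε * Z := (ENNReal.ofReal_le_ofReal_iff (by positivity)).mp h2
  have h4 : K * ε * Z = u / 2 * (Z / (Z + 1)) := by
    rw [hε]
    field_simp
  have h5 : Z / (Z + 1) ≤ 1 := by
    rw [div_le_one (by positivity)]
    linarith
  have h6 : u / 2 * (Z / (Z + 1)) ≤ u / 2 * 1 := mul_le_mul_of_nonneg_left h5 (by positivity)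
  linarith

end Pool.Agent.Lib.MP478c11.DB
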