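import Pool.Agent.Lib.MP_478c11_gt.DB.Many

/-!
# Module MU1 (MP_478c11_gt, DB): all necks but the first
-/

set_option autoImplicit false

namespace Pool.Agent.Lib.MP478c11.DB

open Set Filter Topology MeasureTheory
open scoped ContDiff

noncomputable section

namespace MU1M

theorem nr_refl (h : ℝ → ℝ) (a b : ℝ) (N : ℕ) (δ : ℝ) (hs : Sph h a b) (hδ : 0 < δ) : Nr h h a b N δ := by
  refine ⟨hs, ⟨(2 * a + b) / 3, (a + 2 * b) / 3, by linarith [hs.ab], by linarith [hs.ab], by linarith [hs.ab],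
    fun z _ => rfl⟩, ?_⟩
  intro i _ z
  have h0 : (fun z => h z - h z) = fun _ : ℝ => (0 : ℝ) := by
    funext z; simp
  rw [h0]
  have h1 : iteratedDeriv i (fun _ : ℝ => (0 : ℝ)) = fun _ => 0 := by
    induction i with
    | zero => funext z; simp
    | succ n ih =>
      rw [iteratedDeriv_succ, ih (by omega)]
      funext z
      simp
  rw [h1]
  simp [hδ.le]

theorem nr_trans (h h₁ g : ℝ → ℝ) (a b : ℝ) (N : ℕ) (δ₁ δ₂ : ℝ) (hs : Sph h a b)
    (h1 : Nr h h₁ a b N δ₁) (h2 : Nr h₁ g a b N δ₂) : Nr h g a b N (δ₁ + δ₂) := by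
  obtain ⟨s1, ⟨c₁, d₁, ac1, cd1, db1, e1⟩, b1⟩ := h1
  obtain ⟨s2, ⟨c₂, d₂, ac2, cd2, db2, e2⟩, b2⟩ := h2
  refine ⟨s2, ⟨min c₁ c₂, max d₁ d₂, lt_min ac1 ac2, ?_, max_lt db1 db2, ?_⟩, ?_⟩
  · exact lt_of_le_of_lt (min_le_left _ _) (lt_of_lt_of_le cd1 (le_max_left _ _))
  · intro z hz
    have z1 : z ∉ Icc c₁ d₁ := fun hh => hz ⟨le_trans (min_le_left _ _) hh.1, le_trans hh.2 (le_max_left _ _)⟩
    have z2 : z ∉ Icc c₂ d₂ := fun hh => hz ⟨le_trans (min_le_right _ _) hh.1, le_trans hh.2 (le_max_right _ _)⟩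
    rw [e2 z z2, e1 z z1]
  · intro i hi z
    have e : (fun z => g z - h z) = fun z => (h₁ z - h z) + (g z - h₁ z) := by
      funext z; ring
    have c1 : ContDiff ℝ ∞ (fun z => h₁ z - h z) := s1.smooth.sub hs.smooth
    have c2 : ContDiff ℝ ∞ (fun z => g z - h₁ z) := s2.smooth.sub s1.smooth
    have hc : ((i : ℕ∞) : WithTop ℕ∞) ≤ ∞ := by exact_mod_cast le_top
    rw [e, iteratedDeriv_fun_add (c1.contDiffAt.of_le hc) (c2.contDiffAt.of_le hc)]
    exact le_trans (abs_add_le _ _) (add_le_add (b1 i hi z) (b2 i hi z))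

end MU1M

open MU1M in
theorem specMU1 (hEST : SpecEST) (hNRX : SpecNRX) (hEXT : SpecEXT) (hSTP : SpecSTP) : SpecMU1 := by
  intro h a b k p q hM
  have key : ∀ m : ℕ, ∀ (N : ℕ) (δ : ℝ), 0 < δ → ∃ h' : ℝ → ℝ, Nr h h' a b N δ ∧ Many h' a b k p q ∧
      ∀ j < k, 1 ≤ j → j < m → GoodNeck h' (p j) (q j) := by
    intro m
    induction m with
    | zero =>
      intro N δ hδ
      exact ⟨h, nr_refl h a b N δ hM.sph hδ, hM, fun j _ _ hj => absurd hj (Nat.not_lt_zero j)⟩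
    | succ m ih =>
      intro N δ hδ
      by_cases hm : m < k ∧ 1 ≤ m
      · obtain ⟨hmk, hm1⟩ := hm
        obtain ⟨h₁, n1, M1, G1⟩ := ih N (δ / 2) (half_pos hδ)
        obtain ⟨h', a', b', η, hη, hD, ha', hb', ha, hb, heq, -, -⟩ := hEXT h₁ a b k p q M1 m hmk
        obtain ⟨h'', hN, hR⟩ := hNRX h' a' (p m) (q m) b' hD N (δ / 2) (half_pos hδ)
        obtain ⟨Mg, Ng, Gi, Gm, -, -⟩ := hSTP h₁ a b k p q M1 m hmk h' h'' a' b' η (δ / 2) N hη hD ha' hb' ha hb heq hN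
          (fun z => h₁ z + (h'' z - h' z)) (fun z => rfl)
        refine ⟨fun z => h₁ z + (h'' z - h' z), ?_, Mg, ?_⟩
        · have := nr_trans h h₁ _ a b N (δ / 2) (δ / 2) hM.sph n1 Ng
          rwa [add_halves] at this
        · intro j hj hj1 hjm
          by_cases hjm' : j = m
          · subst hjm'
            exact Gm (hEST h'' a' (p j) (q j) b' hN.1 hR)
          · exact Gi j hj hjm' (G1 j hj hj1 (by omega))
      · obtain ⟨h₁, n1, M1, G1⟩ := ih N δ hδ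
        refine ⟨h₁, n1, M1, ?_⟩
        intro j hj hj1 hjm
        refine G1 j hj hj1 ?_
        by_contra hc
        have : j = m := by omega
        subst this
        exact hm ⟨hj, hj1⟩
  intro N δ hδ
  obtain ⟨h', n1, M1, G1⟩ := key k N δ hδ
  exact ⟨h', n1, M1, fun j hj hj1 => G1 j hj hj1 hj⟩

end

end Pool.Agent.Lib.MP478c11.DB
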