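import Pool.Agent.Lib.MP_478c11_gt.DB.Many

/-!
# MP_478c11_gt, module MU2: the first neck and the assembly of the a priori estimate
-/

set_option autoImplicit false

namespace Pool.Agent.Lib.MP478c11.DB

open Set Filter Topology MeasureTheory
open scoped ContDiff

noncomputable section

namespace MU2M

theorem W_congr {h h' : ℝ → ℝ} {z : ℝ} (H : h' =ᶠ[𝓝 z] h) : W h' z = W h z := by
  unfold W
  have h1 : deriv h' =ᶠ[𝓝 z] deriv h := H.deriv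
  rw [h1.deriv_eq, H.deriv_eq, H.eq_of_nhds]

theorem sys_congr {h h' : ℝ → ℝ} {n : ℕ} {F y v : ℝ → ℝ} {I : Set ℝ}
    (H : ∀ z ∈ I, h' =ᶠ[𝓝 z] h) (hS : Sys h' n F y v I) : Sys h n F y v I := by
  intro z hz
  obtain ⟨h1, h2⟩ := hS z hz
  have e1 := (H z hz).eq_of_nhds
  rw [e1] at h1 h2
  rw [W_congr (H z hz)] at h2
  exact ⟨h1, h2⟩

theorem sys_mono {h : ℝ → ℝ} {n : ℕ} {F y v : ℝ → ℝ} {I J : Set ℝ} (hIJ : J ⊆ I)
    (hS : Sys h n F y v I) : Sys h n F y v J := fun z hz => hS z (hIJ hz)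

theorem sys_zero (h : ℝ → ℝ) (n : ℕ) (I : Set ℝ) : Sys h n O (fun _ => 0) (fun _ => 0) I := by
  intro z _
  refine ⟨(hasDerivAt_const z (0 : ℝ)).congr_deriv ?_, (hasDerivAt_const z (0 : ℝ)).congr_deriv ?_⟩
  · simp
  · simp [O]

theorem sys_smul {h : ℝ → ℝ} {n : ℕ} {y v : ℝ → ℝ} {I : Set ℝ} (t : ℝ)
    (hS : Sys h n O y v I) : Sys h n O (fun z => t * y z) (fun z => t * v z) I := by
  intro z hz
  obtain ⟨h1, h2⟩ := hS z hz
  refine ⟨(h1.const_mul t).congr_deriv ?_, (h2.const_mul t).congr_deriv ?_⟩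
  · ring
  · simp only [O]
    ring

theorem sys_sub {h : ℝ → ℝ} {n : ℕ} {y v y' v' : ℝ → ℝ} {I : Set ℝ}
    (hS : Sys h n O y v I) (hS' : Sys h n O y' v' I) :
    Sys h n O (fun z => y z - y' z) (fun z => v z - v' z) I := by
  intro z hz
  obtain ⟨h1, h2⟩ := hS z hz
  obtain ⟨h3, h4⟩ := hS' z hz
  refine ⟨(h1.sub h3).congr_deriv ?_, (h2.sub h4).congr_deriv ?_⟩
  · ring
  · simp only [O]
    ring

theorem nr_self {h : ℝ → ℝ} {a b : ℝ} (hS : Sph h a b) (N : ℕ) {δ : ℝ} (hδ : 0 < δ) :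
    Nr h h a b N δ := by
  have hab := hS.ab
  refine ⟨hS, ⟨a + (b - a) / 3, a + 2 * (b - a) / 3, by linarith, by linarith, by linarith,
    fun z _ => rfl⟩, fun i _ z => ?_⟩
  have e : (fun z => h z - h z) = fun _ : ℝ => (0 : ℝ) := by
    funext z
    exact sub_self _
  rw [e]
  have h1 : iteratedDeriv i (fun _ : ℝ => (0 : ℝ)) z = 0 := by
    rw [iteratedDeriv_const]
    split_ifs <;> rfl
  rw [h1, abs_zero]
  exact hδ.le

theorem nr_add {h h' h₂ : ℝ → ℝ} {a b : ℝ} {N : ℕ} {δ : ℝ} (hS : Sph h a b)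
    (h1 : Nr h h' a b N (δ / 2)) (h2 : Nr h' h₂ a b N (δ / 2)) : Nr h h₂ a b N δ := by
  obtain ⟨hS1, ⟨c, d, hc, hcd, hd, he⟩, hi1⟩ := h1
  obtain ⟨hS2, ⟨c', d', hc', hcd', hd', he'⟩, hi2⟩ := h2
  refine ⟨hS2, ⟨min c c', max d d', lt_min hc hc', ?_, max_lt hd hd', fun z hz => ?_⟩, ?_⟩
  · exact (min_le_left _ _).trans_lt (hcd.trans_le (le_max_left _ _))
  · have hz1 : z ∉ Icc c d := fun h5 =>
      hz ⟨(min_le_left _ _).trans h5.1, h5.2.trans (le_max_left _ _)⟩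
    have hz2 : z ∉ Icc c' d' := fun h5 =>
      hz ⟨(min_le_right _ _).trans h5.1, h5.2.trans (le_max_right _ _)⟩
    rw [he' z hz2, he z hz1]
  · intro i hi z
    have e : (fun z => h₂ z - h z) = fun z => (h₂ z - h' z) + (h' z - h z) := by
      funext z
      ring
    have hs1 : ContDiffAt ℝ i (fun z => h₂ z - h' z) z :=
      ((hS2.smooth.sub hS1.smooth).of_le (by exact_mod_cast le_top)).contDiffAt
    have hs2 : ContDiffAt ℝ i (fun z => h' z - h z) z :=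
      ((hS1.smooth.sub hS.smooth).of_le (by exact_mod_cast le_top)).contDiffAt
    rw [e, iteratedDeriv_fun_add hs1 hs2]
    have h5 := hi2 i hi z
    have h6 := hi1 i hi z
    calc |iteratedDeriv i (fun z => h₂ z - h' z) z +
          iteratedDeriv i (fun z => h' z - h z) z| ≤ _ := abs_add_le _ _
      _ ≤ δ := by linarith

theorem q_mono {h : ℝ → ℝ} {a b : ℝ} {k : ℕ} {p q : ℕ → ℝ} (hM : Many h a b k p q) :
    ∀ j < k, q 0 ≤ q j := by
  intro j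
  induction j with
  | zero => intro _; exact le_rfl
  | succ j ih =>
    intro hj
    have h1 := ih (by omega)
    have h2 := hM.qp j hj
    have h3 := (hM.pq (j + 1) hj).2.1
    linarith

/-- the bounded solutions in the right cap -/
theorem right (hCPM : SpecCPM) {h : ℝ → ℝ} {a b : ℝ} {k : ℕ} {p q : ℕ → ℝ}
    (hM : Many h a b k p q) (hk : 1 ≤ k) : ∀ n : ℕ, ∃ Z U : ℝ → ℝ, 1 ≤ n →
      (Sys h n O Z U (Ioo a b) ∧ Z (q (k - 1)) = 1 ∧ ∀ (y v : ℝ → ℝ) (M : ℝ),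
        Sys h n O y v (Ico (q (k - 1)) b) → (∀ z ∈ Ico (q (k - 1)) b, |y z| ≤ M) →
        v (q (k - 1)) = y (q (k - 1)) * U (q (k - 1))) := by
  obtain ⟨C, _, hcpm⟩ := hCPM h a b k p q hM hk
  intro n
  by_cases hn : 1 ≤ n
  · obtain ⟨-, Z, U, hsys, hone, -, hall⟩ := hcpm n hn
    refine ⟨Z, U, fun _ => ⟨hsys, hone, fun y v M hS hb => ?_⟩⟩
    have h1 := (hall O y v 0 M hS le_rfl (fun z hz => ⟨by simp [O], hb z hz⟩)).2
    rw [mul_zero] at h1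
    have h2 := abs_nonpos_iff.1 h1
    linarith
  · exact ⟨O, O, fun h => absurd h hn⟩

/-- there is no bounded solution for the new function -/
theorem nb (hUNQ : SpecUNQ) (hCAP : SpecCAP) (hLEX : SpecLEX) (hUNS : SpecUNS)
    {h' h₂ h₃ : ℝ → ℝ} {a b b' p₀ q₀ qk η d : ℝ} (hS' : Sph h' a b) (hS₂ : Sph h₂ a b)
    (hD : Dumb h₃ a p₀ q₀ b') (hη : 0 < η) (hb' : q₀ + η < b') (hb : q₀ + η < b)
    (hl : ∀ z, z ≤ q₀ + η → h₂ z = h₃ z) (hd : p₀ < d) (hdq : d < q₀) (hr : ∀ z, d < z → h₂ z = h' z)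
    (hqk : q₀ ≤ qk) (hqkb : qk < b) {n : ℕ} (hn : 1 ≤ n) {Z U : ℝ → ℝ}
    (hZ : Sys h' n O Z U (Ioo a b)) (hZ1 : Z qk = 1)
    (hZU : ∀ (y v : ℝ → ℝ) (M : ℝ), Sys h' n O y v (Ico qk b) → (∀ z ∈ Ico qk b, |y z| ≤ M) →
      v qk = y qk * U qk)
    (hne : ∀ Y V : ℝ → ℝ, LeftSol h₃ a p₀ b' n Y V → Y q₀ * U q₀ - V q₀ * Z q₀ ≠ 0) :
    NB h₂ a b n := by
  intro y v M hS hbd
  have hap : a < p₀ := hD.ap
  have hpq : p₀ < q₀ := hD.pq
  obtain ⟨Y, V, hL⟩ := hLEX h₃ a p₀ q₀ b' hD n hn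
  have hW := hne Y V hL
  obtain ⟨C, _, hcap⟩ := hCAP h₃ a p₀ q₀ b' hD
  -- the left part
  have sl1 : Ioo a (q₀ + η) ⊆ Ioo a b := fun z hz => ⟨hz.1, hz.2.trans hb⟩
  have sl2 : Ioo a (q₀ + η) ⊆ Ioo a b' := fun z hz => ⟨hz.1, hz.2.trans hb'⟩
  have hSl : Sys h₃ n O y v (Ioo a (q₀ + η)) := by
    refine sys_congr (fun z hz => ?_) (sys_mono sl1 hS)
    filter_upwards [Iio_mem_nhds hz.2] with t ht using hl t (le_of_lt ht)
  have hYl : Sys h₃ n O (fun z => y p₀ * Y z) (fun z => y p₀ * V z) (Ioo a (q₀ + η)) :=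
    sys_mono sl2 (sys_smul (y p₀) hL.sys)
  have hsubl : Ioc a p₀ ⊆ Ioo a (q₀ + η) := fun z hz => ⟨hz.1, by linarith [hz.2]⟩
  have hcp := (hcap n hn O (fun z => y z - y p₀ * Y z) (fun z => v z - y p₀ * V z) 0
    (M + |y p₀|) (sys_mono hsubl (sys_sub hSl hYl)) le_rfl (fun z hz => ⟨by simp [O], ?_⟩)
    (by
      show y p₀ - y p₀ * Y p₀ = 0
      rw [hL.one]
      ring)).2
  swap
  · have h1 := hbd z ⟨hz.1, by linarith [hz.2]⟩
    have h2 := hL.bd z hz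
    have h3 : |y p₀ * Y z| ≤ |y p₀| := by
      rw [abs_mul]
      have h4 : |Y z| ≤ 1 := by
        rw [abs_of_nonneg h2.1]
        exact h2.2.1
      calc |y p₀| * |Y z| ≤ |y p₀| * 1 := mul_le_mul_of_nonneg_left h4 (abs_nonneg _)
        _ = |y p₀| := mul_one _
    show |y z - y p₀ * Y z| ≤ M + |y p₀|
    calc |y z - y p₀ * Y z| ≤ |y z| + |y p₀ * Y z| := abs_sub _ _
      _ ≤ M + |y p₀| := add_le_add h1 h3
  rw [mul_zero] at hcp
  have hv0 : v p₀ = y p₀ * V p₀ := by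
    have h2 := abs_nonpos_iff.1 hcp
    linarith
  have hp₀I : p₀ ∈ Ioo a (q₀ + η) := ⟨hap, by linarith⟩
  have hq₀I : q₀ ∈ Ioo a (q₀ + η) := ⟨by linarith, by linarith⟩
  have hl1 := hUNQ h₃ a p₀ q₀ b' hD n O y v (fun z => y p₀ * Y z) (fun z => y p₀ * V z)
    (Ioo a (q₀ + η)) ordConnected_Ioo sl2 hSl hYl p₀ hp₀I
    (by
      show y p₀ = y p₀ * Y p₀
      rw [hL.one, mul_one]) hv0
  -- the right part
  have had : a < d := by linarith
  have sr1 : Ioo d b ⊆ Ioo a b := fun z hz => ⟨had.trans hz.1, hz.2⟩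
  have sr2 : Ico qk b ⊆ Ioo d b := fun z hz => ⟨by linarith [hz.1], hz.2⟩
  have hSr : Sys h' n O y v (Ioo d b) := by
    refine sys_congr (fun z hz => ?_) (sys_mono sr1 hS)
    filter_upwards [Ioi_mem_nhds hz.1] with t ht using hr t ht
  have hZr : Sys h' n O (fun z => y qk * Z z) (fun z => y qk * U z) (Ioo d b) :=
    sys_mono sr1 (sys_smul (y qk) hZ)
  have hvk : v qk = y qk * U qk := by
    refine hZU y v M (sys_mono sr2 hSr) fun z hz => ?_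
    exact hbd z ⟨by linarith [hz.1], hz.2⟩
  have hr1 := hUNS h' a b hS' n O y v (fun z => y qk * Z z) (fun z => y qk * U z)
    (Ioo d b) ordConnected_Ioo sr1 hSr hZr qk
    ⟨by linarith, hqkb⟩
    (by
      show y qk = y qk * Z qk
      rw [hZ1, mul_one]) hvk
  obtain ⟨l1, l2⟩ := hl1 q₀ hq₀I
  obtain ⟨r1, r2⟩ := hr1 q₀ ⟨hdq, by linarith⟩
  have hy0 : y p₀ = 0 := by
    have h1 : y p₀ * (Y q₀ * U q₀ - V q₀ * Z q₀) = 0 := by
      have e1 : y p₀ * (Y q₀ * U q₀ - V q₀ * Z q₀) =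
          (y p₀ * Y q₀) * U q₀ - (y p₀ * V q₀) * Z q₀ := by ring
      have l1' : y q₀ = y p₀ * Y q₀ := l1
      have l2' : v q₀ = y p₀ * V q₀ := l2
      have r1' : y q₀ = y qk * Z q₀ := r1
      have r2' : v q₀ = y qk * U q₀ := r2
      rw [e1, ← l1', ← l2', r1', r2']
      ring
    exact (mul_eq_zero.1 h1).resolve_right hW
  have hv00 : v p₀ = 0 := by
    rw [hv0, hy0, zero_mul]
  intro z hz
  exact (hUNS h₂ a b hS₂ n O y v (fun _ => 0) (fun _ => 0) (Ioo a b) ordConnected_Ioo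
    (fun z hz => hz) hS (sys_zero h₂ n _) p₀ ⟨hap, by linarith⟩ hy0 hv00 z hz).1

end MU2M

open MU2M in
theorem specMU2 (hUNQ : SpecUNQ) (hCAP : SpecCAP) (hLEX : SpecLEX) (hEST : SpecEST)
    (hEXT : SpecEXT) (_hLIS : SpecLIS) (hUNS : SpecUNS) (hCPM : SpecCPM) (hEMB : SpecEMB)
    (hPOS : SpecPOS) (hNRV : SpecNRV) (hSTP : SpecSTP) (hMU1 : SpecMU1) : SpecMU2 := by
  intro h a b k p q hM N δ hδ
  rcases Nat.eq_zero_or_pos k with rfl | hk
  · exact ⟨h, nr_self hM.sph N hδ, hPOS h a b hM.sph fun z hz =>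
      hM.posW z hz fun j hj => absurd hj (Nat.not_lt_zero j)⟩
  · obtain ⟨h', hNr', hM', hgood'⟩ := hMU1 h a b k p q hM N (δ / 2) (by linarith)
    have hR := right hCPM hM' hk
    choose Z U hZU using hR
    obtain ⟨ap0, pq0, qb0⟩ := hM'.pq 0 hk
    have hk1 : k - 1 < k := by omega
    obtain ⟨apk, pqk, qbk⟩ := hM'.pq (k - 1) hk1
    have hqk : q 0 ≤ q (k - 1) := q_mono hM' (k - 1) hk1
    have hef : ∀ n : ℕ, 2 ≤ n → Z n (q 0) ≠ 0 ∨ U n (q 0) ≠ 0 := by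
      intro n hn
      by_contra hcon
      push Not at hcon
      obtain ⟨z1, z2, -⟩ := hZU n (by omega)
      have h1 := (hUNS h' a b hM'.sph n O (Z n) (U n) (fun _ => 0) (fun _ => 0) (Ioo a b)
        ordConnected_Ioo (fun z hz => hz) z1 (sys_zero h' n _) (q 0) ⟨by linarith, qb0⟩
        hcon.1 hcon.2 (q (k - 1)) ⟨by linarith, qbk⟩).1
      rw [z2] at h1
      exact one_ne_zero h1
    obtain ⟨h₀, a', b', η, hη, hD₀, haη, hqη, haη', hqη', heq, hj0, -⟩ :=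
      hEXT h' a b k p q hM' 0 hk
    obtain ⟨haa, hleft⟩ := hj0 rfl
    have haa' := haa.symm
    subst haa'
    obtain ⟨h₃, hNear, hNR, hcond⟩ := hNRV h₀ a (p 0) (q 0) b' hD₀ (fun n => Z n (q 0))
      (fun n => U n (q 0)) hef N (δ / 2) (by linarith)
    obtain ⟨h₂, hh₂⟩ : ∃ h₂ : ℝ → ℝ, ∀ z, h₂ z = h' z + (h₃ z - h₀ z) := ⟨_, fun z => rfl⟩
    obtain ⟨hM₂, hNr₂, hg1, hg0, ⟨c, d, hpc, hcd, hdq, hoff⟩, -⟩ := hSTP h' a b k p q hM' 0 hk
      h₀ h₃ a b' η (δ / 2) N hη hD₀ haη hqη haη' hqη' heq hNear h₂ hh₂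
    refine ⟨h₂, nr_add hM.sph hNr' hNr₂, hEMB h₂ a b k p q hM₂ hk ?_ ?_⟩
    · intro j hj
      rcases Nat.eq_zero_or_pos j with rfl | hj0
      · exact hg0 (hEST h₃ a (p 0) (q 0) b' hNear.1 hNR)
      · exact hg1 j hj (by omega) (hgood' j hj hj0)
    · intro n hn
      obtain ⟨z1, z2, z3⟩ := hZU n (by omega)
      refine nb hUNQ hCAP hLEX hUNS hM'.sph hM₂.sph hNear.1 hη hqη hqη' ?_ (hpc.trans hcd) hdq ?_
        hqk qbk (by omega) z1 z2 z3 (fun Y V hL => hcond n hn Y V hL)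
      · intro z hz
        rw [hh₂ z, hleft z hz]
        ring
      · intro z hz
        exact hoff z fun h5 => absurd h5.2 (not_le.2 hz)

end

end Pool.Agent.Lib.MP478c11.DB
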