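import Pool.Agent.Lib.MP_478c11_gt.DB.Many

/-! # Module POS: spheres of revolution without necks. The maximum principle with the barrier
`- log (z - a) - log (b - z)`. (`mxp` is a copy of module MXP.) -/

set_option autoImplicit false

namespace Pool.Agent.Lib.MP478c11.DB

open Set Filter Topology MeasureTheory
open scoped ContDiff

namespace POSM

/-- a function with a zero and a positive derivative is positive just to the right -/
lemma pos_right {ψ : ℝ → ℝ} {z d : ℝ} (h : HasDerivAt ψ d z) (hd : 0 < d) (h0 : ψ z = 0) :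
    ∃ e : ℝ, z < e ∧ ∀ t ∈ Ioo z e, 0 < ψ t := by
  have h1 := hasDerivAt_iff_tendsto_slope.mp h
  have h2 : ∀ᶠ t in 𝓝[≠] z, 0 < slope ψ z t := h1.eventually (lt_mem_nhds hd)
  have h3 : ∀ᶠ t in 𝓝[>] z, 0 < slope ψ z t :=
    h2.filter_mono (nhdsWithin_mono z (fun t ht => ne_of_gt ht))
  obtain ⟨e, he, hs⟩ := mem_nhdsGT_iff_exists_Ioo_subset.mp h3
  refine ⟨e, he, fun t ht => ?_⟩
  have h4 : 0 < slope ψ z t := hs ht
  rw [slope_def_field, h0, sub_zero] at h4
  have h5 : 0 < t - z := sub_pos.mpr ht.1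
  exact (div_pos_iff_of_pos_right h5).mp h4

theorem mxp : SpecMXP := by
  intro a p h φ ψ hap hh hφ hψ hc hp ⟨a', ha', hle⟩ z₁ hz₁
  by_contra hcon
  have hpos : 0 < φ z₁ := not_le.mp hcon
  have hz1p : z₁ ≠ p := by
    intro h
    rw [h] at hpos
    exact absurd hpos (not_lt.mpr hp)
  have hz1a : a' ≤ z₁ := by
    by_contra h
    exact hcon (hle z₁ ⟨hz₁.1, not_le.mp h⟩)
  have hz1lt : z₁ < p := lt_of_le_of_ne hz₁.2 hz1p
  -- a point to the left
  obtain ⟨a'', h1, h2⟩ := exists_between ha'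
  have h3 : a'' < z₁ := lt_of_lt_of_le h2 hz1a
  have h4 : φ a'' ≤ 0 := hle a'' ⟨h1, h2⟩
  have hsub : Icc a'' p ⊆ Ioc a p := fun t ht => ⟨lt_of_lt_of_le h1 ht.1, ht.2⟩
  obtain ⟨z₀, hz₀, hmax⟩ := isCompact_Icc.exists_isMaxOn
    (⟨z₁, h3.le, hz₁.2⟩ : (Icc a'' p).Nonempty) (hc.mono hsub)
  have h5 : φ z₁ ≤ φ z₀ := hmax ⟨h3.le, hz₁.2⟩
  have h6 : 0 < φ z₀ := lt_of_lt_of_le hpos h5
  have h7 : a'' < z₀ := by
    refine lt_of_le_of_ne hz₀.1 fun h => ?_
    rw [← h] at h6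
    exact absurd h6 (not_lt.mpr h4)
  have h8 : z₀ < p := by
    refine lt_of_le_of_ne hz₀.2 fun h => ?_
    rw [h] at h6
    exact absurd h6 (not_lt.mpr hp)
  have h9 : z₀ ∈ Ioo a p := ⟨h1.trans h7, h8⟩
  have h10 : IsLocalMax φ z₀ := hmax.isLocalMax (Icc_mem_nhds h7 h8)
  have h11 : ψ z₀ / h z₀ = 0 := h10.hasDerivAt_eq_zero (hφ z₀ h9)
  have h12 : ψ z₀ = 0 := by
    rcases div_eq_zero_iff.mp h11 with h | h
    · exact h
    · exact absurd h (hh z₀ h9).ne'
  obtain ⟨d, hd, hdψ⟩ := hψ z₀ h9 h6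
  obtain ⟨e, he, hpos⟩ := pos_right hdψ hd h12
  obtain ⟨r, hr1, hr2⟩ := exists_between (lt_min he h8)
  have hr3 : r < e := lt_of_lt_of_le hr2 (min_le_left _ _)
  have hr4 : r < p := lt_of_lt_of_le hr2 (min_le_right _ _)
  have hmono : StrictMonoOn φ (Icc z₀ r) := by
    refine strictMonoOn_of_deriv_pos (convex_Icc _ _) ?_ ?_
    · exact hc.mono fun t ht => ⟨lt_of_lt_of_le h9.1 ht.1, ht.2.trans hr4.le⟩
    · intro t ht
      rw [interior_Icc] at ht
      have ht' : t ∈ Ioo a p := ⟨h9.1.trans ht.1, ht.2.trans hr4⟩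
      rw [(hφ t ht').deriv]
      exact div_pos (hpos t ⟨ht.1, ht.2.trans hr3⟩) (hh t ht')
  have h13 : φ z₀ < φ r := hmono ⟨le_rfl, hr1.le⟩ ⟨hr1.le, le_rfl⟩ hr1
  have h14 : φ r ≤ φ z₀ := hmax ⟨(h7.trans hr1).le, hr4.le⟩
  exact absurd h13 (not_lt.mpr h14)


/-- the barrier -/
noncomputable def G (a b z : ℝ) : ℝ := (Real.log (b - a) - Real.log (z - a)) + (Real.log (b - a) - Real.log (b - z))

lemma G_nonneg {a b z : ℝ} (h1 : a < z) (h2 : z < b) : 0 ≤ G a b z := by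
  unfold G
  have e1 : Real.log (z - a) ≤ Real.log (b - a) := Real.log_le_log (by linarith) (by linarith)
  have e2 : Real.log (b - z) ≤ Real.log (b - a) := Real.log_le_log (by linarith) (by linarith)
  linarith

lemma G_large {a b z m : ℝ} (h1 : a < z) (h2 : z < b)
    (hz : z - a ≤ (b - a) * Real.exp (-m) ∨ b - z ≤ (b - a) * Real.exp (-m)) : m ≤ G a b z := by
  unfold G
  have hba : 0 < b - a := by linarith
  have e1 : Real.log (z - a) ≤ Real.log (b - a) := Real.log_le_log (by linarith) (by linarith)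
  have e2 : Real.log (b - z) ≤ Real.log (b - a) := Real.log_le_log (by linarith) (by linarith)
  have e3 : Real.log ((b - a) * Real.exp (-m)) = Real.log (b - a) - m := by
    rw [Real.log_mul hba.ne' (Real.exp_pos _).ne', Real.log_exp]
    ring
  rcases hz with hz | hz
  · have e4 := Real.log_le_log (by linarith) hz
    linarith
  · have e4 := Real.log_le_log (by linarith) hz
    linarith

/-- the main step: the bound for `y` -/
lemma bound {h : ℝ → ℝ} {a b : ℝ} (hD : Sph h a b) {w₀ C : ℝ} (hw₀ : 0 < w₀) (hww : ∀ z ∈ Icc a b, w₀ ≤ W h z)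
    (hC : 0 < C) (hd : ∀ z ∈ Icc a b, |deriv h z| ≤ C) (hle1 : ∀ x ∈ Ioo a b, h x ≤ C * (b - x))
    (hle2 : ∀ x ∈ Ioo a b, h x ≤ C * (x - a)) (n : ℕ) (hn : 1 ≤ n) (F y v : ℝ → ℝ) (R M : ℝ)
    (hS : Sys h n F y v (Ioo a b)) (hB : ∀ z ∈ Ioo a b, |F z| ≤ R ∧ |y z| ≤ M) (s : ℝ) (hs : s = 1 ∨ s = -1)
    (ε : ℝ) (hε : 0 < ε) (z₁ : ℝ) (hz₁ : z₁ ∈ Ioo a b) :
    s * y z₁ ≤ R / w₀ + ε * (G a b z₁ + 3 * C ^ 2 / w₀) := by
  have hR : 0 ≤ R := (abs_nonneg _).trans (hB z₁ hz₁).1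
  have hM : 0 ≤ M := (abs_nonneg _).trans (hB z₁ hz₁).2
  have hba : 0 < b - a := by linarith [hz₁.1, hz₁.2]
  have hRw : 0 ≤ R / w₀ := div_nonneg hR hw₀.le
  have hKw : 0 ≤ 3 * C ^ 2 / w₀ := by positivity
  have hsy : ∀ z ∈ Ioo a b, s * y z ≤ M := by
    intro z hz
    have h1 := abs_le.1 (hB z hz).2
    rcases hs with rfl | rfl <;> linarith [h1.1, h1.2]
  have hsF : ∀ z ∈ Ioo a b, -R ≤ s * F z := by
    intro z hz
    have h1 := abs_le.1 (hB z hz).1
    rcases hs with rfl | rfl <;> linarith [h1.1, h1.2]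
  have hdiff : Differentiable ℝ h := hD.smooth.differentiable (by simp)
  set φ : ℝ → ℝ := fun z => s * y z - R / w₀ - ε * (G a b z + 3 * C ^ 2 / w₀) with hφd
  set ψ : ℝ → ℝ := fun z => s * v z - ε * (h z * (-(1 / (z - a)) + 1 / (b - z))) with hψd
  have hnear : ∀ z ∈ Ioo a b, (z - a ≤ (b - a) * Real.exp (-(M / ε)) ∨ b - z ≤ (b - a) * Real.exp (-(M / ε))) → φ z ≤ 0 := by
    intro z hz hzz
    have h1 := G_large hz.1 hz.2 hzz
    have h2 := hsy z hz
    have h3 : M ≤ ε * G a b z := by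
      rw [div_le_iff₀ hε] at h1
      linarith
    have h4 : 0 ≤ ε * (3 * C ^ 2 / w₀) := by positivity
    simp only [hφd]
    rw [mul_add]
    linarith
  have hφ : ∀ z ∈ Ioo a b, HasDerivAt φ (ψ z / h z) z := by
    intro z hz
    have hh : 0 < h z := hD.pos z hz.1 hz.2
    have hza : z - a ≠ 0 := by linarith [hz.1]
    have hbz : b - z ≠ 0 := by linarith [hz.2]
    have h1 : HasDerivAt (fun z => Real.log (z - a)) (1 / (z - a)) z := by
      have := ((hasDerivAt_id z).sub_const a).log hza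
      simpa using this
    have h2 : HasDerivAt (fun z => Real.log (b - z)) (-1 / (b - z)) z := by
      have := ((hasDerivAt_id z).const_sub b).log hbz
      simpa using this
    have h3 : HasDerivAt (G a b) ((0 - 1 / (z - a)) + (0 - -1 / (b - z))) z :=
      ((hasDerivAt_const z (Real.log (b - a))).sub h1).add ((hasDerivAt_const z (Real.log (b - a))).sub h2)
    have h4 : HasDerivAt φ (s * (v z / h z) - ε * ((0 - 1 / (z - a)) + (0 - -1 / (b - z)))) z := by
      have h5 := ((hS z hz).1.const_mul s).sub_const (R / w₀)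
      exact h5.sub ((h3.add_const (3 * C ^ 2 / w₀)).const_mul ε)
    refine h4.congr_deriv ?_
    simp only [hψd]
    field_simp
    ring
  have hψ : ∀ z ∈ Ioo a b, 0 < φ z → ∃ d : ℝ, 0 < d ∧ HasDerivAt ψ d z := by
    intro z hz hpos
    have hh : 0 < h z := hD.pos z hz.1 hz.2
    have hza : 0 < z - a := by linarith [hz.1]
    have hbz : 0 < b - z := by linarith [hz.2]
    have h1 : HasDerivAt (fun z : ℝ => 1 / (z - a)) (-1 / (z - a) ^ 2) z := by
      have h0 : HasDerivAt (fun x : ℝ => (x - a)⁻¹) (-1 / (z - a) ^ 2) z := ((hasDerivAt_id z).sub_const a).inv hza.ne'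
      simpa only [one_div] using h0
    have h2 : HasDerivAt (fun z : ℝ => 1 / (b - z)) (1 / (b - z) ^ 2) z := by
      have h0 : HasDerivAt (fun x : ℝ => (b - x)⁻¹) (-(-1) / (b - z) ^ 2) z := ((hasDerivAt_id z).const_sub b).inv hbz.ne'
      rw [neg_neg] at h0
      simpa only [one_div] using h0
    have h3 : HasDerivAt (fun z : ℝ => -(1 / (z - a)) + 1 / (b - z)) (-(-1 / (z - a) ^ 2) + 1 / (b - z) ^ 2) z :=
      h1.neg.add h2
    have h4 := ((hdiff z).hasDerivAt).mul h3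
    have h5 := ((hS z hz).2.const_mul s).sub (h4.const_mul ε)
    refine ⟨_, ?_, h5⟩
    -- the sign
    have hα0 : 0 ≤ h z / (z - a) := by positivity
    have hβ0 : 0 ≤ h z / (b - z) := by positivity
    have hα : h z / (z - a) ≤ C := by rw [div_le_iff₀ hza]; exact hle2 z hz
    have hβ : h z / (b - z) ≤ C := by rw [div_le_iff₀ hbz]; exact hle1 z hz
    have hdz := abs_le.1 (hd z ⟨hz.1.le, hz.2.le⟩)
    have hprod : deriv h z * (h z / (b - z) - h z / (z - a)) ≤ C ^ 2 := by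
      have h6 : |deriv h z * (h z / (b - z) - h z / (z - a))| ≤ C * C := by
        rw [abs_mul]
        refine mul_le_mul (hd z ⟨hz.1.le, hz.2.le⟩) ?_ (abs_nonneg _) hC.le
        rw [abs_le]
        constructor <;> linarith
      have h7 := (abs_le.1 h6).2
      nlinarith
    have hsq1 : (h z / (z - a)) ^ 2 ≤ C ^ 2 := pow_le_pow_left₀ hα0 hα 2
    have hsq2 : (h z / (b - z)) ^ 2 ≤ C ^ 2 := pow_le_pow_left₀ hβ0 hβ 2
    have hWz := hww z ⟨hz.1.le, hz.2.le⟩
    have hG := G_nonneg hz.1 hz.2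
    have hφz : R / w₀ + ε * (3 * C ^ 2 / w₀) < s * y z := by
      simp only [hφd] at hpos
      have h8 : 0 ≤ ε * G a b z := by positivity
      rw [mul_add] at hpos
      linarith
    have hsy0 : 0 < s * y z := lt_of_le_of_lt (by positivity) hφz
    have hn1 : (1 : ℝ) ≤ (n : ℝ) ^ 2 := by
      have : (1 : ℝ) ≤ n := by exact_mod_cast hn
      nlinarith
    have hmain : R + ε * (3 * C ^ 2) < (n : ℝ) ^ 2 * W h z * (s * y z) := by
      have h9 : R + ε * (3 * C ^ 2) = w₀ * (R / w₀ + ε * (3 * C ^ 2 / w₀)) := by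
        field_simp
      have h10 : w₀ * (R / w₀ + ε * (3 * C ^ 2 / w₀)) < w₀ * (s * y z) := mul_lt_mul_of_pos_left hφz hw₀
      have h11 : w₀ * (s * y z) ≤ (n : ℝ) ^ 2 * W h z * (s * y z) := by
        refine mul_le_mul_of_nonneg_right ?_ hsy0.le
        nlinarith
      linarith
    have hF := hsF z hz
    have hkey : 0 < s * ((n : ℝ) ^ 2 * W h z * y z + F z) -
        ε * (deriv h z * (h z / (b - z) - h z / (z - a)) + ((h z / (z - a)) ^ 2 + (h z / (b - z)) ^ 2)) := by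
      have h12 : ε * (deriv h z * (h z / (b - z) - h z / (z - a)) + ((h z / (z - a)) ^ 2 + (h z / (b - z)) ^ 2)) ≤
          ε * (3 * C ^ 2) := mul_le_mul_of_nonneg_left (by linarith) hε.le
      have h13 : s * ((n : ℝ) ^ 2 * W h z * y z + F z) = (n : ℝ) ^ 2 * W h z * (s * y z) + s * F z := by ring
      rw [h13]
      linarith
    have hfin := div_pos hkey hh
    refine lt_of_lt_of_eq hfin ?_
    field_simp
    ring
  by_contra hcon
  push Not at hcon
  have hφ1 : 0 < φ z₁ := by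
    simp only [hφd]
    linarith
  set r : ℝ := min ((b - a) * Real.exp (-(M / ε))) ((b - z₁) / 2) with hr
  have hE0 : 0 < Real.exp (-(M / ε)) := Real.exp_pos _
  have hE1 : Real.exp (-(M / ε)) ≤ 1 := by
    rw [Real.exp_le_one_iff]
    have : 0 ≤ M / ε := by positivity
    linarith
  have hr0 : 0 < r := lt_min (by positivity) (by linarith [hz₁.2])
  have hr1 : r ≤ (b - z₁) / 2 := min_le_right _ _
  have hr2 : r ≤ (b - a) * Real.exp (-(M / ε)) := min_le_left _ _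
  have hp : b - r ∈ Ioo a b := ⟨by linarith [hz₁.1, hz₁.2], by linarith⟩
  have hlt : z₁ < b - r := by linarith [hz₁.2]
  have hfinal := mxp a (b - r) h φ ψ hp.1 (fun z hz => hD.pos z hz.1 (hz.2.trans hp.2))
    (fun z hz => hφ z ⟨hz.1, hz.2.trans hp.2⟩) (fun z hz h0 => hψ z ⟨hz.1, hz.2.trans hp.2⟩ h0)
    (fun z hz => (hφ z ⟨hz.1, lt_of_le_of_lt hz.2 hp.2⟩).continuousAt.continuousWithinAt)
    (hnear (b - r) hp (Or.inr (by linarith)))
    ⟨a + (b - a) * Real.exp (-(M / ε)), by linarith [mul_pos hba hE0], fun z hz => hnear z ⟨hz.1, ?_⟩ (Or.inl ?_)⟩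
    z₁ ⟨hz₁.1, hlt.le⟩
  · exact absurd hφ1 (not_lt.2 hfinal)
  · have h1 := hz.2
    nlinarith
  · have h1 := hz.2
    linarith

end POSM

open POSM

theorem specPOS (hVBS : SpecVBS) : SpecPOS := by
  intro h a b hD hW
  obtain ⟨CV, hCV, hV⟩ := hVBS h a b hD
  have hab := hD.ab
  have hsm := hD.smooth
  have hdiff : Differentiable ℝ h := hsm.differentiable (by simp)
  have hd1 : ContDiff ℝ ∞ (deriv h) := (contDiff_infty_iff_deriv.1 hsm).2
  have hd2 : ContDiff ℝ ∞ (deriv (deriv h)) := (contDiff_infty_iff_deriv.1 hd1).2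
  have hWc : Continuous (W h) := by
    unfold W
    exact ((hd1.continuous.pow 2).div_const 4).sub
      ((hsm.continuous.mul hd2.continuous).div_const 2)
  obtain ⟨w₀, hw₀, hww⟩ : ∃ w₀ : ℝ, 0 < w₀ ∧ ∀ z ∈ Icc a b, w₀ ≤ W h z := by
    obtain ⟨z0, hz0, hmin⟩ := isCompact_Icc.exists_isMinOn (nonempty_Icc.2 hab.le) hWc.continuousOn
    exact ⟨W h z0, hW z0 hz0, fun z hz => hmin hz⟩
  obtain ⟨K0, hK0⟩ := isCompact_Icc.exists_bound_of_continuousOn
    (hd1.continuous.continuousOn : ContinuousOn (deriv h) (Icc a b))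
  set C : ℝ := max K0 1 with hCdef
  have hC : 0 < C := lt_of_lt_of_le one_pos (le_max_right _ _)
  have hd : ∀ z ∈ Icc a b, |deriv h z| ≤ C := fun z hz => (hK0 z hz).trans (le_max_left _ _)
  have hle1 : ∀ x ∈ Ioo a b, h x ≤ C * (b - x) := by
    intro x hx
    have h1 := (convex_Icc a b).norm_image_sub_le_of_norm_deriv_le (f := h) (C := C)
      (fun t _ => hdiff t) (fun t ht => (hK0 t ht).trans (le_max_left _ _))
      (right_mem_Icc.2 hab.le) (⟨hx.1.le, hx.2.le⟩ : x ∈ Icc a b)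
    rw [hD.hb, sub_zero, Real.norm_eq_abs, Real.norm_eq_abs, abs_sub_comm x b,
      abs_of_pos (sub_pos.2 hx.2)] at h1
    exact (le_abs_self _).trans h1
  have hle2 : ∀ x ∈ Ioo a b, h x ≤ C * (x - a) := by
    intro x hx
    have h1 := (convex_Icc a b).norm_image_sub_le_of_norm_deriv_le (f := h) (C := C)
      (fun t _ => hdiff t) (fun t ht => (hK0 t ht).trans (le_max_left _ _))
      (left_mem_Icc.2 hab.le) (⟨hx.1.le, hx.2.le⟩ : x ∈ Icc a b)
    rw [hD.ha, sub_zero, Real.norm_eq_abs, Real.norm_eq_abs,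
      abs_of_pos (sub_pos.2 hx.1)] at h1
    exact (le_abs_self _).trans h1
  refine ⟨1 / w₀ + CV * (1 / w₀ + 1) + 1, 2, by positivity, ?_⟩
  intro n hn F y v R M hS hB
  have hy : ∀ z ∈ Ioo a b, |y z| ≤ R / w₀ := by
    intro z hz
    have hG := G_nonneg hz.1 hz.2
    have hD0 : 0 < G a b z + 3 * C ^ 2 / w₀ + 1 := by positivity
    have hone : ∀ s : ℝ, (s = 1 ∨ s = -1) → s * y z ≤ R / w₀ := by
      intro s hs
      refine le_of_forall_pos_le_add fun δ hδ => ?_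
      have h1 := bound hD hw₀ hww hC hd hle1 hle2 n (by omega) F y v R M hS hB s hs
        (δ / (G a b z + 3 * C ^ 2 / w₀ + 1)) (by positivity) z hz
      have h2 : δ / (G a b z + 3 * C ^ 2 / w₀ + 1) * (G a b z + 3 * C ^ 2 / w₀) ≤ δ := by
        rw [div_mul_eq_mul_div, div_le_iff₀ hD0]
        nlinarith
      linarith
    rw [abs_le]
    constructor
    · have := hone (-1) (Or.inr rfl)
      linarith
    · have := hone 1 (Or.inl rfl)
      linarith
  intro z hz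
  have hR : 0 ≤ R := (abs_nonneg _).trans (hB z hz).1
  have hn1 : (1 : ℝ) ≤ (n : ℝ) ^ 2 := by
    have : (2 : ℝ) ≤ n := by exact_mod_cast hn
    nlinarith
  have hv := hV n (by omega) F y v R (R / w₀) hS (fun z hz => ⟨(hB z hz).1, hy z hz⟩) z hz
  have hRn : R ≤ (n : ℝ) ^ 2 * R := by nlinarith
  have e1 : 0 ≤ 1 / w₀ * ((n : ℝ) ^ 2 * R) := by positivity
  have e2 : 0 ≤ CV * (1 / w₀ + 1) * ((n : ℝ) ^ 2 * R) := by positivity
  have e3 : 0 ≤ (n : ℝ) ^ 2 * R := by positivity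
  have hexp : (1 / w₀ + CV * (1 / w₀ + 1) + 1) * (n : ℝ) ^ 2 * R =
      1 / w₀ * ((n : ℝ) ^ 2 * R) + CV * (1 / w₀ + 1) * ((n : ℝ) ^ 2 * R) + (n : ℝ) ^ 2 * R := by ring
  constructor
  · have h1 : R / w₀ ≤ 1 / w₀ * ((n : ℝ) ^ 2 * R) := by
      rw [div_eq_mul_one_div, mul_comm R]
      exact mul_le_mul_of_nonneg_left hRn (by positivity)
    have h2 := hy z hz
    rw [hexp]
    linarith
  · have h1 : CV * ((n : ℝ) ^ 2 * (R / w₀) + R) ≤ CV * (1 / w₀ + 1) * ((n : ℝ) ^ 2 * R) := by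
      rw [mul_assoc]
      refine mul_le_mul_of_nonneg_left ?_ hCV.le
      have h3 : (n : ℝ) ^ 2 * (R / w₀) = 1 / w₀ * ((n : ℝ) ^ 2 * R) := by ring
      rw [h3, add_mul, one_mul]
      linarith
    rw [hexp]
    linarith

end Pool.Agent.Lib.MP478c11.DB
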