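import Pool.Agent.Lib.MP_478c11_gt.DB.Many

/-!
# MP_478c11_gt, module SMV: finitely many conditions on the left solutions
-/

set_option autoImplicit false

namespace Pool.Agent.Lib.MP478c11.DB

open Set Filter Topology MeasureTheory
open scoped ContDiff

noncomputable section

namespace SMVM

theorem near_self {h : ℝ → ℝ} {a p q b s : ℝ} (hD : Dumb h a p q b) (hs : p < s) (N : ℕ)
    {δ : ℝ} (hδ : 0 < δ) : Near h h a p q b s N δ := by
  refine ⟨hD, ⟨p + (s - p) / 3, p + 2 * (s - p) / 3, by linarith, by linarith, by linarith,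
    fun z _ => rfl⟩, fun i _ z => ?_⟩
  have e : (fun z => h z - h z) = fun _ : ℝ => (0 : ℝ) := by
    funext z
    exact sub_self _
  rw [e]
  have h1 : iteratedDeriv i (fun _ : ℝ => (0 : ℝ)) z = 0 := by
    rw [iteratedDeriv_const]
    split_ifs <;> rfl
  rw [h1, abs_zero]
  exact hδ.le

theorem near_mono {h h₁ : ℝ → ℝ} {a p q b s : ℝ} {N : ℕ} {δ δ' : ℝ} (hδ : δ ≤ δ')
    (hN : Near h h₁ a p q b s N δ) : Near h h₁ a p q b s N δ' :=
  ⟨hN.1, hN.2.1, fun i hi z => (hN.2.2 i hi z).trans hδ⟩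

theorem pert_zero (h κ : ℝ → ℝ) (μ z : ℝ) (hz : κ z = 0) : pert h κ μ z = h z := by
  unfold pert
  rw [hz]
  ring

theorem pert_zero' (h : ℝ → ℝ) : pert h (fun _ => 0) 0 = h := by
  funext z
  exact pert_zero h _ 0 z rfl

theorem bump_zero (c d : ℝ) : Bump (fun _ => 0) c d := ⟨contDiff_const, fun _ _ => rfl⟩

/-- the condition does not depend on the choice of the solution -/
theorem cond_ne (hCTV : SpecCTV) {h : ℝ → ℝ} {a p q b : ℝ} (hD : Dumb h a p q b) (n : ℕ)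
    (e f : ℝ) (hn : 1 ≤ n) {Y V : ℝ → ℝ} (hY : LeftSol h a p b n Y V)
    (hne : Y q * f - V q * e ≠ 0) : ∀ Y₁ V₁ : ℝ → ℝ, LeftSol h a p b n Y₁ V₁ →
      Y₁ q * f - V₁ q * e ≠ 0 := by
  have hpq := hD.pq
  obtain ⟨μ₀, hμ₀, hall⟩ := hCTV h (fun _ => 0) a p q b (p + (q - p) / 3) (p + 2 * (q - p) / 3) hD
    (by linarith) (by linarith) (by linarith) (bump_zero _ _) n e f hn Y V hY hne
  have h1 := hall 0 (by rw [abs_zero]; exact hμ₀.le)
  rw [pert_zero'] at h1
  exact h1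

/-- finitely many conditions are kept -/
theorem fin_cond (hLEX : SpecLEX) (hCTV : SpecCTV) {h κ : ℝ → ℝ}
    {a p q b c d : ℝ} (hD : Dumb h a p q b) (hc : p < c) (hcd : c < d) (hd : d < q)
    (hκ : Bump κ c d) (T : Finset (ℕ × ℝ × ℝ)) (hT : ∀ t ∈ T, 2 ≤ t.1)
    (hn : ∀ t ∈ T, ∀ Y V : ℝ → ℝ, LeftSol h a p b t.1 Y V → Y q * t.2.2 - V q * t.2.1 ≠ 0) :
    ∃ μ₁ : ℝ, 0 < μ₁ ∧ ∀ t ∈ T, ∀ μ : ℝ, |μ| ≤ μ₁ → ∀ Y V : ℝ → ℝ,
      LeftSol (pert h κ μ) a p b t.1 Y V → Y q * t.2.2 - V q * t.2.1 ≠ 0 := by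
  classical
  induction T using Finset.induction_on with
  | empty => exact ⟨1, one_pos, fun t ht => absurd ht (Finset.notMem_empty t)⟩
  | insert t T _ ih =>
    obtain ⟨μ₁, hμ₁, h1⟩ := ih (fun t' ht' => hT t' (Finset.mem_insert_of_mem ht'))
      fun t' ht' => hn t' (Finset.mem_insert_of_mem ht')
    have ht2 := hT t (Finset.mem_insert_self t T)
    obtain ⟨Y, V, hY⟩ := hLEX h a p q b hD t.1 (by omega)
    obtain ⟨μ₂, hμ₂, h2⟩ := hCTV h κ a p q b c d hD hc hcd hd hκ t.1 t.2.1 t.2.2 (by omega) Y V hY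
      (hn t (Finset.mem_insert_self t T) Y V hY)
    refine ⟨min μ₁ μ₂, lt_min hμ₁ hμ₂, fun t' ht' μ hμ => ?_⟩
    rcases Finset.mem_insert.1 ht' with rfl | ht''
    · exact h2 μ (hμ.trans (min_le_right _ _))
    · exact h1 t' ht'' μ (hμ.trans (min_le_left _ _))

end SMVM

open SMVM in
theorem specSMV (hLEX : SpecLEX) (hPD : SpecPD) (hCTV : SpecCTV) (hSTV : SpecSTV) : SpecSMV := by
  classical
  intro T h a p q b s hD hps hsq hT N
  induction T using Finset.induction_on with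
  | empty =>
    intro δ hδ
    exact ⟨h, near_self hD hps N hδ, fun t ht => absurd ht (Finset.notMem_empty t)⟩
  | insert t T _ ih =>
    intro δ hδ
    obtain ⟨h₁, hN, h1⟩ := ih (fun t' ht' => hT t' (Finset.mem_insert_of_mem ht')) (δ / 2)
      (by linarith)
    have hD₁ : Dumb h₁ a p q b := hN.1
    obtain ⟨ht2, htne⟩ := hT t (Finset.mem_insert_self t T)
    obtain ⟨Y, V, hY⟩ := hLEX h₁ a p q b hD₁ t.1 (by omega)
    by_cases hW : Y q * t.2.2 - V q * t.2.1 = 0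
    · obtain ⟨κ, c', d', μ₀, hc', hcd', hd', hdq', hκ, hμ₀, h2⟩ :=
        hSTV h₁ a p q b s hD₁ hps t.1 t.2.1 t.2.2 ht2 htne Y V hY hW
      obtain ⟨μ₁, hμ₁, h3⟩ := fin_cond hLEX hCTV hD₁ hc' hcd' hdq' hκ T
        (fun t' ht' => (hT t' (Finset.mem_insert_of_mem ht')).1) h1
      obtain ⟨μ₂, hμ₂, h4⟩ := hPD h₁ κ a p q b c' d' hD₁ hc' hcd' hdq' hκ N (δ / 2)
        (by linarith)
      obtain ⟨μ, hμ⟩ : ∃ μ : ℝ, μ = min μ₀ (min μ₁ μ₂) := ⟨_, rfl⟩
      have hμp : 0 < μ := by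
        rw [hμ]
        exact lt_min hμ₀ (lt_min hμ₁ hμ₂)
      have hμa : |μ| = μ := abs_of_pos hμp
      have hle0 : μ ≤ μ₀ := by
        rw [hμ]
        exact min_le_left _ _
      have hle1 : |μ| ≤ μ₁ := by
        rw [hμa, hμ]
        exact (min_le_right _ _).trans (min_le_left _ _)
      have hle2 : |μ| ≤ μ₂ := by
        rw [hμa, hμ]
        exact (min_le_right _ _).trans (min_le_right _ _)
      obtain ⟨hD₂, -, hsm, hit⟩ := h4 μ hle2
      refine ⟨pert h₁ κ μ, ⟨hD₂, ?_, ?_⟩, ?_⟩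
      · obtain ⟨c, d, hc, hcd, hd, he⟩ := hN.2.1
        refine ⟨min c c', max d d', lt_min hc hc', ?_, max_lt hd hd', fun z hz => ?_⟩
        · exact (min_le_left _ _).trans_lt (hcd.trans_le (le_max_left _ _))
        · have hz1 : z ∉ Icc c d := fun h5 =>
            hz ⟨(min_le_left _ _).trans h5.1, h5.2.trans (le_max_left _ _)⟩
          have hz2 : z ∉ Icc c' d' := fun h5 =>
            hz ⟨(min_le_right _ _).trans h5.1, h5.2.trans (le_max_right _ _)⟩
          rw [pert_zero h₁ κ μ z (hκ.2 z hz2), he z hz1]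
      · intro i hi z
        have e : (fun z => pert h₁ κ μ z - h z) =
            fun z => (pert h₁ κ μ z - h₁ z) + (h₁ z - h z) := by
          funext z
          ring
        have hs1 : ContDiffAt ℝ i (fun z => pert h₁ κ μ z - h₁ z) z :=
          ((hsm.sub hD₁.smooth).of_le (by exact_mod_cast le_top)).contDiffAt
        have hs2 : ContDiffAt ℝ i (fun z => h₁ z - h z) z :=
          ((hD₁.smooth.sub hD.smooth).of_le (by exact_mod_cast le_top)).contDiffAt
        rw [e, iteratedDeriv_fun_add hs1 hs2]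
        have h5 := hit i hi z
        have h6 := hN.2.2 i hi z
        calc |iteratedDeriv i (fun z => pert h₁ κ μ z - h₁ z) z +
              iteratedDeriv i (fun z => h₁ z - h z) z| ≤ _ := abs_add_le _ _
          _ ≤ δ := by linarith
      · intro t' ht'
        rcases Finset.mem_insert.1 ht' with rfl | ht''
        · exact h2 μ hμp hle0
        · exact h3 t' ht'' μ hle1
    · refine ⟨h₁, near_mono (by linarith) hN, fun t' ht' => ?_⟩
      rcases Finset.mem_insert.1 ht' with rfl | ht''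
      · exact cond_ne hCTV hD₁ t'.1 t'.2.1 t'.2.2 (by omega) hY hW
      · exact h1 t' ht''

end

end Pool.Agent.Lib.MP478c11.DB
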