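import Pool.Agent.Lib.MP_478c11_gt.DB.Many

/-!
# Module STP: transplantation of a perturbation of a dumbbell
-/

set_option autoImplicit false

namespace Pool.Agent.Lib.MP478c11.DB

open Set Filter Topology MeasureTheory
open scoped ContDiff

noncomputable section

namespace STPM

theorem W_ev {f g : ℝ → ℝ} {z : ℝ} (h : g =ᶠ[𝓝 z] f) : W g =ᶠ[𝓝 z] W f := by
  filter_upwards [h, h.deriv, h.deriv.deriv] with t h1 h2 h3
  unfold W
  rw [h1, h2, h3]

theorem W_eq {f g : ℝ → ℝ} {z : ℝ} (h : g =ᶠ[𝓝 z] f) : W g z = W f z := (W_ev h).eq_of_nhds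

theorem dW_eq {f g : ℝ → ℝ} {z : ℝ} (h : g =ᶠ[𝓝 z] f) : deriv (W g) z = deriv (W f) z := (W_ev h).deriv_eq

theorem order {h : ℝ → ℝ} {a b : ℝ} {k : ℕ} {p q : ℕ → ℝ} (hM : Many h a b k p q) (i : ℕ) :
    ∀ i' : ℕ, i < i' → i' < k → q i < p i' := by
  intro i' hi
  induction i', hi using Nat.le_induction with
  | base => exact fun hk => hM.qp i hk
  | succ m hm ih =>
    intro hk
    have h1 := ih (by omega)
    have h2 := (hM.pq m (by omega)).2.1
    have h3 := hM.qp m hk
    linarith

end STPM

open STPM in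
theorem specSTP : SpecSTP := by
  intro h a b k p q hM j hj h' h'' a' b' η δ N hη hD' ha'η hb'η haη hbη heq hNear g hg
  obtain ⟨hD'', ⟨c, d, hpc, hcd, hdq, hoff⟩, hder⟩ := hNear
  have hS := hM.sph
  -- `g` off `[c, d]` and near the neck
  have goff : ∀ z, z ∉ Icc c d → g z = h z := by
    intro z hz
    rw [hg z, hoff z hz, sub_self, add_zero]
  have gin : ∀ z ∈ Icc (p j - η) (q j + η), g z = h'' z := by
    intro z hz
    rw [hg z, heq z hz]
    ring
  have evoff : ∀ z, z ∉ Icc c d → g =ᶠ[𝓝 z] h := by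
    intro z hz
    filter_upwards [isClosed_Icc.isOpen_compl.mem_nhds hz] with t ht using goff t ht
  have evin : ∀ z ∈ Ioo (p j - η) (q j + η), g =ᶠ[𝓝 z] h'' := by
    intro z hz
    filter_upwards [Ioo_mem_nhds hz.1 hz.2] with t ht using gin t ⟨ht.1.le, ht.2.le⟩
  have hpqj := hM.pq j hj
  have hgsm : ContDiff ℝ ∞ g := by
    have h1 : g = fun z => h z + (h'' z - h' z) := funext hg
    rw [h1]
    exact hS.smooth.add (hD''.smooth.sub hD'.smooth)
  have haoff : a ∉ Icc c d := fun hz => by have := hz.1; linarith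
  have hboff : b ∉ Icc c d := fun hz => by have := hz.2; linarith
  have hSg : Sph g a b := by
    refine ⟨hgsm, hS.ab, ?_, ?_, ?_, ?_, ?_⟩
    · rw [goff a haoff, hS.ha]
    · rw [goff b hboff, hS.hb]
    · intro z hz1 hz2
      by_cases hz : z ∈ Icc c d
      · rw [gin z ⟨by have := hz.1; linarith, by have := hz.2; linarith⟩]
        exact hD''.pos z (by have := hz.1; linarith) (by have := hz.2; linarith)
      · rw [goff z hz]
        exact hS.pos z hz1 hz2
    · rw [(evoff a haoff).deriv_eq]
      exact hS.da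
    · rw [(evoff b hboff).deriv_eq]
      exact hS.db
  -- the other necks do not meet `[c, d]`
  have hother : ∀ i < k, i ≠ j → q i < c ∨ d < p i := by
    intro i hi hij
    rcases lt_or_gt_of_ne hij with h1 | h1
    · left
      have := order hM i j h1 hj
      linarith
    · right
      have := order hM j i h1 hi
      linarith
  have hneck : ∀ i < k, i ≠ j → ∀ z ∈ Icc (p i) (q i), z ∉ Icc c d := by
    intro i hi hij z hz hz'
    rcases hother i hi hij with h1 | h1
    · have := hz.2
      have := hz'.1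
      linarith
    · have := hz.1
      have := hz'.2
      linarith
  have hinIoo : ∀ z ∈ Icc (p j) (q j), z ∈ Ioo (p j - η) (q j + η) := fun z hz =>
    ⟨by have := hz.1; linarith, by have := hz.2; linarith⟩
  have hMg : Many g a b k p q := by
    refine ⟨hSg, hM.pq, hM.qp, ?_, ?_, ?_⟩
    · intro i hi z hz
      by_cases hij : i = j
      · subst hij
        rw [W_eq (evin z (hinIoo z ⟨hz.1.le, hz.2.le⟩))]
        exact hD''.W2 z hz.1 hz.2
      · rw [W_eq (evoff z (hneck i hi hij z ⟨hz.1.le, hz.2.le⟩))]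
        exact hM.neg i hi z hz
    · intro i hi
      have hpqi := (hM.pq i hi).2.1
      by_cases hij : i = j
      · subst hij
        rw [dW_eq (evin (p i) (hinIoo _ ⟨le_rfl, hpqi.le⟩)), dW_eq (evin (q i) (hinIoo _ ⟨hpqi.le, le_rfl⟩))]
        exact ⟨hD''.Wp, hD''.Wq⟩
      · rw [dW_eq (evoff (p i) (hneck i hi hij _ ⟨le_rfl, hpqi.le⟩)), dW_eq (evoff (q i) (hneck i hi hij _ ⟨hpqi.le, le_rfl⟩))]
        exact hM.dp i hi
    · intro z hz hno
      have h1 : z ∉ Icc c d := fun hz' => hno j hj ⟨by have := hz'.1; linarith, by have := hz'.2; linarith⟩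
      rw [W_eq (evoff z h1)]
      exact hM.posW z hz hno
  refine ⟨hMg, ⟨hSg, ⟨c, d, by linarith [hpqj.1], hcd, by linarith [hpqj.2.2], goff⟩, ?_⟩, ?_, ?_,
    ⟨c, d, hpc, hcd, hdq, goff⟩, gin⟩
  · intro i hi z
    have h1 : (fun z => g z - h z) = fun z => h'' z - h' z := by
      funext z
      rw [hg z]
      ring
    rw [h1]
    exact hder i hi z
  · intro i hi hij hG
    obtain ⟨f, a₁, b₁, η₁, hη₁, hDf, ha₁, hb₁, hf, hE⟩ := hG
    rcases hother i hi hij with h1 | h1
    · refine ⟨f, a₁, b₁, min η₁ ((c - q i) / 2), lt_min hη₁ (by linarith), hDf, ?_, ?_, ?_, hE⟩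
      · have := min_le_left η₁ ((c - q i) / 2)
        linarith
      · have := min_le_left η₁ ((c - q i) / 2)
        linarith
      · intro z hz
        have h2 := min_le_left η₁ ((c - q i) / 2)
        have h3 := min_le_right η₁ ((c - q i) / 2)
        rw [goff z fun hz' => by have h4 := hz'.1; have h5 := hz.2; linarith]
        exact hf z ⟨by have := hz.1; linarith, by have := hz.2; linarith⟩
    · refine ⟨f, a₁, b₁, min η₁ ((p i - d) / 2), lt_min hη₁ (by linarith), hDf, ?_, ?_, ?_, hE⟩
      · have := min_le_left η₁ ((p i - d) / 2)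
        linarith
      · have := min_le_left η₁ ((p i - d) / 2)
        linarith
      · intro z hz
        have h2 := min_le_left η₁ ((p i - d) / 2)
        have h3 := min_le_right η₁ ((p i - d) / 2)
        rw [goff z fun hz' => by have h4 := hz'.2; have h5 := hz.1; linarith]
        exact hf z ⟨by have := hz.1; linarith, by have := hz.2; linarith⟩
  · intro hE
    exact ⟨h'', a', b', η, hη, hD'', ha'η, hb'η, fun z hz => (gin z hz).symm, hE⟩

end

end Pool.Agent.Lib.MP478c11.DB
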