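import Pool.Agent.Lib.MP_478c11_gt.DB.Many

/-!
# MP_478c11_gt, module ZER: the necks of a sphere of revolution with simple zeros of `W`
-/

set_option autoImplicit false

namespace Pool.Agent.Lib.MP478c11.DB

open Set Filter Topology MeasureTheory
open scoped ContDiff

namespace ZERM

theorem sgn_neg {w : ℝ → ℝ} (hw : Continuous w) {I : Set ℝ} (hI : I.OrdConnected)
    (h0 : ∀ z ∈ I, w z ≠ 0) {z0 : ℝ} (hz0 : z0 ∈ I) (hneg : w z0 < 0) : ∀ z ∈ I, w z < 0 := by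
  intro z hz
  by_contra hc
  rw [not_lt] at hc
  have h1 := intermediate_value_uIcc (a := z0) (b := z) hw.continuousOn
  obtain ⟨c, hc1, hc2⟩ := h1 (show (0 : ℝ) ∈ uIcc (w z0) (w z) from
    mem_uIcc.2 (Or.inl ⟨hneg.le, hc⟩))
  exact h0 c (hI.uIcc_subset hz0 hz hc1) hc2

theorem sgn_pos {w : ℝ → ℝ} (hw : Continuous w) {I : Set ℝ} (hI : I.OrdConnected)
    (h0 : ∀ z ∈ I, w z ≠ 0) {z0 : ℝ} (hz0 : z0 ∈ I) (hpos : 0 < w z0) : ∀ z ∈ I, 0 < w z := by
  intro z hz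
  by_contra hc
  rw [not_lt] at hc
  have h1 := intermediate_value_uIcc (a := z0) (b := z) hw.continuousOn
  obtain ⟨c, hc1, hc2⟩ := h1 (show (0 : ℝ) ∈ uIcc (w z0) (w z) from
    mem_uIcc.2 (Or.inr ⟨hc, hpos.le⟩))
  exact h0 c (hI.uIcc_subset hz0 hz hc1) hc2

theorem slope_left {w : ℝ → ℝ} {w' p : ℝ} (hd : HasDerivAt w w' p) :
    Tendsto (slope w p) (𝓝[<] p) (𝓝 w') :=
  (hasDerivAt_iff_tendsto_slope.1 hd).mono_left
    (nhdsWithin_mono _ fun z (hz : z < p) => ne_of_lt hz)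

theorem slope_right {w : ℝ → ℝ} {w' p : ℝ} (hd : HasDerivAt w w' p) :
    Tendsto (slope w p) (𝓝[>] p) (𝓝 w') :=
  (hasDerivAt_iff_tendsto_slope.1 hd).mono_left
    (nhdsWithin_mono _ fun z (hz : p < z) => (ne_of_lt hz).symm)

theorem deriv_nonpos {w : ℝ → ℝ} {w' s p : ℝ} (hd : HasDerivAt w w' p) (h0 : w p = 0)
    (hs : s < p) (h : ∀ z ∈ Ioo s p, 0 < w z) : w' ≤ 0 := by
  refine le_of_tendsto (slope_left hd) ?_
  filter_upwards [Ioo_mem_nhdsLT hs] with z hz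
  rw [slope_def_field, h0, sub_zero]
  exact div_nonpos_of_nonneg_of_nonpos (h z hz).le (by linarith [hz.2])

theorem deriv_nonneg {w : ℝ → ℝ} {w' s p : ℝ} (hd : HasDerivAt w w' p) (h0 : w p = 0)
    (hs : s < p) (h : ∀ z ∈ Ioo s p, w z < 0) : 0 ≤ w' := by
  refine ge_of_tendsto (slope_left hd) ?_
  filter_upwards [Ioo_mem_nhdsLT hs] with z hz
  rw [slope_def_field, h0, sub_zero]
  exact div_nonneg_of_nonpos (h z hz).le (by linarith [hz.2])

theorem after_neg {w : ℝ → ℝ} {w' p : ℝ} (hd : HasDerivAt w w' p) (h0 : w p = 0)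
    (hw' : w' < 0) : ∃ t > p, ∀ z ∈ Ioo p t, w z < 0 := by
  have h1 := (slope_right hd).eventually (gt_mem_nhds hw')
  have h2 : ∀ᶠ z in 𝓝[>] p, w z < 0 := by
    filter_upwards [h1, self_mem_nhdsWithin] with z hz hz2
    have hz3 : 0 < z - p := sub_pos.2 hz2
    rw [slope_def_field, h0, sub_zero, div_neg_iff] at hz
    rcases hz with h | h
    · linarith [h.2]
    · exact h.1
  obtain ⟨t, ht, hsub⟩ := mem_nhdsGT_iff_exists_Ioo_subset.1 h2
  exact ⟨t, ht, fun z hz => hsub hz⟩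

theorem after_pos {w : ℝ → ℝ} {w' p : ℝ} (hd : HasDerivAt w w' p) (h0 : w p = 0)
    (hw' : 0 < w') : ∃ t > p, ∀ z ∈ Ioo p t, 0 < w z := by
  have h1 := (slope_right hd).eventually (lt_mem_nhds hw')
  have h2 : ∀ᶠ z in 𝓝[>] p, 0 < w z := by
    filter_upwards [h1, self_mem_nhdsWithin] with z hz hz2
    have hz3 : 0 < z - p := sub_pos.2 hz2
    rw [slope_def_field, h0, sub_zero, div_pos_iff] at hz
    rcases hz with h | h
    · exact h.1
    · linarith [h.2]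
  obtain ⟨t, ht, hsub⟩ := mem_nhdsGT_iff_exists_Ioo_subset.1 h2
  exact ⟨t, ht, fun z hz => hsub hz⟩

/-- the zeros in `[s, b]` -/
def Z (w : ℝ → ℝ) (s b : ℝ) : Set ℝ := {z | z ∈ Icc s b ∧ w z = 0}

theorem Z_compact {w : ℝ → ℝ} (hw : Continuous w) (s b : ℝ) : IsCompact (Z w s b) :=
  isCompact_Icc.inter_right (isClosed_singleton.preimage hw)

theorem Z_finite {w : ℝ → ℝ} (hw : Continuous w) {s b : ℝ}
    (hd : ∀ z, HasDerivAt w (deriv w z) z)
    (hs : ∀ z ∈ Icc s b, w z = 0 → deriv w z ≠ 0) : (Z w s b).Finite := by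
  by_contra hinf
  obtain ⟨x, hx, hacc⟩ := Set.Infinite.exists_accPt_of_subset_isCompact hinf
    (Z_compact hw s b) subset_rfl
  rw [accPt_iff_frequently] at hacc
  have h1 := (hd x).eventually_ne (c := 0) (hs x hx.1 hx.2)
  rw [eventually_nhdsWithin_iff] at h1
  refine hacc ?_
  filter_upwards [h1] with z hz hz2
  exact hz hz2.1 hz2.2.2

theorem main {w : ℝ → ℝ} (hw : Continuous w) {a b : ℝ}
    (hd : ∀ z, HasDerivAt w (deriv w z) z)
    (hsimp : ∀ z ∈ Icc a b, w z = 0 → deriv w z ≠ 0) (hb : 0 < w b) :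
    ∀ (n : ℕ) (s : ℝ), a ≤ s → s < b → 0 < w s → (Z w s b).ncard ≤ n →
      ∃ (k : ℕ) (p q : ℕ → ℝ), (∀ j < k, s < p j ∧ p j < q j ∧ q j < b) ∧
        (∀ j, j + 1 < k → q j < p (j + 1)) ∧ (∀ j < k, ∀ z ∈ Ioo (p j) (q j), w z < 0) ∧
        (∀ j < k, deriv w (p j) < 0 ∧ 0 < deriv w (q j)) ∧
        (∀ z ∈ Icc s b, (∀ j < k, z ∉ Icc (p j) (q j)) → 0 < w z) := by
  intro n
  induction n using Nat.strong_induction_on with
  | _ n ih =>
  intro s has hsb hws hn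
  have hfin : (Z w s b).Finite := Z_finite hw hd fun z hz => hsimp z ⟨has.trans hz.1, hz.2⟩
  by_cases hne : (Z w s b).Nonempty
  swap
  · refine ⟨0, fun _ => 0, fun _ => 0, fun j hj => absurd hj (Nat.not_lt_zero j),
      fun j hj => absurd hj (Nat.not_lt_zero _), fun j hj => absurd hj (Nat.not_lt_zero j),
      fun j hj => absurd hj (Nat.not_lt_zero j), fun z hz _ => ?_⟩
    refine sgn_pos hw (ordConnected_Icc (a := s) (b := b)) (fun z hz h0 => ?_)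
      (left_mem_Icc.2 hsb.le) hws z hz
    exact hne ⟨z, hz, h0⟩
  obtain ⟨p, hp, hpmin⟩ := (Z_compact hw s b).exists_isLeast hne
  have hsp : s < p := lt_of_le_of_ne hp.1.1 fun h => by
    rw [h] at hws
    exact absurd hp.2 hws.ne'
  have hpb : p < b := lt_of_le_of_ne hp.1.2 fun h => by
    rw [← h] at hb
    exact absurd hp.2 hb.ne'
  have hpos1 : ∀ z ∈ Ico s p, 0 < w z := by
    refine sgn_pos hw ordConnected_Ico (fun z hz h0 => ?_) (left_mem_Ico.2 hsp) hws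
    exact absurd (hpmin ⟨⟨hz.1, hz.2.le.trans hpb.le⟩, h0⟩) (not_le.2 hz.2)
  have hdp : deriv w p < 0 := lt_of_le_of_ne
    (deriv_nonpos (hd p) hp.2 hsp fun z hz => hpos1 z ⟨hz.1.le, hz.2⟩)
    (hsimp p ⟨has.trans hp.1.1, hp.1.2⟩ hp.2)
  obtain ⟨t, ht, hneg1⟩ := after_neg (hd p) hp.2 hdp
  -- the next zero
  have ht' : p < t := ht
  obtain ⟨z0, hz0p, hz0b, hz0t⟩ : ∃ z0, p < z0 ∧ z0 < b ∧ z0 < t :=
    ⟨min ((p + t) / 2) ((p + b) / 2), lt_min (by linarith) (by linarith),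
      (min_le_right _ _).trans_lt (by linarith), (min_le_left _ _).trans_lt (by linarith)⟩
  have hz0 : w z0 < 0 := hneg1 z0 ⟨hz0p, hz0t⟩
  have hne2 : (Z w z0 b).Nonempty := by
    have h1 := intermediate_value_Icc hz0b.le (hw.continuousOn (s := Icc z0 b))
    obtain ⟨c, hc1, hc2⟩ := h1 (show (0 : ℝ) ∈ Icc (w z0) (w b) from ⟨hz0.le, hb.le⟩)
    exact ⟨c, hc1, hc2⟩
  obtain ⟨q, hq, hqmin⟩ := (Z_compact hw z0 b).exists_isLeast hne2
  have hz0q : z0 < q := lt_of_le_of_ne hq.1.1 fun h => by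
    rw [h] at hz0
    exact absurd hq.2 hz0.ne
  have hqb : q < b := lt_of_le_of_ne hq.1.2 fun h => by
    rw [← h] at hb
    exact absurd hq.2 hb.ne'
  have hpq : p < q := hz0p.trans hz0q
  have hneg : ∀ z ∈ Ioo p q, w z < 0 := by
    intro z hz
    rcases le_total z z0 with h | h
    · exact hneg1 z ⟨hz.1, h.trans_lt hz0t⟩
    · refine sgn_neg hw (ordConnected_Ico (a := z0) (b := q)) (fun z hz h0 => ?_)
        (left_mem_Ico.2 hz0q) hz0 z ⟨h, hz.2⟩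
      exact absurd (hqmin ⟨⟨hz.1, hz.2.le.trans hqb.le⟩, h0⟩) (not_le.2 hz.2)
  have hdq : 0 < deriv w q := lt_of_le_of_ne (deriv_nonneg (hd q) hq.2 hpq hneg)
    (hsimp q ⟨has.trans (hsp.le.trans hpq.le), hqb.le⟩ hq.2).symm
  obtain ⟨t1, ht1, hpos2⟩ := after_pos (hd q) hq.2 hdq
  have ht1' : q < t1 := ht1
  obtain ⟨s1, hs1q, hs1b, hs1t⟩ : ∃ s1, q < s1 ∧ s1 < b ∧ s1 < t1 :=
    ⟨min ((q + t1) / 2) ((q + b) / 2), lt_min (by linarith) (by linarith),
      (min_le_right _ _).trans_lt (by linarith), (min_le_left _ _).trans_lt (by linarith)⟩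
  have hss1 : s < s1 := by linarith
  have hlt : (Z w s1 b).ncard < (Z w s b).ncard := by
    refine Set.ncard_lt_ncard ⟨fun z hz => ⟨⟨hss1.le.trans hz.1.1, hz.1.2⟩, hz.2⟩, fun h => ?_⟩ hfin
    have h1 := (h hp).1.1
    linarith
  obtain ⟨k, p', q', h1, h2, h3, h4, h5⟩ := ih (n - 1) (by omega) s1 (by linarith) hs1b
    (hpos2 s1 ⟨hs1q, hs1t⟩) (by omega)
  obtain ⟨P, hP0, hPs⟩ : ∃ P : ℕ → ℝ, P 0 = p ∧ ∀ j, P (j + 1) = p' j :=
    ⟨fun j => Nat.casesOn j p p', rfl, fun _ => rfl⟩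
  obtain ⟨Q, hQ0, hQs⟩ : ∃ Q : ℕ → ℝ, Q 0 = q ∧ ∀ j, Q (j + 1) = q' j :=
    ⟨fun j => Nat.casesOn j q q', rfl, fun _ => rfl⟩
  refine ⟨k + 1, P, Q, ?_, ?_, ?_, ?_, ?_⟩
  · intro j hj
    rcases j with _ | j
    · rw [hP0, hQ0]
      exact ⟨hsp, hpq, hqb⟩
    · rw [hPs, hQs]
      obtain ⟨a1, a2, a3⟩ := h1 j (by omega)
      exact ⟨hss1.trans a1, a2, a3⟩
  · intro j hj
    rw [hPs]
    rcases j with _ | j
    · rw [hQ0]
      exact hs1q.trans (h1 0 (by omega)).1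
    · rw [hQs]
      exact h2 j (by omega)
  · intro j hj z hz
    rcases j with _ | j
    · rw [hP0, hQ0] at hz
      exact hneg z hz
    · rw [hPs, hQs] at hz
      exact h3 j (by omega) z hz
  · intro j hj
    rcases j with _ | j
    · rw [hP0, hQ0]
      exact ⟨hdp, hdq⟩
    · rw [hPs, hQs]
      exact h4 j (by omega)
  · intro z hz hnot
    rcases lt_or_ge z p with h | h
    · exact hpos1 z ⟨hz.1, h⟩
    · have h6 := hnot 0 (Nat.succ_pos k)
      rw [hP0, hQ0] at h6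
      have hqz : q < z := by
        by_contra hc
        exact h6 ⟨h, not_lt.1 hc⟩
      rcases lt_or_ge z s1 with h7 | h7
      · exact hpos2 z ⟨hqz, h7.trans hs1t⟩
      · refine h5 z ⟨h7, hz.2⟩ fun j hj => ?_
        have h8 := hnot (j + 1) (by omega)
        rw [hPs, hQs] at h8
        exact h8

end ZERM

open ZERM in
theorem specZER : SpecZER := by
  intro h a b hS hsimp
  have hW : ContDiff ℝ ∞ (W h) := by
    have h1 : ContDiff ℝ ∞ (deriv h) := hS.smooth.deriv' 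
    have h2 : ContDiff ℝ ∞ (deriv (deriv h)) := h1.deriv'
    have h3 : ContDiff ℝ ∞ fun z => deriv h z ^ 2 / 4 - h z * deriv (deriv h) z / 2 :=
      ((h1.pow 2).div_const 4).sub ((hS.smooth.mul h2).div_const 2)
    exact h3
  have hd : ∀ z, HasDerivAt (W h) (deriv (W h) z) z := fun z =>
    ((hW.differentiable (by simp)) z).hasDerivAt
  have hWa : 0 < W h a := by
    unfold W
    rw [hS.ha]
    have := hS.da
    have h2 : 0 < deriv h a ^ 2 := by positivity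
    linarith
  have hWb : 0 < W h b := by
    unfold W
    rw [hS.hb]
    have h2 : 0 < deriv h b ^ 2 := sq_pos_of_neg hS.db
    linarith
  obtain ⟨k, p, q, h1, h2, h3, h4, h5⟩ := main hW.continuous hd hsimp hWb _ a le_rfl hS.ab hWa le_rfl
  exact ⟨k, p, q, ⟨hS, h1, h2, h3, h4, h5⟩⟩

end Pool.Agent.Lib.MP478c11.DB
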