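import Pool.Agent.Lib.MP_478c11_gt.DB.Many

/-!
# MP_478c11_gt, DB: module ZFN (a variation of module LOW)
-/

set_option autoImplicit false

namespace Pool.Agent.Lib.MP478c11.DB

open Set Filter Topology MeasureTheory
open scoped ContDiff

namespace ZFNM

theorem W_congr {f g : ℝ → ℝ} {z : ℝ} (h : f =ᶠ[𝓝 z] g) : W f z = W g z := by
  unfold W
  rw [h.deriv_eq, h.deriv.deriv_eq, h.eq_of_nhds]

theorem sys_congr {f g : ℝ → ℝ} {n : ℕ} {F y v : ℝ → ℝ} {I : Set ℝ}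
    (h : ∀ z ∈ I, f =ᶠ[𝓝 z] g) (hs : Sys f n F y v I) : Sys g n F y v I := by
  intro z hz
  obtain ⟨h1, h2⟩ := hs z hz
  rw [← (h z hz).eq_of_nhds, ← W_congr (h z hz)]
  exact ⟨h1, h2⟩

theorem sys_mono {f : ℝ → ℝ} {n : ℕ} {F y v : ℝ → ℝ} {I J : Set ℝ}
    (hJ : J ⊆ I) (hs : Sys f n F y v I) : Sys f n F y v J := fun z hz => hs z (hJ hz)

theorem pert_off {h κ : ℝ → ℝ} {c d μ z : ℝ} (hκ : Bump κ c d) (hz : z ∉ Icc c d) :
    pert h κ μ z = h z := by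
  unfold pert
  rw [hκ.2 z hz]
  ring

theorem pert_off_nhds {h κ : ℝ → ℝ} {c d μ z : ℝ} (hκ : Bump κ c d) (hz : z ∉ Icc c d) :
    pert h κ μ =ᶠ[𝓝 z] h := by
  filter_upwards [isClosed_Icc.isOpen_compl.mem_nhds hz] with w hw
  exact pert_off hκ hw

theorem pert_congr {h h₁ κ : ℝ → ℝ} {s μ z : ℝ} (hh : ∀ z, s < z → h₁ z = h z) (hz : s < z) :
    pert h₁ κ μ =ᶠ[𝓝 z] pert h κ μ := by
  filter_upwards [Ioi_mem_nhds hz] with w hw
  unfold pert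
  rw [hh w hw]

theorem eq_left {f g : ℝ → ℝ} {p c : ℝ} (hpc : p < c) (hf : ContinuousAt f c)
    (hg : ContinuousAt g c) (h : ∀ z ∈ Ico p c, f z = g z) : f c = g c := by
  have h1 : Tendsto f (𝓝[<] c) (𝓝 (f c)) := hf.tendsto.mono_left nhdsWithin_le_nhds
  have h2 : Tendsto g (𝓝[<] c) (𝓝 (g c)) := hg.tendsto.mono_left nhdsWithin_le_nhds
  have h3 : f =ᶠ[𝓝[<] c] g := by
    filter_upwards [Ico_mem_nhdsLT hpc] with z hz
    exact h z hz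
  exact tendsto_nhds_unique (h1.congr' h3) h2

theorem eq_right {f g : ℝ → ℝ} {d q : ℝ} (hdq : d < q) (hf : ContinuousAt f d)
    (hg : ContinuousAt g d) (h : ∀ z ∈ Ioc d q, f z = g z) : f d = g d := by
  have h1 : Tendsto f (𝓝[>] d) (𝓝 (f d)) := hf.tendsto.mono_left nhdsWithin_le_nhds
  have h2 : Tendsto g (𝓝[>] d) (𝓝 (g d)) := hg.tendsto.mono_left nhdsWithin_le_nhds
  have h3 : f =ᶠ[𝓝[>] d] g := by
    filter_upwards [Ioc_mem_nhdsGT hdq] with z hz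
    exact h z hz
  exact tendsto_nhds_unique (h1.congr' h3) h2

theorem left_eq (hUNQ : SpecUNQ) {h₁ κ : ℝ → ℝ} {a p q b c d μ : ℝ} (hD : Dumb h₁ a p q b)
    (hpc : p < c) (hcd : c < d) (hdq : d < q) (hκ : Bump κ c d) {n : ℕ} {Y V y v : ℝ → ℝ}
    (hY : Sys (pert h₁ κ μ) n O Y V (Ioo a b)) (hy : Sys h₁ n O y v (Ioo a b))
    (h1 : Y p = y p) (h2 : V p = v p) : Y c = y c ∧ V c = v c := by
  have hcb : c < b := hcd.trans (hdq.trans hD.qb)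
  have hsub : Ico p c ⊆ Ioo a b := fun z hz => ⟨hD.ap.trans_le hz.1, hz.2.trans hcb⟩
  have hcI : c ∈ Ioo a b := ⟨hD.ap.trans hpc, hcb⟩
  have hs : Sys h₁ n O Y V (Ico p c) :=
    sys_congr (fun z hz => pert_off_nhds hκ (fun hz' => absurd hz'.1 (not_le.2 hz.2)))
      (sys_mono hsub hY)
  have hu := hUNQ h₁ a p q b hD n O Y V y v (Ico p c) ordConnected_Ico hsub hs
    (sys_mono hsub hy) p ⟨le_rfl, hpc⟩ h1 h2
  exact ⟨eq_left hpc (hY c hcI).1.continuousAt (hy c hcI).1.continuousAt (fun z hz => (hu z hz).1),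
    eq_left hpc (hY c hcI).2.continuousAt (hy c hcI).2.continuousAt (fun z hz => (hu z hz).2)⟩

theorem right_eq (hUNQ : SpecUNQ) {h₁ κ : ℝ → ℝ} {a p q b c d μ : ℝ} (hD : Dumb h₁ a p q b)
    (hpc : p < c) (hcd : c < d) (hdq : d < q) (hκ : Bump κ c d) {n : ℕ} {Y V y v : ℝ → ℝ}
    (hY : Sys (pert h₁ κ μ) n O Y V (Ioo a b)) (hy : Sys h₁ n O y v (Ioo a b))
    (h1 : Y q = y q) (h2 : V q = v q) : Y d = y d ∧ V d = v d := by
  have had : a < d := hD.ap.trans (hpc.trans hcd)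
  have hsub : Ioc d q ⊆ Ioo a b := fun z hz => ⟨had.trans hz.1, hz.2.trans_lt hD.qb⟩
  have hdI : d ∈ Ioo a b := ⟨had, hdq.trans hD.qb⟩
  have hs : Sys h₁ n O Y V (Ioc d q) :=
    sys_congr (fun z hz => pert_off_nhds hκ (fun hz' => absurd hz'.2 (not_le.2 hz.1)))
      (sys_mono hsub hY)
  have hu := hUNQ h₁ a p q b hD n O Y V y v (Ioc d q) ordConnected_Ioc hsub hs
    (sys_mono hsub hy) q ⟨hdq, le_rfl⟩ h1 h2
  exact ⟨eq_right hdq (hY d hdI).1.continuousAt (hy d hdI).1.continuousAt (fun z hz => (hu z hz).1),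
    eq_right hdq (hY d hdI).2.continuousAt (hy d hdI).2.continuousAt (fun z hz => (hu z hz).2)⟩

theorem zero_sys (h : ℝ → ℝ) (n : ℕ) (I : Set ℝ) :
    Sys h n O (fun _ => 0) (fun _ => 0) I := by
  intro z _
  refine ⟨(hasDerivAt_const z (0 : ℝ)).congr_deriv ?_,
    (hasDerivAt_const z (0 : ℝ)).congr_deriv ?_⟩
  · simp
  · simp [O]

theorem zero_of (hUNQ : SpecUNQ) {h₁ : ℝ → ℝ} {a p q b : ℝ} (hD : Dumb h₁ a p q b) {n : ℕ}
    {y v : ℝ → ℝ} (hy : Sys h₁ n O y v (Ioo a b)) {c : ℝ} (hc : c ∈ Ioo a b)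
    (h1 : y c = 0) (h2 : v c = 0) {z : ℝ} (hz : z ∈ Ioo a b) : y z = 0 ∧ v z = 0 :=
  hUNQ h₁ a p q b hD n O y v (fun _ => 0) (fun _ => 0) (Ioo a b) ordConnected_Ioo
    subset_rfl hy (zero_sys h₁ n (Ioo a b)) c hc h1 h2 z hz

/-- The algebra. -/
theorem alg0 {A1 A2 B1 B2 z u : ℝ} (h1 : A1 * u - A2 * z = 0) (h2 : B1 * u - B2 * z = 0)
    (h0 : z ≠ 0 ∨ u ≠ 0) : A1 * B2 - A2 * B1 = 0 := by
  rcases h0 with h | h
  · have : (A1 * B2 - A2 * B1) * z = 0 := by linear_combination B1 * h1 - A1 * h2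
    exact (mul_eq_zero.mp this).resolve_right h
  · have : (A1 * B2 - A2 * B1) * u = 0 := by linear_combination B2 * h1 - A2 * h2
    exact (mul_eq_zero.mp this).resolve_right h

theorem posX {n : ℕ} (hn : 1 ≤ n) {x y : ℝ} (h : ¬ (x = 0 ∧ y = 0)) :
    0 < (n : ℝ) * |x| + |y| := by
  have hn' : (0 : ℝ) < n := by exact_mod_cast hn
  by_cases hx : x = 0
  · have hy : y ≠ 0 := fun hy => h ⟨hx, hy⟩
    have := abs_pos.mpr hy
    positivity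
  · have := abs_pos.mpr hx
    positivity

end ZFNM

open ZFNM in
theorem specZFN (hLIN : SpecLIN) (hUNQ : SpecUNQ) (hWRO : SpecWRO) (hLUN : SpecLUN)
    (hPD : SpecPD) (hROT : SpecROT) : SpecZFN := by
  intro h κ a p q b c d hD hpc hcd hdq hκ hgam
  have hcdI : ∀ z ∈ Icc c d, 0 < h z ∧ W h z < 0 := fun z hz =>
    ⟨hD.pos z ((hD.ap.trans hpc).trans_le hz.1) (hz.2.trans_lt (hdq.trans hD.qb)),
      hD.W2 z (hpc.trans_le hz.1) (hz.2.trans_lt hdq)⟩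
  obtain ⟨n₀, c₀, c₁, μ₁, hc₀, hc₁, hμ₁, hrot⟩ := hROT h κ c d hcd hD.smooth hκ hcdI hgam
  refine ⟨n₀, c₀, hc₀, ?_⟩
  intro h₁ s hD₁ hsc hh
  obtain ⟨μ₀, hμ₀, hpd⟩ := hPD h₁ κ a p q b c d hD₁ hpc hcd hdq hκ 0 1 one_pos
  refine ⟨min μ₁ μ₀, lt_min hμ₁ hμ₀, ?_⟩
  intro n hn hn1 e f hef μ μ' hμ hμ' hμμ Y V Y' V' hY hY' hW hW'
  have hDμ := (hpd μ (hμ.trans (min_le_right _ _))).1
  have hDμ' := (hpd μ' (hμ'.trans (min_le_right _ _))).1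
  have hpI : p ∈ Ioo a b := ⟨hD.ap, hD.pq.trans hD.qb⟩
  have hqI : q ∈ Ioo a b := ⟨hD.ap.trans hD.pq, hD.qb⟩
  have hcI : c ∈ Ioo a b := ⟨hD.ap.trans hpc, (hcd.trans hdq).trans hD.qb⟩
  have hdI : d ∈ Ioo a b := ⟨hD.ap.trans (hpc.trans hcd), hdq.trans hD.qb⟩
  -- the data at `p` do not depend on `μ`
  have hVp : V p = V' p := by
    refine (hLUN _ _ a p q b hDμ hDμ' n hn1).1 ⟨c, hpc, fun z hz => ?_⟩ Y V Y' V' hY hY'
    rw [pert_off hκ (fun hz' => absurd hz'.1 (not_le.2 hz)),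
      pert_off hκ (fun hz' => absurd hz'.1 (not_le.2 hz))]
  -- the solutions of the systems
  obtain ⟨y, v, hyv, hyp, hvp⟩ := hLIN h₁ a p q b hD₁ n p hpI 1 (V p)
  obtain ⟨z, u, hzu, hzq, huq⟩ := hLIN h₁ a p q b hD₁ n q hqI e f
  obtain ⟨Z, U, hZU, hZq, hUq⟩ := hLIN (pert h₁ κ μ) a p q b hDμ n q hqI e f
  obtain ⟨Z', U', hZU', hZq', hUq'⟩ := hLIN (pert h₁ κ μ') a p q b hDμ' n q hqI e f
  have e1 := left_eq hUNQ hD₁ hpc hcd hdq hκ hY.sys hyv (hY.one.trans hyp.symm) hvp.symm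
  have e1' := left_eq hUNQ hD₁ hpc hcd hdq hκ hY'.sys hyv (hY'.one.trans hyp.symm)
    (hVp.symm.trans hvp.symm)
  have e2 := right_eq hUNQ hD₁ hpc hcd hdq hκ hZU hzu (hZq.trans hzq.symm) (hUq.trans huq.symm)
  have e2' := right_eq hUNQ hD₁ hpc hcd hdq hκ hZU' hzu (hZq'.trans hzq.symm)
    (hUq'.trans huq.symm)
  -- the Wronskians at `d`
  have w1 := hWRO.2 (pert h₁ κ μ) n Z U Y V (Ioo a b) ordConnected_Ioo hZU hY.sys q hqI d hdI
  have w2 := hWRO.2 (pert h₁ κ μ') n Z' U' Y' V' (Ioo a b) ordConnected_Ioo hZU' hY'.sys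
    q hqI d hdI
  rw [hZq, hUq, hW, e2.1, e2.2] at w1
  rw [hZq', hUq', hW', e2'.1, e2'.2] at w2
  have h0 : z d ≠ 0 ∨ u d ≠ 0 := by
    by_contra hc
    have hc1 : z d = 0 := by
      by_contra h
      exact hc (Or.inl h)
    have hc2 : u d = 0 := by
      by_contra h
      exact hc (Or.inr h)
    obtain ⟨z1, z2⟩ := zero_of hUNQ hD₁ hzu hdI hc1 hc2 hqI
    rw [hzq] at z1
    rw [huq] at z2
    rcases hef with h | h
    · exact h z1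
    · exact h z2
  have hdet : Y d * V' d - V d * Y' d = 0 := alg0 w1.symm w2.symm h0
  have h0c : ¬ (y c = 0 ∧ v c = 0) := by
    rintro ⟨k1, k2⟩
    have := (zero_of hUNQ hD₁ hyv hcI k1 k2 hpI).1
    rw [hyp] at this
    exact one_ne_zero this
  -- ROT
  have hcdI' : Icc c d ⊆ Ioo a b := fun z hz =>
    ⟨(hD.ap.trans hpc).trans_le hz.1, hz.2.trans_lt (hdq.trans hD.qb)⟩
  have hs1 : Sys (pert h κ μ) n O Y V (Icc c d) :=
    sys_congr (fun z hz => pert_congr hh (hsc.trans_le hz.1)) (sys_mono hcdI' hY.sys)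
  have hs2 : Sys (pert h κ μ') n O Y' V' (Icc c d) :=
    sys_congr (fun z hz => pert_congr hh (hsc.trans_le hz.1)) (sys_mono hcdI' hY'.sys)
  obtain ⟨r1, r2, r3⟩ := hrot n hn μ μ' (hμ.trans (min_le_left _ _)) (hμ'.trans (min_le_left _ _))
    hμμ Y V Y' V' hs1 hs2 (e1.1.trans e1'.1.symm) (e1.2.trans e1'.2.symm)
  rw [e1.1, e1.2] at r2
  rw [e1'.1, e1'.2] at r3
  rw [hdet, abs_zero] at r1
  have hX := posX hn1 h0c
  have hX1 : 0 < (n : ℝ) * |Y d| + |V d| := lt_of_lt_of_le (mul_pos hc₁ hX) r2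
  have hX2 : 0 < (n : ℝ) * |Y' d| + |V' d| := lt_of_lt_of_le (mul_pos hc₁ hX) r3
  have hm : |μ - μ'| ≤ 0 := by
    by_contra hcon
    have := mul_pos (mul_pos hc₁ (not_le.mp hcon)) (mul_pos hX1 hX2)
    linarith
  exact sub_eq_zero.mp (abs_nonpos_iff.mp hm)

end Pool.Agent.Lib.MP478c11.DB
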