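import Pool.Agent.Lib.MP_478c11_gt.DB.AllOde
import Pool.Agent.Lib.MP_478c11_gt.DB.GEN
import Pool.Agent.Lib.MP_478c11_gt.DB.ZER
import Pool.Agent.Lib.MP_478c11_gt.DB.EXR
import Pool.Agent.Lib.MP_478c11_gt.DB.EXT
import Pool.Agent.Lib.MP_478c11_gt.DB.LIS
import Pool.Agent.Lib.MP_478c11_gt.DB.UNS
import Pool.Agent.Lib.MP_478c11_gt.DB.VBS
import Pool.Agent.Lib.MP_478c11_gt.DB.DEC
import Pool.Agent.Lib.MP_478c11_gt.DB.BUM
import Pool.Agent.Lib.MP_478c11_gt.DB.CPM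
import Pool.Agent.Lib.MP_478c11_gt.DB.LNK
import Pool.Agent.Lib.MP_478c11_gt.DB.GLB
import Pool.Agent.Lib.MP_478c11_gt.DB.FXN
import Pool.Agent.Lib.MP_478c11_gt.DB.EMB
import Pool.Agent.Lib.MP_478c11_gt.DB.POS
import Pool.Agent.Lib.MP_478c11_gt.DB.CTV
import Pool.Agent.Lib.MP_478c11_gt.DB.STV
import Pool.Agent.Lib.MP_478c11_gt.DB.SMV
import Pool.Agent.Lib.MP_478c11_gt.DB.ZFN
import Pool.Agent.Lib.MP_478c11_gt.DB.MEV
import Pool.Agent.Lib.MP_478c11_gt.DB.NRV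
import Pool.Agent.Lib.MP_478c11_gt.DB.STP
import Pool.Agent.Lib.MP_478c11_gt.DB.MU1
import Pool.Agent.Lib.MP_478c11_gt.DB.MU2
import Pool.Agent.Lib.MP_478c11_gt.DB.FNG

set_option autoImplicit false

namespace Pool.Agent.Lib.MP478c11.DB

theorem hUNS : SpecUNS := specUNS specGRW
theorem hEXT : SpecEXT := specEXT specEXR
theorem hCPM : SpecCPM := specCPM hREF hCAP hLEX hEXT specLIS hUNS
theorem hLNK : SpecLNK := specLNK specDEC
theorem hGLB : SpecGLB := specGLB hCPM hLNK specBUM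
theorem hFXN : SpecFXN := specFXN specGRW specWRO hUNS hCPM
theorem hEMB : SpecEMB := specEMB specVBS hGLB hFXN
theorem hPOS : SpecPOS := specPOS specVBS
theorem hCTV : SpecCTV := specCTV hPD hLUN hDEP
theorem hSTV : SpecSTV := specSTV hUNQ specWRO hLUN specLKB specSQR hPD hDEP hLAG
theorem hSMV : SpecSMV := specSMV hLEX hPD hCTV hSTV
theorem hZFN : SpecZFN := specZFN specLIN hUNQ specWRO hLUN hPD hROT
theorem hNRV : SpecNRV := specNRV hUNQ hREF hLEX hLUN hPD hGAM hLOW hCNT hCTV hSMV hZFN specMEV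
theorem hMU1 : SpecMU1 := specMU1 hEST hNRX hEXT specSTP
theorem hMU2 : SpecMU2 := specMU2 hUNQ hCAP hLEX hEST hEXT specLIS hUNS hCPM hEMB hPOS hNRV specSTP hMU1
theorem hGEN : SpecGEN := specGEN specSQR
theorem hFNG : SpecFNG := specFNG hGEN specZER hMU2


end Pool.Agent.Lib.MP478c11.DB
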