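import Pool.Agent.Lib.MP_478c11_gt.DB.Spec

/-!
# MP_478c11, module BTR: the transformation `B = r_μ y`
-/

set_option autoImplicit false

namespace Pool.Agent.Lib.MP478c11.DB

open Set Filter Topology MeasureTheory
open scoped ContDiff

namespace BTRM

theorem diff_deriv {r : ℝ → ℝ} {z : ℝ} (hr : ContDiffAt ℝ 2 r z) :
    DifferentiableAt ℝ (deriv r) z := by
  have h1 : ContDiffAt ℝ 1 (deriv r) z := hr.derivWithin (by norm_num)
  exact h1.differentiableAt (by simp)

end BTRM

theorem specBTR (hSQR : SpecSQR) : SpecBTR := by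
  intro h κ c d μ hh hκ hpos n y v hsys z hz
  obtain ⟨hz1, hz2⟩ := hpos z hz
  obtain ⟨hr, -⟩ := hSQR.1 h z hh hz1
  obtain ⟨hp, hW⟩ := hSQR.2 h κ μ z hh hκ hz1 hz2
  have hr' : ContDiffAt ℝ 2 (fun z => √(h z)) z := hr.of_le (by norm_cast)
  have hκ' : ContDiff ℝ 2 κ := hκ.of_le (by norm_cast)
  have d1 : HasDerivAt (fun z => √(h z)) (deriv (fun z => √(h z)) z) z :=
    (hr'.differentiableAt (by simp)).hasDerivAt
  have d2 : HasDerivAt (deriv fun z => √(h z)) (deriv (deriv fun z => √(h z)) z) z :=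
    (BTRM.diff_deriv hr').hasDerivAt
  have k1 : HasDerivAt κ (deriv κ z) z := (hκ'.differentiable (by simp) z).hasDerivAt
  have k2 : HasDerivAt (deriv κ) (deriv (deriv κ) z) z :=
    (BTRM.diff_deriv hκ'.contDiffAt).hasDerivAt
  obtain ⟨hy, hv⟩ := hsys z hz
  rw [hp] at hy hv
  rw [hW] at hv
  have hne : √(h z) + μ * κ z ≠ 0 := hz2.ne'
  have r1 : HasDerivAt (fun z => √(h z) + μ * κ z) (deriv (fun z => √(h z)) z + μ * deriv κ z) z :=
    d1.add (k1.const_mul μ)
  have r2 : HasDerivAt (fun z => deriv (fun z => √(h z)) z + μ * deriv κ z)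
      (deriv (deriv fun z => √(h z)) z + μ * deriv (deriv κ) z) z :=
    d2.add (k2.const_mul μ)
  refine ⟨?_, ?_⟩
  · have h1 := r1.mul hy
    refine h1.congr_deriv ?_
    field_simp
  · have h1 := (r2.mul hy).add (hv.div r1 hne)
    refine h1.congr_deriv ?_
    unfold gm O
    field_simp
    ring

end Pool.Agent.Lib.MP478c11.DB
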