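import Pool.Agent.Lib.MP_478c11_gt.DB.Spec

set_option autoImplicit false

namespace Pool.Agent.Lib.MP478c11.DB

open Set Filter Topology MeasureTheory
open scoped ContDiff

namespace CAPM

lemma d_cont {h : ℝ → ℝ} (hs : ContDiff ℝ ∞ h) : Continuous (deriv h) :=
  (contDiff_infty_iff_deriv.1 hs).2.continuous

lemma W_cont {h : ℝ → ℝ} (hs : ContDiff ℝ ∞ h) : Continuous (W h) := by
  have h1 : ContDiff ℝ ∞ (deriv h) := (contDiff_infty_iff_deriv.1 hs).2
  have h2 : Continuous (deriv (deriv h)) := d_cont h1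
  have h3 := h1.continuous
  have h4 := hs.continuous
  unfold W
  fun_prop

lemma h_nonneg {h : ℝ → ℝ} {a p q b : ℝ} (D : Dumb h a p q b) {z : ℝ} (hz : z ∈ Icc a p) :
    0 ≤ h z := by
  rcases eq_or_lt_of_le hz.1 with h1 | h1
  · rw [← h1, D.ha]
  · exact (D.pos z h1 (hz.2.trans_lt (D.pq.trans D.qb))).le

lemma exists_lam {h : ℝ → ℝ} {a p q b : ℝ} (D : Dumb h a p q b) :
    ∃ l > 0, ∀ z ∈ Icc a p, 0 < deriv h z + l * h z := by
  have hc : Continuous h := D.smooth.continuous
  have hd : Continuous (deriv h) := d_cont D.smooth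
  have hS : IsCompact (Icc a p ∩ {z | deriv h z ≤ 0}) :=
    isCompact_Icc.inter_right (isClosed_le hd continuous_const)
  obtain ⟨δ, hδ, h1⟩ := hS.exists_forall_le' hc.continuousOn (a := 0) (fun z hz => by
    refine D.pos z (lt_of_le_of_ne hz.1.1 ?_) (hz.1.2.trans_lt (D.pq.trans D.qb))
    rintro rfl
    exact absurd D.da (not_lt.2 hz.2))
  obtain ⟨C, hC⟩ := isCompact_Icc.exists_bound_of_continuousOn (f := deriv h) (s := Icc a p)
    hd.continuousOn
  refine ⟨(|C| + 1) / δ, by positivity, fun z hz => ?_⟩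
  by_cases hz' : deriv h z ≤ 0
  · have h2 := h1 z ⟨hz, hz'⟩
    have h3 := hC z hz
    rw [Real.norm_eq_abs] at h3
    have h4 : |C| + 1 ≤ (|C| + 1) / δ * h z := by
      rw [div_mul_eq_mul_div, le_div_iff₀ hδ]
      gcongr
    have h5 := neg_abs_le (deriv h z)
    have h6 := le_abs_self C
    linarith
  · have h5 := h_nonneg D hz
    have h6 : 0 ≤ (|C| + 1) / δ * h z := by positivity
    push Not at hz'
    linarith

lemma inv_cont {h : ℝ → ℝ} {a p q b : ℝ} (D : Dumb h a p q b) :
    ContinuousOn (fun t => 1 / h t) (Ioo a b) := by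
  refine continuousOn_const.div D.smooth.continuous.continuousOn fun t ht => ?_
  exact (D.pos t ht.1 ht.2).ne'

lemma J_deriv {h : ℝ → ℝ} {a p q b : ℝ} (D : Dumb h a p q b) {z : ℝ} (hz : z ∈ Ioc a p) :
    HasDerivAt (fun z => ∫ t in z..p, 1 / h t) (-(1 / h z)) z := by
  have hz' : z ∈ Ioo a b := ⟨hz.1, hz.2.trans_lt (D.pq.trans D.qb)⟩
  have hi : IntervalIntegrable (fun t => 1 / h t) volume z p := by
    refine ((inv_cont D).mono ?_).intervalIntegrable
    rw [uIcc_of_le hz.2]
    exact fun t ht => ⟨hz.1.trans_le ht.1, ht.2.trans_lt (D.pq.trans D.qb)⟩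
  exact intervalIntegral.integral_hasDerivAt_left hi
    ((inv_cont D).stronglyMeasurableAtFilter isOpen_Ioo z hz')
    ((inv_cont D).continuousAt (isOpen_Ioo.mem_nhds hz'))

lemma J_nonneg {h : ℝ → ℝ} {a p q b : ℝ} (D : Dumb h a p q b) {z : ℝ} (hz : z ∈ Ioc a p) :
    0 ≤ ∫ t in z..p, 1 / h t :=
  intervalIntegral.integral_nonneg hz.2 fun t ht =>
    (one_div_pos.2 (D.pos t (hz.1.trans_le ht.1) (ht.2.trans_lt (D.pq.trans D.qb)))).le

lemma side (hMXP : SpecMXP) (hDVG : SpecDVG) {h : ℝ → ℝ} {a p q b : ℝ} (D : Dumb h a p q b)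
    {l c₂ : ℝ} (hl : 0 < l) (hl1 : ∀ z ∈ Icc a p, 0 < deriv h z + l * h z) (hc₂ : 0 < c₂)
    (hΦ : ∀ z ∈ Icc a p, c₂ ≤ W h z + h z * (deriv h z + l * h z)) {n : ℕ} (hn : 1 ≤ n)
    {F y v : ℝ → ℝ} {R M : ℝ} (hS : Sys h n F y v (Ioc a p)) (hR : 0 ≤ R)
    (hb : ∀ z ∈ Ioc a p, |F z| ≤ R ∧ |y z| ≤ M) (hy : y p = 0) {s : ℝ} (hs : |s| = 1)
    {z : ℝ} (hz : z ∈ Ioc a p) :
    s * y z ≤ R / c₂ * (1 + (Real.exp (l * (p - a)) - Real.exp (l * (z - a))) / l) := by
  set K : ℝ := R / c₂ with hK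
  have hK0 : 0 ≤ K := by positivity
  set w : ℝ → ℝ := fun z => K * (1 + (Real.exp (l * (p - a)) - Real.exp (l * (z - a))) / l) with hw
  set J : ℝ → ℝ := fun z => ∫ t in z..p, 1 / h t with hJ
  have hwK : ∀ z ∈ Ioc a p, K ≤ w z := by
    intro z hz
    have h1 : Real.exp (l * (z - a)) ≤ Real.exp (l * (p - a)) := by
      apply Real.exp_le_exp.2
      have := hz.2
      gcongr
    have h2 : 0 ≤ (Real.exp (l * (p - a)) - Real.exp (l * (z - a))) / l := by
      apply div_nonneg _ hl.le
      linarith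
    calc K = K * (1 + 0) := by ring
      _ ≤ w z := mul_le_mul_of_nonneg_left (by linarith) hK0
  have hwd : ∀ z, HasDerivAt w (-(K * Real.exp (l * (z - a)))) z := by
    intro z
    have h1 : HasDerivAt (fun z => Real.exp (l * (z - a))) (Real.exp (l * (z - a)) * (l * 1)) z :=
      (((hasDerivAt_id z).sub_const a).const_mul l).exp
    have h2 := ((h1.const_sub (Real.exp (l * (p - a)))).div_const l).const_add 1 |>.const_mul K
    refine h2.congr_deriv ?_
    field_simp
  have key : ∀ ε : ℝ, 0 < ε → ∀ z ∈ Ioc a p, s * y z ≤ w z + ε * J z := by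
    intro ε hε
    have h := hMXP a p h (fun z => s * y z - w z - ε * J z)
      (fun z => s * v z + K * (h z * Real.exp (l * (z - a))) + ε) D.ap
      (fun z hz => D.pos z hz.1 (hz.2.trans (D.pq.trans D.qb))) ?_ ?_ ?_ ?_ ?_
    · intro z hz
      have h9 : s * y z - w z - ε * J z ≤ 0 := h z hz
      linarith
    · intro z hz
      have hz' : z ∈ Ioc a p := ⟨hz.1, hz.2.le⟩
      have hp := D.pos z hz.1 (hz.2.trans (D.pq.trans D.qb))
      have h1 := (((hS z hz').1.const_mul s).sub (hwd z)).sub ((J_deriv D hz').const_mul ε)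
      refine h1.congr_deriv ?_
      field_simp
      ring
    · intro z hz hpos
      have hz' : z ∈ Ioc a p := ⟨hz.1, hz.2.le⟩
      have hz2 : z ∈ Icc a p := ⟨hz.1.le, hz.2.le⟩
      have hp := D.pos z hz.1 (hz.2.trans (D.pq.trans D.qb))
      have hh : HasDerivAt h (deriv h z) z :=
        (D.smooth.differentiable (by norm_num) z).hasDerivAt
      have hE : HasDerivAt (fun z => Real.exp (l * (z - a)))
          (Real.exp (l * (z - a)) * (l * 1)) z :=
        (((hasDerivAt_id z).sub_const a).const_mul l).exp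
      refine ⟨_, ?_, ((((hS z hz').2.const_mul s).add ((hh.mul hE).const_mul K)).add_const ε)⟩
      have hE1 : 1 ≤ Real.exp (l * (z - a)) := by
        apply Real.one_le_exp
        have := hz.1
        apply mul_nonneg hl.le
        linarith
      have hJ0 := J_nonneg D hz'
      have hW := D.W1 z hz.1.le hz.2
      have hsy : w z < s * y z := by
        have : 0 ≤ ε * J z := mul_nonneg hε.le hJ0
        linarith
      have hwz := hwK z hz'
      have hsF : -R ≤ s * F z := by
        have h1 : |s * F z| ≤ R := by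
          rw [abs_mul, hs, one_mul]
          exact (hb z hz').1
        exact (abs_le.1 h1).1
      have hn2 : (1 : ℝ) ≤ (n : ℝ) ^ 2 := one_le_pow₀ (by exact_mod_cast hn)
      have hq := hl1 z hz2
      have hKc : K * c₂ = R := by
        rw [hK]
        field_simp
      have t1 : W h z * K < (n : ℝ) ^ 2 * W h z * (s * y z) := by
        calc W h z * K = 1 * W h z * K := by ring
          _ ≤ (n : ℝ) ^ 2 * W h z * K := by gcongr
          _ < (n : ℝ) ^ 2 * W h z * (s * y z) := by
            apply mul_lt_mul_of_pos_left (hwz.trans_lt hsy)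
            positivity
      have t2 : K * (h z * (deriv h z + l * h z)) ≤
          K * (h z * (deriv h z + l * h z)) * Real.exp (l * (z - a)) := by
        have : 0 ≤ K * (h z * (deriv h z + l * h z)) := by positivity
        exact le_mul_of_one_le_right this hE1
      have t3 : K * c₂ ≤ K * (W h z + h z * (deriv h z + l * h z)) := by
        gcongr
        exact hΦ z hz2
      have t4 : 0 < (n : ℝ) ^ 2 * W h z * (s * y z) + s * F z +
          K * (h z * (deriv h z + l * h z)) * Real.exp (l * (z - a)) := by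
        nlinarith
      have t5 : s * (((n : ℝ) ^ 2 * W h z * y z + F z) / h z) +
          K * (deriv h z * Real.exp (l * (z - a)) + h z * (Real.exp (l * (z - a)) * (l * 1))) =
          ((n : ℝ) ^ 2 * W h z * (s * y z) + s * F z +
          K * (h z * (deriv h z + l * h z)) * Real.exp (l * (z - a))) / h z := by
        field_simp
      rw [t5]
      positivity
    · intro z hz
      have h1 : ContinuousAt y z := (hS z hz).1.continuousAt
      have h2 : ContinuousAt w z := (hwd z).continuousAt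
      have h3 : ContinuousAt J z := (J_deriv D hz).continuousAt
      exact (((continuousAt_const.mul h1).sub h2).sub (continuousAt_const.mul h3)).continuousWithinAt
    · have h1 : J p = 0 := intervalIntegral.integral_same
      have h2 := hwK p ⟨D.ap, le_rfl⟩
      simp only [hy, h1, mul_zero, sub_zero, zero_sub]
      linarith
    · have h1 := (hDVG h a p q b D).eventually_ge_atTop (M / ε)
      have h2 : ∀ᶠ z in 𝓝[>] a, z ∈ Ioo a p := Ioo_mem_nhdsGT D.ap
      obtain ⟨a', ha', h3⟩ := (mem_nhdsGT_iff_exists_Ioo_subset).1 (h1.and h2)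
      refine ⟨a', ha', fun z hz => ?_⟩
      obtain ⟨h4, h5⟩ := h3 hz
      have hz' : z ∈ Ioc a p := ⟨h5.1, h5.2.le⟩
      have h6 : M ≤ ε * J z := by
        rw [div_le_iff₀' hε] at h4
        exact h4
      have h7 : s * y z ≤ M := by
        refine (le_abs_self _).trans ?_
        rw [abs_mul, hs, one_mul]
        exact (hb z hz').2
      have h8 := hwK z hz'
      linarith
  by_contra hlt
  push Not at hlt
  have hJ0 : 0 ≤ J z := J_nonneg D hz
  have h1 := key ((s * y z - w z) / (2 * (J z + 1))) (by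
    apply div_pos _ (by positivity)
    have : w z < s * y z := hlt
    linarith) z hz
  have h2 : (s * y z - w z) / (2 * (J z + 1)) * J z < s * y z - w z := by
    have h3 : 0 < s * y z - w z := by
      have : w z < s * y z := hlt
      linarith
    rw [div_mul_eq_mul_div, div_lt_iff₀ (by positivity)]
    nlinarith
  linarith

end CAPM

open CAPM in
theorem specCAP (hMXP : SpecMXP) (hDVG : SpecDVG) : SpecCAP := by
  intro h a p q b D
  obtain ⟨l, hl, hl1⟩ := exists_lam D
  have hc := D.smooth.continuous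
  have hWc := W_cont D.smooth
  have hdc := d_cont D.smooth
  obtain ⟨c₂, hc₂, hΦ⟩ := (isCompact_Icc (a := a) (b := p)).exists_forall_le'
    (f := fun z => W h z + h z * (deriv h z + l * h z))
    (hWc.add (hc.mul (hdc.add (continuous_const.mul hc)))).continuousOn (a := 0) (fun z hz => by
      have h1 := hl1 z hz
      have h2 := h_nonneg D hz
      rcases eq_or_lt_of_le hz.2 with h3 | h3
      · have h4 : 0 < h z := by
          rw [h3]
          exact D.pos p D.ap (D.pq.trans D.qb)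
        have h5 : 0 ≤ W h z := by
          -- continuity from the left
          have h6 : ∀ᶠ t in 𝓝[<] p, 0 ≤ W h t := by
            filter_upwards [Ioo_mem_nhdsLT D.ap] with t ht
            exact (D.W1 t ht.1.le ht.2).le
          rw [h3]
          exact ge_of_tendsto (hWc.continuousAt.tendsto.mono_left nhdsWithin_le_nhds) h6
        positivity
      · have h4 := D.W1 z hz.1 h3
        positivity)
  obtain ⟨Hm, hHm⟩ := isCompact_Icc.exists_bound_of_continuousOn (f := h) (s := Icc a p)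
    hc.continuousOn
  obtain ⟨Wm, hWm⟩ := isCompact_Icc.exists_bound_of_continuousOn (f := W h) (s := Icc a p)
    hWc.continuousOn
  set m : ℝ := (a + p) / 2 with hm
  have hap := D.ap
  have ham : a < m := by
    rw [hm]
    linarith
  have hmp : m < p := by
    rw [hm]
    linarith
  obtain ⟨h₀, hh₀, hh₀'⟩ := (isCompact_Icc (a := m) (b := p)).exists_forall_le' hc.continuousOn
    (a := 0) (fun z hz => D.pos z (ham.trans_le hz.1) (hz.2.trans_lt (D.pq.trans D.qb)))
  set C₀ : ℝ := (1 + Real.exp (l * (p - a)) / l) / c₂ with hC₀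
  have hC₀p : 0 < C₀ := by positivity
  have hHm0 : 0 ≤ Hm := (norm_nonneg _).trans (hHm a ⟨le_rfl, hap.le⟩)
  have hWm0 : 0 ≤ Wm := (norm_nonneg _).trans (hWm a ⟨le_rfl, hap.le⟩)
  have hpm : 0 < p - m := by linarith
  refine ⟨C₀ + (Hm * C₀ / (p - m) + (p - m) * (Wm * C₀ + 1) / h₀), by positivity,
    fun n hn F y v R M hS hR hb hy => ?_⟩
  have hn2 : (1 : ℝ) ≤ (n : ℝ) ^ 2 := one_le_pow₀ (by exact_mod_cast hn)
  have hyb : ∀ z ∈ Ioc a p, |y z| ≤ C₀ * R := by
    intro z hz
    have h1 := side hMXP hDVG D hl hl1 hc₂ hΦ hn hS hR hb hy (s := 1) (by simp) hz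
    have h2 := side hMXP hDVG D hl hl1 hc₂ hΦ hn hS hR hb hy (s := -1) (by simp) hz
    have h3 : R / c₂ * (1 + (Real.exp (l * (p - a)) - Real.exp (l * (z - a))) / l) ≤ C₀ * R := by
      have h4 : C₀ * R = R / c₂ * (1 + Real.exp (l * (p - a)) / l) := by
        rw [hC₀]
        ring
      rw [h4]
      have h5 := Real.exp_pos (l * (z - a))
      have h6 : (Real.exp (l * (p - a)) - Real.exp (l * (z - a))) / l ≤
          Real.exp (l * (p - a)) / l := by
        gcongr
        linarith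
      gcongr
    rw [abs_le]
    constructor <;> linarith
  refine ⟨fun z hz => (hyb z hz).trans ?_, ?_⟩
  · gcongr
    have : 0 ≤ Hm * C₀ / (p - m) + (p - m) * (Wm * C₀ + 1) / h₀ := by positivity
    linarith
  · have hsub : ∀ z ∈ Icc m p, z ∈ Ioc a p := fun z hz => ⟨ham.trans_le hz.1, hz.2⟩
    obtain ⟨ξ, hξ, hξ'⟩ := exists_hasDerivAt_eq_slope y (fun z => v z / h z) hmp
      (fun z hz => (hS z (hsub z hz)).1.continuousAt.continuousWithinAt)
      (fun z hz => (hS z (hsub z ⟨hz.1.le, hz.2.le⟩)).1)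
    have hξ2 : ξ ∈ Icc m p := ⟨hξ.1.le, hξ.2.le⟩
    have hξp := D.pos ξ (hsub ξ hξ2).1 (hξ2.2.trans_lt (D.pq.trans D.qb))
    have h1 : |v ξ| ≤ Hm * (C₀ * R) / (p - m) := by
      have h2 : v ξ = h ξ * ((y p - y m) / (p - m)) := by
        rw [← hξ']
        field_simp
      rw [h2, abs_mul, abs_div, hy, zero_sub, abs_neg, abs_of_pos hpm, mul_div_assoc]
      have h3 := hHm ξ ⟨(hsub ξ hξ2).1.le, hξ2.2⟩
      rw [Real.norm_eq_abs] at h3
      have h4 := hyb m ⟨ham, hmp.le⟩
      gcongr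
    have h5 : ∀ z ∈ Icc m p, |((n : ℝ) ^ 2 * W h z * y z + F z) / h z| ≤
        ((n : ℝ) ^ 2 * Wm * (C₀ * R) + R) / h₀ := by
      intro z hz
      have h6 := hh₀' z hz
      have h7 := hWm z ⟨(hsub z hz).1.le, hz.2⟩
      rw [Real.norm_eq_abs] at h7
      have h8 := hyb z (hsub z hz)
      have h9 := (hb z (hsub z hz)).1
      rw [abs_div, abs_of_pos (hh₀.trans_le h6)]
      have h10 : |(n : ℝ) ^ 2 * W h z * y z + F z| ≤ (n : ℝ) ^ 2 * Wm * (C₀ * R) + R := by
        refine (abs_add_le _ _).trans ?_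
        rw [abs_mul, abs_mul, abs_of_nonneg (by positivity : (0 : ℝ) ≤ (n : ℝ) ^ 2)]
        gcongr
      gcongr
    have h11 : |v p - v ξ| ≤ ((n : ℝ) ^ 2 * Wm * (C₀ * R) + R) / h₀ * (p - ξ) := by
      have := (convex_Icc m p).norm_image_sub_le_of_norm_hasDerivWithin_le (f := v)
        (f' := fun z => ((n : ℝ) ^ 2 * W h z * y z + F z) / h z)
        (C := ((n : ℝ) ^ 2 * Wm * (C₀ * R) + R) / h₀)
        (fun z hz => (hS z (hsub z hz)).2.hasDerivWithinAt) (fun z hz => h5 z hz) hξ2
        (right_mem_Icc.2 hmp.le)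
      rw [Real.norm_eq_abs, Real.norm_eq_abs, abs_of_nonneg (by linarith [hξ.2] : 0 ≤ p - ξ)] at this
      exact this
    have h12 : |v p| ≤ |v ξ| + |v p - v ξ| := by
      have := abs_add_le (v ξ) (v p - v ξ)
      rwa [add_sub_cancel] at this
    have h13 : ((n : ℝ) ^ 2 * Wm * (C₀ * R) + R) / h₀ * (p - ξ) ≤
        (p - m) * ((n : ℝ) ^ 2 * (Wm * C₀ + 1)) / h₀ * R := by
      have h14 : (n : ℝ) ^ 2 * Wm * (C₀ * R) + R ≤ ((n : ℝ) ^ 2 * (Wm * C₀ + 1)) * R := by
        nlinarith
      have h15 : p - ξ ≤ p - m := by linarith [hξ.1]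
      calc _ ≤ ((n : ℝ) ^ 2 * (Wm * C₀ + 1)) * R / h₀ * (p - m) := by
            gcongr
            linarith [hξ.2]
        _ = _ := by ring
    have h16 : Hm * (C₀ * R) / (p - m) ≤ (n : ℝ) ^ 2 * (Hm * C₀ / (p - m)) * R := by
      calc _ = 1 * (Hm * C₀ / (p - m)) * R := by ring
        _ ≤ _ := by gcongr
    calc |v p| ≤ (n : ℝ) ^ 2 * (Hm * C₀ / (p - m)) * R +
          (p - m) * ((n : ℝ) ^ 2 * (Wm * C₀ + 1)) / h₀ * R := by linarith
      _ = (0 + (Hm * C₀ / (p - m) + (p - m) * (Wm * C₀ + 1) / h₀)) * (n : ℝ) ^ 2 * R := by ring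
      _ ≤ _ := by gcongr

end Pool.Agent.Lib.MP478c11.DB
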