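import Pool.Agent.Lib.MP_478c11_gt.DB.Spec

/-!
# MP_478c11_gt, module DEP: continuous dependence for fixed `n`
-/

set_option autoImplicit false

namespace Pool.Agent.Lib.MP478c11.DB

open Set Filter Topology MeasureTheory
open scoped ContDiff

noncomputable section

namespace DEPM

/-- elementary inequality for the energy -/
theorem ineq1 (A B y v : ℝ) : |2 * (A + B) * (y * v)| ≤ (|A| + |B|) * (y ^ 2 + v ^ 2) := by
  have h1 : |2 * (A + B) * (y * v)| = |A + B| * (2 * |y * v|) := by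
    rw [abs_mul, abs_mul, abs_of_pos (by norm_num : (0 : ℝ) < 2)]; ring
  have h2 : 2 * |y * v| ≤ y ^ 2 + v ^ 2 := by
    rw [abs_mul]
    nlinarith [sq_nonneg (|y| - |v|), sq_abs y, sq_abs v]
  rw [h1]
  exact mul_le_mul (abs_add_le A B) h2 (by positivity) (by positivity)

theorem ineq2 (A B D E a b : ℝ) : |2 * D * (A * E + a) + 2 * E * (B * D + b)| ≤
    (|A| + |B| + 1) * (D ^ 2 + E ^ 2) + (a ^ 2 + b ^ 2) := by
  have h1 : 2 * D * (A * E + a) + 2 * E * (B * D + b) =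
      2 * (A + B) * (D * E) + (2 * D * a + 2 * E * b) := by ring
  rw [h1]
  have h2 := ineq1 A B D E
  have h3 : |2 * D * a + 2 * E * b| ≤ (D ^ 2 + E ^ 2) + (a ^ 2 + b ^ 2) := by
    rw [abs_le]
    constructor
    · nlinarith [sq_nonneg (D + a), sq_nonneg (E + b)]
    · nlinarith [sq_nonneg (D - a), sq_nonneg (E - b)]
  have h4 := abs_add_le (2 * (A + B) * (D * E)) (2 * D * a + 2 * E * b)
  linarith

/-- bounds for the coefficients in terms of `r`, `κ` -/
theorem coef (r r2 k k2 μ r₀ M : ℝ) (hr₀ : 0 < r₀) (hM : 1 ≤ M) (h1 : r₀ ≤ r) (h2 : r ≤ M)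
    (h3 : |r2| ≤ M) (h4 : |k| ≤ M) (h5 : |k2| ≤ M) (h6 : |μ| ≤ 1) (h7 : |μ| * M ≤ r₀ / 2) :
    0 < r + μ * k ∧ |(r ^ 2)⁻¹| ≤ (2 / r₀) ^ 2 ∧ |((r + μ * k) ^ 2)⁻¹| ≤ (2 / r₀) ^ 2 ∧
    |r * r2| ≤ 4 * M ^ 2 ∧ |(r + μ * k) * (r2 + μ * k2)| ≤ 4 * M ^ 2 ∧
    |((r + μ * k) ^ 2)⁻¹ - (r ^ 2)⁻¹| ≤ (2 * M * (2 / r₀) ^ 3) * |μ| ∧
    |(r + μ * k) * (r2 + μ * k2) - r * r2| ≤ (3 * M ^ 2) * |μ| := by
  have hM0 : 0 < M := by linarith
  have hk : |μ * k| ≤ |μ| * M := by
    rw [abs_mul]; exact mul_le_mul_of_nonneg_left h4 (abs_nonneg _)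
  have hk' := abs_le.1 (hk.trans h7)
  have hr1 : r₀ / 2 ≤ r + μ * k := by linarith [hk'.1]
  have hr1pos : 0 < r + μ * k := by linarith
  have hrpos : 0 < r := by linarith
  have hs : r⁻¹ ≤ 2 / r₀ := by
    rw [inv_le_comm₀ hrpos (by positivity), inv_div]
    linarith
  have hs1 : (r + μ * k)⁻¹ ≤ 2 / r₀ := by
    rw [inv_le_comm₀ hr1pos (by positivity), inv_div]
    exact hr1
  have hs0 : 0 < r⁻¹ := inv_pos.2 hrpos
  have hs10 : 0 < (r + μ * k)⁻¹ := inv_pos.2 hr1pos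
  have hmM : |μ| * M ≤ M := by nlinarith [abs_nonneg μ]
  have hr1M : |r + μ * k| ≤ 2 * M := by
    rw [abs_of_pos hr1pos]
    have := le_abs_self (μ * k)
    linarith
  have hr2M : |r2 + μ * k2| ≤ 2 * M := by
    have h8 : |μ * k2| ≤ |μ| * M := by
      rw [abs_mul]; exact mul_le_mul_of_nonneg_left h5 (abs_nonneg _)
    have h9 := abs_add_le r2 (μ * k2)
    linarith
  have hrM : |r| ≤ M := by rw [abs_of_pos hrpos]; exact h2
  refine ⟨hr1pos, ?_, ?_, ?_, ?_, ?_, ?_⟩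
  · rw [← inv_pow, abs_of_pos (by positivity)]
    exact pow_le_pow_left₀ hs0.le hs 2
  · rw [← inv_pow, abs_of_pos (by positivity)]
    exact pow_le_pow_left₀ hs10.le hs1 2
  · rw [abs_mul]
    have := mul_le_mul hrM h3 (abs_nonneg _) hM0.le
    nlinarith
  · rw [abs_mul]
    have := mul_le_mul hr1M hr2M (abs_nonneg _) (by positivity)
    nlinarith
  · have e1 : ((r + μ * k) ^ 2)⁻¹ - (r ^ 2)⁻¹ =
        -(μ * k) * (r⁻¹ * (r + μ * k)⁻¹ * (r⁻¹ + (r + μ * k)⁻¹)) := by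
      have hne : r + μ * k ≠ 0 := hr1pos.ne'
      have hne' : r ≠ 0 := hrpos.ne'
      field_simp
      ring
    rw [e1, abs_mul, abs_neg, abs_of_pos (by positivity :
      0 < r⁻¹ * (r + μ * k)⁻¹ * (r⁻¹ + (r + μ * k)⁻¹))]
    have e2 : r⁻¹ * (r + μ * k)⁻¹ * (r⁻¹ + (r + μ * k)⁻¹) ≤
        (2 / r₀) * (2 / r₀) * (2 / r₀ + 2 / r₀) :=
      mul_le_mul (mul_le_mul hs hs1 hs10.le (by positivity)) (add_le_add hs hs1) (by positivity)
        (by positivity)
    have e3 := mul_le_mul hk e2 (by positivity) (by positivity)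
    have e4 : |μ| * M * ((2 / r₀) * (2 / r₀) * (2 / r₀ + 2 / r₀)) =
        (2 * M * (2 / r₀) ^ 3) * |μ| := by ring
    rw [e4] at e3
    exact e3
  · have e1 : (r + μ * k) * (r2 + μ * k2) - r * r2 = μ * (k * r2 + r * k2 + μ * (k * k2)) := by ring
    rw [e1, abs_mul]
    have e2 : |k * r2| ≤ M * M := by
      rw [abs_mul]; exact mul_le_mul h4 h3 (abs_nonneg _) hM0.le
    have e3 : |r * k2| ≤ M * M := by
      rw [abs_mul]; exact mul_le_mul hrM h5 (abs_nonneg _) hM0.le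
    have e4 : |μ * (k * k2)| ≤ 1 * (M * M) := by
      rw [abs_mul, abs_mul]
      exact mul_le_mul h6 (mul_le_mul h4 h5 (abs_nonneg _) hM0.le) (by positivity) zero_le_one
    have e5 : |k * r2 + r * k2 + μ * (k * k2)| ≤ 3 * M ^ 2 := by
      have f1 := abs_add_le (k * r2 + r * k2) (μ * (k * k2))
      have f2 := abs_add_le (k * r2) (r * k2)
      nlinarith
    have e6 := mul_le_mul_of_nonneg_left e5 (abs_nonneg μ)
    linarith

/-- the comparison of two linear systems -/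
theorem cmp (hGRW : SpecGRW) (p q K L : ℝ) (hpq : p ≤ q) (hK : 0 ≤ K) (_hL : 0 ≤ L) :
    ∃ C : ℝ, 0 < C ∧ ∀ (m : ℝ) (al be al1 be1 y v y1 v1 : ℝ → ℝ), 0 ≤ m →
      (∀ z ∈ Icc p q, |al z| + |be z| ≤ K) → (∀ z ∈ Icc p q, |al1 z| + |be1 z| ≤ K) →
      (∀ z ∈ Icc p q, |al1 z - al z| ≤ L * m) → (∀ z ∈ Icc p q, |be1 z - be z| ≤ L * m) →
      (∀ z ∈ Icc p q, HasDerivAt y (al z * v z) z) → (∀ z ∈ Icc p q, HasDerivAt v (be z * y z) z) →
      (∀ z ∈ Icc p q, HasDerivAt y1 (al1 z * v1 z) z) →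
      (∀ z ∈ Icc p q, HasDerivAt v1 (be1 z * y1 z) z) → y1 p = y p → v1 p = v p →
      ∀ z ∈ Icc p q, |y1 z - y z| + |v1 z - v z| ≤ C * m * (|y p| + |v p|) := by
  set E1 := Real.exp (∫ _ in p..q, K) with hE1
  set E2 := Real.exp (∫ _ in p..q, (K + 1)) with hE2
  have hE1p : 0 < E1 := Real.exp_pos _
  have hE2p : 0 < E2 := Real.exp_pos _
  set c := E2 * (L ^ 2 * E1 * (q - p)) with hc
  have hqp : 0 ≤ q - p := by linarith
  have hc0 : 0 ≤ c := by positivity
  refine ⟨1 + 2 * c, by positivity, ?_⟩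
  intro m al be al1 be1 y v y1 v1 hm hK1 hK2 hL1 hL2 hy hv hy1 hv1 h0y h0v z hz
  have hp : p ∈ Icc p q := ⟨le_refl p, hpq⟩
  -- the energy of the first solution
  have hf : ∀ z ∈ Icc p q, y z ^ 2 + v z ^ 2 ≤ E1 * (y p ^ 2 + v p ^ 2) := by
    intro z hz
    have h1 := hGRW p q 0 (fun z => y z * y z + v z * v z)
      (fun z => 2 * (al z + be z) * (y z * v z)) (fun _ => K) hpq (le_refl 0) continuousOn_const
      (fun z _ => ⟨hK, by nlinarith [mul_self_nonneg (y z), mul_self_nonneg (v z)]⟩)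
      (fun z hz => by
        constructor
        · have h2 : HasDerivAt (fun z => y z * y z + v z * v z)
              (al z * v z * y z + y z * (al z * v z) + (be z * y z * v z + v z * (be z * y z))) z :=
            ((hy z hz).mul (hy z hz)).add ((hv z hz).mul (hv z hz))
          refine h2.congr_deriv ?_
          ring
        · rw [add_zero]
          refine (ineq1 (al z) (be z) (y z) (v z)).trans ?_
          have h3 : y z * y z + v z * v z = y z ^ 2 + v z ^ 2 := by ring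
          rw [h3]
          exact mul_le_mul_of_nonneg_right (hK1 z hz) (by positivity)) z hz p hp
    have h4 : y z * y z + v z * v z = y z ^ 2 + v z ^ 2 := by ring
    have h5 : y p * y p + v p * v p = y p ^ 2 + v p ^ 2 := by ring
    simp only [zero_mul, add_zero] at h1
    rw [h4, h5] at h1
    exact h1
  set S := y p ^ 2 + v p ^ 2 with hS
  have hS0 : 0 ≤ S := by positivity
  have hf1 := hGRW p q ((L * m) ^ 2 * (E1 * S))
    (fun z => (y1 z - y z) * (y1 z - y z) + (v1 z - v z) * (v1 z - v z))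
    (fun z => 2 * (y1 z - y z) * (al1 z * (v1 z - v z) + (al1 z - al z) * v z) +
      2 * (v1 z - v z) * (be1 z * (y1 z - y z) + (be1 z - be z) * y z)) (fun _ => K + 1) hpq
    (by positivity) continuousOn_const
    (fun z _ => ⟨by linarith, by
      nlinarith [mul_self_nonneg (y1 z - y z), mul_self_nonneg (v1 z - v z)]⟩)
    (fun z hz => by
      have d1 : HasDerivAt (fun z => y1 z - y z) (al1 z * v1 z - al z * v z) z :=
        (hy1 z hz).sub (hy z hz)
      have d2 : HasDerivAt (fun z => v1 z - v z) (be1 z * y1 z - be z * y z) z :=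
        (hv1 z hz).sub (hv z hz)
      constructor
      · have h2 : HasDerivAt (fun z => (y1 z - y z) * (y1 z - y z) + (v1 z - v z) * (v1 z - v z))
            ((al1 z * v1 z - al z * v z) * (y1 z - y z) +
              (y1 z - y z) * (al1 z * v1 z - al z * v z) +
              ((be1 z * y1 z - be z * y z) * (v1 z - v z) +
              (v1 z - v z) * (be1 z * y1 z - be z * y z))) z :=
          (d1.mul d1).add (d2.mul d2)
        refine h2.congr_deriv ?_
        ring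
      · refine (ineq2 (al1 z) (be1 z) (y1 z - y z) (v1 z - v z) ((al1 z - al z) * v z)
          ((be1 z - be z) * y z)).trans ?_
        have h3 : (y1 z - y z) * (y1 z - y z) + (v1 z - v z) * (v1 z - v z) =
            (y1 z - y z) ^ 2 + (v1 z - v z) ^ 2 := by ring
        rw [h3]
        refine add_le_add ?_ ?_
        · exact mul_le_mul_of_nonneg_right (by linarith [hK2 z hz]) (by positivity)
        · have g1 : (al1 z - al z) ^ 2 ≤ (L * m) ^ 2 := by
            rw [← sq_abs (al1 z - al z)]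
            exact pow_le_pow_left₀ (abs_nonneg _) (hL1 z hz) 2
          have g2 : (be1 z - be z) ^ 2 ≤ (L * m) ^ 2 := by
            rw [← sq_abs (be1 z - be z)]
            exact pow_le_pow_left₀ (abs_nonneg _) (hL2 z hz) 2
          have g3 := mul_le_mul_of_nonneg_right g1 (sq_nonneg (v z))
          have g4 := mul_le_mul_of_nonneg_right g2 (sq_nonneg (y z))
          have g5 := mul_le_mul_of_nonneg_left (hf z hz) (sq_nonneg (L * m))
          have g6 : ((al1 z - al z) * v z) ^ 2 + ((be1 z - be z) * y z) ^ 2 =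
            (al1 z - al z) ^ 2 * v z ^ 2 + (be1 z - be z) ^ 2 * y z ^ 2 := by ring
          rw [g6]
          linarith) z hz p hp
  rw [h0y, h0v] at hf1
  simp only [sub_self, mul_zero, add_zero, zero_add] at hf1
  have k1 : (y1 z - y z) ^ 2 + (v1 z - v z) ^ 2 ≤ c * m ^ 2 * S := by
    have h3 : (y1 z - y z) * (y1 z - y z) + (v1 z - v z) * (v1 z - v z) =
      (y1 z - y z) ^ 2 + (v1 z - v z) ^ 2 := by ring
    rw [h3] at hf1
    refine hf1.trans (le_of_eq ?_)
    rw [hc]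
    ring
  have k2 : S ≤ (|y p| + |v p|) ^ 2 := by
    rw [hS, ← sq_abs (y p), ← sq_abs (v p)]
    nlinarith [mul_nonneg (abs_nonneg (y p)) (abs_nonneg (v p))]
  have k3 : (|y1 z - y z| + |v1 z - v z|) ^ 2 ≤ ((1 + 2 * c) * m * (|y p| + |v p|)) ^ 2 := by
    have e1 : (|y1 z - y z| + |v1 z - v z|) ^ 2 ≤ 2 * ((y1 z - y z) ^ 2 + (v1 z - v z) ^ 2) := by
      rw [← sq_abs (y1 z - y z), ← sq_abs (v1 z - v z)]
      nlinarith [sq_nonneg (|y1 z - y z| - |v1 z - v z|)]
    have e2 : c * m ^ 2 * S ≤ c * m ^ 2 * (|y p| + |v p|) ^ 2 :=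
      mul_le_mul_of_nonneg_left k2 (by positivity)
    have e3 : 2 * (c * m ^ 2 * (|y p| + |v p|) ^ 2) ≤
        (1 + 2 * c) ^ 2 * (m ^ 2 * (|y p| + |v p|) ^ 2) := by
      have e4 : 0 ≤ m ^ 2 * (|y p| + |v p|) ^ 2 := by positivity
      have e5 : 2 * c ≤ (1 + 2 * c) ^ 2 := by nlinarith
      nlinarith
    have e6 : ((1 + 2 * c) * m * (|y p| + |v p|)) ^ 2 =
        (1 + 2 * c) ^ 2 * (m ^ 2 * (|y p| + |v p|) ^ 2) := by ring
    rw [e6]
    linarith
  exact (pow_le_pow_iff_left₀ (by positivity) (by positivity) two_ne_zero).1 k3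

end DEPM

theorem specDEP (hGRW : SpecGRW) (hSQR : SpecSQR) (_hPD : SpecPD) : SpecDEP := by
  intro h κ a p q b c d hD hpc hcd hdq hκ n
  have hpq : p ≤ q := hD.pq.le
  have hpos : ∀ z ∈ Icc p q, 0 < h z := fun z hz =>
    hD.pos z (lt_of_lt_of_le hD.ap hz.1) (lt_of_le_of_lt hz.2 hD.qb)
  have hrs : ∀ z ∈ Icc p q, ContDiffAt ℝ ∞ (fun z => √(h z)) z := fun z hz =>
    (hSQR.1 h z hD.smooth (hpos z hz)).1
  have hrc : ContinuousOn (fun z => √(h z)) (Icc p q) := fun z hz =>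
    (hrs z hz).continuousAt.continuousWithinAt
  have hr2c : ContinuousOn (deriv (deriv fun z => √(h z))) (Icc p q) := by
    intro z hz
    have h1 : ContDiffAt ℝ ∞ (deriv fun z => √(h z)) z :=
      (hrs z hz).derivWithin (m := ∞) (by simp)
    have h2 : ContDiffAt ℝ ∞ (deriv (deriv fun z => √(h z))) z :=
      h1.derivWithin (m := ∞) (by simp)
    exact h2.continuousAt.continuousWithinAt
  have hκ2 : Continuous (deriv (deriv κ)) := by
    have h1 : ContDiff ℝ ∞ (deriv κ) := (contDiff_infty_iff_deriv.1 hκ.1).2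
    exact (contDiff_infty_iff_deriv.1 h1).2.continuous
  obtain ⟨M1, hM1⟩ := isCompact_Icc.exists_bound_of_continuousOn hrc
  obtain ⟨M2, hM2⟩ := isCompact_Icc.exists_bound_of_continuousOn hr2c
  obtain ⟨M3, hM3⟩ := isCompact_Icc.exists_bound_of_continuousOn
    (hκ.1.continuous.continuousOn (s := Icc p q))
  obtain ⟨M4, hM4⟩ := isCompact_Icc.exists_bound_of_continuousOn (hκ2.continuousOn (s := Icc p q))
  obtain ⟨z₀, hz₀, hmin⟩ := isCompact_Icc.exists_isMinOn ⟨p, le_refl p, hpq⟩ hrc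
  set r₀ := √(h z₀) with hr₀
  have hr₀p : 0 < r₀ := Real.sqrt_pos.2 (hpos z₀ hz₀)
  set M := 1 + |M1| + |M2| + |M3| + |M4| with hM
  have b1 := abs_nonneg M1
  have b2 := abs_nonneg M2
  have b3 := abs_nonneg M3
  have b4 := abs_nonneg M4
  have hM1' : 1 ≤ M := by rw [hM]; linarith
  have hM0 : 0 < M := by linarith
  set N := (n : ℝ) ^ 2 with hN
  have hN0 : 0 ≤ N := by positivity
  obtain ⟨C, hC0, hC⟩ := DEPM.cmp hGRW p q ((2 / r₀) ^ 2 + N * (4 * M ^ 2))
    (2 * M * (2 / r₀) ^ 3 + N * (3 * M ^ 2)) hpq (by positivity) (by positivity)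
  refine ⟨C, min 1 (r₀ / (2 * M)), hC0, by positivity, ?_⟩
  intro μ hμ y v y₁ v₁ hS hS₁ h0y h0v z hz
  have hμ1 : |μ| ≤ 1 := hμ.trans (min_le_left _ _)
  have hμ2 : |μ| * M ≤ r₀ / 2 := by
    have h1 : |μ| ≤ r₀ / (2 * M) := hμ.trans (min_le_right _ _)
    rw [le_div_iff₀ (by positivity)] at h1
    linarith
  have hco : ∀ z ∈ Icc p q, _ := fun z hz => DEPM.coef (√(h z)) (deriv (deriv fun z => √(h z)) z)
    (κ z) (deriv (deriv κ) z) μ r₀ M hr₀p hM1' (hmin hz)
    (by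
      have h1 := hM1 z hz
      rw [Real.norm_eq_abs] at h1
      have h2 := le_abs_self M1
      have h3 := le_abs_self (√(h z))
      rw [hM]; linarith)
    (by
      have h1 := hM2 z hz
      rw [Real.norm_eq_abs] at h1
      have h2 := le_abs_self M2
      rw [hM]; linarith)
    (by
      have h1 := hM3 z hz
      rw [Real.norm_eq_abs] at h1
      have h2 := le_abs_self M3
      rw [hM]; linarith)
    (by
      have h1 := hM4 z hz
      rw [Real.norm_eq_abs] at h1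
      have h2 := le_abs_self M4
      rw [hM]; linarith) hμ1 hμ2
  refine hC |μ| (fun z => (√(h z) ^ 2)⁻¹)
    (fun z => -(N * (√(h z) * deriv (deriv fun z => √(h z)) z)))
    (fun z => ((√(h z) + μ * κ z) ^ 2)⁻¹)
    (fun z => -(N * ((√(h z) + μ * κ z) *
      (deriv (deriv fun z => √(h z)) z + μ * deriv (deriv κ) z))))
    y v y₁ v₁ (abs_nonneg μ) ?_ ?_ ?_ ?_ ?_ ?_ ?_ ?_ h0y h0v z hz
  · intro z hz
    obtain ⟨-, e1, -, e3, -, -, -⟩ := hco z hz
    rw [abs_neg, abs_mul N, abs_of_nonneg hN0]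
    exact add_le_add e1 (mul_le_mul_of_nonneg_left e3 hN0)
  · intro z hz
    obtain ⟨-, -, e2, -, e4, -, -⟩ := hco z hz
    rw [abs_neg, abs_mul N, abs_of_nonneg hN0]
    exact add_le_add e2 (mul_le_mul_of_nonneg_left e4 hN0)
  · intro z hz
    obtain ⟨-, -, -, -, -, e5, -⟩ := hco z hz
    refine e5.trans (mul_le_mul_of_nonneg_right ?_ (abs_nonneg μ))
    have : 0 ≤ N * (3 * M ^ 2) := by positivity
    linarith
  · intro z hz
    obtain ⟨-, -, -, -, -, -, e6⟩ := hco z hz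
    have e7 : -(N * ((√(h z) + μ * κ z) *
        (deriv (deriv fun z => √(h z)) z + μ * deriv (deriv κ) z))) -
        -(N * (√(h z) * deriv (deriv fun z => √(h z)) z)) =
        -(N * ((√(h z) + μ * κ z) * (deriv (deriv fun z => √(h z)) z + μ * deriv (deriv κ) z) -
          √(h z) * deriv (deriv fun z => √(h z)) z)) := by ring
    rw [e7, abs_neg, abs_mul N, abs_of_nonneg hN0]
    have e8 := mul_le_mul_of_nonneg_left e6 hN0
    have e9 : 0 ≤ 2 * M * (2 / r₀) ^ 3 * |μ| := by positivity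
    calc N * |(√(h z) + μ * κ z) * (deriv (deriv fun z => √(h z)) z + μ * deriv (deriv κ) z) -
          √(h z) * deriv (deriv fun z => √(h z)) z| ≤ N * (3 * M ^ 2 * |μ|) := e8
      _ ≤ (2 * M * (2 / r₀) ^ 3 + N * (3 * M ^ 2)) * |μ| := by linarith
  · intro z hz
    refine (hS z hz).1.congr_deriv ?_
    rw [Real.sq_sqrt (hpos z hz).le]
    ring
  · intro z hz
    refine (hS z hz).2.congr_deriv ?_
    have hrp : √(h z) ≠ 0 := (Real.sqrt_pos.2 (hpos z hz)).ne'
    rw [(hSQR.1 h z hD.smooth (hpos z hz)).2]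
    have e1 : h z = √(h z) ^ 2 := (Real.sq_sqrt (hpos z hz).le).symm
    have e2 : ((n : ℝ) ^ 2 * (-(√(h z)) ^ 3 * deriv (deriv fun z => √(h z)) z) * y z + O z) / h z =
        ((n : ℝ) ^ 2 * (-(√(h z)) ^ 3 * deriv (deriv fun z => √(h z)) z) * y z + O z) /
          √(h z) ^ 2 := by rw [← e1]
    rw [e2]
    show ((n : ℝ) ^ 2 * (-(√(h z)) ^ 3 * deriv (deriv fun z => √(h z)) z) * y z + 0) / √(h z) ^ 2 =
      -((n : ℝ) ^ 2 * (√(h z) * deriv (deriv fun z => √(h z)) z)) * y z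
    field_simp
    ring
  · intro z hz
    obtain ⟨e0, -, -, -, -, -, -⟩ := hco z hz
    refine (hS₁ z hz).1.congr_deriv ?_
    rw [(hSQR.2 h κ μ z hD.smooth hκ.1 (hpos z hz) e0).1]
    ring
  · intro z hz
    obtain ⟨e0, -, -, -, -, -, -⟩ := hco z hz
    refine (hS₁ z hz).2.congr_deriv ?_
    have hrp : √(h z) + μ * κ z ≠ 0 := e0.ne'
    rw [(hSQR.2 h κ μ z hD.smooth hκ.1 (hpos z hz) e0).2,
      (hSQR.2 h κ μ z hD.smooth hκ.1 (hpos z hz) e0).1]
    show ((n : ℝ) ^ 2 * (-(√(h z) + μ * κ z) ^ 3 *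
      (deriv (deriv fun z => √(h z)) z + μ * deriv (deriv κ) z)) * y₁ z + 0) /
        (√(h z) + μ * κ z) ^ 2 =
      -((n : ℝ) ^ 2 * ((√(h z) + μ * κ z) *
        (deriv (deriv fun z => √(h z)) z + μ * deriv (deriv κ) z))) * y₁ z
    field_simp
    ring

end

end Pool.Agent.Lib.MP478c11.DB
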