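import Pool.Agent.Lib.MP_478c11_gt.DB.Spec

/-!
# DIF: the difference of two solutions with the same data
-/

set_option autoImplicit false

namespace Pool.Agent.Lib.MP478c11.DB

open Set Filter Topology MeasureTheory
open scoped ContDiff

namespace DIFM

/-- the derivative of the energy of the difference -/
theorem energy_deriv {l z : ℝ} {g' D D₁ : ℝ → ℝ} {a b e : ℝ} (hg : HasDerivAt g' a z)
    (hpos : 0 < g' z) (hD : HasDerivAt D (D₁ z) z) (hD₁ : HasDerivAt D₁ (-(l ^ 2 * (g' z * D z + e * b))) z) :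
    HasDerivAt (fun z => l ^ 2 * √(g' z) * D z ^ 2 + D₁ z ^ 2 / √(g' z))
      (l ^ 2 * a / (2 * √(g' z)) * D z ^ 2 - 2 * l ^ 2 * D₁ z * (e * b) / √(g' z) -
        D₁ z ^ 2 / √(g' z) * (a / (2 * g' z))) z := by
  have hs : 0 < √(g' z) := Real.sqrt_pos.2 hpos
  have hss : √(g' z) ^ 2 = g' z := Real.sq_sqrt hpos.le
  have h1 : HasDerivAt (fun z => √(g' z)) (a / (2 * √(g' z))) z := hg.sqrt hpos.ne'
  have h2 : HasDerivAt (fun z => l ^ 2 * √(g' z)) (l ^ 2 * (a / (2 * √(g' z)))) z := h1.const_mul _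
  have h3 := h2.mul (hD.pow 2)
  have h4 := (hD₁.pow 2).div h1 hs.ne'
  have h5 := h3.add h4
  refine h5.congr_deriv ?_
  rw [← hss]
  simp only [Real.sqrt_sq hs.le, Nat.cast_ofNat, Nat.add_one_sub_one, pow_one, Pi.pow_apply]
  have hs' : √(g' z) ≠ 0 := hs.ne'
  field_simp
  ring

/-- the bound of the derivative -/
theorem energy_bound {m M l s a e b D D₁ G η K : ℝ} (hm : 0 < m) (hs : 0 < s) (hss : s ^ 2 = G)
    (hG : m ≤ G) (ha : |a| ≤ M) (he : |e| ≤ M * η) (hb : l ^ 2 * b ^ 2 ≤ K)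
    (hM : 0 ≤ M) :
    |l ^ 2 * a / (2 * s) * D ^ 2 - 2 * l ^ 2 * D₁ * (e * b) / s - D₁ ^ 2 / s * (a / (2 * G))| ≤
      (M / (2 * m) + 1) * (l ^ 2 * s * D ^ 2 + D₁ ^ 2 / s) + l ^ 2 * (M * η) ^ 2 * K / √m := by
  have hG0 : 0 < G := lt_of_lt_of_le hm hG
  have hsm : √m ≤ s := by
    rw [← Real.sqrt_sq hs.le, hss]
    exact Real.sqrt_le_sqrt hG
  have hsm0 : 0 < √m := Real.sqrt_pos.2 hm
  have haG : |a| / (2 * G) ≤ M / (2 * m) := by
    apply div_le_div₀ hM ha (by positivity)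
    linarith
  -- first term
  have t1 : |l ^ 2 * a / (2 * s) * D ^ 2| ≤ M / (2 * m) * (l ^ 2 * s * D ^ 2) := by
    have e1 : l ^ 2 * a / (2 * s) * D ^ 2 = (l ^ 2 * s * D ^ 2) * (a / (2 * G)) := by
      rw [← hss]
      field_simp
    rw [e1, abs_mul, abs_of_nonneg (by positivity : 0 ≤ l ^ 2 * s * D ^ 2), abs_div,
      abs_of_pos (by positivity : 0 < 2 * G), mul_comm]
    exact mul_le_mul_of_nonneg_right haG (by positivity)
  have t3 : |D₁ ^ 2 / s * (a / (2 * G))| ≤ M / (2 * m) * (D₁ ^ 2 / s) := by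
    rw [abs_mul, abs_of_nonneg (by positivity : 0 ≤ D₁ ^ 2 / s), abs_div,
      abs_of_pos (by positivity : 0 < 2 * G), mul_comm]
    exact mul_le_mul_of_nonneg_right haG (by positivity)
  have t2 : |2 * l ^ 2 * D₁ * (e * b) / s| ≤ D₁ ^ 2 / s + l ^ 2 * (M * η) ^ 2 * K / √m := by
    have e2 : |2 * l ^ 2 * D₁ * (e * b) / s| = 2 * |D₁| * (l ^ 2 * |e| * |b|) / s := by
      rw [abs_div, abs_mul, abs_mul, abs_mul, abs_mul, abs_of_pos hs,
        abs_of_nonneg (by positivity : (0 : ℝ) ≤ l ^ 2), abs_of_pos (by norm_num : (0 : ℝ) < 2)]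
      ring
    rw [e2]
    have e3 : 2 * |D₁| * (l ^ 2 * |e| * |b|) ≤ D₁ ^ 2 + (l ^ 2 * |e| * |b|) ^ 2 := by
      have := two_mul_le_add_sq |D₁| (l ^ 2 * |e| * |b|)
      rw [sq_abs] at this
      exact this
    have hK : 0 ≤ K := le_trans (by positivity) hb
    have e4 : (l ^ 2 * |e| * |b|) ^ 2 ≤ l ^ 2 * (M * η) ^ 2 * K := by
      have h1 : |e| ^ 2 ≤ (M * η) ^ 2 := pow_le_pow_left₀ (abs_nonneg e) he 2
      calc (l ^ 2 * |e| * |b|) ^ 2 = l ^ 2 * |e| ^ 2 * (l ^ 2 * b ^ 2) := by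
            rw [mul_pow, mul_pow, sq_abs b]
            ring
        _ ≤ l ^ 2 * (M * η) ^ 2 * K := by
            apply mul_le_mul _ hb (by positivity) (by positivity)
            exact mul_le_mul_of_nonneg_left h1 (by positivity)
    calc 2 * |D₁| * (l ^ 2 * |e| * |b|) / s ≤ (D₁ ^ 2 + l ^ 2 * (M * η) ^ 2 * K) / s := by
          apply div_le_div_of_nonneg_right (e3.trans (by linarith)) hs.le
      _ = D₁ ^ 2 / s + l ^ 2 * (M * η) ^ 2 * K / s := by rw [add_div]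
      _ ≤ D₁ ^ 2 / s + l ^ 2 * (M * η) ^ 2 * K / √m := by
          have : l ^ 2 * (M * η) ^ 2 * K / s ≤ l ^ 2 * (M * η) ^ 2 * K / √m :=
            div_le_div_of_nonneg_left (by positivity) hsm0 hsm
          linarith
  have hp : 0 ≤ l ^ 2 * s * D ^ 2 := by positivity
  calc |l ^ 2 * a / (2 * s) * D ^ 2 - 2 * l ^ 2 * D₁ * (e * b) / s - D₁ ^ 2 / s * (a / (2 * G))|
      ≤ |l ^ 2 * a / (2 * s) * D ^ 2| + |2 * l ^ 2 * D₁ * (e * b) / s| +
        |D₁ ^ 2 / s * (a / (2 * G))| := (abs_sub _ _).trans (by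
          have := abs_sub (l ^ 2 * a / (2 * s) * D ^ 2) (2 * l ^ 2 * D₁ * (e * b) / s)
          linarith)
    _ ≤ _ := by nlinarith [t1, t2, t3, hp]

end DIFM

open DIFM

theorem specDIF (hGRW : SpecGRW) (hENJ : SpecENJ) : SpecDIF := by
  intro m M L hm hL
  obtain ⟨CJ, hCJ, hJ⟩ := hENJ m M L hm hL
  set α : ℝ := M / (2 * m) + 1 with hα
  set K2 : ℝ := Real.exp (|α| * L) * (L * M ^ 2 * CJ ^ 2 / m) with hK2
  have hK2n : 0 ≤ K2 := by positivity
  refine ⟨√K2 + 1, by positivity, ?_⟩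
  intro c d l η g g₁ g₂ B B₁ g' g₁' g₂' B' B₁' h h' hdc hη hgg h0 h1 z hz
  have hcd := h.cd
  have hl : 0 < l := lt_of_lt_of_le one_pos h.l1
  have hcI : c ∈ Icc c d := left_mem_Icc.2 hcd.le
  have hdI : d ∈ Icc c d := right_mem_Icc.2 hcd.le
  have hM : 0 < M := lt_of_lt_of_le hm ((h.b c hcI).1.trans (h.b c hcI).2.1)
  have hα0 : 0 < α := by positivity
  set E := En l g B B₁ d with hE
  have hE0 : 0 ≤ E := by
    rw [hE]
    unfold En
    positivity
  have hB : ∀ z ∈ Icc c d, l ^ 2 * B z ^ 2 ≤ CJ ^ 2 * E := by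
    intro z hz
    have h2 := (hJ c d l g g₁ g₂ B B₁ h hdc z hz d hdI).2.2.2
    have h3 : B z ^ 2 ≤ (CJ / l * √E) ^ 2 := by
      rw [← sq_abs]
      exact pow_le_pow_left₀ (abs_nonneg _) h2 2
    rw [mul_pow, Real.sq_sqrt hE0, div_pow] at h3
    calc l ^ 2 * B z ^ 2 ≤ l ^ 2 * (CJ ^ 2 / l ^ 2 * E) := mul_le_mul_of_nonneg_left h3 (by positivity)
      _ = CJ ^ 2 * E := by field_simp
  set β : ℝ := l ^ 2 * (M * η) ^ 2 * (CJ ^ 2 * E) / √m with hβ
  have hβ0 : 0 ≤ β := by positivity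
  have hpos : ∀ z ∈ Icc c d, 0 < g' z := fun z hz => lt_of_lt_of_le hm (h'.b z hz).1
  have key := hGRW c d β (fun z => l ^ 2 * √(g' z) * (B' z - B z) ^ 2 + (B₁' z - B₁ z) ^ 2 / √(g' z))
    (fun z => l ^ 2 * g₁' z / (2 * √(g' z)) * (B' z - B z) ^ 2 -
      2 * l ^ 2 * (B₁' z - B₁ z) * ((g' z - g z) * B z) / √(g' z) -
        (B₁' z - B₁ z) ^ 2 / √(g' z) * (g₁' z / (2 * g' z))) (fun _ => α) hcd.le hβ0
    continuousOn_const (fun z hz => ⟨hα0.le, by positivity⟩) (by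
      intro z hz
      have hs : 0 < √(g' z) := Real.sqrt_pos.2 (hpos z hz)
      refine ⟨?_, ?_⟩
      · have hD : HasDerivAt (fun z => B' z - B z) ((fun z => B₁' z - B₁ z) z) z :=
          (h'.dB z hz).1.sub (h.dB z hz).1
        have hD₁ : HasDerivAt (fun z => B₁' z - B₁ z)
            (-(l ^ 2 * (g' z * (B' z - B z) + (g' z - g z) * B z))) z := by
          refine ((h'.dB z hz).2.sub (h.dB z hz).2).congr_deriv ?_
          ring
        exact energy_deriv (D := fun z => B' z - B z) (D₁ := fun z => B₁' z - B₁ z)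
          (h'.dg z hz).1 (hpos z hz) hD hD₁
      · exact energy_bound hm hs (Real.sq_sqrt (hpos z hz).le) (h'.b z hz).1 (h'.b z hz).2.2.1
          (hgg z hz) (hB z hz) hM.le) z hz c hcI
  simp only [h0, h1, sub_self, ne_eq, OfNat.ofNat_ne_zero, not_false_eq_true, zero_pow, mul_zero,
    zero_div, add_zero, zero_add, intervalIntegral.integral_const, smul_eq_mul] at key
  have hs : 0 < √(g' z) := Real.sqrt_pos.2 (hpos z hz)
  have hsm : √m ≤ √(g' z) := Real.sqrt_le_sqrt (h'.b z hz).1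
  have hsm0 : 0 < √m := Real.sqrt_pos.2 hm
  have h5 : l ^ 2 * √m * (B' z - B z) ^ 2 ≤ Real.exp (|α| * L) * (β * L) := by
    calc l ^ 2 * √m * (B' z - B z) ^ 2 ≤ l ^ 2 * √(g' z) * (B' z - B z) ^ 2 := by
          apply mul_le_mul_of_nonneg_right _ (by positivity)
          exact mul_le_mul_of_nonneg_left hsm (by positivity)
      _ ≤ l ^ 2 * √(g' z) * (B' z - B z) ^ 2 + (B₁' z - B₁ z) ^ 2 / √(g' z) := by
          have : 0 ≤ (B₁' z - B₁ z) ^ 2 / √(g' z) := by positivity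
          linarith
      _ ≤ Real.exp ((d - c) * α) * (β * (d - c)) := key
      _ ≤ Real.exp (|α| * L) * (β * L) := by
          apply mul_le_mul _ _ (by positivity) (by positivity)
          · apply Real.exp_le_exp.2
            rw [abs_of_pos hα0, mul_comm]
            exact mul_le_mul_of_nonneg_left hdc hα0.le
          · exact mul_le_mul_of_nonneg_left hdc hβ0
  have h6 : (B' z - B z) ^ 2 ≤ K2 * (η ^ 2 * E) := by
    have h7 : l ^ 2 * √m * (B' z - B z) ^ 2 ≤ l ^ 2 * √m * (K2 * (η ^ 2 * E)) := by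
      refine h5.trans (le_of_eq ?_)
      rw [hK2, hβ]
      have hmm : √m * √m = m := Real.mul_self_sqrt hm.le
      have hmm' : √m ^ 2 = m := Real.sq_sqrt hm.le
      have e1 : l ^ 2 * (M * η) ^ 2 * (CJ ^ 2 * E) / √m = l ^ 2 * (M * η) ^ 2 * (CJ ^ 2 * E) * √m / m := by
        rw [div_eq_div_iff hsm0.ne' hm.ne']
        calc l ^ 2 * (M * η) ^ 2 * (CJ ^ 2 * E) * m = l ^ 2 * (M * η) ^ 2 * (CJ ^ 2 * E) * (√m * √m) := by
              rw [hmm]
          _ = l ^ 2 * (M * η) ^ 2 * (CJ ^ 2 * E) * √m * √m := by ring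
      rw [e1]
      ring
    exact le_of_mul_le_mul_left h7 (by positivity)
  have h8 : |B' z - B z| ≤ √K2 * η * √E := by
    rw [← Real.sqrt_sq_eq_abs]
    calc √((B' z - B z) ^ 2) ≤ √(K2 * (η ^ 2 * E)) := Real.sqrt_le_sqrt h6
      _ = √K2 * η * √E := by
          rw [Real.sqrt_mul hK2n (η ^ 2 * E), Real.sqrt_mul (sq_nonneg η) E, Real.sqrt_sq hη]
          ring
  refine h8.trans ?_
  have h9 : 0 ≤ η * √E := by positivity
  nlinarith [h9]

end Pool.Agent.Lib.MP478c11.DB
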