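import Pool.Agent.Lib.MP_478c11_gt.DB.Spec

/-! # Module DVG: divergence of the integral of `1/h` at the pole. -/

set_option autoImplicit false

namespace Pool.Agent.Lib.MP478c11.DB

open Set Filter Topology MeasureTheory
open scoped ContDiff

theorem specDVG : SpecDVG := by
  intro h a p q b H
  have hcd : Continuous (deriv h) := H.smooth.continuous_deriv (by simp)
  obtain ⟨C, hC⟩ := isCompact_Icc.exists_bound_of_continuousOn (s := Icc a p) hcd.continuousOn
  have hCpos : 0 < |C| + 1 := by positivity
  have hle : ∀ t ∈ Icc a p, h t ≤ (|C| + 1) * (t - a) := by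
    intro t ht
    have h1 := Convex.image_sub_le_mul_sub_of_deriv_le (convex_Icc a p)
      H.smooth.continuous.continuousOn
      ((H.smooth.differentiable (by simp)).differentiableOn) (C := |C| + 1)
      (fun s hs => by
        rw [interior_Icc] at hs
        have h2 := hC s ⟨hs.1.le, hs.2.le⟩
        rw [Real.norm_eq_abs] at h2
        have h3 := le_abs_self (deriv h s)
        have h4 := le_abs_self C
        linarith) a ⟨le_rfl, H.ap.le⟩ t ht ht.1
    rw [H.ha, sub_zero] at h1
    exact h1
  have hpos : ∀ t, a < t → t ≤ p → 0 < h t := fun t h1 h2 =>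
    H.pos t h1 (h2.trans_lt (H.pq.trans H.qb))
  have key : ∀ᶠ z in 𝓝[>] a, (|C| + 1)⁻¹ * (Real.log (p - a) - Real.log (z - a)) ≤
      ∫ t in z..p, 1 / h t := by
    have hmem : Ioo a p ∈ 𝓝[>] a := Ioo_mem_nhdsGT H.ap
    filter_upwards [hmem] with z hz
    have hz1 : 0 < z - a := sub_pos.mpr hz.1
    have hp1 : 0 < p - a := sub_pos.mpr H.ap
    have e1 : ∫ t in z..p, (|C| + 1)⁻¹ * (t - a)⁻¹ =
        (|C| + 1)⁻¹ * (Real.log (p - a) - Real.log (z - a)) := by
      rw [intervalIntegral.integral_const_mul,
        intervalIntegral.integral_comp_sub_right (fun t => t⁻¹) a,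
        integral_inv_of_pos hz1 hp1, Real.log_div hp1.ne' hz1.ne']
    rw [← e1]
    refine intervalIntegral.integral_mono_on hz.2.le ?_ ?_ ?_
    · refine ContinuousOn.intervalIntegrable ?_
      rw [uIcc_of_le hz.2.le]
      refine ContinuousOn.mul continuousOn_const (ContinuousOn.inv₀ (by fun_prop) ?_)
      intro t ht
      have : 0 < t - a := by linarith [ht.1]
      exact this.ne'
    · refine ContinuousOn.intervalIntegrable ?_
      rw [uIcc_of_le hz.2.le]
      refine ContinuousOn.div continuousOn_const H.smooth.continuous.continuousOn ?_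
      intro t ht
      exact (hpos t (hz.1.trans_le ht.1) ht.2).ne'
    · intro t ht
      have h1 : 0 < t - a := by linarith [ht.1]
      have h2 := hpos t (hz.1.trans_le ht.1) ht.2
      have h3 := hle t ⟨(hz.1.le.trans ht.1), ht.2⟩
      rw [← mul_inv, one_div]
      exact inv_anti₀ h2 h3
  refine tendsto_atTop_mono' _ key ?_
  refine Tendsto.const_mul_atTop (inv_pos.mpr hCpos) ?_
  have h1 : Tendsto (fun z : ℝ => z - a) (𝓝[>] a) (𝓝[>] 0) := by
    refine tendsto_nhdsWithin_iff.mpr ⟨?_, ?_⟩
    · have h2 : Tendsto (fun z : ℝ => z - a) (𝓝 a) (𝓝 (a - a)) :=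
        (continuous_id.sub continuous_const).tendsto a
      rw [sub_self] at h2
      exact h2.mono_left nhdsWithin_le_nhds
    · filter_upwards [self_mem_nhdsWithin] with z hz
      have hz' : a < z := hz
      exact sub_pos.mpr hz'
  have h2 : Tendsto (fun z : ℝ => Real.log (z - a)) (𝓝[>] a) atBot :=
    Real.tendsto_log_nhdsGT_zero.comp h1
  have h3 : Tendsto (fun z : ℝ => Real.log (p - a) + -Real.log (z - a)) (𝓝[>] a) atTop :=
    tendsto_atTop_add_const_left _ _ (tendsto_neg_atBot_atTop.comp h2)
  exact h3.congr fun z => by ring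

end Pool.Agent.Lib.MP478c11.DB
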