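import Pool.Agent.Lib.MP_478c11_gt.DB.Spec

set_option autoImplicit false

namespace Pool.Agent.Lib.MP478c11.DB

open Set Filter Topology MeasureTheory
open scoped ContDiff

namespace ESTM

/-- subtraction of a multiple of a solution without source -/
theorem sysSub {h : ℝ → ℝ} {n : ℕ} {F y v Y V : ℝ → ℝ} {I J : Set ℝ} (k : ℝ) (hS : Sys h n F y v I)
    (hL : Sys h n O Y V I) (hJ : J ⊆ I) : Sys h n F (fun z => y z - k * Y z) (fun z => v z - k * V z) J := by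
  intro z hz
  obtain ⟨h1, h2⟩ := hS z (hJ hz)
  obtain ⟨h3, h4⟩ := hL z (hJ hz)
  constructor
  · have h5 := h1.sub (h3.const_mul k)
    refine (h5.congr_deriv ?_)
    ring
  · have h5 := h2.sub (h4.const_mul k)
    refine (h5.congr_deriv ?_)
    simp only [O]
    ring

/-- use of the estimate in the cap -/
theorem capUse {h : ℝ → ℝ} {a p q b : ℝ} (hD : Dumb h a p q b) {C : ℝ}
    (hC : ∀ n : ℕ, 1 ≤ n → ∀ (F y v : ℝ → ℝ) (R M : ℝ),
      Sys h n F y v (Ioc a p) → 0 ≤ R → (∀ z ∈ Ioc a p, |F z| ≤ R ∧ |y z| ≤ M) → y p = 0 →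
      (∀ z ∈ Ioc a p, |y z| ≤ C * R) ∧ |v p| ≤ C * (n : ℝ) ^ 2 * R)
    {n : ℕ} (hn : 1 ≤ n) {F y v Y V : ℝ → ℝ} {R M : ℝ} (hS : Sys h n F y v (Ioo a b)) (hR : 0 ≤ R)
    (hb : ∀ z ∈ Ioo a b, |F z| ≤ R ∧ |y z| ≤ M) (hL : LeftSol h a p b n Y V) :
    (∀ z ∈ Ioc a p, |y z| ≤ |y p| + C * R) ∧ |v p - y p * V p| ≤ C * (n : ℝ) ^ 2 * R := by
  have hsub : Ioc a p ⊆ Ioo a b := fun z hz => ⟨hz.1, by have := hz.2; have := hD.pq; have := hD.qb; linarith⟩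
  have h1 := hC n hn F (fun z => y z - y p * Y z) (fun z => v z - y p * V z) R (M + |y p|)
    (sysSub (y p) hS hL.sys hsub) hR (fun z hz => ?_) ?_
  · refine ⟨fun z hz => ?_, h1.2⟩
    have h2 := h1.1 z hz
    have h3 := hL.bd z hz
    have h4 : |y p * Y z| ≤ |y p| := by
      rw [abs_mul, abs_of_nonneg h3.1]
      exact mul_le_of_le_one_right (abs_nonneg _) h3.2.1
    have h5 : |y z| ≤ |y z - y p * Y z| + |y p * Y z| := by
      have h6 := abs_add_le (y z - y p * Y z) (y p * Y z)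
      rwa [sub_add_cancel] at h6
    linarith
  · refine ⟨(hb z (hsub hz)).1, ?_⟩
    have h2 := (hb z (hsub hz)).2
    have h3 := hL.bd z hz
    have h4 : |y p * Y z| ≤ |y p| := by
      rw [abs_mul, abs_of_nonneg h3.1]
      exact mul_le_of_le_one_right (abs_nonneg _) h3.2.1
    have h5 := abs_sub (y z) (y p * Y z)
    show |y z - y p * Y z| ≤ M + |y p|
    linarith
  · show y p - y p * Y p = 0
    rw [hL.one]; ring

theorem powLe {N : ℝ} (hN : 1 ≤ N) {k m : ℕ} (h : k ≤ m) : N ^ k ≤ N ^ m := pow_le_pow_right₀ hN h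

end ESTM

open ESTM

/-- The a priori estimate from the lower bound for the Wronskians. -/
theorem specEST (hWRO : SpecWRO) (hREF : SpecREF) (hCAP : SpecCAP) (hLEX : SpecLEX) (hLKB : SpecLKB) (hNKB : SpecNKB)
    (hVBD : SpecVBD) : SpecEST := by
  intro h a p q b hD hN
  obtain ⟨hDg, hWg, hSg, hRg, hLg⟩ := hREF h a p q b hD
  obtain ⟨C1, hC1, hcap1⟩ := hCAP h a p q b hD
  obtain ⟨C2, hC2, hcap2⟩ := hCAP _ _ _ _ _ hDg
  obtain ⟨C3, hC3, hlkb2⟩ := hLKB _ _ _ _ _ hDg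
  obtain ⟨C4, hC4, hlkb1⟩ := hLKB h a p q b hD
  obtain ⟨C5, B5, hC5, hnkb⟩ := hNKB h a p q b hD
  obtain ⟨C6, hC6, hvbd⟩ := hVBD h a p q b hD
  obtain ⟨c, B0, hc, hnr⟩ := hN
  have hap := hD.ap
  have hpq := hD.pq
  have hqb := hD.qb
  -- lower bound for `h`
  obtain ⟨h0, hh0, hh0'⟩ : ∃ h0 : ℝ, 0 < h0 ∧ ∀ z ∈ Icc p q, h0 ≤ h z := by
    obtain ⟨z0, hz0, hmin⟩ := isCompact_Icc.exists_isMinOn (nonempty_Icc.2 hpq.le) hD.smooth.continuous.continuousOn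
    exact ⟨h z0, hD.pos z0 (by linarith [hz0.1]) (by linarith [hz0.2]), fun z hz => hmin hz⟩
  obtain ⟨K1, hK1⟩ : ∃ K1 : ℝ, K1 = C1 + C5 * (1 + C4) * (q - p) / h0 := ⟨_, rfl⟩
  have hK1p : 0 < K1 := by
    rw [hK1]
    have := sub_pos.2 hpq
    positivity
  obtain ⟨K2, hK2⟩ : ∃ K2 : ℝ, K2 = K1 * (1 + C3) + C2 * (C5 * (1 + C4)) := ⟨_, rfl⟩
  have hK2p : 0 < K2 := by rw [hK2]; positivity
  obtain ⟨K3, hK3⟩ : ∃ K3 : ℝ, K3 = C5 * (K2 / c + 1) := ⟨_, rfl⟩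
  have hK3p : 0 < K3 := by rw [hK3]; positivity
  obtain ⟨K4, hK4⟩ : ∃ K4 : ℝ, K4 = K3 + (C1 + C2) := ⟨_, rfl⟩
  have hK4p : 0 < K4 := by rw [hK4]; positivity
  refine ⟨K4 + C6 * (K4 + 1), (B0 + 2 * B5 + 4) + 2, by positivity, ?_⟩
  intro n hn F y v R M hS hb
  have hn1 : 1 ≤ n := by omega
  have hNR : (1 : ℝ) ≤ (n : ℝ) := by exact_mod_cast hn1
  obtain ⟨N, hNdef⟩ : ∃ N : ℝ, N = (n : ℝ) := ⟨_, rfl⟩
  have hN1 : 1 ≤ N := by rw [hNdef]; exact hNR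
  have hN0 : 0 < N := by linarith
  have hR : 0 ≤ R := by
    have h1 := (hb p ⟨hap, by linarith⟩).1
    exact le_trans (abs_nonneg _) h1
  obtain ⟨Y, V, hLS⟩ := hLEX h a p q b hD n hn1
  obtain ⟨Y', V', hLS'⟩ := hLEX _ _ _ _ _ hDg n hn1
  have hRS := hLg n Y' V' hLS'
  -- caps
  obtain ⟨hl1, hl2⟩ := capUse hD hcap1 hn1 hS hR hb hLS
  have hSg' : Sys (fun z => h (-z)) n (fun z => F (-z)) (fun z => y (-z)) (fun z => -v (-z)) (Ioo (-b) (-a)) := by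
    intro z hz
    exact hSg n F y v (Ioo a b) hS z ⟨by linarith [hz.2], by linarith [hz.1]⟩
  obtain ⟨hr1, hr2⟩ := capUse hDg hcap2 hn1 hSg' hR
    (fun z hz => hb (-z) ⟨by linarith [hz.2], by linarith [hz.1]⟩) hLS'
  simp only [neg_neg] at hr1 hr2
  rw [← hNdef] at hl2 hr2
  have hVp := hlkb1 n hn1 Y V hLS
  have hV'q := hlkb2 n hn1 Y' V' hLS'
  rw [← hNdef] at hVp hV'q
  have hIcc : Icc p q ⊆ Ioo a b := fun z hz => ⟨by linarith [hz.1], by linarith [hz.2]⟩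
  have hpow : ∀ k m : ℕ, k ≤ m → N ^ k ≤ N ^ m := fun k m hkm => powLe hN1 hkm
  have hNp : ∀ k : ℕ, 0 < N ^ k := fun k => pow_pos hN0 k
  -- the left solution in the neck
  have hYb : ∀ z ∈ Icc p q, |Y z| + |V z| ≤ C5 * (1 + C4) * N ^ (B5 + 2) := by
    intro z hz
    have h1 := hnkb n hn1 O Y V 0 (fun z hz => hLS.sys z (hIcc hz)) le_rfl (fun z _ => by simp [O]) z hz p
      (left_mem_Icc.2 hpq.le)
    rw [← hNdef, hLS.one, abs_one, abs_of_pos hVp.1, add_zero] at h1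
    have h2 : (1 : ℝ) + V p ≤ (1 + C4) * N ^ 2 := by
      have h3 : (1 : ℝ) ≤ N ^ 2 := one_le_pow₀ hN1
      nlinarith [hVp.2]
    calc |Y z| + |V z| ≤ C5 * N ^ B5 * (1 + V p) := h1
      _ ≤ C5 * N ^ B5 * ((1 + C4) * N ^ 2) := mul_le_mul_of_nonneg_left h2 (by positivity)
      _ = C5 * (1 + C4) * N ^ (B5 + 2) := by rw [pow_add]; ring
  -- the Wronskian of the left solution and the solution
  have hwder : ∀ z ∈ Icc p q, HasDerivAt (fun z => Y z * v z - V z * y z) (Y z * F z / h z) z :=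
    fun z hz => hWRO.1 h n F y v Y V (Icc p q) (fun z hz => hS z (hIcc hz)) (fun z hz => hLS.sys z (hIcc hz)) z hz
  have hwb : ∀ z ∈ Icc p q, ‖Y z * F z / h z‖ ≤ C5 * (1 + C4) * N ^ (B5 + 2) * R / h0 := by
    intro z hz
    have h1 := hYb z hz
    have h2 := (hb z (hIcc hz)).1
    have h3 := hh0' z hz
    have h4 : 0 < h z := lt_of_lt_of_le hh0 h3
    rw [Real.norm_eq_abs, abs_div, abs_mul, abs_of_pos h4]
    have h5 : |Y z| ≤ C5 * (1 + C4) * N ^ (B5 + 2) := by linarith [abs_nonneg (V z)]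
    have h6 : |Y z| * |F z| ≤ C5 * (1 + C4) * N ^ (B5 + 2) * R :=
      mul_le_mul h5 h2 (abs_nonneg _) (by positivity)
    exact div_le_div₀ (by positivity) h6 hh0 h3
  have hw : |Y q * v q - V q * y q| ≤ K1 * N ^ (B5 + 2) * R := by
    have h1 := (convex_Icc p q).norm_image_sub_le_of_norm_hasDerivWithin_le
      (fun z hz => (hwder z hz).hasDerivWithinAt) hwb (left_mem_Icc.2 hpq.le) (right_mem_Icc.2 hpq.le)
    rw [Real.norm_eq_abs, Real.norm_eq_abs, abs_of_pos (sub_pos.2 hpq)] at h1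
    rw [hLS.one, one_mul] at h1
    have h2 : |v p - V p * y p| ≤ C1 * N ^ (B5 + 2) * R := by
      rw [mul_comm (V p)]
      refine le_trans hl2 ?_
      refine mul_le_mul_of_nonneg_right (mul_le_mul_of_nonneg_left (hpow 2 (B5 + 2) (by omega)) hC1.le) hR
    have h3 : |Y q * v q - V q * y q| ≤ |Y q * v q - V q * y q - (v p - V p * y p)| + |v p - V p * y p| := by
      have h4 := abs_add_le (Y q * v q - V q * y q - (v p - V p * y p)) (v p - V p * y p)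
      rwa [sub_add_cancel] at h4
    have h5 : K1 * N ^ (B5 + 2) * R = C5 * (1 + C4) * N ^ (B5 + 2) * R / h0 * (q - p) + C1 * N ^ (B5 + 2) * R := by
      rw [hK1]; ring
    rw [h5]
    linarith
  -- at `q`
  obtain ⟨U', hU'⟩ : ∃ U' : ℝ, U' = V' (-q) := ⟨_, rfl⟩
  rw [← hU'] at hV'q
  have hex : |v q + y q * U'| ≤ C2 * N ^ 2 * R := by
    rw [hU']
    refine le_trans (le_of_eq ?_) hr2
    rw [← abs_neg]
    congr 1
    ring
  have hDlow := hnr n hn Y V _ _ hLS hRS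
  rw [hLS'.one, ← hU', ← hNdef, mul_one] at hDlow
  obtain ⟨Dq, hDq⟩ : ∃ Dq : ℝ, Dq = Y q * -U' - V q := ⟨_, rfl⟩
  rw [← hDq] at hDlow
  have hyD : Dq * y q = (Y q * v q - V q * y q) - (v q + y q * U') * Y q := by rw [hDq]; ring
  have hvD : Dq * v q = (Y q * v q - V q * y q) * -U' - (v q + y q * U') * V q := by rw [hDq]; ring
  have hYq := hYb q (right_mem_Icc.2 hpq.le)
  have hx : |Dq| * (|y q| + |v q|) ≤ K2 * N ^ (B5 + 4) * R := by
    have h1 : |Dq| * |y q| ≤ |Y q * v q - V q * y q| + |v q + y q * U'| * |Y q| := by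
      rw [← abs_mul, hyD]
      refine le_trans (abs_sub _ _) ?_
      rw [abs_mul]
    have h2 : |Dq| * |v q| ≤ |Y q * v q - V q * y q| * U' + |v q + y q * U'| * |V q| := by
      rw [← abs_mul, hvD]
      refine le_trans (abs_sub _ _) ?_
      rw [abs_mul, abs_mul, abs_neg, abs_of_pos hV'q.1]
    have h3 : (1 : ℝ) + U' ≤ (1 + C3) * N ^ 2 := by
      have h3 : (1 : ℝ) ≤ N ^ 2 := one_le_pow₀ hN1
      nlinarith [hV'q.2]
    have h4 : |Y q * v q - V q * y q| * (1 + U') ≤ K1 * N ^ (B5 + 2) * R * ((1 + C3) * N ^ 2) :=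
      mul_le_mul hw h3 (by linarith [hV'q.1]) (by positivity)
    have h5 : |v q + y q * U'| * (|Y q| + |V q|) ≤ C2 * N ^ 2 * R * (C5 * (1 + C4) * N ^ (B5 + 2)) :=
      mul_le_mul hex hYq (by positivity) (by positivity)
    have h6 : K2 * N ^ (B5 + 4) * R = K1 * N ^ (B5 + 2) * R * ((1 + C3) * N ^ 2) +
        C2 * N ^ 2 * R * (C5 * (1 + C4) * N ^ (B5 + 2)) := by
      rw [hK2, show B5 + 4 = (B5 + 2) + 2 by ring, pow_add N (B5 + 2) 2]; ring
    rw [h6, mul_add]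
    rw [mul_add, mul_one] at h4
    rw [mul_add] at h5
    linarith
  have hyq : |y q| + |v q| ≤ K2 / c * N ^ (B0 + B5 + 4) * R := by
    have h1 : c * (|y q| + |v q|) ≤ N ^ B0 * (K2 * N ^ (B5 + 4) * R) := by
      calc c * (|y q| + |v q|) ≤ N ^ B0 * |Dq| * (|y q| + |v q|) :=
            mul_le_mul_of_nonneg_right hDlow (by positivity)
        _ = N ^ B0 * (|Dq| * (|y q| + |v q|)) := by ring
        _ ≤ _ := mul_le_mul_of_nonneg_left hx (hNp B0).le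
    have h2 : K2 / c * N ^ (B0 + B5 + 4) * R = N ^ B0 * (K2 * N ^ (B5 + 4) * R) / c := by
      rw [show B0 + B5 + 4 = B0 + (B5 + 4) by ring, pow_add]; ring
    rw [h2, le_div_iff₀ hc]
    linarith
  have hneck : ∀ z ∈ Icc p q, |y z| + |v z| ≤ K3 * N ^ (B0 + 2 * B5 + 4) * R := by
    intro z hz
    have h1 := hnkb n hn1 F y v R (fun z hz => hS z (hIcc hz)) hR (fun z hz => (hb z (hIcc hz)).1) z hz q
      (right_mem_Icc.2 hpq.le)
    rw [← hNdef] at h1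
    have h2 : |y q| + |v q| + R ≤ (K2 / c + 1) * N ^ (B0 + B5 + 4) * R := by
      have h3 : R ≤ N ^ (B0 + B5 + 4) * R := le_mul_of_one_le_left hR (one_le_pow₀ hN1)
      have h4 : (K2 / c + 1) * N ^ (B0 + B5 + 4) * R = K2 / c * N ^ (B0 + B5 + 4) * R + N ^ (B0 + B5 + 4) * R := by ring
      rw [h4]
      linarith
    calc |y z| + |v z| ≤ C5 * N ^ B5 * (|y q| + |v q| + R) := h1
      _ ≤ C5 * N ^ B5 * ((K2 / c + 1) * N ^ (B0 + B5 + 4) * R) := mul_le_mul_of_nonneg_left h2 (by positivity)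
      _ = K3 * N ^ (B0 + 2 * B5 + 4) * R := by
          rw [hK3, show B0 + 2 * B5 + 4 = B5 + (B0 + B5 + 4) by ring, pow_add N B5]; ring
  have hall : ∀ z ∈ Ioo a b, |y z| ≤ K4 * N ^ (B0 + 2 * B5 + 4) * R := by
    have hRN : R ≤ N ^ (B0 + 2 * B5 + 4) * R := le_mul_of_one_le_left hR (one_le_pow₀ hN1)
    have h4 : K4 * N ^ (B0 + 2 * B5 + 4) * R = K3 * N ^ (B0 + 2 * B5 + 4) * R + C1 * (N ^ (B0 + 2 * B5 + 4) * R) +
      C2 * (N ^ (B0 + 2 * B5 + 4) * R) := by rw [hK4]; ring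
    have h5 : C1 * R ≤ C1 * (N ^ (B0 + 2 * B5 + 4) * R) := mul_le_mul_of_nonneg_left hRN hC1.le
    have h6 : C2 * R ≤ C2 * (N ^ (B0 + 2 * B5 + 4) * R) := mul_le_mul_of_nonneg_left hRN hC2.le
    have h7 : 0 ≤ C1 * R := by positivity
    have h8 : 0 ≤ C2 * R := by positivity
    have hp := hneck p (left_mem_Icc.2 hpq.le)
    have hq := hneck q (right_mem_Icc.2 hpq.le)
    intro z hz
    rw [h4]
    rcases le_total z p with hzp | hzp
    · have h1 := hl1 z ⟨hz.1, hzp⟩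
      linarith [abs_nonneg (v p)]
    · rcases le_total z q with hzq | hzq
      · have h1 := hneck z ⟨hzp, hzq⟩
        linarith [abs_nonneg (v z)]
      · have h1 := hr1 (-z) ⟨by linarith [hz.2], by linarith⟩
        rw [neg_neg] at h1
        linarith [abs_nonneg (v q)]
  have hv := hvbd n hn1 F y v R (K4 * N ^ (B0 + 2 * B5 + 4) * R) hS (fun z hz => ⟨(hb z hz).1, hall z hz⟩)
  intro z hz
  rw [← hNdef]
  have hP : N ^ (B0 + 2 * B5 + 4) ≤ N ^ (B0 + 2 * B5 + 4 + 2) := hpow _ _ (by omega)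
  have hPR : N ^ (B0 + 2 * B5 + 4) * R ≤ N ^ (B0 + 2 * B5 + 4 + 2) * R := mul_le_mul_of_nonneg_right hP hR
  have hPR0 : 0 ≤ N ^ (B0 + 2 * B5 + 4 + 2) * R := by positivity
  constructor
  · refine le_trans (hall z hz) ?_
    calc K4 * N ^ (B0 + 2 * B5 + 4) * R = K4 * (N ^ (B0 + 2 * B5 + 4) * R) := by ring
      _ ≤ K4 * (N ^ (B0 + 2 * B5 + 4 + 2) * R) := mul_le_mul_of_nonneg_left hPR hK4p.le
      _ ≤ (K4 + C6 * (K4 + 1)) * (N ^ (B0 + 2 * B5 + 4 + 2) * R) := by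
          refine mul_le_mul_of_nonneg_right ?_ hPR0
          have : 0 < C6 * (K4 + 1) := by positivity
          linarith
      _ = _ := by ring
  · have h1 := hv z hz
    rw [← hNdef] at h1
    refine le_trans h1 ?_
    have hRN : R ≤ N ^ (B0 + 2 * B5 + 4 + 2) * R := le_mul_of_one_le_left hR (one_le_pow₀ hN1)
    calc C6 * (N ^ 2 * (K4 * N ^ (B0 + 2 * B5 + 4) * R) + R)
        = C6 * (K4 * (N ^ (B0 + 2 * B5 + 4 + 2) * R) + R) := by rw [pow_add N (B0 + 2 * B5 + 4) 2]; ring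
      _ ≤ C6 * (K4 * (N ^ (B0 + 2 * B5 + 4 + 2) * R) + N ^ (B0 + 2 * B5 + 4 + 2) * R) :=
          mul_le_mul_of_nonneg_left (by linarith) hC6.le
      _ = C6 * (K4 + 1) * (N ^ (B0 + 2 * B5 + 4 + 2) * R) := by ring
      _ ≤ (K4 + C6 * (K4 + 1)) * (N ^ (B0 + 2 * B5 + 4 + 2) * R) := by
          refine mul_le_mul_of_nonneg_right ?_ hPR0
          linarith
      _ = _ := by ring

end Pool.Agent.Lib.MP478c11.DB
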