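import Pool.Agent.Lib.MP_478c11_gt.DB.Spec

/-!
# MP_478c11_gt, DB: module GAM (helper74)

A suitable bump in the neck: after two integrations by parts the leading coefficient is
`∫ κ (r² m')' / r` with `m = |W|^(-1/2)`, and `(r² m')'` is not identically zero in the neck.
-/

set_option autoImplicit false

namespace Pool.Agent.Lib.MP478c11.DB

open Set Filter Topology MeasureTheory
open scoped ContDiff

noncomputable section

namespace GAMM

/-- `m = 1 / √(-W)`. -/
def mm (h : ℝ → ℝ) (z : ℝ) : ℝ := (√(-W h z))⁻¹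

lemma W_contDiff (h : ℝ → ℝ) (hh : ContDiff ℝ ∞ h) : ContDiff ℝ ∞ (W h) := by
  have h1 : ContDiff ℝ ∞ (deriv h) := ((contDiff_infty_iff_deriv).1 hh).2
  have h2 : ContDiff ℝ ∞ (deriv (deriv h)) := ((contDiff_infty_iff_deriv).1 h1).2
  have e : W h = fun z => deriv h z ^ 2 / 4 - h z * deriv (deriv h) z / 2 := rfl
  rw [e]
  exact ((h1.pow 2).div_const 4).sub ((hh.mul h2).div_const 2)

lemma mm_contDiffOn (h : ℝ → ℝ) (p q : ℝ) (hh : ContDiff ℝ ∞ h)
    (hW : ∀ z, p < z → z < q → W h z < 0) : ContDiffOn ℝ ∞ (mm h) (Ioo p q) := by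
  intro z hz
  have h0 : 0 < -W h z := by linarith [hW z hz.1 hz.2]
  have h1 : ContDiffAt ℝ ∞ (fun z => -W h z) z := (W_contDiff h hh).neg.contDiffAt
  have h2 : ContDiffAt ℝ ∞ (fun z => √(-W h z)) z := h1.sqrt h0.ne'
  exact (h2.inv (Real.sqrt_pos.2 h0).ne').contDiffWithinAt

/-- two derivatives on an open interval -/
lemma two_derivs (f : ℝ → ℝ) (p q : ℝ) (hf : ContDiffOn ℝ ∞ f (Ioo p q)) :
    (∀ z ∈ Ioo p q, HasDerivAt f (deriv f z) z ∧ HasDerivAt (deriv f) (deriv (deriv f) z) z) ∧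
    ContinuousOn f (Ioo p q) ∧ ContinuousOn (deriv f) (Ioo p q) ∧
      ContinuousOn (deriv (deriv f)) (Ioo p q) := by
  have h1 : ContDiffOn ℝ ∞ (deriv f) (Ioo p q) := hf.deriv_of_isOpen isOpen_Ioo (by simp)
  have h2 : ContDiffOn ℝ ∞ (deriv (deriv f)) (Ioo p q) := h1.deriv_of_isOpen isOpen_Ioo (by simp)
  refine ⟨fun z hz => ⟨?_, ?_⟩, hf.continuousOn, h1.continuousOn, h2.continuousOn⟩
  · exact ((hf.contDiffAt (isOpen_Ioo.mem_nhds hz)).differentiableAt (by simp)).hasDerivAt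
  · exact ((h1.contDiffAt (isOpen_Ioo.mem_nhds hz)).differentiableAt (by simp)).hasDerivAt

/-- the two integrations by parts, pointwise -/
lemma ibp (r m κ : ℝ → ℝ) (p q c d : ℝ) (hpc : p < c) (hcd : c < d) (hdq : d < q)
    (hr : ContDiffOn ℝ ∞ r (Ioo p q)) (hm : ContDiffOn ℝ ∞ m (Ioo p q)) (hκ : ContDiff ℝ ∞ κ)
    (hr0 : ∀ z ∈ Ioo p q, 0 < r z)
    (kc : κ c = 0) (kd : κ d = 0) (kc' : deriv κ c = 0) (kd' : deriv κ d = 0) :
    ∫ z in c..d, rho r κ z * m z =
      ∫ z in c..d, κ z * (2 * r z * deriv r z * deriv m z + r z ^ 2 * deriv (deriv m) z) / r z := by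
  obtain ⟨dr, cr0, cr1, cr2⟩ := two_derivs r p q hr
  obtain ⟨dm, cm0, cm1, cm2⟩ := two_derivs m p q hm
  obtain ⟨dk, ck0, ck1, ck2⟩ := two_derivs κ p q hκ.contDiffOn
  have sub : Icc c d ⊆ Ioo p q := fun z hz => ⟨lt_of_lt_of_le hpc hz.1, lt_of_le_of_lt hz.2 hdq⟩
  set Φ : ℝ → ℝ := fun z => deriv κ z * (r z * m z) - κ z * (deriv r z * m z + r z * deriv m z)
    with hΦ
  set Φ' : ℝ → ℝ := fun z => (deriv (deriv κ) z * (r z * m z)
      + deriv κ z * (deriv r z * m z + r z * deriv m z))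
      - (deriv κ z * (deriv r z * m z + r z * deriv m z) + κ z * ((deriv (deriv r) z * m z
        + deriv r z * deriv m z) + (deriv r z * deriv m z + r z * deriv (deriv m) z))) with hΦ'
  have hd : ∀ z ∈ uIcc c d, HasDerivAt Φ (Φ' z) z := by
    intro z hz
    rw [uIcc_of_le hcd.le] at hz
    have hz' := sub hz
    obtain ⟨r1, r2⟩ := dr z hz'
    obtain ⟨m1, m2⟩ := dm z hz'
    obtain ⟨k1, k2⟩ := dk z hz'
    exact (k2.mul (r1.mul m1)).sub (k1.mul ((r2.mul m1).add (r1.mul m2)))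
  have cΦ' : ContinuousOn Φ' (Icc c d) := by
    have R0 := cr0.mono sub
    have R1 := cr1.mono sub
    have R2 := cr2.mono sub
    have M0 := cm0.mono sub
    have M1 := cm1.mono sub
    have M2 := cm2.mono sub
    have K0 := ck0.mono sub
    have K1 := ck1.mono sub
    have K2 := ck2.mono sub
    exact ((K2.mul (R0.mul M0)).add (K1.mul ((R1.mul M0).add (R0.mul M1)))).sub
      ((K1.mul ((R1.mul M0).add (R0.mul M1))).add (K0.mul (((R2.mul M0).add (R1.mul M1)).add
        ((R1.mul M1).add (R0.mul M2)))))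
  have cG : ContinuousOn (fun z => κ z * (2 * r z * deriv r z * deriv m z
      + r z ^ 2 * deriv (deriv m) z) / r z) (Icc c d) := by
    have R0 := cr0.mono sub
    have R1 := cr1.mono sub
    have M1 := cm1.mono sub
    have M2 := cm2.mono sub
    have K0 := ck0.mono sub
    exact (K0.mul ((((continuousOn_const.mul R0).mul R1).mul M1).add ((R0.pow 2).mul M2))).div R0
      (fun z hz => (hr0 z (sub hz)).ne')
  have i1 : IntervalIntegrable Φ' volume c d := by
    apply ContinuousOn.intervalIntegrable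
    rwa [uIcc_of_le hcd.le]
  have i2 : IntervalIntegrable (fun z => κ z * (2 * r z * deriv r z * deriv m z
      + r z ^ 2 * deriv (deriv m) z) / r z) volume c d := by
    apply ContinuousOn.intervalIntegrable
    rwa [uIcc_of_le hcd.le]
  have e1 : ∫ z in c..d, Φ' z = 0 := by
    rw [intervalIntegral.integral_eq_sub_of_hasDerivAt hd i1, hΦ]
    simp [kc, kd, kc', kd']
  have e2 : ∫ z in c..d, rho r κ z * m z = ∫ z in c..d, (Φ' z + κ z * (2 * r z * deriv r z * deriv m z
      + r z ^ 2 * deriv (deriv m) z) / r z) := by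
    apply intervalIntegral.integral_congr
    intro z hz
    rw [uIcc_of_le hcd.le] at hz
    have hrz := (hr0 z (sub hz)).ne'
    simp only [hΦ', rho]
    field_simp
    ring
  rw [e2, intervalIntegral.integral_add i1 i2, e1, zero_add]

/-- `(r² m')'` is not identically zero in the neck -/
lemma exists_ne (h : ℝ → ℝ) (a p q b : ℝ) (D : Dumb h a p q b) (r : ℝ → ℝ)
    (hr : ContDiffOn ℝ ∞ r (Ioo p q)) (hrh : ∀ z ∈ Ioo p q, r z ^ 2 = h z) :
    ∃ z ∈ Ioo p q, 2 * r z * deriv r z * deriv (mm h) z + r z ^ 2 * deriv (deriv (mm h)) z ≠ 0 := by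
  by_contra hcon
  push Not at hcon
  have hm := mm_contDiffOn h p q D.smooth D.W2
  obtain ⟨dr, cr0, cr1, cr2⟩ := two_derivs r p q hr
  obtain ⟨dm, cm0, cm1, cm2⟩ := two_derivs (mm h) p q hm
  have hpq := D.pq
  set z₁ : ℝ := (p + q) / 2 with hz₁
  have z₁m : z₁ ∈ Ioo p q := ⟨by rw [hz₁]; linarith, by rw [hz₁]; linarith⟩
  have G0 : ∀ z ∈ Ioo p q, r z ^ 2 * deriv (mm h) z = r z₁ ^ 2 * deriv (mm h) z₁ := by
    intro z hz
    have key := Convex.norm_image_sub_le_of_norm_hasDerivWithin_le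
      (f := fun z => r z ^ 2 * deriv (mm h) z) (f' := fun _ => (0 : ℝ)) (C := 0) (s := Ioo p q)
      (x := z₁) (y := z)
      (fun x hx => by
        have h1 := ((dr x hx).1.pow 2).mul (dm x hx).2
        have h2 : HasDerivAt (fun z => r z ^ 2 * deriv (mm h) z)
            (2 * r x * deriv r x * deriv (mm h) x + r x ^ 2 * deriv (deriv (mm h)) x) x := by
          refine h1.congr_deriv ?_
          simp
        rw [hcon x hx] at h2
        exact h2.hasDerivWithinAt)
      (fun x _ => by simp) (convex_Ioo p q) z₁m hz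
    rw [zero_mul] at key
    have := norm_le_zero_iff.1 key
    linarith [sub_eq_zero.1 this]
  -- a lower bound for h
  obtain ⟨w, hw, hmin⟩ := isCompact_Icc.exists_isMinOn (nonempty_Icc.2 hpq.le)
    (D.smooth.continuous.continuousOn (s := Icc p q))
  have hw0 : 0 < h w := D.pos w (lt_of_lt_of_le D.ap hw.1) (lt_of_le_of_lt hw.2 D.qb)
  set k : ℝ := r z₁ ^ 2 * deriv (mm h) z₁ with hk
  have dmb : ∀ z ∈ Ioo p q, ‖deriv (mm h) z‖ ≤ |k| / h w := by
    intro z hz
    have h1 := G0 z hz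
    have h2 : h w ≤ h z := hmin (Ioo_subset_Icc_self hz)
    rw [hrh z hz] at h1
    rw [Real.norm_eq_abs, le_div_iff₀ hw0, ← h1, abs_mul, abs_of_pos (lt_of_lt_of_le hw0 h2), mul_comm]
    exact mul_le_mul_of_nonneg_right h2 (abs_nonneg _)
  set M : ℝ := mm h z₁ + |k| / h w * (q - p) with hM
  have mb : ∀ z ∈ Ioo p q, mm h z ≤ M := by
    intro z hz
    have key := Convex.norm_image_sub_le_of_norm_hasDerivWithin_le
      (f := mm h) (f' := deriv (mm h)) (C := |k| / h w) (s := Ioo p q)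
      (x := z₁) (y := z)
      (fun x hx => (dm x hx).1.hasDerivWithinAt) dmb (convex_Ioo p q) z₁m hz
    rw [Real.norm_eq_abs, Real.norm_eq_abs] at key
    have h1 : |z - z₁| ≤ q - p := by
      rw [abs_le]
      constructor <;> linarith [hz.1, hz.2, z₁m.1, z₁m.2]
    have h2 : |k| / h w * |z - z₁| ≤ |k| / h w * (q - p) :=
      mul_le_mul_of_nonneg_left h1 (by positivity)
    have h3 := le_abs_self (mm h z - mm h z₁)
    linarith
  have Mpos : 0 < M := by
    have h1 := mb z₁ z₁m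
    have h2 : 0 < mm h z₁ := inv_pos.2 (Real.sqrt_pos.2 (by linarith [D.W2 z₁ z₁m.1 z₁m.2]))
    linarith
  have Wb : ∀ z ∈ Ioo p q, W h z ≤ -(M⁻¹) ^ 2 := by
    intro z hz
    have h0 : 0 < -W h z := by linarith [D.W2 z hz.1 hz.2]
    have h1 := mb z hz
    have h2 : M⁻¹ ≤ √(-W h z) := by
      have h3 : 0 < √(-W h z) := Real.sqrt_pos.2 h0
      rw [inv_le_comm₀ Mpos h3]
      exact h1
    have h4 : M⁻¹ ^ 2 ≤ (√(-W h z)) ^ 2 := pow_le_pow_left₀ (inv_pos.2 Mpos).le h2 2
    rw [Real.sq_sqrt h0.le] at h4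
    linarith
  have Wc : Continuous (W h) := (W_contDiff h D.smooth).continuous
  have e1 : W h p ≤ -(M⁻¹) ^ 2 := by
    have ht : Tendsto (W h) (𝓝[>] p) (𝓝 (W h p)) := Wc.continuousAt.continuousWithinAt
    refine le_of_tendsto ht ?_
    filter_upwards [Ioo_mem_nhdsGT hpq] with z hz
    exact Wb z hz
  have e2 : 0 ≤ W h p := by
    have ht : Tendsto (W h) (𝓝[<] p) (𝓝 (W h p)) := Wc.continuousAt.continuousWithinAt
    refine ge_of_tendsto ht ?_
    filter_upwards [Ioo_mem_nhdsLT D.ap] with z hz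
    exact (D.W1 z hz.1.le hz.2).le
  have e3 : 0 < (M⁻¹) ^ 2 := by positivity
  linarith

end GAMM

open GAMM

/-- **GAM**: a suitable `κ`. -/
theorem specGAM (hSQR : SpecSQR) : SpecGAM := by
  intro h a p q b D
  set r : ℝ → ℝ := fun z => √(h z) with hrdef
  have hpos : ∀ z ∈ Ioo p q, 0 < h z := fun z hz => D.pos z (D.ap.trans hz.1) (hz.2.trans D.qb)
  have hr0 : ∀ z ∈ Ioo p q, 0 < r z := fun z hz => Real.sqrt_pos.2 (hpos z hz)
  have hrC : ContDiffOn ℝ ∞ r (Ioo p q) := fun z hz =>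
    ((hSQR.1 h z D.smooth (hpos z hz)).1).contDiffWithinAt
  have hrh : ∀ z ∈ Ioo p q, r z ^ 2 = h z := fun z hz => Real.sq_sqrt (hpos z hz).le
  have hmC := mm_contDiffOn h p q D.smooth D.W2
  obtain ⟨z₀, hz₀, hne⟩ := exists_ne h a p q b D r hrC hrh
  obtain ⟨dr, cr0, cr1, cr2⟩ := two_derivs r p q hrC
  obtain ⟨dm, cm0, cm1, cm2⟩ := two_derivs (mm h) p q hmC
  set g : ℝ → ℝ := fun z => 2 * r z * deriv r z * deriv (mm h) z + r z ^ 2 * deriv (deriv (mm h)) z
    with hg
  have cg : ContinuousOn g (Ioo p q) :=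
    (((continuousOn_const.mul cr0).mul cr1).mul cm1).add ((cr0.pow 2).mul cm2)
  have hgg : 0 < g z₀ * g z₀ := mul_self_pos.2 hne
  have hev : ∀ᶠ z in 𝓝 z₀, 0 < g z₀ * g z := by
    have h1 : ContinuousAt (fun z => g z₀ * g z) z₀ :=
      continuousAt_const.mul (cg.continuousAt (isOpen_Ioo.mem_nhds hz₀))
    exact h1.eventually (lt_mem_nhds hgg)
  have hev2 : ∀ᶠ z in 𝓝 z₀, z ∈ Ioo p q := isOpen_Ioo.mem_nhds hz₀
  obtain ⟨ε, hε, hball⟩ := Metric.eventually_nhds_iff.1 (hev.and hev2)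
  set e : ℝ := ε / 2 with he
  have he0 : 0 < e := by rw [he]; linarith
  have hin : ∀ z ∈ Icc (z₀ - e) (z₀ + e), 0 < g z₀ * g z ∧ z ∈ Ioo p q := by
    intro z hz
    apply hball
    rw [Real.dist_eq, abs_lt]
    constructor <;> linarith [hz.1, hz.2]
  have hpc : p < z₀ - e := (hin (z₀ - e) ⟨le_rfl, by linarith⟩).2.1
  have hdq : z₀ + e < q := (hin (z₀ + e) ⟨by linarith, le_rfl⟩).2.2
  have hcd : z₀ - e < z₀ + e := by linarith
  let B : ContDiffBump z₀ := ⟨e / 2, e, by linarith, by linarith⟩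
  have hB0 : ∀ z, 0 ≤ B z := fun z => B.nonneg
  have hBz : ∀ z, e ≤ |z - z₀| → B z = 0 := fun z hz => B.zero_of_le_dist (by rw [Real.dist_eq]; exact hz)
  have hBp : ∀ z, |z - z₀| < e → 0 < B z := fun z hz => by
    apply B.pos_of_mem_ball
    rw [Metric.mem_ball, Real.dist_eq]
    exact hz
  have hBc : ContDiff ℝ ∞ (B : ℝ → ℝ) := B.contDiff
  have kd : B (z₀ + e) = 0 := hBz _ (by rw [add_sub_cancel_left, abs_of_pos he0])
  have kc : B (z₀ - e) = 0 := hBz _ (by
    rw [show z₀ - e - z₀ = -e by ring, abs_neg, abs_of_pos he0])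
  have dzero : ∀ x, B x = 0 → deriv (B : ℝ → ℝ) x = 0 := by
    intro x hx
    apply IsLocalMin.deriv_eq_zero
    exact Filter.Eventually.of_forall (fun y => by simpa [hx] using hB0 y)
  refine ⟨B, z₀ - e, z₀ + e, hpc, hcd, hdq, ⟨hBc, ?_⟩, ?_⟩
  · intro z hz
    apply hBz
    by_contra hlt
    push Not at hlt
    rw [abs_lt] at hlt
    exact hz ⟨by linarith [hlt.1], by linarith [hlt.2]⟩
  · have sub : Icc (z₀ - e) (z₀ + e) ⊆ Ioo p q := fun z hz => (hin z hz).2
    have e1 : gam h B (z₀ - e) (z₀ + e) = ∫ z in (z₀ - e)..(z₀ + e), rho r B z * mm h z := by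
      unfold gam
      apply intervalIntegral.integral_congr
      intro z hz
      rw [uIcc_of_le hcd.le] at hz
      have hz' := sub hz
      have hW := (hSQR.1 h z D.smooth (hpos z hz')).2
      have hWn := D.W2 z hz'.1 hz'.2
      have hrz := hr0 z hz'
      have hrr : r z ^ 2 = h z := hrh z hz'
      have hW' : W h z = -(r z) ^ 3 * deriv (deriv r) z := hW
      have hr2 : 0 < deriv (deriv r) z := by
        by_contra hneg
        push Not at hneg
        have h3 : 0 < r z ^ 3 := by positivity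
        nlinarith
      have hs : h z * √(deriv (deriv r) z / r z) = √(-W h z) := by
        have h5 : -W h z = (h z) ^ 2 * (deriv (deriv r) z / r z) := by
          rw [hW', ← hrr]
          field_simp
        rw [h5, Real.sqrt_mul (by positivity), Real.sqrt_sq (hpos z hz').le]
      change rho r B z / (h z * √(deriv (deriv r) z / r z)) = rho r B z * mm h z
      rw [hs, mm, div_eq_mul_inv]
    rw [e1, ibp r (mm h) B p q (z₀ - e) (z₀ + e) hpc hcd hdq hrC hmC hBc hr0 kc kd (dzero _ kc)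
      (dzero _ kd)]
    intro hzero
    have cF : ContinuousOn (fun z => g z₀ * (B z * (2 * r z * deriv r z * deriv (mm h) z
        + r z ^ 2 * deriv (deriv (mm h)) z) / r z)) (Icc (z₀ - e) (z₀ + e)) :=
      continuousOn_const.mul ((hBc.continuous.continuousOn.mul (cg.mono sub)).div (cr0.mono sub)
        (fun z hz => (hr0 z (sub hz)).ne'))
    have iF : IntervalIntegrable (fun z => g z₀ * (B z * (2 * r z * deriv r z * deriv (mm h) z
        + r z ^ 2 * deriv (deriv (mm h)) z) / r z)) volume (z₀ - e) (z₀ + e) := by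
      apply ContinuousOn.intervalIntegrable
      rwa [uIcc_of_le hcd.le]
    have hpos' := intervalIntegral.intervalIntegral_pos_of_pos_on iF (fun z hz => by
      have hz1 := hin z (Ioo_subset_Icc_self hz)
      have hb : 0 < B z := hBp z (by rw [abs_lt]; constructor <;> linarith [hz.1, hz.2])
      have hrz := hr0 z hz1.2
      have : g z₀ * (B z * (2 * r z * deriv r z * deriv (mm h) z
        + r z ^ 2 * deriv (deriv (mm h)) z) / r z) = (g z₀ * g z) * (B z / r z) := by
        simp only [hg]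
        ring
      rw [this]
      exact mul_pos hz1.1 (div_pos hb hrz)) hcd
    rw [intervalIntegral.integral_const_mul, hzero, mul_zero] at hpos'
    exact lt_irrefl _ hpos'

end

end Pool.Agent.Lib.MP478c11.DB
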