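import Pool.Agent.Lib.MP_478c11_gt.DB.Spec

/-!
# Unbendable dumbbells of revolution (MP_478c11_gt): module GBD

Uniform bounds.
-/

set_option autoImplicit false

namespace Pool.Agent.Lib.MP478c11.DB

open Set Filter Topology MeasureTheory
open scoped ContDiff

noncomputable section

namespace GBDM

theorem cd (f : ℝ → ℝ) (z : ℝ) (hf : ContDiffAt ℝ ∞ f z) : ContDiffAt ℝ ∞ (deriv f) z := by
  have h1 : ContDiffAt ℝ ∞ (fderiv ℝ f) z := hf.fderiv_right (m := ∞) (by simp)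
  exact h1.clm_apply contDiffAt_const

/-- bounds for a function with parameters and its first two derivatives -/
theorem bds {E : Type} [NormedAddCommGroup E] [NormedSpace ℝ E] (Φ : E × ℝ → ℝ) (S : Set (E × ℝ))
    (hS : IsCompact S) (hΦ : ∀ x ∈ S, ContDiffAt ℝ ∞ Φ x) :
    ∃ M : ℝ, ∀ x ∈ S, |Φ x| ≤ M ∧ |deriv (fun z => Φ (x.1, z)) x.2| ≤ M ∧
      |deriv (deriv (fun z => Φ (x.1, z))) x.2| ≤ M := by
  have hder : ∀ (Ψ : E × ℝ → ℝ) (x : E × ℝ), DifferentiableAt ℝ Ψ x →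
      deriv (fun z => Ψ (x.1, z)) x.2 = fderiv ℝ Ψ x (0, 1) := by
    intro Ψ x hx
    have h1 : HasDerivAt (fun z : ℝ => (x.1, z)) ((0 : E), (1 : ℝ)) x.2 :=
      (hasDerivAt_const x.2 x.1).prodMk (hasDerivAt_id x.2)
    exact (HasFDerivAt.comp_hasDerivAt x.2 hx.hasFDerivAt h1).deriv
  have hfd : ∀ (Ψ : E × ℝ → ℝ) (x : E × ℝ), ContDiffAt ℝ ∞ Ψ x →
      ContDiffAt ℝ ∞ (fun x => fderiv ℝ Ψ x (0, 1)) x := by
    intro Ψ x hx
    have h1 : ContDiffAt ℝ ∞ (fderiv ℝ Ψ) x := hx.fderiv_right (m := ∞) (by simp)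
    exact h1.clm_apply contDiffAt_const
  have hdiff : ∀ (Ψ : E × ℝ → ℝ) (x : E × ℝ), ContDiffAt ℝ ∞ Ψ x → DifferentiableAt ℝ Ψ x :=
    fun Ψ x hx => hx.differentiableAt (by simp)
  have hc0 : ContinuousOn Φ S := fun x hx => (hΦ x hx).continuousAt.continuousWithinAt
  have hc1 : ContinuousOn (fun x => fderiv ℝ Φ x (0, 1)) S :=
    fun x hx => (hfd Φ x (hΦ x hx)).continuousAt.continuousWithinAt
  have hc2 : ContinuousOn (fun x => fderiv ℝ (fun x => fderiv ℝ Φ x (0, 1)) x (0, 1)) S :=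
    fun x hx => (hfd _ x (hfd Φ x (hΦ x hx))).continuousAt.continuousWithinAt
  obtain ⟨M0, h0⟩ := hS.exists_bound_of_continuousOn hc0
  obtain ⟨M1, h1⟩ := hS.exists_bound_of_continuousOn hc1
  obtain ⟨M2, h2⟩ := hS.exists_bound_of_continuousOn hc2
  refine ⟨max M0 (max M1 M2), fun x hx => ⟨(h0 x hx).trans (le_max_left _ _), ?_, ?_⟩⟩
  · rw [hder Φ x (hdiff Φ x (hΦ x hx))]
    exact (h1 x hx).trans ((le_max_left _ _).trans (le_max_right _ _))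
  · have hev : deriv (fun z => Φ (x.1, z)) =ᶠ[𝓝 x.2] fun z => fderiv ℝ Φ (x.1, z) (0, 1) := by
      have h3 : ∀ᶠ y in 𝓝 x, ContDiffAt ℝ 1 Φ y :=
        ((hΦ x hx).of_le (m := 1) (by exact_mod_cast le_top)).eventually (by simp)
      have h4 : Tendsto (fun z : ℝ => (x.1, z)) (𝓝 x.2) (𝓝 x) := by
        have : ContinuousAt (fun z : ℝ => (x.1, z)) x.2 := by fun_prop
        exact this
      filter_upwards [h4.eventually h3] with z hz
      exact hder Φ (x.1, z) (hz.differentiableAt (by simp))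
    rw [hev.deriv_eq]
    have h5 := hder (fun x => fderiv ℝ Φ x (0, 1)) x (hdiff _ x (hfd Φ x (hΦ x hx)))
    rw [h5]
    exact (h2 x hx).trans ((le_max_right _ _).trans (le_max_right _ _))

theorem lowb (f : ℝ → ℝ) (c d : ℝ) (hcd : c ≤ d) (hf : ContinuousOn f (Icc c d))
    (hpos : ∀ z ∈ Icc c d, 0 < f z) : ∃ m : ℝ, 0 < m ∧ ∀ z ∈ Icc c d, m ≤ f z := by
  obtain ⟨x, hx, hmin⟩ := isCompact_Icc.exists_isMinOn (nonempty_Icc.2 hcd) hf
  exact ⟨f x, hpos x hx, fun z hz => hmin hz⟩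

theorem upb (f : ℝ → ℝ) (c d : ℝ) (hf : ContinuousOn f (Icc c d)) :
    ∃ M : ℝ, ∀ z ∈ Icc c d, |f z| ≤ M :=
  isCompact_Icc.exists_bound_of_continuousOn hf

end GBDM

/-- **GBD**. -/
theorem specGBD (hSQR : SpecSQR) : SpecGBD := by
  intro h κ c d hcd hh hκ hpos hgam
  obtain ⟨hκ1, -⟩ := hκ
  obtain ⟨r, hrdef⟩ : ∃ r : ℝ → ℝ, r = fun z => √(h z) := ⟨_, rfl⟩
  obtain ⟨r2, hr2def⟩ : ∃ r2 : ℝ → ℝ, r2 = deriv (deriv r) := ⟨_, rfl⟩
  obtain ⟨k2, hk2def⟩ : ∃ k2 : ℝ → ℝ, k2 = deriv (deriv κ) := ⟨_, rfl⟩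
  have hgm : ∀ μ z, gm h κ μ z = (r2 z + μ * k2 z) / (r z + μ * κ z) := by
    intro μ z
    rw [hr2def, hk2def, hrdef]
    rfl
  have hfm : ∀ μ μ' z, fm h κ μ μ' z =
      (k2 z * r z - κ z * r2 z) / ((r z + μ * κ z) * (r z + μ' * κ z)) := by
    intro μ μ' z
    rw [hr2def, hk2def, hrdef]
    rfl
  have hr : ∀ z ∈ Icc c d, ContDiffAt ℝ ∞ r z := by
    intro z hz
    rw [hrdef]
    exact (hSQR.1 h z hh (hpos z hz).1).1
  have hr2 : ∀ z ∈ Icc c d, ContDiffAt ℝ ∞ r2 z := by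
    intro z hz
    rw [hr2def]
    exact GBDM.cd _ _ (GBDM.cd _ _ (hr z hz))
  have hκc : ∀ z, ContDiffAt ℝ ∞ κ z := fun z => hκ1.contDiffAt
  have hk2 : ∀ z, ContDiffAt ℝ ∞ k2 z := by
    intro z
    rw [hk2def]
    exact GBDM.cd _ _ (GBDM.cd _ _ (hκc z))
  have hr0 : ∀ z ∈ Icc c d, 0 < r z := by
    intro z hz
    rw [hrdef]
    exact Real.sqrt_pos.2 (hpos z hz).1
  have hr20 : ∀ z ∈ Icc c d, 0 < r2 z := by
    intro z hz
    have h1 := (hSQR.1 h z hh (hpos z hz).1).2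
    have h2 := (hpos z hz).2
    have h3 := hr0 z hz
    rw [hrdef] at h3
    rw [h1] at h2
    rw [hr2def, hrdef]
    by_contra h4
    push Not at h4
    have h5 : 0 ≤ -(√(h z)) ^ 3 * deriv (deriv fun z => √(h z)) z := by
      have h6 : 0 < (√(h z)) ^ 3 := pow_pos h3 3
      nlinarith [mul_nonneg h6.le (neg_nonneg.2 h4)]
    linarith
  have cr : ContinuousOn r (Icc c d) := fun z hz => (hr z hz).continuousAt.continuousWithinAt
  have cr2 : ContinuousOn r2 (Icc c d) := fun z hz => (hr2 z hz).continuousAt.continuousWithinAt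
  have cκ : ContinuousOn κ (Icc c d) := fun z _ => (hκc z).continuousAt.continuousWithinAt
  have ck2 : ContinuousOn k2 (Icc c d) := fun z _ => (hk2 z).continuousAt.continuousWithinAt
  obtain ⟨r₀, hr₀, hr₀'⟩ := GBDM.lowb r c d hcd.le cr hr0
  obtain ⟨r₃, hr₃, hr₃'⟩ := GBDM.lowb r2 c d hcd.le cr2 hr20
  obtain ⟨K₁, hK₁⟩ := GBDM.upb r c d cr
  obtain ⟨K₂, hK₂⟩ := GBDM.upb κ c d cκ
  obtain ⟨K₃, hK₃⟩ := GBDM.upb k2 c d ck2
  obtain ⟨K, hKdef⟩ : ∃ K : ℝ, K = |K₁| + |K₂| + |K₃| + 1 := ⟨_, rfl⟩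
  have hK : 0 < K := by rw [hKdef]; positivity
  have hKr : ∀ z ∈ Icc c d, r z ≤ K := by
    intro z hz
    rw [hKdef]
    linarith [le_abs_self (r z), hK₁ z hz, le_abs_self K₁, abs_nonneg K₂, abs_nonneg K₃]
  have hKκ : ∀ z ∈ Icc c d, |κ z| ≤ K := by
    intro z hz
    rw [hKdef]
    linarith [hK₂ z hz, le_abs_self K₂, abs_nonneg K₁, abs_nonneg K₃]
  have hKk : ∀ z ∈ Icc c d, |k2 z| ≤ K := by
    intro z hz
    rw [hKdef]
    linarith [hK₃ z hz, le_abs_self K₃, abs_nonneg K₁, abs_nonneg K₂]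
  obtain ⟨μ₂, hμ₂def⟩ : ∃ μ₂ : ℝ, μ₂ = min (r₀ / (2 * K)) (r₃ / (2 * K)) := ⟨_, rfl⟩
  have hμ₂ : 0 < μ₂ := by
    rw [hμ₂def]
    exact lt_min (by positivity) (by positivity)
  have hs1 : ∀ μ : ℝ, |μ| ≤ μ₂ → ∀ z ∈ Icc c d, |μ * κ z| ≤ r₀ / 2 := by
    intro μ hμ z hz
    rw [abs_mul]
    have h1 : |μ| ≤ r₀ / (2 * K) := hμ.trans (by rw [hμ₂def]; exact min_le_left _ _)
    calc |μ| * |κ z| ≤ r₀ / (2 * K) * K := mul_le_mul h1 (hKκ z hz) (abs_nonneg _) (by positivity)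
      _ = r₀ / 2 := by field_simp
  have hs2 : ∀ μ : ℝ, |μ| ≤ μ₂ → ∀ z ∈ Icc c d, |μ * k2 z| ≤ r₃ / 2 := by
    intro μ hμ z hz
    rw [abs_mul]
    have h1 : |μ| ≤ r₃ / (2 * K) := hμ.trans (by rw [hμ₂def]; exact min_le_right _ _)
    calc |μ| * |k2 z| ≤ r₃ / (2 * K) * K := mul_le_mul h1 (hKk z hz) (abs_nonneg _) (by positivity)
      _ = r₃ / 2 := by field_simp
  have hD : ∀ μ : ℝ, |μ| ≤ μ₂ → ∀ z ∈ Icc c d, r₀ / 2 ≤ r z + μ * κ z := by
    intro μ hμ z hz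
    have h1 := (abs_le.1 (hs1 μ hμ z hz)).1
    linarith [hr₀' z hz]
  have hD0 : ∀ μ : ℝ, |μ| ≤ μ₂ → ∀ z ∈ Icc c d, 0 < r z + μ * κ z := fun μ hμ z hz =>
    (by positivity : 0 < r₀ / 2).trans_le (hD μ hμ z hz)
  have hDu : ∀ μ : ℝ, |μ| ≤ μ₂ → ∀ z ∈ Icc c d, r z + μ * κ z ≤ K + r₀ / 2 := by
    intro μ hμ z hz
    have h1 := (abs_le.1 (hs1 μ hμ z hz)).2
    linarith [hKr z hz]
  have hN : ∀ μ : ℝ, |μ| ≤ μ₂ → ∀ z ∈ Icc c d, r₃ / 2 ≤ r2 z + μ * k2 z := by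
    intro μ hμ z hz
    have h1 := (abs_le.1 (hs2 μ hμ z hz)).1
    linarith [hr₃' z hz]
  obtain ⟨m, hmdef⟩ : ∃ m : ℝ, m = min (r₀ / 2) ((r₃ / 2) / (K + r₀ / 2)) := ⟨_, rfl⟩
  have hm : 0 < m := by
    rw [hmdef]
    exact lt_min (by positivity) (by positivity)
  have hgmlow : ∀ μ : ℝ, |μ| ≤ μ₂ → ∀ z ∈ Icc c d, m ≤ gm h κ μ z := by
    intro μ hμ z hz
    rw [hgm]
    have h1 : m ≤ (r₃ / 2) / (K + r₀ / 2) := by rw [hmdef]; exact min_le_right _ _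
    refine h1.trans ?_
    have h2 := hD0 μ hμ z hz
    exact div_le_div₀ ((by positivity : (0 : ℝ) ≤ r₃ / 2).trans (hN μ hμ z hz)) (hN μ hμ z hz) h2
      (hDu μ hμ z hz)
  -- the two functions with parameters
  obtain ⟨G, hGdef⟩ : ∃ G : ℝ × ℝ → ℝ, G = fun x => (r2 x.2 + x.1 * k2 x.2) / (r x.2 + x.1 * κ x.2) :=
    ⟨_, rfl⟩
  obtain ⟨F, hFdef⟩ : ∃ F : (ℝ × ℝ) × ℝ → ℝ, F = fun x => (k2 x.2 * r x.2 - κ x.2 * r2 x.2) /
    ((r x.2 + x.1.1 * κ x.2) * (r x.2 + x.1.2 * κ x.2)) := ⟨_, rfl⟩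
  have hGc : ∀ μ : ℝ, |μ| ≤ μ₂ → ∀ z ∈ Icc c d, ContDiffAt ℝ ∞ G (μ, z) := by
    intro μ hμ z hz
    rw [hGdef]
    have e1 : ContDiffAt ℝ ∞ (fun x : ℝ × ℝ => r2 x.2) (μ, z) :=
      ContDiffAt.comp (g := r2) (μ, z) (hr2 z hz) contDiffAt_snd
    have e2 : ContDiffAt ℝ ∞ (fun x : ℝ × ℝ => k2 x.2) (μ, z) :=
      ContDiffAt.comp (g := k2) (μ, z) (hk2 z) contDiffAt_snd
    have e3 : ContDiffAt ℝ ∞ (fun x : ℝ × ℝ => r x.2) (μ, z) :=
      ContDiffAt.comp (g := r) (μ, z) (hr z hz) contDiffAt_snd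
    have e4 : ContDiffAt ℝ ∞ (fun x : ℝ × ℝ => κ x.2) (μ, z) :=
      ContDiffAt.comp (g := κ) (μ, z) (hκc z) contDiffAt_snd
    exact (e1.add (contDiffAt_fst.mul e2)).div (e3.add (contDiffAt_fst.mul e4)) (hD0 μ hμ z hz).ne'
  have hFc : ∀ μ μ' : ℝ, |μ| ≤ μ₂ → |μ'| ≤ μ₂ → ∀ z ∈ Icc c d, ContDiffAt ℝ ∞ F ((μ, μ'), z) := by
    intro μ μ' hμ hμ' z hz
    rw [hFdef]
    have e1 : ContDiffAt ℝ ∞ (fun x : (ℝ × ℝ) × ℝ => r2 x.2) ((μ, μ'), z) :=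
      ContDiffAt.comp (g := r2) ((μ, μ'), z) (hr2 z hz) contDiffAt_snd
    have e2 : ContDiffAt ℝ ∞ (fun x : (ℝ × ℝ) × ℝ => k2 x.2) ((μ, μ'), z) :=
      ContDiffAt.comp (g := k2) ((μ, μ'), z) (hk2 z) contDiffAt_snd
    have e3 : ContDiffAt ℝ ∞ (fun x : (ℝ × ℝ) × ℝ => r x.2) ((μ, μ'), z) :=
      ContDiffAt.comp (g := r) ((μ, μ'), z) (hr z hz) contDiffAt_snd
    have e4 : ContDiffAt ℝ ∞ (fun x : (ℝ × ℝ) × ℝ => κ x.2) ((μ, μ'), z) :=
      ContDiffAt.comp (g := κ) ((μ, μ'), z) (hκc z) contDiffAt_snd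
    have e5 : ContDiffAt ℝ ∞ (fun x : (ℝ × ℝ) × ℝ => x.1.1) ((μ, μ'), z) :=
      contDiffAt_fst.comp ((μ, μ'), z) contDiffAt_fst
    have e6 : ContDiffAt ℝ ∞ (fun x : (ℝ × ℝ) × ℝ => x.1.2) ((μ, μ'), z) :=
      contDiffAt_snd.comp ((μ, μ'), z) contDiffAt_fst
    exact ((e2.mul e3).sub (e4.mul e1)).div ((e3.add (e5.mul e4)).mul (e3.add (e6.mul e4)))
      (mul_pos (hD0 μ hμ z hz) (hD0 μ' hμ' z hz)).ne'
  obtain ⟨M₁, hM₁⟩ := GBDM.bds G (Icc (-μ₂) μ₂ ×ˢ Icc c d) (isCompact_Icc.prod isCompact_Icc)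
    (fun x hx => hGc x.1 (abs_le.2 hx.1) x.2 hx.2)
  obtain ⟨M₂, hM₂⟩ := GBDM.bds F ((Icc (-μ₂) μ₂ ×ˢ Icc (-μ₂) μ₂) ×ˢ Icc c d)
    ((isCompact_Icc.prod isCompact_Icc).prod isCompact_Icc)
    (fun x hx => hFc x.1.1 x.1.2 (abs_le.2 hx.1.1) (abs_le.2 hx.1.2) x.2 hx.2)
  have hgG : ∀ μ, gm h κ μ = fun z => G (μ, z) := by
    intro μ
    funext z
    rw [hgm, hGdef]
  have hfF : ∀ μ μ', fm h κ μ μ' = fun z => F ((μ, μ'), z) := by
    intro μ μ'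
    funext z
    rw [hfm, hFdef]
  -- the integral
  have hcont : ContinuousAt (fun e : ℝ × ℝ => ∫ z in c..d, fm h κ e.1 e.2 z / √(gm h κ e.1 z))
      ((0 : ℝ), (0 : ℝ)) := by
    have hev : ∀ᶠ e : ℝ × ℝ in 𝓝 ((0 : ℝ), (0 : ℝ)), |e.1| ≤ μ₂ ∧ |e.2| ≤ μ₂ := by
      have h1 : ∀ᶠ x : ℝ in 𝓝 0, |x| ≤ μ₂ := by
        have h2 : Tendsto (fun x : ℝ => |x|) (𝓝 0) (𝓝 0) := by
          have := continuous_abs.tendsto (0 : ℝ)
          rwa [abs_zero] at this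
        exact h2.eventually (ge_mem_nhds hμ₂)
      rw [nhds_prod_eq]
      exact h1.prod_mk h1
    refine intervalIntegral.continuousAt_of_dominated_interval (bound := fun _ => M₂ / √m) ?_ ?_ ?_ ?_
    · filter_upwards [hev] with e he
      have h1 : ContinuousOn (fun z => fm h κ e.1 e.2 z / √(gm h κ e.1 z)) (Icc c d) := by
        intro z hz
        refine ContinuousAt.continuousWithinAt ?_
        rw [hgG, hfF]
        have h2 : ContinuousAt (fun z => F ((e.1, e.2), z)) z :=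
          ContinuousAt.comp (g := F) (f := fun z => ((e.1, e.2), z))
            (hFc e.1 e.2 he.1 he.2 z hz).continuousAt (by fun_prop)
        have h3 : ContinuousAt (fun z => G (e.1, z)) z :=
          ContinuousAt.comp (g := G) (f := fun z => (e.1, z)) (hGc e.1 he.1 z hz).continuousAt
            (by fun_prop)
        refine h2.div h3.sqrt ?_
        have h4 := hgmlow e.1 he.1 z hz
        rw [hgG] at h4
        exact (Real.sqrt_pos.2 (hm.trans_le h4)).ne'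
      rw [uIoc_of_le hcd.le]
      exact (h1.mono Ioc_subset_Icc_self).aestronglyMeasurable measurableSet_Ioc
    · filter_upwards [hev] with e he
      refine ae_of_all _ (fun z hz => ?_)
      rw [uIoc_of_le hcd.le] at hz
      have hz' : z ∈ Icc c d := Ioc_subset_Icc_self hz
      have h1 : |fm h κ e.1 e.2 z| ≤ M₂ := by
        rw [hfF]
        exact (hM₂ ((e.1, e.2), z) ⟨⟨abs_le.1 he.1, abs_le.1 he.2⟩, hz'⟩).1
      have h2 := hgmlow e.1 he.1 z hz'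
      rw [Real.norm_eq_abs, abs_div, abs_of_nonneg (Real.sqrt_nonneg _)]
      exact div_le_div₀ ((abs_nonneg _).trans h1) h1 (Real.sqrt_pos.2 hm) (Real.sqrt_le_sqrt h2)
    · exact intervalIntegrable_const
    · refine ae_of_all _ (fun z hz => ?_)
      rw [uIoc_of_le hcd.le] at hz
      have hz' : z ∈ Icc c d := Ioc_subset_Icc_self hz
      have h00 : |(0 : ℝ)| ≤ μ₂ := by rw [abs_zero]; exact hμ₂.le
      have h2 : ContinuousAt (fun e : ℝ × ℝ => F ((e.1, e.2), z)) ((0 : ℝ), (0 : ℝ)) :=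
        ContinuousAt.comp (g := F) (f := fun e : ℝ × ℝ => ((e.1, e.2), z))
          (hFc 0 0 h00 h00 z hz').continuousAt (by fun_prop)
      have h3 : ContinuousAt (fun e : ℝ × ℝ => G (e.1, z)) ((0 : ℝ), (0 : ℝ)) :=
        ContinuousAt.comp (g := G) (f := fun e : ℝ × ℝ => (e.1, z))
          (hGc 0 h00 z hz').continuousAt (by fun_prop)
      have h4 : (fun e : ℝ × ℝ => fm h κ e.1 e.2 z / √(gm h κ e.1 z)) =
          fun e : ℝ × ℝ => F ((e.1, e.2), z) / √(G (e.1, z)) := by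
        funext e
        rw [hgG, hfF]
      rw [h4]
      refine h2.div h3.sqrt ?_
      have h5 := hgmlow 0 h00 z hz'
      rw [hgG] at h5
      exact (Real.sqrt_pos.2 (hm.trans_le h5)).ne'
  have hval : ∫ z in c..d, fm h κ 0 0 z / √(gm h κ 0 z) = gam h κ c d := by
    unfold gam
    refine intervalIntegral.integral_congr (fun z hz => ?_)
    rw [uIcc_of_le hcd.le] at hz
    rw [hfm, hgm]
    have h1 : h z = r z * r z := by
      rw [hrdef]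
      exact (Real.mul_self_sqrt (hpos z hz).1.le).symm
    have h2 : rho (fun z => √(h z)) κ z = k2 z * r z - κ z * r2 z := by
      rw [hk2def, hr2def, hrdef]
      rfl
    have h3 : deriv (deriv fun z => √(h z)) z = r2 z := by
      rw [hr2def, hrdef]
    have h4 : √(h z) = r z := by rw [hrdef]
    rw [h2, h3, h4, h1, zero_mul, zero_mul, add_zero, add_zero, div_div]
  have hγ : ∀ᶠ e : ℝ × ℝ in 𝓝 ((0 : ℝ), (0 : ℝ)),
      |gam h κ c d| / 2 ≤ |∫ z in c..d, fm h κ e.1 e.2 z / √(gm h κ e.1 z)| := by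
    have h1 := hcont.tendsto.abs
    rw [hval] at h1
    have h2 : |gam h κ c d| / 2 < |gam h κ c d| := by
      have := abs_pos.2 hgam
      linarith
    exact h1.eventually (le_mem_nhds h2)
  obtain ⟨ε, hε, hball⟩ := Metric.eventually_nhds_iff.1 hγ
  refine ⟨m, max M₁ M₂, |gam h κ c d| / 2, min μ₂ (ε / 2), hm, by
    have := abs_pos.2 hgam
    positivity, lt_min hμ₂ (by positivity), ?_⟩
  intro μ μ' hμ hμ'
  have hμa := hμ.trans (min_le_left μ₂ (ε / 2))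
  have hμb := hμ.trans (min_le_right μ₂ (ε / 2))
  have hμa' := hμ'.trans (min_le_left μ₂ (ε / 2))
  have hμb' := hμ'.trans (min_le_right μ₂ (ε / 2))
  refine ⟨?_, ?_⟩
  · intro z hz
    have b1 := hM₁ (μ, z) ⟨abs_le.1 hμa, hz⟩
    have b2 := hM₂ ((μ, μ'), z) ⟨⟨abs_le.1 hμa, abs_le.1 hμa'⟩, hz⟩
    dsimp only at b1 b2
    rw [← hgG μ] at b1
    rw [← hfF μ μ'] at b2
    have b1' : |gm h κ μ z| ≤ M₁ := by rw [hgG]; exact b1.1
    have b2' : |fm h κ μ μ' z| ≤ M₂ := by rw [hfF]; exact b2.1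
    have hd1 := hD0 μ hμa z hz
    have hd2 := hD0 μ' hμa' z hz
    refine ⟨?_, ?_, ?_, hgmlow μ hμa z hz, ?_, ?_, ?_, ?_, ?_, ?_⟩
    · have h1 : m ≤ r₀ / 2 := by rw [hmdef]; exact min_le_left _ _
      have h2 := hD μ hμa z hz
      rw [hrdef] at h2
      exact h1.trans h2
    · rw [hgG]
      exact ContDiffAt.comp (g := G) (f := fun z => (μ, z)) z (hGc μ hμa z hz)
        (contDiffAt_const.prodMk contDiffAt_id)
    · rw [hfF]
      exact ContDiffAt.comp (g := F) (f := fun z => ((μ, μ'), z)) z (hFc μ μ' hμa hμa' z hz)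
        (contDiffAt_const.prodMk contDiffAt_id)
    · exact (le_abs_self _).trans (b1'.trans (le_max_left _ _))
    · exact b1.2.1.trans (le_max_left _ _)
    · exact b1.2.2.trans (le_max_left _ _)
    · exact b2'.trans (le_max_right _ _)
    · exact b2.2.1.trans (le_max_right _ _)
    · rw [hgm, hgm, hfm]
      have n1 := hd1.ne'
      have n2 := hd2.ne'
      rw [div_sub_div _ _ n2 n1, ← mul_div_assoc,
        div_eq_div_iff (mul_ne_zero n2 n1) (mul_ne_zero n1 n2)]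
      ring
  · refine hball (y := (μ, μ')) ?_
    rw [Prod.dist_eq, Real.dist_eq, Real.dist_eq, sub_zero, sub_zero]
    exact (max_le hμb hμb').trans_lt (by linarith)

end

end Pool.Agent.Lib.MP478c11.DB
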