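import Pool.Agent.Lib.MP_478c11_gt.DB.Spec

/-!
# MP_478c11_gt: module LAG, the difference formula
-/

set_option autoImplicit false

namespace Pool.Agent.Lib.MP478c11.DB

open Set Filter Topology MeasureTheory
open scoped ContDiff

noncomputable section

namespace LAGM

/-- a bump vanishes with its derivative at the ends of its interval -/
theorem bump_left (κ : ℝ → ℝ) (c d : ℝ) (hκ : Bump κ c d) : κ c = 0 ∧ deriv κ c = 0 := by
  have hc : Continuous κ := hκ.1.continuous
  have hd : Continuous (deriv κ) := hκ.1.continuous_deriv (by simp)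
  have hz : ∀ z ∈ Iio c, κ z = 0 := fun z hz => hκ.2 z (fun h => absurd h.1 (not_le.2 hz))
  have hz' : ∀ z ∈ Iio c, deriv κ z = 0 := by
    intro z hz1
    have h1 : κ =ᶠ[𝓝 z] (fun _ => (0 : ℝ)) := by
      filter_upwards [isOpen_Iio.mem_nhds hz1] with w hw
      exact hz w hw
    rw [h1.deriv_eq]
    simp
  have hmem : c ∈ closure (Iio c) := by rw [closure_Iio]; exact le_refl c
  constructor
  · exact (IsClosed.closure_subset_iff (isClosed_eq hc continuous_const)).2 hz hmem
  · exact (IsClosed.closure_subset_iff (isClosed_eq hd continuous_const)).2 hz' hmem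

theorem bump_right (κ : ℝ → ℝ) (c d : ℝ) (hκ : Bump κ c d) : κ d = 0 ∧ deriv κ d = 0 := by
  have hc : Continuous κ := hκ.1.continuous
  have hd : Continuous (deriv κ) := hκ.1.continuous_deriv (by simp)
  have hz : ∀ z ∈ Ioi d, κ z = 0 := fun z hz => hκ.2 z (fun h => absurd h.2 (not_le.2 hz))
  have hz' : ∀ z ∈ Ioi d, deriv κ z = 0 := by
    intro z hz1
    have h1 : κ =ᶠ[𝓝 z] (fun _ => (0 : ℝ)) := by
      filter_upwards [isOpen_Ioi.mem_nhds hz1] with w hw
      exact hz w hw
    rw [h1.deriv_eq]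
    simp
  have hmem : d ∈ closure (Ioi d) := by rw [closure_Ioi]; exact le_refl d
  constructor
  · exact (IsClosed.closure_subset_iff (isClosed_eq hc continuous_const)).2 hz hmem
  · exact (IsClosed.closure_subset_iff (isClosed_eq hd continuous_const)).2 hz' hmem

/-- the data at one point -/
theorem key (r r' r'' k k' k'' m m' y v y₁ v₁ N : ℝ) (h1 : r + m * k ≠ 0) (h2 : r + m' * k ≠ 0) :
    ((r' + m * k') * y + (r + m * k) * (v / (r + m * k) ^ 2)) *
        ((r' + m' * k') * y₁ + v₁ / (r + m' * k)) +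
      (r + m * k) * y *
        (((r'' + m' * k'') * y₁ + (r' + m' * k') * (v₁ / (r + m' * k) ^ 2)) +
          ((N * (-(r + m' * k) ^ 3 * (r'' + m' * k'')) * y₁ + 0) / (r + m' * k) ^ 2 * (r + m' * k) -
            v₁ * (r' + m' * k')) / (r + m' * k) ^ 2) -
      ((((r'' + m * k'') * y + (r' + m * k') * (v / (r + m * k) ^ 2)) +
          ((N * (-(r + m * k) ^ 3 * (r'' + m * k'')) * y + 0) / (r + m * k) ^ 2 * (r + m * k) -
            v * (r' + m * k')) / (r + m * k) ^ 2) * ((r + m' * k) * y₁) +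
        ((r' + m * k') * y + v / (r + m * k)) *
          ((r' + m' * k') * y₁ + (r + m' * k) * (v₁ / (r + m' * k) ^ 2))) =
    -((N - 1) * (m' - m)) * ((k'' * r - k * r'') * (y * y₁)) := by
  set a := r + m * k with ha
  set b := r + m' * k with hb
  have e : (m' - m) * (k'' * r - k * r'') = (r'' + m' * k'') * a - (r'' + m * k'') * b := by
    rw [ha, hb]; ring
  have e2 : -((N - 1) * (m' - m)) * ((k'' * r - k * r'') * (y * y₁)) =
      -(N - 1) * (y * y₁) * ((r'' + m' * k'') * a - (r'' + m * k'') * b) := by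
    rw [← e]; ring
  rw [e2]
  generalize r'' + m' * k'' = b2
  generalize r'' + m * k'' = a2
  generalize r' + m' * k' = b1
  generalize r' + m * k' = a1
  clear_value a b
  field_simp
  ring

end LAGM

theorem specLAG (hSQR : SpecSQR) : SpecLAG := by
  intro h κ c d μ μ' hcd hh hκ hpos n y v y₁ v₁ hs hs₁
  obtain ⟨r, hr⟩ : ∃ r : ℝ → ℝ, r = fun z => √(h z) := ⟨_, rfl⟩
  have hrz : ∀ z, √(h z) = r z := fun z => by rw [hr]
  rw [← hr]
  simp only [hrz] at hpos
  have hU : IsOpen {z | 0 < h z} := isOpen_lt continuous_const hh.continuous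
  have hrU : ContDiffOn ℝ ∞ r {z | 0 < h z} := fun z hz => by
    rw [hr]
    exact (hSQR.1 h z hh hz).1.contDiffWithinAt
  have hr1U : ContDiffOn ℝ ∞ (deriv r) {z | 0 < h z} := hrU.deriv_of_isOpen hU (by simp)
  have hr2U : ContDiffOn ℝ ∞ (deriv (deriv r)) {z | 0 < h z} := hr1U.deriv_of_isOpen hU (by simp)
  have hk1 : ContDiff ℝ ∞ (deriv κ) := (contDiff_infty_iff_deriv.1 hκ.1).2
  have hk2 : ContDiff ℝ ∞ (deriv (deriv κ)) := (contDiff_infty_iff_deriv.1 hk1).2
  have dr : ∀ z ∈ Icc c d, HasDerivAt r (deriv r z) z := fun z hz =>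
    ((hrU.contDiffAt (hU.mem_nhds (hpos z hz).1)).differentiableAt (by simp)).hasDerivAt
  have dr1 : ∀ z ∈ Icc c d, HasDerivAt (deriv r) (deriv (deriv r) z) z := fun z hz =>
    ((hr1U.contDiffAt (hU.mem_nhds (hpos z hz).1)).differentiableAt (by simp)).hasDerivAt
  have dr2 : ∀ z ∈ Icc c d, ContinuousAt (deriv (deriv r)) z := fun z hz =>
    hr2U.continuousOn.continuousAt (hU.mem_nhds (hpos z hz).1)
  have dk : ∀ z, HasDerivAt κ (deriv κ z) z := fun z =>
    (hκ.1.differentiable (by simp) z).hasDerivAt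
  have dk1 : ∀ z, HasDerivAt (deriv κ) (deriv (deriv κ) z) z := fun z =>
    (hk1.differentiable (by simp) z).hasDerivAt
  -- the functions
  set Φ : ℝ → ℝ := fun z => (r z + μ * κ z) * y z *
      ((deriv r z + μ' * deriv κ z) * y₁ z + v₁ z / (r z + μ' * κ z)) -
      ((deriv r z + μ * deriv κ z) * y z + v z / (r z + μ * κ z)) * ((r z + μ' * κ z) * y₁ z) with hΦ
  have hder : ∀ z ∈ Icc c d, HasDerivAt Φ
      (-(((n : ℝ) ^ 2 - 1) * (μ' - μ)) * (rho r κ z * (y z * y₁ z))) z := by
    intro z hz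
    obtain ⟨hp0, hp1, hp2⟩ := hpos z hz
    have q1 := hSQR.2 h κ μ z hh hκ.1 hp0 (by rw [hrz]; exact hp1)
    have q2 := hSQR.2 h κ μ' z hh hκ.1 hp0 (by rw [hrz]; exact hp2)
    rw [hrz, ← hr] at q1 q2
    obtain ⟨s1, s2⟩ := hs z hz
    obtain ⟨t1, t2⟩ := hs₁ z hz
    rw [q1.1] at s1 s2
    rw [q1.2] at s2
    rw [q2.1] at t1 t2
    rw [q2.2] at t2
    have O0 : O z = 0 := rfl
    rw [O0] at s2 t2
    have a0 : HasDerivAt (fun z => r z + μ * κ z) (deriv r z + μ * deriv κ z) z :=
      (dr z hz).add ((dk z).const_mul μ)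
    have b0 : HasDerivAt (fun z => r z + μ' * κ z) (deriv r z + μ' * deriv κ z) z :=
      (dr z hz).add ((dk z).const_mul μ')
    have a1 : HasDerivAt (fun z => deriv r z + μ * deriv κ z)
        (deriv (deriv r) z + μ * deriv (deriv κ) z) z :=
      (dr1 z hz).add ((dk1 z).const_mul μ)
    have b1 : HasDerivAt (fun z => deriv r z + μ' * deriv κ z)
        (deriv (deriv r) z + μ' * deriv (deriv κ) z) z :=
      (dr1 z hz).add ((dk1 z).const_mul μ')
    have B := a0.mul s1
    have B' := (a1.mul s1).add (s2.div a0 hp1.ne')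
    have C := b0.mul t1
    have C' := (b1.mul t1).add (t2.div b0 hp2.ne')
    have F := (B.mul C').sub (B'.mul C)
    have k := LAGM.key (r z) (deriv r z) (deriv (deriv r) z) (κ z) (deriv κ z) (deriv (deriv κ) z)
      μ μ' (y z) (v z) (y₁ z) (v₁ z) ((n : ℝ) ^ 2) hp1.ne' hp2.ne'
    unfold rho
    rw [← k]
    exact F
  have hint : IntervalIntegrable
      (fun z => -(((n : ℝ) ^ 2 - 1) * (μ' - μ)) * (rho r κ z * (y z * y₁ z))) volume c d := by
    apply ContinuousOn.intervalIntegrable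
    rw [uIcc_of_le hcd.le]
    intro z hz
    apply ContinuousAt.continuousWithinAt
    have c1 : ContinuousAt y z := (hs z hz).1.continuousAt
    have c2 : ContinuousAt y₁ z := (hs₁ z hz).1.continuousAt
    have c3 : ContinuousAt (rho r κ) z := by
      unfold rho
      exact ((hk2.continuous.continuousAt).mul (dr z hz).continuousAt).sub
        (((dk z).continuousAt).mul (dr2 z hz))
    exact continuousAt_const.mul (c3.mul (c1.mul c2))
  have hFTC := intervalIntegral.integral_eq_sub_of_hasDerivAt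
    (fun z hz => hder z (by rwa [uIcc_of_le hcd.le] at hz)) hint
  rw [intervalIntegral.integral_const_mul] at hFTC
  rw [hFTC, hΦ]
  obtain ⟨kc, kc'⟩ := LAGM.bump_left κ c d hκ
  obtain ⟨kd, kd'⟩ := LAGM.bump_right κ c d hκ
  have pc := (hpos c (left_mem_Icc.2 hcd.le)).2.1
  have pd := (hpos d (right_mem_Icc.2 hcd.le)).2.1
  rw [kc] at pc
  rw [kd] at pd
  simp only [mul_zero, add_zero] at pc pd
  simp only [kc, kc', kd, kd', mul_zero, add_zero]
  field_simp
  ring

end

end Pool.Agent.Lib.MP478c11.DB
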