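import Pool.Agent.Lib.MP_478c11_gt.DB.Spec

/-!
# Module LEX: the left solution exists (shooting)
-/

set_option autoImplicit false

namespace Pool.Agent.Lib.MP478c11.DB

open Set Filter Topology MeasureTheory
open scoped ContDiff

namespace LEXM

/-- the last point of an interval where a continuous function is nonpositive -/
theorem last_nonpos {f : ℝ → ℝ} {u v : ℝ} (huv : u ≤ v) (hf : ContinuousOn f (Icc u v))
    (hu : f u ≤ 0) : ∃ m ∈ Icc u v, f m ≤ 0 ∧ ∀ z ∈ Ioc m v, 0 < f z := by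
  have hcl : IsClosed (Icc u v ∩ f ⁻¹' Iic 0) :=
    hf.preimage_isClosed_of_isClosed isClosed_Icc isClosed_Iic
  have hco : IsCompact (Icc u v ∩ f ⁻¹' Iic 0) :=
    isCompact_Icc.of_isClosed_subset hcl inter_subset_left
  obtain ⟨m, hm⟩ := hco.exists_isGreatest ⟨u, ⟨le_rfl, huv⟩, hu⟩
  refine ⟨m, hm.1.1, hm.1.2, fun z hz => ?_⟩
  by_contra hcon
  have h1 : z ∈ Icc u v ∩ f ⁻¹' Iic 0 := ⟨⟨hm.1.1.1.trans hz.1.le, hz.2⟩, not_lt.mp hcon⟩
  exact absurd (hm.2 h1) (not_le.mpr hz.1)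

section

variable {h : ℝ → ℝ} {a p q b : ℝ} {n : ℕ} {y v : ℝ → ℝ}

theorem cont_y (hs : Sys h n O y v (Ioo a b)) : ContinuousOn y (Ioo a b) :=
  fun z hz => (hs z hz).1.continuousAt.continuousWithinAt

theorem cont_v (hs : Sys h n O y v (Ioo a b)) : ContinuousOn v (Ioo a b) :=
  fun z hz => (hs z hz).2.continuousAt.continuousWithinAt

theorem dy (hs : Sys h n O y v (Ioo a b)) {z : ℝ} (hz : z ∈ Ioo a b) : deriv y z = v z / h z :=
  (hs z hz).1.deriv

theorem dv (hs : Sys h n O y v (Ioo a b)) {z : ℝ} (hz : z ∈ Ioo a b) :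
    deriv v z = (n : ℝ) ^ 2 * W h z * y z / h z := by
  rw [(hs z hz).2.deriv]
  simp [O]

/-- to the left of a point with `y ≤ 0`, `v > 0` in the cap: `y < 0`, `v > 0` -/
theorem left_neg (hD : Dumb h a p q b) (hn : 1 ≤ n) (hs : Sys h n O y v (Ioo a b)) {z₀ : ℝ}
    (hz₀ : z₀ ∈ Ioc a p) (hy : y z₀ ≤ 0) (hv : 0 < v z₀) :
    ∀ z ∈ Ioo a z₀, y z < 0 ∧ 0 < v z := by
  have hpb : p < b := hD.pq.trans hD.qb
  have hz₀b : z₀ < b := hz₀.2.trans_lt hpb
  have hsub : ∀ {s : ℝ}, a < s → Icc s z₀ ⊆ Ioo a b := fun hs' z hz =>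
    ⟨hs'.trans_le hz.1, hz.2.trans_lt hz₀b⟩
  -- `v > 0` on an interval gives `y` increasing
  have hinc : ∀ s, a < s → (∀ z ∈ Ioo s z₀, 0 < v z) → StrictMonoOn y (Icc s z₀) := by
    intro s hs' hvs
    refine strictMonoOn_of_deriv_pos (convex_Icc s z₀) ((cont_y hs).mono (hsub hs')) ?_
    intro z hz
    rw [interior_Icc] at hz
    have hz' : z ∈ Ioo a b := hsub hs' ⟨hz.1.le, hz.2.le⟩
    rw [dy hs hz']
    exact div_pos (hvs z hz) (hD.pos z hz'.1 hz'.2)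
  have hvpos : ∀ z ∈ Ioc a z₀, 0 < v z := by
    intro z₁ hz₁
    by_contra hcon
    obtain ⟨m, hm, hvm, hpos⟩ := last_nonpos hz₁.2 ((cont_v hs).mono (hsub hz₁.1))
      (not_lt.mp hcon)
    have ham : a < m := hz₁.1.trans_le hm.1
    have hmz : m < z₀ := by
      rcases lt_or_eq_of_le hm.2 with h1 | h1
      · exact h1
      · rw [h1] at hvm
        exact absurd hv (not_lt.mpr hvm)
    have hmono := hinc m ham fun z hz => hpos z ⟨hz.1, hz.2.le⟩
    have hanti : AntitoneOn v (Icc m z₀) := by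
      refine antitoneOn_of_deriv_nonpos (convex_Icc m z₀) ((cont_v hs).mono (hsub ham)) ?_ ?_
      · intro z hz
        rw [interior_Icc] at hz
        exact (hs z (hsub ham ⟨hz.1.le, hz.2.le⟩)).2.differentiableAt.differentiableWithinAt
      · intro z hz
        rw [interior_Icc] at hz
        have hz' : z ∈ Ioo a b := hsub ham ⟨hz.1.le, hz.2.le⟩
        rw [dv hs hz']
        have h1 : y z < y z₀ := hmono ⟨hz.1.le, hz.2.le⟩ ⟨hmz.le, le_rfl⟩ hz.2
        have h2 : 0 < W h z := hD.W1 z hz'.1.le (hz.2.trans_le hz₀.2)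
        have h3 : 0 < h z := hD.pos z hz'.1 hz'.2
        have h4 : (n : ℝ) ^ 2 * W h z * y z ≤ 0 :=
          mul_nonpos_of_nonneg_of_nonpos (by positivity) (h1.le.trans hy)
        exact div_nonpos_of_nonpos_of_nonneg h4 h3.le
    have h5 : v z₀ ≤ v m := hanti ⟨le_rfl, hmz.le⟩ ⟨hmz.le, le_rfl⟩ hmz.le
    linarith
  intro z hz
  refine ⟨?_, hvpos z ⟨hz.1, hz.2.le⟩⟩
  have h1 := hinc z hz.1 fun t ht => hvpos t ⟨hz.1.trans ht.1, ht.2.le⟩
  exact (h1 ⟨le_rfl, hz.2.le⟩ ⟨hz.2.le, le_rfl⟩ hz.2).trans_le hy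

/-- if `y` is negative somewhere in the cap, `y p = 1`, then `v > 0` in the cap -/
theorem v_pos (hUNQ : SpecUNQ) (hD : Dumb h a p q b) (hn : 1 ≤ n)
    (hs : Sys h n O y v (Ioo a b)) (hp : y p = 1) {z₁ : ℝ} (hz₁ : z₁ ∈ Ioo a p)
    (hy : y z₁ < 0) : ∀ z ∈ Ioc a p, 0 < v z := by
  have hpb : p < b := hD.pq.trans hD.qb
  have hsub : ∀ {s : ℝ}, a < s → Icc s p ⊆ Ioo a b := fun hs' z hz =>
    ⟨hs'.trans_le hz.1, hz.2.trans_lt hpb⟩
  obtain ⟨m, hm, hym, hpos⟩ := last_nonpos hz₁.2.le ((cont_y hs).mono (hsub hz₁.1)) hy.le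
  have ham : a < m := hz₁.1.trans_le hm.1
  have hmp : m < p := by
    rcases lt_or_eq_of_le hm.2 with h1 | h1
    · exact h1
    · rw [h1, hp] at hym
      linarith
  have hmI : m ∈ Ioo a b := ⟨ham, hmp.trans hpb⟩
  have hhm : 0 < h m := hD.pos m hmI.1 hmI.2
  -- `y m = 0`
  have hym0 : y m = 0 := by
    refine le_antisymm hym ?_
    have h1 : Tendsto y (𝓝[>] m) (𝓝 (y m)) := (hs m hmI).1.continuousAt.mono_left nhdsWithin_le_nhds
    refine ge_of_tendsto h1 ?_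
    filter_upwards [Ioo_mem_nhdsGT hmp] with z hz
    exact (hpos z ⟨hz.1, hz.2.le⟩).le
  have hvm : 0 ≤ v m := by
    have h1 : HasDerivWithinAt y (v m / h m) (Ioi m) m := (hs m hmI).1.hasDerivWithinAt
    rw [hasDerivWithinAt_iff_tendsto_slope' (fun hm' : m ∈ Ioi m => lt_irrefl m hm')] at h1
    have h2 : 0 ≤ v m / h m := by
      refine ge_of_tendsto h1 ?_
      filter_upwards [Ioo_mem_nhdsGT hmp] with z hz
      rw [slope_def_field, hym0, sub_zero]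
      exact div_nonneg (hpos z ⟨hz.1, hz.2.le⟩).le (sub_nonneg.mpr hz.1.le)
    by_contra hcon
    exact absurd h2 (not_le.mpr (div_neg_of_neg_of_pos (not_le.mp hcon) hhm))
  have hvm' : 0 < v m := by
    refine lt_of_le_of_ne hvm fun h0 => ?_
    have hz : Sys h n O (fun _ => 0) (fun _ => 0) (Ioo a b) := by
      intro z _
      constructor
      · rw [zero_div]
        exact hasDerivAt_const z 0
      · have h1 : ((n : ℝ) ^ 2 * W h z * 0 + O z) / h z = 0 := by simp [O]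
        rw [h1]
        exact hasDerivAt_const z 0
    have h1 := (hUNQ h a p q b hD n O y v (fun _ => 0) (fun _ => 0) (Ioo a b) ordConnected_Ioo
      Subset.rfl hs hz m hmI hym0 h0.symm p ⟨hD.ap, hpb⟩).1
    rw [hp] at h1
    exact one_ne_zero h1
  have hmono : MonotoneOn v (Icc m p) := by
    refine monotoneOn_of_deriv_nonneg (convex_Icc m p) ((cont_v hs).mono (hsub ham)) ?_ ?_
    · intro z hz
      rw [interior_Icc] at hz
      exact (hs z (hsub ham ⟨hz.1.le, hz.2.le⟩)).2.differentiableAt.differentiableWithinAt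
    · intro z hz
      rw [interior_Icc] at hz
      have hz' : z ∈ Ioo a b := hsub ham ⟨hz.1.le, hz.2.le⟩
      rw [dv hs hz']
      have h1 : 0 < y z := hpos z ⟨hz.1, hz.2.le⟩
      have h2 : 0 < W h z := hD.W1 z hz'.1.le hz.2
      have h3 : 0 < h z := hD.pos z hz'.1 hz'.2
      positivity
  intro z hz
  rcases lt_or_ge z m with h1 | h1
  · exact (left_neg hD hn hs ⟨ham, hmp.le⟩ hym0.le hvm' z ⟨hz.1, h1⟩).2
  · exact hvm'.trans_le (hmono ⟨le_rfl, hmp.le⟩ ⟨h1, hz.2⟩ h1)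

/-- with data `(1, 0)` at `p` the function `v` is negative somewhere in the cap -/
theorem v_neg (hD : Dumb h a p q b) (hn : 1 ≤ n) (hs : Sys h n O y v (Ioo a b)) (hp : y p = 1)
    (hvp : v p = 0) : ∃ z ∈ Ioo a p, v z < 0 := by
  have hpb : p < b := hD.pq.trans hD.qb
  have hpI : p ∈ Ioo a b := ⟨hD.ap, hpb⟩
  have h1 : ∀ᶠ z in 𝓝 p, 0 < y z := by
    have h2 : (0 : ℝ) < y p := by rw [hp]; exact one_pos
    exact (hs p hpI).1.continuousAt.eventually (lt_mem_nhds h2)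
  obtain ⟨ε, hε, hball⟩ := Metric.eventually_nhds_iff_ball.mp h1
  set s : ℝ := max ((a + p) / 2) (p - ε / 2) with hsdef
  have has : a < s := lt_of_lt_of_le (by linarith [hD.ap]) (le_max_left _ _)
  have hsp : s < p := max_lt (by linarith [hD.ap]) (by linarith)
  have hsub : Icc s p ⊆ Ioo a b := fun z hz => ⟨has.trans_le hz.1, hz.2.trans_lt hpb⟩
  have hmono : StrictMonoOn v (Icc s p) := by
    refine strictMonoOn_of_deriv_pos (convex_Icc s p) ((cont_v hs).mono hsub) ?_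
    intro z hz
    rw [interior_Icc] at hz
    have hz' : z ∈ Ioo a b := hsub ⟨hz.1.le, hz.2.le⟩
    rw [dv hs hz']
    have h2 : 0 < W h z := hD.W1 z hz'.1.le hz.2
    have h3 : 0 < h z := hD.pos z hz'.1 hz'.2
    have h4 : 0 < y z := by
      apply hball
      rw [Metric.mem_ball, Real.dist_eq, abs_lt]
      have h5 : p - ε / 2 ≤ s := le_max_right _ _
      constructor
      · linarith [hz.1]
      · linarith [hz.2]
    have h6 : (0 : ℝ) < n := by exact_mod_cast hn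
    positivity
  exact ⟨s, ⟨has, hsp⟩, hvp ▸ hmono ⟨le_rfl, hsp.le⟩ ⟨hsp.le, le_rfl⟩ hsp⟩

end

end LEXM

open LEXM in
theorem specLEX (hLIN : SpecLIN) (hUNQ : SpecUNQ) : SpecLEX := by
  intro h a p q b hD n hn
  have hpb : p < b := hD.pq.trans hD.qb
  have hpI : p ∈ Ioo a b := ⟨hD.ap, hpb⟩
  obtain ⟨y₀, v₀, hs₀, hy₀, hv₀⟩ := hLIN h a p q b hD n p hpI 1 0
  obtain ⟨y₁, v₁, hs₁, hy₁, hv₁⟩ := hLIN h a p q b hD n p hpI 0 1
  have hsys : ∀ κ : ℝ, Sys h n O (fun z => y₀ z + κ * y₁ z) (fun z => v₀ z + κ * v₁ z)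
      (Ioo a b) := by
    intro κ z hz
    constructor
    · have h1 := (hs₀ z hz).1.add ((hs₁ z hz).1.const_mul κ)
      have h2 : v₀ z / h z + κ * (v₁ z / h z) = (v₀ z + κ * v₁ z) / h z := by ring
      rw [h2] at h1
      exact h1
    · have h1 := (hs₀ z hz).2.add ((hs₁ z hz).2.const_mul κ)
      have h2 : ((n : ℝ) ^ 2 * W h z * y₀ z + O z) / h z +
          κ * (((n : ℝ) ^ 2 * W h z * y₁ z + O z) / h z) =
          ((n : ℝ) ^ 2 * W h z * (y₀ z + κ * y₁ z) + O z) / h z := by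
        simp only [O]
        ring
      rw [h2] at h1
      exact h1
  have hyp : ∀ κ : ℝ, y₀ p + κ * y₁ p = 1 := fun κ => by rw [hy₀, hy₁, mul_zero, add_zero]
  have hvp : ∀ κ : ℝ, v₀ p + κ * v₁ p = κ := fun κ => by rw [hv₀, hv₁, mul_one, zero_add]
  set U : Set ℝ := ⋃ z ∈ Ioo a p, {κ : ℝ | y₀ z + κ * y₁ z < 0} with hU
  set T : Set ℝ := ⋃ z ∈ Ioo a p, {κ : ℝ | v₀ z + κ * v₁ z < 0} with hT
  have hUo : IsOpen U := isOpen_biUnion fun z _ =>
    isOpen_lt (continuous_const.add (continuous_id.mul continuous_const)) continuous_const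
  have hTo : IsOpen T := isOpen_biUnion fun z _ =>
    isOpen_lt (continuous_const.add (continuous_id.mul continuous_const)) continuous_const
  have hTn : (Ici (0 : ℝ) ∩ T).Nonempty := by
    obtain ⟨z, hz, hvz⟩ := v_neg hD hn (hsys 0) (hyp 0) (hvp 0)
    exact ⟨(0 : ℝ), mem_Ici.mpr (le_refl (0 : ℝ)), mem_iUnion₂.mpr ⟨z, hz, hvz⟩⟩
  have hUn : (Ici (0 : ℝ) ∩ U).Nonempty := by
    have hap := hD.ap
    have hz : (a + p) / 2 ∈ Ioo a p := ⟨by linarith, by linarith⟩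
    have h1 : y₁ ((a + p) / 2) < 0 :=
      (left_neg hD hn hs₁ ⟨hD.ap, le_rfl⟩ hy₁.le (by rw [hv₁]; exact one_pos) _ hz).1
    set Y := y₁ ((a + p) / 2) with hY
    set X := y₀ ((a + p) / 2) with hX
    have h0 : (0 : ℝ) ≤ (|X| + 1) / (-Y) := div_nonneg (by positivity) (by linarith)
    refine ⟨(|X| + 1) / (-Y), mem_Ici.mpr h0, mem_iUnion₂.mpr
      ⟨(a + p) / 2, hz, ?_⟩⟩
    show X + (|X| + 1) / (-Y) * Y < 0
    have h2 : (|X| + 1) / (-Y) * Y = -(|X| + 1) := by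
      rw [div_mul_eq_mul_div, div_eq_iff (by linarith)]
      ring
    rw [h2]
    linarith [le_abs_self X]
  have hdis : ∀ κ : ℝ, κ ∈ U → κ ∉ T := by
    intro κ hκU hκT
    obtain ⟨z, hz, hyz⟩ := mem_iUnion₂.mp hκU
    obtain ⟨z', hz', hvz⟩ := mem_iUnion₂.mp hκT
    have h1 := v_pos hUNQ hD hn (hsys κ) (hyp κ) hz hyz z' ⟨hz'.1, hz'.2.le⟩
    exact absurd h1 (not_lt.mpr (le_of_lt hvz))
  obtain ⟨κ, hκ0, hκU, hκT⟩ : ∃ κ : ℝ, 0 ≤ κ ∧ κ ∉ U ∧ κ ∉ T := by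
    by_contra hcon
    push Not at hcon
    have hcov : Ici (0 : ℝ) ⊆ U ∪ T := by
      intro κ hκ
      by_cases h1 : κ ∈ U
      · exact Or.inl h1
      · exact Or.inr (hcon κ hκ h1)
    obtain ⟨κ, _, h1, h2⟩ := isPreconnected_Ici U T hUo hTo hcov hUn hTn
    exact hdis κ h1 h2
  have hyn : ∀ z ∈ Ioo a p, 0 ≤ y₀ z + κ * y₁ z := by
    intro z hz
    by_contra hcon
    exact hκU (mem_iUnion₂.mpr ⟨z, hz, not_le.mp hcon⟩)
  have hvn : ∀ z ∈ Ioo a p, 0 ≤ v₀ z + κ * v₁ z := by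
    intro z hz
    by_contra hcon
    exact hκT (mem_iUnion₂.mpr ⟨z, hz, not_le.mp hcon⟩)
  refine ⟨fun z => y₀ z + κ * y₁ z, fun z => v₀ z + κ * v₁ z, hsys κ, hyp κ, ?_⟩
  intro z hz
  rcases lt_or_eq_of_le hz.2 with h1 | h1
  · refine ⟨hyn z ⟨hz.1, h1⟩, ?_, hvn z ⟨hz.1, h1⟩⟩
    have hsub : Icc z p ⊆ Ioo a b := fun t ht => ⟨hz.1.trans_le ht.1, ht.2.trans_lt hpb⟩
    have hmono : MonotoneOn (fun z => y₀ z + κ * y₁ z) (Icc z p) := by
      refine monotoneOn_of_deriv_nonneg (convex_Icc z p) ((cont_y (hsys κ)).mono hsub) ?_ ?_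
      · intro t ht
        rw [interior_Icc] at ht
        exact (hsys κ t (hsub ⟨ht.1.le, ht.2.le⟩)).1.differentiableAt.differentiableWithinAt
      · intro t ht
        rw [interior_Icc] at ht
        have ht' : t ∈ Ioo a b := hsub ⟨ht.1.le, ht.2.le⟩
        rw [dy (hsys κ) ht']
        exact div_nonneg (hvn t ⟨ht'.1, ht.2⟩) (hD.pos t ht'.1 ht'.2).le
    have h2 := hmono ⟨le_rfl, h1.le⟩ ⟨h1.le, le_rfl⟩ h1.le
    exact h2.trans (hyp κ).le
  · rw [h1]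
    refine ⟨?_, (hyp κ).le, ?_⟩
    · show 0 ≤ y₀ p + κ * y₁ p
      rw [hyp κ]
      exact zero_le_one
    · show 0 ≤ v₀ p + κ * v₁ p
      rw [hvp κ]
      exact hκ0

end Pool.Agent.Lib.MP478c11.DB
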