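import Pool.Agent.Lib.MP_478c11_gt.DB.Spec

/-!
# MP_478c11_gt, DB, module LKB
-/

set_option autoImplicit false

namespace Pool.Agent.Lib.MP478c11.DB

open Set Filter Topology MeasureTheory
open scoped ContDiff

namespace LKBM

/-- the mean value theorem -/
lemma mvt {f f' : ℝ → ℝ} {s t : ℝ} (hst : s < t) (h : ∀ x ∈ Icc s t, HasDerivAt f (f' x) x) :
    ∃ ξ ∈ Ioo s t, f t - f s = f' ξ * (t - s) := by
  obtain ⟨ξ, hξ, hξ'⟩ := exists_hasDerivAt_eq_slope f f' hst
    (fun x hx => (h x hx).continuousAt.continuousWithinAt)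
    (fun x hx => h x (Ioo_subset_Icc_self hx))
  refine ⟨ξ, hξ, ?_⟩
  have h0 : t - s ≠ 0 := by linarith
  rw [hξ']
  field_simp

lemma cont_W {h : ℝ → ℝ} (hs : ContDiff ℝ ∞ h) : Continuous (W h) := by
  have h1 : ContDiff ℝ ∞ (deriv h) := (contDiff_infty_iff_deriv.1 hs).2
  have h2 : ContDiff ℝ ∞ (deriv (deriv h)) := (contDiff_infty_iff_deriv.1 h1).2
  unfold W
  exact ((h1.continuous.pow 2).div_const 4).sub ((hs.continuous.mul h2.continuous).div_const 2)

end LKBM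

open LKBM in
theorem specLKB : SpecLKB := by
  intro h a p q b hd
  have hap := hd.ap
  have hpq := hd.pq
  have hqb := hd.qb
  set m := (a + p) / 2 with hm
  have ham : a < m := by linarith
  have hmp : m < p := by linarith
  have hpm : 0 < p - m := by linarith
  have hne : (Icc m p).Nonempty := ⟨m, le_rfl, hmp.le⟩
  obtain ⟨z1, hz1, hz1'⟩ := isCompact_Icc.exists_isMaxOn hne hd.smooth.continuous.continuousOn
  obtain ⟨z0, hz0, hz0'⟩ := isCompact_Icc.exists_isMinOn hne hd.smooth.continuous.continuousOn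
  obtain ⟨zw, hzw, hzw'⟩ := isCompact_Icc.exists_isMaxOn hne
    (cont_W hd.smooth).abs.continuousOn
  have hpos : ∀ z ∈ Icc m p, 0 < h z := fun z hz =>
    hd.pos z (by linarith [hz.1]) (by linarith [hz.2])
  have hH : 0 < h z1 := hpos z1 hz1
  have hh0 : 0 < h z0 := hpos z0 hz0
  have hW0 : 0 ≤ |W h zw| := abs_nonneg _
  refine ⟨h z1 / (p - m) + |W h zw| * (p - m) / h z0 + 1, by positivity, ?_⟩
  intro n hn Y V hL
  have hn1 : (1 : ℝ) ≤ (n : ℝ) ^ 2 := by
    have : (1 : ℝ) ≤ n := by exact_mod_cast hn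
    nlinarith
  have hin : ∀ z, a < z → z ≤ p → z ∈ Ioo a b := fun z h1 h2 => ⟨h1, by linarith⟩
  -- the derivative of `V` is nonnegative
  have hV' : ∀ z, a < z → z < p → 0 ≤ ((n : ℝ) ^ 2 * W h z * Y z + O z) / h z := by
    intro z h1 h2
    have h3 := hd.W1 z h1.le h2
    have h4 := (hL.bd z ⟨h1, h2.le⟩).1
    have h5 := hd.pos z h1 (by linarith)
    unfold O
    rw [add_zero]
    positivity
  have hmono : ∀ s t, a < s → s < t → t ≤ p → V s ≤ V t := by
    intro s t h1 h2 h3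
    obtain ⟨ξ, hξ, hξ'⟩ := mvt h2 (f := V)
      (f' := fun z => ((n : ℝ) ^ 2 * W h z * Y z + O z) / h z)
      (fun x hx => (hL.sys x (hin x (by linarith [hx.1]) (by linarith [hx.2]))).2)
    have h4 := hV' ξ (by linarith [hξ.1]) (by linarith [hξ.2])
    have h5 : 0 ≤ ((n : ℝ) ^ 2 * W h ξ * Y ξ + O ξ) / h ξ * (t - s) :=
      mul_nonneg h4 (by linarith)
    linarith
  obtain ⟨ξ, hξ, hξ'⟩ := mvt hmp (f := Y) (f' := fun z => V z / h z)
    (fun x hx => (hL.sys x (hin x (by linarith [hx.1]) hx.2)).1)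
  have hbm := hL.bd m ⟨ham, hmp.le⟩
  have hbp := hL.bd p ⟨hap, le_rfl⟩
  have hbξ := hL.bd ξ ⟨by linarith [hξ.1], hξ.2.le⟩
  have hhξ : 0 < h ξ := hpos ξ ⟨hξ.1.le, hξ.2.le⟩
  constructor
  · by_contra hcon
    have hVp : V p = 0 := le_antisymm (not_lt.1 hcon) hbp.2.2
    have hV0 : ∀ z, a < z → z < p → V z = 0 := by
      intro z h1 h2
      have h3 := hmono z p h1 h2 le_rfl
      have h4 := (hL.bd z ⟨h1, h2.le⟩).2.2
      linarith
    have hYm : Y m = 1 := by
      rw [hV0 ξ (by linarith [hξ.1]) hξ.2, zero_div, zero_mul, hL.one] at hξ'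
      linarith
    have h1 := (hL.sys m (hin m ham hmp.le)).2
    have h2 : V =ᶠ[𝓝 m] fun _ => (0 : ℝ) := by
      filter_upwards [isOpen_Ioo.mem_nhds (show m ∈ Ioo a p from ⟨ham, hmp⟩)] with z hz
      exact hV0 z hz.1 hz.2
    have h3 := (h1.congr_of_eventuallyEq h2.symm).unique (hasDerivAt_const m (0 : ℝ))
    rw [hYm] at h3
    unfold O at h3
    have h4 := hd.W1 m ham.le hmp
    have h5 := hpos m ⟨le_rfl, hmp.le⟩
    have h6 : 0 < ((n : ℝ) ^ 2 * W h m * 1 + 0) / h m := by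
      rw [add_zero, mul_one]
      have : (0 : ℝ) < (n : ℝ) ^ 2 := by linarith
      positivity
    linarith
  · -- bound of `V m`
    have h1 : V m * (p - m) ≤ h z1 := by
      have h2 : V m ≤ V ξ := hmono m ξ ham hξ.1 hξ.2.le
      have h3 : V ξ / h ξ * (p - m) ≤ 1 := by
        rw [← hξ', hL.one]
        linarith [hbm.1]
      have h4 : h ξ ≤ h z1 := hz1' ⟨hξ.1.le, hξ.2.le⟩
      have h5 : V ξ * (p - m) ≤ h ξ := by
        have h6 : V ξ / h ξ * (p - m) = V ξ * (p - m) / h ξ := by ring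
        rw [h6, div_le_iff₀ hhξ, one_mul] at h3
        exact h3
      nlinarith
    have h1' : V m ≤ h z1 / (p - m) := by
      rw [le_div_iff₀ hpm]
      exact h1
    obtain ⟨η, hη, hη'⟩ := mvt hmp (f := V)
      (f' := fun z => ((n : ℝ) ^ 2 * W h z * Y z + O z) / h z)
      (fun x hx => (hL.sys x (hin x (by linarith [hx.1]) hx.2)).2)
    have h2 : ((n : ℝ) ^ 2 * W h η * Y η + O η) / h η ≤ (n : ℝ) ^ 2 * (|W h zw| / h z0) := by
      have e1 : W h η ≤ |W h zw| := (le_abs_self _).trans (hzw' ⟨hη.1.le, hη.2.le⟩)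
      have e2 : h z0 ≤ h η := hz0' ⟨hη.1.le, hη.2.le⟩
      have e3 := hL.bd η ⟨by linarith [hη.1], hη.2.le⟩
      have e4 := hd.W1 η (by linarith [hη.1]) hη.2
      have e5 : 0 < h η := hpos η ⟨hη.1.le, hη.2.le⟩
      unfold O
      rw [add_zero]
      have e6 : W h η * Y η ≤ |W h zw| := by nlinarith [e3.1, e3.2.1]
      have e7 : W h η * Y η / h η ≤ |W h zw| / h z0 := by
        apply div_le_div₀ hW0 e6 hh0 e2
      have e8 : (n : ℝ) ^ 2 * W h η * Y η / h η = (n : ℝ) ^ 2 * (W h η * Y η / h η) := by ring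
      rw [e8]
      exact mul_le_mul_of_nonneg_left e7 (by linarith)
    have h3 : V p ≤ h z1 / (p - m) + (n : ℝ) ^ 2 * (|W h zw| / h z0) * (p - m) := by
      have h4 := mul_le_mul_of_nonneg_right h2 hpm.le
      linarith
    have h5 : (n : ℝ) ^ 2 * (|W h zw| / h z0) * (p - m) =
        (|W h zw| * (p - m) / h z0) * (n : ℝ) ^ 2 := by ring
    have h6 : h z1 / (p - m) ≤ h z1 / (p - m) * (n : ℝ) ^ 2 := by
      have : 0 ≤ h z1 / (p - m) := by positivity
      nlinarith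
    have h7 : (h z1 / (p - m) + |W h zw| * (p - m) / h z0 + 1) * (n : ℝ) ^ 2 =
        h z1 / (p - m) * (n : ℝ) ^ 2 + (|W h zw| * (p - m) / h z0) * (n : ℝ) ^ 2 +
          (n : ℝ) ^ 2 := by ring
    rw [h7]
    linarith

end Pool.Agent.Lib.MP478c11.DB
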