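import Pool.Agent.Lib.MP_478c11_gt.DB.Spec

/-!
# MP_478c11_gt, DB: module LOW
-/

set_option autoImplicit false

namespace Pool.Agent.Lib.MP478c11.DB

open Set Filter Topology MeasureTheory
open scoped ContDiff

namespace LOWM

theorem W_congr {f g : ℝ → ℝ} {z : ℝ} (h : f =ᶠ[𝓝 z] g) : W f z = W g z := by
  unfold W
  rw [h.deriv_eq, h.deriv.deriv_eq, h.eq_of_nhds]

theorem sys_congr {f g : ℝ → ℝ} {n : ℕ} {F y v : ℝ → ℝ} {I : Set ℝ}
    (h : ∀ z ∈ I, f =ᶠ[𝓝 z] g) (hs : Sys f n F y v I) : Sys g n F y v I := by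
  intro z hz
  obtain ⟨h1, h2⟩ := hs z hz
  rw [← (h z hz).eq_of_nhds, ← W_congr (h z hz)]
  exact ⟨h1, h2⟩

theorem sys_mono {f : ℝ → ℝ} {n : ℕ} {F y v : ℝ → ℝ} {I J : Set ℝ}
    (hJ : J ⊆ I) (hs : Sys f n F y v I) : Sys f n F y v J := fun z hz => hs z (hJ hz)

theorem pert_off {h κ : ℝ → ℝ} {c d μ z : ℝ} (hκ : Bump κ c d) (hz : z ∉ Icc c d) :
    pert h κ μ z = h z := by
  unfold pert
  rw [hκ.2 z hz]
  ring

theorem pert_off_nhds {h κ : ℝ → ℝ} {c d μ z : ℝ} (hκ : Bump κ c d) (hz : z ∉ Icc c d) :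
    pert h κ μ =ᶠ[𝓝 z] h := by
  filter_upwards [isClosed_Icc.isOpen_compl.mem_nhds hz] with w hw
  exact pert_off hκ hw

theorem pert_congr {h h₁ κ : ℝ → ℝ} {s μ z : ℝ} (hh : ∀ z, s < z → h₁ z = h z) (hz : s < z) :
    pert h₁ κ μ =ᶠ[𝓝 z] pert h κ μ := by
  filter_upwards [Ioi_mem_nhds hz] with w hw
  unfold pert
  rw [hh w hw]

theorem eq_left {f g : ℝ → ℝ} {p c : ℝ} (hpc : p < c) (hf : ContinuousAt f c)
    (hg : ContinuousAt g c) (h : ∀ z ∈ Ico p c, f z = g z) : f c = g c := by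
  have h1 : Tendsto f (𝓝[<] c) (𝓝 (f c)) := hf.tendsto.mono_left nhdsWithin_le_nhds
  have h2 : Tendsto g (𝓝[<] c) (𝓝 (g c)) := hg.tendsto.mono_left nhdsWithin_le_nhds
  have h3 : f =ᶠ[𝓝[<] c] g := by
    filter_upwards [Ico_mem_nhdsLT hpc] with z hz
    exact h z hz
  exact tendsto_nhds_unique (h1.congr' h3) h2

theorem eq_right {f g : ℝ → ℝ} {d q : ℝ} (hdq : d < q) (hf : ContinuousAt f d)
    (hg : ContinuousAt g d) (h : ∀ z ∈ Ioc d q, f z = g z) : f d = g d := by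
  have h1 : Tendsto f (𝓝[>] d) (𝓝 (f d)) := hf.tendsto.mono_left nhdsWithin_le_nhds
  have h2 : Tendsto g (𝓝[>] d) (𝓝 (g d)) := hg.tendsto.mono_left nhdsWithin_le_nhds
  have h3 : f =ᶠ[𝓝[>] d] g := by
    filter_upwards [Ioc_mem_nhdsGT hdq] with z hz
    exact h z hz
  exact tendsto_nhds_unique (h1.congr' h3) h2

theorem left_eq (hUNQ : SpecUNQ) {h₁ κ : ℝ → ℝ} {a p q b c d μ : ℝ} (hD : Dumb h₁ a p q b)
    (hpc : p < c) (hcd : c < d) (hdq : d < q) (hκ : Bump κ c d) {n : ℕ} {Y V y v : ℝ → ℝ}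
    (hY : Sys (pert h₁ κ μ) n O Y V (Ioo a b)) (hy : Sys h₁ n O y v (Ioo a b))
    (h1 : Y p = y p) (h2 : V p = v p) : Y c = y c ∧ V c = v c := by
  have hcb : c < b := hcd.trans (hdq.trans hD.qb)
  have hsub : Ico p c ⊆ Ioo a b := fun z hz => ⟨hD.ap.trans_le hz.1, hz.2.trans hcb⟩
  have hcI : c ∈ Ioo a b := ⟨hD.ap.trans hpc, hcb⟩
  have hs : Sys h₁ n O Y V (Ico p c) :=
    sys_congr (fun z hz => pert_off_nhds hκ (fun hz' => absurd hz'.1 (not_le.2 hz.2)))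
      (sys_mono hsub hY)
  have hu := hUNQ h₁ a p q b hD n O Y V y v (Ico p c) ordConnected_Ico hsub hs
    (sys_mono hsub hy) p ⟨le_rfl, hpc⟩ h1 h2
  exact ⟨eq_left hpc (hY c hcI).1.continuousAt (hy c hcI).1.continuousAt (fun z hz => (hu z hz).1),
    eq_left hpc (hY c hcI).2.continuousAt (hy c hcI).2.continuousAt (fun z hz => (hu z hz).2)⟩

theorem right_eq (hUNQ : SpecUNQ) {h₁ κ : ℝ → ℝ} {a p q b c d μ : ℝ} (hD : Dumb h₁ a p q b)
    (hpc : p < c) (hcd : c < d) (hdq : d < q) (hκ : Bump κ c d) {n : ℕ} {Y V y v : ℝ → ℝ}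
    (hY : Sys (pert h₁ κ μ) n O Y V (Ioo a b)) (hy : Sys h₁ n O y v (Ioo a b))
    (h1 : Y q = y q) (h2 : V q = v q) : Y d = y d ∧ V d = v d := by
  have had : a < d := hD.ap.trans (hpc.trans hcd)
  have hsub : Ioc d q ⊆ Ioo a b := fun z hz => ⟨had.trans hz.1, hz.2.trans_lt hD.qb⟩
  have hdI : d ∈ Ioo a b := ⟨had, hdq.trans hD.qb⟩
  have hs : Sys h₁ n O Y V (Ioc d q) :=
    sys_congr (fun z hz => pert_off_nhds hκ (fun hz' => absurd hz'.2 (not_le.2 hz.1)))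
      (sys_mono hsub hY)
  have hu := hUNQ h₁ a p q b hD n O Y V y v (Ioc d q) ordConnected_Ioc hsub hs
    (sys_mono hsub hy) q ⟨hdq, le_rfl⟩ h1 h2
  exact ⟨eq_right hdq (hY d hdI).1.continuousAt (hy d hdI).1.continuousAt (fun z hz => (hu z hz).1),
    eq_right hdq (hY d hdI).2.continuousAt (hy d hdI).2.continuousAt (fun z hz => (hu z hz).2)⟩

/-- The algebra. -/
theorem alg {n B : ℕ} (hn : 1 ≤ n) {C c₁ t A1 A2 A1' A2' e1 e2 α : ℝ} (hC : 0 < C)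
    (hc : 0 < c₁) (ht : 0 ≤ t)
    (hrot : c₁ * t * ((n * |A1| + |A2|) * (n * |A1'| + |A2'|)) ≤ |A1 * A2' - A2 * A1'|)
    (hA : c₁ * α ≤ n * |A1| + |A2|) (hA' : c₁ * α ≤ n * |A1'| + |A2'|)
    (hα : 1 ≤ C * (n : ℝ) ^ B * α) (he : 1 ≤ C * (n : ℝ) ^ B * (|e1| + |e2|)) :
    c₁ ^ 2 / C ^ 2 * t ≤
      (n : ℝ) ^ (2 * B) * (|A1 * e2 - A2 * e1| + |A1' * e2 - A2' * e1|) := by
  have hn' : (1 : ℝ) ≤ n := by exact_mod_cast hn
  have hn0 : (0 : ℝ) ≤ n := by linarith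
  set N : ℝ := (n : ℝ) ^ B with hN
  have hNpos : 0 < N := by positivity
  set X : ℝ := n * |A1| + |A2| with hX
  set X' : ℝ := n * |A1'| + |A2'| with hX'
  set D : ℝ := |A1 * e2 - A2 * e1| with hD
  set D' : ℝ := |A1' * e2 - A2' * e1| with hD'
  set w : ℝ := A1 * A2' - A2 * A1' with hw
  set E : ℝ := n * |e1| + |e2| with hE
  have hCN : 0 < C * N := by positivity
  have hXc : c₁ ≤ C * N * X := by
    have h1 := mul_le_mul_of_nonneg_left hA hCN.le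
    have h2 := mul_le_mul_of_nonneg_left hα hc.le
    linarith
  have hXc' : c₁ ≤ C * N * X' := by
    have h1 := mul_le_mul_of_nonneg_left hA' hCN.le
    have h2 := mul_le_mul_of_nonneg_left hα hc.le
    linarith
  have hXpos : 0 < X := by
    by_contra h0
    have := mul_nonpos_of_nonneg_of_nonpos hCN.le (not_lt.1 h0)
    linarith
  have hXpos' : 0 < X' := by
    by_contra h0
    have := mul_nonpos_of_nonneg_of_nonpos hCN.le (not_lt.1 h0)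
    linarith
  have hE1 : |e1| + |e2| ≤ E := by
    have := mul_le_mul_of_nonneg_right hn' (abs_nonneg e1)
    rw [hE]; linarith
  have hE2 : 1 ≤ C * N * E := he.trans (mul_le_mul_of_nonneg_left hE1 hCN.le)
  have hw1 : |w| * |e1| ≤ D * |A1'| + D' * |A1| := by
    rw [← abs_mul, hD, hD', ← abs_mul, ← abs_mul]
    have h1 : w * e1 = (A1 * e2 - A2 * e1) * A1' - (A1' * e2 - A2' * e1) * A1 := by
      rw [hw]; ring
    rw [h1]
    exact abs_sub _ _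
  have hw2 : |w| * |e2| ≤ D * |A2'| + D' * |A2| := by
    rw [← abs_mul, hD, hD', ← abs_mul, ← abs_mul]
    have h1 : w * e2 = (A1 * e2 - A2 * e1) * A2' - (A1' * e2 - A2' * e1) * A2 := by
      rw [hw]; ring
    rw [h1]
    exact abs_sub _ _
  have hwE : |w| * E ≤ D * X' + D' * X := by
    have h1 := mul_le_mul_of_nonneg_left hw1 hn0
    rw [hE, hX, hX']
    linarith
  have hD0 : 0 ≤ D := abs_nonneg _
  have hD0' : 0 ≤ D' := abs_nonneg _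
  have hE0 : 0 ≤ E := by positivity
  have h1 : c₁ * t * (X * X') * E ≤ D * X' + D' * X :=
    (mul_le_mul_of_nonneg_right hrot hE0).trans hwE
  have h2 : c₁ * (D * X' + D' * X) ≤ C * N * (D + D') * (X * X') := by
    have h3 := mul_le_mul_of_nonneg_right hXc (mul_nonneg hD0 hXpos'.le)
    have h4 := mul_le_mul_of_nonneg_right hXc' (mul_nonneg hD0' hXpos.le)
    linarith
  have h3 : c₁ ^ 2 * t * E * (X * X') ≤ C * N * (D + D') * (X * X') := by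
    have h4 := mul_le_mul_of_nonneg_left h1 hc.le
    linarith
  have h4 : c₁ ^ 2 * t * E ≤ C * N * (D + D') :=
    le_of_mul_le_mul_right h3 (mul_pos hXpos hXpos')
  have h5 : c₁ ^ 2 * t ≤ (C * N) ^ 2 * (D + D') := by
    have h6 := mul_le_mul_of_nonneg_left h4 hCN.le
    have h7 := mul_le_mul_of_nonneg_left hE2 (mul_nonneg (sq_nonneg c₁) ht)
    linarith
  have h6 : (n : ℝ) ^ (2 * B) = N ^ 2 := by rw [hN, ← pow_mul, mul_comm]
  rw [h6, div_mul_eq_mul_div, div_le_iff₀ (by positivity)]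
  linarith

end LOWM

open LOWM in
theorem specLOW (hLIN : SpecLIN) (hUNQ : SpecUNQ) (hWRO : SpecWRO) (hLUN : SpecLUN)
    (hNKB : SpecNKB) (hPD : SpecPD) (hROT : SpecROT) : SpecLOW := by
  intro h κ a p q b c d hD hpc hcd hdq hκ hgam
  have hcdI : ∀ z ∈ Icc c d, 0 < h z ∧ W h z < 0 := fun z hz =>
    ⟨hD.pos z ((hD.ap.trans hpc).trans_le hz.1) (hz.2.trans_lt (hdq.trans hD.qb)),
      hD.W2 z (hpc.trans_le hz.1) (hz.2.trans_lt hdq)⟩
  obtain ⟨n₀, c₀, c₁, μ₁, hc₀, hc₁, hμ₁, hrot⟩ := hROT h κ c d hcd hD.smooth hκ hcdI hgam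
  refine ⟨n₀, c₀, hc₀, ?_⟩
  intro h₁ s hD₁ hsc hh
  obtain ⟨μ₀, hμ₀, hpd⟩ := hPD h₁ κ a p q b c d hD₁ hpc hcd hdq hκ 0 1 one_pos
  obtain ⟨C, B, hC, hnkb⟩ := hNKB h₁ a p q b hD₁
  refine ⟨min μ₁ μ₀, c₁ ^ 2 / C ^ 2, 2 * B, lt_min hμ₁ hμ₀, by positivity, ?_⟩
  intro n hn hn1 μ μ' hμ hμ' hμμ Y V Z U Y' V' Z' U' hY hZ hY' hZ'
  have hDμ := (hpd μ (hμ.trans (min_le_right _ _))).1
  have hDμ' := (hpd μ' (hμ'.trans (min_le_right _ _))).1
  have hpI : p ∈ Ioo a b := ⟨hD.ap, hD.pq.trans hD.qb⟩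
  have hqI : q ∈ Ioo a b := ⟨hD.ap.trans hD.pq, hD.qb⟩
  have hdI : d ∈ Ioo a b := ⟨hD.ap.trans (hpc.trans hcd), hdq.trans hD.qb⟩
  -- the data at `p` and at `q` do not depend on `μ`
  have hVp : V p = V' p := by
    refine (hLUN _ _ a p q b hDμ hDμ' n hn1).1 ⟨c, hpc, fun z hz => ?_⟩ Y V Y' V' hY hY'
    rw [pert_off hκ (fun hz' => absurd hz'.1 (not_le.2 hz)),
      pert_off hκ (fun hz' => absurd hz'.1 (not_le.2 hz))]
  have hUq : U q = U' q := by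
    refine (hLUN _ _ a p q b hDμ hDμ' n hn1).2 ⟨d, hdq, fun z hz => ?_⟩ Z U Z' U' hZ hZ'
    rw [pert_off hκ (fun hz' => absurd hz'.2 (not_le.2 hz)),
      pert_off hκ (fun hz' => absurd hz'.2 (not_le.2 hz))]
  -- the solutions of the system of `h₁`
  obtain ⟨y, v, hyv, hyp, hvp⟩ := hLIN h₁ a p q b hD₁ n p hpI 1 (V p)
  obtain ⟨z, u, hzu, hzq, huq⟩ := hLIN h₁ a p q b hD₁ n q hqI 1 (U q)
  have e1 := left_eq hUNQ hD₁ hpc hcd hdq hκ hY.sys hyv (hY.one.trans hyp.symm) hvp.symm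
  have e1' := left_eq hUNQ hD₁ hpc hcd hdq hκ hY'.sys hyv (hY'.one.trans hyp.symm)
    (hVp.symm.trans hvp.symm)
  have e2 := right_eq hUNQ hD₁ hpc hcd hdq hκ hZ.sys hzu (hZ.one.trans hzq.symm) huq.symm
  have e2' := right_eq hUNQ hD₁ hpc hcd hdq hκ hZ'.sys hzu (hZ'.one.trans hzq.symm)
    (hUq.symm.trans huq.symm)
  have hpq : Icc p q ⊆ Ioo a b := fun z hz => ⟨hD.ap.trans_le hz.1, hz.2.trans_lt hD.qb⟩
  have hO : ∀ z ∈ Icc p q, |O z| ≤ 0 := fun z _ => by unfold O; simp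
  have hb1 := hnkb n hn1 O y v 0 (sys_mono hpq hyv) le_rfl hO p ⟨le_rfl, hD.pq.le⟩ c
    ⟨hpc.le, (hcd.trans hdq).le⟩
  have hb2 := hnkb n hn1 O z u 0 (sys_mono hpq hzu) le_rfl hO q ⟨hD.pq.le, le_rfl⟩ d
    ⟨(hpc.trans hcd).le, hdq.le⟩
  rw [hyp, abs_one, add_zero] at hb1
  rw [hzq, abs_one, add_zero] at hb2
  have hn' : (1 : ℝ) ≤ n := by exact_mod_cast hn1
  have hpos : 0 < C * (n : ℝ) ^ B := by positivity
  -- the Wronskians at `d`
  have w1 := hWRO.2 (pert h₁ κ μ) n Z U Y V (Ioo a b) ordConnected_Ioo hZ.sys hY.sys q hqI d hdI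
  have w2 := hWRO.2 (pert h₁ κ μ') n Z' U' Y' V' (Ioo a b) ordConnected_Ioo hZ'.sys hY'.sys
    q hqI d hdI
  -- ROT
  have hcdI' : Icc c d ⊆ Ioo a b := fun z hz =>
    ⟨(hD.ap.trans hpc).trans_le hz.1, hz.2.trans_lt (hdq.trans hD.qb)⟩
  have hs1 : Sys (pert h κ μ) n O Y V (Icc c d) :=
    sys_congr (fun z hz => pert_congr hh (hsc.trans_le hz.1)) (sys_mono hcdI' hY.sys)
  have hs2 : Sys (pert h κ μ') n O Y' V' (Icc c d) :=
    sys_congr (fun z hz => pert_congr hh (hsc.trans_le hz.1)) (sys_mono hcdI' hY'.sys)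
  obtain ⟨r1, r2, r3⟩ := hrot n hn μ μ' (hμ.trans (min_le_left _ _)) (hμ'.trans (min_le_left _ _))
    hμμ Y V Y' V' hs1 hs2 (e1.1.trans e1'.1.symm) (e1.2.trans e1'.2.symm)
  rw [e1.1, e1.2] at r2
  rw [e1'.1, e1'.2] at r3
  have hα : 1 ≤ C * (n : ℝ) ^ B * (n * |y c| + |v c|) := by
    have h1 : |y c| + |v c| ≤ n * |y c| + |v c| := by
      have := mul_le_mul_of_nonneg_right hn' (abs_nonneg (y c))
      linarith
    have h2 := mul_le_mul_of_nonneg_left h1 hpos.le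
    have := abs_nonneg (v p)
    linarith
  have he : 1 ≤ C * (n : ℝ) ^ B * (|Z d| + |U d|) := by
    rw [e2.1, e2.2]
    have := abs_nonneg (u q)
    linarith
  have key := alg (B := B) hn1 hC hc₁ (abs_nonneg (μ - μ')) r1 r2 r3 hα he
  rw [w1, w2, e2'.1, e2'.2, ← e2.1, ← e2.2]
  exact key

end Pool.Agent.Lib.MP478c11.DB
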