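import Pool.Agent.Lib.MP_478c11_gt.DB.Spec

/-! # Module MXP: a maximum principle. -/

set_option autoImplicit false

namespace Pool.Agent.Lib.MP478c11.DB

open Set Filter Topology MeasureTheory
open scoped ContDiff

namespace MXPM

/-- a function with a zero and a positive derivative is positive just to the right -/
lemma pos_right {ψ : ℝ → ℝ} {z d : ℝ} (h : HasDerivAt ψ d z) (hd : 0 < d) (h0 : ψ z = 0) :
    ∃ e : ℝ, z < e ∧ ∀ t ∈ Ioo z e, 0 < ψ t := by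
  have h1 := hasDerivAt_iff_tendsto_slope.mp h
  have h2 : ∀ᶠ t in 𝓝[≠] z, 0 < slope ψ z t := h1.eventually (lt_mem_nhds hd)
  have h3 : ∀ᶠ t in 𝓝[>] z, 0 < slope ψ z t :=
    h2.filter_mono (nhdsWithin_mono z (fun t ht => ne_of_gt ht))
  obtain ⟨e, he, hs⟩ := mem_nhdsGT_iff_exists_Ioo_subset.mp h3
  refine ⟨e, he, fun t ht => ?_⟩
  have h4 : 0 < slope ψ z t := hs ht
  rw [slope_def_field, h0, sub_zero] at h4
  have h5 : 0 < t - z := sub_pos.mpr ht.1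
  exact (div_pos_iff_of_pos_right h5).mp h4

end MXPM

open MXPM

theorem specMXP : SpecMXP := by
  intro a p h φ ψ hap hh hφ hψ hc hp ⟨a', ha', hle⟩ z₁ hz₁
  by_contra hcon
  have hpos : 0 < φ z₁ := not_le.mp hcon
  have hz1p : z₁ ≠ p := by
    intro h
    rw [h] at hpos
    exact absurd hpos (not_lt.mpr hp)
  have hz1a : a' ≤ z₁ := by
    by_contra h
    exact hcon (hle z₁ ⟨hz₁.1, not_le.mp h⟩)
  have hz1lt : z₁ < p := lt_of_le_of_ne hz₁.2 hz1p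
  -- a point to the left
  obtain ⟨a'', h1, h2⟩ := exists_between ha'
  have h3 : a'' < z₁ := lt_of_lt_of_le h2 hz1a
  have h4 : φ a'' ≤ 0 := hle a'' ⟨h1, h2⟩
  have hsub : Icc a'' p ⊆ Ioc a p := fun t ht => ⟨lt_of_lt_of_le h1 ht.1, ht.2⟩
  obtain ⟨z₀, hz₀, hmax⟩ := isCompact_Icc.exists_isMaxOn
    (⟨z₁, h3.le, hz₁.2⟩ : (Icc a'' p).Nonempty) (hc.mono hsub)
  have h5 : φ z₁ ≤ φ z₀ := hmax ⟨h3.le, hz₁.2⟩
  have h6 : 0 < φ z₀ := lt_of_lt_of_le hpos h5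
  have h7 : a'' < z₀ := by
    refine lt_of_le_of_ne hz₀.1 fun h => ?_
    rw [← h] at h6
    exact absurd h6 (not_lt.mpr h4)
  have h8 : z₀ < p := by
    refine lt_of_le_of_ne hz₀.2 fun h => ?_
    rw [h] at h6
    exact absurd h6 (not_lt.mpr hp)
  have h9 : z₀ ∈ Ioo a p := ⟨h1.trans h7, h8⟩
  have h10 : IsLocalMax φ z₀ := hmax.isLocalMax (Icc_mem_nhds h7 h8)
  have h11 : ψ z₀ / h z₀ = 0 := h10.hasDerivAt_eq_zero (hφ z₀ h9)
  have h12 : ψ z₀ = 0 := by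
    rcases div_eq_zero_iff.mp h11 with h | h
    · exact h
    · exact absurd h (hh z₀ h9).ne'
  obtain ⟨d, hd, hdψ⟩ := hψ z₀ h9 h6
  obtain ⟨e, he, hpos⟩ := pos_right hdψ hd h12
  obtain ⟨r, hr1, hr2⟩ := exists_between (lt_min he h8)
  have hr3 : r < e := lt_of_lt_of_le hr2 (min_le_left _ _)
  have hr4 : r < p := lt_of_lt_of_le hr2 (min_le_right _ _)
  have hmono : StrictMonoOn φ (Icc z₀ r) := by
    refine strictMonoOn_of_deriv_pos (convex_Icc _ _) ?_ ?_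
    · exact hc.mono fun t ht => ⟨lt_of_lt_of_le h9.1 ht.1, ht.2.trans hr4.le⟩
    · intro t ht
      rw [interior_Icc] at ht
      have ht' : t ∈ Ioo a p := ⟨h9.1.trans ht.1, ht.2.trans hr4⟩
      rw [(hφ t ht').deriv]
      exact div_pos (hpos t ⟨ht.1, ht.2.trans hr3⟩) (hh t ht')
  have h13 : φ z₀ < φ r := hmono ⟨le_rfl, hr1.le⟩ ⟨hr1.le, le_rfl⟩ hr1
  have h14 : φ r ≤ φ z₀ := hmax ⟨(h7.trans hr1).le, hr4.le⟩
  exact absurd h13 (not_lt.mpr h14)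

end Pool.Agent.Lib.MP478c11.DB
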