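import Pool.Agent.Lib.MP_478c11_gt.DB.Spec

/-!
# Module NKB (helper52): polynomial bounds in the neck
-/

set_option autoImplicit false

namespace Pool.Agent.Lib.MP478c11.DB

open Set Filter Topology MeasureTheory
open scoped ContDiff

namespace NKBM

/-- a function which is positive between its two simple zeros -/
theorem lower {f : ℝ → ℝ} {p q f1 f2 : ℝ} (hpq : p < q) (hc : Continuous f) (hp : f p = 0)
    (hq : f q = 0) (hpos : ∀ z, p < z → z < q → 0 < f z) (d1 : HasDerivAt f f1 p) (h1 : 0 < f1)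
    (d2 : HasDerivAt f f2 q) (h2 : f2 < 0) :
    ∃ c, 0 < c ∧ ∀ z ∈ Icc p q, c * min (z - p) (q - z) ≤ f z := by
  obtain ⟨e1, he1, H1⟩ : ∃ e > 0, ∀ z, p < z → z < p + e → f1 / 2 * (z - p) ≤ f z := by
    have ht := hasDerivAt_iff_tendsto_slope.1 d1
    have hev := ht.eventually (lt_mem_nhds (half_lt_self h1))
    rw [eventually_nhdsWithin_iff, Metric.eventually_nhds_iff] at hev
    obtain ⟨e, he, H⟩ := hev
    refine ⟨e, he, fun z hz hze => ?_⟩
    have hd : dist z p < e := by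
      rw [Real.dist_eq, abs_of_pos (sub_pos.2 hz)]
      linarith
    have hs := H hd (fun h => absurd h hz.ne')
    rw [slope_def_field, hp, sub_zero, lt_div_iff₀ (sub_pos.2 hz)] at hs
    exact hs.le
  obtain ⟨e2, he2, H2⟩ : ∃ e > 0, ∀ z, z < q → q - e < z → -(f2 / 2) * (q - z) ≤ f z := by
    have ht := hasDerivAt_iff_tendsto_slope.1 d2
    have hev := ht.eventually (gt_mem_nhds (show f2 < f2 / 2 by linarith))
    rw [eventually_nhdsWithin_iff, Metric.eventually_nhds_iff] at hev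
    obtain ⟨e, he, H⟩ := hev
    refine ⟨e, he, fun z hz hze => ?_⟩
    have hd : dist z q < e := by
      rw [Real.dist_eq, abs_of_neg (sub_neg.2 hz)]
      linarith
    have hs := H hd (fun h => absurd h hz.ne)
    rw [slope_def_field, hq, sub_zero, div_lt_iff_of_neg (sub_neg.2 hz)] at hs
    linarith
  obtain ⟨δ, hδ⟩ : ∃ δ : ℝ, δ = min (min e1 e2) (q - p) / 4 := ⟨_, rfl⟩
  have hm0 : 0 < min (min e1 e2) (q - p) := lt_min (lt_min he1 he2) (sub_pos.2 hpq)
  have hδ0 : 0 < δ := by rw [hδ]; positivity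
  have hδ1 : δ < e1 := by
    have := (min_le_left (min e1 e2) (q - p)).trans (min_le_left e1 e2)
    rw [hδ]; linarith
  have hδ2 : δ < e2 := by
    have := (min_le_left (min e1 e2) (q - p)).trans (min_le_right e1 e2)
    rw [hδ]; linarith
  have hδ3 : δ ≤ (q - p) / 4 := by
    have := min_le_right (min e1 e2) (q - p)
    rw [hδ]; linarith
  obtain ⟨x₀, hx₀, hmin⟩ := (isCompact_Icc (a := p + δ) (b := q - δ)).exists_isMinOn
    (nonempty_Icc.2 (by linarith)) hc.continuousOn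
  have hfx : 0 < f x₀ := hpos x₀ (by linarith [hx₀.1]) (by linarith [hx₀.2])
  have hqp : 0 < q - p := sub_pos.2 hpq
  refine ⟨min (f1 / 2) (min (-(f2 / 2)) (f x₀ / (q - p))), ?_, ?_⟩
  · exact lt_min (by positivity) (lt_min (by linarith) (by positivity))
  intro z hz
  have hc0 : 0 ≤ min (f1 / 2) (min (-(f2 / 2)) (f x₀ / (q - p))) :=
    le_min (by positivity) (le_min (by linarith) (by positivity))
  have hmz : 0 ≤ min (z - p) (q - z) := le_min (sub_nonneg.2 hz.1) (sub_nonneg.2 hz.2)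
  have hc1 : min (f1 / 2) (min (-(f2 / 2)) (f x₀ / (q - p))) ≤ f1 / 2 := min_le_left _ _
  have hc2 : min (f1 / 2) (min (-(f2 / 2)) (f x₀ / (q - p))) ≤ -(f2 / 2) :=
    (min_le_right _ _).trans (min_le_left _ _)
  have hc3 : min (f1 / 2) (min (-(f2 / 2)) (f x₀ / (q - p))) ≤ f x₀ / (q - p) :=
    (min_le_right _ _).trans (min_le_right _ _)
  rcases hz.1.eq_or_lt with h | hzp
  · rw [← h, sub_self, hp, min_eq_left hqp.le, mul_zero]
  rcases hz.2.eq_or_lt with h | hzq
  · rw [h, sub_self, hq, min_eq_right hqp.le, mul_zero]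
  rcases lt_or_ge z (p + δ) with h | h
  · refine le_trans ?_ (H1 z hzp (by linarith))
    exact mul_le_mul hc1 (min_le_left _ _) hmz (by positivity)
  rcases lt_or_ge (q - δ) z with h' | h'
  · refine le_trans ?_ (H2 z hzq (by linarith))
    exact mul_le_mul hc2 (min_le_right _ _) hmz (by linarith)
  · have h5 : f x₀ ≤ f z := hmin ⟨h, h'⟩
    refine le_trans ?_ h5
    calc min (f1 / 2) (min (-(f2 / 2)) (f x₀ / (q - p))) * min (z - p) (q - z)
        ≤ f x₀ / (q - p) * (q - p) :=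
          mul_le_mul hc3 ((min_le_left _ _).trans (by linarith)) hmz (by positivity)
      _ = f x₀ := by field_simp

theorem int_log {c e p q : ℝ} (hc : 0 < c) (he : 0 < e) (hpq : p ≤ q) :
    ∫ z in p..q, 1 / (c * (z - p) + e) = 1 / c * (Real.log (c * (q - p) + e) - Real.log e) := by
  have hpos : ∀ z ∈ Icc p q, 0 < c * (z - p) + e := fun z hz => by
    have := sub_nonneg.2 hz.1
    positivity
  have h : ∀ z ∈ uIcc p q, HasDerivAt (fun z => 1 / c * Real.log (c * (z - p) + e))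
      (1 / (c * (z - p) + e)) z := by
    intro z hz
    rw [uIcc_of_le hpq] at hz
    have h1 : HasDerivAt (fun z : ℝ => c * (z - p) + e) (c * 1) z :=
      (((hasDerivAt_id z).sub_const p).const_mul c).add_const e
    have h2 := (h1.log (hpos z hz).ne').const_mul (1 / c)
    refine h2.congr_deriv ?_
    have h3 := (hpos z hz).ne'
    field_simp
  have hcont : ContinuousOn (fun z => 1 / (c * (z - p) + e)) (uIcc p q) := by
    rw [uIcc_of_le hpq]
    exact continuousOn_const.div (by fun_prop) fun z hz => (hpos z hz).ne'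
  rw [intervalIntegral.integral_eq_sub_of_hasDerivAt h hcont.intervalIntegrable]
  rw [sub_self, mul_zero, zero_add]
  ring

theorem int_log' {c e p q : ℝ} (hc : 0 < c) (he : 0 < e) (hpq : p ≤ q) :
    ∫ z in p..q, 1 / (c * (q - z) + e) = 1 / c * (Real.log (c * (q - p) + e) - Real.log e) := by
  have hpos : ∀ z ∈ Icc p q, 0 < c * (q - z) + e := fun z hz => by
    have := sub_nonneg.2 hz.2
    positivity
  have h : ∀ z ∈ uIcc p q, HasDerivAt (fun z => -(1 / c * Real.log (c * (q - z) + e)))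
      (1 / (c * (q - z) + e)) z := by
    intro z hz
    rw [uIcc_of_le hpq] at hz
    have h1 : HasDerivAt (fun z : ℝ => c * (q - z) + e) (c * (-1)) z :=
      (((hasDerivAt_id z).const_sub q).const_mul c).add_const e
    have h2 := ((h1.log (hpos z hz).ne').const_mul (1 / c)).neg
    refine h2.congr_deriv ?_
    have h3 := (hpos z hz).ne'
    field_simp
  have hcont : ContinuousOn (fun z => 1 / (c * (q - z) + e)) (uIcc p q) := by
    rw [uIcc_of_le hpq]
    exact continuousOn_const.div (by fun_prop) fun z hz => (hpos z hz).ne'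
  rw [intervalIntegral.integral_eq_sub_of_hasDerivAt h hcont.intervalIntegrable]
  rw [sub_self, mul_zero, zero_add]
  ring

/-- the exponential of the integral of `α` -/
theorem exp_bound {M c h₀ p q N : ℝ} (hM : 0 ≤ M) (hc : 0 < c) (hh₀ : 0 < h₀) (hpq : p ≤ q)
    (hN : 1 ≤ N) {k : ℕ} (hk : 2 * M / c ≤ k) :
    Real.exp (∫ z in p..q, (M * (1 / (c * (z - p) + 1 / N) + 1 / (c * (q - z) + 1 / N)) + 2 / h₀)) ≤
      (c * (q - p) + 1) ^ k * Real.exp (2 * (q - p) / h₀) * N ^ k := by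
  have hN0 : 0 < N := by linarith
  have he : 0 < 1 / N := by positivity
  have hqp : 0 ≤ q - p := sub_nonneg.2 hpq
  have hi1 : IntervalIntegrable (fun z => 1 / (c * (z - p) + 1 / N)) volume p q := by
    apply ContinuousOn.intervalIntegrable
    rw [uIcc_of_le hpq]
    refine continuousOn_const.div (by fun_prop) fun z hz => ?_
    have := sub_nonneg.2 hz.1
    positivity
  have hi2 : IntervalIntegrable (fun z => 1 / (c * (q - z) + 1 / N)) volume p q := by
    apply ContinuousOn.intervalIntegrable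
    rw [uIcc_of_le hpq]
    refine continuousOn_const.div (by fun_prop) fun z hz => ?_
    have := sub_nonneg.2 hz.2
    positivity
  rw [intervalIntegral.integral_add ((hi1.add hi2).const_mul M) intervalIntegrable_const,
    intervalIntegral.integral_const_mul, intervalIntegral.integral_add hi1 hi2,
    int_log hc he hpq, int_log' hc he hpq, intervalIntegral.integral_const, smul_eq_mul]
  have hT : Real.log (c * (q - p) + 1 / N) - Real.log (1 / N) = Real.log (c * (q - p) * N + 1) := by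
    rw [← Real.log_div (by positivity) (by positivity)]
    congr 1
    field_simp
  rw [hT]
  obtain ⟨T, hTd⟩ : ∃ T : ℝ, T = c * (q - p) * N + 1 := ⟨_, rfl⟩
  have hT1 : 1 ≤ T := by
    rw [hTd]
    have : 0 ≤ c * (q - p) * N := by positivity
    linarith
  have hTN : T ≤ (c * (q - p) + 1) * N := by
    rw [hTd]
    nlinarith
  rw [← hTd]
  have hlog : 0 ≤ Real.log T := Real.log_nonneg hT1
  have h1 : M * (1 / c * Real.log T + 1 / c * Real.log T) + (q - p) * (2 / h₀) ≤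
      k * Real.log T + 2 * (q - p) / h₀ := by
    have h2 : M * (1 / c * Real.log T + 1 / c * Real.log T) = 2 * M / c * Real.log T := by
      field_simp
      ring
    have h3 : 2 * M / c * Real.log T ≤ k * Real.log T := mul_le_mul_of_nonneg_right hk hlog
    have h4 : (q - p) * (2 / h₀) = 2 * (q - p) / h₀ := by ring
    linarith
  refine (Real.exp_le_exp.2 h1).trans ?_
  rw [Real.exp_add, Real.exp_nat_mul, Real.exp_log (by linarith)]
  have h5 : T ^ k ≤ ((c * (q - p) + 1) * N) ^ k := pow_le_pow_left₀ (by linarith) hTN k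
  rw [mul_pow] at h5
  calc T ^ k * Real.exp (2 * (q - p) / h₀)
      ≤ ((c * (q - p) + 1) ^ k * N ^ k) * Real.exp (2 * (q - p) / h₀) :=
        mul_le_mul_of_nonneg_right h5 (Real.exp_pos _).le
    _ = _ := by ring

/-- the differential inequality at one point -/
theorem point {N w D Y V F H h₀ M R m c e : ℝ} (hN : 1 ≤ N) (hw : c * m ≤ -w) (hD : |D| ≤ M)
    (hF : |F| ≤ R) (hH : h₀ ≤ H) (hh₀ : 0 < h₀) (hM : 0 ≤ M) (he : N * e = 1) (hcm : 0 ≤ c * m)
    {A : ℝ} (hA : 1 / (c * m + e) ≤ A) :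
    |2 * V * ((N * w * Y + F) / H) + (-(N * D) * Y ^ 2 + (1 - N * w) * (2 * Y * (V / H)))| ≤
      (M * A + 2 / h₀) * (V ^ 2 + (1 - N * w) * Y ^ 2) + R ^ 2 / h₀ := by
  have hH0 : 0 < H := lt_of_lt_of_le hh₀ hH
  have hN0 : 0 < N := by linarith
  have he0 : 0 < e := by
    by_contra h
    push Not at h
    nlinarith
  have hw0 : w ≤ 0 := by linarith
  have hNw : 0 ≤ -(N * w) := by nlinarith
  have hf : V ^ 2 + Y ^ 2 ≤ V ^ 2 + (1 - N * w) * Y ^ 2 := by
    have : 0 ≤ -(N * w) * Y ^ 2 := mul_nonneg hNw (sq_nonneg Y)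
    nlinarith
  obtain ⟨f, hfd⟩ : ∃ f : ℝ, f = V ^ 2 + (1 - N * w) * Y ^ 2 := ⟨_, rfl⟩
  rw [← hfd] at hf ⊢
  have hf0 : 0 ≤ f := le_trans (by positivity) hf
  have hY2 : N * Y ^ 2 ≤ f / (e - w) := by
    rw [le_div_iff₀ (by linarith)]
    have h1 : N * Y ^ 2 * (e - w) = (N * e) * Y ^ 2 - N * w * Y ^ 2 := by ring
    rw [h1, he, hfd]
    nlinarith [sq_nonneg V]
  have hew : 1 / (e - w) ≤ A := by
    refine le_trans ?_ hA
    apply one_div_le_one_div_of_le (by positivity)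
    linarith
  have hNY : N * Y ^ 2 ≤ A * f := by
    refine hY2.trans ?_
    rw [div_eq_mul_one_div, mul_comm]
    exact mul_le_mul_of_nonneg_right hew hf0
  have hrew : 2 * V * ((N * w * Y + F) / H) + (-(N * D) * Y ^ 2 + (1 - N * w) * (2 * Y * (V / H))) =
      2 * Y * V / H + 2 * V * F / H - D * (N * Y ^ 2) := by
    field_simp
    ring
  rw [hrew]
  have hb1 : |2 * Y * V / H| ≤ (V ^ 2 + Y ^ 2) / h₀ := by
    rw [abs_div, abs_of_pos hH0]
    refine div_le_div₀ (by positivity) ?_ hh₀ hH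
    rw [abs_le]
    constructor <;> nlinarith [sq_nonneg (Y + V), sq_nonneg (Y - V)]
  have hF2 : F ^ 2 ≤ R ^ 2 := by
    rw [← sq_abs F]
    exact pow_le_pow_left₀ (abs_nonneg F) hF 2
  have hb2 : |2 * V * F / H| ≤ (V ^ 2 + R ^ 2) / h₀ := by
    rw [abs_div, abs_of_pos hH0]
    refine div_le_div₀ (by positivity) ?_ hh₀ hH
    rw [abs_le]
    constructor <;> nlinarith [sq_nonneg (V + F), sq_nonneg (V - F)]
  have hb3 : |D * (N * Y ^ 2)| ≤ M * (A * f) := by
    rw [abs_mul, abs_of_nonneg (show (0 : ℝ) ≤ N * Y ^ 2 by positivity)]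
    exact mul_le_mul hD hNY (by positivity) hM
  have hb4 : (V ^ 2 + Y ^ 2) / h₀ ≤ f / h₀ := div_le_div_of_nonneg_right hf hh₀.le
  have hb5 : (V ^ 2 + R ^ 2) / h₀ ≤ f / h₀ + R ^ 2 / h₀ := by
    rw [add_div]
    have : V ^ 2 / h₀ ≤ f / h₀ :=
      div_le_div_of_nonneg_right (by nlinarith [sq_nonneg Y]) hh₀.le
    linarith
  have hsum : (M * A + 2 / h₀) * f + R ^ 2 / h₀ = M * (A * f) + (f / h₀ + f / h₀) + R ^ 2 / h₀ := by
    ring
  rw [hsum]
  rw [abs_le] at hb1 hb2 hb3 ⊢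
  constructor <;> linarith [hb1.1, hb1.2, hb2.1, hb2.2, hb3.1, hb3.2]

end NKBM

open NKBM in
theorem specNKB (hGRW : SpecGRW) : SpecNKB := by
  intro h a p q b hD
  have hh : ContDiff ℝ ∞ h := hD.smooth
  have hh1 : ContDiff ℝ ∞ (deriv h) := (contDiff_infty_iff_deriv.1 hh).2
  have hh2 : ContDiff ℝ ∞ (deriv (deriv h)) := (contDiff_infty_iff_deriv.1 hh1).2
  have hW : ContDiff ℝ ∞ (W h) :=
    ((hh1.pow 2).div_const 4).sub ((hh.mul hh2).div_const 2)
  have hWd : Differentiable ℝ (W h) := (contDiff_infty_iff_deriv.1 hW).1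
  have hWc : Continuous (W h) := hW.continuous
  have hW'c : Continuous (deriv (W h)) := (contDiff_infty_iff_deriv.1 hW).2.continuous
  have hap := hD.ap
  have hpq := hD.pq
  have hqb := hD.qb
  have hqp : 0 < q - p := sub_pos.2 hpq
  -- `W p = W q = 0`
  have hWp : W h p = 0 := by
    apply le_antisymm
    · refine le_of_tendsto (hWc.continuousAt.tendsto.mono_left nhdsWithin_le_nhds :
        Tendsto (W h) (𝓝[>] p) (𝓝 (W h p))) ?_
      filter_upwards [Ioo_mem_nhdsGT hpq] with z hz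
      exact (hD.W2 z hz.1 hz.2).le
    · refine ge_of_tendsto (hWc.continuousAt.tendsto.mono_left nhdsWithin_le_nhds :
        Tendsto (W h) (𝓝[<] p) (𝓝 (W h p))) ?_
      filter_upwards [Ioo_mem_nhdsLT hap] with z hz
      exact (hD.W1 z hz.1.le hz.2).le
  have hWq : W h q = 0 := by
    apply le_antisymm
    · refine le_of_tendsto (hWc.continuousAt.tendsto.mono_left nhdsWithin_le_nhds :
        Tendsto (W h) (𝓝[<] q) (𝓝 (W h q))) ?_
      filter_upwards [Ioo_mem_nhdsLT hpq] with z hz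
      exact (hD.W2 z hz.1 hz.2).le
    · refine ge_of_tendsto (hWc.continuousAt.tendsto.mono_left nhdsWithin_le_nhds :
        Tendsto (W h) (𝓝[>] q) (𝓝 (W h q))) ?_
      filter_upwards [Ioo_mem_nhdsGT hqb] with z hz
      exact (hD.W3 z hz.1 hz.2.le).le
  obtain ⟨c, hc0, hc⟩ := lower (f := fun z => -W h z) hpq hWc.neg (by rw [hWp, neg_zero])
    (by rw [hWq, neg_zero]) (fun z h1 h2 => neg_pos.2 (hD.W2 z h1 h2))
    (hWd p).hasDerivAt.neg (neg_pos.2 hD.Wp) (hWd q).hasDerivAt.neg (neg_lt_zero.2 hD.Wq)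
  obtain ⟨x₀, hx₀, hmin⟩ := (isCompact_Icc (a := p) (b := q)).exists_isMinOn
    (nonempty_Icc.2 hpq.le) hh.continuous.continuousOn
  obtain ⟨h₀, hh₀d⟩ : ∃ h₀ : ℝ, h₀ = h x₀ := ⟨_, rfl⟩
  have hh₀ : 0 < h₀ := by
    rw [hh₀d]
    exact hD.pos x₀ (lt_of_lt_of_le hap hx₀.1) (lt_of_le_of_lt hx₀.2 hqb)
  have hhm : ∀ z ∈ Icc p q, h₀ ≤ h z := fun z hz => by
    rw [hh₀d]
    exact hmin hz
  obtain ⟨M, hM⟩ := (isCompact_Icc (a := p) (b := q)).exists_bound_of_continuousOn
    hW'c.continuousOn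
  obtain ⟨M₂, hM₂⟩ := (isCompact_Icc (a := p) (b := q)).exists_bound_of_continuousOn
    hWc.continuousOn
  have hM0 : 0 ≤ M := (norm_nonneg _).trans (hM p (left_mem_Icc.2 hpq.le))
  have hM₂0 : 0 ≤ M₂ := (norm_nonneg _).trans (hM₂ p (left_mem_Icc.2 hpq.le))
  obtain ⟨k, hk⟩ : ∃ k : ℕ, 2 * M / c ≤ k := exists_nat_ge _
  obtain ⟨C₁, hC₁⟩ : ∃ C₁ : ℝ, C₁ = (c * (q - p) + 1) ^ k * Real.exp (2 * (q - p) / h₀) :=
    ⟨_, rfl⟩
  have hC₁0 : 0 < C₁ := by rw [hC₁]; positivity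
  obtain ⟨C₂, hC₂⟩ : ∃ C₂ : ℝ, C₂ = C₁ * ((1 + M₂) + (q - p) / h₀) := ⟨_, rfl⟩
  have hC₂0 : 0 < C₂ := by rw [hC₂]; positivity
  refine ⟨√(2 * C₂), k + 1, Real.sqrt_pos.2 (by positivity), ?_⟩
  intro n hn F y v R hS hR hF z hz z' hz'
  obtain ⟨N, hNd⟩ : ∃ N : ℝ, N = (n : ℝ) ^ 2 := ⟨_, rfl⟩
  have hn1 : (1 : ℝ) ≤ n := by exact_mod_cast hn
  have hN : 1 ≤ N := by rw [hNd]; nlinarith
  have hN0 : 0 < N := by linarith
  obtain ⟨f, hf⟩ : ∃ f : ℝ → ℝ, f = fun x => v x ^ 2 + (1 - N * W h x) * y x ^ 2 := ⟨_, rfl⟩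
  have hWle : ∀ x ∈ Icc p q, W h x ≤ 0 := by
    intro x hx
    have h1 := hc x hx
    have h2 : 0 ≤ c * min (x - p) (q - x) :=
      mul_nonneg hc0.le (le_min (sub_nonneg.2 hx.1) (sub_nonneg.2 hx.2))
    linarith
  have hder : ∀ x ∈ Icc p q, HasDerivAt f
      (2 * v x * ((N * W h x * y x + F x) / h x) + (-(N * deriv (W h) x) * y x ^ 2 +
        (1 - N * W h x) * (2 * y x * (v x / h x)))) x := by
    intro x hx
    obtain ⟨hy, hv⟩ := hS x hx
    have h1 : HasDerivAt (fun x => v x ^ 2) (2 * v x * ((N * W h x * y x + F x) / h x)) x := by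
      have h2 := hv.pow 2
      refine h2.congr_deriv ?_
      rw [hNd]
      norm_num
    have h3 : HasDerivAt (fun x => 1 - N * W h x) (-(N * deriv (W h) x)) x :=
      ((hWd x).hasDerivAt.const_mul N).const_sub 1
    have h4 : HasDerivAt (fun x => y x ^ 2) (2 * y x * (v x / h x)) x := by
      have h2 := hy.pow 2
      refine h2.congr_deriv ?_
      norm_num
    rw [hf]
    exact h1.add (h3.mul h4)
  have hsum : ∀ x ∈ Icc p q, v x ^ 2 + y x ^ 2 ≤ f x := by
    intro x hx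
    rw [hf]
    have h1 : 0 ≤ -(N * W h x) * y x ^ 2 :=
      mul_nonneg (by nlinarith [hWle x hx]) (sq_nonneg _)
    show v x ^ 2 + y x ^ 2 ≤ v x ^ 2 + (1 - N * W h x) * y x ^ 2
    nlinarith
  have hpos1 : ∀ x ∈ Icc p q, 0 < c * (x - p) + 1 / N := fun x hx => by
    have := sub_nonneg.2 hx.1
    positivity
  have hpos2 : ∀ x ∈ Icc p q, 0 < c * (q - x) + 1 / N := fun x hx => by
    have := sub_nonneg.2 hx.2
    positivity
  have hG := hGRW p q (R ^ 2 / h₀) f _
    (fun x => M * (1 / (c * (x - p) + 1 / N) + 1 / (c * (q - x) + 1 / N)) + 2 / h₀) hpq.le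
    (by positivity) (by
      refine (continuousOn_const.mul ((continuousOn_const.div (by fun_prop)
        fun x hx => (hpos1 x hx).ne').add (continuousOn_const.div (by fun_prop)
        fun x hx => (hpos2 x hx).ne'))).add continuousOn_const)
    (fun x hx => ⟨by
      have h1 := hpos1 x hx
      have h2 := hpos2 x hx
      positivity, le_trans (by positivity) (hsum x hx)⟩)
    (fun x hx => ⟨hder x hx, by
      have h1 : 1 / (c * min (x - p) (q - x) + 1 / N) ≤
          1 / (c * (x - p) + 1 / N) + 1 / (c * (q - x) + 1 / N) := by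
        have h2 := one_div_pos.2 (hpos1 x hx)
        have h3 := one_div_pos.2 (hpos2 x hx)
        rcases min_choice (x - p) (q - x) with h | h <;> rw [h] <;> linarith
      have h4 := point (w := W h x) (D := deriv (W h) x) (Y := y x) (V := v x) (F := F x)
        (H := h x) (h₀ := h₀) (M := M) (R := R) (m := min (x - p) (q - x)) (c := c) (e := 1 / N)
        hN (hc x hx) (hM x hx) (hF x hx) (hhm x hx) hh₀ hM0 (by field_simp)
        (mul_nonneg hc0.le (le_min (sub_nonneg.2 hx.1) (sub_nonneg.2 hx.2))) h1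
      rw [hf]
      exact h4⟩) z hz z' hz'
  have hE := exp_bound (p := p) (q := q) (h₀ := h₀) hM0 hc0 hh₀ hpq.le hN hk
  rw [← hC₁] at hE
  have hfz' : f z' ≤ (1 + M₂) * N * (v z' ^ 2 + y z' ^ 2) := by
    rw [hf]
    show v z' ^ 2 + (1 - N * W h z') * y z' ^ 2 ≤ _
    have h1 : -W h z' ≤ M₂ := (neg_le_abs _).trans (hM₂ z' hz')
    have h2 : 1 - N * W h z' ≤ (1 + M₂) * N := by nlinarith
    have h3 : (1 : ℝ) ≤ (1 + M₂) * N := by nlinarith
    have h4 : (1 - N * W h z') * y z' ^ 2 ≤ (1 + M₂) * N * y z' ^ 2 :=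
      mul_le_mul_of_nonneg_right h2 (sq_nonneg _)
    have h5 : 1 * v z' ^ 2 ≤ (1 + M₂) * N * v z' ^ 2 :=
      mul_le_mul_of_nonneg_right h3 (sq_nonneg _)
    linarith
  obtain ⟨Q, hQ⟩ : ∃ Q : ℝ, Q = |y z'| + |v z'| + R := ⟨_, rfl⟩
  have hQ0 : 0 ≤ Q := by rw [hQ]; positivity
  have hQ1 : v z' ^ 2 + y z' ^ 2 ≤ Q ^ 2 := by
    rw [hQ, ← sq_abs (v z'), ← sq_abs (y z')]
    have h1 := abs_nonneg (y z')
    have h2 := abs_nonneg (v z')
    nlinarith [mul_nonneg h1 h2, mul_nonneg h1 hR, mul_nonneg h2 hR, sq_nonneg R]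
  have hQ2 : R ^ 2 ≤ Q ^ 2 := by
    apply pow_le_pow_left₀ hR
    rw [hQ]
    have h1 := abs_nonneg (y z')
    have h2 := abs_nonneg (v z')
    linarith
  have hin : f z' + R ^ 2 / h₀ * (q - p) ≤ ((1 + M₂) + (q - p) / h₀) * N * Q ^ 2 := by
    have h1 : (1 + M₂) * N * (v z' ^ 2 + y z' ^ 2) ≤ (1 + M₂) * N * Q ^ 2 :=
      mul_le_mul_of_nonneg_left hQ1 (by positivity)
    have h2 : R ^ 2 / h₀ * (q - p) = (q - p) / h₀ * R ^ 2 := by ring
    have h3 : (q - p) / h₀ * R ^ 2 ≤ (q - p) / h₀ * (N * Q ^ 2) := by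
      refine mul_le_mul_of_nonneg_left ?_ (by positivity)
      nlinarith [sq_nonneg Q]
    rw [h2]
    linarith
  have hin0 : 0 ≤ f z' + R ^ 2 / h₀ * (q - p) := by
    have h1 : 0 ≤ f z' := le_trans (by positivity) (hsum z' hz')
    positivity
  have hfin : f z ≤ C₂ * N ^ (k + 1) * Q ^ 2 := by
    calc f z ≤ _ := hG
      _ ≤ C₁ * N ^ k * (f z' + R ^ 2 / h₀ * (q - p)) := mul_le_mul_of_nonneg_right hE hin0
      _ ≤ C₁ * N ^ k * (((1 + M₂) + (q - p) / h₀) * N * Q ^ 2) :=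
        mul_le_mul_of_nonneg_left hin (by positivity)
      _ = C₂ * N ^ (k + 1) * Q ^ 2 := by rw [hC₂]; ring
  rw [← hQ]
  have hnn : 0 ≤ √(2 * C₂) * (n : ℝ) ^ (k + 1) * Q := by positivity
  have hsq : (|y z| + |v z|) ^ 2 ≤ (√(2 * C₂) * (n : ℝ) ^ (k + 1) * Q) ^ 2 := by
    have h1 : (|y z| + |v z|) ^ 2 ≤ 2 * (v z ^ 2 + y z ^ 2) := by
      rw [← sq_abs (v z), ← sq_abs (y z)]
      nlinarith [sq_nonneg (|y z| - |v z|)]
    have h2 := hsum z hz
    have h3 : (√(2 * C₂) * (n : ℝ) ^ (k + 1) * Q) ^ 2 = 2 * (C₂ * N ^ (k + 1) * Q ^ 2) := by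
      rw [mul_pow, mul_pow, Real.sq_sqrt (by positivity), hNd, ← pow_mul, ← pow_mul,
        mul_comm (k + 1) 2]
      ring
    rw [h3]
    linarith
  exact (abs_le_of_sq_le_sq hsq hnn |>.trans' (le_abs_self _))

end Pool.Agent.Lib.MP478c11.DB
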