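import Pool.Agent.Lib.MP_478c11_gt.DB.Spec

/-!
# NRX: small perturbations without resonances
-/

set_option autoImplicit false

namespace Pool.Agent.Lib.MP478c11.DB

open Set Filter Topology MeasureTheory
open scoped ContDiff

noncomputable section

namespace NRXM

/-- a common parameter for finitely many indices -/
lemma exists_common {P : ℕ → ℝ → Prop} (hmono : ∀ (n : ℕ) (x y : ℝ), P n x → 0 < y → y ≤ x → P n y)
    (n₁ : ℕ) (h : ∀ n : ℕ, 2 ≤ n → n < n₁ → ∃ x : ℝ, 0 < x ∧ P n x) :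
    ∃ x : ℝ, 0 < x ∧ ∀ n : ℕ, 2 ≤ n → n < n₁ → P n x := by
  induction n₁ with
  | zero => exact ⟨1, one_pos, fun n _ hn => absurd hn (Nat.not_lt_zero n)⟩
  | succ m ih =>
    obtain ⟨x, hx, hxP⟩ := ih fun n h2 hn => h n h2 (by omega)
    by_cases hm : 2 ≤ m
    · obtain ⟨y, hy, hyP⟩ := h m hm (by omega)
      refine ⟨min x y, lt_min hx hy, fun n h2 hn => ?_⟩
      rcases Nat.lt_succ_iff_lt_or_eq.1 hn with hn | rfl
      · exact hmono n x _ (hxP n h2 hn) (lt_min hx hy) (min_le_left _ _)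
      · exact hmono n y _ hyP (lt_min hx hy) (min_le_right _ _)
    · refine ⟨x, hx, fun n h2 hn => ?_⟩
      exact hxP n h2 (by omega)

lemma exR (hREF : SpecREF) (hLEX : SpecLEX) {h : ℝ → ℝ} {a p q b : ℝ} (hD : Dumb h a p q b) {n : ℕ}
    (hn : 1 ≤ n) : ∃ Z U : ℝ → ℝ, RightSol h a q b n Z U := by
  obtain ⟨h1, -, -, -, h5⟩ := hREF h a p q b hD
  obtain ⟨Y, V, hY⟩ := hLEX _ _ _ _ _ h1 n hn
  exact ⟨_, _, h5 n Y V hY⟩

/-- the Wronskian does not depend on the choice of the solutions -/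
lemma wun (hUNQ : SpecUNQ) (hLUN : SpecLUN) {h : ℝ → ℝ} {a p q b : ℝ} (hD : Dumb h a p q b) {n : ℕ}
    (hn : 1 ≤ n) {Y V Z U Y' V' Z' U' : ℝ → ℝ} (hY : LeftSol h a p b n Y V)
    (hZ : RightSol h a q b n Z U) (hY' : LeftSol h a p b n Y' V')
    (hZ' : RightSol h a q b n Z' U') :
    Y q * U q - V q * Z q = Y' q * U' q - V' q * Z' q := by
  obtain ⟨h1, h2⟩ := hLUN h h a p q b hD hD n hn
  have hV : V p = V' p := h1 ⟨p + 1, by linarith, fun z _ => rfl⟩ Y V Y' V' hY hY'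
  have hU : U q = U' q := h2 ⟨q - 1, by linarith, fun z _ => rfl⟩ Z U Z' U' hZ hZ'
  have hp : p ∈ Ioo a b := ⟨hD.ap, hD.pq.trans hD.qb⟩
  have hq : q ∈ Ioo a b := ⟨hD.ap.trans hD.pq, hD.qb⟩
  obtain ⟨h3, h4⟩ := hUNQ h a p q b hD n O Y V Y' V' (Ioo a b) ordConnected_Ioo subset_rfl hY.sys
    hY'.sys p hp (by rw [hY.one, hY'.one]) hV q hq
  rw [h3, h4, hU, hZ.one, hZ'.one]

end NRXM

open NRXM in
theorem specNRX (hUNQ : SpecUNQ) (hREF : SpecREF) (hLEX : SpecLEX) (hLUN : SpecLUN) (hPD : SpecPD)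
    (hSML : SpecSML) (hGAM : SpecGAM) (hLOW : SpecLOW) (hMEA : SpecMEA) (hCNT : SpecCNT) :
    SpecNRX := by
  intro h a p q b hD N δ hδ
  obtain ⟨κ, c, d, hpc, hcd, hdq, hκ, hgam⟩ := hGAM h a p q b hD
  obtain ⟨n₀, c₀, hc₀, hlow⟩ := hLOW h κ a p q b c d hD hpc hcd hdq hκ hgam
  set n₁ : ℕ := max n₀ 2 with hn₁
  have hn₀₁ : n₀ ≤ n₁ := le_max_left _ _
  have hn₂ : 2 ≤ n₁ := le_max_right _ _
  set s : ℝ := (p + c) / 2 with hs
  have hps : p < s := by rw [hs]; linarith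
  have hsc : s < c := by rw [hs]; linarith
  obtain ⟨h₁, ⟨hD₁, ⟨c', d', hpc', hcd', hds, hoff⟩, hclose⟩, hsml⟩ :=
    hSML h a p q b s hD hps (by linarith) N n₁ (δ / 2) (by linarith)
  have heq : ∀ z, s < z → h₁ z = h z := fun z hz => hoff z fun hmem => by
    have := hmem.2
    linarith
  obtain ⟨μa, c₁, B, hμa, hc₁, hlow₁⟩ := hlow h₁ s hD₁ hsc heq
  obtain ⟨μb, hμb, hpd⟩ := hPD h₁ κ a p q b c d hD₁ hpc hcd hdq hκ N (δ / 2) (by linarith)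
  -- a common parameter for the small `n`
  obtain ⟨μc, hμc, hcnt⟩ := exists_common
    (P := fun n μ₀ => ∀ μ : ℝ, |μ| ≤ μ₀ → ∀ Y₁ V₁ Z₁ U₁ : ℝ → ℝ,
      LeftSol (pert h₁ κ μ) a p b n Y₁ V₁ → RightSol (pert h₁ κ μ) a q b n Z₁ U₁ →
      Y₁ q * U₁ q - V₁ q * Z₁ q ≠ 0)
    (fun n x y hx _ hyx μ hμ => hx μ (hμ.trans hyx)) n₁ (by
      intro n h2 hn
      obtain ⟨Y, V, hY⟩ := hLEX h₁ a p q b hD₁ n (by omega)
      obtain ⟨Z, U, hZ⟩ := exR hREF hLEX hD₁ (n := n) (by omega)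
      exact hCNT h₁ κ a p q b c d hD₁ hpc hcd hdq hκ n (by omega) Y V Z U hY hZ
        (hsml n h2 hn Y V Z U hY hZ))
  set μ₂ : ℝ := min μa (min μb μc) with hμ₂
  have hμ₂0 : 0 < μ₂ := lt_min hμa (lt_min hμb hμc)
  have hμ₂a : μ₂ ≤ μa := min_le_left _ _
  have hμ₂b : μ₂ ≤ μb := (min_le_right _ _).trans (min_le_left _ _)
  have hμ₂c : μ₂ ≤ μc := (min_le_right _ _).trans (min_le_right _ _)
  have hdumb : ∀ μ : ℝ, |μ| ≤ μ₂ → Dumb (pert h₁ κ μ) a p q b := fun μ hμ =>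
    (hpd μ (hμ.trans hμ₂b)).1
  have hexD : ∀ (n : ℕ) (μ : ℝ), ∃ D : ℝ, 1 ≤ n → |μ| ≤ μ₂ → ∀ Y V Z U : ℝ → ℝ,
      LeftSol (pert h₁ κ μ) a p b n Y V → RightSol (pert h₁ κ μ) a q b n Z U →
      Y q * U q - V q * Z q = D := by
    intro n μ
    by_cases hc : 1 ≤ n ∧ |μ| ≤ μ₂
    · obtain ⟨hn, hμ⟩ := hc
      obtain ⟨Y₀, V₀, hY₀⟩ := hLEX _ a p q b (hdumb μ hμ) n hn
      obtain ⟨Z₀, U₀, hZ₀⟩ := exR hREF hLEX (hdumb μ hμ) hn
      exact ⟨Y₀ q * U₀ q - V₀ q * Z₀ q, fun _ _ Y V Z U hY hZ =>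
        wun hUNQ hLUN (hdumb μ hμ) hn hY hZ hY₀ hZ₀⟩
    · exact ⟨0, fun hn hμ => absurd ⟨hn, hμ⟩ hc⟩
  choose D hDD using hexD
  have habs : ∀ μ ∈ Ioo 0 μ₂, |μ| ≤ μ₂ := fun μ hμ => by
    rw [abs_of_pos hμ.1]
    exact hμ.2.le
  obtain ⟨ε, hε, μ, hμ, hmea⟩ := hMEA D n₁ B c₀ c₁ μ₂ (by omega) hc₀ hc₁ hμ₂0 (by
    intro n hn μ hμ μ' hμ' hdist
    have hn1 : 1 ≤ n := by omega
    have hm := habs μ hμ
    have hm' := habs μ' hμ'
    obtain ⟨Y, V, hY⟩ := hLEX _ a p q b (hdumb μ hm) n hn1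
    obtain ⟨Z, U, hZ⟩ := exR hREF hLEX (hdumb μ hm) hn1
    obtain ⟨Y', V', hY'⟩ := hLEX _ a p q b (hdumb μ' hm') n hn1
    obtain ⟨Z', U', hZ'⟩ := exR hREF hLEX (hdumb μ' hm') hn1
    have h1 := hlow₁ n (hn₀₁.trans hn) hn1 μ μ' (hm.trans hμ₂a) (hm'.trans hμ₂a) hdist
      Y V Z U Y' V' Z' U' hY hZ hY' hZ'
    rwa [hDD n μ hn1 hm Y V Z U hY hZ, hDD n μ' hn1 hm' Y' V' Z' U' hY' hZ'] at h1)
  have hm := habs μ hμ
  obtain ⟨hD₂, -, hsm₂, hcl₂⟩ := hpd μ (hm.trans hμ₂b)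
  refine ⟨pert h₁ κ μ, ⟨hD₂, ⟨c', d, hpc', by linarith, hdq, ?_⟩, ?_⟩, ?_⟩
  · intro z hz
    have hz1 : z ∉ Icc c' d' := fun hmem => hz ⟨hmem.1, by linarith [hmem.2]⟩
    have hz2 : z ∉ Icc c d := fun hmem => hz ⟨by linarith [hmem.1], hmem.2⟩
    rw [pert, hκ.2 z hz2, hoff z hz1]
    ring
  · intro i hi z
    have e : (fun z => pert h₁ κ μ z - h z) =
        fun z => (fun z => pert h₁ κ μ z - h₁ z) z + (fun z => h₁ z - h z) z := by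
      funext z
      ring
    have hA : ContDiff ℝ ∞ (fun z => pert h₁ κ μ z - h₁ z) := hsm₂.sub hD₁.smooth
    have hB : ContDiff ℝ ∞ (fun z => h₁ z - h z) := hD₁.smooth.sub hD.smooth
    have hi' : ((i : ℕ∞) : WithTop ℕ∞) ≤ ∞ := by exact_mod_cast le_top
    rw [e, iteratedDeriv_fun_add (hA.contDiffAt.of_le hi') (hB.contDiffAt.of_le hi')]
    refine (abs_add_le _ _).trans ?_
    have h1 := hcl₂ i hi z
    have h2 := hclose i hi z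
    linarith
  · obtain ⟨ε', hε', hfin⟩ := exists_common (P := fun n x => x ≤ |D n μ|)
      (fun n x y hx _ hyx => hyx.trans hx) n₁ (by
        intro n h2 hn
        obtain ⟨Y, V, hY⟩ := hLEX _ a p q b (hdumb μ hm) n (by omega)
        obtain ⟨Z, U, hZ⟩ := exR hREF hLEX (hdumb μ hm) (n := n) (by omega)
        have h1 := hcnt n h2 hn μ (hm.trans hμ₂c) Y V Z U hY hZ
        rw [hDD n μ (by omega) hm Y V Z U hY hZ] at h1
        exact ⟨|D n μ|, abs_pos.2 h1, le_rfl⟩)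
    refine ⟨min ε ε', B + 3, lt_min hε hε', fun n h2 Y V Z U hY hZ => ?_⟩
    rw [hDD n μ (by omega) hm Y V Z U hY hZ]
    rcases lt_or_ge n n₁ with hn | hn
    · have h1 : (1 : ℝ) ≤ (n : ℝ) ^ (B + 3) := by
        apply one_le_pow₀
        exact_mod_cast (show 1 ≤ n by omega)
      calc min ε ε' ≤ ε' := min_le_right _ _
        _ ≤ |D n μ| := hfin n h2 hn
        _ = 1 * |D n μ| := (one_mul _).symm
        _ ≤ (n : ℝ) ^ (B + 3) * |D n μ| := mul_le_mul_of_nonneg_right h1 (abs_nonneg _)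
    · exact (min_le_left _ _).trans (hmea n hn)

end

end Pool.Agent.Lib.MP478c11.DB
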