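import Pool.Agent.Lib.MP_478c11_gt.DB.Spec

/-!
# MP_478c11, module OSC: the rotation of the data for large `λ`
-/

set_option autoImplicit false

namespace Pool.Agent.Lib.MP478c11.DB

open Set Filter Topology MeasureTheory
open scoped ContDiff

namespace OSCM

theorem en_nonneg (l : ℝ) (g B B₁ : ℝ → ℝ) (z : ℝ) : 0 ≤ En l g B B₁ z := by
  unfold En
  positivity

/-- comparison of the energies at the left end point -/
theorem en_cmp (m M l : ℝ) (g g' B B₁ B' B₁' : ℝ → ℝ) (c : ℝ) (hm : 0 < m) (h1 : m ≤ g c)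
    (h2 : g c ≤ M) (h3 : m ≤ g' c) (h4 : g' c ≤ M) (hB : B' c = B c) (hB₁ : B₁' c = B₁ c) :
    En l g' B' B₁' c ≤ (√|M| / √m + 1) * En l g B B₁ c := by
  have hM : 0 < M := hm.trans_le (h1.trans h2)
  rw [abs_of_pos hM]
  have sm : 0 < √m := Real.sqrt_pos.mpr hm
  have sM : 0 < √M := Real.sqrt_pos.mpr hM
  have a1 : √m ≤ √(g c) := Real.sqrt_le_sqrt h1
  have a2 : √(g c) ≤ √M := Real.sqrt_le_sqrt h2
  have a3 : √m ≤ √(g' c) := Real.sqrt_le_sqrt h3
  have a4 : √(g' c) ≤ √M := Real.sqrt_le_sqrt h4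
  have sg : 0 < √(g c) := sm.trans_le a1
  have sg' : 0 < √(g' c) := sm.trans_le a3
  have q0 : 0 ≤ √M / √m := by positivity
  have e1 : √(g' c) ≤ √M / √m * √(g c) := by
    rw [div_mul_eq_mul_div, le_div_iff₀ sm]
    exact mul_le_mul a4 a1 sm.le sM.le
  have e2 : 1 / √(g' c) ≤ √M / √m * (1 / √(g c)) := by
    rw [div_mul_div_comm, mul_one, div_le_div_iff₀ sg' (by positivity), one_mul]
    calc √m * √(g c) ≤ √(g' c) * √M := mul_le_mul a3 a2 sg.le sg'.le
      _ = √M * √(g' c) := mul_comm _ _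
  unfold En
  rw [hB, hB₁]
  have b1 : l ^ 2 * √(g' c) * B c ^ 2 ≤ √M / √m * (l ^ 2 * √(g c) * B c ^ 2) := by
    calc l ^ 2 * √(g' c) * B c ^ 2 = √(g' c) * (l ^ 2 * B c ^ 2) := by ring
      _ ≤ (√M / √m * √(g c)) * (l ^ 2 * B c ^ 2) := mul_le_mul_of_nonneg_right e1 (by positivity)
      _ = √M / √m * (l ^ 2 * √(g c) * B c ^ 2) := by ring
  have b2 : B₁ c ^ 2 / √(g' c) ≤ √M / √m * (B₁ c ^ 2 / √(g c)) := by
    calc B₁ c ^ 2 / √(g' c) = (1 / √(g' c)) * B₁ c ^ 2 := by ring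
      _ ≤ (√M / √m * (1 / √(g c))) * B₁ c ^ 2 := mul_le_mul_of_nonneg_right e2 (by positivity)
      _ = √M / √m * (B₁ c ^ 2 / √(g c)) := by ring
  have b3 : 0 ≤ l ^ 2 * √(g c) * B c ^ 2 + B₁ c ^ 2 / √(g c) := by positivity
  have b4 : (√M / √m + 1) * (l ^ 2 * √(g c) * B c ^ 2 + B₁ c ^ 2 / √(g c)) =
      √M / √m * (l ^ 2 * √(g c) * B c ^ 2) + √M / √m * (B₁ c ^ 2 / √(g c)) +
        (l ^ 2 * √(g c) * B c ^ 2 + B₁ c ^ 2 / √(g c)) := by ring
  linarith

end OSCM

theorem specOSC (hENJ : SpecENJ) (hAVG : SpecAVG) (hDIF : SpecDIF) : SpecOSC := by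
  intro m M L γ hm hL hγ
  obtain ⟨C₁, hC₁, h1⟩ := hENJ m M L hm hL
  obtain ⟨C₂, hC₂, h2⟩ := hAVG m M L hm hL
  obtain ⟨C₃, hC₃, h3⟩ := hDIF m M L hm hL
  set Q : ℝ := √|M| / √m + 1 with hQ
  have hQ0 : 0 < Q := by positivity
  refine ⟨8 * C₂ / γ, γ / (8 * (L * |M| * C₁ * C₃ + 1)), min (γ / 4) (1 / (C₁ ^ 2 * Q + C₁ + 1)),
    by positivity, by positivity, by positivity, ?_⟩
  intro c d l η g g₁ g₂ B B₁ g' g₁' g₂' B' B₁' f f₁ hO hO' hdc hη hl hlη hg hf hf₁ hγ' hB hB₁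
  have hcd := hO.cd
  have hl1 : 1 ≤ l := hO.l1
  have hl0 : 0 < l := by linarith
  have hcI : c ∈ Icc c d := left_mem_Icc.mpr hcd.le
  have hdI : d ∈ Icc c d := right_mem_Icc.mpr hcd.le
  have hMpos : 0 < M := hm.trans_le ((hO.b c hcI).1.trans (hO.b c hcI).2.1)
  have hMabs : |M| = M := abs_of_pos hMpos
  set E : ℝ := En l g B B₁ d with hE
  have hE0 : 0 ≤ E := OSCM.en_nonneg _ _ _ _ _
  have hc0 : 0 < C₁ ^ 2 * Q + C₁ + 1 := by positivity
  have hmin0 : (0 : ℝ) ≤ min (γ / 4) (1 / (C₁ ^ 2 * Q + C₁ + 1)) := by positivity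
  have key : ∀ X : ℝ, 0 ≤ X → X ≤ (C₁ ^ 2 * Q + C₁ + 1) * E →
      min (γ / 4) (1 / (C₁ ^ 2 * Q + C₁ + 1)) * X ≤ E := by
    intro X hX0 hX
    calc min (γ / 4) (1 / (C₁ ^ 2 * Q + C₁ + 1)) * X
        ≤ 1 / (C₁ ^ 2 * Q + C₁ + 1) * X := mul_le_mul_of_nonneg_right (min_le_right _ _) hX0
      _ ≤ 1 / (C₁ ^ 2 * Q + C₁ + 1) * ((C₁ ^ 2 * Q + C₁ + 1) * E) :=
          mul_le_mul_of_nonneg_left hX (by positivity)
      _ = E := by field_simp
  have hEc : En l g B B₁ c ≤ C₁ * E := (h1 c d l g g₁ g₂ B B₁ hO hdc c hcI d hdI).1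
  refine ⟨?_, ?_, ?_⟩
  · -- the main estimate
    have hcB : ContinuousOn B (Icc c d) := fun z hz => (hO.dB z hz).1.continuousAt.continuousWithinAt
    have hcB' : ContinuousOn B' (Icc c d) :=
      fun z hz => (hO'.dB z hz).1.continuousAt.continuousWithinAt
    have hcf : ContinuousOn f (Icc c d) := fun z hz => (hf z hz).1.continuousAt.continuousWithinAt
    have hder : ∀ z ∈ uIcc c d, HasDerivAt (fun z => B z * B₁' z - B₁ z * B' z)
        (-(l ^ 2 * η) * (f z * B z * B' z)) z := by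
      intro z hz
      rw [uIcc_of_le hcd.le] at hz
      obtain ⟨b1, b2⟩ := hO.dB z hz
      obtain ⟨b1', b2'⟩ := hO'.dB z hz
      refine ((b1.mul b2').sub (b2.mul b1')).congr_deriv ?_
      have h4 := hg z hz
      linear_combination (-(l ^ 2 * B z * B' z)) * h4
    have hcd' : uIcc c d = Icc c d := uIcc_of_le hcd.le
    have i1 : IntervalIntegrable (fun z => f z * B z ^ 2) volume c d := by
      refine ContinuousOn.intervalIntegrable ?_
      rw [hcd']
      exact hcf.mul (hcB.pow 2)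
    have i2 : IntervalIntegrable (fun z => f z * B z * (B' z - B z)) volume c d := by
      refine ContinuousOn.intervalIntegrable ?_
      rw [hcd']
      exact (hcf.mul hcB).mul (hcB'.sub hcB)
    have i3 : IntervalIntegrable (fun z => -(l ^ 2 * η) * (f z * B z * B' z)) volume c d := by
      refine ContinuousOn.intervalIntegrable ?_
      rw [hcd']
      exact continuousOn_const.mul ((hcf.mul hcB).mul hcB')
    have hint := intervalIntegral.integral_eq_sub_of_hasDerivAt hder i3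
    have hPc : B c * B₁' c - B₁ c * B' c = 0 := by
      rw [hB, hB₁]
      ring
    rw [hPc, sub_zero, intervalIntegral.integral_const_mul] at hint
    have hsplit : (∫ z in c..d, f z * B z * B' z) =
        (∫ z in c..d, f z * B z ^ 2) + ∫ z in c..d, f z * B z * (B' z - B z) := by
      rw [← intervalIntegral.integral_add i1 i2]
      refine intervalIntegral.integral_congr fun z _ => ?_
      ring
    rw [hsplit] at hint
    have hA := h2 c d l g g₁ g₂ B B₁ f f₁ hO hdc hf hf₁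
    rw [← hE] at hA
    have hI2 : |∫ z in c..d, f z * B z * (B' z - B z)| ≤ L * M * C₁ * C₃ * η * E / l := by
      have h5 : ∀ z ∈ uIoc c d, ‖f z * B z * (B' z - B z)‖ ≤
          M * (C₁ / l * √E) * (C₃ * η * √E) := by
        intro z hz
        rw [uIoc_of_le hcd.le] at hz
        have hz' : z ∈ Icc c d := Ioc_subset_Icc_self hz
        rw [Real.norm_eq_abs, abs_mul, abs_mul]
        have e1 : |f z| ≤ M := (hf z hz').2.1
        have e2 : |B z| ≤ C₁ / l * √E := (h1 c d l g g₁ g₂ B B₁ hO hdc z hz' d hdI).2.2.2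
        have e3 : |B' z - B z| ≤ C₃ * η * √E := by
          refine h3 c d l η g g₁ g₂ B B₁ g' g₁' g₂' B' B₁' hO hO' hdc hη ?_ hB hB₁ z hz'
          intro w hw
          rw [hg w hw, abs_mul, abs_of_nonneg hη, mul_comm]
          exact mul_le_mul_of_nonneg_right (hf w hw).2.1 hη
        have e4 : (0 : ℝ) ≤ C₁ / l * √E := by positivity
        exact mul_le_mul (mul_le_mul e1 e2 (abs_nonneg _) hMpos.le) e3 (abs_nonneg _)
          (by positivity)
      have h6 := intervalIntegral.norm_integral_le_of_norm_le_const h5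
      rw [Real.norm_eq_abs, abs_of_pos (sub_pos.mpr hcd)] at h6
      have h7 : √E * √E = E := Real.mul_self_sqrt hE0
      calc |∫ z in c..d, f z * B z * (B' z - B z)|
          ≤ M * (C₁ / l * √E) * (C₃ * η * √E) * (d - c) := h6
        _ ≤ M * (C₁ / l * √E) * (C₃ * η * √E) * L :=
            mul_le_mul_of_nonneg_left hdc (by positivity)
        _ = L * M * C₁ * C₃ * η * (√E * √E) / l := by ring
        _ = L * M * C₁ * C₃ * η * E / l := by rw [h7]
    set I₁ : ℝ := ∫ z in c..d, f z * B z ^ 2 with hI₁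
    set I₂ : ℝ := ∫ z in c..d, f z * B z * (B' z - B z) with hI₂
    set X : ℝ := ∫ z in c..d, f z / √(g z) with hX
    have hI1 : E / (2 * l ^ 2) * γ - C₂ * E / l ^ 3 ≤ |I₁| := by
      have e1 : |E / (2 * l ^ 2) * X| ≤ |I₁| + C₂ * E / l ^ 3 := by
        have e2 : E / (2 * l ^ 2) * X = I₁ - (I₁ - E / (2 * l ^ 2) * X) := by ring
        calc |E / (2 * l ^ 2) * X| = |I₁ - (I₁ - E / (2 * l ^ 2) * X)| := by rw [← e2]
          _ ≤ |I₁| + |I₁ - E / (2 * l ^ 2) * X| := abs_sub _ _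
          _ ≤ |I₁| + C₂ * E / l ^ 3 := by linarith
      have e3 : |E / (2 * l ^ 2) * X| = E / (2 * l ^ 2) * |X| := by
        rw [abs_mul, abs_of_nonneg (by positivity)]
      have e4 : E / (2 * l ^ 2) * γ ≤ E / (2 * l ^ 2) * |X| :=
        mul_le_mul_of_nonneg_left hγ' (by positivity)
      linarith
    have hsum : |I₁| - |I₂| ≤ |I₁ + I₂| := by
      have e1 : |I₁| = |(I₁ + I₂) - I₂| := by ring_nf
      have e2 : |(I₁ + I₂) - I₂| ≤ |I₁ + I₂| + |I₂| := abs_sub _ _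
      linarith
    have hP : |B d * B₁' d - B₁ d * B' d| = l ^ 2 * η * |I₁ + I₂| := by
      rw [← hint, abs_mul, abs_neg, abs_of_nonneg (by positivity)]
    rw [hP]
    have hlow : E * (γ / 4) ≤ l ^ 2 * |I₁ + I₂| := by
      have e1 : l ^ 2 * (E / (2 * l ^ 2) * γ - C₂ * E / l ^ 3 - L * M * C₁ * C₃ * η * E / l) ≤
          l ^ 2 * |I₁ + I₂| := by
        refine mul_le_mul_of_nonneg_left ?_ (by positivity)
        linarith
      have e2 : l ^ 2 * (E / (2 * l ^ 2) * γ - C₂ * E / l ^ 3 - L * M * C₁ * C₃ * η * E / l) =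
          E * (γ / 2 - C₂ / l - L * M * C₁ * C₃ * (l * η)) := by
        field_simp
      rw [e2] at e1
      refine le_trans (mul_le_mul_of_nonneg_left ?_ hE0) e1
      have e3 : C₂ / l ≤ γ / 8 := by
        rw [div_le_iff₀ hl0]
        rw [div_le_iff₀ hγ] at hl
        linarith
      have e4 : L * M * C₁ * C₃ * (l * η) ≤ γ / 8 := by
        have e5 : 0 ≤ L * M * C₁ * C₃ := by positivity
        rw [hMabs] at hlη
        have e6 : L * M * C₁ * C₃ * (l * η) ≤
            L * M * C₁ * C₃ * (γ / (8 * (L * M * C₁ * C₃ + 1))) :=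
          mul_le_mul_of_nonneg_left hlη e5
        refine e6.trans ?_
        rw [← mul_div_assoc, div_le_div_iff₀ (by positivity) (by norm_num)]
        nlinarith
      linarith
    calc min (γ / 4) (1 / (C₁ ^ 2 * Q + C₁ + 1)) * η * E
        ≤ γ / 4 * η * E := by
          refine mul_le_mul_of_nonneg_right (mul_le_mul_of_nonneg_right (min_le_left _ _) hη) hE0
      _ = η * (E * (γ / 4)) := by ring
      _ ≤ η * (l ^ 2 * |I₁ + I₂|) := mul_le_mul_of_nonneg_left hlow hη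
      _ = l ^ 2 * η * |I₁ + I₂| := by ring
  · refine key _ (OSCM.en_nonneg _ _ _ _ _) (hEc.trans ?_)
    refine mul_le_mul_of_nonneg_right ?_ hE0
    have : 0 ≤ C₁ ^ 2 * Q := by positivity
    linarith
  · refine key _ (OSCM.en_nonneg _ _ _ _ _) ?_
    have e1 : En l g' B' B₁' d ≤ C₁ * En l g' B' B₁' c :=
      (h1 c d l g' g₁' g₂' B' B₁' hO' hdc d hdI c hcI).1
    have e2 : En l g' B' B₁' c ≤ Q * En l g B B₁ c :=
      OSCM.en_cmp m M l g g' B B₁ B' B₁' c hm (hO.b c hcI).1 (hO.b c hcI).2.1 (hO'.b c hcI).1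
        (hO'.b c hcI).2.1 hB hB₁
    calc En l g' B' B₁' d ≤ C₁ * En l g' B' B₁' c := e1
      _ ≤ C₁ * (Q * En l g B B₁ c) := mul_le_mul_of_nonneg_left e2 hC₁.le
      _ ≤ C₁ * (Q * (C₁ * E)) :=
          mul_le_mul_of_nonneg_left (mul_le_mul_of_nonneg_left hEc hQ0.le) hC₁.le
      _ = C₁ ^ 2 * Q * E := by ring
      _ ≤ (C₁ ^ 2 * Q + C₁ + 1) * E := by
          refine mul_le_mul_of_nonneg_right ?_ hE0
          linarith

end Pool.Agent.Lib.MP478c11.DB
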