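import Pool.Agent.Lib.MP_478c11_gt.DB.Spec

/-!
# MP_478c11, DB: module PD (small perturbations in the neck)
-/

set_option autoImplicit false

namespace Pool.Agent.Lib.MP478c11.DB

open Set Filter Topology MeasureTheory
open scoped ContDiff

namespace PDM

/-- the linear part of the perturbation -/
noncomputable def AA (h κ : ℝ → ℝ) (z : ℝ) : ℝ := √(h z) * κ z

/-- the quadratic part of the perturbation -/
noncomputable def BB (κ : ℝ → ℝ) (z : ℝ) : ℝ := κ z ^ 2

/-- the perturbation -/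
noncomputable def gg (h κ : ℝ → ℝ) (μ z : ℝ) : ℝ := 2 * μ * AA h κ z + μ ^ 2 * BB κ z

theorem pert_eq (h κ : ℝ → ℝ) (μ : ℝ) : pert h κ μ = fun z => h z + gg h κ μ z := by
  funext z
  unfold pert gg AA BB
  ring

theorem contDiff_of {f : ℝ → ℝ} {c d : ℝ} (h0 : ∀ z, z ∉ Icc c d → f z = 0)
    (h1 : ∀ z ∈ Icc c d, ContDiffAt ℝ ∞ f z) : ContDiff ℝ ∞ f := by
  rw [contDiff_iff_contDiffAt]
  intro z
  by_cases hz : z ∈ Icc c d
  · exact h1 z hz
  · have h2 : ∀ᶠ y in 𝓝 z, y ∉ Icc c d := isClosed_Icc.isOpen_compl.mem_nhds hz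
    have h3 : f =ᶠ[𝓝 z] fun _ => 0 := by
      filter_upwards [h2] with y hy
      exact h0 y hy
    exact contDiffAt_const.congr_of_eventuallyEq h3

theorem bound {f : ℝ → ℝ} {c d : ℝ} (hf : ContDiff ℝ ∞ f) (h0 : ∀ z, z ∉ Icc c d → f z = 0)
    (i : ℕ) : ∃ M : ℝ, 0 ≤ M ∧ ∀ z, |iteratedDeriv i f z| ≤ M := by
  have hc : HasCompactSupport f := HasCompactSupport.intro isCompact_Icc (fun z hz => h0 z hz)
  have h1 : Continuous (iteratedFDeriv ℝ i f) :=
    hf.continuous_iteratedFDeriv (by exact_mod_cast le_top)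
  obtain ⟨M, hM⟩ := h1.bounded_above_of_compact_support (hc.iteratedFDeriv i)
  refine ⟨max M 0, le_max_right _ _, fun z => ?_⟩
  rw [← Real.norm_eq_abs, ← norm_iteratedFDeriv_eq_norm_iteratedDeriv]
  exact (hM z).trans (le_max_left _ _)

theorem bounds {f : ℝ → ℝ} {c d : ℝ} (hf : ContDiff ℝ ∞ f) (h0 : ∀ z, z ∉ Icc c d → f z = 0)
    (N : ℕ) : ∃ M : ℝ, 0 ≤ M ∧ ∀ i ≤ N, ∀ z, |iteratedDeriv i f z| ≤ M := by
  choose M h1 hM using bound hf h0
  refine ⟨∑ i ∈ Finset.range (N + 1), M i, Finset.sum_nonneg (fun i _ => h1 i),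
    fun i hi z => (hM i z).trans ?_⟩
  exact Finset.single_le_sum (f := M) (fun j _ => h1 j) (Finset.mem_range.2 (by omega))

theorem iter_gg {h κ : ℝ → ℝ} (hA : ContDiff ℝ ∞ (AA h κ)) (hB : ContDiff ℝ ∞ (BB κ)) (μ : ℝ)
    (i : ℕ) (z : ℝ) : iteratedDeriv i (gg h κ μ) z =
      2 * μ * iteratedDeriv i (AA h κ) z + μ ^ 2 * iteratedDeriv i (BB κ) z := by
  have hA' : ContDiffAt ℝ i (AA h κ) z := (hA.of_le (by exact_mod_cast le_top)).contDiffAt
  have hB' : ContDiffAt ℝ i (BB κ) z := (hB.of_le (by exact_mod_cast le_top)).contDiffAt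
  have e1 : gg h κ μ = (fun z => 2 * μ * AA h κ z) + fun z => μ ^ 2 * BB κ z := rfl
  rw [e1, iteratedDeriv_add (contDiffAt_const.mul hA') (contDiffAt_const.mul hB'),
    iteratedDeriv_const_mul _ hA', iteratedDeriv_const_mul _ hB']

theorem W_congr {f g : ℝ → ℝ} {z : ℝ} (hfg : f =ᶠ[𝓝 z] g) : W f z = W g z := by
  unfold W
  rw [hfg.deriv_eq, hfg.deriv.deriv_eq, hfg.eq_of_nhds]

theorem W_congr' {f g : ℝ → ℝ} {z : ℝ} (hfg : f =ᶠ[𝓝 z] g) : W f =ᶠ[𝓝 z] W g := by
  have h1 : ∀ᶠ y in 𝓝 z, f =ᶠ[𝓝 y] g := eventually_eventually_nhds.2 hfg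
  filter_upwards [h1] with y hy
  exact W_congr hy

theorem W_diff {h g : ℝ → ℝ} (hh : ContDiff ℝ ∞ h) (hg : ContDiff ℝ ∞ g) (z : ℝ) {H e : ℝ}
    (h0 : |h z| ≤ H) (h1 : |deriv h z| ≤ H) (h2 : |deriv (deriv h) z| ≤ H)
    (g0 : |g z| ≤ e) (g1 : |deriv g z| ≤ e) (g2 : |deriv (deriv g) z| ≤ e) :
    W (fun z => h z + g z) z ≤ W h z + (3 / 2 * H * e + 3 / 4 * e ^ 2) := by
  obtain ⟨hd, hd'⟩ := contDiff_infty_iff_deriv.1 hh
  obtain ⟨gd, gd'⟩ := contDiff_infty_iff_deriv.1 hg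
  have hdd := (contDiff_infty_iff_deriv.1 hd').1
  have gdd := (contDiff_infty_iff_deriv.1 gd').1
  have e1 : deriv (fun z => h z + g z) = fun z => deriv h z + deriv g z := by
    funext y
    exact deriv_fun_add (hd y) (gd y)
  have e2 : deriv (fun z => deriv h z + deriv g z) z = deriv (deriv h) z + deriv (deriv g) z :=
    deriv_fun_add (hdd z) (gdd z)
  unfold W
  rw [e1, e2]
  rw [abs_le] at h0 h1 h2 g0 g1 g2
  have hH : 0 ≤ H := by linarith [h0.1, h0.2]
  have he : 0 ≤ e := by linarith [g0.1, g0.2]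
  have k1 : deriv h z * deriv g z ≤ H * e := by
    rcases le_total 0 (deriv g z) with h3 | h3
    · exact mul_le_mul h1.2 g1.2 h3 hH
    · nlinarith [mul_nonneg (by linarith [h1.1] : 0 ≤ H + deriv h z) (neg_nonneg.2 h3),
        mul_nonneg hH (by linarith [g1.1] : 0 ≤ e + deriv g z)]
  have k2 : deriv g z ^ 2 ≤ e ^ 2 := by nlinarith
  have k3 : -(h z * deriv (deriv g) z) ≤ H * e := by
    nlinarith [mul_nonneg (by linarith [h0.1] : 0 ≤ H + h z) (by linarith [g2.1] : 0 ≤ e + deriv (deriv g) z),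
      mul_nonneg (by linarith [h0.2] : 0 ≤ H - h z) (by linarith [g2.2] : 0 ≤ e - deriv (deriv g) z),
      mul_nonneg (by linarith [h0.1] : 0 ≤ H + h z) (by linarith [g2.2] : 0 ≤ e - deriv (deriv g) z),
      mul_nonneg (by linarith [h0.2] : 0 ≤ H - h z) (by linarith [g2.1] : 0 ≤ e + deriv (deriv g) z)]
  have k4 : -(g z * deriv (deriv h) z) ≤ H * e := by
    nlinarith [mul_nonneg (by linarith [h2.1] : 0 ≤ H + deriv (deriv h) z) (by linarith [g0.1] : 0 ≤ e + g z),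
      mul_nonneg (by linarith [h2.2] : 0 ≤ H - deriv (deriv h) z) (by linarith [g0.2] : 0 ≤ e - g z),
      mul_nonneg (by linarith [h2.1] : 0 ≤ H + deriv (deriv h) z) (by linarith [g0.2] : 0 ≤ e - g z),
      mul_nonneg (by linarith [h2.2] : 0 ≤ H - deriv (deriv h) z) (by linarith [g0.1] : 0 ≤ e + g z)]
  have k5 : -(g z * deriv (deriv g) z) ≤ e * e := by
    nlinarith [mul_nonneg (by linarith [g2.1] : 0 ≤ e + deriv (deriv g) z) (by linarith [g0.1] : 0 ≤ e + g z),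
      mul_nonneg (by linarith [g2.2] : 0 ≤ e - deriv (deriv g) z) (by linarith [g0.2] : 0 ≤ e - g z),
      mul_nonneg (by linarith [g2.1] : 0 ≤ e + deriv (deriv g) z) (by linarith [g0.2] : 0 ≤ e - g z),
      mul_nonneg (by linarith [g2.2] : 0 ≤ e - deriv (deriv g) z) (by linarith [g0.1] : 0 ≤ e + g z)]
  nlinarith

end PDM

open PDM in
theorem specPD (_hSQR : SpecSQR) : SpecPD := by
  intro h κ a p q b c d hD hpc hcd hdq hK N δ hδ
  have hap := hD.ap
  have hqb := hD.qb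
  have hpos : ∀ z ∈ Icc c d, 0 < h z := fun z hz => hD.pos z (by linarith [hz.1]) (by linarith [hz.2])
  have hA0 : ∀ z, z ∉ Icc c d → AA h κ z = 0 := by
    intro z hz
    unfold AA
    rw [hK.2 z hz, mul_zero]
  have hB0 : ∀ z, z ∉ Icc c d → BB κ z = 0 := by
    intro z hz
    unfold BB
    rw [hK.2 z hz]
    norm_num
  have hA : ContDiff ℝ ∞ (AA h κ) := contDiff_of hA0
    (fun z hz => (hD.smooth.contDiffAt.sqrt (hpos z hz).ne').mul hK.1.contDiffAt)
  have hB : ContDiff ℝ ∞ (BB κ) := hK.1.pow 2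
  have hg : ∀ μ, ContDiff ℝ ∞ (gg h κ μ) := fun μ =>
    (contDiff_const.mul hA).add (contDiff_const.mul hB)
  have hg0 : ∀ μ z, z ∉ Icc c d → gg h κ μ z = 0 := by
    intro μ z hz
    unfold gg
    rw [hA0 z hz, hB0 z hz]
    ring
  obtain ⟨M1, hM1, hA1⟩ := bounds hA hA0 (N + 2)
  obtain ⟨M2, hM2, hB1⟩ := bounds hB hB0 (N + 2)
  obtain ⟨M, hM⟩ : ∃ M : ℝ, M = 2 * M1 + M2 := ⟨_, rfl⟩
  have hM0 : 0 ≤ M := by rw [hM]; positivity
  have hgb : ∀ μ : ℝ, |μ| ≤ 1 → ∀ i ≤ N + 2, ∀ z, |iteratedDeriv i (gg h κ μ) z| ≤ |μ| * M := by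
    intro μ hμ i hi z
    rw [iter_gg hA hB, hM]
    have h1 := hA1 i hi z
    have h2 := hB1 i hi z
    calc |2 * μ * iteratedDeriv i (AA h κ) z + μ ^ 2 * iteratedDeriv i (BB κ) z|
        ≤ |2 * μ * iteratedDeriv i (AA h κ) z| + |μ ^ 2 * iteratedDeriv i (BB κ) z| := abs_add_le _ _
      _ = 2 * |μ| * |iteratedDeriv i (AA h κ) z| + |μ| * |μ| * |iteratedDeriv i (BB κ) z| := by
          rw [abs_mul, abs_mul, abs_mul, abs_two, pow_two, abs_mul]
      _ ≤ 2 * |μ| * M1 + |μ| * 1 * M2 := by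
          have h3 := abs_nonneg μ
          have h4 := abs_nonneg (iteratedDeriv i (BB κ) z)
          gcongr
      _ = |μ| * (2 * M1 + M2) := by ring
  -- bounds on the compact interval
  obtain ⟨hd, hd'⟩ := contDiff_infty_iff_deriv.1 hD.smooth
  obtain ⟨hdd, hdd'⟩ := contDiff_infty_iff_deriv.1 hd'
  obtain ⟨H0, hH0⟩ := isCompact_Icc.exists_bound_of_continuousOn (s := Icc c d) hD.smooth.continuous.continuousOn
  obtain ⟨H1, hH1⟩ := isCompact_Icc.exists_bound_of_continuousOn (s := Icc c d) hd'.continuous.continuousOn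
  obtain ⟨H2, hH2⟩ := isCompact_Icc.exists_bound_of_continuousOn (s := Icc c d) hdd'.continuous.continuousOn
  obtain ⟨H, hH⟩ : ∃ H : ℝ, H = max (max H0 H1) (max H2 0) := ⟨_, rfl⟩
  have hHn : 0 ≤ H := by rw [hH]; exact (le_max_right _ _).trans (le_max_right _ _)
  have hHa : ∀ z ∈ Icc c d, |h z| ≤ H := fun z hz =>
    (hH0 z hz).trans (by rw [hH]; exact (le_max_left _ _).trans (le_max_left _ _))
  have hHb : ∀ z ∈ Icc c d, |deriv h z| ≤ H := fun z hz =>
    (hH1 z hz).trans (by rw [hH]; exact (le_max_right _ _).trans (le_max_left _ _))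
  have hHc : ∀ z ∈ Icc c d, |deriv (deriv h) z| ≤ H := fun z hz =>
    (hH2 z hz).trans (by rw [hH]; exact (le_max_left _ _).trans (le_max_right _ _))
  have hne : (Icc c d).Nonempty := ⟨c, le_refl _, hcd.le⟩
  have hWc : Continuous (W h) := by
    unfold W
    exact ((hd'.continuous.pow 2).div_const _).sub ((hD.smooth.continuous.mul hdd'.continuous).div_const _)
  obtain ⟨z0, hz0, hz0m⟩ := isCompact_Icc.exists_isMaxOn hne hWc.continuousOn
  obtain ⟨w0, hw0⟩ : ∃ w0 : ℝ, w0 = -W h z0 := ⟨_, rfl⟩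
  have hw0p : 0 < w0 := by
    have := hD.W2 z0 (by linarith [hz0.1]) (by linarith [hz0.2])
    rw [hw0]; linarith
  have hWle : ∀ z ∈ Icc c d, W h z ≤ -w0 := by
    intro z hz
    have := hz0m hz
    rw [hw0, neg_neg]
    exact this
  have hsq : ContinuousOn (fun z => √(h z)) (Icc c d) := (Real.continuous_sqrt.comp hD.smooth.continuous).continuousOn
  obtain ⟨z1, hz1, hz1m⟩ := isCompact_Icc.exists_isMinOn hne hsq
  obtain ⟨r0, hr0⟩ : ∃ r0 : ℝ, r0 = √(h z1) := ⟨_, rfl⟩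
  have hr0p : 0 < r0 := by rw [hr0]; exact Real.sqrt_pos.2 (hpos z1 hz1)
  have hrle : ∀ z ∈ Icc c d, r0 ≤ √(h z) := by
    intro z hz
    rw [hr0]
    exact hz1m hz
  obtain ⟨k0, hk0, hk⟩ := bound hK.1 (fun z hz => hK.2 z hz) 0
  have hkle : ∀ z, |κ z| ≤ k0 := by
    intro z
    have := hk z
    rwa [iteratedDeriv_zero] at this
  -- the choice of μ₀
  obtain ⟨E, hE⟩ : ∃ E : ℝ, E = 3 / 2 * H * M + 3 / 4 * M ^ 2 := ⟨_, rfl⟩
  have hE0 : 0 ≤ E := by rw [hE]; positivity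
  obtain ⟨μ₀, hμ₀⟩ : ∃ μ₀ : ℝ, μ₀ = min (min 1 (δ / (M + 1))) (min (w0 / (E + 1) / 2) (r0 / (k0 + 1) / 2)) :=
    ⟨_, rfl⟩
  have hμ₀p : 0 < μ₀ := by
    rw [hμ₀]
    refine lt_min (lt_min one_pos (by positivity)) (lt_min (by positivity) (by positivity))
  refine ⟨μ₀, hμ₀p, ?_⟩
  intro μ hμ
  have m1 : |μ| ≤ 1 := hμ.trans (by rw [hμ₀]; exact (min_le_left _ _).trans (min_le_left _ _))
  have m2 : |μ| ≤ δ / (M + 1) := hμ.trans (by rw [hμ₀]; exact (min_le_left _ _).trans (min_le_right _ _))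
  have m3 : |μ| ≤ w0 / (E + 1) / 2 :=
    hμ.trans (by rw [hμ₀]; exact (min_le_right _ _).trans (min_le_left _ _))
  have m4 : |μ| ≤ r0 / (k0 + 1) / 2 :=
    hμ.trans (by rw [hμ₀]; exact (min_le_right _ _).trans (min_le_right _ _))
  have hμn := abs_nonneg μ
  have m2' : |μ| * M ≤ δ := by
    rw [le_div_iff₀ (by linarith)] at m2
    nlinarith
  have m3' : |μ| * E < w0 := by
    rw [div_div, le_div_iff₀ (by positivity)] at m3
    nlinarith
  have m4' : |μ| * k0 < r0 := by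
    rw [div_div, le_div_iff₀ (by positivity)] at m4
    nlinarith
  have hsub : ∀ z, z ∉ Icc c d → pert h κ μ =ᶠ[𝓝 z] h := by
    intro z hz
    have h2 : ∀ᶠ y in 𝓝 z, y ∉ Icc c d := isClosed_Icc.isOpen_compl.mem_nhds hz
    filter_upwards [h2] with y hy
    rw [pert_eq]
    show h y + gg h κ μ y = h y
    rw [hg0 μ y hy, add_zero]
  have hBp : ∀ z ∈ Icc p q, 0 < √(h z) + μ * κ z := by
    intro z hz
    by_cases hz' : z ∈ Icc c d
    · have h1 := hrle z hz'
      have h2 : |μ * κ z| < r0 := by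
        rw [abs_mul]
        exact lt_of_le_of_lt (mul_le_mul_of_nonneg_left (hkle z) hμn) m4'
      have h3 := (abs_lt.1 h2).1
      linarith
    · rw [hK.2 z hz', mul_zero, add_zero]
      exact Real.sqrt_pos.2 (hD.pos z (by linarith [hz.1]) (by linarith [hz.2]))
  have hsm : ContDiff ℝ ∞ (pert h κ μ) := by
    rw [pert_eq]
    exact hD.smooth.add (hg μ)
  have hna : a ∉ Icc c d := fun hh => by linarith [hh.1]
  have hnb : b ∉ Icc c d := fun hh => by linarith [hh.2]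
  have hnp : p ∉ Icc c d := fun hh => by linarith [hh.1]
  have hnq : q ∉ Icc c d := fun hh => by linarith [hh.2]
  refine ⟨?_, hBp, hsm, ?_⟩
  · constructor
    · exact hsm
    · exact hD.ap
    · exact hD.pq
    · exact hD.qb
    · rw [(hsub a hna).eq_of_nhds]; exact hD.ha
    · rw [(hsub b hnb).eq_of_nhds]; exact hD.hb
    · intro z hza hzb
      by_cases hz : z ∈ Icc c d
      · have h1 := hBp z ⟨by linarith [hz.1], by linarith [hz.2]⟩
        have h2 : pert h κ μ z = (√(h z) + μ * κ z) ^ 2 := by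
          have h3 := Real.sq_sqrt (hpos z hz).le
          unfold pert
          linear_combination -h3
        rw [h2]
        positivity
      · rw [(hsub z hz).eq_of_nhds]; exact hD.pos z hza hzb
    · rw [(hsub a hna).deriv_eq]; exact hD.da
    · rw [(hsub b hnb).deriv_eq]; exact hD.db
    · intro z h1 h2
      rw [W_congr (hsub z (fun hh => by linarith [hh.1]))]
      exact hD.W1 z h1 h2
    · intro z h1 h2
      by_cases hz : z ∈ Icc c d
      · have e0 := hgb μ m1 0 (by omega) z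
        have e1 := hgb μ m1 1 (by omega) z
        have e2 := hgb μ m1 2 (by omega) z
        rw [iteratedDeriv_zero] at e0
        rw [iteratedDeriv_one] at e1
        rw [show (2 : ℕ) = 1 + 1 from rfl, iteratedDeriv_succ, iteratedDeriv_one] at e2
        have h3 := W_diff hD.smooth (hg μ) z (hHa z hz) (hHb z hz) (hHc z hz) e0 e1 e2
        rw [pert_eq]
        have h4 : 3 / 2 * H * (|μ| * M) + 3 / 4 * (|μ| * M) ^ 2 ≤ |μ| * E := by
          rw [hE]
          have h5 : (|μ| * M) ^ 2 ≤ |μ| * M ^ 2 := by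
            have : |μ| ^ 2 ≤ |μ| := by nlinarith
            nlinarith [sq_nonneg M]
          nlinarith
        have h5 := hWle z hz
        linarith
      · rw [W_congr (hsub z hz)]
        exact hD.W2 z h1 h2
    · intro z h1 h2
      rw [W_congr (hsub z (fun hh => by linarith [hh.2]))]
      exact hD.W3 z h1 h2
    · rw [(W_congr' (hsub p hnp)).deriv_eq]; exact hD.Wp
    · rw [(W_congr' (hsub q hnq)).deriv_eq]; exact hD.Wq
  · intro i hi z
    have e1 : (fun z => pert h κ μ z - h z) = gg h κ μ := by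
      rw [pert_eq]
      funext y
      show h y + gg h κ μ y - h y = gg h κ μ y
      ring
    rw [e1]
    exact (hgb μ m1 i (by omega) z).trans m2'

end Pool.Agent.Lib.MP478c11.DB
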