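import Pool.Agent.Lib.MP_478c11_gt.DB.Spec

/-! # Module REF: the reflection. -/

set_option autoImplicit false

namespace Pool.Agent.Lib.MP478c11.DB

open Set Filter Topology MeasureTheory
open scoped ContDiff

namespace REFM

lemma dneg (h : ℝ → ℝ) : deriv (fun z => h (-z)) = fun z => -deriv h (-z) := by
  funext z
  exact deriv_comp_neg h z

lemma ddneg (h : ℝ → ℝ) : deriv (deriv (fun z => h (-z))) = fun z => deriv (deriv h) (-z) := by
  rw [dneg]
  funext z
  rw [deriv.fun_neg, deriv_comp_neg, neg_neg]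

lemma Wneg (h : ℝ → ℝ) (z : ℝ) : W (fun z => h (-z)) z = W h (-z) := by
  unfold W
  rw [ddneg, dneg]
  ring

lemma sysneg (h : ℝ → ℝ) (n : ℕ) (F y v : ℝ → ℝ) (I : Set ℝ) (hs : Sys h n F y v I) :
    Sys (fun z => h (-z)) n (fun z => F (-z)) (fun z => y (-z)) (fun z => -v (-z))
      {z | -z ∈ I} := by
  intro z hz
  obtain ⟨h1, h2⟩ := hs (-z) hz
  have h3 : HasDerivAt (fun z : ℝ => -z) (-1) z := hasDerivAt_neg z
  refine ⟨?_, ?_⟩
  · have h4 := HasDerivAt.comp z h1 h3
    refine h4.congr_deriv ?_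
    ring
  · have h4 := (HasDerivAt.comp z h2 h3).neg
    refine h4.congr_deriv ?_
    rw [Wneg]
    ring

end REFM

open REFM

theorem specREF : SpecREF := by
  intro h a p q b H
  have hW : W (fun z => h (-z)) = fun z => W h (-z) := funext fun z => Wneg h z
  refine ⟨?_, Wneg h, fun n F y v I hs => sysneg h n F y v I hs, ?_, ?_⟩
  · refine ⟨H.smooth.comp contDiff_neg, by linarith [H.qb], by linarith [H.pq], by linarith [H.ap],
      ?_, ?_, ?_, ?_, ?_, ?_, ?_, ?_, ?_, ?_⟩
    · show h (-(-b)) = 0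
      rw [neg_neg]
      exact H.hb
    · show h (-(-a)) = 0
      rw [neg_neg]
      exact H.ha
    · intro z h1 h2
      exact H.pos (-z) (by linarith) (by linarith)
    · rw [dneg]
      show 0 < -deriv h (-(-b))
      rw [neg_neg]
      linarith [H.db]
    · rw [dneg]
      show -deriv h (-(-a)) < 0
      rw [neg_neg]
      linarith [H.da]
    · intro z h1 h2
      rw [Wneg]
      exact H.W3 (-z) (by linarith) (by linarith)
    · intro z h1 h2
      rw [Wneg]
      exact H.W2 (-z) (by linarith) (by linarith)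
    · intro z h1 h2
      rw [Wneg]
      exact H.W1 (-z) (by linarith) (by linarith)
    · rw [hW, dneg]
      show -deriv (W h) (-(-q)) < 0
      rw [neg_neg]
      linarith [H.Wq]
    · rw [hW, dneg]
      show 0 < -deriv (W h) (-(-p))
      rw [neg_neg]
      linarith [H.Wp]
  · intro n Z U hR
    refine ⟨?_, ?_, ?_⟩
    · have h1 := sysneg h n O Z U (Ioo a b) hR.sys
      intro z hz
      exact h1 z ⟨by linarith [hz.2], by linarith [hz.1]⟩
    · show Z (-(-q)) = 1
      rw [neg_neg]
      exact hR.one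
    · intro z hz
      have h1 := hR.bd (-z) ⟨by linarith [hz.2], by linarith [hz.1]⟩
      refine ⟨h1.1, h1.2.1, ?_⟩
      show 0 ≤ -U (-z)
      linarith [h1.2.2]
  · intro n Y V hL
    refine ⟨?_, ?_, ?_⟩
    · have h1 := sysneg (fun z => h (-z)) n O Y V (Ioo (-b) (-a)) hL.sys
      have h2 : (fun z => (fun z => h (-z)) (-z)) = h := by
        funext z
        show h (-(-z)) = h z
        rw [neg_neg]
      rw [h2] at h1
      intro z hz
      exact h1 z ⟨by linarith [hz.2], by linarith [hz.1]⟩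
    · exact hL.one
    · intro z hz
      have h1 := hL.bd (-z) ⟨by linarith [hz.2], by linarith [hz.1]⟩
      refine ⟨h1.1, h1.2.1, ?_⟩
      show -V (-z) ≤ 0
      linarith [h1.2.2]

end Pool.Agent.Lib.MP478c11.DB
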