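import Pool.Agent.Lib.MP_478c11_gt.DB.Spec

/-!
# MP_478c11, part DB, module ROT: the data at `d` rotate when `μ` moves
-/

set_option autoImplicit false

namespace Pool.Agent.Lib.MP478c11.DB

open Set Filter Topology MeasureTheory
open scoped ContDiff

namespace ROTM

lemma cda_deriv {f : ℝ → ℝ} {z : ℝ} (h : ContDiffAt ℝ ∞ f z) : ContDiffAt ℝ ∞ (deriv f) z := by
  have h1 : ContDiffAt ℝ ∞ (fderiv ℝ f) z := h.fderiv_right (by simp)
  exact h1.clm_apply contDiffAt_const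

lemma zero_left (f : ℝ → ℝ) (c : ℝ) (hf : Continuous f) (h : ∀ z < c, f z = 0) : f c = 0 := by
  have h1 : EqOn f (fun _ => 0) (closure (Iio c)) :=
    EqOn.closure (fun z hz => h z hz) hf continuous_const
  rw [closure_Iio] at h1
  exact h1 (show c ∈ Iic c from le_refl c)

lemma zero_right (f : ℝ → ℝ) (c : ℝ) (hf : Continuous f) (h : ∀ z > c, f z = 0) : f c = 0 := by
  have h1 : EqOn f (fun _ => 0) (closure (Ioi c)) :=
    EqOn.closure (fun z hz => h z hz) hf continuous_const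
  rw [closure_Ioi] at h1
  exact h1 (show c ∈ Ici c from le_refl c)

lemma bump_zero (κ : ℝ → ℝ) (c d : ℝ) (hB : Bump κ c d) :
    κ c = 0 ∧ deriv κ c = 0 ∧ κ d = 0 ∧ deriv κ d = 0 := by
  have hc : Continuous κ := hB.1.continuous
  have hc' : Continuous (deriv κ) := hB.1.continuous_deriv (by simp)
  have hl : ∀ z < c, κ z = 0 := fun z hz => hB.2 z fun h => absurd h.1 (not_le.2 hz)
  have hr : ∀ z > d, κ z = 0 := fun z hz => hB.2 z fun h => absurd h.2 (not_le.2 hz)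
  have hl' : ∀ z < c, deriv κ z = 0 := by
    intro z hz
    have h1 : κ =ᶠ[𝓝 z] fun _ => 0 := by
      filter_upwards [Iio_mem_nhds hz] with w hw
      exact hl w hw
    rw [h1.deriv_eq, deriv_const]
  have hr' : ∀ z > d, deriv κ z = 0 := by
    intro z hz
    have h1 : κ =ᶠ[𝓝 z] fun _ => 0 := by
      filter_upwards [Ioi_mem_nhds hz] with w hw
      exact hr w hw
    rw [h1.deriv_eq, deriv_const]
  exact ⟨zero_left κ c hc hl, zero_left _ c hc' hl', zero_right κ d hc hr,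
    zero_right _ d hc' hr'⟩

/-- the upper constant -/
noncomputable def cu (m M r r' : ℝ) : ℝ := 2 * (2 / r + |r'|) ^ 2 / √m + 2 * r ^ 2 * √M

/-- the lower constant -/
noncomputable def cl (m M r r' : ℝ) : ℝ := √M * r ^ 2 + 2 * r' ^ 2 / √m + 2 / (r ^ 2 * √m)

lemma cmp (m M r r' l n g y v : ℝ) (hm : 0 < m) (hmg : m ≤ g) (hgM : g ≤ M) (hr : 0 < r)
    (hl1 : 1 ≤ l) (hln : l ≤ n) (hnl : n ≤ 2 * l) :
    (n * |y| + |v|) ^ 2 ≤
      cu m M r r' * (l ^ 2 * √g * (r * y) ^ 2 + (r' * y + v / r) ^ 2 / √g) ∧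
    l ^ 2 * √g * (r * y) ^ 2 + (r' * y + v / r) ^ 2 / √g ≤
      cl m M r r' * (n * |y| + |v|) ^ 2 := by
  have hg0 : 0 < g := lt_of_lt_of_le hm hmg
  have hM0 : 0 < M := lt_of_lt_of_le hg0 hgM
  have sm : 0 < √m := Real.sqrt_pos.2 hm
  have sg : 0 < √g := Real.sqrt_pos.2 hg0
  have sM : 0 < √M := Real.sqrt_pos.2 hM0
  have smg : √m ≤ √g := Real.sqrt_le_sqrt hmg
  have sgM : √g ≤ √M := Real.sqrt_le_sqrt hgM
  have hl0 : 0 < l := by linarith
  have hn0 : 0 < n := by linarith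
  set B := r * y with hB
  set B₁ := r' * y + v / r with hB₁
  have hy : y = B / r := by rw [hB]; field_simp
  have hv : v = r * B₁ - r' * B := by rw [hB₁, hB]; field_simp; ring
  constructor
  · set E := l ^ 2 * √g * B ^ 2 + B₁ ^ 2 / √g with hE
    have e1 : l ^ 2 * B ^ 2 ≤ E / √m := by
      rw [le_div_iff₀ sm]
      have h1 : l ^ 2 * B ^ 2 * √m ≤ l ^ 2 * √g * B ^ 2 := by
        have := mul_le_mul_of_nonneg_left smg (show 0 ≤ l ^ 2 * B ^ 2 by positivity)
        linarith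
      have h2 : 0 ≤ B₁ ^ 2 / √g := by positivity
      linarith
    have e2 : B₁ ^ 2 ≤ √M * E := by
      have h1 : B₁ ^ 2 ≤ √M * (B₁ ^ 2 / √g) := by
        rw [← mul_div_assoc, le_div_iff₀ sg, mul_comm (√M)]
        exact mul_le_mul_of_nonneg_left sgM (by positivity)
      have h2 : 0 ≤ √M * (l ^ 2 * √g * B ^ 2) := by positivity
      have h3 : √M * E = √M * (l ^ 2 * √g * B ^ 2) + √M * (B₁ ^ 2 / √g) := by rw [hE]; ring
      linarith
    have hX : n * |y| + |v| ≤ (2 / r + |r'|) * (l * |B|) + r * |B₁| := by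
      have h1 : n * |y| ≤ 2 / r * (l * |B|) := by
        rw [hy, abs_div, abs_of_pos hr]
        have : n * (|B| / r) ≤ 2 * l * (|B| / r) :=
          mul_le_mul_of_nonneg_right hnl (by positivity)
        refine this.trans (le_of_eq ?_)
        ring
      have h2 : |v| ≤ r * |B₁| + |r'| * (l * |B|) := by
        rw [hv]
        refine (abs_sub _ _).trans ?_
        rw [abs_mul, abs_mul, abs_of_pos hr]
        have h3 : |B| ≤ l * |B| := by
          have := mul_le_mul_of_nonneg_right hl1 (abs_nonneg B)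
          linarith
        have h4 := mul_le_mul_of_nonneg_left h3 (abs_nonneg r')
        linarith
      linarith
    have hX0 : 0 ≤ n * |y| + |v| := by positivity
    have h5 := pow_le_pow_left₀ hX0 hX 2
    have h6 : ((2 / r + |r'|) * (l * |B|) + r * |B₁|) ^ 2 ≤
        2 * (2 / r + |r'|) ^ 2 * (l ^ 2 * B ^ 2) + 2 * r ^ 2 * B₁ ^ 2 := by
      have h7 := sq_nonneg ((2 / r + |r'|) * (l * |B|) - r * |B₁|)
      have h8 : |B| ^ 2 = B ^ 2 := sq_abs B
      have h9 : |B₁| ^ 2 = B₁ ^ 2 := sq_abs B₁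
      have h10 : 2 * (2 / r + |r'|) ^ 2 * (l ^ 2 * B ^ 2) + 2 * r ^ 2 * B₁ ^ 2 =
          2 * ((2 / r + |r'|) * (l * |B|)) ^ 2 + 2 * (r * |B₁|) ^ 2 := by
        rw [← h8, ← h9]
        ring
      rw [h10]
      nlinarith
    have h7 : 2 * (2 / r + |r'|) ^ 2 * (l ^ 2 * B ^ 2) ≤ 2 * (2 / r + |r'|) ^ 2 * (E / √m) :=
      mul_le_mul_of_nonneg_left e1 (by positivity)
    have h8 : 2 * r ^ 2 * B₁ ^ 2 ≤ 2 * r ^ 2 * (√M * E) :=
      mul_le_mul_of_nonneg_left e2 (by positivity)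
    have h9 : cu m M r r' * E =
        2 * (2 / r + |r'|) ^ 2 * (E / √m) + 2 * r ^ 2 * (√M * E) := by
      unfold cu
      ring
    rw [h9]
    linarith
  · set X := n * |y| + |v| with hX
    have hX1 : (n * y) ^ 2 ≤ X ^ 2 := by
      rw [← sq_abs (n * y), abs_mul, abs_of_pos hn0]
      exact pow_le_pow_left₀ (by positivity) (by rw [hX]; linarith [abs_nonneg v]) 2
    have hX2 : v ^ 2 ≤ X ^ 2 := by
      rw [← sq_abs v]
      refine pow_le_pow_left₀ (abs_nonneg _) ?_ 2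
      have : 0 ≤ n * |y| := by positivity
      rw [hX]
      linarith
    have hy2 : y ^ 2 ≤ (n * y) ^ 2 := by
      rw [mul_pow]
      have h1 : 1 ≤ n ^ 2 := one_le_pow₀ (by linarith)
      have := mul_le_mul_of_nonneg_right h1 (sq_nonneg y)
      linarith
    have e1 : l ^ 2 * √g * B ^ 2 ≤ √M * r ^ 2 * X ^ 2 := by
      have h1 : l ^ 2 ≤ n ^ 2 := pow_le_pow_left₀ hl0.le hln 2
      have h2 : l ^ 2 * √g ≤ n ^ 2 * √M := mul_le_mul h1 sgM sg.le (by positivity)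
      have h3 := mul_le_mul_of_nonneg_right h2 (sq_nonneg B)
      have h4 : n ^ 2 * √M * B ^ 2 = √M * r ^ 2 * (n * y) ^ 2 := by rw [hB]; ring
      have h5 := mul_le_mul_of_nonneg_left hX1 (show 0 ≤ √M * r ^ 2 by positivity)
      linarith
    have e2 : B₁ ^ 2 ≤ 2 * r' ^ 2 * X ^ 2 + 2 / r ^ 2 * X ^ 2 := by
      have h1 : B₁ ^ 2 ≤ 2 * (r' * y) ^ 2 + 2 * (v / r) ^ 2 := by
        rw [hB₁]
        nlinarith [sq_nonneg (r' * y - v / r)]
      have h2 : 2 * (r' * y) ^ 2 ≤ 2 * r' ^ 2 * X ^ 2 := by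
        have := mul_le_mul_of_nonneg_left (hy2.trans hX1) (show 0 ≤ 2 * r' ^ 2 by positivity)
        calc 2 * (r' * y) ^ 2 = 2 * r' ^ 2 * y ^ 2 := by ring
          _ ≤ _ := this
      have h3 : 2 * (v / r) ^ 2 ≤ 2 / r ^ 2 * X ^ 2 := by
        have := mul_le_mul_of_nonneg_left hX2 (show 0 ≤ 2 / r ^ 2 by positivity)
        calc 2 * (v / r) ^ 2 = 2 / r ^ 2 * v ^ 2 := by ring
          _ ≤ _ := this
      linarith
    have e3 : B₁ ^ 2 / √g ≤ (2 * r' ^ 2 * X ^ 2 + 2 / r ^ 2 * X ^ 2) / √m :=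
      div_le_div₀ (by positivity) e2 sm smg
    have e4 : cl m M r r' * X ^ 2 =
        √M * r ^ 2 * X ^ 2 + (2 * r' ^ 2 * X ^ 2 + 2 / r ^ 2 * X ^ 2) / √m := by
      unfold cl
      field_simp
      ring
    rw [e4]
    linarith

lemma cu_nonneg (m M r r' : ℝ) : 0 ≤ cu m M r r' := by unfold cu; positivity
lemma cl_nonneg (m M r r' : ℝ) : 0 ≤ cl m M r r' := by unfold cl; positivity

end ROTM

open ROTM in
theorem specROT (hOSC : SpecOSC) (hGBD : SpecGBD) (hBTR : SpecBTR) : SpecROT := by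
  intro h κ c d hcd hh hB hpos hgam
  obtain ⟨m, M, γ, μ₁, hm, hγ, hμ₁, hgbd⟩ := hGBD h κ c d hcd hh hB hpos hgam
  obtain ⟨l₀, c₀, c₁, hl₀, hc₀, hc₁, hosc⟩ := hOSC m M (d - c) γ hm (by linarith) hγ
  obtain ⟨hκc, hκc', hκd, hκd'⟩ := bump_zero κ c d hB
  have hcm : c ∈ Icc c d := ⟨le_refl c, hcd.le⟩
  have hdm : d ∈ Icc c d := ⟨hcd.le, le_refl d⟩
  have hrc : 0 < √(h c) := Real.sqrt_pos.2 (hpos c hcm).1
  have hrd : 0 < √(h d) := Real.sqrt_pos.2 (hpos d hdm).1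
  set rc := √(h c) with hrcdef
  set rd := √(h d) with hrddef
  set rc' := deriv (fun z => √(h z)) c with hrc'def
  set rd' := deriv (fun z => √(h z)) d with hrd'def
  set Q : ℝ := 1 + cu m M rc rc' + cl m M rc rc' + cu m M rd rd' + cl m M rd rd' with hQ
  have q1 := cu_nonneg m M rc rc'
  have q2 := cl_nonneg m M rc rc'
  have q3 := cu_nonneg m M rd rd'
  have q4 := cl_nonneg m M rd rd'
  have hQ1 : 1 ≤ Q := by rw [hQ]; linarith
  have hQ0 : 0 < Q := by linarith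
  set c₂ : ℝ := min c₁ 1 / Q with hc₂
  have hmin0 : 0 < min c₁ 1 := lt_min hc₁ one_pos
  have hc₂0 : 0 < c₂ := by positivity
  -- one application of OSC
  have key : ∀ n : ℕ, max 2 ⌈2 * l₀⌉₊ ≤ n → ∀ μ μ' : ℝ, |μ| ≤ μ₁ → |μ'| ≤ μ₁ →
      |μ - μ'| ≤ c₀ / n → ∀ y v y₁ v₁ : ℝ → ℝ, Sys (pert h κ μ) n O y v (Icc c d) →
      Sys (pert h κ μ') n O y₁ v₁ (Icc c d) → y c = y₁ c → v c = v₁ c →
      ∃ Ec Ed : ℝ, (n * |y c| + |v c|) ^ 2 ≤ Q * Ec ∧ Ed ≤ Q * (n * |y d| + |v d|) ^ 2 ∧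
        (n * |y d| + |v d|) ^ 2 ≤ Q * Ed ∧ c₁ * Ec ≤ Ed ∧
        c₁ * |μ - μ'| * Ed ≤ |y d * v₁ d - v d * y₁ d| := by
    intro n hn μ μ' hμ hμ' hμμ y v y₁ v₁ hS hS' hyc hvc
    have hn2 : 2 ≤ n := le_trans (le_max_left _ _) hn
    have hnr : (2 : ℝ) ≤ n := by exact_mod_cast hn2
    have hnl0 : 2 * l₀ ≤ n := by
      refine (Nat.le_ceil _).trans ?_
      exact_mod_cast le_trans (le_max_right _ _) hn
    set l : ℝ := √((n : ℝ) ^ 2 - 1) with hl
    have hl2 : l ^ 2 = (n : ℝ) ^ 2 - 1 := by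
      rw [hl, Real.sq_sqrt]
      nlinarith
    have hlnn : 0 ≤ l := Real.sqrt_nonneg _
    have hln : l ≤ n := by
      rw [hl]
      refine Real.sqrt_le_iff.2 ⟨by linarith, by linarith⟩
    have hnl : (n : ℝ) ≤ 2 * l := by
      have h1 : (n : ℝ) ^ 2 ≤ (2 * l) ^ 2 := by
        rw [mul_pow, hl2]
        nlinarith
      exact (abs_le_of_sq_le_sq' h1 (by linarith)).2
    have hl1 : 1 ≤ l := by linarith
    obtain ⟨hz, hint⟩ := hgbd μ μ' hμ hμ'
    obtain ⟨hz', -⟩ := hgbd μ' μ hμ' hμ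
    have hOsc1 : Osc m M c d l (gm h κ μ) (deriv (gm h κ μ)) (deriv (deriv (gm h κ μ)))
        (fun z => (√(h z) + μ * κ z) * y z)
        (fun z => (deriv (fun z => √(h z)) z + μ * deriv κ z) * y z +
          v z / (√(h z) + μ * κ z)) := by
      have hbtr := hBTR h κ c d μ hh hB.1 (fun z hzz => ⟨(hpos z hzz).1,
        lt_of_lt_of_le hm (hz z hzz).1⟩) n y v hS
      refine ⟨hm, hcd, hl1, ?_, ?_, ?_, ?_⟩
      · intro z hzz
        obtain ⟨-, -, -, a1, a2, a3, a4, -⟩ := hz z hzz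
        exact ⟨a1, a2, a3, a4⟩
      · intro z hzz
        have a1 := (hz z hzz).2.1
        exact ⟨(a1.differentiableAt (by simp)).hasDerivAt,
          ((cda_deriv a1).differentiableAt (by simp)).hasDerivAt⟩
      · intro z hzz
        exact (cda_deriv (cda_deriv (hz z hzz).2.1)).continuousAt.continuousWithinAt
      · intro z hzz
        rw [hl2]
        exact hbtr z hzz
    have hOsc2 : Osc m M c d l (gm h κ μ') (deriv (gm h κ μ')) (deriv (deriv (gm h κ μ')))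
        (fun z => (√(h z) + μ' * κ z) * y₁ z)
        (fun z => (deriv (fun z => √(h z)) z + μ' * deriv κ z) * y₁ z +
          v₁ z / (√(h z) + μ' * κ z)) := by
      have hbtr := hBTR h κ c d μ' hh hB.1 (fun z hzz => ⟨(hpos z hzz).1,
        lt_of_lt_of_le hm (hz' z hzz).1⟩) n y₁ v₁ hS'
      refine ⟨hm, hcd, hl1, ?_, ?_, ?_, ?_⟩
      · intro z hzz
        obtain ⟨-, -, -, a1, a2, a3, a4, -⟩ := hz' z hzz
        exact ⟨a1, a2, a3, a4⟩
      · intro z hzz
        have a1 := (hz' z hzz).2.1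
        exact ⟨(a1.differentiableAt (by simp)).hasDerivAt,
          ((cda_deriv a1).differentiableAt (by simp)).hasDerivAt⟩
      · intro z hzz
        exact (cda_deriv (cda_deriv (hz' z hzz).2.1)).continuousAt.continuousWithinAt
      · intro z hzz
        rw [hl2]
        exact hbtr z hzz
    obtain ⟨σ, hσ1, hσ2⟩ : ∃ σ : ℝ, |σ| = 1 ∧ |μ - μ'| * σ = μ' - μ := by
      rcases le_total μ μ' with hle | hle
      · refine ⟨1, abs_one, ?_⟩
        rw [abs_of_nonpos (by linarith)]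
        ring
      · refine ⟨-1, by rw [abs_neg, abs_one], ?_⟩
        rw [abs_of_nonneg (by linarith)]
        ring
    have hcomp := hosc c d l |μ - μ'| _ _ _ _ _ _ _ _ _ _
      (fun z => σ * fm h κ μ μ' z) (fun z => σ * deriv (fm h κ μ μ') z) hOsc1 hOsc2 (le_refl _)
      (abs_nonneg _) (by linarith) ?_ ?_ ?_ ?_ ?_ ?_ ?_
    · obtain ⟨g1, g2, -⟩ := hcomp
      refine ⟨_, _, ?_, ?_, ?_, g2, ?_⟩
      · obtain ⟨-, -, -, a1, a2, -, -, -⟩ := hz c hcm
        have h1 := (cmp m M rc rc' l n (gm h κ μ c) (y c) (v c) hm a1 a2 hrc hl1 hln hnl).1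
        have h2 : En l (gm h κ μ) (fun z => (√(h z) + μ * κ z) * y z)
            (fun z => (deriv (fun z => √(h z)) z + μ * deriv κ z) * y z +
              v z / (√(h z) + μ * κ z)) c = l ^ 2 * √(gm h κ μ c) * (rc * y c) ^ 2 +
                (rc' * y c + v c / rc) ^ 2 / √(gm h κ μ c) := by
          unfold En
          simp only [hκc, hκc', mul_zero, add_zero]
          rfl
        rw [h2]
        refine h1.trans (mul_le_mul_of_nonneg_right ?_ (by positivity))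
        rw [hQ]
        linarith
      · obtain ⟨-, -, -, a1, a2, -, -, -⟩ := hz d hdm
        have h1 := (cmp m M rd rd' l n (gm h κ μ d) (y d) (v d) hm a1 a2 hrd hl1 hln hnl).2
        have h2 : En l (gm h κ μ) (fun z => (√(h z) + μ * κ z) * y z)
            (fun z => (deriv (fun z => √(h z)) z + μ * deriv κ z) * y z +
              v z / (√(h z) + μ * κ z)) d = l ^ 2 * √(gm h κ μ d) * (rd * y d) ^ 2 +
                (rd' * y d + v d / rd) ^ 2 / √(gm h κ μ d) := by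
          unfold En
          simp only [hκd, hκd', mul_zero, add_zero]
          rfl
        rw [h2]
        refine h1.trans (mul_le_mul_of_nonneg_right ?_ (by positivity))
        rw [hQ]
        linarith
      · obtain ⟨-, -, -, a1, a2, -, -, -⟩ := hz d hdm
        have h1 := (cmp m M rd rd' l n (gm h κ μ d) (y d) (v d) hm a1 a2 hrd hl1 hln hnl).1
        have h2 : En l (gm h κ μ) (fun z => (√(h z) + μ * κ z) * y z)
            (fun z => (deriv (fun z => √(h z)) z + μ * deriv κ z) * y z +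
              v z / (√(h z) + μ * κ z)) d = l ^ 2 * √(gm h κ μ d) * (rd * y d) ^ 2 +
                (rd' * y d + v d / rd) ^ 2 / √(gm h κ μ d) := by
          unfold En
          simp only [hκd, hκd', mul_zero, add_zero]
          rfl
        rw [h2]
        refine h1.trans (mul_le_mul_of_nonneg_right ?_ (by positivity))
        rw [hQ]
        linarith
      · refine g1.trans (le_of_eq ?_)
        congr 1
        simp only [hκd, hκd', mul_zero, add_zero]
        rw [← hrddef, ← hrd'def]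
        field_simp
        ring
    · -- `l η ≤ c₀`
      have hn0 : (0 : ℝ) < n := by linarith
      have h1 : l * |μ - μ'| ≤ n * (c₀ / n) :=
        mul_le_mul hln hμμ (abs_nonneg _) hn0.le
      rwa [mul_div_cancel₀ _ hn0.ne'] at h1
    · intro z hzz
      have h1 := (hz z hzz).2.2.2.2.2.2.2.2.2
      rw [h1, ← hσ2]
      ring
    · intro z hzz
      obtain ⟨-, -, a1, -, -, -, -, a2, a3, -⟩ := hz z hzz
      refine ⟨((a1.differentiableAt (by simp)).hasDerivAt).const_mul σ, ?_, ?_⟩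
      · rw [abs_mul, hσ1, one_mul]
        exact a2
      · rw [abs_mul, hσ1, one_mul]
        exact a3
    · intro z hzz
      exact ((cda_deriv (hz z hzz).2.2.1).continuousAt.const_mul σ).continuousWithinAt
    · have h1 : ∀ z, σ * fm h κ μ μ' z / √(gm h κ μ z) =
          σ * (fm h κ μ μ' z / √(gm h κ μ z)) := fun z => by ring
      simp only [h1]
      rw [intervalIntegral.integral_const_mul, abs_mul, hσ1, one_mul]
      exact hint
    · simp only [hκc, mul_zero, add_zero]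
      rw [hyc]
    · simp only [hκc, hκc', mul_zero, add_zero]
      rw [hyc, hvc]
  refine ⟨max 2 ⌈2 * l₀⌉₊, c₀, c₂, μ₁, hc₀, hc₂0, hμ₁, ?_⟩
  intro n hn μ μ' hμ hμ' hμμ y v y₁ v₁ hS hS' hyc hvc
  obtain ⟨Ec, Ed, a1, a2, a3, a4, a5⟩ := key n hn μ μ' hμ hμ' hμμ y v y₁ v₁ hS hS' hyc hvc
  obtain ⟨Ec', Ed', b1, b2, b3, b4, b5⟩ := key n hn μ' μ hμ' hμ (by rw [abs_sub_comm]; exact hμμ)
    y₁ v₁ y v hS' hS hyc.symm hvc.symm
  have hw : |y₁ d * v d - v₁ d * y d| = |y d * v₁ d - v d * y₁ d| := by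
    rw [show y₁ d * v d - v₁ d * y d = -(y d * v₁ d - v d * y₁ d) by ring, abs_neg]
  rw [hw, abs_sub_comm μ' μ] at b5
  have hmin1 : min c₁ 1 ≤ c₁ := min_le_left _ _
  have hmin2 : min c₁ 1 ≤ 1 := min_le_right _ _
  have hc₂Q : c₂ * Q = min c₁ 1 := by
    rw [hc₂]
    field_simp
  -- comparison of the data
  have cmp2 : ∀ X Xd Ec Ed : ℝ, 0 ≤ X → 0 ≤ Xd → X ^ 2 ≤ Q * Ec → Ed ≤ Q * Xd ^ 2 →
      c₁ * Ec ≤ Ed → c₂ * X ≤ Xd := by
    intro X Xd Ec Ed hX hXd h1 h2 h3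
    have h4 : (c₂ * X) ^ 2 ≤ Xd ^ 2 := by
      have h5 : (min c₁ 1) ^ 2 ≤ c₁ := by nlinarith
      have h6 : (c₂ * X) ^ 2 ≤ c₂ ^ 2 * (Q * Ec) := by
        rw [mul_pow]
        exact mul_le_mul_of_nonneg_left h1 (sq_nonneg _)
      have hEc : 0 ≤ Ec := by
        have h7 : 0 ≤ Q * Ec := le_trans (sq_nonneg X) h1
        exact nonneg_of_mul_nonneg_right h7 hQ0
      have h7 : Q * (c₂ ^ 2 * (Q * Ec)) = (min c₁ 1) ^ 2 * Ec := by
        rw [← hc₂Q]
        ring
      have h8 : (min c₁ 1) ^ 2 * Ec ≤ c₁ * Ec := mul_le_mul_of_nonneg_right h5 hEc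
      have h9 : Q * (c₂ ^ 2 * (Q * Ec)) ≤ Q * Xd ^ 2 := by
        rw [h7]
        linarith
      exact h6.trans (le_of_mul_le_mul_left h9 hQ0)
    exact (abs_le_of_sq_le_sq' h4 hXd).2
  refine ⟨?_, ?_, ?_⟩
  · set X := (n : ℝ) * |y d| + |v d| with hX
    set X₁ := (n : ℝ) * |y₁ d| + |v₁ d| with hX₁
    set η := |μ - μ'| with hη
    set w := |y d * v₁ d - v d * y₁ d| with hwd
    have hη0 : 0 ≤ η := abs_nonneg _
    have h1 : X * X₁ ≤ Q * ((Ed + Ed') / 2) := by nlinarith [sq_nonneg (X - X₁)]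
    have h2 : c₂ * η * (X * X₁) ≤ c₂ * η * (Q * ((Ed + Ed') / 2)) :=
      mul_le_mul_of_nonneg_left h1 (by positivity)
    have h3 : c₂ * η * (Q * ((Ed + Ed') / 2)) = min c₁ 1 * (η * ((Ed + Ed') / 2)) := by
      rw [← hc₂Q]
      ring
    have hEd : 0 ≤ Ed := nonneg_of_mul_nonneg_right (le_trans (sq_nonneg _) a3) hQ0
    have hEd' : 0 ≤ Ed' := nonneg_of_mul_nonneg_right (le_trans (sq_nonneg _) b3) hQ0
    have h4 : min c₁ 1 * (η * ((Ed + Ed') / 2)) ≤ c₁ * (η * ((Ed + Ed') / 2)) :=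
      mul_le_mul_of_nonneg_right hmin1 (by positivity)
    have h5 : c₁ * (η * ((Ed + Ed') / 2)) = (c₁ * η * Ed + c₁ * η * Ed') / 2 := by ring
    linarith
  · exact cmp2 _ _ Ec Ed (by positivity) (by positivity) a1 a2 a4
  · exact cmp2 _ _ Ec' Ed' (by positivity) (by positivity) b1 b2 b4

end Pool.Agent.Lib.MP478c11.DB
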