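import Pool.Agent.Lib.MP_478c11_gt.DB.Spec

/-!
# MP_478c11_gt, module SML: finitely many `n`
-/

set_option autoImplicit false

namespace Pool.Agent.Lib.MP478c11.DB

open Set Filter Topology MeasureTheory
open scoped ContDiff

noncomputable section

namespace SMLM

theorem near_self {h : ℝ → ℝ} {a p q b s : ℝ} (hD : Dumb h a p q b) (hs : p < s) (N : ℕ)
    {δ : ℝ} (hδ : 0 < δ) : Near h h a p q b s N δ := by
  refine ⟨hD, ⟨p + (s - p) / 3, p + 2 * (s - p) / 3, by linarith, by linarith, by linarith,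
    fun z _ => rfl⟩, fun i _ z => ?_⟩
  have e : (fun z => h z - h z) = fun _ : ℝ => (0 : ℝ) := by
    funext z
    exact sub_self _
  rw [e]
  have h1 : iteratedDeriv i (fun _ : ℝ => (0 : ℝ)) z = 0 := by
    rw [iteratedDeriv_const]
    split_ifs <;> rfl
  rw [h1, abs_zero]
  exact hδ.le

theorem near_mono {h h₁ : ℝ → ℝ} {a p q b s : ℝ} {N : ℕ} {δ δ' : ℝ} (hδ : δ ≤ δ')
    (hN : Near h h₁ a p q b s N δ) : Near h h₁ a p q b s N δ' :=
  ⟨hN.1, hN.2.1, fun i hi z => (hN.2.2 i hi z).trans hδ⟩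

theorem pert_zero (h κ : ℝ → ℝ) (μ z : ℝ) (hz : κ z = 0) : pert h κ μ z = h z := by
  unfold pert
  rw [hz]
  ring

theorem pert_zero' (h : ℝ → ℝ) : pert h (fun _ => 0) 0 = h := by
  funext z
  exact pert_zero h _ 0 z rfl

theorem bump_zero (c d : ℝ) : Bump (fun _ => 0) c d := ⟨contDiff_const, fun _ _ => rfl⟩

/-- left and right solutions exist -/
theorem sol_ex (hREF : SpecREF) (hLEX : SpecLEX) {h : ℝ → ℝ} {a p q b : ℝ}
    (hD : Dumb h a p q b) (n : ℕ) (hn : 1 ≤ n) :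
    (∃ Y V : ℝ → ℝ, LeftSol h a p b n Y V) ∧ ∃ Z U : ℝ → ℝ, RightSol h a q b n Z U := by
  refine ⟨hLEX h a p q b hD n hn, ?_⟩
  obtain ⟨h1, -, -, -, h5⟩ := hREF h a p q b hD
  obtain ⟨Y, V, hYV⟩ := hLEX _ _ _ _ _ h1 n hn
  exact ⟨_, _, h5 n Y V hYV⟩

/-- the Wronskian does not depend on the choice of the solutions -/
theorem wro_ne (hCNT : SpecCNT) {h : ℝ → ℝ} {a p q b : ℝ} (hD : Dumb h a p q b) (n : ℕ)
    (hn : 1 ≤ n) {Y V Z U : ℝ → ℝ} (hY : LeftSol h a p b n Y V) (hZ : RightSol h a q b n Z U)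
    (hne : Y q * U q - V q * Z q ≠ 0) : ∀ Y₁ V₁ Z₁ U₁ : ℝ → ℝ, LeftSol h a p b n Y₁ V₁ →
      RightSol h a q b n Z₁ U₁ → Y₁ q * U₁ q - V₁ q * Z₁ q ≠ 0 := by
  have hpq := hD.pq
  obtain ⟨μ₀, hμ₀, hall⟩ := hCNT h (fun _ => 0) a p q b (p + (q - p) / 3) (p + 2 * (q - p) / 3) hD
    (by linarith) (by linarith) (by linarith) (bump_zero _ _) n hn Y V Z U hY hZ hne
  have h1 := hall 0 (by rw [abs_zero]; exact hμ₀.le)
  rw [pert_zero'] at h1
  exact h1

/-- finitely many Wronskians stay different from `0` -/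
theorem fin_wro (hREF : SpecREF) (hLEX : SpecLEX) (hCNT : SpecCNT) {h κ : ℝ → ℝ}
    {a p q b c d : ℝ} (hD : Dumb h a p q b) (hc : p < c) (hcd : c < d) (hd : d < q)
    (hκ : Bump κ c d) (n₁ : ℕ)
    (hn : ∀ n : ℕ, 2 ≤ n → n < n₁ → ∀ Y V Z U : ℝ → ℝ, LeftSol h a p b n Y V →
      RightSol h a q b n Z U → Y q * U q - V q * Z q ≠ 0) :
    ∃ μ₁ : ℝ, 0 < μ₁ ∧ ∀ n : ℕ, 2 ≤ n → n < n₁ → ∀ μ : ℝ, |μ| ≤ μ₁ → ∀ Y V Z U : ℝ → ℝ,
      LeftSol (pert h κ μ) a p b n Y V → RightSol (pert h κ μ) a q b n Z U →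
      Y q * U q - V q * Z q ≠ 0 := by
  induction n₁ with
  | zero => exact ⟨1, one_pos, fun n _ h0 => absurd h0 (Nat.not_lt_zero n)⟩
  | succ k ih =>
    obtain ⟨μ₁, hμ₁, h1⟩ := ih fun n hn2 hnk => hn n hn2 (Nat.lt_succ_of_lt hnk)
    rcases Nat.lt_or_ge k 2 with hk | hk
    · refine ⟨μ₁, hμ₁, fun n hn2 hnk => ?_⟩
      omega
    · obtain ⟨⟨Y, V, hY⟩, Z, U, hZ⟩ := sol_ex hREF hLEX hD k (by omega)
      obtain ⟨μ₂, hμ₂, h2⟩ := hCNT h κ a p q b c d hD hc hcd hd hκ k (by omega) Y V Z U hY hZ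
        (hn k hk (Nat.lt_succ_self k) Y V Z U hY hZ)
      refine ⟨min μ₁ μ₂, lt_min hμ₁ hμ₂, fun n hn2 hnk μ hμ => ?_⟩
      rcases Nat.lt_or_ge n k with hlt | hge
      · exact h1 n hn2 hlt μ (hμ.trans (min_le_left _ _))
      · have hnk' : n = k := by omega
        rw [hnk']
        exact h2 μ (hμ.trans (min_le_right _ _))

end SMLM

open SMLM in
theorem specSML (hREF : SpecREF) (hLEX : SpecLEX) (hPD : SpecPD) (hCNT : SpecCNT)
    (hSTB : SpecSTB) : SpecSML := by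
  intro h a p q b s hD hps hsq N n₁
  induction n₁ with
  | zero =>
    intro δ hδ
    exact ⟨h, near_self hD hps N hδ, fun n _ h0 => absurd h0 (Nat.not_lt_zero n)⟩
  | succ k ih =>
    intro δ hδ
    obtain ⟨h₁, hN, h1⟩ := ih (δ / 2) (by linarith)
    have hD₁ : Dumb h₁ a p q b := hN.1
    rcases Nat.lt_or_ge k 2 with hk | hk
    · refine ⟨h₁, near_mono (by linarith) hN, fun n hn2 hnk => ?_⟩
      omega
    · obtain ⟨⟨Y, V, hY⟩, Z, U, hZ⟩ := sol_ex hREF hLEX hD₁ k (by omega)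
      by_cases hW : Y q * U q - V q * Z q = 0
      · obtain ⟨κ, c', d', μ₀, hc', hcd', hd', hdq', hκ, hμ₀, h2⟩ :=
          hSTB h₁ a p q b s hD₁ hps k hk Y V Z U hY hZ hW
        obtain ⟨μ₁, hμ₁, h3⟩ := fin_wro hREF hLEX hCNT hD₁ hc' hcd' hdq' hκ k h1
        obtain ⟨μ₂, hμ₂, h4⟩ := hPD h₁ κ a p q b c' d' hD₁ hc' hcd' hdq' hκ N (δ / 2)
          (by linarith)
        set μ : ℝ := min μ₀ (min μ₁ μ₂) with hμ
        have hμp : 0 < μ := lt_min hμ₀ (lt_min hμ₁ hμ₂)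
        have hμa : |μ| = μ := abs_of_pos hμp
        have hle0 : μ ≤ μ₀ := min_le_left _ _
        have hle1 : |μ| ≤ μ₁ := by
          rw [hμa]
          exact (min_le_right _ _).trans (min_le_left _ _)
        have hle2 : |μ| ≤ μ₂ := by
          rw [hμa]
          exact (min_le_right _ _).trans (min_le_right _ _)
        obtain ⟨hD₂, -, hsm, hit⟩ := h4 μ hle2
        refine ⟨pert h₁ κ μ, ⟨hD₂, ?_, ?_⟩, ?_⟩
        · obtain ⟨c, d, hc, hcd, hd, he⟩ := hN.2.1
          refine ⟨min c c', max d d', lt_min hc hc', ?_, max_lt hd hd', fun z hz => ?_⟩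
          · exact (min_le_left _ _).trans_lt (hcd.trans_le (le_max_left _ _))
          · have hz1 : z ∉ Icc c d := fun h5 =>
              hz ⟨(min_le_left _ _).trans h5.1, h5.2.trans (le_max_left _ _)⟩
            have hz2 : z ∉ Icc c' d' := fun h5 =>
              hz ⟨(min_le_right _ _).trans h5.1, h5.2.trans (le_max_right _ _)⟩
            rw [pert_zero h₁ κ μ z (hκ.2 z hz2), he z hz1]
        · intro i hi z
          have e : (fun z => pert h₁ κ μ z - h z) =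
              fun z => (pert h₁ κ μ z - h₁ z) + (h₁ z - h z) := by
            funext z
            ring
          have hs1 : ContDiffAt ℝ i (fun z => pert h₁ κ μ z - h₁ z) z :=
            ((hsm.sub hD₁.smooth).of_le (by exact_mod_cast le_top)).contDiffAt
          have hs2 : ContDiffAt ℝ i (fun z => h₁ z - h z) z :=
            ((hD₁.smooth.sub hD.smooth).of_le (by exact_mod_cast le_top)).contDiffAt
          rw [e, iteratedDeriv_fun_add hs1 hs2]
          have h5 := hit i hi z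
          have h6 := hN.2.2 i hi z
          calc |iteratedDeriv i (fun z => pert h₁ κ μ z - h₁ z) z +
                iteratedDeriv i (fun z => h₁ z - h z) z| ≤ _ := abs_add_le _ _
            _ ≤ δ := by linarith
        · intro n hn2 hnk
          rcases Nat.lt_or_ge n k with hlt | hge
          · exact h3 n hn2 hlt μ hle1
          · have hnk' : n = k := by omega
            rw [hnk']
            exact h2 μ hμp hle0
      · refine ⟨h₁, near_mono (by linarith) hN, fun n hn2 hnk => ?_⟩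
        rcases Nat.lt_or_ge n k with hlt | hge
        · exact h1 n hn2 hlt
        · have hnk' : n = k := by omega
          rw [hnk']
          exact wro_ne hCNT hD₁ k (by omega) hY hZ hW

end

end Pool.Agent.Lib.MP478c11.DB
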