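import Pool.Agent.Lib.MP_478c11_gt.DB.Spec

/-!
# MP_478c11, module SQR: `W` in terms of `r = √h`
-/

set_option autoImplicit false

namespace Pool.Agent.Lib.MP478c11.DB

open Set Filter Topology MeasureTheory
open scoped ContDiff

namespace SQRM

theorem ev_diff {r : ℝ → ℝ} {z : ℝ} (hr : ContDiffAt ℝ 2 r z) :
    ∀ᶠ y in 𝓝 z, DifferentiableAt ℝ r y := by
  filter_upwards [hr.eventually (by simp)] with y hy
  exact hy.differentiableAt (by simp)

theorem diff_deriv {r : ℝ → ℝ} {z : ℝ} (hr : ContDiffAt ℝ 2 r z) :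
    DifferentiableAt ℝ (deriv r) z := by
  have h1 : ContDiffAt ℝ 1 (deriv r) z := hr.derivWithin (by norm_num)
  exact h1.differentiableAt (by simp)

theorem W_sq {r H : ℝ → ℝ} {z : ℝ} (hr : ContDiffAt ℝ 2 r z)
    (hH : H =ᶠ[𝓝 z] fun y => r y ^ 2) :
    W H z = -(r z) ^ 3 * deriv (deriv r) z := by
  have h1 : deriv H =ᶠ[𝓝 z] fun y => 2 * r y * deriv r y := by
    filter_upwards [hH.eventuallyEq_nhds, ev_diff hr] with y hy hd
    rw [hy.deriv_eq]
    have h2 := (hd.hasDerivAt.pow 2).deriv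
    rw [show (fun y => r y ^ 2) = r ^ 2 from rfl, h2]
    norm_num
  have h3 : deriv (deriv H) z = 2 * deriv r z * deriv r z + 2 * r z * deriv (deriv r) z := by
    rw [h1.deriv_eq]
    have h4 : HasDerivAt r (deriv r z) z := (ev_diff hr).self_of_nhds.hasDerivAt
    have h5 : HasDerivAt (deriv r) (deriv (deriv r) z) z := (diff_deriv hr).hasDerivAt
    exact ((h4.const_mul 2).mul h5).deriv
  unfold W
  rw [h3, h1.eq_of_nhds, hH.eq_of_nhds]
  ring

end SQRM

theorem specSQR : SpecSQR := by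
  refine ⟨?_, ?_⟩
  · intro h z hh hz
    have h1 : ContDiffAt ℝ ∞ (fun z => √(h z)) z := hh.contDiffAt.sqrt hz.ne'
    refine ⟨h1, ?_⟩
    have h2 : ∀ᶠ y in 𝓝 z, 0 < h y := (hh.continuous.tendsto z).eventually_const_lt hz
    refine SQRM.W_sq (r := fun z => √(h z)) (h1.of_le (by norm_cast)) ?_
    filter_upwards [h2] with y hy
    exact (Real.sq_sqrt hy.le).symm
  · intro h κ μ z hh hκ hz hμ
    have h1 : ContDiffAt ℝ ∞ (fun z => √(h z)) z := hh.contDiffAt.sqrt hz.ne'
    have h1' : ContDiffAt ℝ 2 (fun z => √(h z)) z := h1.of_le (by norm_cast)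
    have h2 : ∀ᶠ y in 𝓝 z, 0 < h y := (hh.continuous.tendsto z).eventually_const_lt hz
    have hp : ∀ y, 0 ≤ h y → pert h κ μ y = (√(h y) + μ * κ y) ^ 2 := by
      intro y hy
      unfold pert
      have h3 := Real.sq_sqrt hy
      nlinarith [h3]
    refine ⟨hp z hz.le, ?_⟩
    have hκ' : ContDiff ℝ 2 κ := hκ.of_le (by norm_cast)
    have hr : ContDiffAt ℝ 2 (fun y => √(h y) + μ * κ y) z :=
      h1'.add (contDiffAt_const.mul hκ'.contDiffAt)
    have h4 := SQRM.W_sq (r := fun y => √(h y) + μ * κ y) (H := pert h κ μ) hr (by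
      filter_upwards [h2] with y hy
      exact hp y hy.le)
    rw [h4]
    have h5 : deriv (fun y => √(h y) + μ * κ y) =ᶠ[𝓝 z]
        fun y => deriv (fun z => √(h z)) y + μ * deriv κ y := by
      filter_upwards [SQRM.ev_diff h1'] with y hy
      have h6 : HasDerivAt κ (deriv κ y) y :=
        (hκ'.differentiable (by simp) y).hasDerivAt
      exact (hy.hasDerivAt.add (h6.const_mul μ)).deriv
    have h7 : deriv (deriv fun y => √(h y) + μ * κ y) z =
        deriv (deriv fun z => √(h z)) z + μ * deriv (deriv κ) z := by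
      rw [h5.deriv_eq]
      have h8 : HasDerivAt (deriv fun z => √(h z)) (deriv (deriv fun z => √(h z)) z) z :=
        (SQRM.diff_deriv h1').hasDerivAt
      have h9 : HasDerivAt (deriv κ) (deriv (deriv κ) z) z :=
        (SQRM.diff_deriv hκ'.contDiffAt).hasDerivAt
      exact (h8.add (h9.const_mul μ)).deriv
    rw [h7]

end Pool.Agent.Lib.MP478c11.DB
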