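import Pool.Agent.Lib.MP_478c11_gt.DB.Spec

/-!
# Module STB: a zero of the Wronskian is removed by a perturbation close to `p`
-/

set_option autoImplicit false

namespace Pool.Agent.Lib.MP478c11.DB

open Set Filter Topology MeasureTheory
open scoped ContDiff

namespace STBM

theorem W_congr {h₁ h₂ : ℝ → ℝ} {z : ℝ} (hE : h₁ =ᶠ[𝓝 z] h₂) : W h₁ z = W h₂ z := by
  unfold W
  rw [hE.eq_of_nhds, hE.deriv.eq_of_nhds, hE.deriv.deriv.eq_of_nhds]

theorem pert_off {h κ : ℝ → ℝ} {c d μ z : ℝ} (hκ : ∀ z, z ∉ Icc c d → κ z = 0)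
    (hz : z ∉ Icc c d) : pert h κ μ z = h z := by
  unfold pert
  rw [hκ z hz]
  ring

theorem pert_zero (h κ : ℝ → ℝ) : pert h κ 0 = h := by
  funext z
  unfold pert
  ring

theorem pert_off_nhds {h κ : ℝ → ℝ} {c d μ z : ℝ} (hκ : ∀ z, z ∉ Icc c d → κ z = 0)
    (hz : z ∉ Icc c d) : pert h κ μ =ᶠ[𝓝 z] h := by
  have h1 : (Icc c d)ᶜ ∈ 𝓝 z := isClosed_Icc.isOpen_compl.mem_nhds hz
  filter_upwards [h1] with w hw
  exact pert_off hκ hw

theorem sys_off {h κ y v : ℝ → ℝ} {c d μ : ℝ} {n : ℕ} {I : Set ℝ}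
    (hκ : ∀ z, z ∉ Icc c d → κ z = 0) (hI : ∀ z ∈ I, z ∉ Icc c d)
    (hS : Sys (pert h κ μ) n O y v I) : Sys h n O y v I := by
  intro z hz
  have h1 := hS z hz
  rw [pert_off hκ (hI z hz), W_congr (pert_off_nhds hκ (hI z hz))] at h1
  exact h1

theorem sys_mono {h F y v : ℝ → ℝ} {n : ℕ} {I J : Set ℝ} (hJ : J ⊆ I) (hS : Sys h n F y v I) :
    Sys h n F y v J := fun z hz => hS z (hJ hz)

theorem W_cont {h : ℝ → ℝ} (hh : ContDiff ℝ ∞ h) : Continuous (W h) := by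
  have h1 := (contDiff_infty_iff_deriv.1 hh).2
  have h2 := (contDiff_infty_iff_deriv.1 h1).2
  unfold W
  have c0 := hh.continuous
  have c1 := h1.continuous
  have c2 := h2.continuous
  fun_prop

theorem W_p_nonneg {h : ℝ → ℝ} {a p q b : ℝ} (hD : Dumb h a p q b) : 0 ≤ W h p := by
  have h1 : Tendsto (W h) (𝓝[<] p) (𝓝 (W h p)) :=
    ((W_cont hD.smooth).tendsto p).mono_left nhdsWithin_le_nhds
  refine ge_of_tendsto h1 ?_
  filter_upwards [Ioo_mem_nhdsLT hD.ap] with z hz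
  exact (hD.W1 z hz.1.le hz.2).le

/-- the integrated identity -/
theorem parts (r r1 r2 κ κ1 κ2 Y P : ℝ → ℝ) (n : ℝ) (c d : ℝ) (hcd : c < d)
    (hr : ∀ z ∈ Icc c d, HasDerivAt r (r1 z) z) (hr1 : ∀ z ∈ Icc c d, HasDerivAt r1 (r2 z) z)
    (hr2 : ContinuousOn r2 (Icc c d)) (hpos : ∀ z ∈ Icc c d, 0 < r z)
    (hκ : ∀ z ∈ Icc c d, HasDerivAt κ (κ1 z) z) (hκ1 : ∀ z ∈ Icc c d, HasDerivAt κ1 (κ2 z) z)
    (hκ2 : ContinuousOn κ2 (Icc c d))
    (hY : ∀ z ∈ Icc c d, HasDerivAt Y (P z) z)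
    (hP : ∀ z ∈ Icc c d, HasDerivAt P (-(n ^ 2 * r2 z * Y z / r z) - 2 * r1 z * P z / r z) z)
    (kc : κ c = 0) (kd : κ d = 0) (kc1 : κ1 c = 0) (kd1 : κ1 d = 0) :
    ∫ z in c..d, (κ2 z * r z - κ z * r2 z) * Y z ^ 2 =
      2 * ∫ z in c..d, κ z * (r z * P z ^ 2 - n ^ 2 * r2 z * Y z ^ 2) := by
  have cr : ContinuousOn r (Icc c d) := fun z hz => (hr z hz).continuousAt.continuousWithinAt
  have cr1 : ContinuousOn r1 (Icc c d) := fun z hz => (hr1 z hz).continuousAt.continuousWithinAt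
  have cκ : ContinuousOn κ (Icc c d) := fun z hz => (hκ z hz).continuousAt.continuousWithinAt
  have cY : ContinuousOn Y (Icc c d) := fun z hz => (hY z hz).continuousAt.continuousWithinAt
  have cP : ContinuousOn P (Icc c d) := fun z hz => (hP z hz).continuousAt.continuousWithinAt
  have i1 : IntervalIntegrable (fun z => (κ2 z * r z - κ z * r2 z) * Y z ^ 2) volume c d := by
    apply ContinuousOn.intervalIntegrable
    rw [uIcc_of_le hcd.le]
    fun_prop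
  have i2 : IntervalIntegrable (fun z => 2 * (κ z * (r z * P z ^ 2 - n ^ 2 * r2 z * Y z ^ 2)))
      volume c d := by
    apply ContinuousOn.intervalIntegrable
    rw [uIcc_of_le hcd.le]
    fun_prop
  have hG : ∀ z ∈ uIcc c d, HasDerivAt
      (fun z => κ1 z * (r z * Y z ^ 2) - κ z * (r1 z * Y z ^ 2 + 2 * (r z * (Y z * P z))))
      ((κ2 z * r z - κ z * r2 z) * Y z ^ 2 -
        2 * (κ z * (r z * P z ^ 2 - n ^ 2 * r2 z * Y z ^ 2))) z := by
    intro z hz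
    rw [uIcc_of_le hcd.le] at hz
    have a1 := (hκ1 z hz).mul ((hr z hz).mul ((hY z hz).pow 2))
    have a2 := (hκ z hz).mul (((hr1 z hz).mul ((hY z hz).pow 2)).add
      (((hr z hz).mul ((hY z hz).mul (hP z hz))).const_mul 2))
    have a3 := a1.sub a2
    refine a3.congr_deriv ?_
    have hr0 := (hpos z hz).ne'
    simp only [Pi.mul_apply, Pi.pow_apply, Pi.add_apply]
    field_simp
    ring
  have hFT := intervalIntegral.integral_eq_sub_of_hasDerivAt hG (i1.sub i2)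
  rw [intervalIntegral.integral_sub i1 i2, kc, kd, kc1, kd1,
    intervalIntegral.integral_const_mul] at hFT
  linarith

/-- a smooth bump -/
theorem exists_bump (c d : ℝ) (hcd : c < d) : ∃ κ : ℝ → ℝ, Bump κ c d ∧ (∀ z, 0 ≤ κ z) ∧
    (∀ z ∈ Ioo c d, 0 < κ z) ∧ κ c = 0 ∧ κ d = 0 := by
  obtain ⟨f⟩ : Nonempty {f : ContDiffBump ((c + d) / 2 : ℝ) // f.rOut = (d - c) / 2} :=
    ⟨⟨⟨(d - c) / 4, (d - c) / 2, by linarith, by linarith⟩, rfl⟩⟩
  have hball : Metric.ball ((c + d) / 2 : ℝ) f.1.rOut = Ioo c d := by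
    rw [f.2, Real.ball_eq_Ioo]
    congr 1 <;> ring
  have hsupp : Function.support (f.1 : ℝ → ℝ) = Ioo c d := by
    rw [f.1.support_eq, hball]
  have hz : ∀ z, z ∉ Ioo c d → (f.1 : ℝ → ℝ) z = 0 := by
    intro z hz
    rw [← hsupp] at hz
    exact Function.notMem_support.1 hz
  refine ⟨f.1, ⟨f.1.contDiff, fun z hz' => hz z fun h => hz' ⟨h.1.le, h.2.le⟩⟩,
    fun z => f.1.nonneg, fun z hz' => ?_, hz c (fun h => lt_irrefl _ h.1),
    hz d (fun h => lt_irrefl _ h.2)⟩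
  have h1 : z ∈ Function.support (f.1 : ℝ → ℝ) := by rw [hsupp]; exact hz'
  exact lt_of_le_of_ne f.1.nonneg (Ne.symm (Function.mem_support.1 h1))

theorem deriv_zero_of_min {κ : ℝ → ℝ} {c : ℝ} (h0 : ∀ z, 0 ≤ κ z) (hc : κ c = 0) :
    deriv κ c = 0 := by
  apply IsLocalMin.deriv_eq_zero
  filter_upwards with z
  rw [hc]
  exact h0 z

/-- `√h` on `(a, b)` -/
theorem sqrt_facts (hSQR : SpecSQR) {h : ℝ → ℝ} {a p q b : ℝ} (hD : Dumb h a p q b) :
    (∀ z ∈ Ioo a b, HasDerivAt (fun z => √(h z)) (deriv (fun z => √(h z)) z) z) ∧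
    (∀ z ∈ Ioo a b, HasDerivAt (deriv fun z => √(h z)) (deriv (deriv fun z => √(h z)) z) z) ∧
    ContinuousOn (deriv (deriv fun z => √(h z))) (Ioo a b) := by
  have h1 : ContDiffOn ℝ ∞ (fun z => √(h z)) (Ioo a b) := fun z hz =>
    (hSQR.1 h z hD.smooth (hD.pos z hz.1 hz.2)).1.contDiffWithinAt
  have h2 : ContDiffOn ℝ ∞ (deriv fun z => √(h z)) (Ioo a b) :=
    h1.deriv_of_isOpen isOpen_Ioo (by simp)
  have h3 : ContDiffOn ℝ ∞ (deriv (deriv fun z => √(h z))) (Ioo a b) :=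
    h2.deriv_of_isOpen isOpen_Ioo (by simp)
  have ho : ∀ z ∈ Ioo a b, Ioo a b ∈ 𝓝 z := fun z hz => isOpen_Ioo.mem_nhds hz
  exact ⟨fun z hz => ((h1.differentiableOn (by simp)).differentiableAt (ho z hz)).hasDerivAt,
    fun z hz => ((h2.differentiableOn (by simp)).differentiableAt (ho z hz)).hasDerivAt,
    h3.continuousOn⟩

/-- the two solutions agree until `c'`: limit of a constant function -/
theorem lim_left {D : ℝ → ℝ} {p c x : ℝ} (hpc : p < c) (hc : ContinuousAt D c)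
    (hD : ∀ z ∈ Ico p c, D z = x) : D c = x := by
  have h1 : Tendsto D (𝓝[<] c) (𝓝 (D c)) := hc.tendsto.mono_left nhdsWithin_le_nhds
  have h2 : Tendsto D (𝓝[<] c) (𝓝 x) := by
    refine tendsto_const_nhds.congr' ?_
    filter_upwards [Ico_mem_nhdsLT hpc] with z hz
    exact (hD z hz).symm
  exact tendsto_nhds_unique h1 h2

theorem lim_right {D : ℝ → ℝ} {d q x : ℝ} (hdq : d < q) (hc : ContinuousAt D d)
    (hD : ∀ z ∈ Ioc d q, D z = x) : D d = x := by
  have h1 : Tendsto D (𝓝[>] d) (𝓝 (D d)) := hc.tendsto.mono_left nhdsWithin_le_nhds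
  have h2 : Tendsto D (𝓝[>] d) (𝓝 x) := by
    refine tendsto_const_nhds.congr' ?_
    filter_upwards [Ioc_mem_nhdsGT hdq] with z hz
    exact (hD z hz).symm
  exact tendsto_nhds_unique h1 h2

end STBM

open STBM in
theorem specSTB (_hUNQ : SpecUNQ) (hWRO : SpecWRO) (hLUN : SpecLUN) (hLKB : SpecLKB)
    (hSQR : SpecSQR) (hPD : SpecPD) (hDEP : SpecDEP) (hLAG : SpecLAG) : SpecSTB := by
  intro h a p q b c hD hpc n hn Y V Z U hL hR hWr
  have hap := hD.ap
  have hpq := hD.pq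
  have hqb := hD.qb
  have hn1 : 1 ≤ n := by omega
  have hpI : p ∈ Ioo a b := ⟨hap, hpq.trans hqb⟩
  obtain ⟨hr, hr1, hr2c⟩ := sqrt_facts hSQR hD
  set r : ℝ → ℝ := fun z => √(h z) with hrdef
  set r1 : ℝ → ℝ := deriv r with hr1def
  set r2 : ℝ → ℝ := deriv r1 with hr2def
  have hrpos : ∀ z ∈ Ioo a b, 0 < r z := fun z hz => Real.sqrt_pos.2 (hD.pos z hz.1 hz.2)
  have hrsq : ∀ z ∈ Ioo a b, h z = r z ^ 2 := fun z hz =>
    (Real.sq_sqrt (hD.pos z hz.1 hz.2).le).symm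
  have hW : ∀ z ∈ Ioo a b, W h z = -(r z) ^ 3 * r2 z := fun z hz =>
    (hSQR.1 h z hD.smooth (hD.pos z hz.1 hz.2)).2
  -- the derivative `P` of `Y`
  obtain ⟨P, hPdef⟩ : ∃ P : ℝ → ℝ, ∀ z, P z = V z / r z ^ 2 := ⟨fun z => V z / r z ^ 2, fun z => rfl⟩
  have hPfun : P = fun z => V z / r z ^ 2 := funext hPdef
  have hY : ∀ z ∈ Ioo a b, HasDerivAt Y (P z) z := by
    intro z hz
    have h1 := (hL.sys z hz).1
    rw [hrsq z hz, ← hPdef] at h1
    exact h1
  have hP : ∀ z ∈ Ioo a b,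
      HasDerivAt P (-((n : ℝ) ^ 2 * r2 z * Y z / r z) - 2 * r1 z * P z / r z) z := by
    intro z hz
    have h1 := (hL.sys z hz).2
    have h0 := (hrpos z hz).ne'
    have h2 := h1.div ((hr z hz).pow 2) (pow_ne_zero 2 h0)
    have h3 : P = V / (r ^ 2) := by
      rw [hPfun]
      rfl
    rw [h3]
    refine h2.congr_deriv ?_
    rw [hrsq z hz, hW z hz]
    simp only [Pi.pow_apply, Pi.div_apply, O]
    field_simp
    ring
  have hcY : ∀ z ∈ Ioo a b, ContinuousAt Y z := fun z hz => (hY z hz).continuousAt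
  have hcP : ∀ z ∈ Ioo a b, ContinuousAt P z := fun z hz => (hP z hz).continuousAt
  have hcr : ∀ z ∈ Ioo a b, ContinuousAt r z := fun z hz => (hr z hz).continuousAt
  have hcr2 : ∀ z ∈ Ioo a b, ContinuousAt r2 z := fun z hz =>
    hr2c.continuousAt (isOpen_Ioo.mem_nhds hz)
  -- positivity at `p`
  obtain ⟨C₁, hC₁, hK⟩ := hLKB h a p q b hD
  have hVp : 0 < V p := (hK n hn1 Y V hL).1
  have hPp : 0 < P p := by
    rw [hPdef]
    exact div_pos hVp (pow_pos (hrpos p hpI) 2)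
  have hr2p : r2 p ≤ 0 := by
    have h1 := W_p_nonneg hD
    rw [hW p hpI] at h1
    have h2 : 0 < r p ^ 3 := pow_pos (hrpos p hpI) 3
    by_contra h3
    push Not at h3
    nlinarith
  obtain ⟨Φ, hΦdef⟩ : ∃ Φ : ℝ → ℝ, Φ = fun z => r z * P z ^ 2 - (n : ℝ) ^ 2 * r2 z * Y z ^ 2 :=
    ⟨_, rfl⟩
  have hΦp : 0 < Φ p := by
    rw [hΦdef]
    simp only
    have h1 : 0 < r p * P p ^ 2 := mul_pos (hrpos p hpI) (pow_pos hPp 2)
    have h2 : (n : ℝ) ^ 2 * r2 p * Y p ^ 2 ≤ 0 := by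
      have : 0 ≤ (n : ℝ) ^ 2 * Y p ^ 2 := by positivity
      nlinarith
    linarith
  have hΦc : ContinuousAt Φ p := by
    rw [hΦdef]
    have e1 := hcr p hpI
    have e2 := hcP p hpI
    have e3 := hcr2 p hpI
    have e4 := hcY p hpI
    fun_prop
  obtain ⟨ε, hε, hΦε⟩ := Metric.eventually_nhds_iff.1 (hΦc.eventually (lt_mem_nhds hΦp))
  -- the interval
  obtain ⟨e, hpe, hec, heq, heε⟩ : ∃ e : ℝ, p < e ∧ e ≤ c ∧ e ≤ q ∧ e ≤ p + ε :=
    ⟨min (min c q) (p + ε), lt_min (lt_min hpc hpq) (by linarith),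
      (min_le_left _ _).trans (min_le_left _ _), (min_le_left _ _).trans (min_le_right _ _),
      min_le_right _ _⟩
  obtain ⟨c', d', hpc', hcd', hd'e⟩ : ∃ c' d' : ℝ, p < c' ∧ c' < d' ∧ d' < e :=
    ⟨p + (e - p) / 3, p + 2 * (e - p) / 3, by linarith, by linarith, by linarith⟩
  have hd'c : d' < c := lt_of_lt_of_le hd'e hec
  have hd'q : d' < q := lt_of_lt_of_le hd'e heq
  have hsub : Icc c' d' ⊆ Ioo a b := fun z hz =>
    ⟨by linarith [hz.1], by linarith [hz.2]⟩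
  have hΦpos : ∀ z ∈ Icc c' d', 0 < Φ z := by
    intro z hz
    apply hΦε
    rw [Real.dist_eq, abs_lt]
    constructor <;> linarith [hz.1, hz.2]
  obtain ⟨κ, hB, hκ0, hκpos, hκc, hκd⟩ := exists_bump c' d' hcd'
  have hκs : ContDiff ℝ ∞ κ := hB.1
  have hκ1s : ContDiff ℝ ∞ (deriv κ) := (contDiff_infty_iff_deriv.1 hκs).2
  have hκ2s : ContDiff ℝ ∞ (deriv (deriv κ)) := (contDiff_infty_iff_deriv.1 hκ1s).2
  have hκd1 : ∀ z, HasDerivAt κ (deriv κ z) z := fun z =>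
    ((contDiff_infty_iff_deriv.1 hκs).1 z).hasDerivAt
  have hκd2 : ∀ z, HasDerivAt (deriv κ) (deriv (deriv κ) z) z := fun z =>
    ((contDiff_infty_iff_deriv.1 hκ1s).1 z).hasDerivAt
  -- the integral
  obtain ⟨J, hJdef⟩ : ∃ J : ℝ, J = ∫ z in c'..d', rho r κ z * (Y z * Y z) := ⟨_, rfl⟩
  have hJ : 0 < J := by
    have h1 := parts r r1 r2 κ (deriv κ) (deriv (deriv κ)) Y P n c' d' hcd'
      (fun z hz => hr z (hsub hz)) (fun z hz => hr1 z (hsub hz)) (hr2c.mono hsub)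
      (fun z hz => hrpos z (hsub hz)) (fun z _ => hκd1 z) (fun z _ => hκd2 z)
      hκ2s.continuous.continuousOn (fun z hz => hY z (hsub hz)) (fun z hz => hP z (hsub hz))
      hκc hκd (deriv_zero_of_min hκ0 hκc) (deriv_zero_of_min hκ0 hκd)
    have h2 : J = ∫ z in c'..d', (deriv (deriv κ) z * r z - κ z * r2 z) * Y z ^ 2 := by
      rw [hJdef]
      apply intervalIntegral.integral_congr
      intro z _
      simp only [rho]
      ring
    rw [h2, h1]
    have h3 : 0 < ∫ z in c'..d', κ z * (r z * P z ^ 2 - (n : ℝ) ^ 2 * r2 z * Y z ^ 2) := by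
      apply intervalIntegral.intervalIntegral_pos_of_pos_on
      · apply ContinuousOn.intervalIntegrable
        rw [uIcc_of_le hcd'.le]
        intro z hz
        have e1 := hcr z (hsub hz)
        have e2 := hcP z (hsub hz)
        have e3 := hcr2 z (hsub hz)
        have e4 := hcY z (hsub hz)
        have e5 : ContinuousAt κ z := hκs.continuous.continuousAt
        apply ContinuousAt.continuousWithinAt
        fun_prop
      · intro z hz
        have h4 := hΦpos z ⟨hz.1.le, hz.2.le⟩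
        rw [hΦdef] at h4
        exact mul_pos (hκpos z hz) h4
      · exact hcd'
    linarith
  -- the bound of `ρ Y`
  have hρc : ContinuousOn (fun z => rho r κ z * Y z) (Icc c' d') := by
    intro z hz
    have e1 := hcr z (hsub hz)
    have e3 : ContinuousAt (deriv (deriv r)) z := hcr2 z (hsub hz)
    have e4 := hcY z (hsub hz)
    have e5 : ContinuousAt κ z := hκs.continuous.continuousAt
    have e6 : ContinuousAt (deriv (deriv κ)) z := hκ2s.continuous.continuousAt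
    apply ContinuousAt.continuousWithinAt
    unfold rho
    fun_prop
  obtain ⟨K₀, hK₀⟩ := isCompact_Icc.exists_bound_of_continuousOn hρc
  obtain ⟨K₁, hK₁0, hK₁⟩ : ∃ K₁ : ℝ, 0 ≤ K₁ ∧ ∀ z ∈ Icc c' d', |rho r κ z * Y z| ≤ K₁ :=
    ⟨max K₀ 0, le_max_right _ _, fun z hz => (hK₀ z hz).trans (le_max_left _ _)⟩
  obtain ⟨μ₁, hμ₁, hpert⟩ := hPD h κ a p q b c' d' hD hpc' hcd' hd'q hB 0 1 one_pos
  obtain ⟨C, μ₂, hC, hμ₂, hdep⟩ := hDEP h κ a p q b c' d' hD hpc' hcd' hd'q hB n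
  obtain ⟨S, hSdef⟩ : ∃ S : ℝ, S = |Y p| + |V p| := ⟨_, rfl⟩
  have hS0 : 0 ≤ S := by rw [hSdef]; positivity
  obtain ⟨T, hTdef⟩ : ∃ T : ℝ, T = K₁ * (C * S) * (d' - c') := ⟨_, rfl⟩
  have hT0 : 0 ≤ T := by
    rw [hTdef]
    have : 0 ≤ d' - c' := by linarith
    positivity
  obtain ⟨μ₀, hμ₀, hμ01, hμ02, hμ03⟩ : ∃ μ₀ : ℝ, 0 < μ₀ ∧ μ₀ ≤ μ₁ ∧ μ₀ ≤ μ₂ ∧
      μ₀ ≤ J / (2 * T + 1) :=
    ⟨min (min μ₁ μ₂) (J / (2 * T + 1)), lt_min (lt_min hμ₁ hμ₂) (by positivity),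
      (min_le_left _ _).trans (min_le_left _ _), (min_le_left _ _).trans (min_le_right _ _),
      min_le_right _ _⟩
  refine ⟨κ, c', d', μ₀, hpc', hcd', hd'c, hd'q, hB, hμ₀, ?_⟩
  intro μ hμ hμμ₀ Y₁ V₁ Z₁ U₁ hL₁ hR₁
  have habs : |μ| = μ := abs_of_pos hμ
  obtain ⟨hD₁, hpos₁, -, -⟩ := hpert μ (by rw [habs]; linarith)
  have hdep' := hdep μ (by rw [habs]; linarith) Y V Y₁ V₁
    (sys_mono (I := Ioo a b) (J := Icc p q)
      (fun z hz => ⟨by linarith [hz.1], by linarith [hz.2]⟩) hL.sys)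
    (sys_mono (I := Ioo a b) (J := Icc p q)
      (fun z hz => ⟨by linarith [hz.1], by linarith [hz.2]⟩) hL₁.sys)
  have hVV : V p = V₁ p := (hLUN h (pert h κ μ) a p q b hD hD₁ n hn1).1
    ⟨c', hpc', fun z hz => pert_off hB.2 (fun hz' => absurd hz'.1 (not_le.2 hz))⟩ Y V Y₁ V₁ hL hL₁
  have hUU : U q = U₁ q := (hLUN h (pert h κ μ) a p q b hD hD₁ n hn1).2
    ⟨d', hd'q, fun z hz => pert_off hB.2 (fun hz' => absurd hz'.2 (not_le.2 hz))⟩ Z U Z₁ U₁ hR hR₁
  have hdep2 := hdep' (by rw [hL.one, hL₁.one]) hVV.symm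
  rw [habs, ← hSdef] at hdep2
  -- the function `D`
  obtain ⟨E, hEdef⟩ : ∃ E : ℝ → ℝ, ∀ z, E z = Y z * V₁ z - V z * Y₁ z :=
    ⟨fun z => Y z * V₁ z - V z * Y₁ z, fun z => rfl⟩
  have hEc : ∀ z ∈ Ioo a b, ContinuousAt E z := by
    intro z hz
    have e1 := (hL.sys z hz).1.continuousAt
    have e2 := (hL.sys z hz).2.continuousAt
    have e3 := (hL₁.sys z hz).1.continuousAt
    have e4 := (hL₁.sys z hz).2.continuousAt
    have : E = fun z => Y z * V₁ z - V z * Y₁ z := funext hEdef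
    rw [this]
    fun_prop
  have hEc' : E c' = 0 := by
    apply lim_left hpc' (hEc c' (hsub ⟨le_refl _, hcd'.le⟩))
    intro z hz
    have h1 := hWRO.2 h n Y₁ V₁ Y V (Ico p c') ordConnected_Ico
      (sys_off hB.2 (fun z hz hz' => absurd hz'.1 (not_le.2 hz.2))
        (sys_mono (I := Ioo a b) (J := Ico p c')
          (fun z hz => ⟨by linarith [hz.1], by linarith [hz.2]⟩) hL₁.sys))
      (sys_mono (I := Ioo a b) (J := Ico p c')
        (fun z hz => ⟨by linarith [hz.1], by linarith [hz.2]⟩) hL.sys)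
      z hz p ⟨le_refl _, hpc'⟩
    rw [hEdef, h1, hL.one, hL₁.one, hVV]
    ring
  have hEd' : E d' = E q := by
    apply lim_right hd'q (hEc d' (hsub ⟨hcd'.le, le_refl _⟩))
    intro z hz
    have h1 := hWRO.2 h n Y₁ V₁ Y V (Ioc d' q) ordConnected_Ioc
      (sys_off hB.2 (fun z hz hz' => absurd hz'.2 (not_le.2 hz.1))
        (sys_mono (I := Ioo a b) (J := Ioc d' q)
          (fun z hz => ⟨by linarith [hz.1], by linarith [hz.2]⟩) hL₁.sys))
      (sys_mono (I := Ioo a b) (J := Ioc d' q)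
        (fun z hz => ⟨by linarith [hz.1], by linarith [hz.2]⟩) hL.sys)
      z hz q ⟨hd'q, le_refl _⟩
    rw [hEdef, h1, hEdef]
  have hlag := hLAG h κ c' d' 0 μ hcd' hD.smooth hB
    (fun z hz => ⟨hD.pos z (hsub hz).1 (hsub hz).2, by
      have := hrpos z (hsub hz)
      rw [zero_mul, add_zero]
      exact this, hpos₁ z ⟨by linarith [hz.1], by linarith [hz.2]⟩⟩) n Y V Y₁ V₁
    (by rw [pert_zero]; exact sys_mono hsub hL.sys) (sys_mono hsub hL₁.sys)
  rw [← hEdef, ← hEdef, hEc', hEd'] at hlag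
  -- the integral with `Y₁`
  obtain ⟨J₁, hJ₁def⟩ : ∃ J₁ : ℝ, J₁ = ∫ z in c'..d', rho r κ z * (Y z * Y₁ z) := ⟨_, rfl⟩
  have hcY₁ : ∀ z ∈ Ioo a b, ContinuousAt Y₁ z := fun z hz => (hL₁.sys z hz).1.continuousAt
  have hJJ : |J₁ - J| ≤ K₁ * (C * μ * S) * |d' - c'| := by
    have i1 : IntervalIntegrable (fun z => rho r κ z * (Y z * Y₁ z)) volume c' d' := by
      apply ContinuousOn.intervalIntegrable
      rw [uIcc_of_le hcd'.le]
      have : (fun z => rho r κ z * (Y z * Y₁ z)) = fun z => (rho r κ z * Y z) * Y₁ z := by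
        funext z
        ring
      rw [this]
      exact hρc.mul fun z hz => (hcY₁ z (hsub hz)).continuousWithinAt
    have i2 : IntervalIntegrable (fun z => rho r κ z * (Y z * Y z)) volume c' d' := by
      apply ContinuousOn.intervalIntegrable
      rw [uIcc_of_le hcd'.le]
      have : (fun z => rho r κ z * (Y z * Y z)) = fun z => (rho r κ z * Y z) * Y z := by
        funext z
        ring
      rw [this]
      exact hρc.mul fun z hz => (hcY z (hsub hz)).continuousWithinAt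
    rw [hJ₁def, hJdef, ← intervalIntegral.integral_sub i1 i2, ← Real.norm_eq_abs]
    apply intervalIntegral.norm_integral_le_of_norm_le_const
    intro z hz
    rw [uIoc_of_le hcd'.le] at hz
    have hz' : z ∈ Icc c' d' := ⟨hz.1.le, hz.2⟩
    have e1 : rho r κ z * (Y z * Y₁ z) - rho r κ z * (Y z * Y z) =
        (rho r κ z * Y z) * (Y₁ z - Y z) := by ring
    rw [e1, Real.norm_eq_abs, abs_mul]
    have e2 := hdep2 z ⟨by linarith [hz'.1], by linarith [hz'.2]⟩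
    have e3 : |Y₁ z - Y z| ≤ C * μ * S := le_trans (le_add_of_nonneg_right (abs_nonneg _)) e2
    exact mul_le_mul (hK₁ z hz') e3 (abs_nonneg _) hK₁0
  have hJ₁ : 0 < J₁ := by
    have e1 : |d' - c'| = d' - c' := abs_of_pos (by linarith)
    have e2 : K₁ * (C * μ * S) * |d' - c'| = T * μ := by
      rw [e1, hTdef]
      ring
    rw [e2] at hJJ
    have e3 : T * μ ≤ T * (J / (2 * T + 1)) := mul_le_mul_of_nonneg_left (hμμ₀.trans hμ03) hT0
    have e4 : T * (J / (2 * T + 1)) < J := by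
      rw [mul_div_assoc', div_lt_iff₀ (by positivity)]
      nlinarith
    have e5 := (abs_le.1 hJJ).1
    linarith
  have hEq : E q ≠ 0 := by
    have e1 : E q = -(((n : ℝ) ^ 2 - 1) * μ) * J₁ := by
      rw [hJ₁def]
      have := hlag
      rw [sub_zero, sub_zero] at this
      exact this
    rw [e1]
    have e2 : (2 : ℝ) ≤ n := by exact_mod_cast hn
    have e3 : 0 < (n : ℝ) ^ 2 - 1 := by nlinarith
    have e4 : 0 < ((n : ℝ) ^ 2 - 1) * μ * J₁ := by positivity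
    intro h0
    linarith
  -- conclusion
  intro hW₁
  apply hEq
  rw [hR.one, mul_one] at hWr
  rw [hR₁.one, mul_one, ← hUU] at hW₁
  have e1 : V q = Y q * U q := by linarith
  have e2 : V₁ q = Y₁ q * U q := by linarith
  rw [hEdef, e1, e2]
  ring

end Pool.Agent.Lib.MP478c11.DB
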