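import Pool.Agent.Lib.MP_478c11_gt.DB.Spec

/-! # Module UNQ: uniqueness for the linear system. -/

set_option autoImplicit false

namespace Pool.Agent.Lib.MP478c11.DB

open Set Filter Topology MeasureTheory
open scoped ContDiff

theorem specUNQ (hGRW : SpecGRW) : SpecUNQ := by
  intro h a p q b H n F y v y' v' I hI hsub h1 h2 c hc hy hv z hz
  have hcd : Continuous (deriv h) := H.smooth.continuous_deriv (by simp)
  have hcdd : Continuous (deriv (deriv h)) := by
    have h3 : ContDiff ℝ ∞ (deriv h) := by
      have h4 := contDiff_infty_iff_deriv.mp H.smooth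
      exact h4.2
    exact h3.continuous_deriv (by simp)
  have hcW : Continuous (W h) := by
    unfold W
    exact ((hcd.pow 2).div_const 4).sub ((H.smooth.continuous.mul hcdd).div_const 2)
  have hseg : Icc (min c z) (max c z) ⊆ I := by
    refine Subset.trans ?_ (hI.uIcc_subset hc hz)
    exact Subset.rfl
  have hpos : ∀ t ∈ Icc (min c z) (max c z), 0 < h t := fun t ht =>
    H.pos t (hsub (hseg ht)).1 (hsub (hseg ht)).2
  have key := hGRW (min c z) (max c z) 0 (fun t => (y t - y' t) ^ 2 + (v t - v' t) ^ 2)
    (fun t => 2 * (y t - y' t) * (v t / h t - v' t / h t) + 2 * (v t - v' t) *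
      (((n : ℝ) ^ 2 * W h t * y t + F t) / h t - ((n : ℝ) ^ 2 * W h t * y' t + F t) / h t))
    (fun t => |1 + (n : ℝ) ^ 2 * W h t| / h t) min_le_max le_rfl
    (by
      refine ContinuousOn.div ?_ H.smooth.continuous.continuousOn (fun t ht => (hpos t ht).ne')
      exact (continuous_const.add (continuous_const.mul hcW)).abs.continuousOn)
    (fun t ht => ⟨div_nonneg (abs_nonneg _) (hpos t ht).le, by positivity⟩)
    (fun t ht => by
      have hI' := hseg ht
      have hp := hpos t ht
      obtain ⟨a1, a2⟩ := h1 t hI'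
      obtain ⟨b1, b2⟩ := h2 t hI'
      refine ⟨?_, ?_⟩
      · have d1 := (a1.sub b1).pow 2
        have d2 := (a2.sub b2).pow 2
        have d3 := d1.add d2
        refine d3.congr_deriv ?_
        simp only [Pi.sub_apply]
        push_cast
        ring
      · have e1 : 2 * (y t - y' t) * (v t / h t - v' t / h t) + 2 * (v t - v' t) *
            (((n : ℝ) ^ 2 * W h t * y t + F t) / h t - ((n : ℝ) ^ 2 * W h t * y' t + F t) / h t) =
            (1 + (n : ℝ) ^ 2 * W h t) / h t * (2 * (y t - y' t) * (v t - v' t)) := by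
          field_simp
          ring
        rw [e1, abs_mul, abs_div, abs_of_pos hp, add_zero]
        refine mul_le_mul_of_nonneg_left ?_ (div_nonneg (abs_nonneg _) hp.le)
        rw [abs_le]
        constructor
        · nlinarith [sq_nonneg ((y t - y' t) + (v t - v' t))]
        · nlinarith [sq_nonneg ((y t - y' t) - (v t - v' t))])
    z ⟨min_le_right _ _, le_max_right _ _⟩ c ⟨min_le_left _ _, le_max_left _ _⟩
  have h0 : (y z - y' z) ^ 2 + (v z - v' z) ^ 2 ≤ 0 := by
    refine key.trans (le_of_eq ?_)
    simp only [hy, hv, sub_self]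
    ring
  have hA : (y z - y' z) ^ 2 = 0 := by nlinarith [sq_nonneg (y z - y' z), sq_nonneg (v z - v' z)]
  have hB : (v z - v' z) ^ 2 = 0 := by nlinarith [sq_nonneg (y z - y' z), sq_nonneg (v z - v' z)]
  refine ⟨?_, ?_⟩
  · have := pow_eq_zero_iff (two_ne_zero) |>.mp hA
    linarith
  · have := pow_eq_zero_iff (two_ne_zero) |>.mp hB
    linarith

end Pool.Agent.Lib.MP478c11.DB
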