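import Pool.Agent.Lib.MP_478c11_gt.DB.Spec

/-!
# MP_478c11_gt, DB, module VBD: a bound for `v` from a bound for `y`
-/

set_option autoImplicit false

namespace Pool.Agent.Lib.MP478c11.DB

open Set Filter Topology MeasureTheory
open scoped ContDiff

theorem specVBD : SpecVBD := by
  intro h a p q b hD
  have hab : a < b := hD.ap.trans (hD.pq.trans hD.qb)
  have hsm := hD.smooth
  have hdiff : Differentiable ℝ h := hsm.differentiable (by simp)
  have hd1 : ContDiff ℝ ∞ (deriv h) := (contDiff_infty_iff_deriv.1 hsm).2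
  have hd2 : ContDiff ℝ ∞ (deriv (deriv h)) := (contDiff_infty_iff_deriv.1 hd1).2
  have hWc : Continuous (W h) := by
    unfold W
    exact ((hd1.continuous.pow 2).div_const 4).sub
      ((hsm.continuous.mul hd2.continuous).div_const 2)
  obtain ⟨M, hM⟩ := isCompact_Icc.exists_bound_of_continuousOn
    (hWc.continuousOn : ContinuousOn (W h) (Icc a b))
  obtain ⟨K0, hK0⟩ := isCompact_Icc.exists_bound_of_continuousOn
    (hd1.continuous.continuousOn : ContinuousOn (deriv h) (Icc a b))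
  set K : ℝ := max K0 1 with hKdef
  have hK : 0 < K := lt_of_lt_of_le one_pos (le_max_right _ _)
  have hle : ∀ x ∈ Ioo a b, h x ≤ K * (b - x) := by
    intro x hx
    have h1 := (convex_Icc a b).norm_image_sub_le_of_norm_deriv_le (f := h) (C := K)
      (fun t _ => hdiff t) (fun t ht => (hK0 t ht).trans (le_max_left _ _))
      (right_mem_Icc.2 hab.le) (⟨hx.1.le, hx.2.le⟩ : x ∈ Icc a b)
    rw [hD.hb, sub_zero, Real.norm_eq_abs, Real.norm_eq_abs, abs_sub_comm x b,
      abs_of_pos (sub_pos.2 hx.2)] at h1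
    exact (le_abs_self _).trans h1
  refine ⟨|M| + 2, by positivity, ?_⟩
  intro n hn F y v R Y₀ hS hB z hz
  have hpos : ∀ x ∈ Ioo a b, 0 < h x := fun x hx => hD.pos x hx.1 hx.2
  have hcont : ContinuousOn (fun t => 1 / h t) (Ioo a b) := by
    apply ContinuousOn.div continuousOn_const hsm.continuous.continuousOn
    intro x hx
    exact (hpos x hx).ne'
  set T : ℝ → ℝ := fun x => ∫ t in z..x, 1 / h t with hTdef
  have hT : ∀ x ∈ Ioo a b, HasDerivAt T (1 / h x) x := by
    intro x hx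
    apply intervalIntegral.integral_hasDerivAt_right
    · exact (hcont.mono (ordConnected_Ioo.uIcc_subset hz hx)).intervalIntegrable
    · exact hcont.stronglyMeasurableAtFilter isOpen_Ioo x hx
    · exact hcont.continuousAt (isOpen_Ioo.mem_nhds hx)
  have hTz : T z = 0 := by simp [hTdef]
  have hsub : ∀ x ∈ Ioo a b, ∀ t ∈ Icc z x, t ∈ Ioo a b :=
    fun x hx t ht => ⟨hz.1.trans_le ht.1, ht.2.trans_lt hx.2⟩
  -- T is monotone
  have hTmono : ∀ x ∈ Ioo a b, MonotoneOn T (Icc z x) := by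
    intro x hx
    apply monotoneOn_of_deriv_nonneg (convex_Icc z x)
    · exact fun t ht => (hT t (hsub x hx t ht)).continuousAt.continuousWithinAt
    · intro t ht
      exact (hT t (hsub x hx t (interior_subset ht))).differentiableAt.differentiableWithinAt
    · intro t ht
      have ht' := hsub x hx t (interior_subset ht)
      rw [(hT t ht').deriv]
      exact (one_div_pos.2 (hpos t ht')).le
  -- T is large near b
  have hbz : 0 < b - z := sub_pos.2 hz.2
  set x₂ : ℝ := b - (b - z) * Real.exp (-K) with hx₂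
  have he1 : Real.exp (-K) < 1 := by
    rw [Real.exp_lt_one_iff]
    linarith
  have he0 : 0 < Real.exp (-K) := Real.exp_pos _
  have hzx : z < x₂ := by
    rw [hx₂]
    nlinarith
  have hxb : x₂ < b := by
    rw [hx₂]
    nlinarith [mul_pos hbz he0]
  have hx₂' : x₂ ∈ Ioo a b := ⟨hz.1.trans hzx, hxb⟩
  have hbig : 1 ≤ T x₂ := by
    have hg : MonotoneOn (fun x => T x + (1 / K) * Real.log (b - x)) (Icc z x₂) := by
      have hder : ∀ t ∈ Icc z x₂, HasDerivAt (fun x => T x + (1 / K) * Real.log (b - x))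
          (1 / h t + (1 / K) * (-1 / (b - t))) t := by
        intro t ht
        have ht' := hsub x₂ hx₂' t ht
        have h1 : HasDerivAt (fun x => b - x) (-1) t := by
          simpa using (hasDerivAt_id t).const_sub b
        have h2 := h1.log (sub_pos.2 ht'.2).ne'
        exact (hT t ht').add (h2.const_mul (1 / K))
      apply monotoneOn_of_deriv_nonneg (convex_Icc z x₂)
      · exact fun t ht => (hder t ht).continuousAt.continuousWithinAt
      · intro t ht
        exact (hder t (interior_subset ht)).differentiableAt.differentiableWithinAt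
      · intro t ht
        have ht1 := interior_subset ht
        have ht' := hsub x₂ hx₂' t ht1
        rw [(hder t ht1).deriv]
        have hbt : 0 < b - t := sub_pos.2 ht'.2
        have h3 : (1 / K) * (-1 / (b - t)) = -(1 / (K * (b - t))) := by
          field_simp
        rw [h3]
        have h4 : 1 / (K * (b - t)) ≤ 1 / h t :=
          one_div_le_one_div_of_le (hpos t ht') (hle t ht')
        linarith
    have h1 := hg (left_mem_Icc.2 hzx.le) (right_mem_Icc.2 hzx.le) hzx.le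
    simp only [hTz] at h1
    have h2 : Real.log (b - x₂) = Real.log (b - z) - K := by
      rw [hx₂, sub_sub_cancel, Real.log_mul hbz.ne' he0.ne', Real.log_exp]
      ring
    rw [h2] at h1
    have h3 : 1 / K * (Real.log (b - z) - K) = 1 / K * Real.log (b - z) - 1 := by
      field_simp
    rw [h3] at h1
    linarith
  have hTc : ContinuousOn T (Icc z x₂) :=
    fun t ht => (hT t (hsub x₂ hx₂' t ht)).continuousAt.continuousWithinAt
  obtain ⟨z₁, hz₁, hTz₁⟩ := intermediate_value_Icc hzx.le hTc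
    (show (1 : ℝ) ∈ Icc (T z) (T x₂) from ⟨by rw [hTz]; norm_num, hbig⟩)
  have hz₁' : z₁ ∈ Ioo a b := hsub x₂ hx₂' z₁ hz₁
  have hzz : z < z₁ := by
    rcases hz₁.1.lt_or_eq with h1 | h1
    · exact h1
    · exfalso
      rw [← h1, hTz] at hTz₁
      exact zero_ne_one hTz₁
  -- the mean value theorem for `y`
  obtain ⟨ξ, hξ, e1⟩ := exists_ratio_hasDerivAt_eq_ratio_slope y (fun x => v x / h x) hzz
    (fun t ht => (hS t (hsub z₁ hz₁' t ht)).1.continuousAt.continuousWithinAt)
    (fun t ht => (hS t (hsub z₁ hz₁' t ⟨ht.1.le, ht.2.le⟩)).1) T (fun x => 1 / h x)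
    (fun t ht => (hT t (hsub z₁ hz₁' t ht)).continuousAt.continuousWithinAt)
    (fun t ht => hT t (hsub z₁ hz₁' t ⟨ht.1.le, ht.2.le⟩))
  have hξ' : ξ ∈ Ioo a b := hsub z₁ hz₁' ξ ⟨hξ.1.le, hξ.2.le⟩
  have e1' : v ξ = y z₁ - y z := by
    have h1 := hpos ξ hξ'
    rw [hTz₁, hTz, sub_zero, one_mul] at e1
    field_simp at e1
    exact e1
  obtain ⟨η, hη, e2⟩ := exists_ratio_hasDerivAt_eq_ratio_slope v
    (fun x => ((n : ℝ) ^ 2 * W h x * y x + F x) / h x) hξ.1
    (fun t ht => (hS t (hsub ξ hξ' t ht)).2.continuousAt.continuousWithinAt)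
    (fun t ht => (hS t (hsub ξ hξ' t ⟨ht.1.le, ht.2.le⟩)).2) T (fun x => 1 / h x)
    (fun t ht => (hT t (hsub ξ hξ' t ht)).continuousAt.continuousWithinAt)
    (fun t ht => hT t (hsub ξ hξ' t ⟨ht.1.le, ht.2.le⟩))
  have hη' : η ∈ Ioo a b := hsub ξ hξ' η ⟨hη.1.le, hη.2.le⟩
  have e2' : v ξ - v z = T ξ * ((n : ℝ) ^ 2 * W h η * y η + F η) := by
    have h1 := hpos η hη'
    rw [hTz, sub_zero] at e2
    field_simp at e2
    linarith
  have t1 : 0 ≤ T ξ := by
    rw [← hTz]
    exact hTmono z₁ hz₁' (left_mem_Icc.2 hzz.le) ⟨hξ.1.le, hξ.2.le⟩ hξ.1.le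
  have t2 : T ξ ≤ 1 := by
    rw [← hTz₁]
    exact hTmono z₁ hz₁' ⟨hξ.1.le, hξ.2.le⟩ (right_mem_Icc.2 hzz.le) hξ.2.le
  -- numbers
  have b1 := hB η hη'
  have b2 := hB z hz
  have b3 := hB z₁ hz₁'
  have hY0 : 0 ≤ Y₀ := (abs_nonneg _).trans b2.2
  have hWη : |W h η| ≤ |M| := (hM η ⟨hη'.1.le, hη'.2.le⟩).trans (le_abs_self M)
  have hn1 : (1 : ℝ) ≤ (n : ℝ) ^ 2 := by
    have : (1 : ℝ) ≤ n := by exact_mod_cast hn
    nlinarith
  have s1 : |(n : ℝ) ^ 2 * W h η * y η + F η| ≤ (n : ℝ) ^ 2 * |M| * Y₀ + R := by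
    refine (abs_add_le _ _).trans ?_
    refine add_le_add ?_ b1.1
    rw [abs_mul, abs_mul, abs_of_nonneg (by positivity : (0 : ℝ) ≤ (n : ℝ) ^ 2)]
    exact mul_le_mul (mul_le_mul_of_nonneg_left hWη (by positivity)) b1.2 (abs_nonneg _)
      (by positivity)
  have s2 : |v ξ - v z| ≤ (n : ℝ) ^ 2 * |M| * Y₀ + R := by
    rw [e2', abs_mul, abs_of_nonneg t1]
    calc T ξ * |(n : ℝ) ^ 2 * W h η * y η + F η|
        ≤ 1 * |(n : ℝ) ^ 2 * W h η * y η + F η| :=
          mul_le_mul_of_nonneg_right t2 (abs_nonneg _)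
      _ ≤ _ := by rw [one_mul]; exact s1
  have s3 : |v ξ| ≤ 2 * Y₀ := by
    rw [e1']
    refine (abs_sub _ _).trans ?_
    linarith [b2.2, b3.2]
  have s4 : |v z| ≤ |v ξ| + |v ξ - v z| := by
    have h1 : v z = v ξ - (v ξ - v z) := by ring
    calc |v z| = |v ξ - (v ξ - v z)| := by rw [← h1]
      _ ≤ _ := abs_sub _ _
  have hR : 0 ≤ R := (abs_nonneg _).trans b1.1
  have hM0 : 0 ≤ |M| := abs_nonneg M
  nlinarith [mul_nonneg hM0 hR, mul_nonneg (sub_nonneg.2 hn1) hY0]

end Pool.Agent.Lib.MP478c11.DB
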