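import Pool.Agent.Lib.MP_478c11_gt.DB.Spec

/-!
# MP_478c11, DB: module WRO (the Wronskian)
-/

set_option autoImplicit false

namespace Pool.Agent.Lib.MP478c11.DB

open Set Filter Topology MeasureTheory
open scoped ContDiff

namespace WROM

theorem deriv_wr {h : ℝ → ℝ} {n : ℕ} {F y v Y V : ℝ → ℝ} {I : Set ℝ} (h1 : Sys h n F y v I)
    (h2 : Sys h n O Y V I) {z : ℝ} (hz : z ∈ I) :
    HasDerivAt (fun z => Y z * v z - V z * y z) (Y z * F z / h z) z := by
  obtain ⟨a1, a2⟩ := h1 z hz
  obtain ⟨b1, b2⟩ := h2 z hz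
  have h3 := (b1.mul a2).sub (b2.mul a1)
  have h4 : V z / h z * v z + Y z * (((n : ℝ) ^ 2 * W h z * y z + F z) / h z) -
      (((n : ℝ) ^ 2 * W h z * Y z + O z) / h z * y z + V z * (v z / h z)) = Y z * F z / h z := by
    unfold O
    ring
  rw [← h4]
  exact h3

end WROM

open WROM in
theorem specWRO : SpecWRO := by
  refine ⟨?_, ?_⟩
  · intro h n F y v Y V I h1 h2 z hz
    exact deriv_wr h1 h2 hz
  · intro h n y v Y V I hI h1 h2 z hz z' hz'
    have h3 : ∀ x ∈ I, HasDerivWithinAt (fun z => Y z * v z - V z * y z) 0 I x := by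
      intro x hx
      have := deriv_wr h1 h2 hx
      unfold O at this
      rw [mul_zero, zero_div] at this
      exact this.hasDerivWithinAt
    have h4 := Convex.norm_image_sub_le_of_norm_hasDerivWithin_le (f := fun z => Y z * v z - V z * y z)
      (f' := fun _ => 0) (C := 0) h3 (fun x _ => by rw [norm_zero]) hI.convex hz' hz
    rw [zero_mul, norm_le_zero_iff, sub_eq_zero] at h4
    exact h4

end Pool.Agent.Lib.MP478c11.DB
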