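import Pool.Agent.Lib.MP_478c11_gt.DB.GRW
import Pool.Agent.Lib.MP_478c11_gt.DB.LIN
import Pool.Agent.Lib.MP_478c11_gt.DB.UNQ
import Pool.Agent.Lib.MP_478c11_gt.DB.WRO
import Pool.Agent.Lib.MP_478c11_gt.DB.REF
import Pool.Agent.Lib.MP_478c11_gt.DB.MXP
import Pool.Agent.Lib.MP_478c11_gt.DB.DVG
import Pool.Agent.Lib.MP_478c11_gt.DB.CAP
import Pool.Agent.Lib.MP_478c11_gt.DB.LEX
import Pool.Agent.Lib.MP_478c11_gt.DB.LKB
import Pool.Agent.Lib.MP_478c11_gt.DB.LUN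
import Pool.Agent.Lib.MP_478c11_gt.DB.NKB
import Pool.Agent.Lib.MP_478c11_gt.DB.VBD
import Pool.Agent.Lib.MP_478c11_gt.DB.EST
import Pool.Agent.Lib.MP_478c11_gt.DB.SQR
import Pool.Agent.Lib.MP_478c11_gt.DB.PD
import Pool.Agent.Lib.MP_478c11_gt.DB.DEP
import Pool.Agent.Lib.MP_478c11_gt.DB.CNT
import Pool.Agent.Lib.MP_478c11_gt.DB.LAG
import Pool.Agent.Lib.MP_478c11_gt.DB.STB
import Pool.Agent.Lib.MP_478c11_gt.DB.SML
import Pool.Agent.Lib.MP_478c11_gt.DB.ENJ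
import Pool.Agent.Lib.MP_478c11_gt.DB.AVG
import Pool.Agent.Lib.MP_478c11_gt.DB.DIF
import Pool.Agent.Lib.MP_478c11_gt.DB.OSC
import Pool.Agent.Lib.MP_478c11_gt.DB.GBD
import Pool.Agent.Lib.MP_478c11_gt.DB.BTR
import Pool.Agent.Lib.MP_478c11_gt.DB.ROT
import Pool.Agent.Lib.MP_478c11_gt.DB.GAM
import Pool.Agent.Lib.MP_478c11_gt.DB.LOW
import Pool.Agent.Lib.MP_478c11_gt.DB.MEA
import Pool.Agent.Lib.MP_478c11_gt.DB.NRX

set_option autoImplicit false

namespace Pool.Agent.Lib.MP478c11.DB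

theorem hREF : SpecREF := specREF
theorem hUNQ : SpecUNQ := specUNQ specGRW
theorem hCAP : SpecCAP := specCAP specMXP specDVG
theorem hLEX : SpecLEX := specLEX specLIN hUNQ
theorem hLUN : SpecLUN := specLUN hREF hCAP
theorem hNKB : SpecNKB := specNKB specGRW
theorem hEST : SpecEST := specEST specWRO hREF hCAP hLEX specLKB hNKB specVBD
theorem hPD : SpecPD := specPD specSQR
theorem hDEP : SpecDEP := specDEP specGRW specSQR hPD
theorem hCNT : SpecCNT := specCNT hPD hLUN hDEP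
theorem hLAG : SpecLAG := specLAG specSQR
theorem hSTB : SpecSTB := specSTB hUNQ specWRO hLUN specLKB specSQR hPD hDEP hLAG
theorem hSML : SpecSML := specSML hREF hLEX hPD hCNT hSTB
theorem hENJ : SpecENJ := specENJ specGRW
theorem hAVG : SpecAVG := specAVG hENJ
theorem hDIF : SpecDIF := specDIF specGRW hENJ
theorem hOSC : SpecOSC := specOSC hENJ hAVG hDIF
theorem hGBD : SpecGBD := specGBD specSQR
theorem hBTR : SpecBTR := specBTR specSQR
theorem hROT : SpecROT := specROT hOSC hGBD hBTR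
theorem hGAM : SpecGAM := specGAM specSQR
theorem hLOW : SpecLOW := specLOW specLIN hUNQ specWRO hLUN hNKB hPD hROT
theorem hNRX : SpecNRX := specNRX hUNQ hREF hLEX hLUN hPD hSML hGAM hLOW specMEA hCNT


end Pool.Agent.Lib.MP478c11.DB
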