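import Pool.Agent.Lib.MP_478c11_gt.DB.Geo

set_option autoImplicit false

namespace Pool.Agent.Lib.MP478c11.DB

open Set Filter Topology MeasureTheory
open scoped ContDiff

theorem specBOT : SpecBOT := by
  intro B
  set b := B + 1 with hb
  have hb1 : 1 ≤ b := by omega
  refine ⟨20 * b + 1, by omega, ?_⟩
  intro C K M hC hK hM
  set A : ℝ := C * 2 ^ B * K ^ 2 + C * M + M with hA
  have hA0 : 0 < A := by positivity
  set t₀ : ℝ := min 1 (1 / (4 * A)) with ht₀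
  have ht₀0 : 0 < t₀ := lt_min one_pos (by positivity)
  refine ⟨t₀ ^ (10 * b), by positivity, ?_⟩
  intro ν hν hνle
  have hbR : (0 : ℝ) < 10 * b := by positivity
  set t : ℝ := ν ^ (1 / (10 * (b : ℝ))) with ht
  have ht0 : 0 < t := Real.rpow_pos_of_pos hν _
  have htν : t ^ (10 * b) = ν := by
    rw [ht, ← Real.rpow_natCast, ← Real.rpow_mul hν.le]
    push_cast
    rw [one_div, inv_mul_cancel₀ hbR.ne', Real.rpow_one]
  have htle : t ≤ t₀ := by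
    have h1 : t ^ (10 * b) ≤ t₀ ^ (10 * b) := by rw [htν]; exact hνle
    exact le_of_pow_le_pow_left₀ (by omega) ht₀0.le h1
  have ht1 : t ≤ 1 := htle.trans (min_le_left _ _)
  have htA : t ≤ 1 / (4 * A) := htle.trans (min_le_right _ _)
  have hp1 : ν ^ (9 / 10 : ℝ) = t ^ (9 * b) := by
    rw [← htν, ← Real.rpow_natCast, ← Real.rpow_natCast, ← Real.rpow_mul ht0.le]
    congr 1
    push_cast
    ring
  have hp2 : (ν ^ 4) ^ (-(1 / 40 : ℝ)) = (t ^ b)⁻¹ := by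
    rw [← htν, ← pow_mul, ← Real.rpow_natCast t (10 * b * 4), ← Real.rpow_mul ht0.le,
      ← Real.rpow_natCast t b, ← Real.rpow_neg ht0.le]
    congr 1
    push_cast
    ring
  have hx1 : 1 ≤ t⁻¹ := (one_le_inv₀ ht0).mpr ht1
  refine ⟨⌈t⁻¹⌉₊, ?_, ?_⟩
  · have : 0 < ⌈t⁻¹⌉₊ := Nat.ceil_pos.mpr (by linarith)
    omega
  set L := ⌈t⁻¹⌉₊ with hL
  have hL1 : t⁻¹ ≤ L := Nat.le_ceil _
  have hL2 : (L : ℝ) ≤ 2 * t⁻¹ := by
    have := (Nat.ceil_lt_add_one (by linarith : (0 : ℝ) ≤ t⁻¹)).le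
    linarith
  have hLB : (L : ℝ) ^ B ≤ 2 ^ B * (t ^ B)⁻¹ := by
    have h1 := pow_le_pow_left₀ (Nat.cast_nonneg L) hL2 B
    rwa [mul_pow, inv_pow] at h1
  have hLJ : M / (L : ℝ) ^ (20 * b + 1 - 1) ≤ M * t ^ (20 * b) := by
    rw [Nat.add_sub_cancel, div_eq_mul_inv]
    apply mul_le_mul_of_nonneg_left _ hM.le
    have h1 : (t⁻¹) ^ (20 * b) ≤ (L : ℝ) ^ (20 * b) :=
      pow_le_pow_left₀ (inv_nonneg.mpr ht0.le) hL1 _
    rw [inv_pow] at h1
    have h2 := inv_anti₀ (by positivity) h1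
    rwa [inv_inv] at h2
  rw [hp1, hp2]
  have h1 : (L : ℝ) ^ B * (K * t ^ (9 * b)) ^ 2 * (t ^ b)⁻¹ ≤ 2 ^ B * K ^ 2 * t ^ (16 * b) := by
    have e1 : (K * t ^ (9 * b)) ^ 2 * (t ^ b)⁻¹ = K ^ 2 * t ^ (17 * b) := by
      have : t ^ (18 * b) = t ^ (17 * b) * t ^ b := by rw [← pow_add]; congr 1; ring
      rw [mul_pow, ← pow_mul, show 9 * b * 2 = 18 * b by ring, this]
      field_simp
    rw [mul_assoc, e1]
    have e2 : t ^ (17 * b) = t ^ B * (t ^ (16 * b + 1)) := by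
      rw [← pow_add]; congr 1; omega
    calc (L : ℝ) ^ B * (K ^ 2 * t ^ (17 * b)) ≤ (2 ^ B * (t ^ B)⁻¹) * (K ^ 2 * t ^ (17 * b)) :=
          mul_le_mul_of_nonneg_right hLB (by positivity)
      _ = 2 ^ B * K ^ 2 * t ^ (16 * b + 1) := by
          rw [e2]; field_simp
      _ ≤ 2 ^ B * K ^ 2 * t ^ (16 * b) := by
          apply mul_le_mul_of_nonneg_left _ (by positivity)
          exact pow_le_pow_of_le_one ht0.le ht1 (by omega)
  have h2 : t ^ (20 * b) ≤ t ^ (16 * b) := pow_le_pow_of_le_one ht0.le ht1 (by omega)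
  have h3 : ν ^ 2 ≤ t ^ (16 * b) := by
    rw [← htν, ← pow_mul]
    exact pow_le_pow_of_le_one ht0.le ht1 (by omega)
  have h4 : C * ((L : ℝ) ^ B * (K * t ^ (9 * b)) ^ 2 * (t ^ b)⁻¹ + M / (L : ℝ) ^ (20 * b + 1 - 1))
      + M * ν ^ 2 ≤ A * t ^ (16 * b) := by
    have e1 : M / (L : ℝ) ^ (20 * b + 1 - 1) ≤ M * t ^ (16 * b) :=
      hLJ.trans (mul_le_mul_of_nonneg_left h2 hM.le)
    have e2 : C * ((L : ℝ) ^ B * (K * t ^ (9 * b)) ^ 2 * (t ^ b)⁻¹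
        + M / (L : ℝ) ^ (20 * b + 1 - 1)) ≤ C * (2 ^ B * K ^ 2 * t ^ (16 * b)
        + M * t ^ (16 * b)) := mul_le_mul_of_nonneg_left (add_le_add h1 e1) hC.le
    have e3 : M * ν ^ 2 ≤ M * t ^ (16 * b) := mul_le_mul_of_nonneg_left h3 hM.le
    calc _ ≤ C * (2 ^ B * K ^ 2 * t ^ (16 * b) + M * t ^ (16 * b)) + M * t ^ (16 * b) :=
          add_le_add e2 e3
      _ = A * t ^ (16 * b) := by rw [hA]; ring
  refine lt_of_le_of_lt h4 ?_
  have h5 : t ^ (16 * b) ≤ t * ν := by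
    have e1 : t * ν = t ^ (10 * b + 1) := by rw [pow_succ, htν, mul_comm]
    rw [e1]
    exact pow_le_pow_of_le_one ht0.le ht1 (by omega)
  have h6 : A * t ≤ 1 / 4 := by
    have e1 := mul_le_mul_of_nonneg_left htA hA0.le
    have e2 : A * (1 / (4 * A)) = 1 / 4 := by field_simp
    linarith
  calc A * t ^ (16 * b) ≤ A * (t * ν) := mul_le_mul_of_nonneg_left h5 hA0.le
    _ = (A * t) * ν := by ring
    _ ≤ 1 / 4 * ν := mul_le_mul_of_nonneg_right h6 hν.le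
    _ < ν / 2 := by linarith

end Pool.Agent.Lib.MP478c11.DB
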