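import Pool.Agent.Lib.MP_478c11_gt.DB.Many

/-!
# MP_478c11_gt, module CPM: the two caps of a sphere of revolution with several necks
-/

set_option autoImplicit false

namespace Pool.Agent.Lib.MP478c11.DB

open Set Filter Topology MeasureTheory
open scoped ContDiff

noncomputable section

namespace CPMM

/-- The curvature only depends on the germ. -/
theorem W_congr {h h' : ℝ → ℝ} {z : ℝ} (he : h' =ᶠ[𝓝 z] h) : W h' z = W h z := by
  unfold W
  rw [he.deriv_eq, he.deriv.deriv_eq, he.eq_of_nhds]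

theorem sys_mono {h : ℝ → ℝ} {n : ℕ} {F y v : ℝ → ℝ} {I J : Set ℝ} (hs : Sys h n F y v I)
    (hJ : J ⊆ I) : Sys h n F y v J := fun z hz => hs z (hJ hz)

theorem sys_congr {h h' : ℝ → ℝ} {n : ℕ} {F y v : ℝ → ℝ} {I : Set ℝ} (hs : Sys h n F y v I)
    (he : ∀ z ∈ I, h' =ᶠ[𝓝 z] h) : Sys h' n F y v I := by
  intro z hz
  have h1 := he z hz
  rw [W_congr h1, h1.eq_of_nhds]
  exact hs z hz

theorem W_refl (h : ℝ → ℝ) (z : ℝ) : W (fun z => h (-z)) z = W h (-z) := by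
  unfold W
  have h1 : deriv (fun z => h (-z)) = fun z => -deriv h (-z) := by
    funext x
    exact deriv_comp_neg h x
  have h2 : deriv (deriv (fun z => h (-z))) z = deriv (deriv h) (-z) := by
    rw [h1, deriv.fun_neg, deriv_comp_neg (deriv h) z, neg_neg]
  rw [h2, h1]
  ring

theorem sys_refl {h : ℝ → ℝ} {n : ℕ} {F y v : ℝ → ℝ} {I : Set ℝ} (hs : Sys h n F y v I) :
    Sys (fun z => h (-z)) n (fun z => F (-z)) (fun z => y (-z)) (fun z => -v (-z))
      {z | -z ∈ I} := by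
  intro z hz
  obtain ⟨h1, h2⟩ := hs (-z) hz
  have h3 := h1.comp z (hasDerivAt_neg z)
  have h4 := (h2.comp z (hasDerivAt_neg z)).neg
  refine ⟨?_, ?_⟩
  · refine HasDerivAt.congr_deriv (f := fun z => y (-z)) h3 ?_
    ring
  · refine HasDerivAt.congr_deriv (f := fun z => -v (-z)) h4 ?_
    rw [W_refl]
    ring

theorem sph_refl {h : ℝ → ℝ} {a b : ℝ} (hS : Sph h a b) : Sph (fun z => h (-z)) (-b) (-a) where
  smooth := hS.smooth.comp contDiff_neg
  ab := by linarith [hS.ab]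
  ha := by simp [hS.hb]
  hb := by simp [hS.ha]
  pos := fun z h1 h2 => hS.pos (-z) (by linarith) (by linarith)
  da := by
    rw [deriv_comp_neg, neg_neg]
    linarith [hS.db]
  db := by
    rw [deriv_comp_neg, neg_neg]
    linarith [hS.da]

/-- The left cap. -/
theorem left (hCAP : SpecCAP) (hLEX : SpecLEX) (hLIS : SpecLIS) (hUNS : SpecUNS)
    (h h' : ℝ → ℝ) (a b b' p q η : ℝ) (hS : Sph h a b) (hD : Dumb h' a p q b') (hη : 0 < η)
    (hqb : q + η < b) (he : ∀ z, z ≤ q + η → h' z = h z) :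
    ∃ C : ℝ, 0 < C ∧ ∀ n : ℕ, 1 ≤ n →
    (∃ Y V : ℝ → ℝ, Sys h n O Y V (Ioo a b) ∧ Y p = 1 ∧ (∀ z ∈ Ioc a p, |Y z| ≤ 1) ∧
      ∀ (F y v : ℝ → ℝ) (R M : ℝ), Sys h n F y v (Ioc a p) → 0 ≤ R →
      (∀ z ∈ Ioc a p, |F z| ≤ R ∧ |y z| ≤ M) →
      (∀ z ∈ Ioc a p, |y z - y p * Y z| ≤ C * R) ∧ |v p - y p * V p| ≤ C * (n : ℝ) ^ 2 * R) := by
  obtain ⟨C, hC, hcap⟩ := hCAP h' a p q b' hD
  refine ⟨C, hC, fun n hn => ?_⟩
  obtain ⟨Y', V', hL⟩ := hLEX h' a p q b' hD n hn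
  have hap := hD.ap
  have hpq := hD.pq
  have hpb : p < b := by linarith
  have hpb' : p < b' := hpq.trans hD.qb
  obtain ⟨Y, V, hsys, hYp, hVp⟩ := hLIS h a b hS n p ⟨hap, hpb⟩ 1 (V' p)
  have hgerm : ∀ z ∈ Ioc a p, h' =ᶠ[𝓝 z] h := by
    intro z hz
    filter_upwards [Iio_mem_nhds (show z < q + η by linarith [hz.2])] with x hx
    exact he x (le_of_lt hx)
  have hgerm' : ∀ z ∈ Ioc a p, h =ᶠ[𝓝 z] h' := fun z hz => (hgerm z hz).symm
  have hsub : Ioc a p ⊆ Ioo a b := fun z hz => ⟨hz.1, by linarith [hz.2]⟩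
  have hsub' : Ioc a p ⊆ Ioo a b' := fun z hz => ⟨hz.1, by linarith [hz.2]⟩
  have hs1 : Sys h n O Y V (Ioc a p) := sys_mono hsys hsub
  have hs2' : Sys h' n O Y' V' (Ioc a p) := sys_mono hL.sys hsub'
  have hs2 : Sys h n O Y' V' (Ioc a p) := sys_congr hs2' hgerm'
  have hagree := hUNS h a b hS n O Y V Y' V' (Ioc a p) ordConnected_Ioc hsub hs1 hs2 p
    ⟨hap, le_refl p⟩ (by rw [hYp, hL.one]) hVp
  refine ⟨Y, V, hsys, hYp, ?_, ?_⟩
  · intro z hz
    rw [(hagree z hz).1, abs_of_nonneg (hL.bd z hz).1]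
    exact (hL.bd z hz).2.1
  · intro F y v R M hs hR hb
    have hs' : Sys h' n F y v (Ioc a p) := sys_congr hs hgerm
    have hs3 : Sys h' n F (fun z => y z - y p * Y' z) (fun z => v z - y p * V' z) (Ioc a p) := by
      intro z hz
      obtain ⟨d1, d2⟩ := hs' z hz
      obtain ⟨d3, d4⟩ := hs2' z hz
      refine ⟨?_, ?_⟩
      · refine (d1.sub (d3.const_mul (y p))).congr_deriv ?_
        ring
      · refine (d2.sub (d4.const_mul (y p))).congr_deriv ?_
        simp only [O]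
        ring
    have hres := hcap n hn F (fun z => y z - y p * Y' z) (fun z => v z - y p * V' z) R
      (M + |y p|) hs3 hR (fun z hz => ⟨(hb z hz).1, ?_⟩) (by
        show y p - y p * Y' p = 0
        rw [hL.one]
        ring)
    · refine ⟨fun z hz => ?_, ?_⟩
      · rw [(hagree z hz).1]
        exact hres.1 z hz
      · rw [hVp]
        exact hres.2
    · show |y z - y p * Y' z| ≤ M + |y p|
      have h1 : |y p * Y' z| ≤ |y p| := by
        rw [abs_mul, abs_of_nonneg (hL.bd z hz).1]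
        have := (hL.bd z hz).2.1
        nlinarith [abs_nonneg (y p)]
      calc |y z - y p * Y' z| ≤ |y z| + |y p * Y' z| := abs_sub _ _
        _ ≤ M + |y p| := add_le_add (hb z hz).2 h1

end CPMM

open CPMM in
/-- **CPM.** The two caps. -/
theorem specCPM (hREF : SpecREF) (hCAP : SpecCAP) (hLEX : SpecLEX) (hEXT : SpecEXT)
    (hLIS : SpecLIS) (hUNS : SpecUNS) : SpecCPM := by
  intro h a b k p q hM hk
  -- the left cap
  obtain ⟨h₁, a₁, b₁, η₁, hη₁, hD₁, -, -, -, hqb₁, -, hj₁, -⟩ := hEXT h a b k p q hM 0 (by omega)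
  obtain ⟨ha₁, he₁⟩ := hj₁ rfl
  rw [ha₁] at hD₁
  obtain ⟨C₁, hC₁, hleft⟩ := left hCAP hLEX hLIS hUNS h h₁ a b b₁ (p 0) (q 0) η₁ hM.sph hD₁ hη₁
    hqb₁ he₁
  -- the right cap
  obtain ⟨h₂, a₂, b₂, η₂, hη₂, hD₂, -, -, hap₂, -, -, -, hj₂⟩ :=
    hEXT h a b k p q hM (k - 1) (by omega)
  obtain ⟨hb₂, he₂⟩ := hj₂ (by omega)
  rw [hb₂] at hD₂
  have hDr := (hREF h₂ a₂ (p (k - 1)) (q (k - 1)) b hD₂).1
  obtain ⟨C₂, hC₂, hright⟩ := left hCAP hLEX hLIS hUNS (fun z => h (-z)) (fun z => h₂ (-z)) (-b)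
    (-a) (-a₂) (-(q (k - 1))) (-(p (k - 1))) η₂ (sph_refl hM.sph) hDr hη₂ (by linarith)
    (fun z hz => he₂ (-z) (by linarith))
  refine ⟨C₁ + C₂, by linarith, fun n hn => ⟨?_, ?_⟩⟩
  · obtain ⟨Y, V, hs, h1, hY, hest⟩ := hleft n hn
    refine ⟨Y, V, hs, h1, hY, fun F y v R M hsys hR hb => ?_⟩
    obtain ⟨e1, e2⟩ := hest F y v R M hsys hR hb
    have hCR : C₁ * R ≤ (C₁ + C₂) * R := by nlinarith
    have hn2 : (0 : ℝ) ≤ (n : ℝ) ^ 2 := by positivity
    have hCn : C₁ * (n : ℝ) ^ 2 * R ≤ (C₁ + C₂) * (n : ℝ) ^ 2 * R := by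
      have := mul_nonneg hn2 hR
      nlinarith
    exact ⟨fun z hz => (e1 z hz).trans hCR, e2.trans hCn⟩
  · obtain ⟨Y, V, hs, h1, hY, hest⟩ := hright n hn
    have hset : ∀ z, z ∈ Ico (q (k - 1)) b → -z ∈ Ioc (-b) (-(q (k - 1))) := fun z hz =>
      ⟨by linarith [hz.2], by linarith [hz.1]⟩
    have hqb : q (k - 1) < b := (hM.pq (k - 1) (by omega)).2.2
    refine ⟨fun z => Y (-z), fun z => -V (-z), ?_, h1, fun z hz => hY (-z) (hset z hz),
      fun F y v R M hsys hR hb => ?_⟩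
    · have h3 := sys_refl hs
      have h4 : (fun z => (fun z => h (-z)) (-z)) = h := by
        funext z
        show h (- -z) = h z
        rw [neg_neg]
      rw [h4] at h3
      intro z hz
      exact h3 z ⟨by linarith [hz.2], by linarith [hz.1]⟩
    · have h3 := sys_refl hsys
      have h5 : Sys (fun z => h (-z)) n (fun z => F (-z)) (fun z => y (-z)) (fun z => -v (-z))
          (Ioc (-b) (-(q (k - 1)))) := by
        intro z hz
        exact h3 z ⟨by linarith [hz.2], by linarith [hz.1]⟩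
      obtain ⟨e1, e2⟩ := hest _ _ _ R M h5 hR (fun z hz =>
        hb (-z) ⟨by linarith [hz.2], by linarith [hz.1]⟩)
      have hCR : C₂ * R ≤ (C₁ + C₂) * R := by nlinarith
      have hn2 : (0 : ℝ) ≤ (n : ℝ) ^ 2 := by positivity
      have hCn : C₂ * (n : ℝ) ^ 2 * R ≤ (C₁ + C₂) * (n : ℝ) ^ 2 * R := by
        have := mul_nonneg hn2 hR
        nlinarith
      refine ⟨fun z hz => ?_, ?_⟩
      · have h6 := e1 (-z) (hset z hz)
        simp only [neg_neg] at h6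
        exact h6.trans hCR
      · simp only [neg_neg] at e2
        have h7 : |v (q (k - 1)) - y (q (k - 1)) * -V (-(q (k - 1)))| =
            |-v (q (k - 1)) - y (q (k - 1)) * V (-(q (k - 1)))| := by
          rw [← abs_neg]
          congr 1
          ring
        show |v (q (k - 1)) - y (q (k - 1)) * -V (-(q (k - 1)))| ≤ _
        rw [h7]
        exact e2.trans hCn

end

end Pool.Agent.Lib.MP478c11.DB
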