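import Pool.Agent.Lib.MP_478c11_gt.DB.Geo

/-!
# MP_478c11_gt, module DUI: Fourier coefficients and derivatives
-/

set_option autoImplicit false

namespace Pool.Agent.Lib.MP478c11.DB

open Set Filter Topology MeasureTheory
open scoped ContDiff InnerProductSpace

namespace DUIM

/-- the exponential -/
noncomputable def eN (n : ℤ) (θ : ℝ) : ℂ := Complex.exp (-(Complex.I * n * θ))

theorem cf_eq (n : ℤ) (φ : ℝ → ℝ → ℝ) (z : ℝ) :
    cf n φ z = 1 / (2 * Real.pi) * ∫ θ in (0 : ℝ)..2 * Real.pi, (φ z θ : ℂ) * eN n θ := rfl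

theorem eN_norm (n : ℤ) (θ : ℝ) : ‖eN n θ‖ = 1 := by
  have h : eN n θ = Complex.exp (((-(n * θ) : ℝ) : ℂ) * Complex.I) := by
    unfold eN
    congr 1
    push_cast
    ring
  rw [h, Complex.norm_exp_ofReal_mul_I]

theorem eN_cont (n : ℤ) : Continuous (eN n) := by
  unfold eN
  fun_prop

theorem eN_deriv (n : ℤ) (θ : ℝ) : HasDerivAt (eN n) (eN n θ * -(Complex.I * n)) θ := by
  have h1 : HasDerivAt (fun θ : ℝ => -(Complex.I * n * (θ : ℂ))) (-(Complex.I * n)) θ := by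
    have h2 : HasDerivAt (fun θ : ℝ => (θ : ℂ)) 1 θ := Complex.ofRealCLM.hasDerivAt
    have h3 := (h2.const_mul (Complex.I * n)).neg
    rw [mul_one] at h3
    exact h3
  exact h1.cexp

theorem eN_two_pi (n : ℤ) : eN n (2 * Real.pi) = 1 := by
  unfold eN
  rw [Complex.exp_eq_one_iff]
  refine ⟨-n, ?_⟩
  push_cast
  ring

theorem eN_zero (n : ℤ) : eN n 0 = 1 := by
  unfold eN
  simp

theorem eN_sub (n : ℤ) (θ : ℝ) : eN (n - 1) θ = eN n θ * Complex.exp (θ * Complex.I) := by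
  unfold eN
  rw [← Complex.exp_add]
  congr 1
  push_cast
  ring

theorem eN_add (n : ℤ) (θ : ℝ) : eN (n + 1) θ = eN n θ * Complex.exp (-θ * Complex.I) := by
  unfold eN
  rw [← Complex.exp_add]
  congr 1
  push_cast
  ring

theorem cos_eN (n : ℤ) (θ : ℝ) :
    ((Real.cos θ : ℝ) : ℂ) * eN n θ = (eN (n - 1) θ + eN (n + 1) θ) / 2 := by
  rw [eN_sub, eN_add, Complex.ofReal_cos, Complex.cos]
  ring

theorem sin_eN (n : ℤ) (θ : ℝ) :
    ((Real.sin θ : ℝ) : ℂ) * eN n θ = (eN (n - 1) θ - eN (n + 1) θ) / (2 * Complex.I) := by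
  rw [eN_sub, eN_add, Complex.ofReal_sin, Complex.sin, eq_div_iff (by simp)]
  have h := Complex.I_mul_I
  linear_combination (Complex.exp (-θ * Complex.I) - Complex.exp (θ * Complex.I)) * eN n θ * h

variable {a b : ℝ} {φ : ℝ → ℝ → ℝ}

theorem isOpenΩ (a b : ℝ) : IsOpen (Ioo a b ×ˢ (univ : Set ℝ)) := isOpen_Ioo.prod isOpen_univ

theorem fdiff (hφ : Fld a b φ) {z : ℝ} (hz : z ∈ Ioo a b) (θ : ℝ) :
    HasFDerivAt (fun p : ℝ × ℝ => φ p.1 p.2) (fderiv ℝ (fun p : ℝ × ℝ => φ p.1 p.2) (z, θ))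
      (z, θ) := by
  have h1 : (z, θ) ∈ Ioo a b ×ˢ (univ : Set ℝ) := ⟨hz, mem_univ _⟩
  exact ((hφ.1.contDiffAt ((isOpenΩ a b).mem_nhds h1)).differentiableAt (by simp)).hasFDerivAt

theorem fdz (hφ : Fld a b φ) {z : ℝ} (hz : z ∈ Ioo a b) (θ : ℝ) :
    HasDerivAt (fun s => φ s θ) (fderiv ℝ (fun p : ℝ × ℝ => φ p.1 p.2) (z, θ) (1, 0)) z := by
  have h1 : HasDerivAt (fun s : ℝ => ((s, θ) : ℝ × ℝ)) (1, 0) z :=
    (hasDerivAt_id z).prodMk (hasDerivAt_const z θ)
  exact (fdiff hφ hz θ).comp_hasDerivAt z h1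

theorem fdt (hφ : Fld a b φ) {z : ℝ} (hz : z ∈ Ioo a b) (θ : ℝ) :
    HasDerivAt (fun s => φ z s) (fderiv ℝ (fun p : ℝ × ℝ => φ p.1 p.2) (z, θ) (0, 1)) θ := by
  have h1 : HasDerivAt (fun s : ℝ => ((z, s) : ℝ × ℝ)) (0, 1) θ :=
    (hasDerivAt_const θ z).prodMk (hasDerivAt_id θ)
  exact (fdiff hφ hz θ).comp_hasDerivAt θ h1

theorem hdz (hφ : Fld a b φ) {z : ℝ} (hz : z ∈ Ioo a b) (θ : ℝ) :
    HasDerivAt (fun s => φ s θ) (dz φ z θ) z := by
  have h := fdz hφ hz θ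
  have h2 : dz φ z θ = _ := h.deriv
  rw [h2]; exact h

theorem hdt (hφ : Fld a b φ) {z : ℝ} (hz : z ∈ Ioo a b) (θ : ℝ) :
    HasDerivAt (fun s => φ z s) (dt φ z θ) θ := by
  have h := fdt hφ hz θ
  have h2 : dt φ z θ = _ := h.deriv
  rw [h2]; exact h

theorem fld (hφ : Fld a b φ) : Fld a b (dz φ) ∧ Fld a b (dt φ) := by
  have h1 : ContDiffOn ℝ ∞ (fderiv ℝ (fun p : ℝ × ℝ => φ p.1 p.2)) (Ioo a b ×ˢ univ) :=
    hφ.1.fderiv_of_isOpen (isOpenΩ a b) (by simp)
  refine ⟨⟨?_, fun z θ => ?_⟩, ⟨?_, fun z θ => ?_⟩⟩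
  · refine (h1.clm_apply (contDiffOn_const (c := ((1 : ℝ), (0 : ℝ))))).congr ?_
    rintro ⟨z, θ⟩ ⟨hz, -⟩
    exact (fdz hφ hz θ).deriv
  · change deriv (fun s => φ s (θ + 2 * Real.pi)) z = deriv (fun s => φ s θ) z
    congr 1
    funext s
    exact hφ.2 s θ
  · refine (h1.clm_apply (contDiffOn_const (c := ((0 : ℝ), (1 : ℝ))))).congr ?_
    rintro ⟨z, θ⟩ ⟨hz, -⟩
    exact (fdt hφ hz θ).deriv
  · change deriv (fun s => φ z s) (θ + 2 * Real.pi) = deriv (fun s => φ z s) θ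
    rw [← deriv_comp_add_const]
    congr 1
    funext s
    exact hφ.2 z s

theorem slice (hφ : Fld a b φ) {z : ℝ} (hz : z ∈ Ioo a b) : Continuous (fun θ => φ z θ) :=
  hφ.1.continuousOn.comp_continuous (f := fun θ : ℝ => ((z, θ) : ℝ × ℝ)) (by fun_prop)
    (fun θ => ⟨hz, mem_univ _⟩)

theorem slice_int (hφ : Fld a b φ) {z : ℝ} (hz : z ∈ Ioo a b) (n : ℤ) :
    Continuous (fun θ => (φ z θ : ℂ) * eN n θ) :=
  (Complex.continuous_ofReal.comp (slice hφ hz)).mul (eN_cont n)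

theorem p1 (hφ : Fld a b φ) (n : ℤ) {z : ℝ} (hz : z ∈ Ioo a b) :
    HasDerivAt (cf n φ) (cf n (dz φ) z) z := by
  obtain ⟨ε, hε, hsub⟩ : ∃ ε > 0, Icc (z - ε) (z + ε) ⊆ Ioo a b := by
    refine ⟨min ((z - a) / 2) ((b - z) / 2), lt_min (by linarith [hz.1]) (by linarith [hz.2]), ?_⟩
    intro t ht
    have h1 := min_le_left ((z - a) / 2) ((b - z) / 2)
    have h2 := min_le_right ((z - a) / 2) ((b - z) / 2)
    exact ⟨by linarith [ht.1, hz.1], by linarith [ht.2, hz.2]⟩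
  have hD := (fld hφ).1
  obtain ⟨M, hM⟩ := (isCompact_Icc.prod isCompact_Icc :
    IsCompact (Icc (z - ε) (z + ε) ×ˢ Icc (0 : ℝ) (2 * Real.pi))).exists_bound_of_continuousOn
    (f := fun p : ℝ × ℝ => dz φ p.1 p.2)
    (hD.1.continuousOn.mono (prod_mono hsub (subset_univ _)))
  have hnhds : Icc (z - ε) (z + ε) ∈ 𝓝 z := Icc_mem_nhds (by linarith) (by linarith)
  have key := intervalIntegral.hasDerivAt_integral_of_dominated_loc_of_deriv_le
    (μ := volume) (a := (0 : ℝ)) (b := 2 * Real.pi)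
    (F := fun x θ => (φ x θ : ℂ) * eN n θ) (F' := fun x θ => ((dz φ x θ : ℝ) : ℂ) * eN n θ)
    (x₀ := z) (s := Icc (z - ε) (z + ε)) (bound := fun _ => M) hnhds
    (by
      filter_upwards [hnhds] with x hx
      exact (slice_int hφ (hsub hx) n).aestronglyMeasurable)
    ((slice_int hφ hz n).intervalIntegrable _ _)
    ((slice_int hD hz n).aestronglyMeasurable)
    (by
      refine Eventually.of_forall fun t ht x hx => ?_
      rw [uIoc_of_le (by positivity)] at ht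
      rw [norm_mul, eN_norm, mul_one, Complex.norm_real]
      exact hM (x, t) ⟨hx, ⟨ht.1.le, ht.2⟩⟩)
    intervalIntegrable_const
    (by
      refine Eventually.of_forall fun t _ x hx => ?_
      exact (hdz hφ (hsub hx) t).ofReal_comp.mul_const _)
  exact key.2.const_mul _

theorem p2 (hφ : Fld a b φ) (n : ℤ) {z : ℝ} (hz : z ∈ Ioo a b) :
    cf n (dt φ) z = Complex.I * n * cf n φ z := by
  have hD := (fld hφ).2
  have h1 : ∀ θ : ℝ, HasDerivAt (fun θ => (φ z θ : ℂ) * eN n θ)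
      (((dt φ z θ : ℝ) : ℂ) * eN n θ + (φ z θ : ℂ) * (eN n θ * -(Complex.I * n))) θ := fun θ =>
    (hdt hφ hz θ).ofReal_comp.mul (eN_deriv n θ)
  have c1 := slice_int hD hz n
  have c2 : Continuous (fun θ => (φ z θ : ℂ) * (eN n θ * -(Complex.I * n))) :=
    (Complex.continuous_ofReal.comp (slice hφ hz)).mul ((eN_cont n).mul continuous_const)
  have h2 := intervalIntegral.integral_eq_sub_of_hasDerivAt (a := (0 : ℝ)) (b := 2 * Real.pi)
    (fun θ _ => h1 θ) ((c1.add c2).intervalIntegrable _ _)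
  have hper : φ z (2 * Real.pi) = φ z 0 := by
    have := hφ.2 z 0
    rwa [zero_add] at this
  rw [eN_two_pi, eN_zero, hper, sub_self, intervalIntegral.integral_add
    (c1.intervalIntegrable _ _) (c2.intervalIntegrable _ _)] at h2
  have h3 : ∫ θ in (0 : ℝ)..2 * Real.pi, (φ z θ : ℂ) * (eN n θ * -(Complex.I * n)) =
      -(Complex.I * n) * ∫ θ in (0 : ℝ)..2 * Real.pi, (φ z θ : ℂ) * eN n θ := by
    rw [← intervalIntegral.integral_const_mul]
    refine intervalIntegral.integral_congr fun θ _ => ?_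
    ring
  rw [h3] at h2
  rw [cf_eq, cf_eq]
  linear_combination (1 / (2 * Real.pi) : ℂ) * h2

end DUIM

open DUIM in
theorem specDUI : SpecDUI := by
  refine ⟨fun a b φ n hφ z hz => ⟨p1 hφ n hz, p2 hφ n hz⟩, ?_, ?_, ?_, fun a b φ hφ => fld hφ⟩
  · intro a b φ ψ n s t hφ hψ z hz
    rw [cf_eq, cf_eq, cf_eq]
    have h1 : ∫ θ in (0 : ℝ)..2 * Real.pi, ((s * φ z θ + t * ψ z θ : ℝ) : ℂ) * eN n θ =
        s * (∫ θ in (0 : ℝ)..2 * Real.pi, (φ z θ : ℂ) * eN n θ) +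
          t * ∫ θ in (0 : ℝ)..2 * Real.pi, (ψ z θ : ℂ) * eN n θ := by
      rw [← intervalIntegral.integral_const_mul, ← intervalIntegral.integral_const_mul,
        ← intervalIntegral.integral_add]
      · refine intervalIntegral.integral_congr fun θ _ => ?_
        push_cast
        ring
      · exact (continuous_const.mul (slice_int hφ hz n)).intervalIntegrable _ _
      · exact (continuous_const.mul (slice_int hψ hz n)).intervalIntegrable _ _
    rw [h1]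
    ring
  · intro a b φ n hφ z hz
    have i1 := (slice_int hφ hz (n - 1)).intervalIntegrable (μ := volume) 0 (2 * Real.pi)
    have i2 := (slice_int hφ hz (n + 1)).intervalIntegrable (μ := volume) 0 (2 * Real.pi)
    constructor
    · rw [cf_eq, cf_eq, cf_eq]
      have h1 : ∫ θ in (0 : ℝ)..2 * Real.pi, ((Real.cos θ * φ z θ : ℝ) : ℂ) * eN n θ =
          ((∫ θ in (0 : ℝ)..2 * Real.pi, (φ z θ : ℂ) * eN (n - 1) θ) +
            ∫ θ in (0 : ℝ)..2 * Real.pi, (φ z θ : ℂ) * eN (n + 1) θ) / 2 := by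
        rw [← intervalIntegral.integral_add i1 i2, ← intervalIntegral.integral_div]
        refine intervalIntegral.integral_congr fun θ _ => ?_
        have h2 := cos_eN n θ
        change ((Real.cos θ * φ z θ : ℝ) : ℂ) * eN n θ = _
        rw [Complex.ofReal_mul]
        linear_combination (φ z θ : ℂ) * h2
      rw [h1]
      ring
    · rw [cf_eq, cf_eq, cf_eq]
      have h1 : ∫ θ in (0 : ℝ)..2 * Real.pi, ((Real.sin θ * φ z θ : ℝ) : ℂ) * eN n θ =
          ((∫ θ in (0 : ℝ)..2 * Real.pi, (φ z θ : ℂ) * eN (n - 1) θ) -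
            ∫ θ in (0 : ℝ)..2 * Real.pi, (φ z θ : ℂ) * eN (n + 1) θ) / (2 * Complex.I) := by
        rw [← intervalIntegral.integral_sub i1 i2, ← intervalIntegral.integral_div]
        refine intervalIntegral.integral_congr fun θ _ => ?_
        have h2 := sin_eN n θ
        change ((Real.sin θ * φ z θ : ℝ) : ℂ) * eN n θ = _
        rw [Complex.ofReal_mul]
        linear_combination (φ z θ : ℂ) * h2
      rw [h1]
      ring
  · intro φ n z T hT
    rw [cf_eq, norm_mul]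
    have h1 : ‖∫ θ in (0 : ℝ)..2 * Real.pi, (φ z θ : ℂ) * eN n θ‖ ≤ T * |2 * Real.pi - 0| := by
      refine intervalIntegral.norm_integral_le_of_norm_le_const fun θ _ => ?_
      rw [norm_mul, eN_norm, mul_one, Complex.norm_real]
      exact hT θ
    rw [sub_zero, abs_of_pos Real.two_pi_pos] at h1
    have h2 : ‖(1 / (2 * Real.pi) : ℂ)‖ = 1 / (2 * Real.pi) := by
      rw [norm_div, norm_one, norm_mul, Complex.norm_real, Real.norm_of_nonneg Real.pi_pos.le]
      simp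
    rw [h2]
    have h3 := Real.two_pi_pos
    calc 1 / (2 * Real.pi) * ‖∫ θ in (0 : ℝ)..2 * Real.pi, (φ z θ : ℂ) * eN n θ‖
        ≤ 1 / (2 * Real.pi) * (T * (2 * Real.pi)) :=
          mul_le_mul_of_nonneg_left h1 (by positivity)
      _ = T := by field_simp

end Pool.Agent.Lib.MP478c11.DB
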