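import Pool.Agent.Lib.MP_478c11_gt.DB.Spec

/-!
# Module ENJ (helper52): the energy is nearly constant
-/

set_option autoImplicit false

namespace Pool.Agent.Lib.MP478c11.DB

open Set Filter Topology MeasureTheory

namespace ENJM

theorem en_nonneg (l : ℝ) (g B B₁ : ℝ → ℝ) (z : ℝ) : 0 ≤ En l g B B₁ z := by
  unfold En
  positivity

theorem amgm {l s b b₁ : ℝ} (hs : 0 < s) :
    2 * l * |b * b₁| ≤ l ^ 2 * s * b ^ 2 + b₁ ^ 2 / s := by
  have h : l ^ 2 * s * b ^ 2 + b₁ ^ 2 / s - 2 * l * (|b| * |b₁|) = (l * s * |b| - |b₁|) ^ 2 / s := by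
    rw [← sq_abs b, ← sq_abs b₁]
    field_simp
    ring
  have h2 : 0 ≤ (l * s * |b| - |b₁|) ^ 2 / s := by positivity
  rw [abs_mul]
  linarith

/-- the derivative of the energy -/
theorem en_deriv {l z : ℝ} {g g₁ B B₁ : ℝ → ℝ} (hg : 0 < g z) (dg : HasDerivAt g (g₁ z) z)
    (dB : HasDerivAt B (B₁ z) z) (dB₁ : HasDerivAt B₁ (-(l ^ 2 * g z * B z)) z) :
    HasDerivAt (En l g B B₁)
      (g₁ z / (2 * g z) * (l ^ 2 * √(g z) * B z ^ 2 - B₁ z ^ 2 / √(g z))) z := by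
  have hs : HasDerivAt (fun x => √(g x)) (g₁ z / (2 * √(g z))) z := dg.sqrt hg.ne'
  have hs0 : 0 < √(g z) := Real.sqrt_pos.2 hg
  have h1 : HasDerivAt (fun x => l ^ 2 * √(g x) * B x ^ 2)
      (l ^ 2 * (g₁ z / (2 * √(g z))) * B z ^ 2 + l ^ 2 * √(g z) * (2 * B z * B₁ z)) z := by
    have h := (hs.const_mul (l ^ 2)).mul (dB.pow 2)
    refine h.congr_deriv ?_
    norm_num
  have h2 : HasDerivAt (fun x => B₁ x ^ 2 / √(g x))
      ((2 * B₁ z * (-(l ^ 2 * g z * B z)) * √(g z) - B₁ z ^ 2 * (g₁ z / (2 * √(g z)))) /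
        √(g z) ^ 2) z := by
    have h := (dB₁.pow 2).div hs hs0.ne'
    refine h.congr_deriv ?_
    norm_num
  have h3 : HasDerivAt (En l g B B₁) _ z := h1.add h2
  refine h3.congr_deriv ?_
  obtain ⟨s, hs'⟩ : ∃ s, s = √(g z) := ⟨_, rfl⟩
  have hgs : g z = s ^ 2 := by rw [hs', Real.sq_sqrt hg.le]
  rw [← hs'] at hs0 ⊢
  rw [hgs]
  field_simp
  ring

/-- `φ = g' / (2 g^(3/2))` -/
noncomputable def ph (g g₁ : ℝ → ℝ) (x : ℝ) : ℝ := g₁ x / (2 * g x * √(g x))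

theorem ph_deriv {z : ℝ} {g g₁ g₂ : ℝ → ℝ} (hg : 0 < g z) (dg : HasDerivAt g (g₁ z) z)
    (dg₁ : HasDerivAt g₁ (g₂ z) z) :
    HasDerivAt (ph g g₁) (g₂ z / (2 * g z * √(g z)) - 3 * g₁ z ^ 2 / (4 * g z ^ 2 * √(g z))) z := by
  have hs : HasDerivAt (fun x => √(g x)) (g₁ z / (2 * √(g z))) z := dg.sqrt hg.ne'
  have hs0 : 0 < √(g z) := Real.sqrt_pos.2 hg
  have h1 : HasDerivAt (fun x => 2 * g x * √(g x))
      (2 * g₁ z * √(g z) + 2 * g z * (g₁ z / (2 * √(g z)))) z := (dg.const_mul 2).mul hs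
  have h2 : HasDerivAt (ph g g₁) _ z := dg₁.div h1 (by positivity)
  refine h2.congr_deriv ?_
  obtain ⟨s, hs'⟩ : ∃ s, s = √(g z) := ⟨_, rfl⟩
  have hgs : g z = s ^ 2 := by rw [hs', Real.sq_sqrt hg.le]
  rw [← hs'] at hs0 ⊢
  rw [hgs]
  field_simp
  ring

/-- `H = E + φ B B'` has the derivative `φ' B B'` -/
theorem H_deriv {l z : ℝ} {g g₁ g₂ B B₁ : ℝ → ℝ} (hg : 0 < g z) (dg : HasDerivAt g (g₁ z) z)
    (dg₁ : HasDerivAt g₁ (g₂ z) z)
    (dB : HasDerivAt B (B₁ z) z) (dB₁ : HasDerivAt B₁ (-(l ^ 2 * g z * B z)) z) :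
    HasDerivAt (fun x => En l g B B₁ x + ph g g₁ x * (B x * B₁ x))
      ((g₂ z / (2 * g z * √(g z)) - 3 * g₁ z ^ 2 / (4 * g z ^ 2 * √(g z))) * (B z * B₁ z)) z := by
  have h1 := en_deriv (l := l) hg dg dB dB₁
  have h2 := ph_deriv hg dg dg₁
  have h3 : HasDerivAt (fun x => B x * B₁ x) (B₁ z * B₁ z + B z * (-(l ^ 2 * g z * B z))) z :=
    dB.mul dB₁
  have h4 : HasDerivAt (fun x => ph g g₁ x * (B x * B₁ x)) _ z := h2.mul h3
  have h5 : HasDerivAt (fun x => En l g B B₁ x + ph g g₁ x * (B x * B₁ x)) _ z := h1.add h4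
  refine h5.congr_deriv ?_
  unfold ph
  have hs0 : 0 < √(g z) := Real.sqrt_pos.2 hg
  obtain ⟨s, hs'⟩ : ∃ s, s = √(g z) := ⟨_, rfl⟩
  have hgs : g z = s ^ 2 := by rw [hs', Real.sq_sqrt hg.le]
  rw [← hs'] at hs0 ⊢
  rw [hgs]
  field_simp
  ring

end ENJM

open ENJM in
theorem specENJ (hGRW : SpecGRW) : SpecENJ := by
  intro m M L hm hL
  obtain ⟨A, hA⟩ : ∃ A : ℝ, A = |M| := ⟨_, rfl⟩
  have hA0 : 0 ≤ A := by rw [hA]; exact abs_nonneg M
  obtain ⟨C₁, hC₁⟩ : ∃ C₁ : ℝ, C₁ = Real.exp (A / (2 * m) * L) := ⟨_, rfl⟩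
  have hC₁1 : 1 ≤ C₁ := by
    rw [hC₁]
    exact Real.one_le_exp (by positivity)
  have hsm : 0 < √m := Real.sqrt_pos.2 hm
  obtain ⟨Cp, hCp⟩ : ∃ Cp : ℝ, Cp = A / (2 * m * √m) + 3 * A ^ 2 / (4 * m ^ 2 * √m) := ⟨_, rfl⟩
  have hCp0 : 0 ≤ Cp := by rw [hCp]; positivity
  obtain ⟨C₂, hC₂⟩ : ∃ C₂ : ℝ, C₂ = Cp * C₁ * L + Cp * C₁ + Cp := ⟨_, rfl⟩
  have hC₂0 : 0 ≤ C₂ := by rw [hC₂]; positivity
  obtain ⟨C₄, hC₄⟩ : ∃ C₄ : ℝ, C₄ = √(C₁ / √m) := ⟨_, rfl⟩
  have hC₄0 : 0 ≤ C₄ := by rw [hC₄]; positivity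
  refine ⟨C₁ + C₂ + C₄, by positivity, ?_⟩
  intro c d l g g₁ g₂ B B₁ hO hdL z hz z' hz'
  have hl0 : 0 < l := lt_of_lt_of_le one_pos hO.l1
  have hgm : ∀ x ∈ Icc c d, m ≤ g x := fun x hx => (hO.b x hx).1
  have hg0 : ∀ x ∈ Icc c d, 0 < g x := fun x hx => lt_of_lt_of_le hm (hgm x hx)
  have hMA : M ≤ A := by rw [hA]; exact le_abs_self M
  have hg1 : ∀ x ∈ Icc c d, |g₁ x| ≤ A := fun x hx => (hO.b x hx).2.2.1.trans hMA
  have hg2 : ∀ x ∈ Icc c d, |g₂ x| ≤ A := fun x hx => (hO.b x hx).2.2.2.trans hMA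
  have hE0 : ∀ x, 0 ≤ En l g B B₁ x := en_nonneg l g B B₁
  -- (i)
  have hder : ∀ x ∈ Icc c d, HasDerivAt (En l g B B₁)
      (g₁ x / (2 * g x) * (l ^ 2 * √(g x) * B x ^ 2 - B₁ x ^ 2 / √(g x))) x ∧
      |g₁ x / (2 * g x) * (l ^ 2 * √(g x) * B x ^ 2 - B₁ x ^ 2 / √(g x))| ≤
        A / (2 * m) * En l g B B₁ x + 0 := by
    intro x hx
    refine ⟨en_deriv (hg0 x hx) (hO.dg x hx).1 (hO.dB x hx).1 (hO.dB x hx).2, ?_⟩
    rw [abs_mul, add_zero]
    have hs0 : 0 < √(g x) := Real.sqrt_pos.2 (hg0 x hx)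
    apply mul_le_mul
    · rw [abs_div, abs_of_pos (show (0 : ℝ) < 2 * g x by have := hg0 x hx; positivity)]
      exact div_le_div₀ hA0 (hg1 x hx) (by positivity) (by have := hgm x hx; linarith)
    · unfold En
      have h1 : 0 ≤ l ^ 2 * √(g x) * B x ^ 2 := by positivity
      have h2 : 0 ≤ B₁ x ^ 2 / √(g x) := by positivity
      rw [abs_le]
      constructor <;> linarith
    · exact abs_nonneg _
    · positivity
  have hi : ∀ x ∈ Icc c d, ∀ x' ∈ Icc c d, En l g B B₁ x ≤ C₁ * En l g B B₁ x' := by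
    intro x hx x' hx'
    have h := hGRW c d 0 (En l g B B₁) _ (fun _ => A / (2 * m)) hO.cd.le le_rfl continuousOn_const
      (fun y _ => ⟨by positivity, hE0 y⟩) hder x hx x' hx'
    rw [intervalIntegral.integral_const, smul_eq_mul, zero_mul, add_zero] at h
    refine h.trans (mul_le_mul_of_nonneg_right ?_ (hE0 x'))
    rw [hC₁]
    apply Real.exp_le_exp.2
    rw [mul_comm]
    exact mul_le_mul_of_nonneg_left hdL (by positivity)
  -- (iii)
  have hiii : ∀ x ∈ Icc c d, 2 * l * |B x * B₁ x| ≤ En l g B B₁ x := fun x hx =>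
    amgm (Real.sqrt_pos.2 (hg0 x hx))
  have hBB : ∀ x ∈ Icc c d, |B x * B₁ x| ≤ En l g B B₁ x / l := by
    intro x hx
    rw [le_div_iff₀ hl0]
    have h1 := hiii x hx
    have h2 : 0 ≤ |B x * B₁ x| * l := by positivity
    linarith
  have hsx : ∀ x ∈ Icc c d, √m ≤ √(g x) := fun x hx => Real.sqrt_le_sqrt (hgm x hx)
  have hph : ∀ x ∈ Icc c d, |ph g g₁ x| ≤ Cp := by
    intro x hx
    have hgx := hg0 x hx
    have hs0 : 0 < √(g x) := Real.sqrt_pos.2 hgx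
    unfold ph
    rw [abs_div, abs_of_pos (show (0 : ℝ) < 2 * g x * √(g x) by positivity)]
    have h1 : |g₁ x| / (2 * g x * √(g x)) ≤ A / (2 * m * √m) := by
      apply div_le_div₀ hA0 (hg1 x hx) (by positivity)
      exact mul_le_mul (by have := hgm x hx; linarith) (hsx x hx) hsm.le (by positivity)
    rw [hCp]
    have h2 : 0 ≤ 3 * A ^ 2 / (4 * m ^ 2 * √m) := by positivity
    linarith
  have hph' : ∀ x ∈ Icc c d,
      |g₂ x / (2 * g x * √(g x)) - 3 * g₁ x ^ 2 / (4 * g x ^ 2 * √(g x))| ≤ Cp := by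
    intro x hx
    have hgx := hg0 x hx
    have hs0 : 0 < √(g x) := Real.sqrt_pos.2 hgx
    refine (abs_sub _ _).trans ?_
    rw [hCp]
    apply add_le_add
    · rw [abs_div, abs_of_pos (show (0 : ℝ) < 2 * g x * √(g x) by positivity)]
      apply div_le_div₀ hA0 (hg2 x hx) (by positivity)
      exact mul_le_mul (by have := hgm x hx; linarith) (hsx x hx) hsm.le (by positivity)
    · rw [abs_div, abs_of_nonneg (show (0 : ℝ) ≤ 3 * g₁ x ^ 2 by positivity),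
        abs_of_pos (show (0 : ℝ) < 4 * g x ^ 2 * √(g x) by positivity)]
      apply div_le_div₀ (by positivity) _ (by positivity)
      · refine mul_le_mul ?_ (hsx x hx) hsm.le (by positivity)
        have h5 : m ^ 2 ≤ g x ^ 2 := pow_le_pow_left₀ hm.le (hgm x hx) 2
        linarith
      · have h5 : g₁ x ^ 2 ≤ A ^ 2 := by
          rw [← sq_abs (g₁ x)]
          exact pow_le_pow_left₀ (abs_nonneg _) (hg1 x hx) 2
        linarith
  -- (ii)
  have hii : |En l g B B₁ z - En l g B B₁ z'| ≤ C₂ / l * En l g B B₁ z' := by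
    have hHd : ∀ x ∈ Icc c d, HasDerivWithinAt
        (fun x => En l g B B₁ x + ph g g₁ x * (B x * B₁ x))
        ((g₂ x / (2 * g x * √(g x)) - 3 * g₁ x ^ 2 / (4 * g x ^ 2 * √(g x))) * (B x * B₁ x))
        (Icc c d) x := fun x hx =>
      (H_deriv (hg0 x hx) (hO.dg x hx).1 (hO.dg x hx).2 (hO.dB x hx).1
        (hO.dB x hx).2).hasDerivWithinAt
    have hHb : ∀ x ∈ Icc c d,
        ‖(g₂ x / (2 * g x * √(g x)) - 3 * g₁ x ^ 2 / (4 * g x ^ 2 * √(g x))) * (B x * B₁ x)‖ ≤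
          Cp * (C₁ * En l g B B₁ z' / l) := by
      intro x hx
      rw [Real.norm_eq_abs, abs_mul]
      refine mul_le_mul (hph' x hx) ((hBB x hx).trans ?_) (abs_nonneg _) hCp0
      exact div_le_div_of_nonneg_right (hi x hx z' hz') hl0.le
    have hmv := Convex.norm_image_sub_le_of_norm_hasDerivWithin_le hHd hHb (convex_Icc c d) hz' hz
    rw [Real.norm_eq_abs, Real.norm_eq_abs] at hmv
    have hzz : |z - z'| ≤ L := by
      rw [abs_le]
      constructor <;> linarith [hz.1, hz.2, hz'.1, hz'.2]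
    have hE' := hE0 z'
    have h1 : |ph g g₁ z * (B z * B₁ z)| ≤ Cp * (C₁ * En l g B B₁ z' / l) := by
      rw [abs_mul]
      refine mul_le_mul (hph z hz) ((hBB z hz).trans ?_) (abs_nonneg _) hCp0
      exact div_le_div_of_nonneg_right (hi z hz z' hz') hl0.le
    have h2 : |ph g g₁ z' * (B z' * B₁ z')| ≤ Cp * (En l g B B₁ z' / l) := by
      rw [abs_mul]
      exact mul_le_mul (hph z' hz') (hBB z' hz') (abs_nonneg _) hCp0
    have h3 : |En l g B B₁ z + ph g g₁ z * (B z * B₁ z) -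
        (En l g B B₁ z' + ph g g₁ z' * (B z' * B₁ z'))| ≤
        Cp * (C₁ * En l g B B₁ z' / l) * L :=
      hmv.trans (mul_le_mul_of_nonneg_left hzz (by positivity))
    have h4 : C₂ / l * En l g B B₁ z' = Cp * (C₁ * En l g B B₁ z' / l) * L +
        Cp * (C₁ * En l g B B₁ z' / l) + Cp * (En l g B B₁ z' / l) := by
      rw [hC₂]
      field_simp
    rw [h4]
    rw [abs_le] at h1 h2 h3 ⊢
    constructor <;> linarith [h1.1, h1.2, h2.1, h2.2, h3.1, h3.2]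
  have hE' := hE0 z'
  refine ⟨?_, ?_, hiii z hz, ?_⟩
  · refine (hi z hz z' hz').trans (mul_le_mul_of_nonneg_right ?_ hE')
    linarith
  · refine hii.trans (mul_le_mul_of_nonneg_right ?_ hE')
    exact div_le_div_of_nonneg_right (by linarith) hl0.le
  · have h1 : |B z| ≤ C₄ / l * √(En l g B B₁ z') := by
      apply abs_le_of_sq_le_sq _ (by positivity)
      rw [mul_pow, div_pow, Real.sq_sqrt hE', hC₄, Real.sq_sqrt (by positivity)]
      have hs0 : 0 < √(g z) := Real.sqrt_pos.2 (hg0 z hz)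
      have h2 : l ^ 2 * √m * B z ^ 2 ≤ C₁ * En l g B B₁ z' := by
        refine le_trans ?_ (hi z hz z' hz')
        unfold En
        have h3 : l ^ 2 * √m * B z ^ 2 ≤ l ^ 2 * √(g z) * B z ^ 2 :=
          mul_le_mul_of_nonneg_right (mul_le_mul_of_nonneg_left (hsx z hz) (by positivity))
            (by positivity)
        have h4 : 0 ≤ B₁ z ^ 2 / √(g z) := by positivity
        linarith
      rw [div_div, div_mul_eq_mul_div, le_div_iff₀ (by positivity)]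
      linarith
    refine h1.trans (mul_le_mul_of_nonneg_right ?_ (Real.sqrt_nonneg _))
    exact div_le_div_of_nonneg_right (by linarith) hl0.le

end Pool.Agent.Lib.MP478c11.DB
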