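import Pool.Agent.Lib.MP_478c11_gt.DB.Geo

/-!
# MP_478c11_gt: module FLE, smoothness and periodicity of the derived fields
-/

set_option autoImplicit false

namespace Pool.Agent.Lib.MP478c11.DB

open Set Filter Topology MeasureTheory
open scoped ContDiff InnerProductSpace

noncomputable section

namespace FLEM

variable {E : Type} [NormedAddCommGroup E] [NormedSpace ℝ E]

theorem hz {f : ℝ × ℝ → E} {f' : ℝ × ℝ →L[ℝ] E} {z θ : ℝ} (h : HasFDerivAt f f' (z, θ)) :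
    HasDerivAt (fun s => f (s, θ)) (f' (1, 0)) z :=
  HasFDerivAt.comp_hasDerivAt (f := fun s : ℝ => (s, θ)) z h
    ((hasDerivAt_id z).prodMk (hasDerivAt_const z θ))

theorem ht {f : ℝ × ℝ → E} {f' : ℝ × ℝ →L[ℝ] E} {z θ : ℝ} (h : HasFDerivAt f f' (z, θ)) :
    HasDerivAt (fun s => f (z, s)) (f' (0, 1)) θ :=
  HasFDerivAt.comp_hasDerivAt (f := fun s : ℝ => (z, s)) θ h
    ((hasDerivAt_const θ z).prodMk (hasDerivAt_id θ))

theorem op (a b : ℝ) : IsOpen (Ioo a b ×ˢ (univ : Set ℝ)) := isOpen_Ioo.prod isOpen_univ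

theorem mem {a b z : ℝ} (hzz : z ∈ Ioo a b) (θ : ℝ) : (z, θ) ∈ Ioo a b ×ˢ (univ : Set ℝ) :=
  ⟨hzz, mem_univ _⟩

theorem cda {a b : ℝ} {U : ℝ → ℝ → E} (h : Fld a b U) {z : ℝ} (hzz : z ∈ Ioo a b) (θ : ℝ) :
    ContDiffAt ℝ ∞ (fun p : ℝ × ℝ => U p.1 p.2) (z, θ) :=
  h.1.contDiffAt ((op a b).mem_nhds (mem hzz θ))

theorem dif {a b : ℝ} {U : ℝ → ℝ → E} (h : Fld a b U) {z : ℝ} (hzz : z ∈ Ioo a b) (θ : ℝ) :
    HasFDerivAt (fun p : ℝ × ℝ => U p.1 p.2) (fderiv ℝ (fun p : ℝ × ℝ => U p.1 p.2) (z, θ)) (z, θ) :=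
  ((cda h hzz θ).differentiableAt (by simp)).hasFDerivAt

theorem dz_eq {a b : ℝ} {U : ℝ → ℝ → E} (h : Fld a b U) {z : ℝ} (hzz : z ∈ Ioo a b) (θ : ℝ) :
    HasDerivAt (fun s => U s θ) (fderiv ℝ (fun p : ℝ × ℝ => U p.1 p.2) (z, θ) (1, 0)) z :=
  hz (dif h hzz θ)

theorem dt_eq {a b : ℝ} {U : ℝ → ℝ → E} (h : Fld a b U) {z : ℝ} (hzz : z ∈ Ioo a b) (θ : ℝ) :
    HasDerivAt (fun s => U z s) (fderiv ℝ (fun p : ℝ × ℝ => U p.1 p.2) (z, θ) (0, 1)) θ :=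
  ht (dif h hzz θ)

theorem fd {a b : ℝ} {U : ℝ → ℝ → E} (h : Fld a b U) :
    ContDiffOn ℝ ∞ (fun p : ℝ × ℝ => fderiv ℝ (fun p : ℝ × ℝ => U p.1 p.2) p)
      (Ioo a b ×ˢ (univ : Set ℝ)) :=
  h.1.fderiv_of_isOpen (op a b) (by simp)

theorem fldz {a b : ℝ} {U : ℝ → ℝ → E} (h : Fld a b U) : Fld a b (dz U) := by
  constructor
  · have h1 : ContDiffOn ℝ ∞
        (fun p : ℝ × ℝ => fderiv ℝ (fun p : ℝ × ℝ => U p.1 p.2) p ((1 : ℝ), (0 : ℝ)))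
        (Ioo a b ×ˢ (univ : Set ℝ)) := (fd h).clm_apply contDiffOn_const
    refine h1.congr ?_
    rintro ⟨z, θ⟩ hp
    exact (dz_eq h hp.1 θ).deriv
  · intro z θ
    unfold dz
    have : (fun s => U s (θ + 2 * Real.pi)) = fun s => U s θ := by
      funext s
      exact h.2 s θ
    rw [this]

theorem fldt {a b : ℝ} {U : ℝ → ℝ → E} (h : Fld a b U) : Fld a b (dt U) := by
  constructor
  · have h1 : ContDiffOn ℝ ∞
        (fun p : ℝ × ℝ => fderiv ℝ (fun p : ℝ × ℝ => U p.1 p.2) p ((0 : ℝ), (1 : ℝ)))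
        (Ioo a b ×ˢ (univ : Set ℝ)) := (fd h).clm_apply contDiffOn_const
    refine h1.congr ?_
    rintro ⟨z, θ⟩ hp
    exact (dt_eq h hp.1 θ).deriv
  · intro z θ
    unfold dt
    have h1 : (fun s => U z (s + 2 * Real.pi)) = fun s => U z s := by
      funext s
      exact h.2 z s
    have h2 := deriv_comp_add_const (f := fun s => U z s) (2 * Real.pi) θ
    rw [h1] at h2
    exact h2.symm

theorem symm {a b : ℝ} {U : ℝ → ℝ → E} (h : Fld a b U) {z : ℝ} (hzz : z ∈ Ioo a b) (θ : ℝ) :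
    dz (dt U) z θ = dt (dz U) z θ := by
  set f : ℝ × ℝ → E := fun p : ℝ × ℝ => U p.1 p.2 with hf
  have hs : IsSymmSndFDerivAt ℝ f (z, θ) :=
    ((cda h hzz θ).of_le (m := 2) (WithTop.coe_le_coe.2 (le_top : (2 : ℕ∞) ≤ ⊤))).isSymmSndFDerivAt (by simp)
  have hd : HasFDerivAt (fderiv ℝ f) (fderiv ℝ (fderiv ℝ f) (z, θ)) (z, θ) :=
    (((fd h).contDiffAt ((op a b).mem_nhds (mem hzz θ))).differentiableAt (by simp)).hasFDerivAt
  have e1 : dz (dt U) z θ = fderiv ℝ (fderiv ℝ f) (z, θ) (1, 0) (0, 1) := by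
    unfold dz
    have h1 : (fun s => dt U s θ) =ᶠ[𝓝 z] fun s => fderiv ℝ f (s, θ) (0, 1) := by
      filter_upwards [isOpen_Ioo.mem_nhds hzz] with s hs
      exact (dt_eq h hs θ).deriv
    rw [h1.deriv_eq]
    have h2 : HasDerivAt (fun s => fderiv ℝ f (s, θ)) (fderiv ℝ (fderiv ℝ f) (z, θ) (1, 0)) z := hz hd
    have h3 := h2.clm_apply (hasDerivAt_const z ((0 : ℝ), (1 : ℝ)))
    rw [h3.deriv]
    simp
  have e2 : dt (dz U) z θ = fderiv ℝ (fderiv ℝ f) (z, θ) (0, 1) (1, 0) := by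
    unfold dt
    have h1 : (fun s => dz U z s) = fun s => fderiv ℝ f (z, s) (1, 0) := by
      funext s
      exact (dz_eq h hzz s).deriv
    rw [h1]
    have h2 : HasDerivAt (fun s => fderiv ℝ f (z, s)) (fderiv ℝ (fderiv ℝ f) (z, θ) (0, 1)) θ := ht hd
    have h3 := h2.clm_apply (hasDerivAt_const θ ((1 : ℝ), (0 : ℝ)))
    rw [h3.deriv]
    simp
  rw [e1, e2]
  exact hs _ _

theorem comp {a b : ℝ} {U : ℝ → ℝ → E3} (h : Fld a b U) (i : Fin 3) :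
    Fld a b (fun z θ => U z θ i) := by
  constructor
  · exact (EuclideanSpace.proj (𝕜 := ℝ) i).contDiff.comp_contDiffOn h.1
  · intro z θ
    show U z (θ + 2 * Real.pi) i = U z θ i
    rw [h.2]

theorem cosF (a b : ℝ) : Fld a b (fun _ θ => Real.cos θ) :=
  ⟨(Real.contDiff_cos.comp contDiff_snd).contDiffOn, fun _ θ => Real.cos_add_two_pi θ⟩

theorem sinF (a b : ℝ) : Fld a b (fun _ θ => Real.sin θ) :=
  ⟨(Real.contDiff_sin.comp contDiff_snd).contDiffOn, fun _ θ => Real.sin_add_two_pi θ⟩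

theorem mul {a b : ℝ} {φ ψ : ℝ → ℝ → ℝ} (h1 : Fld a b φ) (h2 : Fld a b ψ) :
    Fld a b (fun z θ => φ z θ * ψ z θ) :=
  ⟨h1.1.mul h2.1, fun z θ => by
    show φ z (θ + 2 * Real.pi) * ψ z (θ + 2 * Real.pi) = φ z θ * ψ z θ
    rw [h1.2, h2.2]⟩

theorem add {a b : ℝ} {φ ψ : ℝ → ℝ → ℝ} (h1 : Fld a b φ) (h2 : Fld a b ψ) :
    Fld a b (fun z θ => φ z θ + ψ z θ) :=
  ⟨h1.1.add h2.1, fun z θ => by
    show φ z (θ + 2 * Real.pi) + ψ z (θ + 2 * Real.pi) = φ z θ + ψ z θ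
    rw [h1.2, h2.2]⟩

theorem neg {a b : ℝ} {φ : ℝ → ℝ → ℝ} (h1 : Fld a b φ) : Fld a b (fun z θ => -φ z θ) :=
  ⟨h1.1.neg, fun z θ => by
    show -φ z (θ + 2 * Real.pi) = -φ z θ
    rw [h1.2]⟩

theorem nsq {a b : ℝ} {U : ℝ → ℝ → E3} (h : Fld a b U) : Fld a b (fun z θ => ‖U z θ‖ ^ 2) :=
  ⟨h.1.norm_sq ℝ, fun z θ => by
    show ‖U z (θ + 2 * Real.pi)‖ ^ 2 = ‖U z θ‖ ^ 2
    rw [h.2]⟩

theorem inn {a b : ℝ} {U V : ℝ → ℝ → E3} (h : Fld a b U) (h' : Fld a b V) :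
    Fld a b (fun z θ => ⟪U z θ, V z θ⟫_ℝ) :=
  ⟨h.1.inner ℝ h'.1, fun z θ => by
    show ⟪U z (θ + 2 * Real.pi), V z (θ + 2 * Real.pi)⟫_ℝ = ⟪U z θ, V z θ⟫_ℝ
    rw [h.2, h'.2]⟩

end FLEM

open FLEM in
theorem specFLE : SpecFLE := by
  intro h a b U hh hpos hU
  have hz1 := fldz hU
  have ht1 := fldt hU
  have hhF : Fld a b (fun z _ => h z) :=
    ⟨(hh.comp contDiff_fst).contDiffOn, fun _ _ => rfl⟩
  refine ⟨hz1, ht1, fun i => comp hU i, ?_, ?_, comp hU 2, ?_, ?_, ?_, ?_⟩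
  · exact add (mul (cosF a b) (comp hU 0)) (mul (sinF a b) (comp hU 1))
  · exact add (mul (neg (sinF a b)) (comp hU 0)) (mul (cosF a b) (comp hU 1))
  · exact mul hhF (nsq hz1)
  · refine ⟨?_, ?_⟩
    · refine (nsq ht1).1.div hhF.1 ?_
      rintro ⟨z, θ⟩ hp
      exact (hpos z hp.1).ne'
    · intro z θ
      have := (nsq ht1).2 z θ
      unfold s2
      exact congrArg (fun x => x / h z) this
  · exact inn hz1 ht1
  · intro z hz θ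
    refine ⟨FLEM.symm hU hz θ, fun i => ⟨?_, ?_⟩⟩
    · have h1 := dz_eq hU hz θ
      have h2 := (EuclideanSpace.proj (𝕜 := ℝ) i).hasFDerivAt.comp_hasDerivAt z h1
      unfold dz
      rw [h1.deriv]
      exact h2.deriv
    · have h1 := dt_eq hU hz θ
      have h2 := (EuclideanSpace.proj (𝕜 := ℝ) i).hasFDerivAt.comp_hasDerivAt θ h1
      unfold dt
      rw [h1.deriv]
      exact h2.deriv

end

end Pool.Agent.Lib.MP478c11.DB
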