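import Pool.Agent.Lib.MP_478c11_gt.DB.Geo

/-!
# FOU: a periodic function is bounded by its low modes and a high derivative
-/

set_option autoImplicit false

namespace Pool.Agent.Lib.MP478c11.DB

open Set Filter Topology MeasureTheory
open scoped ContDiff InnerProductSpace

noncomputable section

namespace FOUM

theorem h2 : (0:ℝ) < 2 * Real.pi := Real.two_pi_pos

/-- the coefficients -/
def fc (u : ℝ → ℝ) (n : ℤ) : ℂ := cf n (fun _ => u) 0

theorem fc_eq (u : ℝ → ℝ) (n : ℤ) : fc u n = fourierCoeffOn h2 (fun x => (u x : ℂ)) n := by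
  rw [fourierCoeffOn_eq_integral, sub_zero, fc, cf, Complex.real_smul]
  congr 1
  · push_cast
    rfl
  apply intervalIntegral.integral_congr
  intro x _
  simp only [smul_eq_mul]
  rw [fourier_coe_apply, mul_comm]
  congr 2
  push_cast
  have : (Real.pi : ℂ) ≠ 0 := by exact_mod_cast Real.pi_ne_zero
  field_simp

theorem fc_deriv (u : ℝ → ℝ) (hu : ContDiff ℝ 1 u) (hp : ∀ x, u (x + 2 * Real.pi) = u x) (n : ℤ)
    (hn : n ≠ 0) : ‖fc (deriv u) n‖ = |(n : ℝ)| * ‖fc u n‖ := by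
  have hd : ∀ x, HasDerivAt u (deriv u x) x := fun x =>
    (hu.differentiable one_ne_zero x).hasDerivAt
  have hc : Continuous (deriv u) := hu.continuous_deriv le_rfl
  have h := fourierCoeffOn_of_hasDerivAt h2 (f := fun x => (u x : ℂ))
    (f' := fun x => ((deriv u x : ℝ) : ℂ)) hn (fun x _ => (hd x).ofReal_comp)
    ((Complex.continuous_ofReal.comp hc).intervalIntegrable _ _)
  have h0 : u (2 * Real.pi) = u 0 := by
    have := hp 0
    rwa [zero_add] at this
  rw [h0, sub_self, mul_zero] at h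
  have h3 : fc u n = 1 / (Complex.I * n) * fc (deriv u) n := by
    rw [fc_eq, fc_eq, h]
    have : (Real.pi : ℂ) ≠ 0 := by exact_mod_cast Real.pi_ne_zero
    have hn' : (n : ℂ) ≠ 0 := by exact_mod_cast hn
    push_cast
    field_simp
    ring
  rw [h3, norm_mul, norm_div, norm_mul, Complex.norm_I, norm_one, one_mul, Complex.norm_intCast]
  have : |(n : ℝ)| ≠ 0 := by
    rw [abs_ne_zero]
    exact_mod_cast hn
  field_simp

theorem per_deriv (u : ℝ → ℝ) (hp : ∀ x, u (x + 2 * Real.pi) = u x) :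
    ∀ x, deriv u (x + 2 * Real.pi) = deriv u x := by
  intro x
  rw [← deriv_comp_add_const]
  congr 1
  funext y
  exact hp y

theorem fc_iter (J : ℕ) : ∀ (u : ℝ → ℝ), ContDiff ℝ ∞ u → (∀ x, u (x + 2 * Real.pi) = u x) →
    ∀ n : ℤ, n ≠ 0 → ‖fc (iteratedDeriv J u) n‖ = |(n : ℝ)| ^ J * ‖fc u n‖ := by
  induction J with
  | zero =>
    intro u _ _ n _
    rw [iteratedDeriv_zero, pow_zero, one_mul]
  | succ J ih =>
    intro u hu hp n hn
    rw [iteratedDeriv_succ', ih (deriv u) (by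
      have : ContDiff ℝ (∞ + 1) u := hu
      exact ((contDiff_succ_iff_deriv (n := ∞)).mp this).2.2) (per_deriv u hp) n hn,
      fc_deriv u (hu.of_le (by exact_mod_cast le_top)) hp n hn, pow_succ]
    ring

theorem norm_fc_le (u : ℝ → ℝ) (M : ℝ) (hM : ∀ θ, |u θ| ≤ M) (n : ℤ) : ‖fc u n‖ ≤ M := by
  rw [fc, cf, norm_mul]
  have h1 : ‖∫ θ in (0 : ℝ)..2 * Real.pi, (u θ : ℂ) * Complex.exp (-(Complex.I * n * θ))‖ ≤
      M * |2 * Real.pi - 0| := by
    refine intervalIntegral.norm_integral_le_of_norm_le_const fun θ _ => ?_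
    rw [norm_mul, Complex.norm_real, Real.norm_eq_abs]
    have e : (-(Complex.I * n * θ)) = ((-(n * θ) : ℝ) : ℂ) * Complex.I := by
      push_cast
      ring
    rw [e, Complex.norm_exp_ofReal_mul_I, mul_one]
    exact hM θ
  have hpi := Real.pi_pos
  rw [sub_zero, abs_of_pos h2] at h1
  have h3 : ‖(1 / (2 * Real.pi) : ℂ)‖ = 1 / (2 * Real.pi) := by
    have : (1 / (2 * Real.pi) : ℂ) = ((1 / (2 * Real.pi) : ℝ) : ℂ) := by push_cast; rfl
    rw [this, Complex.norm_real, Real.norm_eq_abs, abs_of_pos (by positivity)]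
  rw [h3]
  calc 1 / (2 * Real.pi) * _ ≤ 1 / (2 * Real.pi) * (M * (2 * Real.pi)) :=
        mul_le_mul_of_nonneg_left h1 (by positivity)
    _ = M := by
        field_simp

theorem coe_fourier (n : ℤ) (x : ℝ) :
    fourier n (x : AddCircle (2 * Real.pi)) = Complex.exp ((n : ℂ) * x * Complex.I) := by
  rw [fourier_coe_apply]
  congr 1
  have h : (Real.pi : ℂ) ≠ 0 := by exact_mod_cast Real.pi_ne_zero
  push_cast
  field_simp

/-- conjugate of a coefficient -/
theorem conj_fc (g : ℝ → ℝ) (n : ℤ) : (starRingEnd ℂ) (fc g n) = fc g (-n) := by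
  rw [fc, fc, cf, cf]
  have e : (1 / (2 * Real.pi) : ℂ) = ((1 / (2 * Real.pi) : ℝ) : ℂ) := by push_cast; rfl
  rw [e, map_mul, Complex.conj_ofReal]
  congr 1
  rw [intervalIntegral.integral_of_le Real.two_pi_pos.le,
    intervalIntegral.integral_of_le Real.two_pi_pos.le, ← integral_conj]
  refine MeasureTheory.integral_congr_ae (Filter.Eventually.of_forall fun x => ?_)
  show (starRingEnd ℂ) ((g x : ℂ) * Complex.exp (-(Complex.I * n * x))) = _
  rw [map_mul, Complex.conj_ofReal, ← Complex.exp_conj]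
  simp

/-- the tail of the series -/
theorem tail (J L : ℕ) (hJ : 2 ≤ J) (hL : 1 ≤ L) (N : ℕ) (hN : L ≤ N) :
    ∑ n ∈ Finset.Ico (L + 1) (N + 1), 1 / (n : ℝ) ^ J ≤
      1 / (L : ℝ) ^ (J - 2) * (1 / (L : ℝ) - 1 / (N : ℝ)) := by
  induction N, hN using Nat.le_induction with
  | base => simp
  | succ N hN ih =>
    rw [Finset.sum_Ico_succ_top (by omega)]
    have hL0 : (0 : ℝ) < L := by exact_mod_cast hL
    have hN0 : (0 : ℝ) < N := by exact_mod_cast (by omega : 0 < N)
    have hLN : (L : ℝ) ≤ ((N + 1 : ℕ) : ℝ) := by exact_mod_cast (by omega : L ≤ N + 1)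
    have h1 : 1 / ((N + 1 : ℕ) : ℝ) ^ J ≤
        1 / (L : ℝ) ^ (J - 2) * (1 / (N : ℝ) - 1 / ((N + 1 : ℕ) : ℝ)) := by
      have e : ((N + 1 : ℕ) : ℝ) ^ J = ((N + 1 : ℕ) : ℝ) ^ (J - 2) * ((N + 1 : ℕ) : ℝ) ^ 2 := by
        rw [← pow_add]
        congr 1
        omega
      rw [e, ← one_div_mul_one_div]
      have h3 : 1 / ((N + 1 : ℕ) : ℝ) ^ (J - 2) ≤ 1 / (L : ℝ) ^ (J - 2) :=
        one_div_le_one_div_of_le (by positivity) (pow_le_pow_left₀ hL0.le hLN _)
      have h4 : 1 / ((N + 1 : ℕ) : ℝ) ^ 2 ≤ 1 / (N : ℝ) - 1 / ((N + 1 : ℕ) : ℝ) := by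
        have : 1 / (N : ℝ) - 1 / ((N + 1 : ℕ) : ℝ) = 1 / ((N : ℝ) * ((N + 1 : ℕ) : ℝ)) := by
          push_cast
          field_simp
          ring
        rw [this]
        refine one_div_le_one_div_of_le (by positivity) ?_
        push_cast
        nlinarith
      exact mul_le_mul h3 h4 (by positivity) (by positivity)
    have h5 := add_le_add ih h1
    refine h5.trans (le_of_eq ?_)
    ring

end FOUM

open FOUM in
/-- FOU -/
theorem specFOU : SpecFOU := by
  intro φ J L M T hφ hper hJ hL hM hT x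
  have hfact : Fact (0 < 2 * Real.pi) := ⟨Real.two_pi_pos⟩
  have hp : Function.Periodic (fun x : ℝ => (φ x : ℂ)) (2 * Real.pi) := fun x => by
    show (φ (x + 2 * Real.pi) : ℂ) = φ x
    rw [hper]
  let G : C(AddCircle (2 * Real.pi), ℂ) := ⟨hp.lift, continuous_coinduced_dom.mpr
    (Complex.continuous_ofReal.comp hφ.continuous)⟩
  have hG : ∀ y : ℝ, G (y : AddCircle (2 * Real.pi)) = φ y := fun y => rfl
  have hcoef : ∀ n : ℤ, fourierCoeff G n = fc φ n := by
    intro n
    rw [fourierCoeff_eq_intervalIntegral G n 0, zero_add, Complex.real_smul, fc, cf]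
    congr 1
    · push_cast
      rfl
    refine intervalIntegral.integral_congr fun y _ => ?_
    show fourier (-n) (y : AddCircle (2 * Real.pi)) • G (y : AddCircle (2 * Real.pi)) = _
    rw [coe_fourier, hG, smul_eq_mul, mul_comm]
    congr 2
    push_cast
    ring
  have hM0 : 0 ≤ M := (abs_nonneg _).trans (hM 0)
  -- the bound of the coefficients
  have hb : ∀ n : ℕ, 1 ≤ n → ‖fc φ n‖ ≤ M * (1 / (n : ℝ) ^ J) := by
    intro n hn
    have h1 := fc_iter J φ hφ hper (n : ℤ) (by omega)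
    have h3 := norm_fc_le (iteratedDeriv J φ) M hM (n : ℤ)
    rw [h1, Int.cast_natCast, Nat.abs_cast] at h3
    have hn0 : (0 : ℝ) < (n : ℝ) ^ J := pow_pos (by exact_mod_cast hn) J
    rw [mul_one_div, le_div_iff₀ hn0, mul_comm]
    exact h3
  have hsq : Summable fun n : ℕ => M * (1 / (n : ℝ) ^ J) :=
    (Real.summable_one_div_nat_pow.mpr (by omega)).mul_left M
  have hsum : Summable fun n : ℕ => ‖fc φ n‖ := by
    refine Summable.of_norm_bounded_eventually_nat hsq ?_
    filter_upwards [eventually_ge_atTop 1] with n hn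
    rw [norm_norm]
    exact hb n hn
  have hs1 : Summable fun n : ℕ => fourierCoeff G (n : ℤ) := by
    refine Summable.of_norm (hsum.congr fun n => ?_)
    rw [hcoef]
  have hs2 : Summable fun n : ℕ => fourierCoeff G (-(n : ℤ)) := by
    refine Summable.of_norm (hsum.congr fun n => ?_)
    rw [hcoef, ← conj_fc, Complex.norm_conj]
  have hsZ : Summable (fourierCoeff G) := Summable.of_nat_of_neg hs1 hs2
  have hS := has_pointwise_sum_fourier_series_of_summable hsZ (x : AddCircle (2 * Real.pi))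
  have hS2 := hS.nat_add_neg
  set t : ℕ → ℝ := fun n => 2 * (fc φ n * Complex.exp ((n : ℂ) * x * Complex.I)).re with ht
  have hterm : ∀ n : ℕ, fourierCoeff G (n : ℤ) • fourier (n : ℤ) (x : AddCircle (2 * Real.pi)) +
      fourierCoeff G (-(n : ℤ)) • fourier (-(n : ℤ)) (x : AddCircle (2 * Real.pi)) =
      ((t n : ℝ) : ℂ) := by
    intro n
    rw [hcoef, hcoef, ← conj_fc, coe_fourier, coe_fourier, smul_eq_mul, smul_eq_mul]
    have e1 : (starRingEnd ℂ) (fc φ n) * Complex.exp (((-(n : ℤ) : ℤ) : ℂ) * x * Complex.I) =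
        (starRingEnd ℂ) (fc φ n * Complex.exp ((n : ℂ) * x * Complex.I)) := by
      rw [map_mul, ← Complex.exp_conj]
      congr 2
      simp
    rw [e1, Int.cast_natCast, Complex.add_conj]
  have hS3 : HasSum (fun n : ℕ => ((t n : ℝ) : ℂ)) ((φ x : ℂ) + fc φ 0) := by
    have h1 : (fun n : ℕ => ((t n : ℝ) : ℂ)) = fun n : ℕ =>
        fourierCoeff G (n : ℤ) • fourier (n : ℤ) (x : AddCircle (2 * Real.pi)) +
        fourierCoeff G (-(n : ℤ)) • fourier (-(n : ℤ)) (x : AddCircle (2 * Real.pi)) :=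
      funext fun n => (hterm n).symm
    rw [h1]
    have h2 : fourierCoeff G 0 • fourier 0 (x : AddCircle (2 * Real.pi)) = fc φ 0 := by
      rw [hcoef, fourier_zero, smul_eq_mul, mul_one]
    rw [← hG x, ← h2]
    exact hS2
  have hS4 : HasSum t (φ x + (fc φ 0).re) := by
    have := Complex.hasSum_re hS3
    simpa using this
  have hlim := hS4.tendsto_sum_nat
  have htn : ∀ i, |t i| ≤ 2 * ‖fc φ i‖ := by
    intro i
    rw [ht]
    show |2 * (fc φ i * Complex.exp ((i : ℂ) * x * Complex.I)).re| ≤ _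
    rw [abs_mul, abs_two]
    refine mul_le_mul_of_nonneg_left ((Complex.abs_re_le_norm _).trans (le_of_eq ?_)) zero_le_two
    rw [norm_mul]
    have e : ((i : ℂ) * x * Complex.I) = ((i * x : ℝ) : ℂ) * Complex.I := by push_cast; ring
    rw [e, Complex.norm_exp_ofReal_mul_I, mul_one]
  have hlim2 : Tendsto (fun N : ℕ => |∑ i ∈ Finset.range N, t i|) atTop
      (𝓝 |φ x + (fc φ 0).re|) := hlim.abs
  have ht0 : t 0 = 2 * (fc φ 0).re := by
    rw [ht]
    simp
  have hlim3 : Tendsto (fun N : ℕ => |∑ i ∈ Finset.range N, t i - (fc φ 0).re|) atTop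
      (𝓝 |φ x + (fc φ 0).re - (fc φ 0).re|) := (hlim.sub_const _).abs
  rw [add_sub_cancel_right] at hlim3
  refine le_of_tendsto hlim3 ?_
  filter_upwards [eventually_ge_atTop (L + 1)] with N hN
  have hr0 : |(fc φ 0).re| ≤ T := (Complex.abs_re_le_norm _).trans (by
    have := hT 0 (Nat.zero_le _)
    exact_mod_cast this)
  have hsplit : ∑ i ∈ Finset.range N, t i = t 0 + ∑ i ∈ Finset.Ico 1 (L + 1), t i +
      ∑ i ∈ Finset.Ico (L + 1) N, t i := by
    rw [add_assoc, Finset.sum_Ico_consecutive t (by omega) hN, Finset.range_eq_Ico,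
      ← Finset.sum_Ico_consecutive t (Nat.zero_le 1) (by omega)]
    simp
  have hA : |∑ i ∈ Finset.Ico 1 (L + 1), t i| ≤ 2 * L * T := by
    refine (Finset.abs_sum_le_sum_abs _ _).trans ?_
    have : ∑ i ∈ Finset.Ico 1 (L + 1), |t i| ≤ ∑ i ∈ Finset.Ico 1 (L + 1), 2 * T := by
      refine Finset.sum_le_sum fun i hi => ?_
      rw [Finset.mem_Ico] at hi
      exact (htn i).trans (mul_le_mul_of_nonneg_left (hT i (by omega)) zero_le_two)
    refine this.trans (le_of_eq ?_)
    rw [Finset.sum_const, Nat.card_Ico, nsmul_eq_mul]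
    push_cast
    ring
  have hL0 : (0 : ℝ) < L := by exact_mod_cast hL
  have hB : |∑ i ∈ Finset.Ico (L + 1) N, t i| ≤ 2 * (M / (L : ℝ) ^ (J - 1)) := by
    refine (Finset.abs_sum_le_sum_abs _ _).trans ?_
    have h1 : ∑ i ∈ Finset.Ico (L + 1) N, |t i| ≤
        ∑ i ∈ Finset.Ico (L + 1) N, 2 * M * (1 / (i : ℝ) ^ J) := by
      refine Finset.sum_le_sum fun i hi => ?_
      rw [Finset.mem_Ico] at hi
      refine (htn i).trans ?_
      rw [mul_assoc]
      exact mul_le_mul_of_nonneg_left (hb i (by omega)) zero_le_two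
    refine h1.trans ?_
    rw [← Finset.mul_sum]
    obtain ⟨N', rfl⟩ : ∃ N', N = N' + 1 := ⟨N - 1, by omega⟩
    have h3 := tail J L hJ hL N' (by omega)
    have h4 : 1 / (L : ℝ) ^ (J - 2) * (1 / (L : ℝ) - 1 / (N' : ℝ)) ≤ 1 / (L : ℝ) ^ (J - 1) := by
      have e : (L : ℝ) ^ (J - 1) = (L : ℝ) ^ (J - 2) * L := by
        rw [← pow_succ]
        congr 1
        omega
      rw [e, ← one_div_mul_one_div]
      refine mul_le_mul_of_nonneg_left ?_ (by positivity)
      have : (0 : ℝ) ≤ 1 / (N' : ℝ) := by positivity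
      linarith
    calc 2 * M * _ ≤ 2 * M * (1 / (L : ℝ) ^ (J - 1)) :=
          mul_le_mul_of_nonneg_left (h3.trans h4) (by positivity)
      _ = _ := by ring
  have hC : M / (L : ℝ) ^ (J - 1) ≥ 0 := by positivity
  have hD : 8 * M / (L : ℝ) ^ (J - 1) = 8 * (M / (L : ℝ) ^ (J - 1)) := by ring
  rw [hsplit, ht0, hD]
  have hE : 2 * (fc φ 0).re + ∑ i ∈ Finset.Ico 1 (L + 1), t i + ∑ i ∈ Finset.Ico (L + 1) N, t i -
      (fc φ 0).re = (fc φ 0).re + ∑ i ∈ Finset.Ico 1 (L + 1), t i +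
      ∑ i ∈ Finset.Ico (L + 1) N, t i := by ring
  rw [hE]
  have hF := abs_add_le ((fc φ 0).re + ∑ i ∈ Finset.Ico 1 (L + 1), t i)
    (∑ i ∈ Finset.Ico (L + 1) N, t i)
  have hH := abs_add_le ((fc φ 0).re) (∑ i ∈ Finset.Ico 1 (L + 1), t i)
  linarith

end

end Pool.Agent.Lib.MP478c11.DB
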