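import Pool.Agent.Lib.MP_478c11_gt.DB.Geo

/-!
# MP_478c11, DB: module FRM (the motions)
-/

set_option autoImplicit false

namespace Pool.Agent.Lib.MP478c11.DB

open Set Filter Topology MeasureTheory
open scoped ContDiff InnerProductSpace

namespace FRMM

theorem inner3 (x y : E3) : ⟪x, y⟫_ℝ = x 0 * y 0 + x 1 * y 1 + x 2 * y 2 := by
  rw [PiLp.inner_apply, Fin.sum_univ_three]
  simp only [RCLike.inner_apply, conj_trivial]
  ring

theorem ext3 {x y : E3} (h0 : x 0 = y 0) (h1 : x 1 = y 1) (h2 : x 2 = y 2) : x = y := by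
  ext i
  fin_cases i
  · exact h0
  · exact h1
  · exact h2

/-- an orthonormal triple -/
structure ON (u0 u1 u2 : E3) : Prop where
  a00 : ⟪u0, u0⟫_ℝ = 1
  a11 : ⟪u1, u1⟫_ℝ = 1
  a22 : ⟪u2, u2⟫_ℝ = 1
  a01 : ⟪u0, u1⟫_ℝ = 0
  a02 : ⟪u0, u2⟫_ℝ = 0
  a12 : ⟪u1, u2⟫_ℝ = 0

/-- coordinates to vectors -/
noncomputable def AL (u0 u1 u2 : E3) : E3 →ₗ[ℝ] E3 where
  toFun x := x 0 • u0 + x 1 • u1 + x 2 • u2
  map_add' := by
    intro x y
    simp only [PiLp.add_apply, add_smul]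
    abel
  map_smul' := by
    intro c x
    simp only [PiLp.smul_apply, smul_eq_mul, RingHom.id_apply, smul_add, smul_smul]

/-- vectors to coordinates -/
noncomputable def BL (u0 u1 u2 : E3) : E3 →ₗ[ℝ] E3 where
  toFun v := !₂[⟪u0, v⟫_ℝ, ⟪u1, v⟫_ℝ, ⟪u2, v⟫_ℝ]
  map_add' := by
    intro x y
    apply ext3 <;> simp [inner_add_right]
  map_smul' := by
    intro c x
    apply ext3 <;> simp [inner_smul_right]

theorem BA {u0 u1 u2 : E3} (h : ON u0 u1 u2) (x : E3) : BL u0 u1 u2 (AL u0 u1 u2 x) = x := by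
  have b10 : ⟪u1, u0⟫_ℝ = 0 := by rw [real_inner_comm]; exact h.a01
  have b20 : ⟪u2, u0⟫_ℝ = 0 := by rw [real_inner_comm]; exact h.a02
  have b21 : ⟪u2, u1⟫_ℝ = 0 := by rw [real_inner_comm]; exact h.a12
  apply ext3
  · show ⟪u0, x 0 • u0 + x 1 • u1 + x 2 • u2⟫_ℝ = x 0
    rw [inner_add_right, inner_add_right, inner_smul_right, inner_smul_right, inner_smul_right,
      h.a00, h.a01, h.a02]
    ring
  · show ⟪u1, x 0 • u0 + x 1 • u1 + x 2 • u2⟫_ℝ = x 1
    rw [inner_add_right, inner_add_right, inner_smul_right, inner_smul_right, inner_smul_right,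
      b10, h.a11, h.a12]
    ring
  · show ⟪u2, x 0 • u0 + x 1 • u1 + x 2 • u2⟫_ℝ = x 2
    rw [inner_add_right, inner_add_right, inner_smul_right, inner_smul_right, inner_smul_right,
      b20, b21, h.a22]
    ring

theorem norm_AL {u0 u1 u2 : E3} (h : ON u0 u1 u2) (x : E3) : ‖AL u0 u1 u2 x‖ = ‖x‖ := by
  have h1 : ⟪AL u0 u1 u2 x, AL u0 u1 u2 x⟫_ℝ = ⟪x, x⟫_ℝ := by
    have e : ∀ v : E3, ⟪AL u0 u1 u2 x, v⟫_ℝ = x 0 * ⟪u0, v⟫_ℝ + x 1 * ⟪u1, v⟫_ℝ + x 2 * ⟪u2, v⟫_ℝ := by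
      intro v
      show ⟪x 0 • u0 + x 1 • u1 + x 2 • u2, v⟫_ℝ = _
      rw [inner_add_left, inner_add_left, real_inner_smul_left, real_inner_smul_left,
        real_inner_smul_left]
    have h2 := BA h x
    have c0 : ⟪u0, AL u0 u1 u2 x⟫_ℝ = x 0 := congrArg (fun y : E3 => y 0) h2
    have c1 : ⟪u1, AL u0 u1 u2 x⟫_ℝ = x 1 := congrArg (fun y : E3 => y 1) h2
    have c2 : ⟪u2, AL u0 u1 u2 x⟫_ℝ = x 2 := congrArg (fun y : E3 => y 2) h2
    rw [e, c0, c1, c2, inner3]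
  rw [real_inner_self_eq_norm_sq, real_inner_self_eq_norm_sq] at h1
  exact (sq_eq_sq₀ (norm_nonneg _) (norm_nonneg _)).1 h1

theorem AB {u0 u1 u2 : E3} (h : ON u0 u1 u2) (v : E3) : AL u0 u1 u2 (BL u0 u1 u2 v) = v := by
  have hinj : Function.Injective (AL u0 u1 u2) := by
    rw [← LinearMap.ker_eq_bot, LinearMap.ker_eq_bot']
    intro m hm
    rw [← norm_eq_zero, ← norm_AL h, hm, norm_zero]
  obtain ⟨x, rfl⟩ := LinearMap.injective_iff_surjective.1 hinj v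
  rw [BA h]

theorem norm_BL {u0 u1 u2 : E3} (h : ON u0 u1 u2) (v : E3) : ‖BL u0 u1 u2 v‖ = ‖v‖ := by
  rw [← norm_AL h, AB h]

theorem cross_on {u0 u1 : E3} (h0 : ⟪u0, u0⟫_ℝ = 1) (h1 : ⟪u1, u1⟫_ℝ = 1) (h01 : ⟪u0, u1⟫_ℝ = 0) :
    ON u0 u1 (cross u0 u1) := by
  have e0 : (cross u0 u1) 0 = u0 1 * u1 2 - u0 2 * u1 1 := rfl
  have e1 : (cross u0 u1) 1 = u0 2 * u1 0 - u0 0 * u1 2 := rfl
  have e2 : (cross u0 u1) 2 = u0 0 * u1 1 - u0 1 * u1 0 := rfl
  refine ⟨h0, h1, ?_, h01, ?_, ?_⟩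
  · rw [inner3] at h0 h1 h01
    rw [inner3, e0, e1, e2]
    have : (u0 1 * u1 2 - u0 2 * u1 1) * (u0 1 * u1 2 - u0 2 * u1 1) +
        (u0 2 * u1 0 - u0 0 * u1 2) * (u0 2 * u1 0 - u0 0 * u1 2) +
        (u0 0 * u1 1 - u0 1 * u1 0) * (u0 0 * u1 1 - u0 1 * u1 0) =
        (u0 0 * u0 0 + u0 1 * u0 1 + u0 2 * u0 2) * (u1 0 * u1 0 + u1 1 * u1 1 + u1 2 * u1 2) -
        (u0 0 * u1 0 + u0 1 * u1 1 + u0 2 * u1 2) ^ 2 := by ring
    rw [this, h0, h1, h01]
    norm_num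
  · rw [inner3, e0, e1, e2]
    ring
  · rw [inner3, e0, e1, e2]
    ring

/-- the lower pole -/
noncomputable def PP (a : ℝ) : E3 := !₂[0, 0, a]

noncomputable def e1 : E3 := !₂[1, 0, 0]
noncomputable def e2 : E3 := !₂[0, 1, 0]
noncomputable def e3 : E3 := !₂[0, 0, 1]

theorem Gm_eq (a : ℝ) (f : E3 → E3) (x : E3) : Gm a f x =
    f (PP a) + AL (fr a f 0) (fr a f 1) (fr a f 2) (x - PP a) := by
  unfold Gm
  congr 1
  show _ = (x - PP a) 0 • fr a f 0 + (x - PP a) 1 • fr a f 1 + (x - PP a) 2 • fr a f 2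
  have h0 : (x - PP a) 0 = x 0 := by
    show x 0 - 0 = x 0
    ring
  have h1 : (x - PP a) 1 = x 1 := by
    show x 1 - 0 = x 1
    ring
  have h2 : (x - PP a) 2 = x 2 - a := rfl
  rw [h0, h1, h2]

theorem Hm_eq (a : ℝ) (f : E3 → E3) (y : E3) : Hm a f y =
    BL (fr a f 0) (fr a f 1) (fr a f 2) (y - f (PP a)) + PP a := by
  apply ext3
  · show ⟪fr a f 0, y - f (PP a)⟫_ℝ = ⟪fr a f 0, y - f (PP a)⟫_ℝ + 0
    ring
  · show ⟪fr a f 1, y - f (PP a)⟫_ℝ = ⟪fr a f 1, y - f (PP a)⟫_ℝ + 0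
    ring
  · show a + ⟪fr a f 2, y - f (PP a)⟫_ℝ = ⟪fr a f 2, y - f (PP a)⟫_ℝ + a
    ring

theorem PP_mem {h : ℝ → ℝ} {a p q b : ℝ} (hD : Dumb h a p q b) : PP a ∈ Surf h a b := by
  refine ⟨le_refl a, ?_, ?_⟩
  · show a ≤ b
    linarith [hD.ap, hD.pq, hD.qb]
  · show (0 : ℝ) ^ 2 + 0 ^ 2 = h a
    rw [hD.ha]
    norm_num

theorem tan_PP (h : ℝ → ℝ) (a : ℝ) {v : E3} (hv : v 2 = 0) : Tan h (PP a) v := by
  show 2 * ((0 : ℝ) * v 0 + 0 * v 1) = deriv h a * v 2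
  rw [hv]
  ring

theorem on_of {h : ℝ → ℝ} {a : ℝ} {f : E3 → E3}
    (hiso : ∀ v, Tan h (PP a) v → ‖fderiv ℝ f (PP a) v‖ = ‖v‖) :
    ON (fr a f 0) (fr a f 1) (fr a f 2) := by
  have h1 : ‖fderiv ℝ f (PP a) e1‖ = ‖e1‖ := hiso e1 (tan_PP h a rfl)
  have h2 : ‖fderiv ℝ f (PP a) e2‖ = ‖e2‖ := hiso e2 (tan_PP h a rfl)
  have h3 : ‖fderiv ℝ f (PP a) (e1 + e2)‖ = ‖e1 + e2‖ := hiso (e1 + e2) (tan_PP h a (by
    show (0 : ℝ) + 0 = 0
    norm_num))
  have n1 : ⟪e1, e1⟫_ℝ = 1 := by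
    rw [inner3]
    show (1 : ℝ) * 1 + 0 * 0 + 0 * 0 = 1
    norm_num
  have n2 : ⟪e2, e2⟫_ℝ = 1 := by
    rw [inner3]
    show (0 : ℝ) * 0 + 1 * 1 + 0 * 0 = 1
    norm_num
  have n3 : ⟪e1, e2⟫_ℝ = 0 := by
    rw [inner3]
    show (1 : ℝ) * 0 + 0 * 1 + 0 * 0 = 0
    norm_num
  have k1 : ⟪fderiv ℝ f (PP a) e1, fderiv ℝ f (PP a) e1⟫_ℝ = 1 := by
    rw [real_inner_self_eq_norm_sq, h1, ← real_inner_self_eq_norm_sq, n1]
  have k2 : ⟪fderiv ℝ f (PP a) e2, fderiv ℝ f (PP a) e2⟫_ℝ = 1 := by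
    rw [real_inner_self_eq_norm_sq, h2, ← real_inner_self_eq_norm_sq, n2]
  have k3 : ⟪fderiv ℝ f (PP a) e1, fderiv ℝ f (PP a) e2⟫_ℝ = 0 := by
    have h4 : ‖fderiv ℝ f (PP a) e1 + fderiv ℝ f (PP a) e2‖ ^ 2 = ‖e1 + e2‖ ^ 2 := by
      rw [← map_add, h3]
    rw [norm_add_sq_real, norm_add_sq_real, h1, h2, n3] at h4
    linarith
  exact cross_on k1 k2 k3

/-- the inverse motion is smooth -/
theorem hasFDeriv_Hm {a : ℝ} {f : E3 → E3} {x : E3} {L : E3 →L[ℝ] E3} (hL : HasFDerivAt f L x) :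
    HasFDerivAt (fun x => Hm a f (f x))
      ((LinearMap.toContinuousLinearMap (BL (fr a f 0) (fr a f 1) (fr a f 2))).comp L) x := by
  have h1 : (fun x => Hm a f (f x)) = fun x =>
      (LinearMap.toContinuousLinearMap (BL (fr a f 0) (fr a f 1) (fr a f 2))) (f x - f (PP a)) + PP a := by
    funext y
    exact Hm_eq a f (f y)
  rw [h1]
  exact ((LinearMap.toContinuousLinearMap (BL (fr a f 0) (fr a f 1) (fr a f 2))).hasFDerivAt.comp x
    (hL.sub_const (f (PP a)))).add_const (PP a)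

end FRMM

open FRMM in
theorem specFRM : SpecFRM := by
  intro h a p q b φa φb ε δ hD hCh F hF
  obtain ⟨Ω, hΩ, hSub, hsm⟩ := hF.smooth
  have hPS := PP_mem hD
  -- the slices
  have hopen : ∀ α : ℝ, IsOpen {x : E3 | (α, x) ∈ Ω} := fun α =>
    hΩ.preimage (Continuous.prodMk continuous_const continuous_id)
  have hmem : ∀ α ∈ Icc (0 : ℝ) 1, ∀ x ∈ Surf h a b, (α, x) ∈ Ω := fun α hα x hx => hSub ⟨hα, hx⟩
  have hslice : ∀ α : ℝ, ContDiffOn ℝ ∞ (F α) {x : E3 | (α, x) ∈ Ω} := by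
    intro α
    have h1 : ContDiffOn ℝ ∞ (fun x : E3 => (α, x)) {x : E3 | (α, x) ∈ Ω} :=
      (contDiff_const.prodMk contDiff_id).contDiffOn
    exact hsm.comp h1 (fun x hx => hx)
  have hdiff : ∀ α : ℝ, ∀ x, (α, x) ∈ Ω → DifferentiableAt ℝ (F α) x := by
    intro α x hx
    exact ((hslice α).contDiffAt ((hopen α).mem_nhds hx)).differentiableAt (by simp)
  have hfd : ∀ α : ℝ, ∀ x, (α, x) ∈ Ω → ∀ v : E3,
      fderiv ℝ (F α) x v = fderiv ℝ (fun p : ℝ × E3 => F p.1 p.2) (α, x) (0, v) := by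
    intro α x hx v
    have h1 : DifferentiableAt ℝ (fun p : ℝ × E3 => F p.1 p.2) (α, x) :=
      (hsm.contDiffAt (hΩ.mem_nhds hx)).differentiableAt (by simp)
    have h2 : HasFDerivAt (fun y : E3 => (α, y)) (ContinuousLinearMap.inr ℝ ℝ E3) x :=
      hasFDerivAt_prodMk_right α x
    have h3 : HasFDerivAt (F α)
        ((fderiv ℝ (fun p : ℝ × E3 => F p.1 p.2) (α, x)).comp (ContinuousLinearMap.inr ℝ ℝ E3)) x :=
      HasFDerivAt.comp x h1.hasFDerivAt h2
    rw [h3.fderiv]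
    rfl
  have hON : ∀ α ∈ Icc (0 : ℝ) 1, ON (fr a (F α) 0) (fr a (F α) 1) (fr a (F α) 2) := by
    intro α hα
    exact on_of (h := h) (fun v hv => hF.iso α hα (PP a) hPS v hv)
  refine ⟨?_, ?_, ?_⟩
  · intro α hα
    have hN := hON α hα
    have hG : ∀ x y, ‖Gm a (F α) x - Gm a (F α) y‖ = ‖x - y‖ := by
      intro x y
      rw [Gm_eq, Gm_eq, add_sub_add_left_eq_sub, ← map_sub, norm_AL hN, sub_sub_sub_cancel_right]
    have hH : ∀ x y, ‖Hm a (F α) x - Hm a (F α) y‖ = ‖x - y‖ := by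
      intro x y
      rw [Hm_eq, Hm_eq, add_sub_add_right_eq_sub, ← map_sub, norm_BL hN, sub_sub_sub_cancel_right]
    refine ⟨hG, hH, ?_, ?_, ?_⟩
    · intro x
      rw [Hm_eq, Gm_eq, add_sub_cancel_left, BA hN, sub_add_cancel]
    · intro y
      rw [Gm_eq, Hm_eq, add_sub_cancel_right, AB hN]
      abel
    · have hder : ∀ x ∈ Surf h a b, ∀ v, fderiv ℝ (fun x => Hm a (F α) (F α x)) x v =
          BL (fr a (F α) 0) (fr a (F α) 1) (fr a (F α) 2) (fderiv ℝ (F α) x v) := by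
        intro x hx v
        rw [(hasFDeriv_Hm (a := a) (hdiff α x (hmem α hα x hx)).hasFDerivAt).fderiv]
        rfl
      constructor
      · refine ⟨{x : E3 | (α, x) ∈ Ω}, hopen α, fun x hx => hmem α hα x hx, ?_⟩
        have h1 : (fun x => Hm a (F α) (F α x)) = fun x =>
            (LinearMap.toContinuousLinearMap (BL (fr a (F α) 0) (fr a (F α) 1) (fr a (F α) 2)))
              (F α x - F α (PP a)) + PP a := by
          funext y
          exact Hm_eq a (F α) (F α y)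
        rw [h1]
        exact ((ContinuousLinearMap.contDiff _).comp_contDiffOn
          ((hslice α).sub contDiffOn_const)).add contDiffOn_const
      · intro x hx v hv
        rw [hder x hx v, norm_BL hN]
        exact hF.iso α hα x hx v hv
      · show Hm a (F α) (F α (PP a)) = PP a
        rw [Hm_eq, sub_self, map_zero, zero_add]
      · intro v hv
        show fderiv ℝ (fun x => Hm a (F α) (F α x)) (PP a) v = v
        rw [hder (PP a) hPS v]
        have hv' : v = v 0 • e1 + v 1 • e2 := by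
          apply ext3
          · show v 0 = v 0 * 1 + v 1 * 0
            ring
          · show v 1 = v 0 * 0 + v 1 * 1
            ring
          · show v 2 = v 0 * 0 + v 1 * 0
            rw [hv]
            ring
        have h2 : fderiv ℝ (F α) (PP a) v =
            AL (fr a (F α) 0) (fr a (F α) 1) (fr a (F α) 2) v := by
          show fderiv ℝ (F α) (PP a) v = v 0 • fr a (F α) 0 + v 1 • fr a (F α) 1 + v 2 • fr a (F α) 2
          rw [hv, zero_smul, add_zero]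
          conv_lhs => rw [hv']
          rw [map_add, map_smul, map_smul]
          rfl
        rw [h2, BA hN]
  · -- the start
    have h0 : (0 : ℝ) ∈ Icc (0 : ℝ) 1 := ⟨le_refl _, zero_le_one⟩
    have hPm := hmem 0 h0 (PP a) hPS
    have hd0 := (hdiff 0 (PP a) hPm).hasFDerivAt
    have hφd : HasDerivAt φa (deriv φa 0) 0 := by
      have h1 : (0 : ℝ) ∈ Ioo (-(4 * ε ^ 2)) (4 * ε ^ 2) := by
        have := hCh.e0
        constructor <;> nlinarith
      exact ((hCh.sa.contDiffAt (isOpen_Ioo.mem_nhds h1)).differentiableAt (by simp)).hasDerivAt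
    have hφ2 : HasDerivAt (fun t : ℝ => φa (t ^ 2)) 0 0 := by
      have h1 : HasDerivAt (fun t : ℝ => t ^ 2) (2 * 0) (0 : ℝ) := by
        have := hasDerivAt_pow 2 (0 : ℝ)
        simpa using this
      have h2 : HasDerivAt φa (deriv φa 0) ((0 : ℝ) ^ 2) := by
        rw [zero_pow two_ne_zero]
        exact hφd
      have h3 : HasDerivAt (φa ∘ fun t : ℝ => t ^ 2) (deriv φa 0 * (2 * 0)) 0 :=
        HasDerivAt.comp (h := fun t : ℝ => t ^ 2) (0 : ℝ) h2 h1
      rw [mul_zero, mul_zero] at h3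
      exact h3
    have key : ∀ e : E3, (e = e1 ∨ e = e2) → fderiv ℝ (F 0) (PP a) e = e := by
      intro e he
      obtain ⟨γ, hγ⟩ : ∃ γ : ℝ → E3, γ = fun t => t • e + φa (t ^ 2) • e3 := ⟨_, rfl⟩
      have hγ0 : γ 0 = PP a := by
        rw [hγ]
        show (0 : ℝ) • e + φa (0 ^ 2) • e3 = PP a
        rw [zero_smul, zero_add, zero_pow two_ne_zero, hCh.a0]
        apply ext3
        · show a * 0 = 0
          ring
        · show a * 0 = 0
          ring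
        · show a * 1 = a
          ring
      have hγd : HasDerivAt γ e 0 := by
        rw [hγ]
        have h1 : HasDerivAt (fun t : ℝ => t • e) ((1 : ℝ) • e) 0 := (hasDerivAt_id (0 : ℝ)).smul_const e
        have h2 : HasDerivAt (fun t : ℝ => φa (t ^ 2) • e3) ((0 : ℝ) • e3) 0 := hφ2.smul_const e3
        have h3 := h1.add h2
        rw [one_smul, zero_smul, add_zero] at h3
        exact h3
      have hγS : ∀ᶠ t in 𝓝 (0 : ℝ), γ t ∈ Surf h a b := by
        have h1 : ∀ᶠ t in 𝓝 (0 : ℝ), t ^ 2 < 4 * ε ^ 2 := by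
          have h2 : ContinuousAt (fun t : ℝ => t ^ 2) 0 := (continuous_pow 2).continuousAt
          apply h2.eventually_lt continuousAt_const
          have := hCh.e0
          show (0 : ℝ) ^ 2 < 4 * ε ^ 2
          nlinarith
        filter_upwards [h1] with t ht
        obtain ⟨r1, r2, r3⟩ := hCh.ra (t ^ 2) ⟨sq_nonneg t, ht⟩
        rw [hγ]
        have c2 : (t • e + φa (t ^ 2) • e3 : E3) 2 = φa (t ^ 2) := by
          rcases he with rfl | rfl
          · show t * 0 + φa (t ^ 2) * 1 = φa (t ^ 2)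
            ring
          · show t * 0 + φa (t ^ 2) * 1 = φa (t ^ 2)
            ring
        have c01 : (t • e + φa (t ^ 2) • e3 : E3) 0 ^ 2 + (t • e + φa (t ^ 2) • e3 : E3) 1 ^ 2 =
            t ^ 2 := by
          rcases he with rfl | rfl
          · show (t * 1 + φa (t ^ 2) * 0) ^ 2 + (t * 0 + φa (t ^ 2) * 0) ^ 2 = t ^ 2
            ring
          · show (t * 0 + φa (t ^ 2) * 0) ^ 2 + (t * 1 + φa (t ^ 2) * 0) ^ 2 = t ^ 2
            ring
        refine ⟨?_, ?_, ?_⟩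
        · show a ≤ (t • e + φa (t ^ 2) • e3 : E3) 2
          rw [c2]; exact r1
        · show (t • e + φa (t ^ 2) • e3 : E3) 2 ≤ b
          rw [c2]; exact r2
        · show (t • e + φa (t ^ 2) • e3 : E3) 0 ^ 2 + (t • e + φa (t ^ 2) • e3 : E3) 1 ^ 2 =
            h ((t • e + φa (t ^ 2) • e3 : E3) 2)
          rw [c01, c2, r3]
      have h4 : HasDerivAt (F 0 ∘ γ) (fderiv ℝ (F 0) (PP a) e) 0 := by
        apply HasFDerivAt.comp_hasDerivAt (0 : ℝ) _ hγd
        rw [hγ0]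
        exact hd0
      have h5 : (F 0 ∘ γ) =ᶠ[𝓝 0] γ := by
        filter_upwards [hγS] with t ht
        exact hF.start (γ t) ht
      exact (h5.hasDerivAt_iff.1 h4).unique hγd
    have f0 : fr a (F 0) 0 = e1 := key e1 (Or.inl rfl)
    have f1 : fr a (F 0) 1 = e2 := key e2 (Or.inr rfl)
    have f2 : fr a (F 0) 2 = e3 := by
      show cross (fderiv ℝ (F 0) (PP a) e1) (fderiv ℝ (F 0) (PP a) e2) = e3
      rw [key e1 (Or.inl rfl), key e2 (Or.inr rfl)]
      apply ext3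
      · show (0 : ℝ) * 0 - 0 * 1 = 0
        norm_num
      · show (0 : ℝ) * 0 - 1 * 0 = 0
        norm_num
      · show (1 : ℝ) * 1 - 0 * 0 = 1
        norm_num
    intro x
    rw [Gm_eq, f0, f1, f2, hF.start (PP a) hPS]
    have h6 : AL e1 e2 e3 (x - PP a) = x - PP a := by
      apply ext3
      · show (x - PP a) 0 * 1 + (x - PP a) 1 * 0 + (x - PP a) 2 * 0 = (x - PP a) 0
        ring
      · show (x - PP a) 0 * 0 + (x - PP a) 1 * 1 + (x - PP a) 2 * 0 = (x - PP a) 1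
        ring
      · show (x - PP a) 0 * 0 + (x - PP a) 1 * 0 + (x - PP a) 2 * 1 = (x - PP a) 2
        ring
    rw [h6]
    abel
  · -- continuity
    have hcF : ContinuousOn (fun p : ℝ × E3 => F p.1 (PP a)) (Icc 0 1 ×ˢ univ) := by
      have h1 : ContinuousOn (fun p : ℝ × E3 => ((p.1, PP a) : ℝ × E3)) (Icc (0 : ℝ) 1 ×ˢ univ) :=
        (continuous_fst.prodMk continuous_const).continuousOn
      exact hsm.continuousOn.comp h1 (fun p hp => hmem p.1 hp.1 (PP a) hPS)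
    have hcD : ∀ e : E3, ContinuousOn (fun p : ℝ × E3 => fderiv ℝ (F p.1) (PP a) e)
        (Icc 0 1 ×ˢ univ) := by
      intro e
      have h1 : ContinuousOn (fun p : ℝ × E3 => ((p.1, PP a) : ℝ × E3)) (Icc (0 : ℝ) 1 ×ˢ univ) :=
        (continuous_fst.prodMk continuous_const).continuousOn
      have h2 : ContinuousOn (fderiv ℝ (fun p : ℝ × E3 => F p.1 p.2)) Ω :=
        hsm.continuousOn_fderiv_of_isOpen hΩ (by simp)
      have h3 := (h2.comp h1 (fun p hp => hmem p.1 hp.1 (PP a) hPS)).clm_apply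
        (continuousOn_const (c := ((0 : ℝ), e)))
      refine h3.congr ?_
      intro p hp
      exact hfd p.1 (PP a) (hmem p.1 hp.1 (PP a) hPS) e
    have hco : ∀ {u : ℝ × E3 → E3}, ContinuousOn u (Icc 0 1 ×ˢ univ) → ∀ i : Fin 3,
        ContinuousOn (fun p => u p i) (Icc 0 1 ×ˢ univ) := by
      intro u hu i
      exact (EuclideanSpace.proj (𝕜 := ℝ) i).continuous.comp_continuousOn hu
    have hx : ∀ i : Fin 3, ContinuousOn (fun p : ℝ × E3 => p.2 i) (Icc 0 1 ×ˢ univ) :=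
      fun i => hco continuousOn_snd i
    have hcr : ContinuousOn (fun p : ℝ × E3 => cross (fderiv ℝ (F p.1) (PP a) e1)
        (fderiv ℝ (F p.1) (PP a) e2)) (Icc 0 1 ×ˢ univ) := by
      have h1 : ∀ x y : E3, cross x y = (x 1 * y 2 - x 2 * y 1) • e1 + (x 2 * y 0 - x 0 * y 2) • e2 +
          (x 0 * y 1 - x 1 * y 0) • e3 := by
        intro x y
        apply ext3
        · show x 1 * y 2 - x 2 * y 1 = (x 1 * y 2 - x 2 * y 1) * 1 + (x 2 * y 0 - x 0 * y 2) * 0 +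
            (x 0 * y 1 - x 1 * y 0) * 0
          ring
        · show x 2 * y 0 - x 0 * y 2 = (x 1 * y 2 - x 2 * y 1) * 0 + (x 2 * y 0 - x 0 * y 2) * 1 +
            (x 0 * y 1 - x 1 * y 0) * 0
          ring
        · show x 0 * y 1 - x 1 * y 0 = (x 1 * y 2 - x 2 * y 1) * 0 + (x 2 * y 0 - x 0 * y 2) * 0 +
            (x 0 * y 1 - x 1 * y 0) * 1
          ring
      simp only [h1]
      have c1 := hcD e1
      have c2 := hcD e2
      exact (((((hco c1 1).mul (hco c2 2)).sub ((hco c1 2).mul (hco c2 1))).smul continuousOn_const).add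
        ((((hco c1 2).mul (hco c2 0)).sub ((hco c1 0).mul (hco c2 2))).smul continuousOn_const)).add
        ((((hco c1 0).mul (hco c2 1)).sub ((hco c1 1).mul (hco c2 0))).smul continuousOn_const)
    show ContinuousOn (fun p : ℝ × E3 => F p.1 (PP a) + (p.2 0 • fderiv ℝ (F p.1) (PP a) e1 +
      p.2 1 • fderiv ℝ (F p.1) (PP a) e2 + (p.2 2 - a) • cross (fderiv ℝ (F p.1) (PP a) e1)
        (fderiv ℝ (F p.1) (PP a) e2))) (Icc 0 1 ×ˢ univ)
    exact hcF.add ((((hx 0).smul (hcD e1)).add ((hx 1).smul (hcD e2))).add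
      (((hx 2).sub continuousOn_const).smul hcr))

end Pool.Agent.Lib.MP478c11.DB
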