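import Pool.Agent.Lib.MP_478c11_gt.DB.Spec

/-!
# MP_478c11_gt, module GRW: Gronwall's inequality in both directions
-/

set_option autoImplicit false

namespace Pool.Agent.Lib.MP478c11.DB

open Set Filter Topology MeasureTheory
open scoped ContDiff

theorem specGRW : SpecGRW := by
  intro p q β f f' α hpq hβ hα hpos hder
  -- extension of `α`
  obtain ⟨al, hal⟩ : ∃ al : ℝ → ℝ, al = fun z => α (max p (min z q)) := ⟨_, rfl⟩
  have hmem : ∀ z : ℝ, max p (min z q) ∈ Icc p q := fun z =>
    ⟨le_max_left _ _, max_le hpq (min_le_right _ _)⟩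
  have hcont : Continuous al := by
    rw [hal]
    exact hα.comp_continuous (continuous_const.max (continuous_id.min continuous_const)) hmem
  have heq : ∀ z ∈ Icc p q, al z = α z := by
    intro z hz
    rw [hal]
    change α (max p (min z q)) = α z
    rw [min_eq_left hz.2, max_eq_right hz.1]
  have hal0 : ∀ z, 0 ≤ al z := by
    intro z
    rw [hal]
    exact (hpos _ (hmem z)).1
  obtain ⟨A, hA⟩ : ∃ A : ℝ → ℝ, A = fun z => ∫ t in p..z, al t := ⟨_, rfl⟩
  have hAd : ∀ z, HasDerivAt A (al z) z := by
    intro z
    rw [hA]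
    exact (hcont.integral_hasStrictDerivAt p z).hasDerivAt
  have hAmono : Monotone A := monotone_of_deriv_nonneg (fun z => (hAd z).differentiableAt)
    (fun z => by rw [(hAd z).deriv]; exact hal0 z)
  have hAp : A p = 0 := by
    rw [hA]
    exact intervalIntegral.integral_same
  have hAq : A q = ∫ t in p..q, α t := by
    rw [hA]
    refine intervalIntegral.integral_congr ?_
    intro t ht
    rw [uIcc_of_le hpq] at ht
    exact heq t ht
  have hA0 : ∀ z ∈ Icc p q, 0 ≤ A z := fun z hz => by
    rw [← hAp]
    exact hAmono hz.1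
  have hA1 : ∀ z ∈ Icc p q, A z ≤ A q := fun z hz => hAmono hz.2
  have d1 : ∀ z ∈ Icc p q, HasDerivAt (fun z => f z * Real.exp (-A z) - β * z)
      ((f' z - al z * f z) * Real.exp (-A z) - β) z := by
    intro z hz
    have h1 := (hder z hz).1
    have h2 : HasDerivAt (fun z => Real.exp (-A z)) (Real.exp (-A z) * -al z) z :=
      (hAd z).neg.exp
    have h3 : HasDerivAt (fun z => β * z) β z := by
      simpa using (hasDerivAt_id z).const_mul β
    refine ((h1.mul h2).sub h3).congr_deriv ?_
    ring
  have d2 : ∀ z ∈ Icc p q, HasDerivAt (fun z => f z * Real.exp (A z) + β * Real.exp (A q) * z)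
      ((f' z + al z * f z) * Real.exp (A z) + β * Real.exp (A q)) z := by
    intro z hz
    have h1 := (hder z hz).1
    have h2 : HasDerivAt (fun z => Real.exp (A z)) (Real.exp (A z) * al z) z :=
      (hAd z).exp
    have h3 : HasDerivAt (fun z => β * Real.exp (A q) * z) (β * Real.exp (A q)) z := by
      simpa using (hasDerivAt_id z).const_mul (β * Real.exp (A q))
    refine ((h1.mul h2).add h3).congr_deriv ?_
    ring
  have m1 : AntitoneOn (fun z => f z * Real.exp (-A z) - β * z) (Icc p q) := by
    refine antitoneOn_of_deriv_nonpos (convex_Icc p q)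
      (fun z hz => (d1 z hz).continuousAt.continuousWithinAt)
      (fun z hz => (d1 z (interior_subset hz)).differentiableAt.differentiableWithinAt) ?_
    intro z hz
    have hz' := interior_subset hz
    rw [(d1 z hz').deriv]
    have h1 := (abs_le.1 (hder z hz').2).2
    rw [← heq z hz'] at h1
    have h2 : Real.exp (-A z) ≤ 1 := Real.exp_le_one_iff.2 (by linarith [hA0 z hz'])
    have h3 := Real.exp_pos (-A z)
    have h4 : (f' z - al z * f z) * Real.exp (-A z) ≤ β * Real.exp (-A z) :=
      mul_le_mul_of_nonneg_right (by linarith) h3.le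
    have h5 : β * Real.exp (-A z) ≤ β := mul_le_of_le_one_right hβ h2
    linarith
  have m2 : MonotoneOn (fun z => f z * Real.exp (A z) + β * Real.exp (A q) * z) (Icc p q) := by
    refine monotoneOn_of_deriv_nonneg (convex_Icc p q)
      (fun z hz => (d2 z hz).continuousAt.continuousWithinAt)
      (fun z hz => (d2 z (interior_subset hz)).differentiableAt.differentiableWithinAt) ?_
    intro z hz
    have hz' := interior_subset hz
    rw [(d2 z hz').deriv]
    have h1 := (abs_le.1 (hder z hz').2).1
    rw [← heq z hz'] at h1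
    have h2 : Real.exp (A z) ≤ Real.exp (A q) := Real.exp_le_exp.2 (hA1 z hz')
    have h3 := Real.exp_pos (A z)
    have h4 : -β * Real.exp (A z) ≤ (f' z + al z * f z) * Real.exp (A z) :=
      mul_le_mul_of_nonneg_right (by linarith) h3.le
    have h5 : β * Real.exp (A z) ≤ β * Real.exp (A q) := mul_le_mul_of_nonneg_left h2 hβ
    linarith
  intro z hz z' hz'
  rw [← hAq]
  have hfz' : 0 ≤ f z' := (hpos z' hz').2
  have hEq : 0 < Real.exp (A q) := Real.exp_pos _
  rcases le_total z' z with h | h
  · have h1 := m1 hz' hz h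
    change f z * Real.exp (-A z) - β * z ≤ f z' * Real.exp (-A z') - β * z' at h1
    have h2 : f z = f z * Real.exp (-A z) * Real.exp (A z) := by
      rw [mul_assoc, ← Real.exp_add, neg_add_cancel, Real.exp_zero, mul_one]
    have h3 : Real.exp (-A z') ≤ 1 := Real.exp_le_one_iff.2 (by linarith [hA0 z' hz'])
    have h4 : f z * Real.exp (-A z) ≤ f z' + β * (q - p) := by
      have h5 : f z' * Real.exp (-A z') ≤ f z' := mul_le_of_le_one_right hfz' h3
      have h6 : β * (z - z') ≤ β * (q - p) :=
        mul_le_mul_of_nonneg_left (by linarith [hz.2, hz'.1]) hβ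
      linarith
    have h7 : 0 ≤ f z' + β * (q - p) := add_nonneg hfz' (mul_nonneg hβ (by linarith))
    calc f z = f z * Real.exp (-A z) * Real.exp (A z) := h2
      _ ≤ (f z' + β * (q - p)) * Real.exp (A z) :=
        mul_le_mul_of_nonneg_right h4 (Real.exp_pos _).le
      _ ≤ (f z' + β * (q - p)) * Real.exp (A q) :=
        mul_le_mul_of_nonneg_left (Real.exp_le_exp.2 (hA1 z hz)) h7
      _ = Real.exp (A q) * (f z' + β * (q - p)) := mul_comm _ _
  · have h1 := m2 hz hz' h
    change f z * Real.exp (A z) + β * Real.exp (A q) * z ≤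
      f z' * Real.exp (A z') + β * Real.exp (A q) * z' at h1
    have h2 : f z ≤ f z * Real.exp (A z) :=
      le_mul_of_one_le_right (hpos z hz).2 (Real.one_le_exp (hA0 z hz))
    have h3 : f z' * Real.exp (A z') ≤ f z' * Real.exp (A q) :=
      mul_le_mul_of_nonneg_left (Real.exp_le_exp.2 (hA1 z' hz')) hfz'
    have h4 : β * Real.exp (A q) * (z' - z) ≤ β * Real.exp (A q) * (q - p) :=
      mul_le_mul_of_nonneg_left (by linarith [hz'.2, hz.1]) (mul_nonneg hβ hEq.le)
    linarith

end Pool.Agent.Lib.MP478c11.DB
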