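import Pool.Agent.Lib.MP_478c11_gt.DB.Spec

/-!
# Unbendable dumbbells of revolution (MP_478c11_gt): specification, part 2 (captain helper25)

The geometric part. `S = Surf h a b` is the dumbbell. Let `F_α` be a bending of `S`, normalised by motions so that it is the identity to first order at the lower pole `P = (0, 0, a)`:
`f`. `u = f - id` satisfies linear equations with the quadratic right hand side `-|du|²/2`. In polar coordinates `X(z, θ) = (√h cos θ, √h sin θ, z)` the Fourier modes satisfy the equations of part 1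
(`SpecMEQ`); with the a priori estimate `Est` every mode is bounded by `C n^B N²`, where `N` bounds the first two derivatives of `u` (`SpecMN0`, `SpecMN1`, `SpecMN2`). The high modes are small, since
`∂_θ^J u` is bounded; and `N ≤ C ν^(9/10)`, `ν = sup |u|`, by interpolation with the bounded derivatives of order `≤ 21`. So `ν ≤ C ν^(3/2)`, `ν = 0` if `ν` is small: the set of the `α` for which `F_α` is a motion on `S` is open.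

Conventions: module `XXX` is the file `Pool/Agent/Lib/MP_478c11_gt/DB/XXX.lean`, it imports only `Pool.Agent.Lib.MP_478c11_gt.DB.Geo` and proves
`theorem specXXX (hYYY : SpecYYY) .. : SpecXXX` (the modules named after USES, in this order) in the namespace `Pool.Agent.Lib.MP478c11.DB`, own lemmas in a namespace `XXXM`.
-/

set_option autoImplicit false

namespace Pool.Agent.Lib.MP478c11.DB

open Set Filter Topology MeasureTheory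
open scoped ContDiff InnerProductSpace

noncomputable section

/-- Euclidean 3-space. -/
abbrev E3 : Type := EuclideanSpace ℝ (Fin 3)

/-- The surface of revolution `x² + y² = h(z)`, `a ≤ z ≤ b`. -/
def Surf (h : ℝ → ℝ) (a b : ℝ) : Set E3 := {x | a ≤ x 2 ∧ x 2 ≤ b ∧ x 0 ^ 2 + x 1 ^ 2 = h (x 2)}

/-- `v` is tangent to the surface at `x`. -/
def Tan (h : ℝ → ℝ) (x v : E3) : Prop := 2 * (x 0 * v 0 + x 1 * v 1) = deriv h (x 2) * v 2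

/-- A bending of the surface, through maps which need not be injective. -/
structure Bending (h : ℝ → ℝ) (a b : ℝ) (F : ℝ → E3 → E3) : Prop where
  smooth : ∃ Ω : Set (ℝ × E3), IsOpen Ω ∧ Icc (0 : ℝ) 1 ×ˢ Surf h a b ⊆ Ω ∧ ContDiffOn ℝ ∞ (fun p : ℝ × E3 => F p.1 p.2) Ω
  iso : ∀ α ∈ Icc (0 : ℝ) 1, ∀ x ∈ Surf h a b, ∀ v, Tan h x v → ‖fderiv ℝ (F α) x v‖ = ‖v‖
  start : ∀ x ∈ Surf h a b, F 0 x = x

/-- Every bending is trivial. -/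
def Unb (h : ℝ → ℝ) (a b : ℝ) : Prop :=
  ∀ F : ℝ → E3 → E3, Bending h a b F → ∀ α ∈ Icc (0 : ℝ) 1, ∃ g : E3 ≃ᵢ E3, ∀ x ∈ Surf h a b, F α x = g x

/-- Polar coordinates. -/
def X (h : ℝ → ℝ) (z θ : ℝ) : E3 := !₂[√(h z) * Real.cos θ, √(h z) * Real.sin θ, z]

/-- Rotation. -/
def rot (θ : ℝ) (x : E3) : E3 := !₂[Real.cos θ * x 0 - Real.sin θ * x 1, Real.sin θ * x 0 + Real.cos θ * x 1, x 2]

section partial_derivatives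
variable {E : Type} [NormedAddCommGroup E] [NormedSpace ℝ E]

/-- `∂_z` -/
def dz (U : ℝ → ℝ → E) (z θ : ℝ) : E := deriv (fun s => U s θ) z

/-- `∂_θ` -/
def dt (U : ℝ → ℝ → E) (z θ : ℝ) : E := deriv (fun s => U z s) θ

/-- `h ∂_z` -/
def tz (h : ℝ → ℝ) (U : ℝ → ℝ → E) (z θ : ℝ) : E := h z • deriv (fun s => U s θ) z

end partial_derivatives

/-- A smooth field on `(a, b) × ℝ`, periodic in `θ`. -/
def Fld {E : Type} [NormedAddCommGroup E] [NormedSpace ℝ E] (a b : ℝ) (U : ℝ → ℝ → E) : Prop :=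
  ContDiffOn ℝ ∞ (fun p : ℝ × ℝ => U p.1 p.2) (Ioo a b ×ˢ univ) ∧ ∀ z θ, U z (θ + 2 * Real.pi) = U z θ

/-- `X + U` has the metric of `X`. -/
def IsoEq (h : ℝ → ℝ) (a b : ℝ) (U : ℝ → ℝ → E3) : Prop :=
  ∀ z ∈ Ioo a b, ∀ θ, ⟪dz U z θ, dz (X h) z θ⟫_ℝ = -‖dz U z θ‖ ^ 2 / 2 ∧ ⟪dt U z θ, dt (X h) z θ⟫_ℝ = -‖dt U z θ‖ ^ 2 / 2 ∧
    ⟪dz U z θ, dt (X h) z θ⟫_ℝ + ⟪dt U z θ, dz (X h) z θ⟫_ℝ = -⟪dz U z θ, dt U z θ⟫_ℝ

/-- The size of `U` and its derivatives. -/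
structure Size (h : ℝ → ℝ) (a b : ℝ) (U : ℝ → ℝ → E3) (N M : ℝ) : Prop where
  n0 : 0 ≤ N
  all : ∀ z ∈ Ioo a b, ∀ θ, ‖tz h U z θ‖ ≤ N * √(h z) ∧ ‖dt U z θ‖ ≤ N * √(h z) ∧ ‖tz h (tz h U) z θ‖ ≤ N * √(h z) ∧ ‖dt (tz h U) z θ‖ ≤ N * √(h z)
  low : ∀ z ∈ Ioo a b, z ≤ (a + b) / 2 → ∀ θ, ‖U z θ‖ ≤ N * h z ∧ ‖tz h U z θ‖ ≤ N * h z ∧ ‖dt U z θ‖ ≤ N * h z ∧
    ‖tz h (tz h U) z θ‖ ≤ N * h z ∧ ‖dt (tz h U) z θ‖ ≤ N * h z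
  up : ∃ c : E3, ∀ z ∈ Ioo a b, (a + b) / 2 ≤ z → ∀ θ, ‖U z θ - c‖ ≤ M * √(h z)

/-- The components in the rotating frame `e_r`, `e_θ`, `e_3`. -/
def cA (U : ℝ → ℝ → E3) (z θ : ℝ) : ℝ := Real.cos θ * U z θ 0 + Real.sin θ * U z θ 1
def cB (U : ℝ → ℝ → E3) (z θ : ℝ) : ℝ := -Real.sin θ * U z θ 0 + Real.cos θ * U z θ 1
def cw (U : ℝ → ℝ → E3) (z θ : ℝ) : ℝ := U z θ 2

/-- The quadratic terms. -/
def s1 (h : ℝ → ℝ) (U : ℝ → ℝ → E3) (z θ : ℝ) : ℝ := h z * ‖dz U z θ‖ ^ 2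
def s2 (h : ℝ → ℝ) (U : ℝ → ℝ → E3) (z θ : ℝ) : ℝ := ‖dt U z θ‖ ^ 2 / h z
def s3 (U : ℝ → ℝ → E3) (z θ : ℝ) : ℝ := ⟪dz U z θ, dt U z θ⟫_ℝ

/-- The `n`-th Fourier coefficient in `θ`. -/
def cf (n : ℤ) (φ : ℝ → ℝ → ℝ) (z : ℝ) : ℂ :=
  1 / (2 * Real.pi) * ∫ θ in (0 : ℝ)..2 * Real.pi, (φ z θ : ℂ) * Complex.exp (-(Complex.I * n * θ))

/-- `y_n = B_n / √h` -/
def yn (h : ℝ → ℝ) (U : ℝ → ℝ → E3) (n : ℤ) (z : ℝ) : ℂ := cf n (cB U) z / (√(h z) : ℝ)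

/-- `v_n = h y_n' = √h B_n' - (√h)' B_n` -/
def vn (h : ℝ → ℝ) (U : ℝ → ℝ → E3) (n : ℤ) (z : ℝ) : ℂ :=
  (√(h z) : ℝ) * cf n (dz (cB U)) z - (deriv h z / (2 * √(h z)) : ℝ) * cf n (cB U) z

/-- The source of the `n`-th mode. -/
def Fn (h : ℝ → ℝ) (U : ℝ → ℝ → E3) (n : ℤ) (z : ℝ) : ℂ :=
  -(h z : ℂ) * cf n (dz (s3 U)) z + Complex.I * n / 2 * cf n (s1 h U) z - Complex.I * n / 2 * (W h z : ℂ) * cf n (s2 h U) z

/-! ### modes -/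

/-- **DUI** (170 lines, no deps). Fourier coefficients and derivatives; multiplication by `cos θ`, `sin θ`.
PROOF. `hasDerivAt_integral_of_dominated_loc_of_deriv_le` (or `intervalIntegral` version) on a small interval around `z` (compactness of `[z - ε, z + ε] × [0, 2π]`); integration by parts (periodicity); `cos θ = (e^(iθ) + e^(-iθ))/2`. -/
def SpecDUI : Prop :=
  (∀ (a b : ℝ) (φ : ℝ → ℝ → ℝ) (n : ℤ), Fld a b φ → ∀ z ∈ Ioo a b, HasDerivAt (cf n φ) (cf n (dz φ) z) z ∧ cf n (dt φ) z = Complex.I * n * cf n φ z) ∧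
  (∀ (a b : ℝ) (φ ψ : ℝ → ℝ → ℝ) (n : ℤ) (s t : ℝ), Fld a b φ → Fld a b ψ → ∀ z ∈ Ioo a b,
    cf n (fun z θ => s * φ z θ + t * ψ z θ) z = s * cf n φ z + t * cf n ψ z) ∧
  (∀ (a b : ℝ) (φ : ℝ → ℝ → ℝ) (n : ℤ), Fld a b φ → ∀ z ∈ Ioo a b,
    cf n (fun z θ => Real.cos θ * φ z θ) z = (cf (n - 1) φ z + cf (n + 1) φ z) / 2 ∧
    cf n (fun z θ => Real.sin θ * φ z θ) z = (cf (n - 1) φ z - cf (n + 1) φ z) / (2 * Complex.I)) ∧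
  (∀ (φ : ℝ → ℝ → ℝ) (n : ℤ) (z T : ℝ), (∀ θ, |φ z θ| ≤ T) → ‖cf n φ z‖ ≤ T) ∧
  (∀ (a b : ℝ) (φ : ℝ → ℝ → ℝ), Fld a b φ → Fld a b (dz φ) ∧ Fld a b (dt φ))

/-- **FLE** (170 lines, no deps). Smoothness and periodicity of the derived fields; symmetry of the second derivatives.
PROOF. `dz U z θ` is the value of the derivative of `(z, θ) ↦ U z θ` at `(1, 0)`, smooth on the open set `(a, b) × ℝ`; periodicity is clear. -/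
def SpecFLE : Prop :=
  ∀ (h : ℝ → ℝ) (a b : ℝ) (U : ℝ → ℝ → E3), ContDiff ℝ ∞ h → (∀ z ∈ Ioo a b, 0 < h z) → Fld a b U →
    Fld a b (dz U) ∧ Fld a b (dt U) ∧ (∀ i, Fld a b (fun z θ => U z θ i)) ∧ Fld a b (cA U) ∧ Fld a b (cB U) ∧ Fld a b (cw U) ∧
    Fld a b (s1 h U) ∧ Fld a b (s2 h U) ∧ Fld a b (s3 U) ∧
    ∀ z ∈ Ioo a b, ∀ θ, dz (dt U) z θ = dt (dz U) z θ ∧
      ∀ i, dz (fun z θ => U z θ i) z θ = dz U z θ i ∧ dt (fun z θ => U z θ i) z θ = dt U z θ i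

/-- **MEQ** (300 lines), USES DUI, FLE. The equations of the modes.
PROOF. `r = √h`, `r' = h'/(2r)`, `X_z = r' e_r + e_3`, `X_θ = r e_θ`, `U_z = A_z e_r + B_z e_θ + w_z e_3`, `U_θ = (A_θ - B) e_r + (B_θ + A) e_θ + w_θ e_3`. `IsoEq`: (i) `r' A_z + w_z = -s₁/(2h)`; (ii) `A + B_θ = -(r/2) s₂`; (iii) `r B_z + r' (A_θ - B) + w_θ = -s₃`.
Coefficients (DUI): (i) `r' A_n' + w_n' = -(s₁)_n/(2h)`; (ii) `A_n + i n B_n = -(r/2)(s₂)_n`: first item; (iii) `v_n + r' i n A_n + i n w_n = -(s₃)_n`; with (ii), `r r' = h'/2`, `r' B_n = (h'/2) y_n`: second item. Differentiate the second item; `w_n' = -(s₁)_n/(2h) - r' A_n'`,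
`A_n' = -(r' (s₂)_n + r (s₂)_n')/2 - i n B_n'`, `r' B_n' = (h'/(2h)) v_n + (h'²/(4h)) y_n`: all terms with `(s₂)_n'` and `v_n` cancel, and `v_n' = (n² W y_n + F_n)/h`. Last item (`n = 0`): `w_0' = -(s₁)_0/(2h) - r' A_0'`. -/
def SpecMEQ : Prop :=
  ∀ (h : ℝ → ℝ) (a p q b : ℝ), Dumb h a p q b → ∀ U : ℝ → ℝ → E3, Fld a b U → IsoEq h a b U → ∀ n : ℤ, ∀ z ∈ Ioo a b,
    cf n (cA U) z = -((√(h z) : ℝ) / 2 * cf n (s2 h U) z) - Complex.I * n * cf n (cB U) z ∧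
    vn h U n z = -cf n (s3 U) z + Complex.I * n / 4 * ((deriv h z : ℝ) : ℂ) * cf n (s2 h U) z - (n : ℂ) ^ 2 * ((deriv h z / 2 : ℝ) : ℂ) * yn h U n z -
      Complex.I * n * cf n (cw U) z ∧
    HasDerivAt (yn h U n) (vn h U n z / (h z : ℂ)) z ∧
    HasDerivAt (vn h U n) (((n : ℂ) ^ 2 * (W h z : ℂ) * yn h U n z + Fn h U n z) / (h z : ℂ)) z ∧
    HasDerivAt (cf n (cB U)) (cf n (dz (cB U)) z) z ∧ HasDerivAt (cf n (cw U)) (cf n (dz (cw U)) z) z ∧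
    cf 0 (dz (cw U)) z = -(cf 0 (s1 h U) z / (2 * (h z : ℂ))) + ((deriv h z ^ 2 / (8 * h z) : ℝ) : ℂ) * cf 0 (s2 h U) z +
      ((deriv h z / 4 : ℝ) : ℂ) * cf 0 (dz (s2 h U)) z

/-- **SQB** (200 lines), USES FLE. The quadratic terms.
PROOF. `s₁ = |U_τ|²/h`, `s₂ = |U_θ|²/h`, `s₃ = ⟨U_τ, U_θ⟩/h` with `U_τ = h U_z = tz h U`; `h ∂_z s₃ = (⟨U_ττ, U_θ⟩ + ⟨U_τ, U_θτ⟩ - h' ⟨U_τ, U_θ⟩)/h` (`h ∂_z U_θ = ∂_θ (h U_z)` by symmetry of second derivatives), `h ∂_z s₂ = (2 ⟨U_θ, U_θτ⟩ - h' |U_θ|²)/h`. -/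
def SpecSQB : Prop :=
  ∀ (h : ℝ → ℝ) (a p q b : ℝ), Dumb h a p q b → ∃ C : ℝ, 0 < C ∧ ∀ (U : ℝ → ℝ → E3) (N M : ℝ), Fld a b U → Size h a b U N M → ∀ z ∈ Ioo a b, ∀ θ,
    (|s1 h U z θ| ≤ C * N ^ 2 ∧ |s2 h U z θ| ≤ C * N ^ 2 ∧ |s3 U z θ| ≤ C * N ^ 2 ∧ |h z * dz (s3 U) z θ| ≤ C * N ^ 2 ∧ |h z * dz (s2 h U) z θ| ≤ C * N ^ 2) ∧
    (z ≤ (a + b) / 2 → |s1 h U z θ| ≤ C * N ^ 2 * h z ∧ |s2 h U z θ| ≤ C * N ^ 2 * h z ∧ |s3 U z θ| ≤ C * N ^ 2 * h z ∧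
      |h z * dz (s3 U) z θ| ≤ C * N ^ 2 * h z ∧ |h z * dz (s2 h U) z θ| ≤ C * N ^ 2 * h z)

/-- The modes with `Q n` are quadratically small (with a harmless factor near the upper pole). -/
def ModeBd (h : ℝ → ℝ) (a b : ℝ) (Q : ℤ → Prop) : Prop :=
  ∃ (C : ℝ) (B : ℕ), 0 < C ∧ ∀ (U : ℝ → ℝ → E3) (N M : ℝ), Fld a b U → IsoEq h a b U → Size h a b U N M → ∀ n : ℤ, Q n → ∀ z ∈ Ioo a b,
    ‖cf n (cA U) z‖ + ‖cf n (cB U) z‖ + ‖cf n (cw U) z‖ ≤ C * ((n.natAbs : ℝ) + 1) ^ B * N ^ 2 * (b - z) ^ (-(1 / 40 : ℝ))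

/-- **MN0** (260 lines), USES DUI, FLE, MEQ, SQB. The mode `n = 0`.
PROOF. `m = (a+b)/2`; `c (b - z) ≤ h z ≤ C (b - z)` on `[m, b)`. `A_0 = -(r/2)(s₂)_0`. `v_0 = -(s₃)_0` so `|y_0'| ≤ |s₃|/h`: `≤ C N²` on `(a, m]`, `≤ C N²/(b - z)` on `[m, b)`; `y_0 → 0` at `a` (`|B_0| ≤ sup |U| ≤ N h`). So `|y_0| ≤ C N² (1 + log ((b-m)/(b-z))) ≤ C N² (b-z)^(-1/40)`, `B_0 = r y_0`.
`w_0`: by the last item of MEQ `|w_0'| ≤ (C/h)(|s₁| + |s₂| + |h ∂_z s₂|)`: the same bounds, `w_0 → 0` at `a` (`|w_0| ≤ N h`). (SQB for the coefficients: `‖cf n φ z‖ ≤ sup_θ |φ|`.) -/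
def SpecMN0 : Prop := ∀ (h : ℝ → ℝ) (a p q b : ℝ), Dumb h a p q b → ModeBd h a b (fun n => n = 0)

/-- **MN1** (300 lines), USES DUI, FLE, MEQ, SQB. The modes `n = ± 1`.
PROOF. `m = (a+b)/2`, `c (z-a) ≤ h` on `(a, m]`, `c (b - z) ≤ h ≤ C (b-z)` on `[m, b)`. `D = B_n' = cf n (dz (cB U)) = (v_n + (h'/2) y_n)/r`; `D' = F_n/(h r)` (`n² = 1`: `D = v/r + r' y`, `D' = r'' y + v'/r`, `v' = (W y + F)/h`, `W/h = -r r''`, `r = √h`; here `r'' = h''/(2r) - h'²/(4 r³)`). By the second item of MEQ `D = (-(s₃)_n + (i n/4) h' (s₂)_n - i n w_n)/r`, so by SQB and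
`|w_n| ≤ sup |U| ≤ N h` on `(a, m]`: `|D| ≤ (C N² + N) √h → 0` at `a`. `|F_n| ≤ C N² h` on `(a, m]`, so `|D'| ≤ C N²/√h ≤ C N² (z-a)^(-1/2)` and `|D| ≤ C N²` on `(a, m]`. On `[m, b)`: `|F_n| ≤ C N²`, `|D'| ≤ C N² (b-z)^(-3/2)`, `|D| ≤ C N² (b-z)^(-1/2)`. `B_n → 0` at `a` (`|B_n| ≤ N h`): `|B_n| ≤ C N²` everywhere. `A_n` by the first item,
`i n w_n = -r D - (s₃)_n + (i n/4) h' (s₂)_n`, `r |D| ≤ C N²`. -/
def SpecMN1 : Prop := ∀ (h : ℝ → ℝ) (a p q b : ℝ), Dumb h a p q b → ModeBd h a b (fun n => n.natAbs = 1)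

/-- **MN2** (260 lines), USES DUI, FLE, MEQ, SQB. The modes `|n| ≥ 2`.
PROOF. `y_n` is bounded: on `(a, m]` `|B_n| ≤ sup |U| ≤ N h`; on `[m, b)`: for `|n| ≥ 2` `B_n` is also the coefficient of `-sin θ (U_0 - c_0) + cos θ (U_1 - c_1)` (`c` from `Size.up`), so `|B_n| ≤ 2 M √h`. The real and imaginary parts of `(y_n, v_n)` satisfy `Sys h |n| (Re F_n) ..` on `(a, b)` (MEQ), `|F_n| ≤ C |n| N²` (SQB, `W` bounded).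
`Est`: `|y_n|, |v_n| ≤ C |n|^(B+1) N²`. `B_n = r y_n`; `A_n` by the first, `w_n` by the second item of MEQ (divide by `i n`). -/
def SpecMN2 : Prop := ∀ (h : ℝ → ℝ) (a p q b : ℝ), Dumb h a p q b → Est h a b → ModeBd h a b (fun n => 2 ≤ n.natAbs)

/-- **FOU** (200 lines, no deps). A periodic function is bounded by its low modes and a high derivative.
PROOF. `c_n = cf n (fun _ => φ) 0`, `c_(-n) = conj c_n`, `|c_n| ≤ |n|^(-J) M` (integration by parts `J` times). The Fourier series converges pointwise (`hasSum_fourier_series_of_summable` on `AddCircle (2π)`): `|φ| ≤ Σ_(|n| ≤ L) |c_n| + 2 Σ_(n > L) n^(-J) M ≤ (2L+1) T + 2 M L^(1-J)`. -/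
def SpecFOU : Prop :=
  ∀ (φ : ℝ → ℝ) (J L : ℕ) (M T : ℝ), ContDiff ℝ ∞ φ → (∀ θ, φ (θ + 2 * Real.pi) = φ θ) → 2 ≤ J → 1 ≤ L → (∀ θ, |iteratedDeriv J φ θ| ≤ M) →
    (∀ n : ℕ, n ≤ L → ‖cf (n : ℤ) (fun _ => φ) 0‖ ≤ T) → ∀ θ, |φ θ| ≤ (2 * L + 1) * T + 8 * M / (L : ℝ) ^ (J - 1)

/-- **SUP** (230 lines), USES DUI, FLE, MN0, MN1, MN2, FOU. The estimate of `U`.
PROOF. `U_0 = cos θ A - sin θ B`, `U_1 = sin θ A + cos θ B`, `U_2 = w`: by DUI the `n`-th coefficients of `U_0`, `U_1`, `U_2` are bounded by the sum of `|A_k| + |B_k| + |w_k|`, `k = n-1, n, n+1`, so by `C (L+2)^B N² (b-z)^(-1/40)` for `0 ≤ n ≤ L` (MN0, MN1, MN2). FOU for the components `θ ↦ U z θ i` (`cf` at `z` of `fun z θ => U z θ i`); `|iteratedDeriv J (component)| ≤ M_J`. -/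
def SpecSUP : Prop :=
  ∀ (h : ℝ → ℝ) (a p q b : ℝ), Dumb h a p q b → Est h a b → ∃ (C : ℝ) (B : ℕ), 0 < C ∧ ∀ (U : ℝ → ℝ → E3) (N M : ℝ), Fld a b U → IsoEq h a b U → Size h a b U N M →
    ∀ (J L : ℕ) (MJ : ℝ), 2 ≤ J → 1 ≤ L → (∀ z ∈ Ioo a b, ∀ θ, ‖iteratedDeriv J (U z) θ‖ ≤ MJ) → ∀ z ∈ Ioo a b, ∀ θ,
      ‖U z θ‖ ≤ C * ((L : ℝ) ^ B * N ^ 2 * (b - z) ^ (-(1 / 40 : ℝ)) + MJ / (L : ℝ) ^ (J - 1))

/-- **BOT** (110 lines, no deps). PROOF. `J = 20 (B + 1) + 1`, `L = ⌈ν^(-1/(10(B+1)))⌉ ≤ 2 ν^(-1/(10(B+1)))`: `L^B ≤ 2^B ν^(-1/10)`, `L^(J-1) ≥ ν^(-2)`, `(ν⁴)^(-1/40) = ν^(-1/10)`: the left side is `≤ C' (ν^(8/5) + ν²)`. -/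
def SpecBOT : Prop :=
  ∀ B : ℕ, ∃ J : ℕ, 2 ≤ J ∧ ∀ C K M : ℝ, 0 < C → 0 < K → 0 < M → ∃ ν₀ : ℝ, 0 < ν₀ ∧ ∀ ν : ℝ, 0 < ν → ν ≤ ν₀ → ∃ L : ℕ, 1 ≤ L ∧
    C * ((L : ℝ) ^ B * (K * ν ^ (9 / 10 : ℝ)) ^ 2 * (ν ^ 4) ^ (-(1 / 40 : ℝ)) + M / (L : ℝ) ^ (J - 1)) + M * ν ^ 2 < ν / 2

/-! ### interpolation -/

/-- **IN1** (230 lines, no deps). Interpolation on an interval (`K = 20`).
PROOF. Let `K = 20`, `0 < ν` (for `ν = 0` `f 0 = 0` on the interval, so `f 1 = 0`, or let `ν → 0`), `t = (l/(2K)) (ν/M)^(1/K) ≤ l/(2K)`. There are `c_0, …, c_(K-1)` with `Σ_j c_j j^i = δ_(i,1)` for `0 ≤ i < K` (Vandermonde, `0^0 = 1`). For `x` in the left half, Taylor: `‖f_0(x + j t) - Σ_(i<K) (j t)^i/i! f_i(x)‖ ≤ M (j t)^K/K!`, so `t ‖f_1 x‖ ≤ C (ν + M t^K)`,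
`‖f_1 x‖ ≤ C (ν/t + M t^(K-1)) = C' ν^(1-1/K) M^(1/K)`. In the right half use `x - j t`. (Induction on `K` with Landau's inequality also works: `θ ↦ 1/(2-θ)`.) -/
def SpecIN1 : Prop :=
  ∀ l : ℝ, 0 < l → ∃ C : ℝ, 0 < C ∧ ∀ (f : ℕ → ℝ → E3) (c d ν M : ℝ), l ≤ d - c → 0 ≤ ν → ν ≤ M → (∀ i < 20, ∀ x ∈ Icc c d, HasDerivAt (f i) (f (i + 1) x) x) →
    (∀ x ∈ Icc c d, ‖f 0 x‖ ≤ ν ∧ ‖f 20 x‖ ≤ M) → ∀ x ∈ Icc c d, ‖f 1 x‖ ≤ C * ν ^ (19 / 20 : ℝ) * M ^ (1 / 20 : ℝ)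

/-- Partial derivatives of functions on the plane. -/
def pd (i : Bool) (g : ℝ × ℝ → E3) (p : ℝ × ℝ) : E3 := if i then fderiv ℝ g p (1, 0) else fderiv ℝ g p (0, 1)

/-- Words of partial derivatives. -/
def dw : List Bool → (ℝ × ℝ → E3) → ℝ × ℝ → E3
  | [], g => g
  | i :: w, g => pd i (dw w g)

/-- **IN2** (170 lines), USES IN1. Interpolation on a box.
PROOF. `∂_x g`: IN1 on horizontal segments, `f i = (∂_x)^i g`: `‖∂_x g‖ ≤ C ν^(19/20) M^(1/20) =: ν₁` on the box (`ν ≤ 1 ≤ M`; `ν₁ ≤ C M`); the same for `∂_y g`. Second derivatives: IN1 for `∂_x g` (or `∂_y g`), bounded by `ν₁ ≤ C M =: M₁` and its derivatives of order `20` by `M ≤ M₁` (`C ≥ 1`): `≤ C ν₁^(19/20) M₁^(1/20) ≤ C' M ν^((19/20)²)`, `(19/20)² ≥ 9/10`. -/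
def SpecIN2 : Prop :=
  ∀ l : ℝ, 0 < l → ∃ C : ℝ, 0 < C ∧ ∀ (Ω : Set (ℝ × ℝ)) (g : ℝ × ℝ → E3) (x₀ x₁ y₀ y₁ ν M : ℝ), IsOpen Ω → ContDiffOn ℝ ∞ g Ω → l ≤ x₁ - x₀ → l ≤ y₁ - y₀ →
    Icc x₀ x₁ ×ˢ Icc y₀ y₁ ⊆ Ω → 0 ≤ ν → ν ≤ 1 → 1 ≤ M → (∀ w : List Bool, w.length ≤ 21 → ∀ p ∈ Icc x₀ x₁ ×ˢ Icc y₀ y₁, ‖dw w g p‖ ≤ M) →
    (∀ p ∈ Icc x₀ x₁ ×ˢ Icc y₀ y₁, ‖g p‖ ≤ ν) → ∀ w : List Bool, 1 ≤ w.length → w.length ≤ 2 → ∀ p ∈ Icc x₀ x₁ ×ˢ Icc y₀ y₁, ‖dw w g p‖ ≤ C * M * ν ^ (9 / 10 : ℝ)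

/-! ### charts -/

/-- Charts at the poles: `φa`, `φb` are local inverses of `h`. -/
structure Charts (h : ℝ → ℝ) (a b : ℝ) (φa φb : ℝ → ℝ) (ε δ : ℝ) : Prop where
  e0 : 0 < ε
  d0 : 0 < δ
  d1 : δ ≤ (b - a) / 4
  sa : ContDiffOn ℝ ∞ φa (Ioo (-(4 * ε ^ 2)) (4 * ε ^ 2))
  sb : ContDiffOn ℝ ∞ φb (Ioo (-(4 * ε ^ 2)) (4 * ε ^ 2))
  a0 : φa 0 = a
  b0 : φb 0 = b
  ra : ∀ s ∈ Ico 0 (4 * ε ^ 2), a ≤ φa s ∧ φa s ≤ b ∧ h (φa s) = s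
  rb : ∀ s ∈ Ico 0 (4 * ε ^ 2), a ≤ φb s ∧ φb s ≤ b ∧ h (φb s) = s
  ia : ∀ z, a < z → z < a + δ → h z < ε ^ 2 ∧ φa (h z) = z
  ib : ∀ z, b - δ < z → z < b → h z < ε ^ 2 ∧ φb (h z) = z

/-- **CHT** (200 lines), USES REF.
PROOF. `h' > 0` on some `[a - η, a + η]`; the inverse function theorem (`ContDiffAt.to_localInverse` / `HasStrictDerivAt`; or strict monotonicity and smoothness of the inverse) gives `φa` near `0`, `φa s ≥ a` for `s ≥ 0`. The same at `b` (reflection). Choose `ε`, then `δ`, small. -/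
def SpecCHT : Prop :=
  ∀ (h : ℝ → ℝ) (a p q b : ℝ), Dumb h a p q b → ∃ (φa φb : ℝ → ℝ) (ε δ : ℝ), Charts h a b φa φb ε δ

/-- The chart. -/
def Ps (φ : ℝ → ℝ) (p : ℝ × ℝ) : E3 := !₂[p.1, p.2, φ (p.1 ^ 2 + p.2 ^ 2)]

/-- **POL** (280 lines, no deps). From the chart to polar coordinates.
PROOF. `r = √h > 0` on `I`, `h r' = r h'/2`. With `(x, y) = (r cos θ, r sin θ)`: `U_θ = -y g_x + x g_y`, `tz h U = (h'/2)(x g_x + y g_y)`, `tz h (tz h U) = (h h''/2)(x g_x + y g_y) + (h'²/4)(x g_x + y g_y + x² g_xx + 2 x y g_xy + y² g_yy)`, `dt (tz h U) = (h'/2)(-y g_x + x g_y + ..)`, second derivatives times `x²`, `x y`, `y²`.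
`|x|, |y| ≤ r ≤ ε`. Second item: if `g` and its first derivatives vanish at `0` then `‖g_x‖, ‖g_y‖ ≤ 2 N r`, `‖g‖ ≤ 4 N r²` on the disc of radius `r` (mean value inequality along the segment from `0`). `h`, `h'`, `h''` are bounded by `H`. -/
def SpecPOL : Prop :=
  ∀ H ε : ℝ, 0 < ε → ∃ C : ℝ, 0 < C ∧ ∀ (h : ℝ → ℝ) (c d N : ℝ) (g : ℝ × ℝ → E3) (U : ℝ → ℝ → E3), ContDiff ℝ ∞ h → 0 ≤ N →
    (∀ z ∈ Ioo c d, 0 < h z ∧ h z < ε ^ 2 ∧ |h z| ≤ H ∧ |deriv h z| ≤ H ∧ |deriv (deriv h) z| ≤ H) →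
    ContDiffOn ℝ ∞ g {p : ℝ × ℝ | p.1 ^ 2 + p.2 ^ 2 < 4 * ε ^ 2} →
    (∀ w : List Bool, 1 ≤ w.length → w.length ≤ 2 → ∀ p ∈ Icc (-ε) ε ×ˢ Icc (-ε) ε, ‖dw w g p‖ ≤ N) →
    (∀ z ∈ Ioo c d, ∀ θ, U z θ = g (√(h z) * Real.cos θ, √(h z) * Real.sin θ)) →
    (∀ z ∈ Ioo c d, ∀ θ, ‖tz h U z θ‖ ≤ C * N * √(h z) ∧ ‖dt U z θ‖ ≤ C * N * √(h z) ∧ ‖tz h (tz h U) z θ‖ ≤ C * N * √(h z) ∧
      ‖dt (tz h U) z θ‖ ≤ C * N * √(h z) ∧ ‖U z θ - g 0‖ ≤ C * N * √(h z)) ∧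
    (g 0 = 0 → fderiv ℝ g 0 = 0 → ∀ z ∈ Ioo c d, ∀ θ, ‖U z θ‖ ≤ C * N * h z ∧ ‖tz h U z θ‖ ≤ C * N * h z ∧ ‖dt U z θ‖ ≤ C * N * h z ∧
      ‖tz h (tz h U) z θ‖ ≤ C * N * h z ∧ ‖dt (tz h U) z θ‖ ≤ C * N * h z)

/-- Bounds for the derivatives of `f` along the surface. -/
structure Bdd (h : ℝ → ℝ) (a b : ℝ) (φa φb : ℝ → ℝ) (ε δ : ℝ) (J : ℕ) (M : ℝ) (f : E3 → E3) : Prop where
  ba : ∀ w : List Bool, w.length ≤ 21 → ∀ p ∈ Icc (-ε) ε ×ˢ Icc (-ε) ε, ‖dw w (fun p => f (Ps φa p)) p‖ ≤ M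
  bb : ∀ w : List Bool, w.length ≤ 21 → ∀ p ∈ Icc (-ε) ε ×ˢ Icc (-ε) ε, ‖dw w (fun p => f (Ps φb p)) p‖ ≤ M
  bc : ∀ w : List Bool, w.length ≤ 21 → ∀ z ∈ Icc (a + δ / 2) (b - δ / 2), ∀ θ : ℝ, ‖dw w (fun p => f (X h p.1 p.2)) (z, θ)‖ ≤ M
  bt : ∀ x ∈ Surf h a b, ∀ θ, ‖iteratedDeriv J (fun t => f (rot t x)) θ‖ ≤ M

/-- `f` is smooth near the surface, isometric, and the identity to first order at the lower pole. -/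
structure Good (h : ℝ → ℝ) (a b : ℝ) (f : E3 → E3) : Prop where
  smooth : ∃ Ω : Set E3, IsOpen Ω ∧ Surf h a b ⊆ Ω ∧ ContDiffOn ℝ ∞ f Ω
  iso : ∀ x ∈ Surf h a b, ∀ v, Tan h x v → ‖fderiv ℝ f x v‖ = ‖v‖
  base : f !₂[0, 0, a] = !₂[0, 0, a]
  dbase : ∀ v : E3, v 2 = 0 → fderiv ℝ f !₂[0, 0, a] v = v

/-- The displacement in polar coordinates. -/
def Uf (h : ℝ → ℝ) (f : E3 → E3) (z θ : ℝ) : E3 := f (X h z θ) - X h z θ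

/-- **ISE** (200 lines, no deps). The displacement is a smooth field with `IsoEq`.
PROOF. `X h` is smooth on `(a, b) × ℝ` with values in `S`, `X_z`, `X_θ` are tangent, so are `X_z ± X_θ` (`Tan` is linear in `v`). `U_z = Df X_z - X_z`, and `‖Df v‖ = ‖v‖` for `v = X_z, X_θ, X_z + X_θ` gives the three equations. -/
def SpecISE : Prop :=
  ∀ (h : ℝ → ℝ) (a p q b : ℝ), Dumb h a p q b → ∀ f : E3 → E3, Good h a b f → Fld a b (Uf h f) ∧ IsoEq h a b (Uf h f)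

/-- **SIZ** (300 lines), USES IN2, POL. The size of the displacement.
PROOF. `u = f - id`. The words of length `≤ 21` of `Ps φa`, `Ps φb`, `X h` are bounded on the (compact) boxes by a constant `C₀`, so those of `u ∘ Ps φa`, `u ∘ Ps φb`, `u ∘ X h` by `M + C₀`. `Ps φ p ∈ S` for `p.1² + p.2² < 4 ε²` and `X h z θ ∈ S`, so these functions are bounded by `ν`. IN2 (boxes `[-ε, ε]²`, `[a + δ/2, b - δ/2] × [θ - π, θ + π]`): words of length `1`, `2` `≤ C ν^(9/10)`.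
On `(a, a + δ)` and `(b - δ, b)`: `X h z θ = Ps φ (√h cos θ, √h sin θ)`, POL; at `a`: `u P = 0`, `D(u ∘ Ps φa)(0) = Du(P) ∘ D Ps φa (0)`, which vanishes (`dbase`). On `[a + δ/2, b - δ/2]` `h ≥ h₀ > 0` and everything is `≤ C ν^(9/10) ≤ C' ν^(9/10) h`; `‖U‖ ≤ ν ≤ ν^(9/10)`. `up`: `c = f(P') - P'`, `P' = (0, 0, b)`: POL near `b`, elsewhere `‖U - c‖ ≤ 2`. -/
def SpecSIZ : Prop :=
  ∀ (h : ℝ → ℝ) (a p q b : ℝ) (φa φb : ℝ → ℝ) (ε δ : ℝ), Dumb h a p q b → Charts h a b φa φb ε δ → ∀ M : ℝ, ∃ K : ℝ, 0 < K ∧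
    ∀ (J : ℕ) (f : E3 → E3) (ν : ℝ), Good h a b f → Bdd h a b φa φb ε δ J M f → 0 ≤ ν → ν ≤ 1 → (∀ x ∈ Surf h a b, ‖f x - x‖ ≤ ν) →
      Size h a b (Uf h f) (K * ν ^ (9 / 10 : ℝ)) K

/-- **ISO** (260 lines), USES SUP, BOT, ISE, SIZ. Maps close to the identity.
PROOF. `B`, `C` from SUP, `J` from BOT. `‖iteratedDeriv J (Uf h f z) θ‖ ≤ M + C₀` (`X h z t = rot t (X h z 0)`; the derivatives of `rot t x` are bounded by `‖x‖`). Let `ν = sup_S ‖f x - x‖` (attained; `S` is compact), `0 < ν ≤ ν₀`. `f P = P`. So there are `z ∈ (a, b)`, `θ` with `‖Uf h f z θ‖ > ν/2` (points of `S` other than the poles are `X h z θ` with `z ∈ (a, b)`; if the maximum is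
at `P'` use continuity). SIZ: `Size` with `N = K ν^(9/10)`. If `z ≤ b - ν⁴`: SUP with the `L` of BOT (`(b-z)^(-1/40) ≤ (ν⁴)^(-1/40)`) contradicts BOT. If `z > b - ν⁴` compare with `z' = b - ν⁴` (`≥ (a+b)/2`): `‖U z θ - U z' θ‖ ≤ K (√h z + √h z') ≤ C ν²` (`up`, `h ≤ C (b - z)`). -/
def SpecISO : Prop :=
  ∀ (h : ℝ → ℝ) (a p q b : ℝ) (φa φb : ℝ → ℝ) (ε δ : ℝ), Dumb h a p q b → Est h a b → Charts h a b φa φb ε δ → ∃ J : ℕ, 1 ≤ J ∧ ∀ M : ℝ, ∃ ν₀ : ℝ, 0 < ν₀ ∧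
    ∀ f : E3 → E3, Good h a b f → Bdd h a b φa φb ε δ J M f → (∀ x ∈ Surf h a b, ‖f x - x‖ ≤ ν₀) → ∀ x ∈ Surf h a b, f x = x

/-! ### the family -/

/-- **CPT** (260 lines, no deps). Uniform bounds.
PROOF. `S` is compact. `(α, p) ↦ F α (Ps φ p)` is smooth on an open set containing `[0, 1] × [-ε, ε]²`; by induction on the word `w`, `(α, p) ↦ dw w (fun p => F α (Ps φ p)) p` is smooth there (`fderiv` in a direction of the second factor), so it is bounded on the compact set; finitely many words. The same for `X h` (periodic in `θ`: only `θ ∈ [0, 2π]`; the words are periodic too) and for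
`(α, x, θ) ↦ iteratedDeriv J (fun t => F α (rot t x)) θ` on `[0, 1] × S × [0, 2π]`. -/
def SpecCPT : Prop :=
  ∀ (h : ℝ → ℝ) (a p q b : ℝ) (φa φb : ℝ → ℝ) (ε δ : ℝ), Dumb h a p q b → Charts h a b φa φb ε δ → ∀ F : ℝ → E3 → E3, Bending h a b F → ∀ J : ℕ,
    ∃ M : ℝ, ∀ α ∈ Icc (0 : ℝ) 1, Bdd h a b φa φb ε δ J M (F α)

/-- The vector product. -/
def cross (x y : E3) : E3 := !₂[x 1 * y 2 - x 2 * y 1, x 2 * y 0 - x 0 * y 2, x 0 * y 1 - x 1 * y 0]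

/-- The frame at the lower pole. -/
def fr (a : ℝ) (f : E3 → E3) (i : Fin 3) : E3 :=
  ![fderiv ℝ f !₂[0, 0, a] !₂[1, 0, 0], fderiv ℝ f !₂[0, 0, a] !₂[0, 1, 0],
    cross (fderiv ℝ f !₂[0, 0, a] !₂[1, 0, 0]) (fderiv ℝ f !₂[0, 0, a] !₂[0, 1, 0])] i

/-- The motion which agrees with `f` to first order at the lower pole. -/
def Gm (a : ℝ) (f : E3 → E3) (x : E3) : E3 := f !₂[0, 0, a] + (x 0 • fr a f 0 + x 1 • fr a f 1 + (x 2 - a) • fr a f 2)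

/-- Its inverse. -/
def Hm (a : ℝ) (f : E3 → E3) (y : E3) : E3 :=
  !₂[⟪fr a f 0, y - f !₂[0, 0, a]⟫_ℝ, ⟪fr a f 1, y - f !₂[0, 0, a]⟫_ℝ, a + ⟪fr a f 2, y - f !₂[0, 0, a]⟫_ℝ]

/-- **FRM** (280 lines, no deps). The motions.
PROOF. The tangent plane at `P` is `{v 2 = 0}` (`h' a > 0`), `D(F α)(P)` is isometric there, so `fr 0`, `fr 1` are orthonormal, `fr 2` is the vector product. Continuity in `α`: `(α, x) ↦ F α x` is smooth near `{α} × {P}`. `F 0 = id` on `S`: the derivative of `F 0` at `P` in the direction `e₁` is the derivative of `F 0` along the curve `t ↦ (t, 0, φ(t²)) ∈ S`, with `φ` a local inverse of `h` (use `Charts`), so it is `e₁`. -/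
def SpecFRM : Prop :=
  ∀ (h : ℝ → ℝ) (a p q b : ℝ) (φa φb : ℝ → ℝ) (ε δ : ℝ), Dumb h a p q b → Charts h a b φa φb ε δ → ∀ F : ℝ → E3 → E3, Bending h a b F →
    (∀ α ∈ Icc (0 : ℝ) 1, (∀ x y, ‖Gm a (F α) x - Gm a (F α) y‖ = ‖x - y‖) ∧ (∀ x y, ‖Hm a (F α) x - Hm a (F α) y‖ = ‖x - y‖) ∧
      (∀ x, Hm a (F α) (Gm a (F α) x) = x) ∧ (∀ y, Gm a (F α) (Hm a (F α) y) = y) ∧ Good h a b (fun x => Hm a (F α) (F α x))) ∧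
    (∀ x, Gm a (F 0) x = x) ∧ ContinuousOn (fun p : ℝ × E3 => Gm a (F p.1) p.2) (Icc 0 1 ×ˢ univ)

/-- **NMB** (150 lines, no deps). The bounds for the normalised maps.
PROOF. `Hm a f` is a motion: `Hm a f y = L (y - f P) + P` with `L` linear isometric (the third hypothesis gives: `Hm` is affine and an isometry). A word of length `≥ 1` of `L ∘ g + const` is `L` of the word of `g` (`ContinuousLinearEquiv.comp_fderiv`, or `L` a continuous linear map and `g` arbitrary: `L` is invertible), and `iteratedDeriv J` likewise (`J ≥ 1`). Length `0`: `‖Hm a f (f x)‖ ≤ ‖f x - f P‖ + ‖P‖ ≤ 2 M + |a|`, where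
`‖f P‖ ≤ M` by `ba` for the empty word at `p = 0`. -/
def SpecNMB : Prop :=
  ∀ (h : ℝ → ℝ) (a p q b : ℝ) (φa φb : ℝ → ℝ) (ε δ M : ℝ) (J : ℕ) (f : E3 → E3), Dumb h a p q b → Charts h a b φa φb ε δ → 1 ≤ J → Bdd h a b φa φb ε δ J M f →
    (∀ x y, ‖Hm a f x - Hm a f y‖ = ‖x - y‖) → Bdd h a b φa φb ε δ J (2 * M + |a|) (fun x => Hm a f (f x))

/-- **OPC** (230 lines), USES CHT, ISO, CPT, FRM, NMB. The open-closed argument.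
PROOF. `A = {α ∈ [0, 1] : ∀ x ∈ S, F α x = Gm a (F α) x}`. `0 ∈ A` (FRM). `A` is closed (both sides are continuous in `α`). `A` is open in `[0, 1]`: `J` from ISO, `M` from CPT, `2 M + |a|` from NMB, `ν₀` from ISO. Let `α₁ ∈ A`; `(α, x) ↦ F α x - Gm a (F α) x` is continuous on `[0, 1] × S` and `0` on `{α₁} × S`, `S` is compact: `≤ ν₀` for `α` near `α₁`; then
`‖Hm a (F α) (F α x) - x‖ = ‖F α x - Gm a (F α) x‖ ≤ ν₀`, ISO: `Hm a (F α) (F α x) = x`, so `F α x = Gm a (F α) x`. `[0, 1]` is connected. `Gm a (F α)` is an isometry of `E3` (`IsometryEquiv`). -/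
def SpecOPC : Prop :=
  ∀ (h : ℝ → ℝ) (a p q b : ℝ), Dumb h a p q b → Est h a b → Unb h a b

/-- **FIN** (20 lines), USES NRX, EST, OPC. -/
def SpecFIN : Prop :=
  ∀ (h : ℝ → ℝ) (a p q b : ℝ), Dumb h a p q b → ∀ (N : ℕ) (δ : ℝ), 0 < δ → ∃ h₂ : ℝ → ℝ, Near h h₂ a p q b q N δ ∧ Unb h₂ a b

theorem specFIN (hNRX : SpecNRX) (hEST : SpecEST) (hOPC : SpecOPC) : SpecFIN := by
  intro h a p q b hD N δ hδ
  obtain ⟨h₂, hN, hR⟩ := hNRX h a p q b hD N δ hδ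
  exact ⟨h₂, hN, hOPC h₂ a p q b hN.1 (hEST h₂ a p q b hN.1 hR)⟩

end

end Pool.Agent.Lib.MP478c11.DB
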