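import Pool.Agent.Lib.MP_478c11_gt.DB.Spec

/-!
# Unbendable spheres of revolution are dense (MP_478c11_gt): specification, part 3 (captain helper25)

THEOREM. Let `S_h = {x² + y² = h(z)}` be ANY smooth sphere of revolution of this form (`h > 0` on `(a, b)`, `h(a) = h(b) = 0`, `h'(a) > 0 > h'(b)`; any number of zones of
positive and negative curvature). For all `N`, `δ > 0` there is `h₂` with the same properties, equal to `h` off a compact subset of `(a, b)`, `|(h₂ - h)^(i)| ≤ δ` for `i ≤ N`, such that every `C^∞` bending of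
`S_h₂` is trivial.

This file: the ODE part, `SpecFNG`: a dense set of the `h` satisfies `Est h a b`. (1) `W` has only simple zeros after a small perturbation (Sard): necks `[p j, q j]` (`W < 0` inside), `j < k`, `W > 0` elsewhere. (2) Near every neck `h` agrees
with a dumbbell, for which the theorem of part 1 is applied as a black box. In the zones with `W > 0` solutions decay exponentially in `n` away from the ends of the zone: for large `n` the necks do not interact. (3) For the remaining finitely many `n` one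
needs only that there is no bounded solution with `F = 0`: this is achieved (for all `n ≥ 2`) together with the choice of the perturbation in the first neck.

Conventions: module `XXX` is the file `Pool/Agent/Lib/MP_478c11_gt/DB/XXX.lean`, it imports only `Pool.Agent.Lib.MP_478c11_gt.DB.Many` and proves
`theorem specXXX (hYYY : SpecYYY) .. : SpecXXX` (the modules named after USES, in this order) in the namespace `Pool.Agent.Lib.MP478c11.DB`, own lemmas in a namespace `XXXM`.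
If a module is a variation of a module `ZZZ` of part 1 you may copy from `DB/ZZZ.lean`.
-/

set_option autoImplicit false

namespace Pool.Agent.Lib.MP478c11.DB

open Set Filter Topology MeasureTheory
open scoped ContDiff

noncomputable section

/-- A sphere of revolution `x² + y² = h(z)`, `a ≤ z ≤ b`. -/
structure Sph (h : ℝ → ℝ) (a b : ℝ) : Prop where
  smooth : ContDiff ℝ ∞ h
  ab : a < b
  ha : h a = 0
  hb : h b = 0
  pos : ∀ z, a < z → z < b → 0 < h z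
  da : 0 < deriv h a
  db : deriv h b < 0

/-- `k` necks `[p j, q j]`, `j < k`. -/
structure Many (h : ℝ → ℝ) (a b : ℝ) (k : ℕ) (p q : ℕ → ℝ) : Prop where
  sph : Sph h a b
  pq : ∀ j < k, a < p j ∧ p j < q j ∧ q j < b
  qp : ∀ j, j + 1 < k → q j < p (j + 1)
  neg : ∀ j < k, ∀ z ∈ Ioo (p j) (q j), W h z < 0
  dp : ∀ j < k, deriv (W h) (p j) < 0 ∧ 0 < deriv (W h) (q j)
  posW : ∀ z ∈ Icc a b, (∀ j < k, z ∉ Icc (p j) (q j)) → 0 < W h z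

/-- `h₁` is a sphere, equal to `h` off a compact subset of `(a, b)`, and `δ`-close to `h` in `C^N`. -/
def Nr (h h₁ : ℝ → ℝ) (a b : ℝ) (N : ℕ) (δ : ℝ) : Prop :=
  Sph h₁ a b ∧ (∃ c d : ℝ, a < c ∧ c < d ∧ d < b ∧ ∀ z, z ∉ Icc c d → h₁ z = h z) ∧
    ∀ i ≤ N, ∀ z, |iteratedDeriv i (fun z => h₁ z - h z) z| ≤ δ

/-- Near `[p, q]` `h` agrees with a dumbbell which satisfies the a priori estimate. -/
def GoodNeck (h : ℝ → ℝ) (p q : ℝ) : Prop :=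
  ∃ (h' : ℝ → ℝ) (a' b' η : ℝ), 0 < η ∧ Dumb h' a' p q b' ∧ a' < p - η ∧ q + η < b' ∧ (∀ z ∈ Icc (p - η) (q + η), h' z = h z) ∧ Est h' a' b'

/-- There is no bounded solution with `F = 0`. -/
def NB (h : ℝ → ℝ) (a b : ℝ) (n : ℕ) : Prop :=
  ∀ (y v : ℝ → ℝ) (M : ℝ), Sys h n O y v (Ioo a b) → (∀ z ∈ Ioo a b, |y z| ≤ M) → ∀ z ∈ Ioo a b, y z = 0

/-! ### simple zeros -/

/-- **GEN** (270 lines), USES SQR. Simple zeros are dense.
PROOF. `W a = h'(a)²/4 > 0`, `W b > 0`: `W > 0` on `[a, a + 2η] ∪ [b - 2η, b]`. `κ z = z²/2 · χ(z)`, `χ` a smooth cutoff, `1` on `[a + η, b - η]` (and near it), supported in a compact `[c, d] ⊂ (a, b)`. `h₁ = pert h κ μ`. On `[a + η, b - η]`: `W h₁ = -r_μ³ (r'' + μ)`, `r = √h` (SQR). The set of the critical values of `r''` on `(a + η/2, b - η/2)` has measure `0` (Sard in dimension one,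
`MeasureTheory.addHaar_image_eq_zero_of_det_fderiv_eq_zero`), so there are arbitrarily small `μ` with: `r'' z + μ = 0` implies `r''' z ≠ 0`, and then `(W h₁)' z = -r_μ³ r''' ≠ 0`. On `[a, a + η] ∪ [b - η, b]` `W h₁ > 0` for small `μ` (`C²`-closeness, compactness). `Sph` for small `μ`; `|iteratedDeriv i (h₁ - h)| ≤ δ` as in module PD (`h₁ - h = 2 μ √h κ + μ² κ²`,
`√h κ` is smooth with compact support). -/
def SpecGEN : Prop :=
  ∀ (h : ℝ → ℝ) (a b : ℝ), Sph h a b → ∀ (N : ℕ) (δ : ℝ), 0 < δ → ∃ h₁ : ℝ → ℝ, Nr h h₁ a b N δ ∧ ∀ z ∈ Icc a b, W h₁ z = 0 → deriv (W h₁) z ≠ 0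

/-- **ZER** (270 lines, no deps). The necks.
PROOF. `W a > 0`, `W b > 0`. The zeros of `W` in `[a, b]` are isolated and form a compact set: finitely many. Induction on their number `m` in `[s, b]` for `s ∈ [a, b)` with `W s > 0` (statement: there are `k`, `p`, `q` with the properties of `Many` with `s` in place of `a`): `m = 0`: `k = 0`. Otherwise let `p` be the first zero after `s`: `W > 0` on `[s, p)`, so `W' p ≤ 0`, so `W' p < 0` and `W < 0` just after `p`;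
as `W b > 0` there is a next zero `q` (the first one after `p`), `W < 0` on `(p, q)`, `W' q > 0`; choose `s' > q` before the next zero, `W > 0` on `(q, s']`; apply the induction hypothesis to `s'` and shift the indices. -/
def SpecZER : Prop :=
  ∀ (h : ℝ → ℝ) (a b : ℝ), Sph h a b → (∀ z ∈ Icc a b, W h z = 0 → deriv (W h) z ≠ 0) → ∃ (k : ℕ) (p q : ℕ → ℝ), Many h a b k p q

/-! ### extension by a convex cap -/

/-- **EXR** (260 lines, no deps). A function with `h, W > 0` at `z₀` can be continued to the right of `z₀` by a convex cap.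
PROOF. `h, W > 0` on some `[z₀, z₀ + 1·s]`, `s ≤ 1`; `c = 1 + max_[z₀, z₀+1] |h''|`. For `σ ∈ (0, s)` let `χ_σ` be smooth, `0` for `z ≤ z₀`, `1` for `z ≥ z₀ + σ`, `0 ≤ χ_σ ≤ 1`, and `h_σ'' = h'' - χ_σ (h'' + c) = (1 - χ_σ) h'' - χ_σ c`, `h_σ = h` on `(-∞, z₀]` (integrate twice from `z₀`; smooth). On `[z₀, z₀ + σ]`: `h_σ'' ≤ h''`, `|h_σ' - h'| ≤ 2 c σ`, `|h_σ - h| ≤ 2 c σ²`, so for small
`σ` `h_σ > 0` and `W h_σ = h_σ'²/4 - h_σ h_σ''/2 ≥ h_σ'²/4 - h_σ h''/2 ≥ W h - C σ > 0`. For `z ≥ z₀ + σ` `h_σ'' = -c < 0`: `h_σ` is a quadratic polynomial, positive at `z₀ + σ`, `→ -∞`: let `b'` be its first zero after `z₀ + σ`: `h_σ' b' < 0` (concave, positive before), and `W h_σ ≥ h_σ c/2 > 0` on `[z₀ + σ, b')`, `W h_σ b' = h_σ'(b')²/4 > 0`. -/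
def SpecEXR : Prop :=
  ∀ (h : ℝ → ℝ) (z₀ : ℝ), ContDiff ℝ ∞ h → 0 < h z₀ → 0 < W h z₀ → ∃ (h' : ℝ → ℝ) (b' : ℝ), z₀ < b' ∧ ContDiff ℝ ∞ h' ∧ (∀ z, z ≤ z₀ → h' z = h z) ∧
    h' b' = 0 ∧ deriv h' b' < 0 ∧ (∀ z, z₀ ≤ z → z < b' → 0 < h' z) ∧ ∀ z, z₀ ≤ z → z ≤ b' → 0 < W h' z

/-- **EXT** (260 lines), USES EXR. Near a neck `h` agrees with a dumbbell.
PROOF. Choose `η > 0` with `q j + 2η < p (j+1)` (or `< b`), `p j - 2η > q (j-1)` (or `> a`). If `j + 1 < k` apply EXR at `z₀ = q j + η` (`W > 0` there by `posW`, `h > 0`); if `j + 1 = k` keep `h`, `b' = b`. If `0 < j` apply EXR to the reflected function `z ↦ (..)(-z)` at `-(p j - η)` and reflect back; if `j = 0` keep it, `a' = a`. (`W` of the reflected function is the reflected `W`.) `W h' z = W h z` for `z` in an open set where `h' = h`. -/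
def SpecEXT : Prop :=
  ∀ (h : ℝ → ℝ) (a b : ℝ) (k : ℕ) (p q : ℕ → ℝ), Many h a b k p q → ∀ j < k, ∃ (h' : ℝ → ℝ) (a' b' η : ℝ), 0 < η ∧ Dumb h' a' (p j) (q j) b' ∧
    a' < p j - η ∧ q j + η < b' ∧ a < p j - η ∧ q j + η < b ∧ (∀ z ∈ Icc (p j - η) (q j + η), h' z = h z) ∧
    (j = 0 → a' = a ∧ ∀ z, z ≤ q j + η → h' z = h z) ∧ (j + 1 = k → b' = b ∧ ∀ z, p j - η ≤ z → h' z = h z)

/-! ### zones with positive curvature -/

/-- **LIS** (90 lines, no deps). Existence on a sphere. PROOF. As module LIN (only `h` smooth, `> 0` on `(a, b)` is used). -/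
def SpecLIS : Prop :=
  ∀ (h : ℝ → ℝ) (a b : ℝ), Sph h a b → ∀ n : ℕ, ∀ c ∈ Ioo a b, ∀ y₀ v₀ : ℝ, ∃ y v : ℝ → ℝ, Sys h n O y v (Ioo a b) ∧ y c = y₀ ∧ v c = v₀

/-- **UNS** (90 lines), USES GRW. Uniqueness. PROOF. As module UNQ. -/
def SpecUNS : Prop :=
  ∀ (h : ℝ → ℝ) (a b : ℝ), Sph h a b → ∀ (n : ℕ) (F y v y' v' : ℝ → ℝ) (I : Set ℝ), I.OrdConnected → I ⊆ Ioo a b →
    Sys h n F y v I → Sys h n F y' v' I → ∀ c ∈ I, y c = y' c → v c = v' c → ∀ z ∈ I, y z = y' z ∧ v z = v' z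

/-- **VBS** (110 lines, no deps). PROOF. As module VBD (`h t ≤ C (b - t)`). -/
def SpecVBS : Prop :=
  ∀ (h : ℝ → ℝ) (a b : ℝ), Sph h a b → ∃ C : ℝ, 0 < C ∧ ∀ n : ℕ, 1 ≤ n → ∀ (F y v : ℝ → ℝ) (R Y₀ : ℝ),
    Sys h n F y v (Ioo a b) → (∀ z ∈ Ioo a b, |F z| ≤ R ∧ |y z| ≤ Y₀) → ∀ z ∈ Ioo a b, |v z| ≤ C * ((n : ℝ) ^ 2 * Y₀ + R)

/-- **DEC** (250 lines, no deps). Exponential decay inside a zone with `W > 0`.
PROOF. On `[s, t]` `W ≥ w₀`, `h ≥ h₀ > 0`, `h, |h'| ≤ H`, `m = (s + t)/2`, `L = (t - s)/2`. `λ ∈ (0, 1]` with `λ² H² + λ H² ≤ w₀`. `w(z) = M (e^(λ n (z - t)) + e^(λ n (s - z))) + R/w₀`: `h (h w')' ≤ (λ² n² h² + λ n |h h'|) (w - R/w₀) ≤ n² w₀ (w - R/w₀) ≤ n² W w - R` (`n ≥ 1`), `w ≥ M ≥ |y|` at `s` and `t`. Maximum principle for `φ = ± y - w`: at an interior maximum with `φ > 0`, `h (h φ')' ≥ n² W (± y) - R - (n² W w - R) = n² W φ > 0`, impossible. So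
`|y| ≤ w`, and `w ≤ 2 M e^(-λ n (t-s)/12) + R/w₀` on `[s + (t-s)/12, t - (t-s)/12]`. For `z` in the middle third let `z₁ = z + (t-s)/12`: mean value theorem: `v ξ / h ξ = (y z₁ - y z)/(z₁ - z)` for some `ξ`, and `|v'| ≤ (n² W |y| + R)/h₀` between `z` and `z₁`: `|v z| ≤ C n² (e^(-c n) M + R)`. (`M ≥ 0`, `R ≥ 0` follow from the bounds.) -/
def SpecDEC : Prop :=
  ∀ (h : ℝ → ℝ) (s t : ℝ), ContDiff ℝ ∞ h → s < t → (∀ z ∈ Icc s t, 0 < h z ∧ 0 < W h z) → ∃ C c : ℝ, 0 < C ∧ 0 < c ∧ ∀ n : ℕ, 1 ≤ n →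
    ∀ (F y v : ℝ → ℝ) (R M : ℝ), Sys h n F y v (Icc s t) → (∀ z ∈ Icc s t, |F z| ≤ R ∧ |y z| ≤ M) →
      ∀ z ∈ Icc ((2 * s + t) / 3) ((s + 2 * t) / 3), |y z| + |v z| ≤ C * (n : ℝ) ^ 2 * (Real.exp (-(c * n)) * M + R)

/-- **BUM** (170 lines, no deps). The maximum principle in a zone between two necks.
PROOF. `θ(z) = T - A e^(λ z)`: choose `λ > 0` with `λ h ≥ |h'| + 1` on `[s, t]`, then `A` with `A λ e^(λ s) min h ≥ 1`, then `T` with `θ ≥ 0`: `h (h θ')' = -A e^(λ z) (λ² h² + λ h h') ≤ -A λ e^(λ z) h (λ h - |h'|) ≤ -1`. `w = max |y s| |y t| + R θ`: `h (h w')' ≤ -R ≤ n² W w - R`. At an interior maximum of `φ = ± y - w - ε θ` (any `ε > 0`) with `φ > 0`: `h (h φ')' ≥ n² W (± y) - R + R + ε > 0`, impossible. -/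
def SpecBUM : Prop :=
  ∀ (h : ℝ → ℝ) (s t : ℝ), ContDiff ℝ ∞ h → s < t → (∀ z ∈ Icc s t, 0 < h z) → (∀ z ∈ Ioo s t, 0 < W h z) → ∃ C : ℝ, 0 < C ∧ ∀ n : ℕ, 1 ≤ n →
    ∀ (F y v : ℝ → ℝ) (R : ℝ), Sys h n F y v (Icc s t) → (∀ z ∈ Icc s t, |F z| ≤ R) → ∀ z ∈ Icc s t, |y z| ≤ max |y s| |y t| + C * R

/-- **CPM** (280 lines), USES REF, CAP, LEX, EXT, LIS, UNS. The two caps.
PROOF. EXT for `j = 0`: `h'` a dumbbell, `h' = h` on `(-∞, q 0 + η]`, `a' = a`. LEX: a left solution `(Y', V')` of `h'`; LIS: the solution `(Y, V)` of `h` on `(a, b)` with the data `(1, V' (p 0))` at `p 0`; it agrees with `(Y', V')` on `(a, q 0 + η)` (UNS for `h`: there the systems are the same). For `y` as in the statement: `(y - y(p 0) Y', v - y(p 0) V')` solves the system of `h'` on `(a, p 0]` with the source `F`, is bounded and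
zero at `p 0`: CAP. The second half: EXT for `j = k - 1`, and REF. -/
def SpecCPM : Prop :=
  ∀ (h : ℝ → ℝ) (a b : ℝ) (k : ℕ) (p q : ℕ → ℝ), Many h a b k p q → 1 ≤ k → ∃ C : ℝ, 0 < C ∧ ∀ n : ℕ, 1 ≤ n →
    (∃ Y V : ℝ → ℝ, Sys h n O Y V (Ioo a b) ∧ Y (p 0) = 1 ∧ (∀ z ∈ Ioc a (p 0), |Y z| ≤ 1) ∧ ∀ (F y v : ℝ → ℝ) (R M : ℝ), Sys h n F y v (Ioc a (p 0)) → 0 ≤ R →
      (∀ z ∈ Ioc a (p 0), |F z| ≤ R ∧ |y z| ≤ M) → (∀ z ∈ Ioc a (p 0), |y z - y (p 0) * Y z| ≤ C * R) ∧ |v (p 0) - y (p 0) * V (p 0)| ≤ C * (n : ℝ) ^ 2 * R) ∧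
    (∃ Z U : ℝ → ℝ, Sys h n O Z U (Ioo a b) ∧ Z (q (k - 1)) = 1 ∧ (∀ z ∈ Ico (q (k - 1)) b, |Z z| ≤ 1) ∧ ∀ (F y v : ℝ → ℝ) (R M : ℝ), Sys h n F y v (Ico (q (k - 1)) b) → 0 ≤ R →
      (∀ z ∈ Ico (q (k - 1)) b, |F z| ≤ R ∧ |y z| ≤ M) → (∀ z ∈ Ico (q (k - 1)) b, |y z - y (q (k - 1)) * Z z| ≤ C * R) ∧
        |v (q (k - 1)) - y (q (k - 1)) * U (q (k - 1))| ≤ C * (n : ℝ) ^ 2 * R)

/-! ### large n -/

/-- **LNK** (280 lines), USES DEC. The estimate near a neck.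
PROOF. `χ` a smooth cutoff: `1` on `[p - 7η/18, q + 7η/18]`, `0` outside `[p - 11η/18, q + 11η/18]`. `ỹ = χ y`, `ṽ = χ v + h χ' y` (extended by `0`) solve the system of `h'` on `(a', b')` with the source `F̃ = χ F + 2 h χ' v + h (h χ')' y`, as `(χ y)' = ṽ/h`, `ṽ' = χ (n² W y + F)/h + 2 χ' v + (h χ')' y`. `χ' ≠ 0` only in the middle thirds of `[q + η/6, q + 5η/6]` and `[p - 5η/6, p - η/6]`, where `W h = W h' > 0`: DEC:
`|F̃| ≤ R + C n² (e^(-c n) M + R)`. `Est h' a' b'` for `ỹ` (bounded). -/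
def SpecLNK : Prop :=
  ∀ (h h' : ℝ → ℝ) (a' p q b' η : ℝ), ContDiff ℝ ∞ h → Dumb h' a' p q b' → Est h' a' b' → 0 < η → a' < p - η → q + η < b' → (∀ z ∈ Icc (p - η) (q + η), h' z = h z) →
    ∃ (C c : ℝ) (B : ℕ), 0 < C ∧ 0 < c ∧ ∀ n : ℕ, 2 ≤ n → ∀ (F y v : ℝ → ℝ) (R M : ℝ), Sys h n F y v (Icc (p - η) (q + η)) →
      (∀ z ∈ Icc (p - η) (q + η), |F z| ≤ R ∧ |y z| ≤ M) → ∀ z ∈ Icc p q, |y z| ≤ C * (n : ℝ) ^ B * (R + Real.exp (-(c * n)) * M)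

/-- **GLB** (270 lines), USES CPM, LNK, BUM.
PROOF. `S = sup_(a,b) |y|` (finite). LNK for every neck (`M = S`; `[p j - η, q j + η] ⊂ (a, b)`: make `η` smaller; `GoodNeck` gives some `η`, it may be replaced by a smaller one): `|y| ≤ m := C n^B (R + e^(-c n) S)` on the necks (the worst `C`, `B`, `c`). On `(a, p 0]`, `[q (k-1), b)`: `|y| ≤ m + C R` (CPM), on `[q j, p (j+1)]`: `|y| ≤ m + C R` (BUM). So `S ≤ C n^B (R + e^(-c n) S) + C R`, and for `n ≥ n₂`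
`C n^B e^(-c n) ≤ 1/2`: `S ≤ 4 C n^B R`. -/
def SpecGLB : Prop :=
  ∀ (h : ℝ → ℝ) (a b : ℝ) (k : ℕ) (p q : ℕ → ℝ), Many h a b k p q → 1 ≤ k → (∀ j < k, GoodNeck h (p j) (q j)) → ∃ (n₂ : ℕ) (C : ℝ) (B : ℕ), 0 < C ∧ 2 ≤ n₂ ∧ ∀ n : ℕ, n₂ ≤ n →
    ∀ (F y v : ℝ → ℝ) (R M : ℝ), Sys h n F y v (Ioo a b) → (∀ z ∈ Ioo a b, |F z| ≤ R ∧ |y z| ≤ M) → ∀ z ∈ Ioo a b, |y z| ≤ C * (n : ℝ) ^ B * R

/-- **FXN** (270 lines), USES GRW, WRO, UNS, CPM. A fixed `n` without bounded solutions.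
PROOF. `A = (Y, V)`, `e = (Z, U)` from CPM, `s ∧ t = s₁ t₂ - s₂ t₁`, `p = p 0`, `q = q (k-1)`. `A ∧ e ≠ 0` at `q`: otherwise `A = Y(q) e` at `q` (`e = (1, U q)`), so `(Y, V) = Y(q) (Z, U)` on `(a, b)` (UNS) is bounded: on `(a, p]` by `1`, on `[p, q]` by continuity, on `[q, b)` by `|Y q|`; `Y p = 1`: contradiction to `NB`. For a solution `x = (y, v)` with the source `F`: `|A ∧ x|(p) ≤ C R`, `(A ∧ x)' = Y F/h` (WRO) so `|A ∧ x|(q) ≤ C R`; `|e ∧ x|(q) ≤ C R`;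
`(A ∧ e) x = (A ∧ x) e - (e ∧ x) A` at `q`: `|x q| ≤ C R`. GRW for `y² + v²` on `[p, q]`: `|x| ≤ C R` there; CPM on the caps. -/
def SpecFXN : Prop :=
  ∀ (h : ℝ → ℝ) (a b : ℝ) (k : ℕ) (p q : ℕ → ℝ), Many h a b k p q → 1 ≤ k → ∀ n : ℕ, 1 ≤ n → NB h a b n → ∃ C : ℝ, 0 < C ∧
    ∀ (F y v : ℝ → ℝ) (R M : ℝ), Sys h n F y v (Ioo a b) → (∀ z ∈ Ioo a b, |F z| ≤ R ∧ |y z| ≤ M) → ∀ z ∈ Ioo a b, |y z| ≤ C * R

/-- **EMB** (110 lines), USES VBS, GLB, FXN. PROOF. `n ≥ n₂`: GLB; `2 ≤ n < n₂`: FXN (finitely many constants); `|v|`: VBS. -/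
def SpecEMB : Prop :=
  ∀ (h : ℝ → ℝ) (a b : ℝ) (k : ℕ) (p q : ℕ → ℝ), Many h a b k p q → 1 ≤ k → (∀ j < k, GoodNeck h (p j) (q j)) → (∀ n : ℕ, 2 ≤ n → NB h a b n) → Est h a b

/-- **POS** (200 lines), USES VBS. The case without necks.
PROOF. `W ≥ w₀ > 0` on `[a, b]`. `T(z) = ∫_m^z dt/h`, `m = (a+b)/2`, `|T| → ∞` at both poles (`h t ≤ C (t - a)`, `h t ≤ C (b - t)`), `G = T² + 2/w₀`: `h (h G')' = 2`. For `ε > 0`, `φ = ± y - R/w₀ - ε G`: negative near the poles (`y` bounded); at an interior maximum with `φ > 0`: `± y > R/w₀ + ε G`, `h (h φ')' ≥ n² W (± y) - R - 2 ε > w₀ (R/w₀ + ε G) - R - 2 ε ≥ 0`, impossible. So `|y| ≤ R/w₀`. VBS. -/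
def SpecPOS : Prop :=
  ∀ (h : ℝ → ℝ) (a b : ℝ), Sph h a b → (∀ z ∈ Icc a b, 0 < W h z) → Est h a b

/-! ### the first neck: additional conditions -/

/-- **CTV** (140 lines), USES PD, LUN, DEP. PROOF. As module CNT, with the vector `(e, f)` in place of `(Z q, U q)`. -/
def SpecCTV : Prop :=
  ∀ (h κ : ℝ → ℝ) (a p q b c d : ℝ), Dumb h a p q b → p < c → c < d → d < q → Bump κ c d → ∀ (n : ℕ) (e f : ℝ), 1 ≤ n → ∀ Y V : ℝ → ℝ,
    LeftSol h a p b n Y V → Y q * f - V q * e ≠ 0 →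
    ∃ μ₀ : ℝ, 0 < μ₀ ∧ ∀ μ : ℝ, |μ| ≤ μ₀ → ∀ Y₁ V₁ : ℝ → ℝ, LeftSol (pert h κ μ) a p b n Y₁ V₁ → Y₁ q * f - V₁ q * e ≠ 0

/-- **STV** (260 lines), USES UNQ, WRO, LUN, LKB, SQR, PD, DEP, LAG. PROOF. As module STB: `(Y V₁ - V Y₁)(q) ≠ 0` for small `μ > 0`. Now `(e, f) ≠ 0` and `Y q f - V q e = 0`, `(Y q, V q) ≠ 0` (UNQ): `(Y q, V q) = t (e, f)`, `t ≠ 0`, so `t (e V₁ q - f Y₁ q) = (Y V₁ - V Y₁)(q) ≠ 0`. -/
def SpecSTV : Prop :=
  ∀ (h : ℝ → ℝ) (a p q b c : ℝ), Dumb h a p q b → p < c → ∀ (n : ℕ) (e f : ℝ), 2 ≤ n → (e ≠ 0 ∨ f ≠ 0) → ∀ Y V : ℝ → ℝ,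
    LeftSol h a p b n Y V → Y q * f - V q * e = 0 →
    ∃ (κ : ℝ → ℝ) (c' d' μ₀ : ℝ), p < c' ∧ c' < d' ∧ d' < c ∧ d' < q ∧ Bump κ c' d' ∧ 0 < μ₀ ∧ ∀ μ : ℝ, 0 < μ → μ ≤ μ₀ →
      ∀ Y₁ V₁ : ℝ → ℝ, LeftSol (pert h κ μ) a p b n Y₁ V₁ → Y₁ q * f - V₁ q * e ≠ 0

/-- **SMV** (200 lines), USES LEX, PD, CTV, STV. PROOF. As module SML: induction on the finite set `T`, for all `δ`; one condition is added in each step (if it holds already for `h₁` nothing is to be done: CTV with `κ = 0`, `μ = 0` shows that it then holds for all left solutions), the old ones are kept by CTV. -/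
def SpecSMV : Prop :=
  ∀ (T : Finset (ℕ × ℝ × ℝ)) (h : ℝ → ℝ) (a p q b s : ℝ), Dumb h a p q b → p < s → s ≤ q → (∀ t ∈ T, 2 ≤ t.1 ∧ (t.2.1 ≠ 0 ∨ t.2.2 ≠ 0)) → ∀ (N : ℕ) (δ : ℝ), 0 < δ →
    ∃ h₁ : ℝ → ℝ, Near h h₁ a p q b s N δ ∧ ∀ t ∈ T, ∀ Y V : ℝ → ℝ, LeftSol h₁ a p b t.1 Y V → Y q * t.2.2 - V q * t.2.1 ≠ 0

/-- **ZFN** (260 lines), USES LIN, UNQ, WRO, LUN, PD, ROT. For large `n` the condition fails only for isolated `μ`.
PROOF. As module LOW. `n₀`, `c₀`, `c₁`, `μ₁` from ROT for `h`, `κ`. Let `(Z, U)` be the solution of the system of `h₁` with data `(e, f)` at `q` (LIN); near `[d, q]` `pert h₁ κ μ = h₁` (at `d` itself: `κ = κ' = κ'' = 0` there), so by WRO on `[d, q]` `(Y U - V Z)(d) = Y q f - V q e = 0`, in the same way for `(Y', V')`. `(Z, U)(d) ≠ 0` (UNQ), so `(Y, V)(d)`, `(Y', V')(d)` are both multiples of it: `(Y V' - V Y')(d) = 0`.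
The data at `c` are the same (LUN, UNQ as in LOW) and not `0`. ROT: `c₁ |μ - μ'| X X' ≤ 0` with `X, X' ≥ c₁ X(c) > 0`. -/
def SpecZFN : Prop :=
  ∀ (h κ : ℝ → ℝ) (a p q b c d : ℝ), Dumb h a p q b → p < c → c < d → d < q → Bump κ c d → gam h κ c d ≠ 0 →
    ∃ (n₀ : ℕ) (c₀ : ℝ), 0 < c₀ ∧ ∀ (h₁ : ℝ → ℝ) (s : ℝ), Dumb h₁ a p q b → s < c → (∀ z, s < z → h₁ z = h z) →
      ∃ μ₂ : ℝ, 0 < μ₂ ∧ ∀ n : ℕ, n₀ ≤ n → 1 ≤ n → ∀ (e f : ℝ), (e ≠ 0 ∨ f ≠ 0) → ∀ μ μ' : ℝ, |μ| ≤ μ₂ → |μ'| ≤ μ₂ → |μ - μ'| ≤ c₀ / n →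
        ∀ Y V Y' V' : ℝ → ℝ, LeftSol (pert h₁ κ μ) a p b n Y V → LeftSol (pert h₁ κ μ') a p b n Y' V' → Y q * f - V q * e = 0 → Y' q * f - V' q * e = 0 → μ = μ'

/-- **MEV** (210 lines, no deps). PROOF. As module MEA: the union of the bad sets has outer measure `< μ₂`, so the rest of `(0, μ₂)` has positive outer measure and is not contained in the countable set `E`. -/
def SpecMEV : Prop :=
  ∀ (D : ℕ → ℝ → ℝ) (n₀ B : ℕ) (c₀ c₁ μ₂ : ℝ) (E : Set ℝ), 1 ≤ n₀ → 0 < c₀ → 0 < c₁ → 0 < μ₂ → E.Countable →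
    (∀ n : ℕ, n₀ ≤ n → ∀ μ ∈ Ioo 0 μ₂, ∀ μ' ∈ Ioo 0 μ₂, |μ - μ'| ≤ c₀ / n → c₁ * |μ - μ'| ≤ (n : ℝ) ^ B * (|D n μ| + |D n μ'|)) →
    ∃ ε : ℝ, 0 < ε ∧ ∃ μ ∈ Ioo 0 μ₂, μ ∉ E ∧ ∀ n : ℕ, n₀ ≤ n → ε ≤ (n : ℝ) ^ (B + 3) * |D n μ|

/-- **NRV** (300 lines), USES UNQ, REF, LEX, LUN, PD, GAM, LOW, CNT, CTV, SMV, ZFN, MEV.
PROOF. As module NRX. `n₀`: the larger one of those of LOW and ZFN (`≥ 2`), `c₀` the smaller one. Right solutions exist (LEX, REF); `l n = U q` for a right solution of `h`, the same for all dumbbells which differ from `h` only in a compact subset of `(p, q)` (LUN), and the own Wronskian is `Y q (l n) - V q · 1`. SMV for `T = {(n, 1, l n), (n, e n, f n) : 2 ≤ n < n₀}` in place of SML. CTV keeps these conditions for small `μ`. For `n ≥ n₀` the set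
`E_n` of the `μ ∈ (0, μ₂)` for which the condition `(e n, f n)` fails (for some, equivalently for all left solutions: they are unique, LUN and UNQ) has no two different points at distance `≤ c₀/n` (ZFN), so it is countable; `E = ⋃ E_n`; MEV. -/
def SpecNRV : Prop :=
  ∀ (h : ℝ → ℝ) (a p q b : ℝ), Dumb h a p q b → ∀ e f : ℕ → ℝ, (∀ n : ℕ, 2 ≤ n → e n ≠ 0 ∨ f n ≠ 0) → ∀ (N : ℕ) (δ : ℝ), 0 < δ →
    ∃ h₂ : ℝ → ℝ, Near h h₂ a p q b q N δ ∧ NonRes h₂ a p q b ∧ ∀ n : ℕ, 2 ≤ n → ∀ Y V : ℝ → ℝ, LeftSol h₂ a p b n Y V → Y q * f n - V q * e n ≠ 0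

/-! ### assembly -/

/-- **STP** (270 lines, no deps). Transplantation of a perturbation of the dumbbell `h'` to `h`.
PROOF. `h'' - h' = 0` off a compact `[c, d] ⊂ (p j, q j)`, so `g` is smooth, `g = h` off `[c, d]`, `g = h''` on `[p j - η, q j + η]` (there `h' = h`). On the open set `(p j - η, q j + η)` `W g = W h''`, so the signs and derivatives at `p j`, `q j` are those of the dumbbell `h''`; elsewhere `W g = W h`. The other necks: `GoodNeck` with a smaller `η` such that `[p i - η, q i + η]` does not meet `[p j, q j]`. `a < p j - η`, `q j + η < b`. -/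
def SpecSTP : Prop :=
  ∀ (h : ℝ → ℝ) (a b : ℝ) (k : ℕ) (p q : ℕ → ℝ), Many h a b k p q → ∀ j < k, ∀ (h' h'' : ℝ → ℝ) (a' b' η δ : ℝ) (N : ℕ), 0 < η → Dumb h' a' (p j) (q j) b' →
    a' < p j - η → q j + η < b' → a < p j - η → q j + η < b → (∀ z ∈ Icc (p j - η) (q j + η), h' z = h z) → Near h' h'' a' (p j) (q j) b' (q j) N δ →
    ∀ g : ℝ → ℝ, (∀ z, g z = h z + (h'' z - h' z)) → Many g a b k p q ∧ Nr h g a b N δ ∧
      (∀ i < k, i ≠ j → GoodNeck h (p i) (q i) → GoodNeck g (p i) (q i)) ∧ (Est h'' a' b' → GoodNeck g (p j) (q j)) ∧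
      (∃ c d : ℝ, p j < c ∧ c < d ∧ d < q j ∧ ∀ z, z ∉ Icc c d → g z = h z) ∧ ∀ z ∈ Icc (p j - η) (q j + η), g z = h'' z

/-- **MU1** (170 lines), USES EST, NRX, EXT, STP. All necks but the first.
PROOF. By induction on `m ≤ k`: there is `h'` with `Nr h h' a b N (δ m / k)`-type closeness (or: for every `δ`, with `δ/2` in each step) and good necks `j` for `1 ≤ j < m`. Step: EXT at the neck `m`, NRX for the dumbbell, EST, STP. `Nr` adds up. -/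
def SpecMU1 : Prop :=
  ∀ (h : ℝ → ℝ) (a b : ℝ) (k : ℕ) (p q : ℕ → ℝ), Many h a b k p q → ∀ (N : ℕ) (δ : ℝ), 0 < δ → ∃ h' : ℝ → ℝ, Nr h h' a b N δ ∧ Many h' a b k p q ∧
    ∀ j < k, 1 ≤ j → GoodNeck h' (p j) (q j)

/-- **MU2** (300 lines), USES UNQ, CAP, LEX, EST, EXT, LIS, UNS, CPM, EMB, POS, NRV, STP, MU1.
PROOF. `k = 0`: POS, `h₂ = h`. `k ≥ 1`: `h'` from MU1 (`δ/2`). CPM for `h'`: `(Z, U) = (Z_n, U_n)`, `e n = Z (q 0)`, `f n = U (q 0)`, not both `0` (UNS; `Z (q (k-1)) = 1`). EXT for `h'`, `j = 0`: a dumbbell `h₀` with `a' = a`, `h₀ = h'` on `(-∞, q 0 + η]`. NRV for `h₀`, `e`, `f`, `δ/2`: `h₀''`. `h₂ = h' + (h₀'' - h₀)`: STP: `Many`, all necks are good (EST for the neck `0`). `NB h₂ a b n` for `n ≥ 2`: let `(y, v)` be a bounded solution of `h₂` with `F = 0`.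
`h₂ = h₀''` on `(-∞, q 0 + η]`: on `(a, p 0]` CAP (for `h₀''`, `R = 0`) for `y - y(p 0) Y`, `(Y, V)` a left solution of `h₀''` (LEX): `v (p 0) = y (p 0) V (p 0)`, so `(y, v) = y (p 0) (Y, V)` on `(a, q 0]` (UNQ for `h₀''` on `(a, q 0 + η)`). `h₂ = h'` on `(d, ∞)`, `d < q 0`: by CPM for `h'` (`R = 0`) `v = y U` at `q (k-1)`, so `(y, v) = y (q (k-1)) (Z, U)` on `(d, b)` (UNS for `h'`). At `q 0`: `y (p 0) (Y f - V e)(q 0) = 0`, so `y (p 0) = 0`, `y = 0` on `(a, q 0]`,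
and on `(a, b)` by UNS for `h₂`. EMB for `h₂`. -/
def SpecMU2 : Prop :=
  ∀ (h : ℝ → ℝ) (a b : ℝ) (k : ℕ) (p q : ℕ → ℝ), Many h a b k p q → ∀ (N : ℕ) (δ : ℝ), 0 < δ → ∃ h₂ : ℝ → ℝ, Nr h h₂ a b N δ ∧ Est h₂ a b

/-- **FNG** (60 lines), USES GEN, ZER, MU2. PROOF. GEN with `δ/2`, ZER, MU2 with `δ/2`; `Nr` adds up. -/
def SpecFNG : Prop :=
  ∀ (h : ℝ → ℝ) (a b : ℝ), Sph h a b → ∀ (N : ℕ) (δ : ℝ), 0 < δ → ∃ h₂ : ℝ → ℝ, Nr h h₂ a b N δ ∧ Est h₂ a b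

end

end Pool.Agent.Lib.MP478c11.DB
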