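import Pool.Agent.Lib.MP_478c11_gt.DB.Geo
import Pool.Agent.Lib.MP_478c11_gt.DB.Many

/-!
# The geometric part for spheres of revolution (MP_478c11_gt)

The statements of `DB/Geo.lean` for arbitrary spheres of revolution: `S.Dumb h a p q b` is a sphere of revolution with two marked points; nothing is assumed about the curvature. The proofs are
those of the modules of part 2.
-/

set_option autoImplicit false

namespace Pool.Agent.Lib.MP478c11.DB.S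

open Set Filter Topology MeasureTheory
open scoped ContDiff InnerProductSpace

noncomputable section

/-- A sphere of revolution `x² + y² = h(z)`, `a ≤ z ≤ b`, and two marked points. -/
structure Dumb (h : ℝ → ℝ) (a p q b : ℝ) : Prop where
  smooth : ContDiff ℝ ∞ h
  ap : a < p
  pq : p < q
  qb : q < b
  ha : h a = 0
  hb : h b = 0
  pos : ∀ z, a < z → z < b → 0 < h z
  da : 0 < deriv h a
  db : deriv h b < 0

/-- Reflection. -/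
def SpecREF : Prop :=
  ∀ (h : ℝ → ℝ) (a p q b : ℝ), Dumb h a p q b → Dumb (fun z => h (-z)) (-b) (-q) (-p) (-a)

/-- **MEQ** (300 lines), USES DUI, FLE. The equations of the modes.
PROOF. `r = √h`, `r' = h'/(2r)`, `X_z = r' e_r + e_3`, `X_θ = r e_θ`, `U_z = A_z e_r + B_z e_θ + w_z e_3`, `U_θ = (A_θ - B) e_r + (B_θ + A) e_θ + w_θ e_3`. `IsoEq`: (i) `r' A_z + w_z = -s₁/(2h)`; (ii) `A + B_θ = -(r/2) s₂`; (iii) `r B_z + r' (A_θ - B) + w_θ = -s₃`.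
Coefficients (DUI): (i) `r' A_n' + w_n' = -(s₁)_n/(2h)`; (ii) `A_n + i n B_n = -(r/2)(s₂)_n`: first item; (iii) `v_n + r' i n A_n + i n w_n = -(s₃)_n`; with (ii), `r r' = h'/2`, `r' B_n = (h'/2) y_n`: second item. Differentiate the second item; `w_n' = -(s₁)_n/(2h) - r' A_n'`,
`A_n' = -(r' (s₂)_n + r (s₂)_n')/2 - i n B_n'`, `r' B_n' = (h'/(2h)) v_n + (h'²/(4h)) y_n`: all terms with `(s₂)_n'` and `v_n` cancel, and `v_n' = (n² W y_n + F_n)/h`. Last item (`n = 0`): `w_0' = -(s₁)_0/(2h) - r' A_0'`. -/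
def SpecMEQ : Prop :=
  ∀ (h : ℝ → ℝ) (a p q b : ℝ), Dumb h a p q b → ∀ U : ℝ → ℝ → E3, Fld a b U → IsoEq h a b U → ∀ n : ℤ, ∀ z ∈ Ioo a b,
    cf n (cA U) z = -((√(h z) : ℝ) / 2 * cf n (s2 h U) z) - Complex.I * n * cf n (cB U) z ∧
    vn h U n z = -cf n (s3 U) z + Complex.I * n / 4 * ((deriv h z : ℝ) : ℂ) * cf n (s2 h U) z - (n : ℂ) ^ 2 * ((deriv h z / 2 : ℝ) : ℂ) * yn h U n z -
      Complex.I * n * cf n (cw U) z ∧
    HasDerivAt (yn h U n) (vn h U n z / (h z : ℂ)) z ∧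
    HasDerivAt (vn h U n) (((n : ℂ) ^ 2 * (W h z : ℂ) * yn h U n z + Fn h U n z) / (h z : ℂ)) z ∧
    HasDerivAt (cf n (cB U)) (cf n (dz (cB U)) z) z ∧ HasDerivAt (cf n (cw U)) (cf n (dz (cw U)) z) z ∧
    cf 0 (dz (cw U)) z = -(cf 0 (s1 h U) z / (2 * (h z : ℂ))) + ((deriv h z ^ 2 / (8 * h z) : ℝ) : ℂ) * cf 0 (s2 h U) z +
      ((deriv h z / 4 : ℝ) : ℂ) * cf 0 (dz (s2 h U)) z

/-- **SQB** (200 lines), USES FLE. The quadratic terms.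
PROOF. `s₁ = |U_τ|²/h`, `s₂ = |U_θ|²/h`, `s₃ = ⟨U_τ, U_θ⟩/h` with `U_τ = h U_z = tz h U`; `h ∂_z s₃ = (⟨U_ττ, U_θ⟩ + ⟨U_τ, U_θτ⟩ - h' ⟨U_τ, U_θ⟩)/h` (`h ∂_z U_θ = ∂_θ (h U_z)` by symmetry of second derivatives), `h ∂_z s₂ = (2 ⟨U_θ, U_θτ⟩ - h' |U_θ|²)/h`. -/
def SpecSQB : Prop :=
  ∀ (h : ℝ → ℝ) (a p q b : ℝ), Dumb h a p q b → ∃ C : ℝ, 0 < C ∧ ∀ (U : ℝ → ℝ → E3) (N M : ℝ), Fld a b U → Size h a b U N M → ∀ z ∈ Ioo a b, ∀ θ,
    (|s1 h U z θ| ≤ C * N ^ 2 ∧ |s2 h U z θ| ≤ C * N ^ 2 ∧ |s3 U z θ| ≤ C * N ^ 2 ∧ |h z * dz (s3 U) z θ| ≤ C * N ^ 2 ∧ |h z * dz (s2 h U) z θ| ≤ C * N ^ 2) ∧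
    (z ≤ (a + b) / 2 → |s1 h U z θ| ≤ C * N ^ 2 * h z ∧ |s2 h U z θ| ≤ C * N ^ 2 * h z ∧ |s3 U z θ| ≤ C * N ^ 2 * h z ∧
      |h z * dz (s3 U) z θ| ≤ C * N ^ 2 * h z ∧ |h z * dz (s2 h U) z θ| ≤ C * N ^ 2 * h z)

/-- **MN0** (260 lines), USES DUI, FLE, MEQ, SQB. The mode `n = 0`.
PROOF. `m = (a+b)/2`; `c (b - z) ≤ h z ≤ C (b - z)` on `[m, b)`. `A_0 = -(r/2)(s₂)_0`. `v_0 = -(s₃)_0` so `|y_0'| ≤ |s₃|/h`: `≤ C N²` on `(a, m]`, `≤ C N²/(b - z)` on `[m, b)`; `y_0 → 0` at `a` (`|B_0| ≤ sup |U| ≤ N h`). So `|y_0| ≤ C N² (1 + log ((b-m)/(b-z))) ≤ C N² (b-z)^(-1/40)`, `B_0 = r y_0`.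
`w_0`: by the last item of MEQ `|w_0'| ≤ (C/h)(|s₁| + |s₂| + |h ∂_z s₂|)`: the same bounds, `w_0 → 0` at `a` (`|w_0| ≤ N h`). (SQB for the coefficients: `‖cf n φ z‖ ≤ sup_θ |φ|`.) -/
def SpecMN0 : Prop := ∀ (h : ℝ → ℝ) (a p q b : ℝ), Dumb h a p q b → ModeBd h a b (fun n => n = 0)

/-- **MN1** (300 lines), USES DUI, FLE, MEQ, SQB. The modes `n = ± 1`.
PROOF. `m = (a+b)/2`, `c (z-a) ≤ h` on `(a, m]`, `c (b - z) ≤ h ≤ C (b-z)` on `[m, b)`. `D = B_n' = cf n (dz (cB U)) = (v_n + (h'/2) y_n)/r`; `D' = F_n/(h r)` (`n² = 1`: `D = v/r + r' y`, `D' = r'' y + v'/r`, `v' = (W y + F)/h`, `W/h = -r r''`, `r = √h`; here `r'' = h''/(2r) - h'²/(4 r³)`). By the second item of MEQ `D = (-(s₃)_n + (i n/4) h' (s₂)_n - i n w_n)/r`, so by SQB and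
`|w_n| ≤ sup |U| ≤ N h` on `(a, m]`: `|D| ≤ (C N² + N) √h → 0` at `a`. `|F_n| ≤ C N² h` on `(a, m]`, so `|D'| ≤ C N²/√h ≤ C N² (z-a)^(-1/2)` and `|D| ≤ C N²` on `(a, m]`. On `[m, b)`: `|F_n| ≤ C N²`, `|D'| ≤ C N² (b-z)^(-3/2)`, `|D| ≤ C N² (b-z)^(-1/2)`. `B_n → 0` at `a` (`|B_n| ≤ N h`): `|B_n| ≤ C N²` everywhere. `A_n` by the first item,
`i n w_n = -r D - (s₃)_n + (i n/4) h' (s₂)_n`, `r |D| ≤ C N²`. -/
def SpecMN1 : Prop := ∀ (h : ℝ → ℝ) (a p q b : ℝ), Dumb h a p q b → ModeBd h a b (fun n => n.natAbs = 1)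

/-- **MN2** (260 lines), USES DUI, FLE, MEQ, SQB. The modes `|n| ≥ 2`.
PROOF. `y_n` is bounded: on `(a, m]` `|B_n| ≤ sup |U| ≤ N h`; on `[m, b)`: for `|n| ≥ 2` `B_n` is also the coefficient of `-sin θ (U_0 - c_0) + cos θ (U_1 - c_1)` (`c` from `Size.up`), so `|B_n| ≤ 2 M √h`. The real and imaginary parts of `(y_n, v_n)` satisfy `Sys h |n| (Re F_n) ..` on `(a, b)` (MEQ), `|F_n| ≤ C |n| N²` (SQB, `W` bounded).
`Est`: `|y_n|, |v_n| ≤ C |n|^(B+1) N²`. `B_n = r y_n`; `A_n` by the first, `w_n` by the second item of MEQ (divide by `i n`). -/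
def SpecMN2 : Prop := ∀ (h : ℝ → ℝ) (a p q b : ℝ), Dumb h a p q b → Est h a b → ModeBd h a b (fun n => 2 ≤ n.natAbs)

/-- **SUP** (230 lines), USES DUI, FLE, MN0, MN1, MN2, FOU. The estimate of `U`.
PROOF. `U_0 = cos θ A - sin θ B`, `U_1 = sin θ A + cos θ B`, `U_2 = w`: by DUI the `n`-th coefficients of `U_0`, `U_1`, `U_2` are bounded by the sum of `|A_k| + |B_k| + |w_k|`, `k = n-1, n, n+1`, so by `C (L+2)^B N² (b-z)^(-1/40)` for `0 ≤ n ≤ L` (MN0, MN1, MN2). FOU for the components `θ ↦ U z θ i` (`cf` at `z` of `fun z θ => U z θ i`); `|iteratedDeriv J (component)| ≤ M_J`. -/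
def SpecSUP : Prop :=
  ∀ (h : ℝ → ℝ) (a p q b : ℝ), Dumb h a p q b → Est h a b → ∃ (C : ℝ) (B : ℕ), 0 < C ∧ ∀ (U : ℝ → ℝ → E3) (N M : ℝ), Fld a b U → IsoEq h a b U → Size h a b U N M →
    ∀ (J L : ℕ) (MJ : ℝ), 2 ≤ J → 1 ≤ L → (∀ z ∈ Ioo a b, ∀ θ, ‖iteratedDeriv J (U z) θ‖ ≤ MJ) → ∀ z ∈ Ioo a b, ∀ θ,
      ‖U z θ‖ ≤ C * ((L : ℝ) ^ B * N ^ 2 * (b - z) ^ (-(1 / 40 : ℝ)) + MJ / (L : ℝ) ^ (J - 1))

/-- **CHT** (200 lines), USES REF.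
PROOF. `h' > 0` on some `[a - η, a + η]`; the inverse function theorem (`ContDiffAt.to_localInverse` / `HasStrictDerivAt`; or strict monotonicity and smoothness of the inverse) gives `φa` near `0`, `φa s ≥ a` for `s ≥ 0`. The same at `b` (reflection). Choose `ε`, then `δ`, small. -/
def SpecCHT : Prop :=
  ∀ (h : ℝ → ℝ) (a p q b : ℝ), Dumb h a p q b → ∃ (φa φb : ℝ → ℝ) (ε δ : ℝ), Charts h a b φa φb ε δ

/-- **ISE** (200 lines, no deps). The displacement is a smooth field with `IsoEq`.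
PROOF. `X h` is smooth on `(a, b) × ℝ` with values in `S`, `X_z`, `X_θ` are tangent, so are `X_z ± X_θ` (`Tan` is linear in `v`). `U_z = Df X_z - X_z`, and `‖Df v‖ = ‖v‖` for `v = X_z, X_θ, X_z + X_θ` gives the three equations. -/
def SpecISE : Prop :=
  ∀ (h : ℝ → ℝ) (a p q b : ℝ), Dumb h a p q b → ∀ f : E3 → E3, Good h a b f → Fld a b (Uf h f) ∧ IsoEq h a b (Uf h f)

/-- **SIZ** (300 lines), USES IN2, POL. The size of the displacement.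
PROOF. `u = f - id`. The words of length `≤ 21` of `Ps φa`, `Ps φb`, `X h` are bounded on the (compact) boxes by a constant `C₀`, so those of `u ∘ Ps φa`, `u ∘ Ps φb`, `u ∘ X h` by `M + C₀`. `Ps φ p ∈ S` for `p.1² + p.2² < 4 ε²` and `X h z θ ∈ S`, so these functions are bounded by `ν`. IN2 (boxes `[-ε, ε]²`, `[a + δ/2, b - δ/2] × [θ - π, θ + π]`): words of length `1`, `2` `≤ C ν^(9/10)`.
On `(a, a + δ)` and `(b - δ, b)`: `X h z θ = Ps φ (√h cos θ, √h sin θ)`, POL; at `a`: `u P = 0`, `D(u ∘ Ps φa)(0) = Du(P) ∘ D Ps φa (0)`, which vanishes (`dbase`). On `[a + δ/2, b - δ/2]` `h ≥ h₀ > 0` and everything is `≤ C ν^(9/10) ≤ C' ν^(9/10) h`; `‖U‖ ≤ ν ≤ ν^(9/10)`. `up`: `c = f(P') - P'`, `P' = (0, 0, b)`: POL near `b`, elsewhere `‖U - c‖ ≤ 2`. -/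
def SpecSIZ : Prop :=
  ∀ (h : ℝ → ℝ) (a p q b : ℝ) (φa φb : ℝ → ℝ) (ε δ : ℝ), Dumb h a p q b → Charts h a b φa φb ε δ → ∀ M : ℝ, ∃ K : ℝ, 0 < K ∧
    ∀ (J : ℕ) (f : E3 → E3) (ν : ℝ), Good h a b f → Bdd h a b φa φb ε δ J M f → 0 ≤ ν → ν ≤ 1 → (∀ x ∈ Surf h a b, ‖f x - x‖ ≤ ν) →
      Size h a b (Uf h f) (K * ν ^ (9 / 10 : ℝ)) K

/-- **ISO** (260 lines), USES SUP, BOT, ISE, SIZ. Maps close to the identity.
PROOF. `B`, `C` from SUP, `J` from BOT. `‖iteratedDeriv J (Uf h f z) θ‖ ≤ M + C₀` (`X h z t = rot t (X h z 0)`; the derivatives of `rot t x` are bounded by `‖x‖`). Let `ν = sup_S ‖f x - x‖` (attained; `S` is compact), `0 < ν ≤ ν₀`. `f P = P`. So there are `z ∈ (a, b)`, `θ` with `‖Uf h f z θ‖ > ν/2` (points of `S` other than the poles are `X h z θ` with `z ∈ (a, b)`; if the maximum is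
at `P'` use continuity). SIZ: `Size` with `N = K ν^(9/10)`. If `z ≤ b - ν⁴`: SUP with the `L` of BOT (`(b-z)^(-1/40) ≤ (ν⁴)^(-1/40)`) contradicts BOT. If `z > b - ν⁴` compare with `z' = b - ν⁴` (`≥ (a+b)/2`): `‖U z θ - U z' θ‖ ≤ K (√h z + √h z') ≤ C ν²` (`up`, `h ≤ C (b - z)`). -/
def SpecISO : Prop :=
  ∀ (h : ℝ → ℝ) (a p q b : ℝ) (φa φb : ℝ → ℝ) (ε δ : ℝ), Dumb h a p q b → Est h a b → Charts h a b φa φb ε δ → ∃ J : ℕ, 1 ≤ J ∧ ∀ M : ℝ, ∃ ν₀ : ℝ, 0 < ν₀ ∧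
    ∀ f : E3 → E3, Good h a b f → Bdd h a b φa φb ε δ J M f → (∀ x ∈ Surf h a b, ‖f x - x‖ ≤ ν₀) → ∀ x ∈ Surf h a b, f x = x

/-- **CPT** (260 lines, no deps). Uniform bounds.
PROOF. `S` is compact. `(α, p) ↦ F α (Ps φ p)` is smooth on an open set containing `[0, 1] × [-ε, ε]²`; by induction on the word `w`, `(α, p) ↦ dw w (fun p => F α (Ps φ p)) p` is smooth there (`fderiv` in a direction of the second factor), so it is bounded on the compact set; finitely many words. The same for `X h` (periodic in `θ`: only `θ ∈ [0, 2π]`; the words are periodic too) and for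
`(α, x, θ) ↦ iteratedDeriv J (fun t => F α (rot t x)) θ` on `[0, 1] × S × [0, 2π]`. -/
def SpecCPT : Prop :=
  ∀ (h : ℝ → ℝ) (a p q b : ℝ) (φa φb : ℝ → ℝ) (ε δ : ℝ), Dumb h a p q b → Charts h a b φa φb ε δ → ∀ F : ℝ → E3 → E3, Bending h a b F → ∀ J : ℕ,
    ∃ M : ℝ, ∀ α ∈ Icc (0 : ℝ) 1, Bdd h a b φa φb ε δ J M (F α)

/-- **FRM** (280 lines, no deps). The motions.
PROOF. The tangent plane at `P` is `{v 2 = 0}` (`h' a > 0`), `D(F α)(P)` is isometric there, so `fr 0`, `fr 1` are orthonormal, `fr 2` is the vector product. Continuity in `α`: `(α, x) ↦ F α x` is smooth near `{α} × {P}`. `F 0 = id` on `S`: the derivative of `F 0` at `P` in the direction `e₁` is the derivative of `F 0` along the curve `t ↦ (t, 0, φ(t²)) ∈ S`, with `φ` a local inverse of `h` (use `Charts`), so it is `e₁`. -/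
def SpecFRM : Prop :=
  ∀ (h : ℝ → ℝ) (a p q b : ℝ) (φa φb : ℝ → ℝ) (ε δ : ℝ), Dumb h a p q b → Charts h a b φa φb ε δ → ∀ F : ℝ → E3 → E3, Bending h a b F →
    (∀ α ∈ Icc (0 : ℝ) 1, (∀ x y, ‖Gm a (F α) x - Gm a (F α) y‖ = ‖x - y‖) ∧ (∀ x y, ‖Hm a (F α) x - Hm a (F α) y‖ = ‖x - y‖) ∧
      (∀ x, Hm a (F α) (Gm a (F α) x) = x) ∧ (∀ y, Gm a (F α) (Hm a (F α) y) = y) ∧ Good h a b (fun x => Hm a (F α) (F α x))) ∧
    (∀ x, Gm a (F 0) x = x) ∧ ContinuousOn (fun p : ℝ × E3 => Gm a (F p.1) p.2) (Icc 0 1 ×ˢ univ)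

/-- **NMB** (150 lines, no deps). The bounds for the normalised maps.
PROOF. `Hm a f` is a motion: `Hm a f y = L (y - f P) + P` with `L` linear isometric (the third hypothesis gives: `Hm` is affine and an isometry). A word of length `≥ 1` of `L ∘ g + const` is `L` of the word of `g` (`ContinuousLinearEquiv.comp_fderiv`, or `L` a continuous linear map and `g` arbitrary: `L` is invertible), and `iteratedDeriv J` likewise (`J ≥ 1`). Length `0`: `‖Hm a f (f x)‖ ≤ ‖f x - f P‖ + ‖P‖ ≤ 2 M + |a|`, where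
`‖f P‖ ≤ M` by `ba` for the empty word at `p = 0`. -/
def SpecNMB : Prop :=
  ∀ (h : ℝ → ℝ) (a p q b : ℝ) (φa φb : ℝ → ℝ) (ε δ M : ℝ) (J : ℕ) (f : E3 → E3), Dumb h a p q b → Charts h a b φa φb ε δ → 1 ≤ J → Bdd h a b φa φb ε δ J M f →
    (∀ x y, ‖Hm a f x - Hm a f y‖ = ‖x - y‖) → Bdd h a b φa φb ε δ J (2 * M + |a|) (fun x => Hm a f (f x))

/-- **OPC** (230 lines), USES CHT, ISO, CPT, FRM, NMB. The open-closed argument.
PROOF. `A = {α ∈ [0, 1] : ∀ x ∈ S, F α x = Gm a (F α) x}`. `0 ∈ A` (FRM). `A` is closed (both sides are continuous in `α`). `A` is open in `[0, 1]`: `J` from ISO, `M` from CPT, `2 M + |a|` from NMB, `ν₀` from ISO. Let `α₁ ∈ A`; `(α, x) ↦ F α x - Gm a (F α) x` is continuous on `[0, 1] × S` and `0` on `{α₁} × S`, `S` is compact: `≤ ν₀` for `α` near `α₁`; then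
`‖Hm a (F α) (F α x) - x‖ = ‖F α x - Gm a (F α) x‖ ≤ ν₀`, ISO: `Hm a (F α) (F α x) = x`, so `F α x = Gm a (F α) x`. `[0, 1]` is connected. `Gm a (F α)` is an isometry of `E3` (`IsometryEquiv`). -/
def SpecOPC : Prop :=
  ∀ (h : ℝ → ℝ) (a p q b : ℝ), Dumb h a p q b → Est h a b → Unb h a b

end

end Pool.Agent.Lib.MP478c11.DB.S
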