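import Pool.Agent.Lib.MP_478c11_gt.DB.Geo

/-!
# MP_478c11, part DB, module IN1: interpolation on an interval
-/

set_option autoImplicit false

namespace Pool.Agent.Lib.MP478c11.DB

open Set Filter Topology MeasureTheory
open scoped ContDiff InnerProductSpace

namespace IN1M

open Polynomial in
lemma coeffs (K : ℕ) : ∃ c : ℕ → ℝ, ∀ i < K,
    ∑ j ∈ Finset.range K, c j * (j : ℝ) ^ i = if i = 1 then 1 else 0 := by
  let v : ℕ → ℝ := fun j => (j : ℝ)
  refine ⟨fun j => (derivative (Lagrange.basis (Finset.range K) v j)).eval 0, ?_⟩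
  intro i hi
  have hinj : Set.InjOn v (Finset.range K : Set ℕ) := fun a _ b _ h => Nat.cast_injective h
  have hdeg : ((Polynomial.X : Polynomial ℝ) ^ i).degree < (Finset.range K).card := by
    rw [Polynomial.degree_X_pow, Finset.card_range]
    exact_mod_cast hi
  have h1 := Lagrange.eq_interpolate hinj hdeg
  have h2 : (derivative ((Polynomial.X : Polynomial ℝ) ^ i)).eval 0 = if i = 1 then 1 else 0 := by
    rw [Polynomial.derivative_X_pow]
    rcases Nat.lt_trichotomy i 1 with h | h | h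
    · have : i = 0 := by omega
      rw [this]
      simp
    · rw [h]
      simp
    · rw [if_neg (by omega)]
      have : i - 1 ≠ 0 := by omega
      simp [this]
  rw [← h2, h1, Lagrange.interpolate_apply, Polynomial.derivative_sum, Polynomial.eval_finsetSum]
  apply Finset.sum_congr rfl
  intro j _
  rw [Polynomial.derivative_mul, Polynomial.derivative_C, zero_mul, zero_add, Polynomial.eval_mul,
    Polynomial.eval_C, Polynomial.eval_pow, Polynomial.eval_X]
  ring

variable {E : Type} [NormedAddCommGroup E] [NormedSpace ℝ E]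

/-- the Taylor remainder -/
noncomputable def H (f : ℕ → ℝ → E) (k n : ℕ) (s : ℝ) : E :=
  f k s - ∑ m ∈ Finset.range n, (s ^ m / (m.factorial : ℝ)) • f (k + m) 0

lemma H_zero (f : ℕ → ℝ → E) (k n : ℕ) : H f k (n + 1) 0 = 0 := by
  unfold H
  rw [Finset.sum_range_succ']
  have h1 : ∑ m ∈ Finset.range n, ((0 : ℝ) ^ (m + 1) / ((m + 1).factorial : ℝ)) • f (k + (m + 1)) 0
      = 0 := by
    apply Finset.sum_eq_zero
    intro m _
    rw [zero_pow (by omega), zero_div, zero_smul]
  rw [h1, zero_add, pow_zero, Nat.factorial_zero, Nat.cast_one, div_one, one_smul, add_zero,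
    sub_self]

lemma H_deriv (f : ℕ → ℝ → E) (k n : ℕ) (s : ℝ) (h : HasDerivAt (f k) (f (k + 1) s) s) :
    HasDerivAt (H f k (n + 1)) (H f (k + 1) n s) s := by
  have e1 : H f k (n + 1) = fun s => f k s -
      (∑ m ∈ Finset.range n, (s ^ (m + 1) / ((m + 1).factorial : ℝ)) • f (k + (m + 1)) 0 +
        f k 0) := by
    funext s
    unfold H
    rw [Finset.sum_range_succ', pow_zero, Nat.factorial_zero, Nat.cast_one, div_one, one_smul,
      add_zero]
  rw [e1]
  unfold H
  refine h.sub ?_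
  have h2 : HasDerivAt (fun s : ℝ => ∑ m ∈ Finset.range n,
      (s ^ (m + 1) / ((m + 1).factorial : ℝ)) • f (k + (m + 1)) 0)
      (∑ m ∈ Finset.range n, (s ^ m / (m.factorial : ℝ)) • f (k + 1 + m) 0) s := by
    apply HasDerivAt.fun_sum
    intro m _
    have h3 : HasDerivAt (fun s : ℝ => s ^ (m + 1) / ((m + 1).factorial : ℝ))
        (s ^ m / (m.factorial : ℝ)) s := by
      have h4 := (hasDerivAt_pow (m + 1) s).div_const ((m + 1).factorial : ℝ)
      have h5 : ((m + 1 : ℕ) : ℝ) * s ^ (m + 1 - 1) / ((m + 1).factorial : ℝ) =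
          s ^ m / (m.factorial : ℝ) := by
        rw [Nat.factorial_succ, Nat.add_sub_cancel]
        push_cast
        have h6 : ((m : ℝ) + 1) ≠ 0 := by positivity
        have h7 : (m.factorial : ℝ) ≠ 0 := by positivity
        field_simp
      rw [h5] at h4
      exact h4
    have h8 : k + (m + 1) = k + 1 + m := by omega
    rw [h8]
    exact h3.smul_const _
  exact h2.add_const _

lemma H_bound (f : ℕ → ℝ → E) (K : ℕ) (S M : ℝ)
    (hf : ∀ i < K, ∀ r ∈ Icc 0 S, HasDerivAt (f i) (f (i + 1) r) r)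
    (hM : ∀ r ∈ Icc 0 S, ‖f K r‖ ≤ M) :
    ∀ n k : ℕ, k + n = K → ∀ s ∈ Icc 0 S, ‖H f k n s‖ ≤ M * s ^ n := by
  intro n
  induction n with
  | zero =>
    intro k hk s hs
    have hk' : k = K := by omega
    unfold H
    rw [Finset.sum_range_zero, sub_zero, pow_zero, mul_one, hk']
    exact hM s hs
  | succ n ih =>
    intro k hk s hs
    have hM0 : 0 ≤ M := (norm_nonneg _).trans (hM s hs)
    have h1 : ∀ r ∈ Icc 0 s, HasDerivWithinAt (H f k (n + 1)) (H f (k + 1) n r) (Icc 0 s) r := by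
      intro r hr
      exact (H_deriv f k n r (hf k (by omega) r ⟨hr.1, hr.2.trans hs.2⟩)).hasDerivWithinAt
    have h2 : ∀ r ∈ Ico 0 s, ‖H f (k + 1) n r‖ ≤ M * s ^ n := by
      intro r hr
      refine (ih (k + 1) (by omega) r ⟨hr.1, (hr.2.le).trans hs.2⟩).trans ?_
      exact mul_le_mul_of_nonneg_left (pow_le_pow_left₀ hr.1 hr.2.le n) hM0
    have h3 := norm_image_sub_le_of_norm_deriv_le_segment' h1 h2 s ⟨hs.1, le_rfl⟩
    rw [H_zero, sub_zero, sub_zero] at h3
    refine h3.trans (le_of_eq ?_)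
    ring

lemma one_side (K : ℕ) (hK : 2 ≤ K) (c : ℕ → ℝ)
    (hc : ∀ i < K, ∑ j ∈ Finset.range K, c j * (j : ℝ) ^ i = if i = 1 then 1 else 0)
    (f : ℕ → ℝ → E) (S ν M t : ℝ)
    (hf : ∀ i < K, ∀ r ∈ Icc 0 S, HasDerivAt (f i) (f (i + 1) r) r)
    (hν : ∀ r ∈ Icc 0 S, ‖f 0 r‖ ≤ ν) (hM : ∀ r ∈ Icc 0 S, ‖f K r‖ ≤ M)
    (ht : 0 ≤ t) (htS : K * t ≤ S) :
    t * ‖f 1 0‖ ≤ (∑ j ∈ Finset.range K, |c j|) * (ν + M * (K * t) ^ K) := by
  have hmem : ∀ j ∈ Finset.range K, (j : ℝ) * t ∈ Icc 0 S := by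
    intro j hj
    have h1 : (j : ℝ) ≤ K := by exact_mod_cast (Finset.mem_range.1 hj).le
    exact ⟨by positivity, (mul_le_mul_of_nonneg_right h1 ht).trans htS⟩
  have hS0 : (0 : ℝ) ∈ Icc 0 S := ⟨le_rfl, le_trans (by positivity) htS⟩
  have hM0 : 0 ≤ M := (norm_nonneg _).trans (hM 0 hS0)
  have key : ∑ j ∈ Finset.range K, c j • (f 0 (j * t) - H f 0 K (j * t)) = t • f 1 0 := by
    have e1 : ∀ j, f 0 ((j : ℝ) * t) - H f 0 K (j * t) =
        ∑ i ∈ Finset.range K, (((j : ℝ) * t) ^ i / (i.factorial : ℝ)) • f i 0 := by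
      intro j
      unfold H
      rw [sub_sub_cancel]
      apply Finset.sum_congr rfl
      intro i _
      rw [zero_add]
    have e2 : ∑ j ∈ Finset.range K, c j • (f 0 (j * t) - H f 0 K (j * t)) =
        ∑ i ∈ Finset.range K, ((∑ j ∈ Finset.range K, c j * (j : ℝ) ^ i) *
          (t ^ i / (i.factorial : ℝ))) • f i 0 := by
      simp only [e1, Finset.smul_sum]
      rw [Finset.sum_comm]
      apply Finset.sum_congr rfl
      intro i _
      rw [Finset.sum_mul, Finset.sum_smul]
      apply Finset.sum_congr rfl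
      intro j _
      rw [smul_smul]
      congr 1
      rw [mul_pow]
      ring
    rw [e2, Finset.sum_eq_single 1]
    · rw [hc 1 (by omega), if_pos rfl, one_mul, pow_one, Nat.factorial_one, Nat.cast_one, div_one]
    · intro i hi hi1
      rw [hc i (Finset.mem_range.1 hi), if_neg hi1, zero_mul, zero_smul]
    · intro h
      exact absurd (Finset.mem_range.2 (by omega)) h
  have h1 : t * ‖f 1 0‖ = ‖t • f 1 0‖ := by
    rw [norm_smul, Real.norm_eq_abs, abs_of_nonneg ht]
  rw [h1, ← key]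
  refine (norm_sum_le _ _).trans ?_
  rw [Finset.sum_mul]
  apply Finset.sum_le_sum
  intro j hj
  rw [norm_smul, Real.norm_eq_abs]
  apply mul_le_mul_of_nonneg_left _ (abs_nonneg _)
  refine (norm_sub_le _ _).trans ?_
  have h2 := hν _ (hmem j hj)
  have h3 := H_bound f K S M hf hM K 0 (by omega) _ (hmem j hj)
  have h4 : (j : ℝ) ≤ K := by exact_mod_cast (Finset.mem_range.1 hj).le
  have h5 : M * ((j : ℝ) * t) ^ K ≤ M * (K * t) ^ K :=
    mul_le_mul_of_nonneg_left
      (pow_le_pow_left₀ (by positivity) (mul_le_mul_of_nonneg_right h4 ht) K) hM0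
  linarith

lemma reflect (K : ℕ) (f : ℕ → ℝ → E) (x S σ : ℝ)
    (hf : ∀ i < K, ∀ r ∈ Icc 0 S, HasDerivAt (f i) (f (i + 1) (x + σ * r)) (x + σ * r)) :
    ∀ i < K, ∀ r ∈ Icc 0 S, HasDerivAt (fun r => σ ^ i • f i (x + σ * r))
      (σ ^ (i + 1) • f (i + 1) (x + σ * r)) r := by
  intro i hi r hr
  have h1 : HasDerivAt (fun r : ℝ => x + σ * r) σ r := by
    have := ((hasDerivAt_id r).const_mul σ).const_add x
    simpa using this
  have h2 := (hf i hi r hr).scomp r h1
  have h3 := h2.const_smul (σ ^ i)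
  rw [smul_smul, ← pow_succ] at h3
  exact h3

end IN1M

open IN1M in
theorem specIN1 : SpecIN1 := by
  intro l hl
  obtain ⟨c, hc⟩ := coeffs 20
  set A : ℝ := ∑ j ∈ Finset.range 20, |c j| with hA
  have hA0 : 0 ≤ A := Finset.sum_nonneg fun j _ => abs_nonneg _
  set C : ℝ := A * (40 / l) * (1 + 20 ^ 20 * (l / 40) ^ 20) + 1 with hC
  have hC0 : 0 < C := by positivity
  refine ⟨C, hC0, ?_⟩
  intro f a b ν M hab hν0 hνM hf hbd x hx
  -- the positive case
  have pos : ∀ ν M : ℝ, 0 < ν → ν ≤ M → (∀ x ∈ Icc a b, ‖f 0 x‖ ≤ ν ∧ ‖f 20 x‖ ≤ M) →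
      ‖f 1 x‖ ≤ C * ν ^ (19 / 20 : ℝ) * M ^ (1 / 20 : ℝ) := by
    intro ν M hν hνM hbd
    have hM : 0 < M := lt_of_lt_of_le hν hνM
    set q : ℝ := (ν / M) ^ (1 / 20 : ℝ) with hq
    have hνM0 : 0 < ν / M := by positivity
    have hq0 : 0 < q := Real.rpow_pos_of_pos hνM0 _
    have hq1 : q ≤ 1 := Real.rpow_le_one hνM0.le ((div_le_one hM).2 hνM) (by norm_num)
    have hq20 : q ^ 20 = ν / M := by
      rw [hq, ← Real.rpow_natCast, ← Real.rpow_mul hνM0.le]
      norm_num
    set P : ℝ := ν ^ (19 / 20 : ℝ) * M ^ (1 / 20 : ℝ) with hP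
    have hP0 : 0 < P := by positivity
    have hPq : P * q = ν := by
      rw [hP, hq, Real.div_rpow hν.le hM.le]
      have h1 : ν ^ (19 / 20 : ℝ) * ν ^ (1 / 20 : ℝ) = ν := by
        rw [← Real.rpow_add hν]
        norm_num
      have h2 : M ^ (1 / 20 : ℝ) ≠ 0 := (Real.rpow_pos_of_pos hM _).ne'
      calc ν ^ (19 / 20 : ℝ) * M ^ (1 / 20 : ℝ) * (ν ^ (1 / 20 : ℝ) / M ^ (1 / 20 : ℝ)) =
          ν ^ (19 / 20 : ℝ) * ν ^ (1 / 20 : ℝ) := by field_simp
        _ = ν := h1
    set t : ℝ := l / 40 * q with ht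
    have ht0 : 0 < t := by positivity
    have htl : t ≤ l / 40 := by
      rw [ht]
      have : 0 < l / 40 := by positivity
      nlinarith
    -- the one sided estimate
    have hone : t * ‖f 1 x‖ ≤ A * (ν + M * (20 * t) ^ 20) := by
      by_cases hmid : x ≤ (a + b) / 2
      · have hin : ∀ r ∈ Icc (0 : ℝ) (l / 2), x + 1 * r ∈ Icc a b := by
          intro r hr
          exact ⟨by linarith [hx.1, hr.1], by linarith [hr.2]⟩
        have h1 := one_side 20 (by norm_num) c hc (fun i r => (1 : ℝ) ^ i • f i (x + 1 * r))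
          (l / 2) ν M t
          (reflect 20 f x (l / 2) 1 fun i hi r hr => hf i hi _ (hin r hr))
          (fun r hr => by
            rw [pow_zero, one_smul]
            exact (hbd _ (hin r hr)).1)
          (fun r hr => by
            rw [one_pow, one_smul]
            exact (hbd _ (hin r hr)).2) ht0.le (by push_cast; linarith)
        have h2 : ‖(1 : ℝ) ^ 1 • f 1 (x + 1 * 0)‖ = ‖f 1 x‖ := by
          rw [one_pow, one_smul, mul_zero, add_zero]
        rw [h2] at h1
        push_cast at h1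
        exact h1
      · have hmid' : (a + b) / 2 < x := not_le.1 hmid
        have hin : ∀ r ∈ Icc (0 : ℝ) (l / 2), x + (-1) * r ∈ Icc a b := by
          intro r hr
          exact ⟨by linarith [hr.2], by linarith [hx.2, hr.1]⟩
        have hns : ∀ (i : ℕ) (y : E3), ‖(-1 : ℝ) ^ i • y‖ = ‖y‖ := by
          intro i y
          rw [norm_smul, norm_pow, norm_neg, norm_one, one_pow, one_mul]
        have h1 := one_side 20 (by norm_num) c hc (fun i r => (-1 : ℝ) ^ i • f i (x + (-1) * r))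
          (l / 2) ν M t
          (reflect 20 f x (l / 2) (-1) fun i hi r hr => hf i hi _ (hin r hr))
          (fun r hr => by
            rw [hns]
            exact (hbd _ (hin r hr)).1)
          (fun r hr => by
            rw [hns]
            exact (hbd _ (hin r hr)).2) ht0.le (by push_cast; linarith)
        have h2 : ‖(-1 : ℝ) ^ 1 • f 1 (x + (-1) * 0)‖ = ‖f 1 x‖ := by
          rw [hns, mul_zero, add_zero]
        rw [h2] at h1
        push_cast at h1
        exact h1
    have e1 : M * (20 * t) ^ 20 = 20 ^ 20 * (l / 40) ^ 20 * ν := by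
      rw [ht, mul_pow, mul_pow, hq20]
      field_simp
    have e2 : A * (ν + M * (20 * t) ^ 20) =
        t * (A * (40 / l) * (1 + 20 ^ 20 * (l / 40) ^ 20) * P) := by
      rw [e1]
      have h1 : t * (40 / l) * P = ν := by
        rw [← hPq, ht]
        field_simp
      calc A * (ν + 20 ^ 20 * (l / 40) ^ 20 * ν) =
          A * (1 + 20 ^ 20 * (l / 40) ^ 20) * ν := by ring
        _ = A * (1 + 20 ^ 20 * (l / 40) ^ 20) * (t * (40 / l) * P) := by rw [h1]
        _ = _ := by ring
    rw [e2] at hone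
    have h3 := le_of_mul_le_mul_left hone ht0
    have h4 : C * ν ^ (19 / 20 : ℝ) * M ^ (1 / 20 : ℝ) = C * P := by rw [hP]; ring
    rw [h4]
    refine h3.trans (mul_le_mul_of_nonneg_right ?_ hP0.le)
    rw [hC]
    linarith
  -- the limit
  have hlim : Tendsto (fun δ : ℝ => C * (ν + δ) ^ (19 / 20 : ℝ) * (M + δ) ^ (1 / 20 : ℝ))
      (𝓝[>] 0) (𝓝 (C * ν ^ (19 / 20 : ℝ) * M ^ (1 / 20 : ℝ))) := by
    have h1 : Continuous (fun δ : ℝ => C * (ν + δ) ^ (19 / 20 : ℝ) * (M + δ) ^ (1 / 20 : ℝ)) := by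
      have h2 : Continuous fun x : ℝ => x ^ (19 / 20 : ℝ) :=
        Real.continuous_rpow_const (by norm_num)
      have h3 : Continuous fun x : ℝ => x ^ (1 / 20 : ℝ) :=
        Real.continuous_rpow_const (by norm_num)
      exact (continuous_const.mul (h2.comp (continuous_const.add continuous_id))).mul
        (h3.comp (continuous_const.add continuous_id))
    have h4 := (h1.tendsto 0).mono_left (nhdsWithin_le_nhds (s := Ioi 0))
    rw [add_zero, add_zero] at h4
    exact h4
  refine ge_of_tendsto hlim ?_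
  filter_upwards [self_mem_nhdsWithin] with δ hδ
  have hδ0 : 0 < δ := hδ
  exact pos (ν + δ) (M + δ) (by linarith) (by linarith) fun x hx =>
    ⟨(hbd x hx).1.trans (by linarith), (hbd x hx).2.trans (by linarith)⟩

end Pool.Agent.Lib.MP478c11.DB
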