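import Pool.Agent.Lib.MP_478c11_gt.DB.Geo

/-!
# MP_478c11, DB: module IN2 (interpolation on a box)
-/

set_option autoImplicit false

namespace Pool.Agent.Lib.MP478c11.DB

open Set Filter Topology MeasureTheory
open scoped ContDiff InnerProductSpace

namespace IN2M

theorem pd_true (G : ℝ × ℝ → E3) (p : ℝ × ℝ) : pd true G p = fderiv ℝ G p (1, 0) := by
  unfold pd
  rw [if_pos rfl]

theorem pd_false (G : ℝ × ℝ → E3) (p : ℝ × ℝ) : pd false G p = fderiv ℝ G p (0, 1) := by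
  unfold pd
  rw [if_neg (by decide)]

theorem smooth_pd {Ω : Set (ℝ × ℝ)} (hΩ : IsOpen Ω) {G : ℝ × ℝ → E3} (hG : ContDiffOn ℝ ∞ G Ω)
    (i : Bool) : ContDiffOn ℝ ∞ (pd i G) Ω := by
  have h1 : ContDiffOn ℝ ∞ (fderiv ℝ G) Ω := hG.fderiv_of_isOpen hΩ (by exact_mod_cast le_rfl)
  cases i
  · have h2 : pd false G = fun p => fderiv ℝ G p (0, 1) := funext (pd_false G)
    rw [h2]
    exact h1.clm_apply contDiffOn_const
  · have h2 : pd true G = fun p => fderiv ℝ G p (1, 0) := funext (pd_true G)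
    rw [h2]
    exact h1.clm_apply contDiffOn_const

theorem smooth_dw {Ω : Set (ℝ × ℝ)} (hΩ : IsOpen Ω) {G : ℝ × ℝ → E3} (hG : ContDiffOn ℝ ∞ G Ω)
    (w : List Bool) : ContDiffOn ℝ ∞ (dw w G) Ω := by
  induction w with
  | nil => exact hG
  | cons i w ih => exact smooth_pd hΩ ih i

theorem dw_append (v w : List Bool) (G : ℝ × ℝ → E3) : dw (v ++ w) G = dw v (dw w G) := by
  induction v with
  | nil => rfl
  | cons i v ih =>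
    show pd i (dw (v ++ w) G) = pd i (dw v (dw w G))
    rw [ih]

theorem line1 {Ω : Set (ℝ × ℝ)} (hΩ : IsOpen Ω) {G : ℝ × ℝ → E3} (hG : ContDiffOn ℝ ∞ G Ω)
    {t y : ℝ} (hp : (t, y) ∈ Ω) : HasDerivAt (fun s => G (s, y)) (pd true G (t, y)) t := by
  have h1 : DifferentiableAt ℝ G (t, y) :=
    (hG.contDiffAt (hΩ.mem_nhds hp)).differentiableAt (by simp)
  have h2 : HasDerivAt (fun s : ℝ => (s, y)) ((1 : ℝ), (0 : ℝ)) t :=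
    (hasDerivAt_id t).prodMk (hasDerivAt_const t y)
  rw [pd_true]
  exact HasFDerivAt.comp_hasDerivAt t h1.hasFDerivAt h2

theorem line2 {Ω : Set (ℝ × ℝ)} (hΩ : IsOpen Ω) {G : ℝ × ℝ → E3} (hG : ContDiffOn ℝ ∞ G Ω)
    {x t : ℝ} (hp : (x, t) ∈ Ω) : HasDerivAt (fun s => G (x, s)) (pd false G (x, t)) t := by
  have h1 : DifferentiableAt ℝ G (x, t) :=
    (hG.contDiffAt (hΩ.mem_nhds hp)).differentiableAt (by simp)
  have h2 : HasDerivAt (fun s : ℝ => (x, s)) ((0 : ℝ), (1 : ℝ)) t :=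
    (hasDerivAt_const t x).prodMk (hasDerivAt_id t)
  rw [pd_false]
  exact HasFDerivAt.comp_hasDerivAt t h1.hasFDerivAt h2

theorem dir {l C : ℝ} (hC : ∀ (f : ℕ → ℝ → E3) (c d ν M : ℝ), l ≤ d - c → 0 ≤ ν → ν ≤ M →
      (∀ i < 20, ∀ x ∈ Icc c d, HasDerivAt (f i) (f (i + 1) x) x) →
      (∀ x ∈ Icc c d, ‖f 0 x‖ ≤ ν ∧ ‖f 20 x‖ ≤ M) → ∀ x ∈ Icc c d,
      ‖f 1 x‖ ≤ C * ν ^ (19 / 20 : ℝ) * M ^ (1 / 20 : ℝ))
    {Ω : Set (ℝ × ℝ)} (hΩ : IsOpen Ω) {G : ℝ × ℝ → E3} (hG : ContDiffOn ℝ ∞ G Ω)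
    {x₀ x₁ y₀ y₁ μ M' : ℝ} (hx : l ≤ x₁ - x₀) (hy : l ≤ y₁ - y₀)
    (hsub : Icc x₀ x₁ ×ˢ Icc y₀ y₁ ⊆ Ω) (hμ : 0 ≤ μ) (hμM : μ ≤ M')
    (h0 : ∀ p ∈ Icc x₀ x₁ ×ˢ Icc y₀ y₁, ‖G p‖ ≤ μ) (i : Bool)
    (h20 : ∀ p ∈ Icc x₀ x₁ ×ˢ Icc y₀ y₁, ‖dw (List.replicate 20 i) G p‖ ≤ M') :
    ∀ p ∈ Icc x₀ x₁ ×ˢ Icc y₀ y₁,
      ‖dw [i] G p‖ ≤ C * μ ^ (19 / 20 : ℝ) * M' ^ (1 / 20 : ℝ) := by
  rintro ⟨x, y⟩ ⟨hx', hy'⟩
  cases i
  · exact hC (fun k t => dw (List.replicate k false) G (x, t)) y₀ y₁ μ M' hy hμ hμM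
      (fun k _ t ht => line2 hΩ (smooth_dw hΩ hG (List.replicate k false)) (hsub ⟨hx', ht⟩))
      (fun t ht => ⟨h0 (x, t) ⟨hx', ht⟩, h20 (x, t) ⟨hx', ht⟩⟩) y hy'
  · exact hC (fun k t => dw (List.replicate k true) G (t, y)) x₀ x₁ μ M' hx hμ hμM
      (fun k _ t ht => line1 hΩ (smooth_dw hΩ hG (List.replicate k true)) (hsub ⟨ht, hy'⟩))
      (fun t ht => ⟨h0 (t, y) ⟨ht, hy'⟩, h20 (t, y) ⟨ht, hy'⟩⟩) x hx'

end IN2M

open IN2M in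
theorem specIN2 (hIN1 : SpecIN1) : SpecIN2 := by
  intro l hl
  obtain ⟨C₀, hC₀, hC₁⟩ := hIN1 l hl
  obtain ⟨C, hCdef⟩ : ∃ C : ℝ, C = max C₀ 1 := ⟨_, rfl⟩
  have hC1 : 1 ≤ C := by rw [hCdef]; exact le_max_right _ _
  have hC0 : 0 < C := by linarith
  have hC : ∀ (f : ℕ → ℝ → E3) (c d ν M : ℝ), l ≤ d - c → 0 ≤ ν → ν ≤ M →
      (∀ i < 20, ∀ x ∈ Icc c d, HasDerivAt (f i) (f (i + 1) x) x) →
      (∀ x ∈ Icc c d, ‖f 0 x‖ ≤ ν ∧ ‖f 20 x‖ ≤ M) → ∀ x ∈ Icc c d,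
      ‖f 1 x‖ ≤ C * ν ^ (19 / 20 : ℝ) * M ^ (1 / 20 : ℝ) := by
    intro f c d ν M h1 h2 h3 h4 h5 x hx
    refine (hC₁ f c d ν M h1 h2 h3 h4 h5 x hx).trans ?_
    have h6 : 0 ≤ ν ^ (19 / 20 : ℝ) := Real.rpow_nonneg h2 _
    have h7 : 0 ≤ M ^ (1 / 20 : ℝ) := Real.rpow_nonneg (h2.trans h3) _
    have h8 : C₀ ≤ C := by rw [hCdef]; exact le_max_left _ _
    gcongr
  refine ⟨C ^ 2, by positivity, ?_⟩
  intro Ω g x₀ x₁ y₀ y₁ ν M hΩ hg hx hy hsub hν hν1 hM hw h0 w hw1 hw2 p hp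
  have hM0 : 0 < M := by linarith
  have hνM : ν ≤ M := by linarith
  have hMr : M ^ (1 / 20 : ℝ) ≤ M := by
    have := Real.rpow_le_rpow_of_exponent_le hM (show (1 / 20 : ℝ) ≤ 1 by norm_num)
    rwa [Real.rpow_one] at this
  have hν9 : 0 ≤ ν ^ (9 / 10 : ℝ) := Real.rpow_nonneg hν _
  have hν19 : 0 ≤ ν ^ (19 / 20 : ℝ) := Real.rpow_nonneg hν _
  have hν19' : ν ^ (19 / 20 : ℝ) ≤ 1 := Real.rpow_le_one hν hν1 (by norm_num)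
  -- first derivatives
  have h1 : ∀ i : Bool, ∀ p ∈ Icc x₀ x₁ ×ˢ Icc y₀ y₁,
      ‖dw [i] g p‖ ≤ C * M * ν ^ (19 / 20 : ℝ) := by
    intro i p hp
    refine (dir hC hΩ hg hx hy hsub hν hνM h0 i
      (fun p hp => hw _ (by rw [List.length_replicate]; norm_num) p hp) p hp).trans ?_
    have : C * ν ^ (19 / 20 : ℝ) * M ^ (1 / 20 : ℝ) ≤ C * ν ^ (19 / 20 : ℝ) * M := by
      gcongr
    linarith
  match w, hw1, hw2 with
  | [], h, _ => simp at h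
  | [i], _, _ =>
    refine (h1 i p hp).trans ?_
    have h2 : ν ^ (19 / 20 : ℝ) ≤ ν ^ (9 / 10 : ℝ) :=
      Real.rpow_le_rpow_of_exponent_ge' hν hν1 (by norm_num) (by norm_num)
    have h3 : C * M ≤ C ^ 2 * M := by
      have : C ≤ C ^ 2 := by nlinarith
      gcongr
    have h4 : 0 ≤ C * M := by positivity
    calc C * M * ν ^ (19 / 20 : ℝ) ≤ C * M * ν ^ (9 / 10 : ℝ) := by gcongr
      _ ≤ C ^ 2 * M * ν ^ (9 / 10 : ℝ) := by gcongr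
  | [j, i], _, _ =>
    have hμ0 : 0 ≤ C * M * ν ^ (19 / 20 : ℝ) := by positivity
    have hμM : C * M * ν ^ (19 / 20 : ℝ) ≤ C * M := by
      have h4 : 0 ≤ C * M := by positivity
      calc C * M * ν ^ (19 / 20 : ℝ) ≤ C * M * 1 := by gcongr
        _ = C * M := mul_one _
    have h2 := dir hC hΩ (smooth_dw hΩ hg [i]) hx hy hsub hμ0 hμM (h1 i) j
      (fun p hp => by
        rw [← dw_append]
        refine (hw _ (by simp) p hp).trans ?_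
        nlinarith) p hp
    refine h2.trans ?_
    have hCM : 0 < C * M := by positivity
    have e1 : (C * M * ν ^ (19 / 20 : ℝ)) ^ (19 / 20 : ℝ) =
        (C * M) ^ (19 / 20 : ℝ) * ν ^ (361 / 400 : ℝ) := by
      rw [Real.mul_rpow hCM.le hν19, ← Real.rpow_mul hν]
      norm_num
    have e2 : (C * M) ^ (19 / 20 : ℝ) * (C * M) ^ (1 / 20 : ℝ) = C * M := by
      rw [← Real.rpow_add hCM]
      norm_num
    have h3 : ν ^ (361 / 400 : ℝ) ≤ ν ^ (9 / 10 : ℝ) :=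
      Real.rpow_le_rpow_of_exponent_ge' hν hν1 (by norm_num) (by norm_num)
    calc C * (C * M * ν ^ (19 / 20 : ℝ)) ^ (19 / 20 : ℝ) * (C * M) ^ (1 / 20 : ℝ)
        = C * ((C * M) ^ (19 / 20 : ℝ) * (C * M) ^ (1 / 20 : ℝ)) * ν ^ (361 / 400 : ℝ) := by
          rw [e1]; ring
      _ = C ^ 2 * M * ν ^ (361 / 400 : ℝ) := by rw [e2]; ring
      _ ≤ C ^ 2 * M * ν ^ (9 / 10 : ℝ) := by gcongr
  | _ :: _ :: _ :: _, _, h => simp at h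

end Pool.Agent.Lib.MP478c11.DB
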