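import Pool.Agent.Lib.MP_478c11_gt.DB.Geo

/-!
# MP_478c11_gt, module ISO: maps close to the identity
-/

set_option autoImplicit false

namespace Pool.Agent.Lib.MP478c11.DB

open Set Filter Topology MeasureTheory
open scoped ContDiff InnerProductSpace

namespace ISOM

lemma X0 (h : ℝ → ℝ) (z θ : ℝ) : X h z θ 0 = √(h z) * Real.cos θ := rfl
lemma X1 (h : ℝ → ℝ) (z θ : ℝ) : X h z θ 1 = √(h z) * Real.sin θ := rfl
lemma X2 (h : ℝ → ℝ) (z θ : ℝ) : X h z θ 2 = z := rfl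

lemma X_mem {h : ℝ → ℝ} {a p q b : ℝ} (hD : Dumb h a p q b) {z : ℝ} (hz : z ∈ Ioo a b) (θ : ℝ) :
    X h z θ ∈ Surf h a b := by
  refine ⟨hz.1.le, hz.2.le, ?_⟩
  rw [X0, X1, X2]
  have h1 : √(h z) ^ 2 = h z := Real.sq_sqrt (hD.pos z hz.1 hz.2).le
  have h2 := Real.sin_sq_add_cos_sq θ
  calc (√(h z) * Real.cos θ) ^ 2 + (√(h z) * Real.sin θ) ^ 2
      = √(h z) ^ 2 * (Real.sin θ ^ 2 + Real.cos θ ^ 2) := by ring
    _ = h z := by rw [h1, h2, mul_one]

lemma norm3 (x : E3) : ‖x‖ ≤ |x 0| + |x 1| + |x 2| := by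
  rw [EuclideanSpace.norm_eq, Fin.sum_univ_three]
  apply Real.sqrt_le_iff.2
  refine ⟨by positivity, ?_⟩
  simp only [Real.norm_eq_abs]
  nlinarith [mul_nonneg (abs_nonneg (x 0)) (abs_nonneg (x 1)),
    mul_nonneg (abs_nonneg (x 0)) (abs_nonneg (x 2)),
    mul_nonneg (abs_nonneg (x 1)) (abs_nonneg (x 2))]

lemma itd (n : ℕ) : ∀ (u v w : E3) (θ : ℝ),
    ‖iteratedDeriv n (fun t => Real.cos t • u + Real.sin t • v + w) θ‖ ≤ ‖u‖ + ‖v‖ + ‖w‖ := by
  induction n with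
  | zero =>
    intro u v w θ
    rw [iteratedDeriv_zero]
    refine (norm_add_le _ _).trans ?_
    have h1 := norm_add_le (Real.cos θ • u) (Real.sin θ • v)
    rw [norm_smul, norm_smul, Real.norm_eq_abs, Real.norm_eq_abs] at h1
    have h2 := mul_le_mul_of_nonneg_right (Real.abs_cos_le_one θ) (norm_nonneg u)
    have h3 := mul_le_mul_of_nonneg_right (Real.abs_sin_le_one θ) (norm_nonneg v)
    linarith
  | succ n ih =>
    intro u v w θ
    rw [iteratedDeriv_succ']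
    have h0 : deriv (fun t => Real.cos t • u + Real.sin t • v + w) =
        fun t => Real.cos t • v + Real.sin t • (-u) + 0 := by
      funext t
      have h1 : HasDerivAt (fun t => Real.cos t • u) (-Real.sin t • u) t :=
        (Real.hasDerivAt_cos t).smul_const u
      have h2 : HasDerivAt (fun t => Real.sin t • v) (Real.cos t • v) t :=
        (Real.hasDerivAt_sin t).smul_const v
      have h3 : HasDerivAt (fun t => Real.cos t • u + Real.sin t • v + w)
          (-Real.sin t • u + Real.cos t • v) t := (h1.add h2).add_const w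
      rw [h3.deriv, smul_neg, neg_smul, add_zero, add_comm]
    rw [h0]
    refine (ih v (-u) 0 θ).trans ?_
    rw [norm_neg, norm_zero]
    linarith [norm_nonneg w]

lemma X_eq (h : ℝ → ℝ) (z : ℝ) : X h z = fun t => Real.cos t • (!₂[√(h z), 0, 0] : E3) +
    Real.sin t • (!₂[0, √(h z), 0] : E3) + (!₂[0, 0, z] : E3) := by
  funext t
  ext i
  fin_cases i <;> simp [X, mul_comm]

lemma X_contDiff (h : ℝ → ℝ) (z : ℝ) : ContDiff ℝ ∞ (X h z) := by
  rw [X_eq]
  exact ((Real.contDiff_cos.smul contDiff_const).add (Real.contDiff_sin.smul contDiff_const)).add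
    contDiff_const

lemma X_itd (h : ℝ → ℝ) (z θ : ℝ) (n : ℕ) : ‖iteratedDeriv n (X h z) θ‖ ≤ 2 * √(h z) + |z| := by
  rw [X_eq]
  refine (itd n _ _ _ θ).trans ?_
  have h1 := norm3 (!₂[√(h z), 0, 0] : E3)
  have h2 := norm3 (!₂[0, √(h z), 0] : E3)
  have h3 := norm3 (!₂[0, 0, z] : E3)
  simp [abs_of_nonneg (Real.sqrt_nonneg (h z))] at h1 h2 h3
  linarith

lemma U_itd {h : ℝ → ℝ} {a p q b : ℝ} (hD : Dumb h a p q b) {f : E3 → E3} (hG : Good h a b f)
    {J : ℕ} {M : ℝ} (hb : ∀ x ∈ Surf h a b, ∀ θ, ‖iteratedDeriv J (fun t => f (rot t x)) θ‖ ≤ M)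
    {z : ℝ} (hz : z ∈ Ioo a b) (θ : ℝ) :
    ‖iteratedDeriv J (Uf h f z) θ‖ ≤ M + (2 * √(h z) + |z|) := by
  obtain ⟨Ω, hΩ, hS, hf⟩ := hG.smooth
  have h1 : (fun t => f (rot t (X h z 0))) = fun t => f (X h z t) := by
    funext t
    have : rot t (X h z 0) = X h z t := by
      ext i
      fin_cases i <;> simp [rot, X, mul_comm]
    rw [this]
  have h2 := hb _ (X_mem hD hz 0) θ
  rw [h1] at h2
  have h3 : ContDiffAt ℝ J (fun t => f (X h z t)) θ := by
    have h4 : ContDiffAt ℝ ∞ f (X h z θ) := hf.contDiffAt (hΩ.mem_nhds (hS (X_mem hD hz θ)))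
    have h5 : ContDiffAt ℝ ∞ (fun t => f (X h z t)) θ :=
      ContDiffAt.comp θ h4 (X_contDiff h z).contDiffAt
    exact h5.of_le (by exact_mod_cast le_top)
  have h6 : ContDiffAt ℝ J (X h z) θ :=
    (X_contDiff h z).contDiffAt.of_le (by exact_mod_cast le_top)
  have h7 : iteratedDeriv J (Uf h f z) θ =
      iteratedDeriv J (fun t => f (X h z t)) θ - iteratedDeriv J (X h z) θ :=
    iteratedDeriv_sub h3 h6
  rw [h7]
  refine (norm_sub_le _ _).trans ?_
  linarith [X_itd h z θ J]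

lemma lip {h : ℝ → ℝ} {a p q b : ℝ} (hD : Dumb h a p q b) :
    ∃ C : ℝ, 0 ≤ C ∧ ∀ z ∈ Icc a b, h z ≤ C * (b - z) := by
  have hc : ContinuousOn (deriv h) (Icc a b) :=
    (hD.smooth.continuous_deriv (by simp)).continuousOn
  obtain ⟨C, hC⟩ := isCompact_Icc.exists_bound_of_continuousOn hc
  have hab : a < b := hD.ap.trans (hD.pq.trans hD.qb)
  refine ⟨C, (norm_nonneg _).trans (hC a ⟨le_rfl, hab.le⟩), ?_⟩
  intro z hz
  have h1 := (convex_Icc a b).norm_image_sub_le_of_norm_deriv_le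
    (f := h) (C := C) (x := b) (y := z)
    (fun x _ => (hD.smooth.differentiable (by simp)).differentiableAt) hC ⟨hab.le, le_rfl⟩ hz
  rw [hD.hb, sub_zero, Real.norm_eq_abs, Real.norm_eq_abs] at h1
  have h2 : |z - b| = b - z := by rw [abs_sub_comm, abs_of_nonneg (by linarith [hz.2])]
  rw [h2] at h1
  exact (le_abs_self _).trans h1

lemma bound_h {h : ℝ → ℝ} {a p q b : ℝ} (hD : Dumb h a p q b) :
    ∃ C : ℝ, 0 ≤ C ∧ ∀ z ∈ Icc a b, 2 * √(h z) + |z| ≤ C := by
  have hc : ContinuousOn (fun z => 2 * √(h z) + |z|) (Icc a b) :=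
    ((continuous_const.mul (Real.continuous_sqrt.comp hD.smooth.continuous)).add
      continuous_abs).continuousOn
  obtain ⟨C, hC⟩ := isCompact_Icc.exists_bound_of_continuousOn hc
  have hab : a < b := hD.ap.trans (hD.pq.trans hD.qb)
  refine ⟨C, (norm_nonneg _).trans (hC a ⟨le_rfl, hab.le⟩), fun z hz => ?_⟩
  exact (le_abs_self _).trans (hC z hz)

/-- density of the polar coordinates -/
lemma dens {h : ℝ → ℝ} {a p q b : ℝ} (hD : Dumb h a p q b) {f : E3 → E3} (hG : Good h a b f)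
    {η : ℝ} (hη : 0 ≤ η) (hU : ∀ z ∈ Ioo a b, ∀ θ, ‖Uf h f z θ‖ ≤ η) :
    ∀ x ∈ Surf h a b, ‖f x - x‖ ≤ η := by
  obtain ⟨Ω, hΩ, hS, hf⟩ := hG.smooth
  have hab : a < b := hD.ap.trans (hD.pq.trans hD.qb)
  intro x hx
  obtain ⟨hxa, hxb, hxe⟩ := id hx
  have hpole : h (x 2) = 0 → x = !₂[0, 0, x 2] := by
    intro h0
    rw [h0] at hxe
    have e0 : x 0 = 0 := by nlinarith [sq_nonneg (x 0), sq_nonneg (x 1)]
    have e1 : x 1 = 0 := by nlinarith [sq_nonneg (x 0), sq_nonneg (x 1)]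
    ext i
    fin_cases i
    · simpa using e0
    · simpa using e1
    · rfl
  rcases eq_or_lt_of_le hxa with ha | ha
  · have h1 : x = !₂[0, 0, a] := by
      have := hpole (by rw [← ha, hD.ha])
      rw [← ha] at this
      exact this
    rw [h1, hG.base, sub_self, norm_zero]
    exact hη
  rcases eq_or_lt_of_le hxb with hb | hb
  · have h1 : x = !₂[0, 0, b] := by
      have := hpole (by rw [hb, hD.hb])
      rw [hb] at this
      exact this
    have h2 : Tendsto (fun s => X h s 0) (𝓝[<] b) (𝓝 x) := by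
      have hc : Continuous (fun s => X h s 0) := by
        have : (fun s => X h s 0) = fun s => (!₂[√(h s) * Real.cos 0, √(h s) * Real.sin 0, s] : E3) :=
          rfl
        rw [this]
        have hs : Continuous (fun s => √(h s)) := Real.continuous_sqrt.comp hD.smooth.continuous
        apply (PiLp.continuous_toLp 2 _).comp
        apply continuous_pi
        intro i
        fin_cases i
        · exact hs.mul continuous_const
        · exact hs.mul continuous_const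
        · exact continuous_id
      have h3 : X h b 0 = x := by
        rw [h1]
        ext i
        fin_cases i <;> simp [X, hD.hb]
      rw [← h3]
      exact hc.continuousAt.tendsto.mono_left nhdsWithin_le_nhds
    have h4 : Tendsto (fun s => ‖Uf h f s 0‖) (𝓝[<] b) (𝓝 ‖f x - x‖) := by
      have h5 : ContinuousAt f x := (hf.contDiffAt (hΩ.mem_nhds (hS hx))).continuousAt
      exact ((h5.tendsto.comp h2).sub h2).norm
    refine le_of_tendsto h4 ?_
    filter_upwards [Ioo_mem_nhdsLT hab] with s hs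
    exact hU s hs 0
  · have hz : x 2 ∈ Ioo a b := ⟨ha, hb⟩
    have hpos := hD.pos (x 2) ha hb
    obtain ⟨w, hw0, hw1⟩ : ∃ w : ℂ, w.re = x 0 ∧ w.im = x 1 := ⟨⟨x 0, x 1⟩, rfl, rfl⟩
    have hn : ‖w‖ = √(h (x 2)) := by
      rw [← hxe, Complex.norm_def, Complex.normSq_apply, hw0, hw1]
      congr 1
      ring
    have h1 : X h (x 2) w.arg = x := by
      ext i
      fin_cases i
      · show √(h (x 2)) * Real.cos w.arg = x 0
        rw [← hn, Complex.norm_mul_cos_arg, hw0]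
      · show √(h (x 2)) * Real.sin w.arg = x 1
        rw [← hn, Complex.norm_mul_sin_arg, hw1]
      · rfl
    have h2 := hU (x 2) hz w.arg
    unfold Uf at h2
    rwa [h1] at h2

end ISOM

open ISOM in
theorem specISO (hSUP : SpecSUP) (hBOT : SpecBOT) (hISE : SpecISE) (hSIZ : SpecSIZ) : SpecISO := by
  intro h a p q b φa φb ε δ hD hE hCh
  have hab : a < b := hD.ap.trans (hD.pq.trans hD.qb)
  obtain ⟨C, B, hC, hsup⟩ := hSUP h a p q b hD hE
  obtain ⟨J, hJ2, hbot⟩ := hBOT B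
  refine ⟨J, by omega, ?_⟩
  intro M
  obtain ⟨K, hK, hsiz⟩ := hSIZ h a p q b φa φb ε δ hD hCh M
  obtain ⟨C1, hC1, hlip⟩ := lip hD
  obtain ⟨C2, hC2, hbd⟩ := bound_h hD
  obtain ⟨M1, hM1⟩ : ∃ M1 : ℝ, M1 = |M| + C2 + 2 * K * √C1 + 1 := ⟨_, rfl⟩
  have hs1 : 0 ≤ 2 * K * √C1 := by positivity
  have hM1pos : 0 < M1 := by
    have := abs_nonneg M
    rw [hM1]; linarith
  obtain ⟨ν₁, hν₁, hbot1⟩ := hbot C K M1 hC hK hM1pos
  obtain ⟨ν₀, hν₀def⟩ : ∃ ν₀ : ℝ, ν₀ = min ν₁ (min 1 ((b - a) / 4)) := ⟨_, rfl⟩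
  have hν₀ : 0 < ν₀ := by
    rw [hν₀def]
    exact lt_min hν₁ (lt_min one_pos (by linarith))
  have hν₀a : ν₀ ≤ ν₁ := by rw [hν₀def]; exact min_le_left _ _
  have hν₀b : ν₀ ≤ 1 := by
    rw [hν₀def]; exact (min_le_right _ _).trans (min_le_left _ _)
  have hν₀c : ν₀ ≤ (b - a) / 4 := by
    rw [hν₀def]; exact (min_le_right _ _).trans (min_le_right _ _)
  refine ⟨ν₀, hν₀, ?_⟩
  intro f hG hB hclose
  obtain ⟨hF, hI⟩ := hISE h a p q b hD f hG
  have hMJ : ∀ z ∈ Ioo a b, ∀ θ, ‖iteratedDeriv J (Uf h f z) θ‖ ≤ M1 := by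
    intro z hz θ
    have h1 := U_itd hD hG hB.bt hz θ
    have h2 := hbd z ⟨hz.1.le, hz.2.le⟩
    have h3 := le_abs_self M
    rw [hM1]; linarith
  -- the improvement
  have step : ∀ ν : ℝ, 0 < ν → ν ≤ ν₀ → (∀ x ∈ Surf h a b, ‖f x - x‖ ≤ ν) →
      ∀ x ∈ Surf h a b, ‖f x - x‖ ≤ ν / 2 := by
    intro ν hν hνle hcl
    have hν1 : ν ≤ 1 := hνle.trans hν₀b
    have hsz := hsiz J f ν hG hB hν.le hν1 hcl
    obtain ⟨L, hL, hbt⟩ := hbot1 ν hν (hνle.trans hν₀a)
    have hν4 : 0 < ν ^ 4 := by positivity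
    have hν4le : ν ^ 4 ≤ (b - a) / 4 := by
      have : ν ^ 4 ≤ ν ^ 1 := pow_le_pow_of_le_one hν.le hν1 (by norm_num)
      rw [pow_one] at this
      linarith
    have hest := hsup (Uf h f) (K * ν ^ (9 / 10 : ℝ)) K hF hI hsz J L M1 hJ2 hL hMJ
    have hLpos : (0 : ℝ) < (L : ℝ) := by exact_mod_cast (by omega : 0 < L)
    have hlow : ∀ z ∈ Ioo a b, z ≤ b - ν ^ 4 → ∀ θ, ‖Uf h f z θ‖ ≤
        C * ((L : ℝ) ^ B * (K * ν ^ (9 / 10 : ℝ)) ^ 2 * (ν ^ 4) ^ (-(1 / 40 : ℝ)) +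
          M1 / (L : ℝ) ^ (J - 1)) := by
      intro z hz hzb θ
      refine (hest z hz θ).trans ?_
      have h1 : (b - z) ^ (-(1 / 40 : ℝ)) ≤ (ν ^ 4) ^ (-(1 / 40 : ℝ)) :=
        Real.rpow_le_rpow_of_nonpos hν4 (by linarith) (by norm_num)
      have h2 : (0 : ℝ) ≤ (L : ℝ) ^ B * (K * ν ^ (9 / 10 : ℝ)) ^ 2 := by positivity
      have h3 := mul_le_mul_of_nonneg_left h1 h2
      exact mul_le_mul_of_nonneg_left (by linarith) hC.le
    apply dens hD hG (by positivity)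
    intro z hz θ
    rcases le_or_gt z (b - ν ^ 4) with hzb | hzb
    · have h1 := hlow z hz hzb θ
      have h2 : 0 ≤ M1 * ν ^ 2 := by positivity
      linarith
    · obtain ⟨c, hc⟩ := hsz.up
      have hz' : b - ν ^ 4 ∈ Ioo a b := ⟨by linarith, by linarith⟩
      have hz'm : (a + b) / 2 ≤ b - ν ^ 4 := by linarith
      have h1 := hlow (b - ν ^ 4) hz' le_rfl θ
      have h2 := hc z hz (by linarith) θ
      have h3 := hc (b - ν ^ 4) hz' hz'm θ
      have hsq : ∀ y ∈ Ioo a b, b - ν ^ 4 ≤ y → √(h y) ≤ √C1 * ν ^ 2 := by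
        intro y hy hyb
        have h4 : h y ≤ C1 * (ν ^ 2) ^ 2 := by
          refine (hlip y ⟨hy.1.le, hy.2.le⟩).trans ?_
          have h5 : b - y ≤ (ν ^ 2) ^ 2 := by nlinarith
          exact mul_le_mul_of_nonneg_left h5 hC1
        calc √(h y) ≤ √(C1 * (ν ^ 2) ^ 2) := Real.sqrt_le_sqrt h4
          _ = √C1 * ν ^ 2 := by rw [Real.sqrt_mul hC1, Real.sqrt_sq (by positivity)]
      have h6 := mul_le_mul_of_nonneg_left (hsq z hz hzb.le) hK.le
      have h7 := mul_le_mul_of_nonneg_left (hsq (b - ν ^ 4) hz' le_rfl) hK.le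
      have h8 : ‖Uf h f z θ‖ ≤ ‖Uf h f z θ - c‖ + ‖Uf h f (b - ν ^ 4) θ - c‖ +
          ‖Uf h f (b - ν ^ 4) θ‖ := by
        have e : Uf h f z θ = (Uf h f z θ - c) - (Uf h f (b - ν ^ 4) θ - c) +
            Uf h f (b - ν ^ 4) θ := by abel
        calc ‖Uf h f z θ‖ = ‖(Uf h f z θ - c) - (Uf h f (b - ν ^ 4) θ - c) +
              Uf h f (b - ν ^ 4) θ‖ := by rw [← e]
          _ ≤ _ := (norm_add_le _ _).trans (by
            have := norm_sub_le (Uf h f z θ - c) (Uf h f (b - ν ^ 4) θ - c)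
            linarith)
      have h9 : 2 * K * √C1 * ν ^ 2 ≤ M1 * ν ^ 2 := by
        apply mul_le_mul_of_nonneg_right _ (by positivity)
        rw [hM1]
        have := abs_nonneg M
        linarith
      nlinarith
  -- iteration
  have iter : ∀ k : ℕ, ∀ x ∈ Surf h a b, ‖f x - x‖ ≤ ν₀ / 2 ^ k := by
    intro k
    induction k with
    | zero => simpa using hclose
    | succ k ih =>
      have h1 := step (ν₀ / 2 ^ k) (by positivity)
        (div_le_self hν₀.le (one_le_pow₀ (by norm_num))) ih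
      intro x hx
      have h2 := h1 x hx
      rwa [div_div, ← pow_succ] at h2
  intro x hx
  have hlim : Tendsto (fun k : ℕ => ν₀ / 2 ^ k) atTop (𝓝 0) := by
    have h1 := (tendsto_pow_atTop_nhds_zero_of_lt_one (r := (1 / 2 : ℝ)) (by norm_num)
      (by norm_num)).const_mul ν₀
    rw [mul_zero] at h1
    refine h1.congr (fun k => ?_)
    rw [one_div, inv_pow, div_eq_mul_inv]
  have h1 : ‖f x - x‖ ≤ 0 := ge_of_tendsto' hlim (fun k => iter k x hx)
  have h2 : f x - x = 0 := norm_le_zero_iff.1 h1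
  exact sub_eq_zero.1 h2

end Pool.Agent.Lib.MP478c11.DB
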