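import Pool.Agent.Lib.MP_478c11_gt.DB.Spec

/-!
# Module LUN: uniqueness of the data of the left solution at `p` (of the right solution at `q`).
-/

set_option autoImplicit false

namespace Pool.Agent.Lib.MP478c11.DB

open Set Filter Topology MeasureTheory
open scoped ContDiff

noncomputable section

namespace LUNM

theorem W_congr {h h' : ℝ → ℝ} {z : ℝ} (H : h' =ᶠ[𝓝 z] h) : W h' z = W h z := by
  unfold W
  have h1 : deriv h' =ᶠ[𝓝 z] deriv h := H.deriv
  rw [h1.deriv_eq, H.deriv_eq, H.eq_of_nhds]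

theorem first (hCAP : SpecCAP) (h h' : ℝ → ℝ) (a p q b : ℝ) (D : Dumb h a p q b) (n : ℕ)
    (hn : 1 ≤ n) (p' : ℝ) (hp' : p < p') (heq : ∀ z < p', h' z = h z) (Y V Y' V' : ℝ → ℝ)
    (L : LeftSol h a p b n Y V) (L' : LeftSol h' a p b n Y' V') : V p = V' p := by
  obtain ⟨C, hC, hcap⟩ := hCAP h a p q b D
  have hpb : p < b := lt_trans D.pq D.qb
  have sys : Sys h n O (fun z => Y z - Y' z) (fun z => V z - V' z) (Ioc a p) := by
    intro z hz
    have hz1 : z ∈ Ioo a b := ⟨hz.1, lt_of_le_of_lt hz.2 hpb⟩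
    have hzp : z < p' := lt_of_le_of_lt hz.2 hp'
    have ev : h' =ᶠ[𝓝 z] h := by
      filter_upwards [Iio_mem_nhds hzp] with w hw using heq w hw
    have hW := W_congr ev
    obtain ⟨e1, e2⟩ := L.sys z hz1
    obtain ⟨e1', e2'⟩ := L'.sys z hz1
    rw [heq z hzp] at e1' e2'
    rw [hW] at e2'
    refine ⟨(e1.sub e1').congr_deriv ?_, (e2.sub e2').congr_deriv ?_⟩
    · ring
    · simp only [O]; ring
  have bd : ∀ z ∈ Ioc a p, |O z| ≤ 0 ∧ |Y z - Y' z| ≤ 1 := by
    intro z hz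
    refine ⟨by simp [O], ?_⟩
    have b1 := L.bd z hz
    have b2 := L'.bd z hz
    rw [abs_le]
    constructor <;> linarith [b1.1, b1.2.1, b2.1, b2.2.1]
  have key := (hcap n hn O (fun z => Y z - Y' z) (fun z => V z - V' z) 0 1 sys le_rfl bd
    (by simp [L.one, L'.one])).2
  have h0 : |V p - V' p| ≤ 0 := by simpa using key
  have h1 := abs_nonpos_iff.mp h0
  linarith

end LUNM

theorem specLUN (hREF : SpecREF) (hCAP : SpecCAP) : SpecLUN := by
  intro h h' a p q b D D' n hn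
  refine ⟨?_, ?_⟩
  · rintro ⟨p', hp', heq⟩ Y V Y' V' L L'
    exact LUNM.first hCAP h h' a p q b D n hn p' hp' heq Y V Y' V' L L'
  · rintro ⟨q', hq', heq⟩ Z U Z' U' R R'
    obtain ⟨E, -, -, r1, -⟩ := hREF h a p q b D
    obtain ⟨-, -, -, r1', -⟩ := hREF h' a p q b D'
    have k := LUNM.first hCAP (fun z => h (-z)) (fun z => h' (-z)) (-b) (-q) (-p) (-a) E n hn
      (-q') (by linarith) (fun z hz => heq (-z) (by linarith)) _ _ _ _ (r1 n Z U R)
      (r1' n Z' U' R')
    have k' : -U (- -q) = -U' (- -q) := k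
    rw [neg_neg] at k'
    linarith

end

end Pool.Agent.Lib.MP478c11.DB
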