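import Pool.Agent.Lib.MP_478c11_gt.DB.GeoS

/-!
# Local rigidity, and bendings which are only continuous in the parameter (MP_478c11_gt): specification, part 4 (captain helper25)

The surfaces of part 3 (spheres of revolution with `Est`) are locally rigid: every `C^∞` isometric map of `S` which is `C⁰`-close to the inclusion, with bounded derivatives of order `≤ k`, is the restriction of a motion
(so the same is true for maps which are `C^k`-close to the inclusion). And all families of isometric maps which are continuous in `α` together with all derivatives in `x` are trivial.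

Conventions: module `XXX` is the file `Pool/Agent/Lib/MP_478c11_gt/DB/S/XXX.lean`, it imports `Pool.Agent.Lib.MP_478c11_gt.DB.Loc` and proves
`theorem specXXX (hYYY : SpecYYY) .. : SpecXXX` (the modules named after USES, in this order) in the namespace `Pool.Agent.Lib.MP478c11.DB.S`, own lemmas in a namespace `XXXM`.
(In this namespace `Dumb` is `S.Dumb`: a sphere of revolution with two marked points, no curvature assumption. The files `DB/S/*.lean` are the modules of part 2 in this generality; copy from them.)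
-/

set_option autoImplicit false

namespace Pool.Agent.Lib.MP478c11.DB

open Set Filter Topology MeasureTheory
open scoped ContDiff InnerProductSpace

noncomputable section

/-- `f` is `C^∞` near the surface and isometric on it. -/
def IsoMap (h : ℝ → ℝ) (a b : ℝ) (f : E3 → E3) : Prop :=
  (∃ Ω : Set E3, IsOpen Ω ∧ Surf h a b ⊆ Ω ∧ ContDiffOn ℝ ∞ f Ω) ∧ ∀ x ∈ Surf h a b, ∀ v, Tan h x v → ‖fderiv ℝ f x v‖ = ‖v‖

/-- The surface is locally rigid. -/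
def LocRig (h : ℝ → ℝ) (a b : ℝ) : Prop :=
  ∃ k : ℕ, ∀ M : ℝ, ∃ ε : ℝ, 0 < ε ∧ ∀ f : E3 → E3, IsoMap h a b f →
    (∀ i ≤ k, ∀ x ∈ Surf h a b, ‖iteratedFDeriv ℝ i f x‖ ≤ M) → (∀ x ∈ Surf h a b, ‖f x - x‖ ≤ ε) →
    ∃ g : E3 ≃ᵢ E3, ∀ x ∈ Surf h a b, f x = g x

/-- A family of isometric maps, continuous in `α` together with all derivatives in `x`. -/
structure CBending (h : ℝ → ℝ) (a b : ℝ) (F : ℝ → E3 → E3) : Prop where
  cont : ∃ Ω : Set E3, IsOpen Ω ∧ Surf h a b ⊆ Ω ∧ (∀ α ∈ Icc (0 : ℝ) 1, ContDiffOn ℝ ∞ (F α) Ω) ∧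
    ∀ i : ℕ, ContinuousOn (fun p : ℝ × E3 => iteratedFDeriv ℝ i (F p.1) p.2) (Icc (0 : ℝ) 1 ×ˢ Ω)
  iso : ∀ α ∈ Icc (0 : ℝ) 1, ∀ x ∈ Surf h a b, ∀ v, Tan h x v → ‖fderiv ℝ (F α) x v‖ = ‖v‖
  start : ∀ x ∈ Surf h a b, F 0 x = x

/-- Every such family is trivial. -/
def CUnb (h : ℝ → ℝ) (a b : ℝ) : Prop :=
  ∀ F : ℝ → E3 → E3, CBending h a b F → ∀ α ∈ Icc (0 : ℝ) 1, ∃ g : E3 ≃ᵢ E3, ∀ x ∈ Surf h a b, F α x = g x

end

end Pool.Agent.Lib.MP478c11.DB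

namespace Pool.Agent.Lib.MP478c11.DB.S

open Set Filter Topology MeasureTheory
open scoped ContDiff InnerProductSpace

noncomputable section

/-- **BD1** (260 lines, no deps). Bounds for the derivatives of `f` on the surface give bounds along the charts.
PROOF. A word: `‖dw w g p‖ ≤ ‖iteratedFDeriv ℝ w.length g p‖` if `g` is smooth near `p` (`dw w g` is the iterated derivative in the directions `(1, 0)`, `(0, 1)` of norm one; induction on `w`, or compare `iteratedFDeriv_succ_apply_left`). Composition: `norm_iteratedFDeriv_comp_le` (or the `Within` version on open sets): `‖D^n (f ∘ Ψ)‖ ≤ n! M D^n` if `‖D^i f‖ ≤ M` at `Ψ p` for `i ≤ n` and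
`‖D^i Ψ p‖ ≤ D^i` for `1 ≤ i ≤ n`; `Ψ` = `Ps φa`, `Ps φb` (smooth on `{p.1² + p.2² < 4 ε²}`, values in `S`), `X h` (smooth on `(a, b) × ℝ`, values in `S`, periodic), `t ↦ rot t x` (`x ∈ S`; `rot t x ∈ S`): the norms `‖D^i Ψ‖`, `1 ≤ i ≤ n`, are bounded by some `D ≥ 1` on the compact boxes, so by `D^i`. `norm_iteratedFDeriv_eq_norm_iteratedDeriv` for the last item. -/
def SpecBD1 : Prop :=
  ∀ (h : ℝ → ℝ) (a p q b : ℝ) (φa φb : ℝ → ℝ) (ε δ : ℝ), Dumb h a p q b → Charts h a b φa φb ε δ → ∀ (J : ℕ) (M : ℝ), ∃ M' : ℝ,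
    ∀ (f : E3 → E3) (Ω : Set E3), IsOpen Ω → Surf h a b ⊆ Ω → ContDiffOn ℝ ∞ f Ω → (∀ i ≤ max 21 J, ∀ x ∈ Surf h a b, ‖iteratedFDeriv ℝ i f x‖ ≤ M) →
      Bdd h a b φa φb ε δ J M' f

/-- **FR1** (200 lines, no deps). PROOF. Copy the first half of `DB/S/FRM.lean` for a single map. -/
def SpecFR1 : Prop :=
  ∀ (h : ℝ → ℝ) (a p q b : ℝ), Dumb h a p q b → ∀ f : E3 → E3, IsoMap h a b f →
    (∀ x y, ‖Gm a f x - Gm a f y‖ = ‖x - y‖) ∧ (∀ x y, ‖Hm a f x - Hm a f y‖ = ‖x - y‖) ∧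
      (∀ x, Hm a f (Gm a f x) = x) ∧ (∀ y, Gm a f (Hm a f y) = y) ∧ Good h a b (fun x => Hm a f (f x))

/-- **NM1** (260 lines, no deps). A map close to the identity is close to its own motion.
PROOF. Let `g(t) = f (Ps φa (t, 0)) - Ps φa (t, 0)`, `|t| ≤ ε`: `‖g‖ ≤ ε₀`, `‖g''‖ ≤ M'` (chain rule; `‖D f‖, ‖D² f‖ ≤ M` on `S`; `Ps φa (t, 0) = (t, 0, φa(t²))`), so for `0 < t ≤ ε` `‖g'(0)‖ ≤ 2 ε₀/t + M' t`; `t = min ε √ε₀`: `‖g'(0)‖ ≤ C √ε₀` for `ε₀ ≤ 1`. `g'(0) = fr a f 0 - e₁`. The same with `(0, t)`: `‖fr a f 1 - e₂‖ ≤ C √ε₀`. `cross` is bilinear, `‖cross x y‖ ≤ 2 ‖x‖ ‖y‖`, `cross e₁ e₂ = e₃`: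
`‖fr a f 2 - e₃‖ ≤ C √ε₀`. `f x - Gm a f x = (f x - x) - (f P - P) - (x 0 (fr 0 - e₁) + x 1 (fr 1 - e₂) + (x 2 - a)(fr 2 - e₃))`, `S` is bounded. -/
def SpecNM1 : Prop :=
  ∀ (h : ℝ → ℝ) (a p q b : ℝ) (φa φb : ℝ → ℝ) (ε δ : ℝ), Dumb h a p q b → Charts h a b φa φb ε δ → ∀ M η : ℝ, 0 < η → ∃ ε₀ : ℝ, 0 < ε₀ ∧
    ∀ f : E3 → E3, IsoMap h a b f → (∀ i ≤ 2, ∀ x ∈ Surf h a b, ‖iteratedFDeriv ℝ i f x‖ ≤ M) → (∀ x ∈ Surf h a b, ‖f x - x‖ ≤ ε₀) →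
      ∀ x ∈ Surf h a b, ‖f x - Gm a f x‖ ≤ η

/-- **LOC** (150 lines), USES CHT, ISO, NMB, BD1, FR1, NM1. Local rigidity.
PROOF. Charts (CHT), `J` (ISO), `k = max 21 J`. Given `M`: `M'` from BD1, `ν₀` from ISO for `2 M' + |a|`, `ε` from NM1 with `η = ν₀`. `f' = Hm a f ∘ f` is `Good` (FR1), `Bdd` with `2 M' + |a|` (NMB), and `‖f' x - x‖ = ‖Hm (f x) - Hm (Gm x)‖ = ‖f x - Gm x‖ ≤ ν₀`; ISO: `f' x = x`, `f x = Gm a f x`, and `Gm a f` is an `IsometryEquiv`. -/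
def SpecLOC : Prop :=
  ∀ (h : ℝ → ℝ) (a p q b : ℝ), Dumb h a p q b → Est h a b → LocRig h a b

/-- **CCP** (110 lines), USES BD1. PROOF. `(α, x) ↦ ‖iteratedFDeriv ℝ i (F α) x‖` is continuous on the compact set `[0, 1] × S`, so bounded, for `i ≤ max 21 J`. -/
def SpecCCP : Prop :=
  ∀ (h : ℝ → ℝ) (a p q b : ℝ) (φa φb : ℝ → ℝ) (ε δ : ℝ), Dumb h a p q b → Charts h a b φa φb ε δ → ∀ F : ℝ → E3 → E3, CBending h a b F → ∀ J : ℕ,
    ∃ M : ℝ, ∀ α ∈ Icc (0 : ℝ) 1, Bdd h a b φa φb ε δ J M (F α)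

/-- **CFR** (220 lines, no deps). PROOF. As in `DB/S/FRM.lean`: `fderiv ℝ (F α) P` is continuous in `α` (from `i = 1`), `F α x` is jointly continuous (from `i = 0`: `iteratedFDeriv ℝ 0`), and `F 0 = id` on `S` gives `fr a (F 0) = (e₁, e₂, e₃)`. -/
def SpecCFR : Prop :=
  ∀ (h : ℝ → ℝ) (a p q b : ℝ) (φa φb : ℝ → ℝ) (ε δ : ℝ), Dumb h a p q b → Charts h a b φa φb ε δ → ∀ F : ℝ → E3 → E3, CBending h a b F →
    (∀ x, Gm a (F 0) x = x) ∧ ContinuousOn (fun p : ℝ × E3 => Gm a (F p.1) p.2) (Icc 0 1 ×ˢ univ) ∧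
      ContinuousOn (fun p : ℝ × E3 => F p.1 p.2) (Icc 0 1 ×ˢ Surf h a b)

/-- **COP** (200 lines), USES CHT, ISO, NMB, FR1, CCP, CFR. PROOF. Copy `DB/S/OPC.lean`, with FR1, CFR in place of FRM and CCP in place of CPT. -/
def SpecCOP : Prop :=
  ∀ (h : ℝ → ℝ) (a p q b : ℝ), Dumb h a p q b → Est h a b → CUnb h a b

end

end Pool.Agent.Lib.MP478c11.DB.S
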