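import Pool.Agent.Lib.MP_478c11_gt.DB.Geo

/-!
# Module MN1: the modes `n = 1`, `n = -1`
-/

set_option autoImplicit false

namespace Pool.Agent.Lib.MP478c11.DB

open Set Filter Topology MeasureTheory
open scoped ContDiff InnerProductSpace

noncomputable section

namespace MN1M

/-- comparison of a complex function with a real one -/
theorem cmp {f f' : ℝ → ℂ} {G G' : ℝ → ℝ} {x y : ℝ} (hxy : x ≤ y)
    (hf : ∀ t ∈ Icc x y, HasDerivAt f (f' t) t) (hG : ∀ t ∈ Icc x y, HasDerivAt G (G' t) t)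
    (hb : ∀ t ∈ Icc x y, ‖f' t‖ ≤ G' t) : ‖f y‖ ≤ ‖f x‖ + (G y - G x) := by
  have hB : ∀ t ∈ Icc x y, HasDerivAt (fun t => ‖f x‖ + (G t - G x)) (G' t) t := fun t ht =>
    ((hG t ht).sub_const (G x)).const_add ‖f x‖
  have h1 := image_norm_le_of_norm_deriv_right_le_deriv_boundary' (f := f) (f' := f') (a := x) (b := y)
    (fun t ht => (hf t ht).continuousAt.continuousWithinAt)
    (fun t ht => (hf t ⟨ht.1, ht.2.le⟩).hasDerivWithinAt)
    (B := fun t => ‖f x‖ + (G t - G x)) (B' := G') (by simp)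
    (fun t ht => (hB t ht).continuousAt.continuousWithinAt)
    (fun t ht => (hB t ⟨ht.1, ht.2.le⟩).hasDerivWithinAt)
    (fun t ht => hb t ⟨ht.1, ht.2.le⟩)
  exact h1 ⟨hxy, le_rfl⟩

/-- the same from the left end -/
theorem cmp0 {f f' : ℝ → ℂ} {G G' : ℝ → ℝ} {a m : ℝ}
    (hf : ∀ t ∈ Ioc a m, HasDerivAt f (f' t) t) (hG : ∀ t ∈ Ioc a m, HasDerivAt G (G' t) t)
    (hb : ∀ t ∈ Ioc a m, ‖f' t‖ ≤ G' t) (hG0 : ∀ t ∈ Ioc a m, 0 ≤ G t)
    (h0 : Tendsto (fun t => ‖f t‖) (𝓝[>] a) (𝓝 0)) : ∀ z ∈ Ioc a m, ‖f z‖ ≤ G z := by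
  intro z hz
  have h1 : Tendsto (fun t => ‖f t‖ + G z) (𝓝[>] a) (𝓝 (0 + G z)) := h0.add_const _
  rw [zero_add] at h1
  refine ge_of_tendsto h1 ?_
  have h2 : ∀ᶠ t in 𝓝[>] a, t ∈ Ioo a z := Ioo_mem_nhdsGT hz.1
  filter_upwards [h2] with t ht
  have h3 := cmp (f := f) (f' := f') (G := G) (G' := G') ht.2.le
    (fun s hs => hf s ⟨ht.1.trans_le hs.1, hs.2.trans hz.2⟩)
    (fun s hs => hG s ⟨ht.1.trans_le hs.1, hs.2.trans hz.2⟩)
    (fun s hs => hb s ⟨ht.1.trans_le hs.1, hs.2.trans hz.2⟩)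
  have h4 := hG0 t ⟨ht.1, ht.2.le.trans hz.2⟩
  linarith

/-- the analytic part -/
theorem core {h : ℝ → ℝ} {a m b c : ℝ} (ham : a < m) (hmb : m < b) (hc : 0 < c)
    (h1 : ∀ z ∈ Ioc a m, c * (z - a) ≤ h z) (h2 : ∀ z ∈ Ico m b, c * (b - z) ≤ h z) :
    ∃ Q : ℝ, 0 < Q ∧ ∀ (D B F : ℝ → ℂ) (K : ℝ), 0 ≤ K →
      (∀ z ∈ Ioo a b, HasDerivAt D (F z / ((h z : ℂ) * ((√(h z) : ℝ) : ℂ))) z) →
      (∀ z ∈ Ioo a b, HasDerivAt B (D z) z) →
      (∀ z ∈ Ioc a m, ‖F z‖ ≤ K * h z) → (∀ z ∈ Ioo a b, ‖F z‖ ≤ K) →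
      Tendsto (fun t => ‖D t‖) (𝓝[>] a) (𝓝 0) → Tendsto (fun t => ‖B t‖) (𝓝[>] a) (𝓝 0) →
      ∀ z ∈ Ioo a b, ‖B z‖ ≤ Q * K ∧ √(b - z) * ‖D z‖ ≤ Q * K := by
  have hab : 0 < b - a := by linarith
  set s : ℝ := √(b - a) with hs
  have hs0 : 0 < s := Real.sqrt_pos.mpr hab
  have hss : s * s = b - a := Real.mul_self_sqrt hab.le
  set k : ℝ := √c with hk
  have hk0 : 0 < k := Real.sqrt_pos.mpr hc
  have hkk : k * k = c := Real.mul_self_sqrt hc.le
  set Q₂ : ℝ := 2 * s / k with hQ₂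
  set Q₃ : ℝ := 1 / (c * k) with hQ₃
  set Q₄ : ℝ := Q₂ * s + 2 * Q₃ with hQ₄
  set Q₅ : ℝ := Q₂ * (b - a) + 2 * Q₄ * s with hQ₅
  have hQ₂0 : 0 < Q₂ := by positivity
  have hQ₃0 : 0 < Q₃ := by positivity
  have hQ₄0 : 0 < Q₄ := by positivity
  have hQ₅0 : 0 < Q₅ := by positivity
  refine ⟨Q₄ + Q₅, by positivity, ?_⟩
  intro D B F K hK hD hB hF1 hF2 hD0 hB0
  -- the left half: `D`
  have hDa : ∀ z ∈ Ioc a m, ‖D z‖ ≤ 2 * K / k * √(z - a) := by
    refine cmp0 (f := D) (f' := fun z => F z / ((h z : ℂ) * ((√(h z) : ℝ) : ℂ)))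
      (G' := fun t => 2 * K / k * (1 / (2 * √(t - a))))
      (fun t ht => hD t ⟨ht.1, ht.2.trans_lt hmb⟩) ?_ ?_ ?_ hD0
    · intro t ht
      have h3 : HasDerivAt (fun t : ℝ => t - a) 1 t := (hasDerivAt_id t).sub_const a
      have h4 := h3.sqrt (by have := ht.1; linarith)
      exact h4.const_mul _
    · intro t ht
      have hta : 0 < t - a := by have := ht.1; linarith
      have hht : 0 < h t := lt_of_lt_of_le (by positivity) (h1 t ht)
      have hr : 0 < √(h t) := Real.sqrt_pos.mpr hht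
      have hr2 : k * √(t - a) ≤ √(h t) := by
        rw [hk, ← Real.sqrt_mul hc.le]
        exact Real.sqrt_le_sqrt (h1 t ht)
      have hsta : 0 < √(t - a) := Real.sqrt_pos.mpr hta
      rw [norm_div, norm_mul, Complex.norm_real, Complex.norm_real, Real.norm_of_nonneg hht.le,
        Real.norm_of_nonneg hr.le]
      calc ‖F t‖ / (h t * √(h t)) ≤ K * h t / (h t * √(h t)) := by
            gcongr
            exact hF1 t ht
        _ = K / √(h t) := by field_simp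
        _ ≤ K / (k * √(t - a)) := by gcongr
        _ = 2 * K / k * (1 / (2 * √(t - a))) := by field_simp
    · intro t _
      positivity
  have hDa' : ∀ z ∈ Ioc a m, ‖D z‖ ≤ Q₂ * K := by
    intro z hz
    have h3 : √(z - a) ≤ s := Real.sqrt_le_sqrt (by have := hz.2; linarith)
    calc ‖D z‖ ≤ 2 * K / k * √(z - a) := hDa z hz
      _ ≤ 2 * K / k * s := by gcongr
      _ = Q₂ * K := by rw [hQ₂]; ring
  -- the left half: `B`
  have hBa : ∀ z ∈ Ioc a m, ‖B z‖ ≤ Q₂ * K * (z - a) := by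
    refine cmp0 (f := B) (f' := D) (G' := fun t => Q₂ * K * 1)
      (fun t ht => hB t ⟨ht.1, ht.2.trans_lt hmb⟩) ?_ ?_ ?_ hB0
    · intro t _
      exact ((hasDerivAt_id t).sub_const a).const_mul _
    · intro t ht
      rw [mul_one]
      exact hDa' t ht
    · intro t ht
      have hta : 0 < t - a := by have := ht.1; linarith
      positivity
  have hmm : m ∈ Ioc a m := ⟨ham, le_rfl⟩
  -- the right half: `D`
  have hDb : ∀ z ∈ Ico m b, ‖D z‖ ≤ Q₂ * K + 2 * Q₃ * K * (√(b - z))⁻¹ := by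
    intro z hz
    have h3 := cmp (f := D) (f' := fun z => F z / ((h z : ℂ) * ((√(h z) : ℝ) : ℂ)))
      (G := fun t => 2 * Q₃ * K * (√(b - t))⁻¹)
      (G' := fun t => 2 * Q₃ * K * (-((-1) / (2 * √(b - t))) / √(b - t) ^ 2)) hz.1
      (fun t ht => hD t ⟨ham.trans_le ht.1, ht.2.trans_lt hz.2⟩) ?_ ?_
    · have h4 := hDa' m hmm
      have h5 : 0 ≤ 2 * Q₃ * K * (√(b - m))⁻¹ := by positivity
      linarith
    · intro t ht
      have hbt : 0 < b - t := by have := ht.2.trans_lt hz.2; linarith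
      have h6 : HasDerivAt (fun t : ℝ => b - t) (-1) t := (hasDerivAt_id t).const_sub b
      have h7 := (h6.sqrt hbt.ne').inv (Real.sqrt_pos.mpr hbt).ne'
      exact h7.const_mul _
    · intro t ht
      have htm : t ∈ Ico m b := ⟨ht.1, ht.2.trans_lt hz.2⟩
      have hbt : 0 < b - t := by have := ht.2.trans_lt hz.2; linarith
      have hht : 0 < h t := lt_of_lt_of_le (by positivity) (h2 t htm)
      have hr : 0 < √(h t) := Real.sqrt_pos.mpr hht
      have hr2 : k * √(b - t) ≤ √(h t) := by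
        rw [hk, ← Real.sqrt_mul hc.le]
        exact Real.sqrt_le_sqrt (h2 t htm)
      have hst : 0 < √(b - t) := Real.sqrt_pos.mpr hbt
      have hst2 : √(b - t) ^ 2 = b - t := Real.sq_sqrt hbt.le
      rw [norm_div, norm_mul, Complex.norm_real, Complex.norm_real, Real.norm_of_nonneg hht.le,
        Real.norm_of_nonneg hr.le]
      calc ‖F t‖ / (h t * √(h t)) ≤ K / (h t * √(h t)) := by
            gcongr
            exact hF2 t ⟨ham.trans_le ht.1, htm.2⟩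
        _ ≤ K / (c * (b - t) * (k * √(b - t))) := by
            gcongr
            exact h2 t htm
        _ = 2 * Q₃ * K * (-((-1) / (2 * √(b - t))) / √(b - t) ^ 2) := by
            rw [hst2, hQ₃]
            field_simp
  have hDb' : ∀ z ∈ Ico m b, √(b - z) * ‖D z‖ ≤ Q₄ * K := by
    intro z hz
    have hbz : 0 < b - z := by have := hz.2; linarith
    have hst : 0 < √(b - z) := Real.sqrt_pos.mpr hbz
    have h3 : √(b - z) ≤ s := Real.sqrt_le_sqrt (by have := hz.1; linarith)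
    calc √(b - z) * ‖D z‖ ≤ √(b - z) * (Q₂ * K + 2 * Q₃ * K * (√(b - z))⁻¹) := by
          gcongr
          exact hDb z hz
      _ = √(b - z) * (Q₂ * K) + 2 * Q₃ * K := by
          field_simp
      _ ≤ s * (Q₂ * K) + 2 * Q₃ * K := by gcongr
      _ = Q₄ * K := by rw [hQ₄]; ring
  have hBb : ∀ z ∈ Ico m b, ‖B z‖ ≤ Q₅ * K := by
    intro z hz
    have h3 := cmp (f := B) (f' := D)
      (G := fun t => -(2 * Q₄ * K) * √(b - t))
      (G' := fun t => -(2 * Q₄ * K) * ((-1) / (2 * √(b - t)))) hz.1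
      (fun t ht => hB t ⟨ham.trans_le ht.1, ht.2.trans_lt hz.2⟩) ?_ ?_
    · have h4 := hBa m hmm
      have h5 : √(b - m) ≤ s := Real.sqrt_le_sqrt (by linarith)
      have h6 : 0 ≤ 2 * Q₄ * K * √(b - z) := by positivity
      have h7 : 2 * Q₄ * K * √(b - m) ≤ 2 * Q₄ * K * s := by gcongr
      have h8 : Q₂ * K * (m - a) ≤ Q₂ * K * (b - a) := by gcongr
      have h9 : Q₅ * K = Q₂ * K * (b - a) + 2 * Q₄ * K * s := by rw [hQ₅]; ring
      linarith
    · intro t ht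
      have hbt : 0 < b - t := by have := ht.2.trans_lt hz.2; linarith
      have h6 : HasDerivAt (fun t : ℝ => b - t) (-1) t := (hasDerivAt_id t).const_sub b
      exact (h6.sqrt hbt.ne').const_mul _
    · intro t ht
      have htm : t ∈ Ico m b := ⟨ht.1, ht.2.trans_lt hz.2⟩
      have hbt : 0 < b - t := by have := ht.2.trans_lt hz.2; linarith
      have hst : 0 < √(b - t) := Real.sqrt_pos.mpr hbt
      have h4 := hDb' t htm
      have h5 : ‖D t‖ ≤ Q₄ * K / √(b - t) := by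
        rw [le_div_iff₀ hst]
        linarith
      calc ‖D t‖ ≤ Q₄ * K / √(b - t) := h5
        _ = -(2 * Q₄ * K) * ((-1) / (2 * √(b - t))) := by field_simp
  intro z hz
  rcases le_or_gt z m with hzm | hzm
  · have hz' : z ∈ Ioc a m := ⟨hz.1, hzm⟩
    constructor
    · have h3 := hBa z hz'
      have h4 : Q₂ * K * (z - a) ≤ Q₂ * K * (b - a) := by
        have := hz.2
        gcongr
      have h5 : 0 ≤ 2 * Q₄ * s * K := by positivity
      have h6 : 0 ≤ Q₄ * K := by positivity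
      have h7 : (Q₄ + Q₅) * K = Q₄ * K + Q₂ * K * (b - a) + 2 * Q₄ * s * K := by rw [hQ₅]; ring
      linarith
    · have h3 := hDa' z hz'
      have h4 : √(b - z) ≤ s := Real.sqrt_le_sqrt (by have := hz.1; linarith)
      have h5 : √(b - z) * ‖D z‖ ≤ s * (Q₂ * K) := by gcongr
      have h6 : 0 ≤ Q₅ * K := by positivity
      have h7 : 0 ≤ 2 * Q₃ * K := by positivity
      have h8 : (Q₄ + Q₅) * K = s * (Q₂ * K) + 2 * Q₃ * K + Q₅ * K := by rw [hQ₄]; ring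
      linarith
  · have hz' : z ∈ Ico m b := ⟨hzm.le, hz.2⟩
    have h3 := hBb z hz'
    have h4 := hDb' z hz'
    have h5 : 0 ≤ Q₅ * K := by positivity
    have h6 : 0 ≤ Q₄ * K := by positivity
    constructor <;> linarith [add_mul Q₄ Q₅ K]

/-- the bounds for `h` -/
theorem hbd {h : ℝ → ℝ} {a p q b : ℝ} (hD : Dumb h a p q b) :
    ∃ c C : ℝ, 0 < c ∧ 0 < C ∧ (∀ z ∈ Ioc a ((a + b) / 2), c * (z - a) ≤ h z) ∧
      (∀ z ∈ Ico ((a + b) / 2) b, c * (b - z) ≤ h z) ∧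
      ∀ z ∈ Icc a b, h z ≤ C * (b - z) ∧ h z ≤ C ∧ |deriv h z| ≤ C ∧ |W h z| ≤ C := by
  have hab : a < b := hD.ap.trans (hD.pq.trans hD.qb)
  have hcont : Continuous h := hD.smooth.continuous
  have hdiff : Differentiable ℝ h := hD.smooth.differentiable (by simp)
  have hc1 : Continuous (deriv h) := hD.smooth.continuous_deriv (by simp)
  have hc2 : Continuous (deriv (deriv h)) := by
    have h3 : ContDiff ℝ ∞ (deriv h) := (contDiff_infty_iff_deriv.mp hD.smooth).2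
    exact h3.continuous_deriv (by simp)
  have hda : Continuous (dslope h a) := by
    rw [← continuousOn_univ]
    exact (continuousOn_dslope univ_mem).mpr ⟨hcont.continuousOn, hdiff a⟩
  have hdb : Continuous (dslope h b) := by
    rw [← continuousOn_univ]
    exact (continuousOn_dslope univ_mem).mpr ⟨hcont.continuousOn, hdiff b⟩
  have hsa : ∀ z, a < z → dslope h a z = h z / (z - a) := by
    intro z hz
    rw [dslope_of_ne _ hz.ne', slope_def_field, hD.ha, sub_zero]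
  have hsb : ∀ z, z < b → dslope h b z = -(h z / (b - z)) := by
    intro z hz
    rw [dslope_of_ne _ hz.ne, slope_def_field, hD.hb, sub_zero, ← neg_sub b z, div_neg]
  obtain ⟨z₁, hz₁, hmin₁⟩ := (isCompact_Icc (a := a) (b := (a + b) / 2)).exists_isMinOn
    ⟨a, ⟨le_rfl, by linarith⟩⟩ hda.continuousOn
  obtain ⟨z₂, hz₂, hmax₂⟩ := (isCompact_Icc (a := (a + b) / 2) (b := b)).exists_isMaxOn
    ⟨b, ⟨by linarith, le_rfl⟩⟩ hdb.continuousOn
  have hpos₁ : 0 < dslope h a z₁ := by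
    rcases eq_or_lt_of_le hz₁.1 with h3 | h3
    · rw [← h3, dslope_same]
      exact hD.da
    · rw [hsa z₁ h3]
      exact div_pos (hD.pos z₁ h3 (by have := hz₁.2; linarith)) (by linarith)
  have hneg₂ : dslope h b z₂ < 0 := by
    rcases eq_or_lt_of_le hz₂.2 with h3 | h3
    · rw [h3, dslope_same]
      exact hD.db
    · rw [hsb z₂ h3]
      exact neg_neg_of_pos (div_pos (hD.pos z₂ (by have := hz₂.1; linarith) h3) (by linarith))
  have hbound : ∀ g : ℝ → ℝ, Continuous g → ∃ T : ℝ, ∀ z ∈ Icc a b, |g z| ≤ T := by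
    intro g hg
    obtain ⟨T, hT⟩ := (isCompact_Icc (a := a) (b := b)).exists_bound_of_continuousOn hg.continuousOn
    exact ⟨T, fun z hz => hT z hz⟩
  obtain ⟨T₁, hT₁⟩ := hbound _ hdb
  obtain ⟨T₂, hT₂⟩ := hbound _ hcont
  obtain ⟨T₃, hT₃⟩ := hbound _ hc1
  obtain ⟨T₄, hT₄⟩ := hbound (W h) (by
    unfold W
    exact ((hc1.pow 2).div_const 4).sub ((hcont.mul hc2).div_const 2))
  refine ⟨min (dslope h a z₁) (-dslope h b z₂), |T₁| + |T₂| + |T₃| + |T₄| + 1, lt_min hpos₁ (by linarith),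
    by positivity, ?_, ?_, ?_⟩
  · intro z hz
    have hza : 0 < z - a := by have := hz.1; linarith
    have h3 : dslope h a z₁ ≤ dslope h a z := hmin₁ ⟨hz.1.le, hz.2⟩
    rw [hsa z hz.1, le_div_iff₀ hza] at h3
    refine le_trans ?_ h3
    gcongr
    exact min_le_left _ _
  · intro z hz
    have hbz : 0 < b - z := by have := hz.2; linarith
    have h3 : dslope h b z ≤ dslope h b z₂ := hmax₂ ⟨hz.1, hz.2.le⟩
    rw [hsb z hz.2] at h3
    have h4 : -dslope h b z₂ ≤ h z / (b - z) := by linarith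
    rw [le_div_iff₀ hbz] at h4
    refine le_trans ?_ h4
    gcongr
    exact min_le_right _ _
  · intro z hz
    have hT1 := le_abs_self T₁
    have hT2 := le_abs_self T₂
    have hT3 := le_abs_self T₃
    have hT4 := le_abs_self T₄
    have p1 := abs_nonneg T₁
    have p2 := abs_nonneg T₂
    have p3 := abs_nonneg T₃
    have p4 := abs_nonneg T₄
    refine ⟨?_, ?_, ?_, ?_⟩
    · rcases eq_or_lt_of_le hz.2 with h3 | h3
      · rw [h3, hD.hb, sub_self, mul_zero]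
      · have hbz : 0 < b - z := by linarith
        have h4 := hT₁ z hz
        rw [hsb z h3, abs_neg] at h4
        have h5 := (le_abs_self _).trans h4
        rw [div_le_iff₀ hbz] at h5
        refine h5.trans ?_
        gcongr
        linarith
    · have h4 := (le_abs_self _).trans (hT₂ z hz)
      linarith
    · have h4 := hT₃ z hz
      linarith
    · have h4 := hT₄ z hz
      linarith

theorem alg (R h1 h2 y v F : ℂ) (hR : R ≠ 0) :
    (-(h1 / (2 * R)) / R ^ 2) * (v + h1 / 2 * y) + R⁻¹ * (((h1 ^ 2 / 4 - R ^ 2 * h2 / 2) * y + F) / R ^ 2 +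
      (h2 / 2 * y + h1 / 2 * (v / R ^ 2))) = F / (R ^ 2 * R) := by
  field_simp
  ring

/-- the derivative of `D = B'` -/
theorem derD {h : ℝ → ℝ} {a p q b : ℝ} (hD : Dumb h a p q b) {y v D : ℝ → ℂ} {F : ℝ → ℂ}
    (hDe : ∀ z ∈ Ioo a b, D z = (((√(h z))⁻¹ : ℝ) : ℂ) * (v z + ((deriv h z / 2 : ℝ) : ℂ) * y z))
    (hy : ∀ z ∈ Ioo a b, HasDerivAt y (v z / (h z : ℂ)) z)
    (hv : ∀ z ∈ Ioo a b, HasDerivAt v (((W h z : ℂ) * y z + F z) / (h z : ℂ)) z) :
    ∀ z ∈ Ioo a b, HasDerivAt D (F z / ((h z : ℂ) * ((√(h z) : ℝ) : ℂ))) z := by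
  intro z hz
  have hpos := hD.pos z hz.1 hz.2
  have hr : 0 < √(h z) := Real.sqrt_pos.mpr hpos
  have hd : HasDerivAt h (deriv h z) z := (hD.smooth.differentiable (by simp) z).hasDerivAt
  have hd2 : HasDerivAt (deriv h) (deriv (deriv h) z) z := by
    have h3 : ContDiff ℝ ∞ (deriv h) := (contDiff_infty_iff_deriv.mp hD.smooth).2
    exact (h3.differentiable (by simp) z).hasDerivAt
  have e1 : HasDerivAt (fun z => (√(h z))⁻¹) (-(deriv h z / (2 * √(h z))) / √(h z) ^ 2) z :=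
    (hd.sqrt hpos.ne').inv hr.ne'
  have e2 := e1.ofReal_comp
  have e3 : HasDerivAt (fun z => deriv h z / 2) (deriv (deriv h) z / 2) z := hd2.div_const 2
  have e4 := e3.ofReal_comp
  have e5 := e2.mul ((hv z hz).add (e4.mul (hy z hz)))
  have e6 : HasDerivAt D _ z := e5.congr_of_eventuallyEq
    (by filter_upwards [Ioo_mem_nhds hz.1 hz.2] with t ht using hDe t ht)
  refine e6.congr_deriv ?_
  have hR0 : ((√(h z) : ℝ) : ℂ) ≠ 0 := by exact_mod_cast hr.ne'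
  have hR2 : ((√(h z) : ℝ) : ℂ) ^ 2 = (h z : ℂ) := by
    rw [← Complex.ofReal_pow, Real.sq_sqrt hpos.le]
  have hW : ((W h z : ℝ) : ℂ) = ((deriv h z : ℝ) : ℂ) ^ 2 / 4 - ((√(h z) : ℝ) : ℂ) ^ 2 * ((deriv (deriv h) z : ℝ) : ℂ) / 2 := by
    rw [hR2]
    unfold W
    push_cast
    ring
  have hal := alg ((√(h z) : ℝ) : ℂ) ((deriv h z : ℝ) : ℂ) ((deriv (deriv h) z : ℝ) : ℂ) (y z) (v z) (F z) hR0
  rw [← hW, hR2] at hal
  rw [← hal]
  push_cast
  rw [hR2]
  simp only [Pi.add_apply, Pi.mul_apply]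

end MN1M

open MN1M in
theorem specMN1 (hDUI : SpecDUI) (_hFLE : SpecFLE) (hMEQ : SpecMEQ) (hSQB : SpecSQB) : SpecMN1 := by
  intro h a p q b hD
  obtain ⟨-, -, -, hcf, -⟩ := hDUI
  have hab : a < b := hD.ap.trans (hD.pq.trans hD.qb)
  obtain ⟨c, C, hc, hC, hb1, hb2, hb3⟩ := hbd hD
  obtain ⟨S, hS, hsq⟩ := hSQB h a p q b hD
  obtain ⟨Q, hQ, hcore⟩ := core (h := h) (a := a) (m := (a + b) / 2) (b := b) (c := c) (by linarith)
    (by linarith) hc hb1 hb2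
  -- the constants
  set K₀ : ℝ := S * (2 + C) with hK₀
  set T : ℝ := (√C / 2 * S + Q * K₀) + Q * K₀ + (√C * (Q * K₀) + S + C * S) + 1 with hT
  have hT0 : 0 < T := by positivity
  refine ⟨T * (b - a) ^ (1 / 40 : ℝ), 0, by have : 0 < b - a := by linarith
                                            positivity, ?_⟩
  intro U N M hU hI hSz n hn z hz
  have hn1 : (n : ℂ) ^ 2 = 1 := by
    have h3 : n = 1 ∨ n = -1 := Int.natAbs_eq_iff.mp hn |>.imp (by simp) (by simp)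
    rcases h3 with rfl | rfl <;> norm_num
  have hnn : ‖(n : ℂ)‖ = 1 := by
    have h3 : ‖(n : ℂ)‖ ^ 2 = 1 := by rw [← norm_pow, hn1, norm_one]
    nlinarith [norm_nonneg (n : ℂ)]
  have hN := hSz.n0
  -- the modes
  have hcfh : ∀ (φ : ℝ → ℝ → ℝ) (z T : ℝ), 0 < h z → (∀ θ, |h z * φ z θ| ≤ T) → ‖(h z : ℂ) * cf n φ z‖ ≤ T := by
    intro φ z T hz0 hφ
    have h3 : ‖cf n φ z‖ ≤ T / h z := by
      refine hcf φ n z _ fun θ => ?_
      rw [le_div_iff₀ hz0]
      have h4 := hφ θ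
      rw [abs_mul, abs_of_pos hz0] at h4
      linarith
    rw [norm_mul, Complex.norm_real, Real.norm_of_nonneg hz0.le]
    rw [le_div_iff₀ hz0] at h3
    linarith
  have hIn : ‖Complex.I * (n : ℂ)‖ = 1 := by rw [norm_mul, Complex.norm_I, hnn, one_mul]
  -- bound of the source
  have hFb : ∀ z ∈ Ioo a b, ∀ t : ℝ, 0 ≤ t → (∀ θ, |s1 h U z θ| ≤ S * N ^ 2 * t ∧ |s2 h U z θ| ≤ S * N ^ 2 * t ∧
      |h z * dz (s3 U) z θ| ≤ S * N ^ 2 * t) → ‖Fn h U n z‖ ≤ K₀ * N ^ 2 * t := by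
    intro z hz t ht hb
    have hpos := hD.pos z hz.1 hz.2
    have hW : |W h z| ≤ C := (hb3 z ⟨hz.1.le, hz.2.le⟩).2.2.2
    have f1 : ‖(h z : ℂ) * cf n (dz (s3 U)) z‖ ≤ S * N ^ 2 * t := hcfh _ z _ hpos fun θ => (hb θ).2.2
    have f2 : ‖cf n (s1 h U) z‖ ≤ S * N ^ 2 * t := hcf _ n z _ fun θ => (hb θ).1
    have f3 : ‖cf n (s2 h U) z‖ ≤ S * N ^ 2 * t := hcf _ n z _ fun θ => (hb θ).2.1
    have g2 : ‖Complex.I * n / 2 * cf n (s1 h U) z‖ ≤ S * N ^ 2 * t := by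
      rw [norm_mul, norm_div, hIn, Complex.norm_ofNat]
      linarith [norm_nonneg (cf n (s1 h U) z)]
    have g3 : ‖Complex.I * n / 2 * (W h z : ℂ) * cf n (s2 h U) z‖ ≤ C * (S * N ^ 2 * t) := by
      rw [norm_mul, norm_mul, norm_div, hIn, Complex.norm_ofNat, Complex.norm_real, Real.norm_eq_abs]
      have : 1 / 2 * |W h z| * ‖cf n (s2 h U) z‖ ≤ C * ‖cf n (s2 h U) z‖ := by
        gcongr
        linarith [abs_nonneg (W h z)]
      refine this.trans ?_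
      gcongr
    have f4 : Fn h U n z = -((h z : ℂ) * cf n (dz (s3 U)) z) + Complex.I * n / 2 * cf n (s1 h U) z -
        Complex.I * n / 2 * (W h z : ℂ) * cf n (s2 h U) z := by
      unfold Fn
      ring
    rw [f4]
    refine (norm_sub_le _ _).trans ?_
    have f5 := norm_add_le (-((h z : ℂ) * cf n (dz (s3 U)) z)) (Complex.I * n / 2 * cf n (s1 h U) z)
    rw [norm_neg] at f5
    have f6 : K₀ * N ^ 2 * t = S * N ^ 2 * t + S * N ^ 2 * t + C * (S * N ^ 2 * t) := by rw [hK₀]; ring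
    linarith
  have hF1 : ∀ z ∈ Ioc a ((a + b) / 2), ‖Fn h U n z‖ ≤ K₀ * N ^ 2 * h z := by
    intro z hz
    have hz' : z ∈ Ioo a b := ⟨hz.1, by have := hz.2; linarith⟩
    refine hFb z hz' (h z) (hD.pos z hz'.1 hz'.2).le fun θ => ?_
    have h3 := (hsq U N M hU hSz z hz' θ).2 hz.2
    exact ⟨h3.1, h3.2.1, h3.2.2.2.1⟩
  have hF2 : ∀ z ∈ Ioo a b, ‖Fn h U n z‖ ≤ K₀ * N ^ 2 := by
    intro z hz
    have h4 := hFb z hz 1 zero_le_one fun θ => by
      have h3 := (hsq U N M hU hSz z hz θ).1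
      rw [mul_one]
      exact ⟨h3.1, h3.2.1, h3.2.2.2.1⟩
    rwa [mul_one] at h4
  -- `D`
  have hDe : ∀ z ∈ Ioo a b, cf n (dz (cB U)) z =
      (((√(h z))⁻¹ : ℝ) : ℂ) * (vn h U n z + ((deriv h z / 2 : ℝ) : ℂ) * yn h U n z) := by
    intro z hz
    have hpos := hD.pos z hz.1 hz.2
    have hr : 0 < √(h z) := Real.sqrt_pos.mpr hpos
    have hR0 : ((√(h z) : ℝ) : ℂ) ≠ 0 := by exact_mod_cast hr.ne'
    unfold vn yn
    push_cast
    field_simp
    ring
  have hDer := derD hD (y := yn h U n) (v := vn h U n) (D := cf n (dz (cB U))) (F := Fn h U n) hDe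
    (fun z hz => (hMEQ h a p q b hD U hU hI n z hz).2.2.1)
    (fun z hz => by
      have h3 := (hMEQ h a p q b hD U hU hI n z hz).2.2.2.1
      rwa [hn1, one_mul] at h3)
  have hBder : ∀ z ∈ Ioo a b, HasDerivAt (cf n (cB U)) (cf n (dz (cB U)) z) z :=
    fun z hz => (hMEQ h a p q b hD U hU hI n z hz).2.2.2.2.1
  -- `r D`
  have hrD : ∀ z ∈ Ioo a b, ((√(h z) : ℝ) : ℂ) * cf n (dz (cB U)) z = -cf n (s3 U) z +
      Complex.I * n / 4 * ((deriv h z : ℝ) : ℂ) * cf n (s2 h U) z - Complex.I * n * cf n (cw U) z := by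
    intro z hz
    have hpos := hD.pos z hz.1 hz.2
    have hr : 0 < √(h z) := Real.sqrt_pos.mpr hpos
    have hR0 : ((√(h z) : ℝ) : ℂ) ≠ 0 := by exact_mod_cast hr.ne'
    have h3 := (hMEQ h a p q b hD U hU hI n z hz).2.1
    rw [hn1, one_mul] at h3
    rw [hDe z hz, h3]
    push_cast
    rw [← mul_assoc, mul_inv_cancel₀ hR0, one_mul]
    ring
  -- components
  have hcomp : ∀ (x : E3) (i : Fin 3), |x i| ≤ ‖x‖ := fun x i => PiLp.norm_apply_le x i
  have hlowB : ∀ z ∈ Ioc a ((a + b) / 2), ‖cf n (cB U) z‖ ≤ 2 * N * h z := by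
    intro z hz
    have hz' : z ∈ Ioo a b := ⟨hz.1, by have := hz.2; linarith⟩
    refine hcf _ n z _ fun θ => ?_
    have h3 := (hSz.low z hz' hz.2 θ).1
    unfold cB
    have h4 : |-Real.sin θ * U z θ 0| ≤ ‖U z θ‖ := by
      rw [abs_mul, abs_neg]
      calc |Real.sin θ| * |U z θ 0| ≤ 1 * ‖U z θ‖ := by
            gcongr
            · exact Real.abs_sin_le_one θ
            · exact hcomp _ _
        _ = ‖U z θ‖ := one_mul _
    have h5 : |Real.cos θ * U z θ 1| ≤ ‖U z θ‖ := by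
      rw [abs_mul]
      calc |Real.cos θ| * |U z θ 1| ≤ 1 * ‖U z θ‖ := by
            gcongr
            · exact Real.abs_cos_le_one θ
            · exact hcomp _ _
        _ = ‖U z θ‖ := one_mul _
    have h6 := abs_add_le (-Real.sin θ * U z θ 0) (Real.cos θ * U z θ 1)
    linarith
  have hlowW : ∀ z ∈ Ioc a ((a + b) / 2), ‖cf n (cw U) z‖ ≤ N * h z := by
    intro z hz
    have hz' : z ∈ Ioo a b := ⟨hz.1, by have := hz.2; linarith⟩
    refine hcf _ n z _ fun θ => ?_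
    exact (hcomp _ _).trans (hSz.low z hz' hz.2 θ).1
  have hmem : ∀ᶠ z in 𝓝[>] a, z ∈ Ioc a ((a + b) / 2) := by
    filter_upwards [Ioo_mem_nhdsGT (show a < (a + b) / 2 by linarith)] with z hz
    exact ⟨hz.1, hz.2.le⟩
  have hh0 : Tendsto h (𝓝[>] a) (𝓝 0) := by
    have h3 : Tendsto h (𝓝 a) (𝓝 (h a)) := hD.smooth.continuous.tendsto a
    rw [hD.ha] at h3
    exact h3.mono_left nhdsWithin_le_nhds
  have hB0 : Tendsto (fun t => ‖cf n (cB U) t‖) (𝓝[>] a) (𝓝 0) := by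
    have h3 : Tendsto (fun z => 2 * N * h z) (𝓝[>] a) (𝓝 0) := by
      simpa using hh0.const_mul (2 * N)
    refine squeeze_zero' (Eventually.of_forall fun t => norm_nonneg _) ?_ h3
    filter_upwards [hmem] with z hz using hlowB z hz
  have hcoef : ∀ z ∈ Ioo a b, ∀ t : ℝ, 0 ≤ t → ‖cf n (s2 h U) z‖ ≤ t →
      ‖Complex.I * n / 4 * ((deriv h z : ℝ) : ℂ) * cf n (s2 h U) z‖ ≤ C * t := by
    intro z hz t _ ht
    have h3 := (hb3 z ⟨hz.1.le, hz.2.le⟩).2.2.1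
    rw [norm_mul, norm_mul, norm_div, hIn, Complex.norm_ofNat, Complex.norm_real, Real.norm_eq_abs]
    gcongr
    linarith [abs_nonneg (deriv h z)]
  have hD0 : Tendsto (fun t => ‖cf n (dz (cB U)) t‖) (𝓝[>] a) (𝓝 0) := by
    have h3 : Tendsto (fun z => (S * N ^ 2 + C * (S * N ^ 2) + N) * √(h z)) (𝓝[>] a) (𝓝 0) := by
      have h4 : Tendsto (fun z => √(h z)) (𝓝[>] a) (𝓝 0) := by
        have h5 := (Real.continuous_sqrt.tendsto 0).comp hh0
        rwa [Real.sqrt_zero] at h5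
      simpa using h4.const_mul (S * N ^ 2 + C * (S * N ^ 2) + N)
    refine squeeze_zero' (Eventually.of_forall fun t => norm_nonneg _) ?_ h3
    filter_upwards [hmem] with z hz
    have hz' : z ∈ Ioo a b := ⟨hz.1, by have := hz.2; linarith⟩
    have hpos := hD.pos z hz'.1 hz'.2
    have hr : 0 < √(h z) := Real.sqrt_pos.mpr hpos
    have hrr : √(h z) * √(h z) = h z := Real.mul_self_sqrt hpos.le
    have k3 : ‖cf n (s3 U) z‖ ≤ S * N ^ 2 * h z :=
      hcf _ n z _ fun θ => ((hsq U N M hU hSz z hz' θ).2 hz.2).2.2.1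
    have k2 : ‖cf n (s2 h U) z‖ ≤ S * N ^ 2 * h z :=
      hcf _ n z _ fun θ => ((hsq U N M hU hSz z hz' θ).2 hz.2).2.1
    have k4 := hcoef z hz' _ (by positivity) k2
    have k5 : ‖Complex.I * n * cf n (cw U) z‖ ≤ N * h z := by
      rw [norm_mul, hIn, one_mul]
      exact hlowW z hz
    have k6 : √(h z) * ‖cf n (dz (cB U)) z‖ ≤ (S * N ^ 2 + C * (S * N ^ 2) + N) * h z := by
      have k7 : √(h z) * ‖cf n (dz (cB U)) z‖ = ‖((√(h z) : ℝ) : ℂ) * cf n (dz (cB U)) z‖ := by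
        rw [norm_mul, Complex.norm_real, Real.norm_of_nonneg hr.le]
      rw [k7, hrD z hz']
      refine (norm_sub_le _ _).trans ?_
      have k8 := norm_add_le (-cf n (s3 U) z) (Complex.I * n / 4 * ((deriv h z : ℝ) : ℂ) * cf n (s2 h U) z)
      rw [norm_neg] at k8
      linarith
    have k9 : ‖cf n (dz (cB U)) z‖ * √(h z) ≤ (S * N ^ 2 + C * (S * N ^ 2) + N) * √(h z) * √(h z) := by
      rw [mul_assoc _ (√(h z)) (√(h z)), hrr]
      linarith
    exact le_of_mul_le_mul_right k9 hr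
  have hK : 0 ≤ K₀ * N ^ 2 := by positivity
  obtain ⟨hBz, hDz⟩ := hcore (cf n (dz (cB U))) (cf n (cB U)) (Fn h U n) (K₀ * N ^ 2) hK hDer hBder hF1 hF2 hD0 hB0 z hz
  -- the end
  have hpos := hD.pos z hz.1 hz.2
  have hr : 0 < √(h z) := Real.sqrt_pos.mpr hpos
  have hbz : 0 < b - z := by have := hz.2; linarith
  obtain ⟨u1, u2, u3, u4⟩ := hb3 z ⟨hz.1.le, hz.2.le⟩
  have k3 : ‖cf n (s3 U) z‖ ≤ S * N ^ 2 := hcf _ n z _ fun θ => (hsq U N M hU hSz z hz θ).1.2.2.1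
  have k2 : ‖cf n (s2 h U) z‖ ≤ S * N ^ 2 := hcf _ n z _ fun θ => (hsq U N M hU hSz z hz θ).1.2.1
  have hrC : √(h z) ≤ √C := Real.sqrt_le_sqrt u2
  have hrC' : √(h z) ≤ √C * √(b - z) := by
    rw [← Real.sqrt_mul hC.le]
    exact Real.sqrt_le_sqrt u1
  have hA : ‖cf n (cA U) z‖ ≤ (√C / 2 * S + Q * K₀) * N ^ 2 := by
    rw [(hMEQ h a p q b hD U hU hI n z hz).1]
    refine (norm_sub_le _ _).trans ?_
    rw [norm_neg, norm_mul, norm_div, Complex.norm_real, Real.norm_of_nonneg hr.le, Complex.norm_ofNat,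
      norm_mul, hIn, one_mul]
    have k7 : √(h z) / 2 * ‖cf n (s2 h U) z‖ ≤ √C / 2 * (S * N ^ 2) := by gcongr
    have k8 : (√C / 2 * S + Q * K₀) * N ^ 2 = √C / 2 * (S * N ^ 2) + Q * (K₀ * N ^ 2) := by ring
    linarith
  have hB' : ‖cf n (cB U) z‖ ≤ Q * K₀ * N ^ 2 := by
    rw [mul_assoc]
    exact hBz
  have hw : ‖cf n (cw U) z‖ ≤ (√C * (Q * K₀) + S + C * S) * N ^ 2 := by
    have k4 := hcoef z hz _ (by positivity) k2
    have k5 : Complex.I * n * cf n (cw U) z = -cf n (s3 U) z +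
        Complex.I * n / 4 * ((deriv h z : ℝ) : ℂ) * cf n (s2 h U) z - ((√(h z) : ℝ) : ℂ) * cf n (dz (cB U)) z := by
      rw [hrD z hz]
      ring
    have k6 : ‖cf n (cw U) z‖ = ‖Complex.I * n * cf n (cw U) z‖ := by rw [norm_mul, hIn, one_mul]
    rw [k6, k5]
    refine (norm_sub_le _ _).trans ?_
    have k8 := norm_add_le (-cf n (s3 U) z) (Complex.I * n / 4 * ((deriv h z : ℝ) : ℂ) * cf n (s2 h U) z)
    rw [norm_neg] at k8
    have k9 : ‖((√(h z) : ℝ) : ℂ) * cf n (dz (cB U)) z‖ ≤ √C * (Q * (K₀ * N ^ 2)) := by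
      rw [norm_mul, Complex.norm_real, Real.norm_of_nonneg hr.le]
      calc √(h z) * ‖cf n (dz (cB U)) z‖ ≤ √C * √(b - z) * ‖cf n (dz (cB U)) z‖ := by gcongr
        _ = √C * (√(b - z) * ‖cf n (dz (cB U)) z‖) := by ring
        _ ≤ √C * (Q * (K₀ * N ^ 2)) := by gcongr
    have k10 : (√C * (Q * K₀) + S + C * S) * N ^ 2 = √C * (Q * (K₀ * N ^ 2)) + S * N ^ 2 + C * (S * N ^ 2) := by ring
    linarith
  have hsum : ‖cf n (cA U) z‖ + ‖cf n (cB U) z‖ + ‖cf n (cw U) z‖ ≤ T * N ^ 2 := by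
    have k11 : T * N ^ 2 = (√C / 2 * S + Q * K₀) * N ^ 2 + Q * K₀ * N ^ 2 + (√C * (Q * K₀) + S + C * S) * N ^ 2 + N ^ 2 := by
      rw [hT]; ring
    have k12 : 0 ≤ N ^ 2 := by positivity
    linarith
  have hpw : 1 ≤ (b - a) ^ (1 / 40 : ℝ) * (b - z) ^ (-(1 / 40 : ℝ)) := by
    rw [Real.rpow_neg hbz.le, ← div_eq_mul_inv, one_le_div (Real.rpow_pos_of_pos hbz _)]
    exact Real.rpow_le_rpow hbz.le (by have := hz.1; linarith) (by norm_num)
  calc ‖cf n (cA U) z‖ + ‖cf n (cB U) z‖ + ‖cf n (cw U) z‖ ≤ T * N ^ 2 * 1 := by rw [mul_one]; exact hsum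
    _ ≤ T * N ^ 2 * ((b - a) ^ (1 / 40 : ℝ) * (b - z) ^ (-(1 / 40 : ℝ))) := by gcongr
    _ = T * (b - a) ^ (1 / 40 : ℝ) * ((n.natAbs : ℝ) + 1) ^ 0 * N ^ 2 * (b - z) ^ (-(1 / 40 : ℝ)) := by
        rw [pow_zero]; ring

end

end Pool.Agent.Lib.MP478c11.DB
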