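import Pool.Agent.Lib.MP_478c11_gt.DB.Geo

/-!
# Module MN2 (MP_478c11_gt, db): the modes `|n| ≥ 2` (helper10)
-/

set_option autoImplicit false

namespace Pool.Agent.Lib.MP478c11.DB

open Set Filter Topology MeasureTheory
open scoped ContDiff InnerProductSpace

noncomputable section

namespace MN2M

theorem apply_le (x : E3) (i : Fin 3) : |x i| ≤ ‖x‖ := by
  have := PiLp.norm_apply_le x i
  simpa using this

theorem rot_le (x : E3) (θ : ℝ) : |-Real.sin θ * x 0 + Real.cos θ * x 1| ≤ 2 * ‖x‖ := by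
  have h1 := apply_le x 0
  have h2 := apply_le x 1
  have hn := norm_nonneg x
  have h3 : |-Real.sin θ * x 0| ≤ ‖x‖ := by
    rw [abs_mul, abs_neg]
    have := mul_le_mul (Real.abs_sin_le_one θ) h1 (abs_nonneg _) zero_le_one
    linarith
  have h4 : |Real.cos θ * x 1| ≤ ‖x‖ := by
    rw [abs_mul]
    have := mul_le_mul (Real.abs_cos_le_one θ) h2 (abs_nonneg _) zero_le_one
    linarith
  have := abs_add_le (-Real.sin θ * x 0) (Real.cos θ * x 1)
  linarith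

theorem bdd {g : ℝ → ℝ} (hg : Continuous g) (a b : ℝ) : ∃ K : ℝ, 0 ≤ K ∧ ∀ z ∈ Icc a b, |g z| ≤ K := by
  obtain ⟨K, hK⟩ := isCompact_Icc.exists_bound_of_continuousOn (s := Icc a b) hg.continuousOn
  refine ⟨|K|, abs_nonneg K, fun z hz => ?_⟩
  have := hK z hz
  rw [Real.norm_eq_abs] at this
  exact this.trans (le_abs_self K)

theorem re_deriv {f : ℝ → ℂ} {f' : ℂ} {z : ℝ} (h : HasDerivAt f f' z) :
    HasDerivAt (fun x => (f x).re) f'.re z :=
  Complex.reCLM.hasFDerivAt.comp_hasDerivAt z h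

theorem im_deriv {f : ℝ → ℂ} {f' : ℂ} {z : ℝ} (h : HasDerivAt f f' z) :
    HasDerivAt (fun x => (f x).im) f'.im z :=
  Complex.imCLM.hasFDerivAt.comp_hasDerivAt z h

theorem fld_const (a b c : ℝ) : Fld a b (fun _ _ => c) :=
  ⟨contDiffOn_const, fun _ _ => rfl⟩

theorem cf_const (hDUI : SpecDUI) {a b z : ℝ} (hz : z ∈ Ioo a b) (c : ℝ) {k : ℤ} (hk : k ≠ 0) :
    cf k (fun _ _ => c) z = 0 := by
  have h1 := (hDUI.1 a b (fun _ _ => c) k (fld_const a b c) z hz).2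
  have h2 : dt (fun _ _ : ℝ => c) = fun _ _ => (0 : ℝ) := by
    funext x y
    simp [dt]
  rw [h2] at h1
  have h3 : cf k (fun _ _ => (0 : ℝ)) z = 0 := by simp [cf]
  rw [h3] at h1
  have h4 : Complex.I * (k : ℂ) ≠ 0 := mul_ne_zero Complex.I_ne_zero (Int.cast_ne_zero.2 hk)
  rcases mul_eq_zero.1 h1.symm with h5 | h5
  · exact absurd h5 h4
  · exact h5

theorem cf_shift (hDUI : SpecDUI) {a b z : ℝ} (hz : z ∈ Ioo a b) {U : ℝ → ℝ → E3}
    (hB : Fld a b (cB U)) (c : E3) {n : ℤ} (hn : 2 ≤ n.natAbs) :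
    cf n (cB U) z = cf n (fun z θ => -Real.sin θ * (U z θ - c) 0 + Real.cos θ * (U z θ - c) 1) z := by
  have hs : Fld a b (fun _ θ => Real.sin θ * c 0) :=
    ⟨((Real.contDiff_sin.comp contDiff_snd).mul contDiff_const).contDiffOn,
      fun _ θ => by simp only [Real.sin_add_two_pi]⟩
  have hc : Fld a b (fun _ θ => Real.cos θ * c 1) :=
    ⟨((Real.contDiff_cos.comp contDiff_snd).mul contDiff_const).contDiffOn,
      fun _ θ => by simp only [Real.cos_add_two_pi]⟩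
  have h1 : cf n (fun _ θ => Real.sin θ * c 0) z = 0 := by
    have := ((hDUI.2.2.1 a b (fun _ _ => c 0) n (fld_const a b _) z hz).2)
    rw [this, cf_const hDUI hz _ (by omega), cf_const hDUI hz _ (by omega)]
    simp
  have h2 : cf n (fun _ θ => Real.cos θ * c 1) z = 0 := by
    have := ((hDUI.2.2.1 a b (fun _ _ => c 1) n (fld_const a b _) z hz).1)
    rw [this, cf_const hDUI hz _ (by omega), cf_const hDUI hz _ (by omega)]
    simp
  have hχ : Fld a b (fun z θ => (-1) * (Real.sin θ * c 0) + 1 * (Real.cos θ * c 1)) :=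
    ⟨((contDiff_const.mul ((Real.contDiff_sin.comp contDiff_snd).mul contDiff_const)).add
      (contDiff_const.mul ((Real.contDiff_cos.comp contDiff_snd).mul contDiff_const))).contDiffOn,
      fun _ θ => by simp only [Real.sin_add_two_pi, Real.cos_add_two_pi]⟩
  have h3 := hDUI.2.1 a b _ _ n (-1) 1 hs hc z hz
  rw [h1, h2] at h3
  have h4 := hDUI.2.1 a b _ _ n 1 (-1) hB hχ z hz
  rw [h3] at h4
  have h5 : (fun z θ => 1 * cB U z θ + (-1) * ((-1) * (Real.sin θ * c 0) + 1 * (Real.cos θ * c 1))) =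
      fun z θ => -Real.sin θ * (U z θ - c) 0 + Real.cos θ * (U z θ - c) 1 := by
    funext x y
    simp only [cB, PiLp.sub_apply]
    ring
  rw [h5] at h4
  rw [h4]
  simp

theorem sqrt_le {x K : ℝ} (h : x ≤ K) (hK : 0 ≤ K) : √x ≤ 1 + K := by
  by_cases hx : 0 ≤ x
  · have h1 := Real.sq_sqrt hx
    have h2 := Real.sqrt_nonneg x
    nlinarith [sq_nonneg (√x - 1)]
  · rw [Real.sqrt_eq_zero_of_nonpos (not_le.1 hx).le]
    linarith

/-- the pieces -/
theorem pieces {h' sh k : ℝ} {A B w y v s1 s2 s3 : ℂ} {n : ℂ} {S K1 Y T : ℝ} (hk : 1 ≤ k)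
    (hn : ‖n‖ = k) (hsh : 0 ≤ sh) (hS : sh ≤ S) (hh' : |h'| ≤ K1) (hy : ‖y‖ ≤ Y) (hv : ‖v‖ ≤ Y)
    (hs2 : ‖s2‖ ≤ T) (hs3 : ‖s3‖ ≤ T) (hB : B = sh * y)
    (hA : A = -((sh : ℝ) / 2 * s2) - Complex.I * n * B)
    (hw : v = -s3 + Complex.I * n / 4 * (h' : ℂ) * s2 - n ^ 2 * ((h' / 2 : ℝ) : ℂ) * y -
      Complex.I * n * w) (_h1 : s1 = s1) :
    ‖A‖ + ‖B‖ + ‖w‖ ≤ Y * k * (2 * S + 1 + K1) + T * (S + 1 + K1) := by
  have hY : 0 ≤ Y := (norm_nonneg _).trans hy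
  have hT : 0 ≤ T := (norm_nonneg _).trans hs2
  have hK1 : 0 ≤ K1 := (abs_nonneg _).trans hh'
  have hS0 : 0 ≤ S := hsh.trans hS
  have hB1 : ‖B‖ ≤ S * Y := by
    rw [hB, norm_mul, Complex.norm_real, Real.norm_eq_abs, abs_of_nonneg hsh]
    exact mul_le_mul hS hy (norm_nonneg _) hS0
  have hA1 : ‖A‖ ≤ S / 2 * T + k * (S * Y) := by
    rw [hA]
    refine (norm_sub_le _ _).trans ?_
    rw [norm_neg, norm_mul, norm_mul, norm_mul, Complex.norm_I, one_mul, hn, norm_div,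
      Complex.norm_real, Real.norm_eq_abs, abs_of_nonneg hsh, Complex.norm_ofNat]
    have h1 : sh / 2 * ‖s2‖ ≤ S / 2 * T :=
      mul_le_mul (by linarith) hs2 (norm_nonneg _) (by linarith)
    have h2 : k * ‖B‖ ≤ k * (S * Y) := mul_le_mul_of_nonneg_left hB1 (by linarith)
    linarith
  have hw1 : k * ‖w‖ ≤ Y + T + k / 4 * K1 * T + k ^ 2 * (K1 / 2) * Y := by
    have h1 : Complex.I * n * w = -v - s3 + Complex.I * n / 4 * (h' : ℂ) * s2 -
        n ^ 2 * ((h' / 2 : ℝ) : ℂ) * y := by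
      rw [hw]; ring
    have h2 : k * ‖w‖ = ‖Complex.I * n * w‖ := by
      rw [norm_mul, norm_mul, Complex.norm_I, one_mul, hn]
    rw [h2, h1]
    have h3 : ‖Complex.I * n / 4 * (h' : ℂ) * s2‖ ≤ k / 4 * K1 * T := by
      rw [norm_mul, norm_mul, norm_div, norm_mul, Complex.norm_I, one_mul, hn, Complex.norm_real,
        Real.norm_eq_abs, Complex.norm_ofNat]
      exact mul_le_mul (mul_le_mul_of_nonneg_left hh' (by linarith)) hs2 (norm_nonneg _)
        (mul_nonneg (by linarith) hK1)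
    have h4 : ‖n ^ 2 * ((h' / 2 : ℝ) : ℂ) * y‖ ≤ k ^ 2 * (K1 / 2) * Y := by
      rw [norm_mul, norm_mul, norm_pow, hn, Complex.norm_real, Real.norm_eq_abs, abs_div,
        abs_of_pos (two_pos : (0 : ℝ) < 2)]
      exact mul_le_mul (mul_le_mul_of_nonneg_left (by linarith) (sq_nonneg k)) hy (norm_nonneg _)
        (mul_nonneg (sq_nonneg k) (by linarith))
    calc ‖-v - s3 + Complex.I * n / 4 * (h' : ℂ) * s2 - n ^ 2 * ((h' / 2 : ℝ) : ℂ) * y‖
        ≤ ‖-v - s3 + Complex.I * n / 4 * (h' : ℂ) * s2‖ + ‖n ^ 2 * ((h' / 2 : ℝ) : ℂ) * y‖ :=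
          norm_sub_le _ _
      _ ≤ (‖-v - s3‖ + ‖Complex.I * n / 4 * (h' : ℂ) * s2‖) + ‖n ^ 2 * ((h' / 2 : ℝ) : ℂ) * y‖ := by
          gcongr; exact norm_add_le _ _
      _ ≤ ((‖v‖ + ‖s3‖) + k / 4 * K1 * T) + k ^ 2 * (K1 / 2) * Y := by
          gcongr
          exact (norm_sub_le _ _).trans (by rw [norm_neg])
      _ ≤ _ := by linarith
  have hw2 : ‖w‖ ≤ Y + T + K1 * T + k * K1 * Y := by
    have hk0 : 0 < k := by linarith
    have h1 : k * ‖w‖ ≤ k * (Y + T + K1 * T + k * K1 * Y) := by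
      have e1 : 0 ≤ (k - 1) * (Y + T) := mul_nonneg (by linarith) (by linarith)
      have e2 : 0 ≤ k * (K1 * T) := mul_nonneg hk0.le (mul_nonneg hK1 hT)
      have e3 : 0 ≤ k ^ 2 * (K1 * Y) := mul_nonneg (sq_nonneg k) (mul_nonneg hK1 hY)
      nlinarith
    exact le_of_mul_le_mul_left h1 hk0
  have e1 : 0 ≤ (k - 1) * (S * Y) := mul_nonneg (by linarith) (mul_nonneg hS0 hY)
  have e2 : 0 ≤ (k - 1) * Y := mul_nonneg (by linarith) hY
  have e3 : 0 ≤ S * T := mul_nonneg hS0 hT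
  nlinarith

end MN2M

open MN2M in
theorem specMN2 (hDUI : SpecDUI) (hFLE : SpecFLE) (hMEQ : SpecMEQ) (hSQB : SpecSQB) : SpecMN2 := by
  intro h a p q b hD hEst
  obtain ⟨CE, BE, hCE, hE⟩ := hEst
  obtain ⟨C0, hC0, hSQ⟩ := hSQB h a p q b hD
  have hsm := hD.smooth
  have hd1 : ContDiff ℝ ∞ (deriv h) := (contDiff_infty_iff_deriv.1 hsm).2
  have hd2 : ContDiff ℝ ∞ (deriv (deriv h)) := (contDiff_infty_iff_deriv.1 hd1).2
  have hWc : Continuous (W h) := by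
    have : W h = fun z => deriv h z ^ 2 / 4 - h z * deriv (deriv h) z / 2 := rfl
    rw [this]
    exact ((hd1.continuous.pow 2).div_const 4).sub ((hsm.continuous.mul hd2.continuous).div_const 2)
  obtain ⟨K0, hK0, hh0⟩ := bdd hsm.continuous a b
  obtain ⟨K1, hK1, hh1⟩ := bdd hd1.continuous a b
  obtain ⟨K2, hK2, hh2⟩ := bdd hWc a b
  have hba : 0 < b - a := by linarith [hD.ap, hD.pq, hD.qb]
  have hP : 0 < (b - a) ^ (-(1 / 40 : ℝ)) := Real.rpow_pos_of_pos hba _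
  have hY1 : 0 ≤ 2 * CE * C0 * (K2 + 2) := by positivity
  refine ⟨(2 * CE * C0 * (K2 + 2) * (2 * (1 + K0) + 1 + K1) + C0 * ((1 + K0) + 1 + K1)) /
    (b - a) ^ (-(1 / 40 : ℝ)), BE + 2, by positivity, ?_⟩
  intro U N M hU hIso hSz n hn z hz
  have hn2 : 2 ≤ n.natAbs := hn
  obtain ⟨-, -, -, -, hFB, -, hF1, hF2, hF3, -⟩ := hFLE h a b U hsm (fun z hz => hD.pos z hz.1 hz.2) hU
  set k : ℕ := n.natAbs with hkdef
  have hk1 : (1 : ℝ) ≤ k := by exact_mod_cast (by omega : 1 ≤ k)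
  have hkn : (k : ℝ) = |(n : ℝ)| := by
    rw [hkdef, Nat.cast_natAbs, Int.cast_abs]
  have hnC : ‖(n : ℂ)‖ = k := by
    rw [hkn, Complex.norm_intCast]
  have hk2 : ((k : ℝ)) ^ 2 = (n : ℝ) ^ 2 := by rw [hkn, sq_abs]
  have hcfle := hDUI.2.2.2.1
  have hN2 : 0 ≤ C0 * N ^ 2 := by positivity
  -- the sources
  have hsrc : ∀ z ∈ Ioo a b, ‖cf n (s1 h U) z‖ ≤ C0 * N ^ 2 ∧ ‖cf n (s2 h U) z‖ ≤ C0 * N ^ 2 ∧
      ‖cf n (s3 U) z‖ ≤ C0 * N ^ 2 ∧ ‖(h z : ℂ) * cf n (dz (s3 U)) z‖ ≤ C0 * N ^ 2 := by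
    intro z hz
    have hpos := hD.pos z hz.1 hz.2
    refine ⟨hcfle _ n z _ fun θ => (hSQ U N M hU hSz z hz θ).1.1,
      hcfle _ n z _ fun θ => (hSQ U N M hU hSz z hz θ).1.2.1,
      hcfle _ n z _ fun θ => (hSQ U N M hU hSz z hz θ).1.2.2.1, ?_⟩
    have h1 : ‖cf n (dz (s3 U)) z‖ ≤ C0 * N ^ 2 / h z := by
      refine hcfle _ n z _ fun θ => ?_
      have h2 := (hSQ U N M hU hSz z hz θ).1.2.2.2.1
      rw [abs_mul, abs_of_pos hpos] at h2
      rw [le_div_iff₀ hpos, mul_comm]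
      exact h2
    rw [norm_mul, Complex.norm_real, Real.norm_eq_abs, abs_of_pos hpos]
    calc h z * ‖cf n (dz (s3 U)) z‖ ≤ h z * (C0 * N ^ 2 / h z) := mul_le_mul_of_nonneg_left h1 hpos.le
      _ = C0 * N ^ 2 := by field_simp
  set R : ℝ := C0 * (K2 + 2) * k * N ^ 2 with hR
  have hFn : ∀ z ∈ Ioo a b, ‖Fn h U n z‖ ≤ R := by
    intro z hz
    obtain ⟨g1, g2, g3, g4⟩ := hsrc z hz
    have hW := hh2 z ⟨hz.1.le, hz.2.le⟩
    unfold Fn
    have t1 : ‖-(h z : ℂ) * cf n (dz (s3 U)) z‖ ≤ C0 * N ^ 2 := by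
      rw [neg_mul, norm_neg]; exact g4
    have t2 : ‖Complex.I * n / 2 * cf n (s1 h U) z‖ ≤ k / 2 * (C0 * N ^ 2) := by
      rw [norm_mul, norm_div, norm_mul, Complex.norm_I, one_mul, hnC, Complex.norm_ofNat]
      exact mul_le_mul_of_nonneg_left g1 (by positivity)
    have t3 : ‖Complex.I * n / 2 * (W h z : ℂ) * cf n (s2 h U) z‖ ≤ k / 2 * K2 * (C0 * N ^ 2) := by
      rw [norm_mul, norm_mul, norm_div, norm_mul, Complex.norm_I, one_mul, hnC, Complex.norm_ofNat,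
        Complex.norm_real, Real.norm_eq_abs]
      exact mul_le_mul (mul_le_mul_of_nonneg_left hW (by positivity)) g2 (norm_nonneg _)
        (by positivity)
    have t4 : ‖-(h z : ℂ) * cf n (dz (s3 U)) z + Complex.I * n / 2 * cf n (s1 h U) z -
        Complex.I * n / 2 * (W h z : ℂ) * cf n (s2 h U) z‖ ≤
        C0 * N ^ 2 + k / 2 * (C0 * N ^ 2) + k / 2 * K2 * (C0 * N ^ 2) := by
      refine (norm_sub_le _ _).trans (add_le_add ((norm_add_le _ _).trans (add_le_add t1 t2)) t3)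
    refine t4.trans ?_
    rw [hR]
    have e1 : 0 ≤ ((k : ℝ) - 1) * (C0 * N ^ 2) := mul_nonneg (by linarith) hN2
    have e2 : 0 ≤ (k : ℝ) * K2 * (C0 * N ^ 2) := by positivity
    nlinarith
  -- boundedness of y
  have hybd : ∃ M' : ℝ, ∀ z ∈ Ioo a b, ‖yn h U n z‖ ≤ M' := by
    obtain ⟨c, hc⟩ := hSz.up
    refine ⟨max (2 * N * (1 + K0)) (2 * M), fun z hz => ?_⟩
    have hpos := hD.pos z hz.1 hz.2
    have hs : 0 < √(h z) := Real.sqrt_pos.2 hpos
    unfold yn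
    rw [norm_div, Complex.norm_real, Real.norm_eq_abs, abs_of_pos hs, div_le_iff₀ hs]
    rcases le_total z ((a + b) / 2) with hzm | hzm
    · have h1 : ‖cf n (cB U) z‖ ≤ 2 * (N * h z) := by
        refine hcfle _ n z _ fun θ => ?_
        have h2 := rot_le (U z θ) θ
        have h3 := (hSz.low z hz hzm θ).1
        unfold cB
        linarith
      have h4 : √(h z) ≤ 1 + K0 :=
        sqrt_le ((le_abs_self _).trans (hh0 z ⟨hz.1.le, hz.2.le⟩)) hK0
      have h5 : h z = √(h z) * √(h z) := (Real.mul_self_sqrt hpos.le).symm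
      have h6 : 2 * (N * h z) ≤ 2 * N * (1 + K0) * √(h z) := by
        have h7 : N * (√(h z) * √(h z)) ≤ N * ((1 + K0) * √(h z)) :=
          mul_le_mul_of_nonneg_left (mul_le_mul_of_nonneg_right h4 hs.le) hSz.n0
        calc 2 * (N * h z) = 2 * (N * (√(h z) * √(h z))) := by rw [← h5]
          _ ≤ 2 * (N * ((1 + K0) * √(h z))) := by linarith
          _ = _ := by ring
      calc ‖cf n (cB U) z‖ ≤ 2 * N * (1 + K0) * √(h z) := h1.trans h6
        _ ≤ _ := mul_le_mul_of_nonneg_right (le_max_left _ _) hs.le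
    · have h1 : ‖cf n (cB U) z‖ ≤ 2 * (M * √(h z)) := by
        rw [cf_shift hDUI hz hFB c hn2]
        refine hcfle _ n z _ fun θ => ?_
        have h2 := rot_le (U z θ - c) θ
        have h3 := hc z hz hzm θ
        linarith
      calc ‖cf n (cB U) z‖ ≤ 2 * M * √(h z) := by linarith
        _ ≤ _ := mul_le_mul_of_nonneg_right (le_max_right _ _) hs.le
  obtain ⟨M', hM'⟩ := hybd
  -- the estimate
  have key : ∀ z ∈ Ioo a b, ‖yn h U n z‖ ≤ 2 * (CE * (k : ℝ) ^ BE * R) ∧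
      ‖vn h U n z‖ ≤ 2 * (CE * (k : ℝ) ^ BE * R) := by
    have hre := hE k hn2 (fun z => (Fn h U n z).re) (fun z => (yn h U n z).re)
      (fun z => (vn h U n z).re) R M' (by
        intro z hz
        obtain ⟨-, -, e3, e4, -⟩ := hMEQ h a p q b hD U hU hIso n z hz
        have r3 := re_deriv e3
        have r4 := re_deriv e4
        rw [Complex.div_ofReal_re] at r3 r4
        refine ⟨r3, ?_⟩
        have h1 : ((n : ℂ) ^ 2 * (W h z : ℂ) * yn h U n z + Fn h U n z).re =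
            (k : ℝ) ^ 2 * W h z * (yn h U n z).re + (Fn h U n z).re := by
          have h2 : (n : ℂ) ^ 2 * (W h z : ℂ) = (((n : ℝ) ^ 2 * W h z : ℝ) : ℂ) := by push_cast; ring
          rw [h2, Complex.add_re, Complex.re_ofReal_mul, hk2]
        rw [h1] at r4
        exact r4)
      (fun z hz => ⟨(Complex.abs_re_le_norm _).trans (hFn z hz),
        (Complex.abs_re_le_norm _).trans (hM' z hz)⟩)
    have him := hE k hn2 (fun z => (Fn h U n z).im) (fun z => (yn h U n z).im)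
      (fun z => (vn h U n z).im) R M' (by
        intro z hz
        obtain ⟨-, -, e3, e4, -⟩ := hMEQ h a p q b hD U hU hIso n z hz
        have r3 := im_deriv e3
        have r4 := im_deriv e4
        rw [Complex.div_ofReal_im] at r3 r4
        refine ⟨r3, ?_⟩
        have h1 : ((n : ℂ) ^ 2 * (W h z : ℂ) * yn h U n z + Fn h U n z).im =
            (k : ℝ) ^ 2 * W h z * (yn h U n z).im + (Fn h U n z).im := by
          have h2 : (n : ℂ) ^ 2 * (W h z : ℂ) = (((n : ℝ) ^ 2 * W h z : ℝ) : ℂ) := by push_cast; ring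
          rw [h2, Complex.add_im, Complex.im_ofReal_mul, hk2]
        rw [h1] at r4
        exact r4)
      (fun z hz => ⟨(Complex.abs_im_le_norm _).trans (hFn z hz),
        (Complex.abs_im_le_norm _).trans (hM' z hz)⟩)
    intro z hz
    have h1 := hre z hz
    have h2 := him z hz
    constructor
    · have := Complex.norm_le_abs_re_add_abs_im (yn h U n z)
      linarith [h1.1, h2.1]
    · have := Complex.norm_le_abs_re_add_abs_im (vn h U n z)
      linarith [h1.2, h2.2]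
  obtain ⟨hy, hv⟩ := key z hz
  obtain ⟨g1, g2, g3, g4⟩ := hsrc z hz
  obtain ⟨e1, e2, -⟩ := hMEQ h a p q b hD U hU hIso n z hz
  have hpos := hD.pos z hz.1 hz.2
  have hs : 0 < √(h z) := Real.sqrt_pos.2 hpos
  have hBy : cf n (cB U) z = (√(h z) : ℝ) * yn h U n z := by
    unfold yn
    have : ((√(h z) : ℝ) : ℂ) ≠ 0 := Complex.ofReal_ne_zero.2 hs.ne'
    field_simp
  have hfin := pieces (k := k) (S := 1 + K0) (K1 := K1) (s1 := cf n (s1 h U) z) hk1 hnC hs.le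
    (sqrt_le ((le_abs_self _).trans (hh0 z ⟨hz.1.le, hz.2.le⟩)) hK0)
    (hh1 z ⟨hz.1.le, hz.2.le⟩) hy hv g2 g3 hBy e1 e2 rfl
  refine hfin.trans ?_
  have hκ : (1 : ℝ) ≤ (k : ℝ) + 1 := by linarith
  have hkB : (k : ℝ) ^ BE ≤ ((k : ℝ) + 1) ^ BE := pow_le_pow_left₀ (by linarith) (by linarith) BE
  have hκ0 : 0 ≤ ((k : ℝ) + 1) := by linarith
  have m1 : 2 * (CE * (k : ℝ) ^ BE * R) * k ≤
      2 * CE * C0 * (K2 + 2) * ((k : ℝ) + 1) ^ (BE + 2) * N ^ 2 := by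
    have h1 : 2 * (CE * (k : ℝ) ^ BE * R) * k =
        2 * CE * C0 * (K2 + 2) * N ^ 2 * ((k : ℝ) ^ BE * (k * k)) := by rw [hR]; ring
    have h2 : (k : ℝ) ^ BE * (k * k) ≤ ((k : ℝ) + 1) ^ BE * (((k : ℝ) + 1) * ((k : ℝ) + 1)) := by
      refine mul_le_mul hkB ?_ (by positivity) (by positivity)
      nlinarith
    have h3 : ((k : ℝ) + 1) ^ (BE + 2) = ((k : ℝ) + 1) ^ BE * (((k : ℝ) + 1) * ((k : ℝ) + 1)) := by
      rw [pow_add]; ring
    rw [h1, h3]
    have := mul_le_mul_of_nonneg_left h2 (by positivity : 0 ≤ 2 * CE * C0 * (K2 + 2) * N ^ 2)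
    linarith
  have m2 : C0 * N ^ 2 ≤ C0 * ((k : ℝ) + 1) ^ (BE + 2) * N ^ 2 := by
    have h1 : (1 : ℝ) ≤ ((k : ℝ) + 1) ^ (BE + 2) := one_le_pow₀ hκ
    have := mul_le_mul_of_nonneg_left h1 hN2
    linarith
  have m3 : 1 ≤ (b - z) ^ (-(1 / 40 : ℝ)) / (b - a) ^ (-(1 / 40 : ℝ)) := by
    rw [one_le_div hP]
    exact Real.rpow_le_rpow_of_nonpos (by linarith [hz.2]) (by linarith [hz.1]) (by norm_num)
  have m4 : 2 * (CE * (k : ℝ) ^ BE * R) * k * (2 * (1 + K0) + 1 + K1) +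
      C0 * N ^ 2 * ((1 + K0) + 1 + K1) ≤
      (2 * CE * C0 * (K2 + 2) * (2 * (1 + K0) + 1 + K1) + C0 * ((1 + K0) + 1 + K1)) *
        ((k : ℝ) + 1) ^ (BE + 2) * N ^ 2 := by
    have h1 := mul_le_mul_of_nonneg_right m1 (by positivity : 0 ≤ 2 * (1 + K0) + 1 + K1)
    have h2 := mul_le_mul_of_nonneg_right m2 (by positivity : 0 ≤ (1 + K0) + 1 + K1)
    calc _ ≤ _ := add_le_add h1 h2
      _ = _ := by ring
  refine m4.trans ?_
  have hX : 0 ≤ (2 * CE * C0 * (K2 + 2) * (2 * (1 + K0) + 1 + K1) + C0 * ((1 + K0) + 1 + K1)) *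
        ((k : ℝ) + 1) ^ (BE + 2) * N ^ 2 := by positivity
  have := mul_le_mul_of_nonneg_left m3 hX
  calc _ = _ := (mul_one _).symm
    _ ≤ _ := this
    _ = _ := by ring

end

end Pool.Agent.Lib.MP478c11.DB
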