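import Pool.Agent.Lib.MP_478c11_gt.DB.Geo

/-!
# Module NMB: the bounds for the normalised maps.
-/

set_option autoImplicit false

namespace Pool.Agent.Lib.MP478c11.DB

open Set Filter Topology MeasureTheory
open scoped ContDiff InnerProductSpace

noncomputable section

namespace NMBM

/-- the linear part of `Hm` -/
def Lf (a : ℝ) (f : E3 → E3) : E3 →ₗ[ℝ] E3 where
  toFun v := !₂[⟪fr a f 0, v⟫_ℝ, ⟪fr a f 1, v⟫_ℝ, ⟪fr a f 2, v⟫_ℝ]
  map_add' x y := by
    ext i
    fin_cases i <;> simp [inner_add_right]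
  map_smul' c x := by
    ext i
    fin_cases i <;> simp [inner_smul_right]

theorem Hm_eq (a : ℝ) (f : E3 → E3) (y : E3) :
    Hm a f y = Lf a f (y - f !₂[0, 0, a]) + !₂[0, 0, a] := by
  ext i
  fin_cases i <;> simp [Hm, Lf, add_comm]

theorem exL (a : ℝ) (f : E3 → E3) (H : ∀ x y, ‖Hm a f x - Hm a f y‖ = ‖x - y‖) :
    ∃ (L : E3 ≃ₗᵢ[ℝ] E3) (c : E3), ∀ y, Hm a f y = L y + c := by
  have hn : ∀ v, ‖Lf a f v‖ = ‖v‖ := by
    intro v
    have := H (v + f !₂[0, 0, a]) (f !₂[0, 0, a])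
    rw [Hm_eq, Hm_eq] at this
    simpa using this
  refine ⟨(⟨Lf a f, hn⟩ : E3 →ₗᵢ[ℝ] E3).toLinearIsometryEquiv rfl,
    !₂[0, 0, a] - Lf a f (f !₂[0, 0, a]), ?_⟩
  intro y
  rw [Hm_eq, map_sub]
  show _ = Lf a f y + _
  abel

theorem dw_comp (L : E3 ≃ₗᵢ[ℝ] E3) (c : E3) (g : ℝ × ℝ → E3) : ∀ w : List Bool, w ≠ [] →
    dw w (fun p => L (g p) + c) = fun p => L (dw w g p) := by
  have key : ∀ (i : Bool) (g : ℝ × ℝ → E3), pd i (fun p => L (g p)) = fun p => L (pd i g p) := by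
    intro i g
    funext p
    have h1 : fderiv ℝ (fun p => L (g p)) p = (L : E3 →L[ℝ] E3).comp (fderiv ℝ g p) :=
      L.comp_fderiv
    unfold pd
    rw [h1]
    split_ifs <;> rfl
  intro w
  induction w with
  | nil => intro h; exact absurd rfl h
  | cons i w ih =>
    intro _
    rcases eq_or_ne w [] with h | h
    · subst h
      show pd i (fun p => L (g p) + c) = fun p => L (pd i g p)
      rw [← key]
      funext p
      unfold pd
      rw [fderiv_add_const]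
    · show pd i (dw w (fun p => L (g p) + c)) = fun p => L (pd i (dw w g) p)
      rw [ih h, key]

theorem it_comp (L : E3 ≃ₗᵢ[ℝ] E3) (c : E3) (g : ℝ → E3) : ∀ J : ℕ,
    iteratedDeriv (J + 1) (fun t => L (g t) + c) = fun t => L (iteratedDeriv (J + 1) g t) := by
  have key : ∀ g : ℝ → E3, deriv (fun t => L (g t)) = fun t => L (deriv g t) := by
    intro g
    funext t
    have h1 : fderiv ℝ (fun p => L (g p)) t = (L : E3 →L[ℝ] E3).comp (fderiv ℝ g t) :=
      L.comp_fderiv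
    show fderiv ℝ (fun t => L (g t)) t 1 = _
    rw [h1]
    rfl
  intro J
  induction J with
  | zero =>
    rw [zero_add, iteratedDeriv_one, iteratedDeriv_one, ← key]
    funext t
    rw [deriv_add_const]
  | succ J ih =>
    rw [iteratedDeriv_succ, ih, key, iteratedDeriv_succ (n := J + 1)]

theorem normP (a : ℝ) : ‖(!₂[0, 0, a] : E3)‖ = |a| := by
  rw [EuclideanSpace.norm_eq]
  simp [Fin.sum_univ_three, Real.sqrt_sq_eq_abs]

end NMBM

theorem specNMB : SpecNMB := by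
  intro h a p q b φa φb ε δ M J f _ hC hJ hB H
  obtain ⟨L, c, hL⟩ := NMBM.exL a f H
  have h00 : ((0 : ℝ), (0 : ℝ)) ∈ Icc (-ε) ε ×ˢ Icc (-ε) ε := by
    have := hC.e0
    refine ⟨⟨?_, ?_⟩, ⟨?_, ?_⟩⟩ <;> simp <;> linarith
  have hP : ‖f !₂[0, 0, a]‖ ≤ M := by
    have h1 := hB.ba [] (by simp) (0, 0) h00
    have h2 : dw [] (fun p => f (Ps φa p)) (0, 0) = f !₂[0, 0, a] := by
      show f (Ps φa (0, 0)) = f !₂[0, 0, a]
      have : Ps φa (0, 0) = !₂[0, 0, a] := by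
        simp [Ps, hC.a0]
      rw [this]
    rwa [h2] at h1
  have hM : 0 ≤ M := (norm_nonneg _).trans hP
  have hle : M ≤ 2 * M + |a| := by linarith [abs_nonneg a]
  have h0 : ∀ y : E3, ‖y‖ ≤ M → ‖Hm a f y‖ ≤ 2 * M + |a| := by
    intro y hy
    have h1 := H y (f !₂[0, 0, a])
    have h2 : Hm a f (f !₂[0, 0, a]) = !₂[0, 0, a] := by
      rw [NMBM.Hm_eq, sub_self, map_zero, zero_add]
    rw [h2] at h1
    have h3 : ‖Hm a f y‖ ≤ ‖Hm a f y - !₂[0, 0, a]‖ + ‖(!₂[0, 0, a] : E3)‖ := by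
      have := norm_add_le (Hm a f y - !₂[0, 0, a]) !₂[0, 0, a]
      rwa [sub_add_cancel] at this
    rw [h1, NMBM.normP] at h3
    have h4 := norm_sub_le y (f !₂[0, 0, a])
    linarith
  have hw : ∀ (g : ℝ × ℝ → E3) (w : List Bool) (p : ℝ × ℝ), ‖g p‖ ≤ M → ‖dw w g p‖ ≤ M →
      ‖dw w (fun p => Hm a f (g p)) p‖ ≤ 2 * M + |a| := by
    intro g w p hg hgw
    rcases eq_or_ne w [] with h | h
    · subst h
      exact h0 (g p) hg
    · have e1 : (fun p => Hm a f (g p)) = fun p => L (g p) + c := by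
        funext p
        exact hL (g p)
      rw [e1, NMBM.dw_comp L c g w h]
      show ‖L (dw w g p)‖ ≤ _
      rw [L.norm_map]
      exact hgw.trans hle
  refine ⟨?_, ?_, ?_, ?_⟩
  · intro w hwl p hp
    exact hw (fun p => f (Ps φa p)) w p (hB.ba [] (by simp) p hp) (hB.ba w hwl p hp)
  · intro w hwl p hp
    exact hw (fun p => f (Ps φb p)) w p (hB.bb [] (by simp) p hp) (hB.bb w hwl p hp)
  · intro w hwl z hz θ
    exact hw (fun p => f (X h p.1 p.2)) w (z, θ) (hB.bc [] (by simp) z hz θ) (hB.bc w hwl z hz θ)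
  · intro x hx θ
    obtain ⟨J', rfl⟩ : ∃ J', J = J' + 1 := ⟨J - 1, by omega⟩
    have e1 : (fun t => Hm a f (f (rot t x))) = fun t => L (f (rot t x)) + c := by
      funext t
      exact hL _
    show ‖iteratedDeriv (J' + 1) (fun t => Hm a f (f (rot t x))) θ‖ ≤ _
    rw [e1, NMBM.it_comp L c (fun t => f (rot t x)) J']
    show ‖L (iteratedDeriv (J' + 1) (fun t => f (rot t x)) θ)‖ ≤ _
    rw [L.norm_map]
    exact (hB.bt x hx θ).trans hle

end

end Pool.Agent.Lib.MP478c11.DB
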