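import Pool.Agent.Lib.MP_478c11_gt.DB.Many

/-!
# NRV: small perturbations without resonances, with additional conditions
-/

set_option autoImplicit false

namespace Pool.Agent.Lib.MP478c11.DB

open Set Filter Topology MeasureTheory
open scoped ContDiff

noncomputable section

namespace NRVM

/-- a common parameter for finitely many indices -/
lemma exists_common {P : ℕ → ℝ → Prop} (hmono : ∀ (n : ℕ) (x y : ℝ), P n x → 0 < y → y ≤ x → P n y)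
    (n₁ : ℕ) (h : ∀ n : ℕ, 2 ≤ n → n < n₁ → ∃ x : ℝ, 0 < x ∧ P n x) :
    ∃ x : ℝ, 0 < x ∧ ∀ n : ℕ, 2 ≤ n → n < n₁ → P n x := by
  induction n₁ with
  | zero => exact ⟨1, one_pos, fun n _ hn => absurd hn (Nat.not_lt_zero n)⟩
  | succ m ih =>
    obtain ⟨x, hx, hxP⟩ := ih fun n h2 hn => h n h2 (by omega)
    by_cases hm : 2 ≤ m
    · obtain ⟨y, hy, hyP⟩ := h m hm (by omega)
      refine ⟨min x y, lt_min hx hy, fun n h2 hn => ?_⟩
      rcases Nat.lt_succ_iff_lt_or_eq.1 hn with hn | rfl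
      · exact hmono n x _ (hxP n h2 hn) (lt_min hx hy) (min_le_left _ _)
      · exact hmono n y _ hyP (lt_min hx hy) (min_le_right _ _)
    · refine ⟨x, hx, fun n h2 hn => ?_⟩
      exact hxP n h2 (by omega)

lemma exR (hREF : SpecREF) (hLEX : SpecLEX) {h : ℝ → ℝ} {a p q b : ℝ} (hD : Dumb h a p q b) {n : ℕ}
    (hn : 1 ≤ n) : ∃ Z U : ℝ → ℝ, RightSol h a q b n Z U := by
  obtain ⟨h1, -, -, -, h5⟩ := hREF h a p q b hD
  obtain ⟨Y, V, hY⟩ := hLEX _ _ _ _ _ h1 n hn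
  exact ⟨_, _, h5 n Y V hY⟩

/-- the Wronskian does not depend on the choice of the solutions -/
lemma wun (hUNQ : SpecUNQ) (hLUN : SpecLUN) {h : ℝ → ℝ} {a p q b : ℝ} (hD : Dumb h a p q b) {n : ℕ}
    (hn : 1 ≤ n) {Y V Z U Y' V' Z' U' : ℝ → ℝ} (hY : LeftSol h a p b n Y V)
    (hZ : RightSol h a q b n Z U) (hY' : LeftSol h a p b n Y' V')
    (hZ' : RightSol h a q b n Z' U') :
    Y q * U q - V q * Z q = Y' q * U' q - V' q * Z' q := by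
  obtain ⟨h1, h2⟩ := hLUN h h a p q b hD hD n hn
  have hV : V p = V' p := h1 ⟨p + 1, by linarith, fun z _ => rfl⟩ Y V Y' V' hY hY'
  have hU : U q = U' q := h2 ⟨q - 1, by linarith, fun z _ => rfl⟩ Z U Z' U' hZ hZ'
  have hp : p ∈ Ioo a b := ⟨hD.ap, hD.pq.trans hD.qb⟩
  have hq : q ∈ Ioo a b := ⟨hD.ap.trans hD.pq, hD.qb⟩
  obtain ⟨h3, h4⟩ := hUNQ h a p q b hD n O Y V Y' V' (Ioo a b) ordConnected_Ioo subset_rfl hY.sys
    hY'.sys p hp (by rw [hY.one, hY'.one]) hV q hq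
  rw [h3, h4, hU, hZ.one, hZ'.one]

/-- a set of reals with separated points is countable -/
lemma countable_of_sep {S : Set ℝ} {r : ℝ} (hr : 0 < r)
    (h : ∀ x ∈ S, ∀ y ∈ S, |x - y| ≤ r → x = y) : S.Countable := by
  refine Set.countable_of_injective_of_countable_image (f := fun x : ℝ => ⌊x / r⌋) ?_
    (Set.to_countable _)
  intro x hx y hy hxy
  have hxy' : ⌊x / r⌋ = ⌊y / r⌋ := hxy
  refine h x hx y hy ?_
  have h1 : |x / r - y / r| < 1 := Int.abs_sub_lt_one_of_floor_eq_floor hxy'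
  have h2 : x / r - y / r = (x - y) / r := by ring
  rw [h2, abs_div, abs_of_pos hr, div_lt_one hr] at h1
  exact h1.le

end NRVM

open NRVM in
open Classical in
theorem specNRV (hUNQ : SpecUNQ) (hREF : SpecREF) (hLEX : SpecLEX) (hLUN : SpecLUN) (hPD : SpecPD)
    (hGAM : SpecGAM) (hLOW : SpecLOW) (_hCNT : SpecCNT) (hCTV : SpecCTV) (hSMV : SpecSMV)
    (hZFN : SpecZFN) (hMEV : SpecMEV) : SpecNRV := by
  intro h a p q b hD e f hef N δ hδ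
  obtain ⟨κ, c, d, hpc, hcd, hdq, hκ, hgam⟩ := hGAM h a p q b hD
  obtain ⟨nL, cL, hcL, hlow⟩ := hLOW h κ a p q b c d hD hpc hcd hdq hκ hgam
  obtain ⟨nZ, cZ, hcZ, hzfn⟩ := hZFN h κ a p q b c d hD hpc hcd hdq hκ hgam
  set n₁ : ℕ := max (max nL nZ) 2 with hn₁
  have hnL : nL ≤ n₁ := (le_max_left _ _).trans (le_max_left _ _)
  have hnZ : nZ ≤ n₁ := (le_max_right _ _).trans (le_max_left _ _)
  have hn₂ : 2 ≤ n₁ := le_max_right _ _
  set c₀ : ℝ := min cL cZ with hc₀'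
  have hc₀ : 0 < c₀ := lt_min hcL hcZ
  have hcLn : ∀ n : ℕ, c₀ / n ≤ cL / n := fun n =>
    div_le_div_of_nonneg_right (min_le_left _ _) (Nat.cast_nonneg n)
  have hcZn : ∀ n : ℕ, c₀ / n ≤ cZ / n := fun n =>
    div_le_div_of_nonneg_right (min_le_right _ _) (Nat.cast_nonneg n)
  set s : ℝ := (p + c) / 2 with hs
  have hps : p < s := by rw [hs]; linarith
  have hsc : s < c := by rw [hs]; linarith
  -- the data of the right solutions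
  have hexl : ∀ n : ℕ, ∃ l : ℝ, 1 ≤ n → ∃ Z U : ℝ → ℝ, RightSol h a q b n Z U ∧ U q = l := by
    intro n
    by_cases hn : 1 ≤ n
    · obtain ⟨Z, U, hZ⟩ := exR hREF hLEX hD hn
      exact ⟨U q, fun _ => ⟨Z, U, hZ, rfl⟩⟩
    · exact ⟨0, fun h => absurd h hn⟩
  choose l hl using hexl
  set T : Finset (ℕ × ℝ × ℝ) := (Finset.Ico 2 n₁).image (fun n => ((n, 1, l n) : ℕ × ℝ × ℝ)) ∪
    (Finset.Ico 2 n₁).image (fun n => ((n, e n, f n) : ℕ × ℝ × ℝ)) with hT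
  have hTc : ∀ t ∈ T, 2 ≤ t.1 ∧ (t.2.1 ≠ 0 ∨ t.2.2 ≠ 0) := by
    intro t ht
    rw [hT, Finset.mem_union, Finset.mem_image, Finset.mem_image] at ht
    rcases ht with ⟨n, hn, rfl⟩ | ⟨n, hn, rfl⟩
    · exact ⟨(Finset.mem_Ico.1 hn).1, Or.inl one_ne_zero⟩
    · exact ⟨(Finset.mem_Ico.1 hn).1, hef n (Finset.mem_Ico.1 hn).1⟩
  have hT1 : ∀ n : ℕ, 2 ≤ n → n < n₁ → ((n, 1, l n) : ℕ × ℝ × ℝ) ∈ T := fun n h2 hn =>
    Finset.mem_union_left _ (Finset.mem_image_of_mem (fun n => ((n, 1, l n) : ℕ × ℝ × ℝ))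
      (Finset.mem_Ico.2 ⟨h2, hn⟩))
  have hT2 : ∀ n : ℕ, 2 ≤ n → n < n₁ → ((n, e n, f n) : ℕ × ℝ × ℝ) ∈ T := fun n h2 hn =>
    Finset.mem_union_right _ (Finset.mem_image_of_mem (fun n => ((n, e n, f n) : ℕ × ℝ × ℝ))
      (Finset.mem_Ico.2 ⟨h2, hn⟩))
  obtain ⟨h₁, ⟨hD₁, ⟨c', d', hpc', hcd', hds, hoff⟩, hclose⟩, hsmv⟩ :=
    hSMV T h a p q b s hD hps (by linarith) hTc N (δ / 2) (by linarith)
  have heq : ∀ z, s < z → h₁ z = h z := fun z hz => hoff z fun hmem => by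
    have := hmem.2
    linarith
  obtain ⟨μa, c₁, B, hμa, hc₁, hlow₁⟩ := hlow h₁ s hD₁ hsc heq
  obtain ⟨μz, hμz, hzfn₁⟩ := hzfn h₁ s hD₁ hsc heq
  obtain ⟨μb, hμb, hpd⟩ := hPD h₁ κ a p q b c d hD₁ hpc hcd hdq hκ N (δ / 2) (by linarith)
  -- common parameters for the small `n`
  have hctv : ∀ (e' f' : ℕ → ℝ), (∀ n : ℕ, 2 ≤ n → n < n₁ → ((n, e' n, f' n) : ℕ × ℝ × ℝ) ∈ T) →
      ∃ μc : ℝ, 0 < μc ∧ ∀ n : ℕ, 2 ≤ n → n < n₁ → ∀ μ : ℝ, |μ| ≤ μc → ∀ Y₁ V₁ : ℝ → ℝ,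
        LeftSol (pert h₁ κ μ) a p b n Y₁ V₁ → Y₁ q * f' n - V₁ q * e' n ≠ 0 := by
    intro e' f' hT'
    obtain ⟨μc, hμc, hcnt⟩ := exists_common
      (P := fun n μ₀ => ∀ μ : ℝ, |μ| ≤ μ₀ → ∀ Y₁ V₁ : ℝ → ℝ,
        LeftSol (pert h₁ κ μ) a p b n Y₁ V₁ → Y₁ q * f' n - V₁ q * e' n ≠ 0)
      (fun n x y hx _ hyx μ hμ => hx μ (hμ.trans hyx)) n₁ (by
        intro n h2 hn
        obtain ⟨Y, V, hY⟩ := hLEX h₁ a p q b hD₁ n (by omega)
        exact hCTV h₁ κ a p q b c d hD₁ hpc hcd hdq hκ n (e' n) (f' n) (by omega) Y V hY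
          (hsmv _ (hT' n h2 hn) Y V hY))
    exact ⟨μc, hμc, hcnt⟩
  obtain ⟨μc, hμc, hcnt⟩ := hctv (fun _ => 1) l hT1
  obtain ⟨μd, hμd, hcnt'⟩ := hctv e f hT2
  set μ₂ : ℝ := min (min μa μz) (min μb (min μc μd)) with hμ₂
  have hμ₂0 : 0 < μ₂ := lt_min (lt_min hμa hμz) (lt_min hμb (lt_min hμc hμd))
  have hμ₂a : μ₂ ≤ μa := (min_le_left _ _).trans (min_le_left _ _)
  have hμ₂z : μ₂ ≤ μz := (min_le_left _ _).trans (min_le_right _ _)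
  have hμ₂b : μ₂ ≤ μb := (min_le_right _ _).trans (min_le_left _ _)
  have hμ₂c : μ₂ ≤ μc := (min_le_right _ _).trans ((min_le_right _ _).trans (min_le_left _ _))
  have hμ₂d : μ₂ ≤ μd := (min_le_right _ _).trans ((min_le_right _ _).trans (min_le_right _ _))
  have hdumb : ∀ μ : ℝ, |μ| ≤ μ₂ → Dumb (pert h₁ κ μ) a p q b := fun μ hμ =>
    (hpd μ (hμ.trans hμ₂b)).1
  have hpoff : ∀ (μ z : ℝ), z ∉ Icc c' d → pert h₁ κ μ z = h z := by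
    intro μ z hz
    have hz1 : z ∉ Icc c' d' := fun hmem => hz ⟨hmem.1, by linarith [hmem.2]⟩
    have hz2 : z ∉ Icc c d := fun hmem => hz ⟨by linarith [hmem.1], hmem.2⟩
    rw [pert, hκ.2 z hz2, hoff z hz1]
    ring
  -- all right solutions have the same data at `q`
  have hlq : ∀ (n : ℕ), 1 ≤ n → ∀ μ : ℝ, |μ| ≤ μ₂ → ∀ Z U : ℝ → ℝ,
      RightSol (pert h₁ κ μ) a q b n Z U → U q = l n := by
    intro n hn μ hμ Z U hZ
    obtain ⟨Z', U', hZ', hU'⟩ := hl n hn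
    obtain ⟨-, h2⟩ := hLUN h (pert h₁ κ μ) a p q b hD (hdumb μ hμ) n hn
    have h3 := h2 ⟨d, hdq, fun z hz => hpoff μ z fun hmem => by
      have := hmem.2
      linarith⟩ Z' U' Z U hZ' hZ
    rw [← h3, hU']
  have hexD : ∀ (n : ℕ) (μ : ℝ), ∃ D : ℝ, 1 ≤ n → |μ| ≤ μ₂ → ∀ Y V Z U : ℝ → ℝ,
      LeftSol (pert h₁ κ μ) a p b n Y V → RightSol (pert h₁ κ μ) a q b n Z U →
      Y q * U q - V q * Z q = D := by
    intro n μ
    by_cases hc : 1 ≤ n ∧ |μ| ≤ μ₂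
    · obtain ⟨hn, hμ⟩ := hc
      obtain ⟨Y₀, V₀, hY₀⟩ := hLEX _ a p q b (hdumb μ hμ) n hn
      obtain ⟨Z₀, U₀, hZ₀⟩ := exR hREF hLEX (hdumb μ hμ) hn
      exact ⟨Y₀ q * U₀ q - V₀ q * Z₀ q, fun _ _ Y V Z U hY hZ =>
        wun hUNQ hLUN (hdumb μ hμ) hn hY hZ hY₀ hZ₀⟩
    · exact ⟨0, fun hn hμ => absurd ⟨hn, hμ⟩ hc⟩
  choose D hDD using hexD
  have habs : ∀ μ ∈ Ioo 0 μ₂, |μ| ≤ μ₂ := fun μ hμ => by
    rw [abs_of_pos hμ.1]
    exact hμ.2.le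
  -- the exceptional set
  set E : Set ℝ := ⋃ n : ℕ, {μ : ℝ | n₁ ≤ n ∧ μ ∈ Ioo 0 μ₂ ∧ ∃ Y V : ℝ → ℝ,
    LeftSol (pert h₁ κ μ) a p b n Y V ∧ Y q * f n - V q * e n = 0} with hE
  have hEc : E.Countable := by
    rw [hE]
    refine countable_iUnion fun n => ?_
    by_cases hn : n₁ ≤ n
    · have hn0 : (0 : ℝ) < n := by
        have : 0 < n := by omega
        exact_mod_cast this
      refine countable_of_sep (r := c₀ / n) (div_pos hc₀ hn0) ?_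
      rintro μ ⟨-, hμ, Y, V, hY, h0⟩ μ' ⟨-, hμ', Y', V', hY', h0'⟩ hdist
      exact hzfn₁ n (hnZ.trans hn) (by omega) (e n) (f n) (hef n (by omega)) μ μ'
        ((habs μ hμ).trans hμ₂z) ((habs μ' hμ').trans hμ₂z) (hdist.trans (hcZn n))
        Y V Y' V' hY hY' h0 h0'
    · refine (countable_empty).mono ?_
      rintro μ ⟨h1, -⟩
      exact absurd h1 hn
  obtain ⟨ε, hε, μ, hμ, hμE, hmea⟩ := hMEV D n₁ B c₀ c₁ μ₂ E (by omega) hc₀ hc₁ hμ₂0 hEc (by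
    intro n hn μ hμ μ' hμ' hdist
    have hn1 : 1 ≤ n := by omega
    have hm := habs μ hμ
    have hm' := habs μ' hμ'
    obtain ⟨Y, V, hY⟩ := hLEX _ a p q b (hdumb μ hm) n hn1
    obtain ⟨Z, U, hZ⟩ := exR hREF hLEX (hdumb μ hm) hn1
    obtain ⟨Y', V', hY'⟩ := hLEX _ a p q b (hdumb μ' hm') n hn1
    obtain ⟨Z', U', hZ'⟩ := exR hREF hLEX (hdumb μ' hm') hn1
    have h1 := hlow₁ n (hnL.trans hn) hn1 μ μ' (hm.trans hμ₂a) (hm'.trans hμ₂a)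
      (hdist.trans (hcLn n)) Y V Z U Y' V' Z' U' hY hZ hY' hZ'
    rwa [hDD n μ hn1 hm Y V Z U hY hZ, hDD n μ' hn1 hm' Y' V' Z' U' hY' hZ'] at h1)
  have hm := habs μ hμ
  obtain ⟨hD₂, -, hsm₂, hcl₂⟩ := hpd μ (hm.trans hμ₂b)
  refine ⟨pert h₁ κ μ, ⟨hD₂, ⟨c', d, hpc', by linarith, hdq, hpoff μ⟩, ?_⟩, ?_, ?_⟩
  · intro i hi z
    have e1 : (fun z => pert h₁ κ μ z - h z) =
        fun z => (fun z => pert h₁ κ μ z - h₁ z) z + (fun z => h₁ z - h z) z := by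
      funext z
      ring
    have hA : ContDiff ℝ ∞ (fun z => pert h₁ κ μ z - h₁ z) := hsm₂.sub hD₁.smooth
    have hB : ContDiff ℝ ∞ (fun z => h₁ z - h z) := hD₁.smooth.sub hD.smooth
    have hi' : ((i : ℕ∞) : WithTop ℕ∞) ≤ ∞ := by exact_mod_cast le_top
    rw [e1, iteratedDeriv_fun_add (hA.contDiffAt.of_le hi') (hB.contDiffAt.of_le hi')]
    refine (abs_add_le _ _).trans ?_
    have h1 := hcl₂ i hi z
    have h2 := hclose i hi z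
    linarith
  · obtain ⟨ε', hε', hfin⟩ := exists_common (P := fun n x => x ≤ |D n μ|)
      (fun n x y hx _ hyx => hyx.trans hx) n₁ (by
        intro n h2 hn
        have hn1 : 1 ≤ n := by omega
        obtain ⟨Y, V, hY⟩ := hLEX _ a p q b (hdumb μ hm) n hn1
        obtain ⟨Z, U, hZ⟩ := exR hREF hLEX (hdumb μ hm) hn1
        have h1 := hcnt n h2 hn μ (hm.trans hμ₂c) Y V hY
        have h3 := hDD n μ hn1 hm Y V Z U hY hZ
        rw [hlq n hn1 μ hm Z U hZ, hZ.one] at h3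
        have h4 : D n μ ≠ 0 := by
          rw [← h3]
          exact h1
        exact ⟨|D n μ|, abs_pos.2 h4, le_rfl⟩)
    refine ⟨min ε ε', B + 3, lt_min hε hε', fun n h2 Y V Z U hY hZ => ?_⟩
    rw [hDD n μ (by omega) hm Y V Z U hY hZ]
    rcases lt_or_ge n n₁ with hn | hn
    · have h1 : (1 : ℝ) ≤ (n : ℝ) ^ (B + 3) := by
        apply one_le_pow₀
        exact_mod_cast (show 1 ≤ n by omega)
      calc min ε ε' ≤ ε' := min_le_right _ _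
        _ ≤ |D n μ| := hfin n h2 hn
        _ = 1 * |D n μ| := (one_mul _).symm
        _ ≤ (n : ℝ) ^ (B + 3) * |D n μ| := mul_le_mul_of_nonneg_right h1 (abs_nonneg _)
    · exact (min_le_left _ _).trans (hmea n hn)
  · intro n h2 Y V hY
    rcases lt_or_ge n n₁ with hn | hn
    · exact hcnt' n h2 hn μ (hm.trans hμ₂d) Y V hY
    · intro h0
      exact hμE (mem_iUnion.2 ⟨n, hn, hμ, Y, V, hY, h0⟩)

end

end Pool.Agent.Lib.MP478c11.DB
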