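import Pool.Agent.Lib.MP_478c11_gt.DB.Geo

/-!
# MP_478c11_gt, module POL: from the chart to polar coordinates (helper99)
-/

set_option autoImplicit false

namespace Pool.Agent.Lib.MP478c11.DB

open Set Filter Topology MeasureTheory
open scoped ContDiff InnerProductSpace

noncomputable section

namespace POLM

/-- The point with polar coordinates `√h`, `θ`. -/
def pt (h : ℝ → ℝ) (z θ : ℝ) : ℝ × ℝ := (√(h z) * Real.cos θ, √(h z) * Real.sin θ)

lemma fd_apply (G : ℝ × ℝ → E3) (p : ℝ × ℝ) (u v : ℝ) :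
    fderiv ℝ G p (u, v) = u • pd true G p + v • pd false G p := by
  have h1 : ((u, v) : ℝ × ℝ) = u • ((1 : ℝ), (0 : ℝ)) + v • ((0 : ℝ), (1 : ℝ)) := by
    ext <;> simp
  rw [h1, map_add, map_smul, map_smul]
  simp [pd]

lemma norm_fd_le (G : ℝ × ℝ → E3) (p : ℝ × ℝ) (K : ℝ) (h1 : ‖pd true G p‖ ≤ K) (h2 : ‖pd false G p‖ ≤ K) :
    ‖fderiv ℝ G p‖ ≤ 2 * K := by
  have hK : 0 ≤ K := (norm_nonneg _).trans h1
  refine ContinuousLinearMap.opNorm_le_bound _ (by positivity) ?_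
  rintro ⟨u, v⟩
  rw [fd_apply]
  have hu : |u| ≤ ‖(u, v)‖ := norm_fst_le (u, v)
  have hv : |v| ≤ ‖(u, v)‖ := norm_snd_le (u, v)
  calc ‖u • pd true G p + v • pd false G p‖ ≤ ‖u • pd true G p‖ + ‖v • pd false G p‖ := norm_add_le _ _
    _ = |u| * ‖pd true G p‖ + |v| * ‖pd false G p‖ := by
        rw [norm_smul, norm_smul, Real.norm_eq_abs, Real.norm_eq_abs]
    _ ≤ ‖(u, v)‖ * K + ‖(u, v)‖ * K := by gcongr
    _ = 2 * K * ‖(u, v)‖ := by ring

lemma mv (G : ℝ × ℝ → E3) (K r : ℝ) (hd : ∀ p, ‖p‖ ≤ r → DifferentiableAt ℝ G p)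
    (hb : ∀ p, ‖p‖ ≤ r → ‖pd true G p‖ ≤ K ∧ ‖pd false G p‖ ≤ K) (p : ℝ × ℝ) (hp : ‖p‖ ≤ r) :
    ‖G p - G 0‖ ≤ 2 * K * r := by
  have hr : 0 ≤ r := (norm_nonneg _).trans hp
  have hK : 0 ≤ K := (norm_nonneg _).trans (hb p hp).1
  have := Convex.norm_image_sub_le_of_norm_fderiv_le (𝕜 := ℝ) (f := G) (C := 2 * K)
    (s := Metric.closedBall (0 : ℝ × ℝ) r) (x := 0) (y := p)
    (fun q hq => hd q (mem_closedBall_zero_iff.mp hq))
    (fun q hq => norm_fd_le G q K (hb q (mem_closedBall_zero_iff.mp hq)).1 (hb q (mem_closedBall_zero_iff.mp hq)).2)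
    (convex_closedBall _ _) (mem_closedBall_zero_iff.mpr (by simpa using hr)) (mem_closedBall_zero_iff.mpr hp)
  rw [sub_zero] at this
  exact this.trans (by gcongr)

lemma hasDeriv_rho (h : ℝ → ℝ) (z : ℝ) (hh : DifferentiableAt ℝ h z) (hp : 0 < h z) :
    HasDerivAt (fun s => √(h s)) (deriv h z / (2 * √(h z))) z := hh.hasDerivAt.sqrt hp.ne'

lemma dG_z (h : ℝ → ℝ) (z θ : ℝ) (G : ℝ × ℝ → E3) (hh : DifferentiableAt ℝ h z) (hp : 0 < h z)
    (hG : DifferentiableAt ℝ G (pt h z θ)) :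
    HasDerivAt (fun s => G (pt h s θ)) ((deriv h z / (2 * √(h z)) * Real.cos θ) • pd true G (pt h z θ) +
      (deriv h z / (2 * √(h z)) * Real.sin θ) • pd false G (pt h z θ)) z := by
  have h1 : HasDerivAt (fun s => pt h s θ) (deriv h z / (2 * √(h z)) * Real.cos θ, deriv h z / (2 * √(h z)) * Real.sin θ) z :=
    ((hasDeriv_rho h z hh hp).mul_const _).prodMk ((hasDeriv_rho h z hh hp).mul_const _)
  have h2 := hG.hasFDerivAt.comp_hasDerivAt z h1
  rw [fd_apply] at h2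
  exact h2

lemma dG_t (h : ℝ → ℝ) (z θ : ℝ) (G : ℝ × ℝ → E3) (hG : DifferentiableAt ℝ G (pt h z θ)) :
    HasDerivAt (fun s => G (pt h z s)) ((√(h z) * -Real.sin θ) • pd true G (pt h z θ) +
      (√(h z) * Real.cos θ) • pd false G (pt h z θ)) θ := by
  have h1 : HasDerivAt (fun s => pt h z s) (√(h z) * (-Real.sin θ), √(h z) * Real.cos θ) θ :=
    ((Real.hasDerivAt_cos θ).const_mul _).prodMk ((Real.hasDerivAt_sin θ).const_mul _)
  have h2 := hG.hasFDerivAt.comp_hasDerivAt θ h1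
  rw [fd_apply] at h2
  exact h2

lemma two (a b α κ : ℝ) (u v : E3) (ha : |a| ≤ α) (hb : |b| ≤ α) (hu : ‖u‖ ≤ κ) (hv : ‖v‖ ≤ κ) :
    ‖a • u + b • v‖ ≤ 2 * α * κ := by
  have hα : 0 ≤ α := (abs_nonneg _).trans ha
  calc ‖a • u + b • v‖ ≤ ‖a • u‖ + ‖b • v‖ := norm_add_le _ _
    _ = |a| * ‖u‖ + |b| * ‖v‖ := by rw [norm_smul, norm_smul, Real.norm_eq_abs, Real.norm_eq_abs]
    _ ≤ α * κ + α * κ := by gcongr
    _ = 2 * α * κ := by ring

lemma contDiffOn_pd (i : Bool) (g : ℝ × ℝ → E3) (D : Set (ℝ × ℝ)) (hD : IsOpen D) (hg : ContDiffOn ℝ ∞ g D) :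
    ContDiffOn ℝ ∞ (pd i g) D := by
  have h1 : ContDiffOn ℝ ∞ (fun x => fderiv ℝ g x) D := hg.fderiv_of_isOpen hD (by simp)
  cases i
  · have h2 : ContDiffOn ℝ ∞ (fun x => fderiv ℝ g x (0, 1)) D := h1.clm_apply contDiffOn_const
    exact h2.congr (fun x _ => by simp [pd])
  · have h2 : ContDiffOn ℝ ∞ (fun x => fderiv ℝ g x (1, 0)) D := h1.clm_apply contDiffOn_const
    exact h2.congr (fun x _ => by simp [pd])

lemma diffAt (G : ℝ × ℝ → E3) (D : Set (ℝ × ℝ)) (hD : IsOpen D) (hG : ContDiffOn ℝ ∞ G D) (p : ℝ × ℝ) (hp : p ∈ D) :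
    DifferentiableAt ℝ G p :=
  ((hG.differentiableOn (by simp)) p hp).differentiableAt (hD.mem_nhds hp)

/-- `h r' = r h' / 2` -/
lemma hrho (h : ℝ → ℝ) (z t : ℝ) (hp : 0 < h z) :
    h z * (deriv h z / (2 * √(h z)) * t) = deriv h z / 2 * (√(h z) * t) := by
  have hs : 0 < √(h z) := Real.sqrt_pos.mpr hp
  have h2 : h z = √(h z) * √(h z) := (Real.mul_self_sqrt hp.le).symm
  have h3 : h z / √(h z) = √(h z) := by
    rw [div_eq_iff hs.ne']; exact h2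
  calc h z * (deriv h z / (2 * √(h z)) * t) = (h z / √(h z)) * (deriv h z / 2 * t) := by
        field_simp
    _ = deriv h z / 2 * (√(h z) * t) := by rw [h3]; ring

/-- The hypotheses. -/
structure Hy (h : ℝ → ℝ) (c d : ℝ) (D : Set (ℝ × ℝ)) (g : ℝ × ℝ → E3) (U : ℝ → ℝ → E3) : Prop where
  sm : ContDiff ℝ ∞ h
  pos : ∀ z ∈ Ioo c d, 0 < h z
  op : IsOpen D
  gs : ContDiffOn ℝ ∞ g D
  inD : ∀ z ∈ Ioo c d, ∀ θ, pt h z θ ∈ D
  eq : ∀ z ∈ Ioo c d, ∀ θ, U z θ = g (pt h z θ)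

variable {h : ℝ → ℝ} {c d : ℝ} {D : Set (ℝ × ℝ)} {g : ℝ × ℝ → E3} {U : ℝ → ℝ → E3}

lemma dh (H : Hy h c d D g U) (z : ℝ) : DifferentiableAt ℝ h z :=
  (H.sm.differentiable (by simp)).differentiableAt

lemma ddh (H : Hy h c d D g U) (z : ℝ) : DifferentiableAt ℝ (deriv h) z := by
  have h1 : ContDiff ℝ ∞ (deriv h) := (contDiff_infty_iff_deriv.mp H.sm).2
  exact (h1.differentiable (by simp)).differentiableAt

lemma tzU (H : Hy h c d D g U) (z : ℝ) (hz : z ∈ Ioo c d) (θ : ℝ) :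
    tz h U z θ = (deriv h z / 2) • ((√(h z) * Real.cos θ) • pd true g (pt h z θ) + (√(h z) * Real.sin θ) • pd false g (pt h z θ)) := by
  have h1 := dG_z h z θ g (dh H z) (H.pos z hz) (diffAt g D H.op H.gs _ (H.inD z hz θ))
  have h2 : (fun s => U s θ) =ᶠ[𝓝 z] (fun s => g (pt h s θ)) := by
    filter_upwards [Ioo_mem_nhds hz.1 hz.2] with s hs using H.eq s hs θ
  have h3 := (h1.congr_of_eventuallyEq h2).deriv
  rw [tz, h3, smul_add, smul_smul, smul_smul, hrho h z _ (H.pos z hz), hrho h z _ (H.pos z hz), smul_add, smul_smul, smul_smul]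

lemma dtU (H : Hy h c d D g U) (z : ℝ) (hz : z ∈ Ioo c d) (θ : ℝ) :
    dt U z θ = (√(h z) * -Real.sin θ) • pd true g (pt h z θ) + (√(h z) * Real.cos θ) • pd false g (pt h z θ) := by
  have h1 := dG_t h z θ g (diffAt g D H.op H.gs _ (H.inD z hz θ))
  have h2 : (fun s => U z s) = (fun s => g (pt h z s)) := funext fun s => H.eq z hz s
  rw [dt, h2]
  exact h1.deriv

lemma tztz (H : Hy h c d D g U) (z : ℝ) (hz : z ∈ Ioo c d) (θ : ℝ) :
    tz h (tz h U) z θ = (h z * (deriv (deriv h) z / 2)) • ((√(h z) * Real.cos θ) • pd true g (pt h z θ) + (√(h z) * Real.sin θ) • pd false g (pt h z θ)) +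
      (deriv h z / 2) • (((deriv h z / 2 * (√(h z) * Real.cos θ)) • pd true g (pt h z θ) + (deriv h z / 2 * (√(h z) * Real.sin θ)) • pd false g (pt h z θ)) +
        ((√(h z) * Real.cos θ) • ((deriv h z / 2 * (√(h z) * Real.cos θ)) • pd true (pd true g) (pt h z θ) + (deriv h z / 2 * (√(h z) * Real.sin θ)) • pd false (pd true g) (pt h z θ)) +
         (√(h z) * Real.sin θ) • ((deriv h z / 2 * (√(h z) * Real.cos θ)) • pd true (pd false g) (pt h z θ) + (deriv h z / 2 * (√(h z) * Real.sin θ)) • pd false (pd false g) (pt h z θ)))) := by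
  have hx := dG_z h z θ (pd true g) (dh H z) (H.pos z hz) (diffAt _ D H.op (contDiffOn_pd true g D H.op H.gs) _ (H.inD z hz θ))
  have hy := dG_z h z θ (pd false g) (dh H z) (H.pos z hz) (diffAt _ D H.op (contDiffOn_pd false g D H.op H.gs) _ (H.inD z hz θ))
  have hr := hasDeriv_rho h z (dh H z) (H.pos z hz)
  have hd : HasDerivAt (fun s => deriv h s / 2) (deriv (deriv h) z / 2) z := (ddh H z).hasDerivAt.div_const 2
  have hall := hd.smul (((hr.mul_const (Real.cos θ)).smul hx).add ((hr.mul_const (Real.sin θ)).smul hy))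
  have h2 : (fun s => tz h U s θ) =ᶠ[𝓝 z] (fun s => (deriv h s / 2) • ((√(h s) * Real.cos θ) • pd true g (pt h s θ) + (√(h s) * Real.sin θ) • pd false g (pt h s θ))) := by
    filter_upwards [Ioo_mem_nhds hz.1 hz.2] with s hs using tzU H s hs θ
  have h3 := (HasDerivAt.congr_of_eventuallyEq hall h2).deriv
  have e1 := hrho h z (Real.cos θ) (H.pos z hz)
  have e2 := hrho h z (Real.sin θ) (H.pos z hz)
  rw [tz, h3, ← e1, ← e2]
  simp only [Pi.add_apply, Pi.smul_apply']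
  module

lemma dttz (H : Hy h c d D g U) (z : ℝ) (hz : z ∈ Ioo c d) (θ : ℝ) :
    dt (tz h U) z θ = (deriv h z / 2) • (((√(h z) * -Real.sin θ) • pd true g (pt h z θ) + (√(h z) * Real.cos θ) • pd false g (pt h z θ)) +
        ((√(h z) * Real.cos θ) • ((√(h z) * -Real.sin θ) • pd true (pd true g) (pt h z θ) + (√(h z) * Real.cos θ) • pd false (pd true g) (pt h z θ)) +
         (√(h z) * Real.sin θ) • ((√(h z) * -Real.sin θ) • pd true (pd false g) (pt h z θ) + (√(h z) * Real.cos θ) • pd false (pd false g) (pt h z θ)))) := by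
  have hx := dG_t h z θ (pd true g) (diffAt _ D H.op (contDiffOn_pd true g D H.op H.gs) _ (H.inD z hz θ))
  have hy := dG_t h z θ (pd false g) (diffAt _ D H.op (contDiffOn_pd false g D H.op H.gs) _ (H.inD z hz θ))
  have hc : HasDerivAt (fun s => √(h z) * Real.cos s) (√(h z) * -Real.sin θ) θ := (Real.hasDerivAt_cos θ).const_mul _
  have hs : HasDerivAt (fun s => √(h z) * Real.sin s) (√(h z) * Real.cos θ) θ := (Real.hasDerivAt_sin θ).const_mul _
  have hall := ((hc.smul hx).add (hs.smul hy)).const_smul (deriv h z / 2)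
  have h2 : (fun s => tz h U z s) = (fun s => (deriv h z / 2) • ((√(h z) * Real.cos s) • pd true g (pt h z s) + (√(h z) * Real.sin s) • pd false g (pt h z s))) :=
    funext fun s => tzU H z hz s
  rw [dt, h2]
  refine Eq.trans (HasDerivAt.deriv hall) ?_
  module

lemma core (H : Hy h c d D g U) (A N K : ℝ) (hA : 1 ≤ A) (z : ℝ) (hz : z ∈ Ioo c d) (θ : ℝ)
    (h0 : |h z| ≤ A) (h1 : |deriv h z| ≤ A) (h2 : |deriv (deriv h) z| ≤ A)
    (gx : ‖pd true g (pt h z θ)‖ ≤ K) (gy : ‖pd false g (pt h z θ)‖ ≤ K)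
    (gxx : ‖pd true (pd true g) (pt h z θ)‖ ≤ N) (gxy : ‖pd false (pd true g) (pt h z θ)‖ ≤ N)
    (gyx : ‖pd true (pd false g) (pt h z θ)‖ ≤ N) (gyy : ‖pd false (pd false g) (pt h z θ)‖ ≤ N) :
    ‖tz h U z θ‖ ≤ 2 * A ^ 2 * (√(h z) * K + √(h z) ^ 2 * N) ∧ ‖dt U z θ‖ ≤ 2 * A ^ 2 * (√(h z) * K + √(h z) ^ 2 * N) ∧
    ‖tz h (tz h U) z θ‖ ≤ 2 * A ^ 2 * (√(h z) * K + √(h z) ^ 2 * N) ∧ ‖dt (tz h U) z θ‖ ≤ 2 * A ^ 2 * (√(h z) * K + √(h z) ^ 2 * N) := by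
  have hA0 : (0 : ℝ) ≤ A := by linarith
  have hK : 0 ≤ K := (norm_nonneg _).trans gx
  have hN : 0 ≤ N := (norm_nonneg _).trans gxx
  have hr : 0 ≤ √(h z) := Real.sqrt_nonneg _
  have cx : |√(h z) * Real.cos θ| ≤ √(h z) := by
    rw [abs_mul, abs_of_nonneg hr]
    exact mul_le_of_le_one_right hr (Real.abs_cos_le_one θ)
  have cy : |√(h z) * Real.sin θ| ≤ √(h z) := by
    rw [abs_mul, abs_of_nonneg hr]
    exact mul_le_of_le_one_right hr (Real.abs_sin_le_one θ)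
  have cy' : |√(h z) * -Real.sin θ| ≤ √(h z) := by
    rw [mul_neg, abs_neg]; exact cy
  have hh2 : |deriv h z / 2| ≤ A / 2 := by
    rw [abs_div, abs_of_pos (by norm_num : (0 : ℝ) < 2)]; gcongr
  have dx : |deriv h z / 2 * (√(h z) * Real.cos θ)| ≤ A / 2 * √(h z) := by
    rw [abs_mul]; gcongr
  have dy : |deriv h z / 2 * (√(h z) * Real.sin θ)| ≤ A / 2 * √(h z) := by
    rw [abs_mul]; gcongr
  have hhh : |h z * (deriv (deriv h) z / 2)| ≤ A * (A / 2) := by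
    rw [abs_mul, abs_div, abs_of_pos (by norm_num : (0 : ℝ) < 2)]; gcongr
  have hAA : A ≤ A ^ 2 := by nlinarith
  have hA1 : 1 ≤ A ^ 2 := by nlinarith
  have rK : 0 ≤ √(h z) * K := mul_nonneg hr hK
  have rN : 0 ≤ √(h z) ^ 2 * N := mul_nonneg (sq_nonneg _) hN
  refine ⟨?_, ?_, ?_, ?_⟩
  · rw [tzU H z hz θ, norm_smul, Real.norm_eq_abs]
    calc _ ≤ A / 2 * (2 * √(h z) * K) := by
          gcongr
          exact two _ _ _ _ _ _ cx cy gx gy
      _ = A * (√(h z) * K) := by ring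
      _ ≤ 2 * A ^ 2 * (√(h z) * K + √(h z) ^ 2 * N) := by
          nlinarith [mul_le_mul_of_nonneg_right hAA rK, mul_nonneg (sq_nonneg A) rK, mul_nonneg (sq_nonneg A) rN]
  · rw [dtU H z hz θ]
    refine (two _ _ _ _ _ _ cy' cx gx gy).trans ?_
    nlinarith [mul_le_mul_of_nonneg_right hA1 rK, mul_nonneg (sq_nonneg A) rK, mul_nonneg (sq_nonneg A) rN]
  · rw [tztz H z hz θ]
    have b1 : ‖(h z * (deriv (deriv h) z / 2)) • ((√(h z) * Real.cos θ) • pd true g (pt h z θ) + (√(h z) * Real.sin θ) • pd false g (pt h z θ))‖ ≤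
        A * (A / 2) * (2 * √(h z) * K) := by
      rw [norm_smul, Real.norm_eq_abs]
      gcongr
      exact two _ _ _ _ _ _ cx cy gx gy
    have b2 := two _ _ _ _ _ _ dx dy gx gy
    have b3 := two _ _ _ _ _ _ dx dy gxx gxy
    have b4 := two _ _ _ _ _ _ dx dy gyx gyy
    have b5 := two _ _ _ _ _ _ cx cy b3 b4
    calc _ ≤ A * (A / 2) * (2 * √(h z) * K) + A / 2 * (2 * (A / 2 * √(h z)) * K + 2 * √(h z) * (2 * (A / 2 * √(h z)) * N)) := by
          refine (norm_add_le _ _).trans (add_le_add b1 ?_)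
          rw [norm_smul, Real.norm_eq_abs]
          gcongr
          exact (norm_add_le _ _).trans (add_le_add b2 b5)
      _ = 3 / 2 * A ^ 2 * (√(h z) * K) + A ^ 2 * (√(h z) ^ 2 * N) := by ring
      _ ≤ 2 * A ^ 2 * (√(h z) * K + √(h z) ^ 2 * N) := by
          nlinarith [mul_nonneg (sq_nonneg A) rK, mul_nonneg (sq_nonneg A) rN]
  · rw [dttz H z hz θ]
    have b2 := two _ _ _ _ _ _ cy' cx gx gy
    have b3 := two _ _ _ _ _ _ cy' cx gxx gxy
    have b4 := two _ _ _ _ _ _ cy' cx gyx gyy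
    have b5 := two _ _ _ _ _ _ cx cy b3 b4
    calc _ ≤ A / 2 * (2 * √(h z) * K + 2 * √(h z) * (2 * √(h z) * N)) := by
          rw [norm_smul, Real.norm_eq_abs]
          gcongr
          exact (norm_add_le _ _).trans (add_le_add b2 b5)
      _ = A * (√(h z) * K) + 2 * A * (√(h z) ^ 2 * N) := by ring
      _ ≤ 2 * A ^ 2 * (√(h z) * K + √(h z) ^ 2 * N) := by
          nlinarith [mul_le_mul_of_nonneg_right hAA rK, mul_le_mul_of_nonneg_right hAA rN, mul_nonneg (sq_nonneg A) rK, mul_nonneg (sq_nonneg A) rN]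

end POLM

open POLM in
theorem specPOL : SpecPOL := by
  intro H ε hε
  refine ⟨6 * (|H| + 1) ^ 2 * (1 + ε), by positivity, ?_⟩
  intro h c d N g U hsm hN hh hg hw hU
  have hA : 1 ≤ |H| + 1 := by linarith [abs_nonneg H]
  have hHA : H ≤ |H| + 1 := by linarith [le_abs_self H]
  have hA1 : 1 ≤ (|H| + 1) ^ 2 := by nlinarith
  set A := |H| + 1 with hAdef
  set D : Set (ℝ × ℝ) := {p : ℝ × ℝ | p.1 ^ 2 + p.2 ^ 2 < 4 * ε ^ 2} with hD
  have hDo : IsOpen D := isOpen_lt (by fun_prop) (by fun_prop)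
  have box : ∀ p : ℝ × ℝ, ‖p‖ ≤ ε → p ∈ Icc (-ε) ε ×ˢ Icc (-ε) ε ∧ p ∈ D := by
    intro p hp
    have h1 : |p.1| ≤ ε := (norm_fst_le p).trans hp
    have h2 : |p.2| ≤ ε := (norm_snd_le p).trans hp
    refine ⟨⟨abs_le.mp h1, abs_le.mp h2⟩, ?_⟩
    have h3 : p.1 ^ 2 ≤ ε ^ 2 := sq_le_sq' (abs_le.mp h1).1 (abs_le.mp h1).2
    have h4 : p.2 ^ 2 ≤ ε ^ 2 := sq_le_sq' (abs_le.mp h2).1 (abs_le.mp h2).2
    have h5 : 0 < ε ^ 2 := by positivity
    show p.1 ^ 2 + p.2 ^ 2 < 4 * ε ^ 2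
    linarith
  have ptn : ∀ z ∈ Ioo c d, ∀ θ, ‖pt h z θ‖ ≤ √(h z) := by
    intro z _ θ
    have hr : 0 ≤ √(h z) := Real.sqrt_nonneg _
    refine max_le ?_ ?_
    · show ‖√(h z) * Real.cos θ‖ ≤ √(h z)
      rw [Real.norm_eq_abs, abs_mul, abs_of_nonneg hr]
      exact mul_le_of_le_one_right hr (Real.abs_cos_le_one θ)
    · show ‖√(h z) * Real.sin θ‖ ≤ √(h z)
      rw [Real.norm_eq_abs, abs_mul, abs_of_nonneg hr]
      exact mul_le_of_le_one_right hr (Real.abs_sin_le_one θ)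
  have re : ∀ z ∈ Ioo c d, √(h z) ≤ ε := by
    intro z hz
    have := Real.sqrt_le_sqrt (hh z hz).2.1.le
    rwa [Real.sqrt_sq hε.le] at this
  have hy : Hy h c d D g U :=
    { sm := hsm
      pos := fun z hz => (hh z hz).1
      op := hDo
      gs := hg
      inD := fun z hz θ => (box _ ((ptn z hz θ).trans (re z hz))).2
      eq := fun z hz θ => hU z hz θ }
  have cpd : ∀ i, ContDiffOn ℝ ∞ (pd i g) D := fun i => contDiffOn_pd i g D hDo hg
  have w1 : ∀ i, ∀ p : ℝ × ℝ, ‖p‖ ≤ ε → ‖pd i g p‖ ≤ N := fun i p hp =>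
    hw [i] (by simp) (by simp) p (box p hp).1
  have w2 : ∀ i j, ∀ p : ℝ × ℝ, ‖p‖ ≤ ε → ‖pd i (pd j g) p‖ ≤ N := fun i j p hp =>
    hw [i, j] (by simp) (by simp) p (box p hp).1
  refine ⟨?_, ?_⟩
  · intro z hz θ
    obtain ⟨hp, _, a0, a1, a2⟩ := hh z hz
    have hr : 0 ≤ √(h z) := Real.sqrt_nonneg _
    have hpe := (ptn z hz θ).trans (re z hz)
    obtain ⟨c1, c2, c3, c4⟩ := core hy A N N hA z hz θ (a0.trans hHA) (a1.trans hHA) (a2.trans hHA)
      (w1 _ _ hpe) (w1 _ _ hpe) (w2 _ _ _ hpe) (w2 _ _ _ hpe) (w2 _ _ _ hpe) (w2 _ _ _ hpe)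
    have hb : 2 * A ^ 2 * (√(h z) * N + √(h z) ^ 2 * N) ≤ 6 * A ^ 2 * (1 + ε) * N * √(h z) := by
      have e1 : √(h z) ^ 2 * N ≤ ε * (√(h z) * N) := by
        nlinarith [mul_le_mul_of_nonneg_right (re z hz) (mul_nonneg hr hN)]
      have e2 : 0 ≤ A ^ 2 * (√(h z) * N) := mul_nonneg (sq_nonneg A) (mul_nonneg hr hN)
      have e3 : 0 ≤ A ^ 2 * (√(h z) * N) * ε := mul_nonneg e2 hε.le
      nlinarith [mul_le_mul_of_nonneg_left e1 (sq_nonneg A)]
    refine ⟨c1.trans hb, c2.trans hb, c3.trans hb, c4.trans hb, ?_⟩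
    have m := mv g N (√(h z)) (fun p hp => diffAt g D hDo hg p (box p (hp.trans (re z hz))).2)
      (fun p hp => ⟨w1 _ _ (hp.trans (re z hz)), w1 _ _ (hp.trans (re z hz))⟩) (pt h z θ) (ptn z hz θ)
    have e : U z θ = g (pt h z θ) := hU z hz θ
    rw [e]
    refine m.trans ?_
    have e2 : 0 ≤ N * √(h z) := mul_nonneg hN hr
    nlinarith [mul_le_mul_of_nonneg_right hA1 e2, mul_nonneg (mul_nonneg (sq_nonneg A) e2) hε.le]
  · intro g0 g1 z hz θ
    obtain ⟨hp, _, a0, a1, a2⟩ := hh z hz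
    have hr : 0 ≤ √(h z) := Real.sqrt_nonneg _
    have hsq : √(h z) ^ 2 = h z := Real.sq_sqrt hp.le
    have hpe := (ptn z hz θ).trans (re z hz)
    have z1 : ∀ i, pd i g 0 = 0 := by
      intro i
      simp [pd, g1]
    have k1 : ∀ i, ∀ p : ℝ × ℝ, ‖p‖ ≤ √(h z) → ‖pd i g p‖ ≤ 2 * N * √(h z) := by
      intro i p hp
      have m := mv (pd i g) N (√(h z)) (fun p hp => diffAt _ D hDo (cpd i) p (box p (hp.trans (re z hz))).2)
        (fun p hp => ⟨w2 _ _ _ (hp.trans (re z hz)), w2 _ _ _ (hp.trans (re z hz))⟩) p hp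
      rwa [z1 i, sub_zero] at m
    obtain ⟨c1, c2, c3, c4⟩ := core hy A N (2 * N * √(h z)) hA z hz θ (a0.trans hHA) (a1.trans hHA) (a2.trans hHA)
      (k1 _ _ (ptn z hz θ)) (k1 _ _ (ptn z hz θ)) (w2 _ _ _ hpe) (w2 _ _ _ hpe) (w2 _ _ _ hpe) (w2 _ _ _ hpe)
    have hNh : 0 ≤ N * h z := mul_nonneg hN hp.le
    have hb : 2 * A ^ 2 * (√(h z) * (2 * N * √(h z)) + √(h z) ^ 2 * N) ≤ 6 * A ^ 2 * (1 + ε) * N * h z := by
      have e1 : 2 * A ^ 2 * (√(h z) * (2 * N * √(h z)) + √(h z) ^ 2 * N) = 6 * A ^ 2 * (N * h z) := by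
        linear_combination (6 * A ^ 2 * N) * hsq
      rw [e1]
      nlinarith [mul_nonneg (mul_nonneg (sq_nonneg A) hNh) hε.le]
    refine ⟨?_, c1.trans hb, c2.trans hb, c3.trans hb, c4.trans hb⟩
    have m := mv g (2 * N * √(h z)) (√(h z)) (fun p hp => diffAt g D hDo hg p (box p (hp.trans (re z hz))).2)
      (fun p hp => ⟨k1 _ _ hp, k1 _ _ hp⟩) (pt h z θ) (ptn z hz θ)
    have e : U z θ = g (pt h z θ) := hU z hz θ
    rw [g0, sub_zero] at m
    rw [e]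
    refine m.trans ?_
    have e1 : 2 * (2 * N * √(h z)) * √(h z) = 4 * (N * h z) := by
      linear_combination (4 * N) * hsq
    rw [e1]
    nlinarith [mul_le_mul_of_nonneg_right hA1 hNh, mul_nonneg (mul_nonneg (sq_nonneg A) hNh) hε.le]

end

end Pool.Agent.Lib.MP478c11.DB
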