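import Pool.Agent.Lib.MP_478c11_gt.DB.Geo

/-!
# Unbendable dumbbells (MP_478c11_gt): the size of the displacement, `SpecSIZ`
-/

set_option autoImplicit false

namespace Pool.Agent.Lib.MP478c11.DB

open Set Filter Topology
open scoped ContDiff

namespace SIZM

/-! ### words -/

theorem pd_smooth {Ω : Set (ℝ × ℝ)} (hΩ : IsOpen Ω) {g : ℝ × ℝ → E3} (hg : ContDiffOn ℝ ∞ g Ω)
    (i : Bool) : ContDiffOn ℝ ∞ (pd i g) Ω := by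
  have h1 : ContDiffOn ℝ ∞ (fderiv ℝ g) Ω := hg.fderiv_of_isOpen hΩ (by simp)
  cases i
  · exact h1.clm_apply contDiffOn_const
  · exact h1.clm_apply contDiffOn_const

theorem dw_smooth {Ω : Set (ℝ × ℝ)} (hΩ : IsOpen Ω) {g : ℝ × ℝ → E3} (hg : ContDiffOn ℝ ∞ g Ω) :
    ∀ w : List Bool, ContDiffOn ℝ ∞ (dw w g) Ω
  | [] => hg
  | i :: w => pd_smooth hΩ (dw_smooth hΩ hg w) i

theorem dw_diff {Ω : Set (ℝ × ℝ)} (hΩ : IsOpen Ω) {g : ℝ × ℝ → E3} (hg : ContDiffOn ℝ ∞ g Ω)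
    (w : List Bool) {p : ℝ × ℝ} (hp : p ∈ Ω) : DifferentiableAt ℝ (dw w g) p :=
  ((dw_smooth hΩ hg w).contDiffAt (hΩ.mem_nhds hp)).differentiableAt (by simp)

theorem dw_sub {Ω : Set (ℝ × ℝ)} (hΩ : IsOpen Ω) {g k : ℝ × ℝ → E3} (hg : ContDiffOn ℝ ∞ g Ω)
    (hk : ContDiffOn ℝ ∞ k Ω) :
    ∀ w : List Bool, ∀ p ∈ Ω, dw w (fun p => g p - k p) p = dw w g p - dw w k p
  | [], p, hp => rfl
  | i :: w, p, hp => by
    have ih := dw_sub hΩ hg hk w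
    have e : dw w (fun p => g p - k p) =ᶠ[𝓝 p] fun p => dw w g p - dw w k p :=
      Filter.eventuallyEq_of_mem (hΩ.mem_nhds hp) ih
    have e2 : fderiv ℝ (dw w (fun p => g p - k p)) p = fderiv ℝ (dw w g) p - fderiv ℝ (dw w k) p := by
      rw [e.fderiv_eq, fderiv_fun_sub (dw_diff hΩ hg w hp) (dw_diff hΩ hk w hp)]
    show pd i (dw w (fun p => g p - k p)) p = pd i (dw w g) p - pd i (dw w k) p
    unfold pd
    rw [e2]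
    split_ifs <;> rfl

theorem bnd {Ω K : Set (ℝ × ℝ)} (hΩ : IsOpen Ω) (hK : IsCompact K) (hKΩ : K ⊆ Ω)
    {g : ℝ × ℝ → E3} (hg : ContDiffOn ℝ ∞ g Ω) :
    ∃ C : ℝ, 0 ≤ C ∧ ∀ w : List Bool, w.length ≤ 21 → ∀ p ∈ K, ‖dw w g p‖ ≤ C := by
  have h1 : ∀ w : List Bool, ∃ C : ℝ, ∀ p ∈ K, ‖dw w g p‖ ≤ C := fun w =>
    hK.exists_bound_of_continuousOn ((dw_smooth hΩ hg w).continuousOn.mono hKΩ)
  choose C hC using h1
  have hf : {w : List Bool | w.length ≤ 21}.Finite := List.finite_length_le Bool 21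
  refine ⟨∑ w ∈ hf.toFinset, |C w|, Finset.sum_nonneg fun _ _ => abs_nonneg _, fun w hw p hp => ?_⟩
  refine (hC w p hp).trans ((le_abs_self _).trans ?_)
  exact Finset.single_le_sum (f := fun w => |C w|) (fun _ _ => abs_nonneg _)
    (hf.mem_toFinset.2 hw)

theorem dw_shift {g : ℝ × ℝ → E3} {c : ℝ × ℝ} (hg : ∀ p, g (p + c) = g p) :
    ∀ (w : List Bool) (p : ℝ × ℝ), dw w g (p + c) = dw w g p
  | [], p => hg p
  | i :: w, p => by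
    have ih := dw_shift hg w
    have e : (fun p => dw w g (p + c)) = dw w g := funext ih
    have e2 : fderiv ℝ (dw w g) (p + c) = fderiv ℝ (dw w g) p := by
      rw [← fderiv_comp_add_right c, e]
    show pd i (dw w g) (p + c) = pd i (dw w g) p
    unfold pd
    rw [e2]

theorem deriv_fst {k : ℝ × ℝ → E3} {z θ : ℝ} (hk : DifferentiableAt ℝ k (z, θ)) :
    HasDerivAt (fun s => k (s, θ)) (pd true k (z, θ)) z := by
  have h1 : HasFDerivAt k (fderiv ℝ k (z, θ)) (z, θ) := hk.hasFDerivAt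
  have h2 : HasDerivAt (fun s : ℝ => (s, θ)) ((1 : ℝ), (0 : ℝ)) z :=
    (hasDerivAt_id z).prodMk (hasDerivAt_const z θ)
  exact h1.comp_hasDerivAt z h2

theorem deriv_snd {k : ℝ × ℝ → E3} {z θ : ℝ} (hk : DifferentiableAt ℝ k (z, θ)) :
    HasDerivAt (fun s => k (z, s)) (pd false k (z, θ)) θ := by
  have h1 : HasFDerivAt k (fderiv ℝ k (z, θ)) (z, θ) := hk.hasFDerivAt
  have h2 : HasDerivAt (fun s : ℝ => (z, s)) ((0 : ℝ), (1 : ℝ)) θ :=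
    (hasDerivAt_const θ z).prodMk (hasDerivAt_id θ)
  exact h1.comp_hasDerivAt θ h2

/-! ### the charts -/

/-- The disc. -/
def Dk (ε : ℝ) : Set (ℝ × ℝ) := {p : ℝ × ℝ | p.1 ^ 2 + p.2 ^ 2 < 4 * ε ^ 2}

theorem isOpen_Dk (ε : ℝ) : IsOpen (Dk ε) :=
  isOpen_lt (by fun_prop) continuous_const

theorem box_Dk {ε : ℝ} (hε : 0 < ε) : Icc (-ε) ε ×ˢ Icc (-ε) ε ⊆ Dk ε := by
  rintro ⟨x, y⟩ ⟨hx, hy⟩
  have h1 : x ^ 2 ≤ ε ^ 2 := sq_le_sq' hx.1 hx.2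
  have h2 : y ^ 2 ≤ ε ^ 2 := sq_le_sq' hy.1 hy.2
  have h3 : 0 < ε ^ 2 := by positivity
  show x ^ 2 + y ^ 2 < 4 * ε ^ 2
  linarith

theorem Ps_smooth {φ : ℝ → ℝ} {ε : ℝ} (hε : 0 < ε)
    (hφ : ContDiffOn ℝ ∞ φ (Ioo (-(4 * ε ^ 2)) (4 * ε ^ 2))) : ContDiffOn ℝ ∞ (Ps φ) (Dk ε) := by
  rw [contDiffOn_euclidean]
  intro i
  fin_cases i
  · exact contDiff_fst.contDiffOn
  · exact contDiff_snd.contDiffOn
  · show ContDiffOn ℝ ∞ (fun p : ℝ × ℝ => φ (p.1 ^ 2 + p.2 ^ 2)) (Dk ε)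
    refine hφ.comp (s := Dk ε) (g := φ) (f := fun p : ℝ × ℝ => p.1 ^ 2 + p.2 ^ 2)
      ((contDiff_fst.pow 2).add (contDiff_snd.pow 2)).contDiffOn ?_
    intro p hp
    refine ⟨?_, hp⟩
    have h3 : 0 < ε ^ 2 := by positivity
    show -(4 * ε ^ 2) < p.1 ^ 2 + p.2 ^ 2
    nlinarith [sq_nonneg p.1, sq_nonneg p.2]

theorem Ps_mem {h φ : ℝ → ℝ} {a b ε : ℝ}
    (hr : ∀ s ∈ Ico 0 (4 * ε ^ 2), a ≤ φ s ∧ φ s ≤ b ∧ h (φ s) = s) {p : ℝ × ℝ} (hp : p ∈ Dk ε) :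
    Ps φ p ∈ Surf h a b := by
  have h1 := hr (p.1 ^ 2 + p.2 ^ 2) ⟨by positivity, hp⟩
  exact ⟨h1.1, h1.2.1, h1.2.2.symm⟩

theorem X_mem {h : ℝ → ℝ} {a b z : ℝ} (hz : z ∈ Icc a b) (h0 : 0 ≤ h z) (θ : ℝ) :
    X h z θ ∈ Surf h a b := by
  refine ⟨hz.1, hz.2, ?_⟩
  show (√(h z) * Real.cos θ) ^ 2 + (√(h z) * Real.sin θ) ^ 2 = h z
  have h1 := Real.sq_sqrt h0
  have h2 := Real.sin_sq_add_cos_sq θ
  calc (√(h z) * Real.cos θ) ^ 2 + (√(h z) * Real.sin θ) ^ 2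
      = √(h z) ^ 2 * (Real.sin θ ^ 2 + Real.cos θ ^ 2) := by ring
    _ = h z := by rw [h1, h2, mul_one]

theorem X_eq_Ps {h φ : ℝ → ℝ} {z : ℝ} (h0 : 0 ≤ h z) (hφ : φ (h z) = z) (θ : ℝ) :
    X h z θ = Ps φ (√(h z) * Real.cos θ, √(h z) * Real.sin θ) := by
  have h1 := Real.sq_sqrt h0
  have h2 := Real.sin_sq_add_cos_sq θ
  have h3 : (√(h z) * Real.cos θ) ^ 2 + (√(h z) * Real.sin θ) ^ 2 = h z := by
    calc (√(h z) * Real.cos θ) ^ 2 + (√(h z) * Real.sin θ) ^ 2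
        = √(h z) ^ 2 * (Real.sin θ ^ 2 + Real.cos θ ^ 2) := by ring
      _ = h z := by rw [h1, h2, mul_one]
  unfold X Ps
  show !₂[√(h z) * Real.cos θ, √(h z) * Real.sin θ, z] =
    !₂[√(h z) * Real.cos θ, √(h z) * Real.sin θ,
      φ ((√(h z) * Real.cos θ) ^ 2 + (√(h z) * Real.sin θ) ^ 2)]
  rw [h3, hφ]

theorem X_smooth {h : ℝ → ℝ} {a b : ℝ} (hh : ContDiff ℝ ∞ h) (hpos : ∀ z, a < z → z < b → 0 < h z) :
    ContDiffOn ℝ ∞ (fun p : ℝ × ℝ => X h p.1 p.2) (Ioo a b ×ˢ univ) := by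
  have h1 : ContDiffOn ℝ ∞ (fun p : ℝ × ℝ => √(h p.1)) (Ioo a b ×ˢ univ) :=
    ContDiffOn.sqrt (hh.comp contDiff_fst).contDiffOn fun p hp => (hpos p.1 hp.1.1 hp.1.2).ne'
  rw [contDiffOn_euclidean]
  intro i
  fin_cases i
  · exact h1.mul (Real.contDiff_cos.comp contDiff_snd).contDiffOn
  · exact h1.mul (Real.contDiff_sin.comp contDiff_snd).contDiffOn
  · exact contDiff_fst.contDiffOn

theorem X_per {h : ℝ → ℝ} (p : ℝ × ℝ) :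
    (fun p : ℝ × ℝ => X h p.1 p.2) (p + (0, 2 * Real.pi)) = (fun p : ℝ × ℝ => X h p.1 p.2) p := by
  show X h (p.1 + 0) (p.2 + 2 * Real.pi) = X h p.1 p.2
  unfold X
  rw [add_zero, Real.cos_add_two_pi, Real.sin_add_two_pi]

/-- Words of `X h`, all angles. -/
theorem bndX {h : ℝ → ℝ} {a b c d : ℝ} (hh : ContDiff ℝ ∞ h) (hpos : ∀ z, a < z → z < b → 0 < h z)
    (hc : a < c) (hd : d < b) : ∃ C : ℝ, 0 ≤ C ∧ ∀ w : List Bool, w.length ≤ 21 →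
      ∀ z ∈ Icc c d, ∀ θ : ℝ, ‖dw w (fun p : ℝ × ℝ => X h p.1 p.2) (z, θ)‖ ≤ C := by
  have hK : IsCompact (Icc c d ×ˢ Icc (0 : ℝ) (2 * Real.pi)) := isCompact_Icc.prod isCompact_Icc
  obtain ⟨C, hC0, hC⟩ := bnd (isOpen_Ioo.prod isOpen_univ) hK
    (fun p hp => ⟨⟨lt_of_lt_of_le hc hp.1.1, lt_of_le_of_lt hp.1.2 hd⟩, trivial⟩) (X_smooth hh hpos)
  refine ⟨C, hC0, fun w hw z hz θ => ?_⟩
  have hper : Function.Periodic (fun θ => dw w (fun p : ℝ × ℝ => X h p.1 p.2) (z, θ))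
      (2 * Real.pi) := by
    intro θ
    have := dw_shift (g := fun p : ℝ × ℝ => X h p.1 p.2) (c := (0, 2 * Real.pi)) X_per w (z, θ)
    simpa using this
  obtain ⟨y, hy, hxy⟩ := hper.exists_mem_Ico₀ (by positivity) θ
  have e : dw w (fun p : ℝ × ℝ => X h p.1 p.2) (z, θ) = dw w (fun p : ℝ × ℝ => X h p.1 p.2) (z, y) :=
    hxy
  rw [e]
  exact hC w hw (z, y) ⟨hz, hy.1, hy.2.le⟩

/-- The third component of the derivative of the chart vanishes at the centre. -/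
theorem Ps_der {φ : ℝ → ℝ} {ε : ℝ} (hε : 0 < ε)
    (hφ : ContDiffOn ℝ ∞ φ (Ioo (-(4 * ε ^ 2)) (4 * ε ^ 2))) (v : ℝ × ℝ) :
    (fderiv ℝ (Ps φ) 0 v) 2 = 0 := by
  have h4 : 0 < 4 * ε ^ 2 := by positivity
  have h0 : (0 : ℝ × ℝ) ∈ Dk ε := by
    show (0 : ℝ) ^ 2 + 0 ^ 2 < 4 * ε ^ 2
    linarith
  have hd : DifferentiableAt ℝ (Ps φ) 0 :=
    ((Ps_smooth hε hφ).contDiffAt ((isOpen_Dk ε).mem_nhds h0)).differentiableAt (by simp)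
  have h1 : HasFDerivAt (fun p => Ps φ p 2) ((EuclideanSpace.proj (2 : Fin 3)).comp
      (fderiv ℝ (Ps φ) 0)) (0 : ℝ × ℝ) :=
    (EuclideanSpace.proj (𝕜 := ℝ) (2 : Fin 3)).hasFDerivAt.comp (0 : ℝ × ℝ) hd.hasFDerivAt
  have hφd : DifferentiableAt ℝ φ ((0 : ℝ × ℝ).1 ^ 2 + (0 : ℝ × ℝ).2 ^ 2) := by
    have h5 : ((0 : ℝ × ℝ).1 ^ 2 + (0 : ℝ × ℝ).2 ^ 2) = 0 := by simp
    rw [h5]
    exact (hφ.contDiffAt (isOpen_Ioo.mem_nhds ⟨by linarith, h4⟩)).differentiableAt (by simp)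
  have h2 : HasFDerivAt (fun p : ℝ × ℝ => p.1 ^ 2 + p.2 ^ 2) (0 : ℝ × ℝ →L[ℝ] ℝ) (0 : ℝ × ℝ) := by
    have h6 := ((hasFDerivAt_fst (𝕜 := ℝ) (p := (0 : ℝ × ℝ))).pow 2).add
      ((hasFDerivAt_snd (𝕜 := ℝ) (p := (0 : ℝ × ℝ))).pow 2)
    refine h6.congr_fderiv ?_
    ext <;> simp
  have h3 : HasFDerivAt (fun p : ℝ × ℝ => φ (p.1 ^ 2 + p.2 ^ 2))
      (deriv φ ((0 : ℝ × ℝ).1 ^ 2 + (0 : ℝ × ℝ).2 ^ 2) • (0 : ℝ × ℝ →L[ℝ] ℝ)) (0 : ℝ × ℝ) :=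
    hφd.hasDerivAt.comp_hasFDerivAt (0 : ℝ × ℝ) h2
  have h7 := h1.unique h3
  have h8 := congrArg (fun L : ℝ × ℝ →L[ℝ] ℝ => L v) h7
  simpa using h8

/-- The statement of the interpolation inequality for a fixed length. -/
def Intp (l C : ℝ) : Prop :=
  ∀ (Ω : Set (ℝ × ℝ)) (g : ℝ × ℝ → E3) (x₀ x₁ y₀ y₁ ν M : ℝ), IsOpen Ω → ContDiffOn ℝ ∞ g Ω →
    l ≤ x₁ - x₀ → l ≤ y₁ - y₀ → Icc x₀ x₁ ×ˢ Icc y₀ y₁ ⊆ Ω → 0 ≤ ν → ν ≤ 1 → 1 ≤ M →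
    (∀ w : List Bool, w.length ≤ 21 → ∀ p ∈ Icc x₀ x₁ ×ˢ Icc y₀ y₁, ‖dw w g p‖ ≤ M) →
    (∀ p ∈ Icc x₀ x₁ ×ˢ Icc y₀ y₁, ‖g p‖ ≤ ν) → ∀ w : List Bool, 1 ≤ w.length → w.length ≤ 2 →
      ∀ p ∈ Icc x₀ x₁ ×ˢ Icc y₀ y₁, ‖dw w g p‖ ≤ C * M * ν ^ (9 / 10 : ℝ)

theorem chart {h φ : ℝ → ℝ} {a b ε C₀ C₂ M M' ν l : ℝ} {f : E3 → E3} {Ω : Set E3} (hε : 0 < ε)
    (hφ : ContDiffOn ℝ ∞ φ (Ioo (-(4 * ε ^ 2)) (4 * ε ^ 2)))
    (hr : ∀ s ∈ Ico 0 (4 * ε ^ 2), a ≤ φ s ∧ φ s ≤ b ∧ h (φ s) = s)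
    (hS : Surf h a b ⊆ Ω) (hf : ContDiffOn ℝ ∞ f Ω)
    (hC₀ : ∀ w : List Bool, w.length ≤ 21 → ∀ p ∈ Icc (-ε) ε ×ˢ Icc (-ε) ε, ‖dw w (Ps φ) p‖ ≤ C₀)
    (hM : ∀ w : List Bool, w.length ≤ 21 → ∀ p ∈ Icc (-ε) ε ×ˢ Icc (-ε) ε,
      ‖dw w (fun p => f (Ps φ p)) p‖ ≤ M)
    (hν0 : 0 ≤ ν) (hν1 : ν ≤ 1) (hν : ∀ x ∈ Surf h a b, ‖f x - x‖ ≤ ν) (hMM : M + C₀ ≤ M')
    (h1M : 1 ≤ M') (hl : l ≤ 2 * ε) (hIN : Intp l C₂) :
    ContDiffOn ℝ ∞ (fun p => f (Ps φ p) - Ps φ p) (Dk ε) ∧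
      ∀ w : List Bool, 1 ≤ w.length → w.length ≤ 2 → ∀ p ∈ Icc (-ε) ε ×ˢ Icc (-ε) ε,
        ‖dw w (fun p => f (Ps φ p) - Ps φ p) p‖ ≤ C₂ * M' * ν ^ (9 / 10 : ℝ) := by
  have hP := Ps_smooth hε hφ
  have hfP : ContDiffOn ℝ ∞ (fun p => f (Ps φ p)) (Dk ε) :=
    hf.comp hP fun p hp => hS (Ps_mem hr hp)
  have hg : ContDiffOn ℝ ∞ (fun p => f (Ps φ p) - Ps φ p) (Dk ε) := hfP.sub hP
  refine ⟨hg, ?_⟩
  refine hIN (Dk ε) _ (-ε) ε (-ε) ε ν M' (isOpen_Dk ε) hg (by linarith) (by linarith) (box_Dk hε)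
    hν0 hν1 h1M ?_ ?_
  · intro w hw p hp
    rw [dw_sub (isOpen_Dk ε) hfP hP w p (box_Dk hε hp)]
    refine (norm_sub_le _ _).trans ?_
    linarith [hC₀ w hw p hp, hM w hw p hp]
  · intro p hp
    exact hν _ (Ps_mem hr (box_Dk hε hp))

theorem Uf_smooth {h : ℝ → ℝ} {a b : ℝ} {f : E3 → E3} {Ω : Set E3} (hh : ContDiff ℝ ∞ h)
    (hpos : ∀ z, a < z → z < b → 0 < h z) (hS : Surf h a b ⊆ Ω) (hf : ContDiffOn ℝ ∞ f Ω) :
    ContDiffOn ℝ ∞ (fun p : ℝ × ℝ => f (X h p.1 p.2)) (Ioo a b ×ˢ univ) ∧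
    ContDiffOn ℝ ∞ (fun p : ℝ × ℝ => Uf h f p.1 p.2) (Ioo a b ×ˢ univ) := by
  have hX := X_smooth hh hpos
  have hfX : ContDiffOn ℝ ∞ (fun p : ℝ × ℝ => f (X h p.1 p.2)) (Ioo a b ×ˢ univ) :=
    hf.comp hX fun p hp => hS (X_mem ⟨hp.1.1.le, hp.1.2.le⟩ (hpos p.1 hp.1.1 hp.1.2).le p.2)
  exact ⟨hfX, hfX.sub hX⟩

theorem middle {h : ℝ → ℝ} {a b c d C₀ C₂ M M' ν l : ℝ} {f : E3 → E3} {Ω : Set E3}
    (hh : ContDiff ℝ ∞ h) (hpos : ∀ z, a < z → z < b → 0 < h z) (hc : a < c) (hd : d < b)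
    (hS : Surf h a b ⊆ Ω) (hf : ContDiffOn ℝ ∞ f Ω)
    (hC₀ : ∀ w : List Bool, w.length ≤ 21 →
      ∀ z ∈ Icc c d, ∀ θ : ℝ, ‖dw w (fun p : ℝ × ℝ => X h p.1 p.2) (z, θ)‖ ≤ C₀)
    (hM : ∀ w : List Bool, w.length ≤ 21 → ∀ z ∈ Icc c d, ∀ θ : ℝ,
      ‖dw w (fun p : ℝ × ℝ => f (X h p.1 p.2)) (z, θ)‖ ≤ M)
    (hν0 : 0 ≤ ν) (hν1 : ν ≤ 1) (hν : ∀ x ∈ Surf h a b, ‖f x - x‖ ≤ ν) (hMM : M + C₀ ≤ M')
    (h1M : 1 ≤ M') (hl : l ≤ d - c) (hl2 : l ≤ 2 * Real.pi) (hIN : Intp l C₂) :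
    ∀ w : List Bool, 1 ≤ w.length → w.length ≤ 2 → ∀ z ∈ Icc c d, ∀ θ : ℝ,
        ‖dw w (fun p : ℝ × ℝ => Uf h f p.1 p.2) (z, θ)‖ ≤ C₂ * M' * ν ^ (9 / 10 : ℝ) := by
  intro w hw1 hw2 z hz θ
  have hX := X_smooth hh hpos
  obtain ⟨hfX, hU⟩ := Uf_smooth hh hpos hS hf
  have hΩ : IsOpen (Ioo a b ×ˢ (univ : Set ℝ)) := isOpen_Ioo.prod isOpen_univ
  have hsub : Icc c d ×ˢ Icc θ (θ + 2 * Real.pi) ⊆ Ioo a b ×ˢ (univ : Set ℝ) :=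
    fun p hp => ⟨⟨lt_of_lt_of_le hc hp.1.1, lt_of_le_of_lt hp.1.2 hd⟩, trivial⟩
  refine hIN (Ioo a b ×ˢ univ) _ c d θ (θ + 2 * Real.pi) ν M' hΩ hU hl (by linarith) hsub
    hν0 hν1 h1M ?_ ?_ w hw1 hw2 (z, θ) ⟨hz, le_refl _, by linarith [Real.pi_pos]⟩
  · rintro w hw ⟨z, t⟩ hp
    have e := dw_sub hΩ hfX hX w (z, t) (hsub hp)
    have e' : dw w (fun p : ℝ × ℝ => Uf h f p.1 p.2) (z, t) =
      dw w (fun p : ℝ × ℝ => f (X h p.1 p.2)) (z, t) - dw w (fun p : ℝ × ℝ => X h p.1 p.2) (z, t) := e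
    rw [e']
    refine (norm_sub_le _ _).trans ?_
    linarith [hC₀ w hw z hp.1 t, hM w hw z hp.1 t]
  · rintro ⟨z, t⟩ hp
    have hz' := (hsub hp).1
    exact hν _ (X_mem ⟨hz'.1.le, hz'.2.le⟩ (hpos z hz'.1 hz'.2).le t)

theorem mid_bd {h : ℝ → ℝ} {a b H N₂ : ℝ} {U : ℝ → ℝ → E3} (hh : ContDiff ℝ ∞ h)
    (hU : ContDiffOn ℝ ∞ (fun p : ℝ × ℝ => U p.1 p.2) (Ioo a b ×ˢ univ))
    {z θ : ℝ} (hz : z ∈ Ioo a b) (hH : 1 ≤ H) (h1 : |h z| ≤ H) (h2 : |deriv h z| ≤ H)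
    (hN : 0 ≤ N₂)
    (hw : ∀ w : List Bool, 1 ≤ w.length → w.length ≤ 2 →
      ‖dw w (fun p : ℝ × ℝ => U p.1 p.2) (z, θ)‖ ≤ N₂) :
    ‖tz h U z θ‖ ≤ 2 * H ^ 2 * N₂ ∧ ‖dt U z θ‖ ≤ 2 * H ^ 2 * N₂ ∧
      ‖tz h (tz h U) z θ‖ ≤ 2 * H ^ 2 * N₂ ∧ ‖dt (tz h U) z θ‖ ≤ 2 * H ^ 2 * N₂ := by
  set k : ℝ × ℝ → E3 := fun p : ℝ × ℝ => U p.1 p.2 with hk
  have hΩ : IsOpen (Ioo a b ×ˢ (univ : Set ℝ)) := isOpen_Ioo.prod isOpen_univ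
  have hd : ∀ w, ∀ s ∈ Ioo a b, ∀ t : ℝ, DifferentiableAt ℝ (dw w k) (s, t) :=
    fun w s hs t => dw_diff hΩ hU w ⟨hs, trivial⟩
  have e1 : ∀ s ∈ Ioo a b, ∀ t, tz h U s t = h s • dw [true] k (s, t) := by
    intro s hs t
    have h3 : deriv (fun r => k (r, t)) s = pd true k (s, t) := (deriv_fst (hd [] s hs t)).deriv
    show h s • deriv (fun r => k (r, t)) s = h s • pd true k (s, t)
    rw [h3]
  have e2 : dt U z θ = dw [false] k (z, θ) := (deriv_snd (hd [] z hz θ)).deriv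
  have hhd : HasDerivAt h (deriv h z) z := (hh.differentiable (by simp) z).hasDerivAt
  have e3 : tz h (tz h U) z θ =
      h z • (h z • dw [true, true] k (z, θ) + deriv h z • dw [true] k (z, θ)) := by
    have h3 : HasDerivAt (fun s => h s • dw [true] k (s, θ))
        (h z • dw [true, true] k (z, θ) + deriv h z • dw [true] k (z, θ)) z :=
      hhd.smul (deriv_fst (hd [true] z hz θ))
    have h4 : (fun s => tz h U s θ) =ᶠ[𝓝 z] fun s => h s • dw [true] k (s, θ) :=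
      Filter.eventuallyEq_of_mem (isOpen_Ioo.mem_nhds hz) fun s hs => e1 s hs θ
    show h z • deriv (fun s => tz h U s θ) z = _
    rw [h4.deriv_eq, h3.deriv]
  have e4 : dt (tz h U) z θ = h z • dw [false, true] k (z, θ) := by
    have h3 : HasDerivAt (fun t => h z • dw [true] k (z, t)) (h z • dw [false, true] k (z, θ)) θ :=
      (deriv_snd (hd [true] z hz θ)).const_smul (h z)
    have h4 : (fun t => tz h U z t) = fun t => h z • dw [true] k (z, t) := funext (e1 z hz)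
    show deriv (fun t => tz h U z t) θ = _
    rw [h4, h3.deriv]
  have w1 := hw [true] (by simp) (by simp)
  have w2 := hw [false] (by simp) (by simp)
  have w3 := hw [true, true] (by simp) (by simp)
  have w4 := hw [false, true] (by simp) (by simp)
  have hH2 : H ≤ H ^ 2 := by nlinarith
  have hHN : H * N₂ ≤ H ^ 2 * N₂ := mul_le_mul_of_nonneg_right hH2 hN
  have hHN1 : N₂ ≤ H * N₂ := by nlinarith
  have hH0 : 0 ≤ H := by linarith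
  have n1 : ∀ v : E3, ‖v‖ ≤ N₂ → ‖h z • v‖ ≤ H * N₂ := by
    intro v hv
    rw [norm_smul, Real.norm_eq_abs]
    exact mul_le_mul h1 hv (norm_nonneg _) hH0
  have n2 : ∀ v : E3, ‖v‖ ≤ N₂ → ‖deriv h z • v‖ ≤ H * N₂ := by
    intro v hv
    rw [norm_smul, Real.norm_eq_abs]
    exact mul_le_mul h2 hv (norm_nonneg _) hH0
  refine ⟨?_, ?_, ?_, ?_⟩
  · rw [e1 z hz θ]
    linarith [n1 _ w1]
  · rw [e2]
    linarith
  · rw [e3, norm_smul, Real.norm_eq_abs]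
    have h5 : ‖h z • dw [true, true] k (z, θ) + deriv h z • dw [true] k (z, θ)‖ ≤ 2 * (H * N₂) := by
      refine (norm_add_le _ _).trans ?_
      linarith [n1 _ w3, n2 _ w1]
    calc |h z| * ‖h z • dw [true, true] k (z, θ) + deriv h z • dw [true] k (z, θ)‖
        ≤ H * (2 * (H * N₂)) := mul_le_mul h1 h5 (norm_nonneg _) hH0
      _ = 2 * H ^ 2 * N₂ := by ring
  · rw [e4]
    linarith [n1 _ w4]

theorem leK {A K ρ s x : ℝ} (hx : x ≤ A * ρ * s) (hA : A ≤ K) (hρ : 0 ≤ ρ) (hs : 0 ≤ s) :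
    x ≤ K * ρ * s :=
  hx.trans (mul_le_mul_of_nonneg_right (mul_le_mul_of_nonneg_right hA hρ) hs)

end SIZM

open SIZM in
theorem specSIZ (hIN2 : SpecIN2) (hPOL : SpecPOL) : SpecSIZ := by
  intro h a p q b φa φb ε δ hD hCh M
  have hh := hD.smooth
  have hab : a < b := hD.ap.trans (hD.pq.trans hD.qb)
  have hε := hCh.e0
  have hδ := hCh.d0
  have hδ1 := hCh.d1
  have hpos := hD.pos
  -- bounds of h
  obtain ⟨H, hH1, hH⟩ : ∃ H : ℝ, 1 ≤ H ∧ ∀ z ∈ Icc a b, |h z| ≤ H ∧ |deriv h z| ≤ H ∧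
      |deriv (deriv h) z| ≤ H := by
    have hh1 : ContDiff ℝ ∞ (deriv h) := (contDiff_infty_iff_deriv.1 hh).2
    have hh2 : ContDiff ℝ ∞ (deriv (deriv h)) := (contDiff_infty_iff_deriv.1 hh1).2
    obtain ⟨A, hA⟩ := isCompact_Icc (a := a) (b := b) |>.exists_bound_of_continuousOn
      hh.continuous.continuousOn
    obtain ⟨B, hB⟩ := isCompact_Icc (a := a) (b := b) |>.exists_bound_of_continuousOn
      hh1.continuous.continuousOn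
    obtain ⟨C, hC⟩ := isCompact_Icc (a := a) (b := b) |>.exists_bound_of_continuousOn
      hh2.continuous.continuousOn
    refine ⟨1 + |A| + |B| + |C|, by linarith [abs_nonneg A, abs_nonneg B, abs_nonneg C],
      fun z hz => ⟨?_, ?_, ?_⟩⟩
    · have := hA z hz
      rw [Real.norm_eq_abs] at this
      linarith [abs_nonneg B, abs_nonneg C, le_abs_self A]
    · have := hB z hz
      rw [Real.norm_eq_abs] at this
      linarith [abs_nonneg A, abs_nonneg C, le_abs_self B]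
    · have := hC z hz
      rw [Real.norm_eq_abs] at this
      linarith [abs_nonneg A, abs_nonneg B, le_abs_self C]
  obtain ⟨h₀, hh0, hmin⟩ : ∃ h₀ : ℝ, 0 < h₀ ∧ ∀ z ∈ Icc (a + δ / 2) (b - δ / 2), h₀ ≤ h z := by
    obtain ⟨z₀, hz₀, hz⟩ := (isCompact_Icc (a := a + δ / 2) (b := b - δ / 2)).exists_isMinOn
      ⟨a + δ / 2, ⟨le_refl _, by linarith⟩⟩ hh.continuous.continuousOn
    exact ⟨h z₀, hpos z₀ (by linarith [hz₀.1]) (by linarith [hz₀.2]), fun z hz' => hz hz'⟩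
  -- the constants
  obtain ⟨Ca, hCa0, hCa⟩ := bnd (isOpen_Dk ε)
    (isCompact_Icc.prod isCompact_Icc : IsCompact (Icc (-ε) ε ×ˢ Icc (-ε) ε)) (box_Dk hε)
    (Ps_smooth hε hCh.sa)
  obtain ⟨Cb, hCb0, hCb⟩ := bnd (isOpen_Dk ε)
    (isCompact_Icc.prod isCompact_Icc : IsCompact (Icc (-ε) ε ×ˢ Icc (-ε) ε)) (box_Dk hε)
    (Ps_smooth hε hCh.sb)
  obtain ⟨Cx, hCx0, hCx⟩ := bndX hh hpos (show a < a + δ / 2 by linarith)
    (show b - δ / 2 < b by linarith)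
  obtain ⟨l, hl0, hl1, hl2, hl3⟩ : ∃ l : ℝ, 0 < l ∧ l ≤ 2 * ε ∧ l ≤ (b - δ / 2) - (a + δ / 2) ∧
      l ≤ 2 * Real.pi := by
    refine ⟨min (2 * ε) (min ((b - δ / 2) - (a + δ / 2)) (2 * Real.pi)), ?_, min_le_left _ _,
      (min_le_right _ _).trans (min_le_left _ _), (min_le_right _ _).trans (min_le_right _ _)⟩
    refine lt_min (by positivity) (lt_min (by linarith) (by positivity))
  obtain ⟨C₂, hC₂, hIN⟩ := hIN2 l hl0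
  obtain ⟨CP, hCP, hP⟩ := hPOL H ε hε
  set M' : ℝ := |M| + Ca + Cb + Cx + 1 with hM'
  have hM0 := abs_nonneg M
  have hM1 := le_abs_self M
  have h1M : 1 ≤ M' := by linarith
  have hM'0 : 0 < M' := by linarith
  have hs0 : 0 < √h₀ := Real.sqrt_pos.2 hh0
  have hH0 : 0 < H := by linarith
  set K : ℝ := CP * (C₂ * M') + 2 * H ^ 2 * (C₂ * M') / h₀ + 2 * H ^ 2 * (C₂ * M') / √h₀ + 1 / h₀ +
    2 / √h₀ with hK
  have t1 : 0 < CP * (C₂ * M') := by positivity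
  have t2 : 0 < 2 * H ^ 2 * (C₂ * M') / h₀ := by positivity
  have t3 : 0 < 2 * H ^ 2 * (C₂ * M') / √h₀ := by positivity
  have t4 : 0 < 1 / h₀ := by positivity
  have t5 : 0 < 2 / √h₀ := by positivity
  refine ⟨K, by linarith, ?_⟩
  intro J f ν hG hB hν0 hν1 hν
  obtain ⟨Ω, hΩo, hΩS, hfs⟩ := hG.smooth
  set ρ : ℝ := ν ^ (9 / 10 : ℝ) with hρ
  have hρ0 : 0 ≤ ρ := Real.rpow_nonneg hν0 _
  have hρ1 : ρ ≤ 1 := Real.rpow_le_one hν0 hν1 (by norm_num)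
  have hνρ : ν ≤ ρ := by
    have := Real.rpow_le_rpow_of_exponent_ge' hν0 hν1 (by norm_num : (0 : ℝ) ≤ 9 / 10)
      (by norm_num : (9 / 10 : ℝ) ≤ 1)
    rwa [Real.rpow_one] at this
  obtain ⟨hga, hwa⟩ := chart hε hCh.sa hCh.ra hΩS hfs hCa hB.ba hν0 hν1 hν
    (show M + Ca ≤ M' by linarith) h1M hl1 hIN
  obtain ⟨hgb, hwb⟩ := chart hε hCh.sb hCh.rb hΩS hfs hCb hB.bb hν0 hν1 hν
    (show M + Cb ≤ M' by linarith) h1M hl1 hIN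
  have hwx := middle hh hpos (show a < a + δ / 2 by linarith)
    (show b - δ / 2 < b by linarith) hΩS hfs hCx hB.bc hν0 hν1 hν
    (show M + Cx ≤ M' by linarith) h1M hl2 hl3 hIN
  have hUs := (Uf_smooth hh hpos hΩS hfs).2
  have hN2 : 0 ≤ C₂ * M' * ρ := by positivity
  -- the three regions
  have hA := hP h a (a + δ) (C₂ * M' * ρ) (fun p => f (Ps φa p) - Ps φa p) (Uf h f) hh hN2
    (fun z hz => ⟨hpos z hz.1 (by linarith [hz.2]), (hCh.ia z hz.1 hz.2).1,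
      hH z ⟨hz.1.le, by linarith [hz.2]⟩⟩) hga hwa
    (fun z hz θ => by
      have h1 := hpos z hz.1 (by linarith [hz.2])
      have h2 := X_eq_Ps h1.le (hCh.ia z hz.1 hz.2).2 θ
      show f (X h z θ) - X h z θ = _
      rw [h2])
  have hBB := hP h (b - δ) b (C₂ * M' * ρ) (fun p => f (Ps φb p) - Ps φb p) (Uf h f) hh hN2
    (fun z hz => ⟨hpos z (by linarith [hz.1]) hz.2, (hCh.ib z hz.1 hz.2).1,
      hH z ⟨by linarith [hz.1], hz.2.le⟩⟩) hgb hwb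
    (fun z hz θ => by
      have h1 := hpos z (by linarith [hz.1]) hz.2
      have h2 := X_eq_Ps h1.le (hCh.ib z hz.1 hz.2).2 θ
      show f (X h z θ) - X h z θ = _
      rw [h2])
  have hMid : ∀ z ∈ Icc (a + δ / 2) (b - δ / 2), ∀ θ,
      ‖tz h (Uf h f) z θ‖ ≤ 2 * H ^ 2 * (C₂ * M' * ρ) ∧
      ‖dt (Uf h f) z θ‖ ≤ 2 * H ^ 2 * (C₂ * M' * ρ) ∧
      ‖tz h (tz h (Uf h f)) z θ‖ ≤ 2 * H ^ 2 * (C₂ * M' * ρ) ∧
      ‖dt (tz h (Uf h f)) z θ‖ ≤ 2 * H ^ 2 * (C₂ * M' * ρ) := by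
    intro z hz θ
    have hz' : z ∈ Ioo a b := ⟨by linarith [hz.1], by linarith [hz.2]⟩
    have h1 := hH z ⟨hz'.1.le, hz'.2.le⟩
    exact mid_bd hh hUs hz' hH1 h1.1 h1.2.1 hN2 fun w hw1 hw2 => hwx w hw1 hw2 z hz θ
  have hU : ∀ z ∈ Ioo a b, ∀ θ, ‖Uf h f z θ‖ ≤ ν := fun z hz θ =>
    hν _ (X_mem ⟨hz.1.le, hz.2.le⟩ (hpos z hz.1 hz.2).le θ)
  -- the centre of the lower chart
  have h4 : 0 < 4 * ε ^ 2 := by positivity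
  have hD0 : (0 : ℝ × ℝ) ∈ Dk ε := by
    show (0 : ℝ) ^ 2 + 0 ^ 2 < 4 * ε ^ 2
    linarith
  have hPs0 : Ps φa 0 = !₂[0, 0, a] := by
    have e : φa ((0 : ℝ) ^ 2 + 0 ^ 2) = a := by
      rw [show (0 : ℝ) ^ 2 + 0 ^ 2 = 0 by norm_num, hCh.a0]
    show !₂[(0 : ℝ), 0, φa ((0 : ℝ) ^ 2 + 0 ^ 2)] = _
    rw [e]
  have hg0 : f (Ps φa 0) - Ps φa 0 = 0 := by
    rw [hPs0, hG.base, sub_self]
  have hgd : fderiv ℝ (fun p => f (Ps φa p) - Ps φa p) 0 = 0 := by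
    have hPm : Ps φa 0 ∈ Surf h a b := Ps_mem hCh.ra hD0
    have hdP : DifferentiableAt ℝ (Ps φa) 0 :=
      ((Ps_smooth hε hCh.sa).contDiffAt ((isOpen_Dk ε).mem_nhds hD0)).differentiableAt (by simp)
    have hdf : DifferentiableAt ℝ f (Ps φa 0) :=
      (hfs.contDiffAt (hΩo.mem_nhds (hΩS hPm))).differentiableAt (by simp)
    have h1 : HasFDerivAt (fun p => f (Ps φa p) - Ps φa p)
        ((fderiv ℝ f (Ps φa 0)).comp (fderiv ℝ (Ps φa) 0) - fderiv ℝ (Ps φa) 0) 0 :=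
      (hdf.hasFDerivAt.comp (0 : ℝ × ℝ) hdP.hasFDerivAt).sub hdP.hasFDerivAt
    rw [h1.fderiv]
    refine ContinuousLinearMap.ext fun v => ?_
    have h2 := hG.dbase (fderiv ℝ (Ps φa) 0 v) (Ps_der hε hCh.sa v)
    rw [hPs0]
    show fderiv ℝ f !₂[0, 0, a] (fderiv ℝ (Ps φa) 0 v) - fderiv ℝ (Ps φa) 0 v = 0
    rw [h2, sub_self]
  have hLow := hA.2 hg0 hgd
  have eA : CP * (C₂ * M' * ρ) = CP * (C₂ * M') * ρ := by ring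
  rw [eA] at hA hBB hLow
  have kA : CP * (C₂ * M') ≤ K := by linarith
  have kB : 2 * H ^ 2 * (C₂ * M') / h₀ ≤ K := by linarith
  have kC : 2 * H ^ 2 * (C₂ * M') / √h₀ ≤ K := by linarith
  have kD : 1 / h₀ ≤ K := by linarith
  have kE : 2 / √h₀ ≤ K := by linarith
  -- conversion in the middle
  have hsq : ∀ z ∈ Icc (a + δ / 2) (b - δ / 2), √h₀ ≤ √(h z) := fun z hz =>
    Real.sqrt_le_sqrt (hmin z hz)
  have cS : ∀ z ∈ Icc (a + δ / 2) (b - δ / 2), ∀ x : ℝ, x ≤ 2 * H ^ 2 * (C₂ * M' * ρ) →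
      x ≤ K * ρ * √(h z) := by
    intro z hz x hx
    refine leK (hx.trans ?_) kC hρ0 (Real.sqrt_nonneg _)
    calc 2 * H ^ 2 * (C₂ * M' * ρ) = 2 * H ^ 2 * (C₂ * M') / √h₀ * ρ * √h₀ := by
          field_simp
      _ ≤ 2 * H ^ 2 * (C₂ * M') / √h₀ * ρ * √(h z) :=
          mul_le_mul_of_nonneg_left (hsq z hz) (by positivity)
  have cH : ∀ z ∈ Icc (a + δ / 2) (b - δ / 2), ∀ x : ℝ, x ≤ 2 * H ^ 2 * (C₂ * M' * ρ) →
      x ≤ K * ρ * h z := by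
    intro z hz x hx
    refine leK (hx.trans ?_) kB hρ0 (hh0.le.trans (hmin z hz))
    calc 2 * H ^ 2 * (C₂ * M' * ρ) = 2 * H ^ 2 * (C₂ * M') / h₀ * ρ * h₀ := by
          field_simp
      _ ≤ 2 * H ^ 2 * (C₂ * M') / h₀ * ρ * h z :=
          mul_le_mul_of_nonneg_left (hmin z hz) (by positivity)
  have reg : ∀ z ∈ Ioo a b, z ∈ Ioo a (a + δ) ∨ z ∈ Ioo (b - δ) b ∨
      z ∈ Icc (a + δ / 2) (b - δ / 2) := by
    intro z hz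
    by_cases h1 : z < a + δ
    · exact Or.inl ⟨hz.1, h1⟩
    · by_cases h2 : b - δ < z
      · exact Or.inr (Or.inl ⟨h2, hz.2⟩)
      · exact Or.inr (Or.inr ⟨by linarith [not_lt.1 h1], by linarith [not_lt.1 h2]⟩)
  refine ⟨by positivity, ?_, ?_, ?_⟩
  · intro z hz θ
    rcases reg z hz with h1 | h1 | h1
    · have h2 := hA.1 z h1 θ
      have hs := Real.sqrt_nonneg (h z)
      exact ⟨leK h2.1 kA hρ0 hs, leK h2.2.1 kA hρ0 hs, leK h2.2.2.1 kA hρ0 hs,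
        leK h2.2.2.2.1 kA hρ0 hs⟩
    · have h2 := hBB.1 z h1 θ
      have hs := Real.sqrt_nonneg (h z)
      exact ⟨leK h2.1 kA hρ0 hs, leK h2.2.1 kA hρ0 hs, leK h2.2.2.1 kA hρ0 hs,
        leK h2.2.2.2.1 kA hρ0 hs⟩
    · have h2 := hMid z h1 θ
      exact ⟨cS z h1 _ h2.1, cS z h1 _ h2.2.1, cS z h1 _ h2.2.2.1, cS z h1 _ h2.2.2.2⟩
  · intro z hz hzm θ
    have hs := (hpos z hz.1 hz.2).le
    by_cases h1 : z < a + δ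
    · have h2 := hLow z ⟨hz.1, h1⟩ θ
      exact ⟨leK h2.1 kA hρ0 hs, leK h2.2.1 kA hρ0 hs, leK h2.2.2.1 kA hρ0 hs,
        leK h2.2.2.2.1 kA hρ0 hs, leK h2.2.2.2.2 kA hρ0 hs⟩
    · have h1' : z ∈ Icc (a + δ / 2) (b - δ / 2) := ⟨by linarith [not_lt.1 h1], by linarith⟩
      have h2 := hMid z h1' θ
      refine ⟨?_, cH z h1' _ h2.1, cH z h1' _ h2.2.1, cH z h1' _ h2.2.2.1, cH z h1' _ h2.2.2.2⟩
      refine leK (A := 1 / h₀) ?_ kD hρ0 hs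
      calc ‖Uf h f z θ‖ ≤ ν := hU z hz θ
        _ ≤ ρ := hνρ
        _ = 1 / h₀ * ρ * h₀ := by field_simp
        _ ≤ 1 / h₀ * ρ * h z := mul_le_mul_of_nonneg_left (hmin z h1') (by positivity)
  · refine ⟨f (Ps φb 0) - Ps φb 0, ?_⟩
    intro z hz hzm θ
    have hs := Real.sqrt_nonneg (h z)
    by_cases h1 : b - δ < z
    · have h2 := (hBB.1 z ⟨h1, hz.2⟩ θ).2.2.2.2
      have h3 := leK h2 kA hρ0 hs
      refine h3.trans ?_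
      have : K * ρ ≤ K * 1 := mul_le_mul_of_nonneg_left hρ1 (by linarith)
      rw [mul_one] at this
      exact mul_le_mul_of_nonneg_right this hs
    · have h1' : z ∈ Icc (a + δ / 2) (b - δ / 2) := ⟨by linarith, by linarith [not_lt.1 h1]⟩
      have h5 : ‖f (Ps φb 0) - Ps φb 0‖ ≤ ν := hν _ (Ps_mem hCh.rb hD0)
      have h6 : ‖Uf h f z θ - (f (Ps φb 0) - Ps φb 0)‖ ≤ 2 := by
        refine (norm_sub_le _ _).trans ?_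
        linarith [hU z hz θ]
      refine h6.trans ?_
      calc (2 : ℝ) = 2 / √h₀ * √h₀ := by field_simp
        _ ≤ 2 / √h₀ * √(h z) := mul_le_mul_of_nonneg_left (hsq z h1') (by positivity)
        _ ≤ K * √(h z) := mul_le_mul_of_nonneg_right kE hs

end Pool.Agent.Lib.MP478c11.DB
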