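import Mathlib

/-!
# Unbendable dumbbells of revolution (MP_478c11_gt): specification, ODE part (captain helper25)

THEOREM. Let `S_h = {x² + y² = h(z)}` be a dumbbell: a sphere of revolution with curvature `K > 0` in two caps (`a ≤ z < p`, `q < z ≤ b`), `K < 0` in the neck
(`p < z < q`), `dK/dz ≠ 0` at `p`, `q`. For all `N`, `δ > 0` there is `h̃`, equal to `h` off a compact subset of `(p, q)`, with `|(h̃ - h)^(i)| ≤ δ` for `i ≤ N`, such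
that every `C^∞` bending of the dumbbell `S_h̃` is trivial (no symmetry assumed).

ODE part (this file). `W = h'²/4 - h h''/2` (`K = W / (h + h'²/4)²`). The `n`-th Fourier mode of an infinitesimal deformation with source `F` satisfies
`h (h y')' = n² W y + F`. We prove that for a suitable `h̃` every bounded solution on `(a, b)` satisfies `|y|, |h y'| ≤ C n^B sup |F|` for all `n ≥ 2` (`SpecEST`, `SpecNRX`).
(1) Caps: maximum principle, a unique bounded solution `LeftSol`, `RightSol`. (2) Neck: polynomial bounds for the transfer of data (`SpecNKB`). (3) So all is reduced to a lower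
bound `c n^(-B)` for the Wronskian of the left and the right solution: `√h + μ κ` in place of `√h`, for almost all small `μ`.

Conventions: module `XXX` is the file `Pool/Agent/Lib/MP_478c11_gt/DB/XXX.lean`, it imports only `Pool.Agent.Lib.MP_478c11_gt.DB.Spec` and proves
`theorem specXXX (hYYY : SpecYYY) .. : SpecXXX` (the modules named after USES, in this order) in the namespace `Pool.Agent.Lib.MP478c11.DB`, own lemmas in a namespace `XXXM`.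
-/

set_option autoImplicit false

namespace Pool.Agent.Lib.MP478c11.DB

open Set Filter Topology MeasureTheory
open scoped ContDiff

noncomputable section

/-- `W = h'²/4 - h h''/2`; the Gauss curvature of `x² + y² = h(z)` is `W / (h + h'²/4)²`. -/
def W (h : ℝ → ℝ) (z : ℝ) : ℝ := deriv h z ^ 2 / 4 - h z * deriv (deriv h) z / 2

/-- `x² + y² = h(z)`, `a ≤ z ≤ b`, is a dumbbell with the neck `p < z < q`. -/
structure Dumb (h : ℝ → ℝ) (a p q b : ℝ) : Prop where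
  smooth : ContDiff ℝ ∞ h
  ap : a < p
  pq : p < q
  qb : q < b
  ha : h a = 0
  hb : h b = 0
  pos : ∀ z, a < z → z < b → 0 < h z
  da : 0 < deriv h a
  db : deriv h b < 0
  W1 : ∀ z, a ≤ z → z < p → 0 < W h z
  W2 : ∀ z, p < z → z < q → W h z < 0
  W3 : ∀ z, q < z → z ≤ b → 0 < W h z
  Wp : deriv (W h) p < 0
  Wq : 0 < deriv (W h) q

/-- `y' = v / h`, `v' = (n² W y + F) / h` on `I`, that is `h (h y')' = n² W y + F`, `v = h y'`. -/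
def Sys (h : ℝ → ℝ) (n : ℕ) (F y v : ℝ → ℝ) (I : Set ℝ) : Prop :=
  ∀ z ∈ I, HasDerivAt y (v z / h z) z ∧ HasDerivAt v (((n : ℝ) ^ 2 * W h z * y z + F z) / h z) z

/-- The source `0`. -/
def O (_ : ℝ) : ℝ := 0

/-- The bounded solution in the left cap (continued to `(a, b)`). -/
structure LeftSol (h : ℝ → ℝ) (a p b : ℝ) (n : ℕ) (Y V : ℝ → ℝ) : Prop where
  sys : Sys h n O Y V (Ioo a b)
  one : Y p = 1
  bd : ∀ z ∈ Ioc a p, 0 ≤ Y z ∧ Y z ≤ 1 ∧ 0 ≤ V z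

/-- The bounded solution in the right cap (continued to `(a, b)`). -/
structure RightSol (h : ℝ → ℝ) (a q b : ℝ) (n : ℕ) (Z U : ℝ → ℝ) : Prop where
  sys : Sys h n O Z U (Ioo a b)
  one : Z q = 1
  bd : ∀ z ∈ Ico q b, 0 ≤ Z z ∧ Z z ≤ 1 ∧ U z ≤ 0

/-! ### general facts -/

/-- **GRW** (60 lines, no deps). Gronwall in both directions.
PROOF. `A(z) = ∫_p^z α`. `(f e^(-A))' ≤ β e^(-A)` and `(f e^A)' ≥ -β e^A`. -/
def SpecGRW : Prop :=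
  ∀ (p q β : ℝ) (f f' α : ℝ → ℝ), p ≤ q → 0 ≤ β → ContinuousOn α (Icc p q) → (∀ z ∈ Icc p q, 0 ≤ α z ∧ 0 ≤ f z) →
    (∀ z ∈ Icc p q, HasDerivAt f (f' z) z ∧ |f' z| ≤ α z * f z + β) →
    ∀ z ∈ Icc p q, ∀ z' ∈ Icc p q, f z ≤ Real.exp (∫ t in p..q, α t) * (f z' + β * (q - p))

/-- **LIN** (150 lines, no deps). Existence.
PROOF. A linear system with coefficients continuous on `(a, b)` (`h > 0` there): on a compact subinterval `[a_k, b_k] ∋ c` the coefficients are bounded by `K`; replace the right hand side `A(t) x` by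
`A(t) (x truncated to the ball of radius R)`, `R = e^(2K(b-a)) (|y₀| + |v₀|) + 1`: bounded and Lipschitz, Picard-Lindelöf (`IsPicardLindelof`) on all of `[a_k, b_k]`; by Gronwall the solution stays in the ball. The solutions for
different `k` agree (uniqueness, `ODE_solution_unique_of_mem_Ioo`): glue. (Compare `Pool/Agent/Lib/MP_d2b992_gt/Erg/Ode.lean`.) -/
def SpecLIN : Prop :=
  ∀ (h : ℝ → ℝ) (a p q b : ℝ), Dumb h a p q b → ∀ n : ℕ, ∀ c ∈ Ioo a b, ∀ y₀ v₀ : ℝ,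
    ∃ y v : ℝ → ℝ, Sys h n O y v (Ioo a b) ∧ y c = y₀ ∧ v c = v₀

/-- **UNQ** (90 lines), USES GRW. Uniqueness.
PROOF. The difference `(D, E)` solves the system with `F = 0`, zero data at `c`. For `z ∈ I` the segment between `c` and `z` is in `I`; `f = D² + E²`, `|f'| ≤ K f` on the segment. GRW. -/
def SpecUNQ : Prop :=
  ∀ (h : ℝ → ℝ) (a p q b : ℝ), Dumb h a p q b → ∀ (n : ℕ) (F y v y' v' : ℝ → ℝ) (I : Set ℝ), I.OrdConnected → I ⊆ Ioo a b →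
    Sys h n F y v I → Sys h n F y' v' I → ∀ c ∈ I, y c = y' c → v c = v' c → ∀ z ∈ I, y z = y' z ∧ v z = v' z

/-- **WRO** (50 lines, no deps). The Wronskian. Second item: the derivative is `0` on an interval. -/
def SpecWRO : Prop :=
  (∀ (h : ℝ → ℝ) (n : ℕ) (F y v Y V : ℝ → ℝ) (I : Set ℝ), Sys h n F y v I → Sys h n O Y V I →
    ∀ z ∈ I, HasDerivAt (fun z => Y z * v z - V z * y z) (Y z * F z / h z) z) ∧
  (∀ (h : ℝ → ℝ) (n : ℕ) (y v Y V : ℝ → ℝ) (I : Set ℝ), I.OrdConnected → Sys h n O y v I → Sys h n O Y V I →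
    ∀ z ∈ I, ∀ z' ∈ I, Y z * v z - V z * y z = Y z' * v z' - V z' * y z')

/-- **REF** (120 lines, no deps). The reflection `z ↦ -z`. -/
def SpecREF : Prop :=
  ∀ (h : ℝ → ℝ) (a p q b : ℝ), Dumb h a p q b →
    Dumb (fun z => h (-z)) (-b) (-q) (-p) (-a) ∧
    (∀ z, W (fun z => h (-z)) z = W h (-z)) ∧
    (∀ (n : ℕ) (F y v : ℝ → ℝ) (I : Set ℝ), Sys h n F y v I →
      Sys (fun z => h (-z)) n (fun z => F (-z)) (fun z => y (-z)) (fun z => -v (-z)) {z | -z ∈ I}) ∧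
    (∀ (n : ℕ) (Z U : ℝ → ℝ), RightSol h a q b n Z U →
      LeftSol (fun z => h (-z)) (-b) (-q) (-a) n (fun z => Z (-z)) (fun z => -U (-z))) ∧
    (∀ (n : ℕ) (Y V : ℝ → ℝ), LeftSol (fun z => h (-z)) (-b) (-q) (-a) n Y V →
      RightSol h a q b n (fun z => Y (-z)) (fun z => -V (-z)))

/-! ### the caps -/

/-- **MXP** (90 lines, no deps). A maximum principle.
PROOF. Suppose `φ z₁ > 0`. `φ` is continuous on `[a', p]` and `≤ 0` near both ends, so it attains its maximum over `[a'', p]` at an interior point `z₀`, `φ z₀ > 0`. `φ' (z₀) = 0`, so `ψ z₀ = 0`, and `ψ` has a positive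
derivative at `z₀`: `ψ > 0` just right of `z₀`, `φ` is increasing there: contradiction. (`φ p ≤ 0` and continuity from the left at `p`.) -/
def SpecMXP : Prop :=
  ∀ (a p : ℝ) (h φ ψ : ℝ → ℝ), a < p → (∀ z ∈ Ioo a p, 0 < h z) → (∀ z ∈ Ioo a p, HasDerivAt φ (ψ z / h z) z) →
    (∀ z ∈ Ioo a p, 0 < φ z → ∃ d : ℝ, 0 < d ∧ HasDerivAt ψ d z) → ContinuousOn φ (Ioc a p) → φ p ≤ 0 →
    (∃ a' : ℝ, a < a' ∧ ∀ z ∈ Ioo a a', φ z ≤ 0) → ∀ z ∈ Ioc a p, φ z ≤ 0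

/-- **DVG** (60 lines, no deps). PROOF. `h t ≤ C (t - a)` on `(a, p]` (`h a = 0`, `h'` bounded), so `∫_z^p dt / h ≥ (1/C) log ((p - a) / (z - a))`. -/
def SpecDVG : Prop :=
  ∀ (h : ℝ → ℝ) (a p q b : ℝ), Dumb h a p q b → Tendsto (fun z => ∫ t in z..p, 1 / h t) (𝓝[>] a) atTop

/-- **CAP** (220 lines), USES MXP, DVG. The estimate in the left cap.
PROOF. Let `m = (a + p)/2`, `m' = (m + p)/2`, `H(z) = (max 0 (z - m))² / (p - m)`: `C¹`, `0 ≤ H`, `H' = 2 max 0 (z - m) / (p - m) ≥ 0`, `H' ≥ 1` on `[m', p]`. `W ≥ w₀ > 0` on `[a, m']`, `W ≥ 0` on `[a, p]`, `h ≥ h₀ > 0` on `[m, p]`.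
`M = R / w₀`, `K = R / h₀`, `w(z) = M + K ∫_z^p H/h` (the integrand is `0` for `t ≤ m`): `h w' = -K H`, `h (h w')' = -K h H'`, and `n² W w + K h H' ≥ R` on `(a, p]` (on `(a, m']`: `n² W w ≥ w₀ M`; on `[m', p]`: `K h ≥ R`). `M ≤ w ≤ C R`.
For `ε > 0`, `s = ± 1` let `φ = s y - w - ε ∫_z^p dt/h`, `ψ = h φ' = s v + K H + ε`; `ψ' = s (n² W y + F)/h + K H'`. If `φ z > 0` then `h ψ' = n² W s y + s F + K h H' ≥ n² W s y - R + K h H' > n² W (w) + K h H' - R ≥ 0` (`s y > w + ε ∫ ≥ w`, `W z > 0`). `φ p = -M ≤ 0` and `φ ≤ 0`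
near `a` (DVG; `y` bounded, `w ≥ 0`). MXP: `|y| ≤ w + ε ∫_z^p dt/h` for all `ε`, so `|y| ≤ w ≤ C R`. For `v p`: by the mean value theorem on `[m, p]` there is `ξ` with `|v ξ / h ξ| ≤ 2 C R / (p - m)`, and `|v'| ≤ C (n² + 1) R` on `[m, p]`. (`R = 0`: use `R` replaced by any
`R' > 0`, or note that everything works.) -/
def SpecCAP : Prop :=
  ∀ (h : ℝ → ℝ) (a p q b : ℝ), Dumb h a p q b → ∃ C : ℝ, 0 < C ∧ ∀ n : ℕ, 1 ≤ n → ∀ (F y v : ℝ → ℝ) (R M : ℝ),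
    Sys h n F y v (Ioc a p) → 0 ≤ R → (∀ z ∈ Ioc a p, |F z| ≤ R ∧ |y z| ≤ M) → y p = 0 →
    (∀ z ∈ Ioc a p, |y z| ≤ C * R) ∧ |v p| ≤ C * (n : ℝ) ^ 2 * R

/-- **LEX** (220 lines), USES LIN, UNQ. The left solution exists.
PROOF. `(Y⁰, V⁰)`, `(Y¹, V¹)` the solutions with data `(1, 0)`, `(0, 1)` at `p`; `Y^κ = Y⁰ + κ Y¹`, `V^κ` likewise. Let `K₊ = {κ ≥ 0 : ∃ z ∈ (a, p), Y^κ z < 0}`, `K₋ = {κ ≥ 0 : ∃ z ∈ (a, p), V^κ z < 0}`: relatively open in `[0, ∞)` (for fixed `z` the condition is open in `κ`).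
`0 ∈ K₋`: `Y⁰ p = 1`, so `V⁰' > 0` on some `(p - ε, p)` and `V⁰ p = 0`. `K₊` is not empty: going left from `p`, `Y¹ < 0` and `V¹ > 0` (as long as `V¹ > 0`, `Y¹` is increasing so `Y¹ < 0`, `V¹' < 0`, `V¹` is larger to the left), so `Y^κ z₁ < 0` for large `κ`.
Disjoint: let `Y = Y^κ`, `Y z₁ < 0`. Let `z₀ ∈ (z₁, p)` be the largest zero of `Y` (`Y p = 1`). `V z₀ ≥ 0` (`Y > 0` right of `z₀`), `V z₀ ≠ 0` (UNQ), so `V z₀ > 0`; right of `z₀` `V' = n² W Y / h ≥ 0`, so `V > 0` on `[z₀, p]`; left of `z₀`: `Y < 0` and `V > 0` persist (where `V > 0`, `Y` is increasing, so `Y < 0` to the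
left of `z₀`, so `V' < 0`, so `V` is larger to the left). So `V > 0` on `(a, p]`, `κ ∉ K₋`. By connectedness of `[0, ∞)` some `κ ≥ 0` is in neither: `Y ≥ 0`, `V ≥ 0` on `(a, p)`, `Y` is nondecreasing, `Y ≤ Y p = 1`; `V p = κ ≥ 0`. -/
def SpecLEX : Prop :=
  ∀ (h : ℝ → ℝ) (a p q b : ℝ), Dumb h a p q b → ∀ n : ℕ, 1 ≤ n → ∃ Y V : ℝ → ℝ, LeftSol h a p b n Y V

/-- **LKB** (100 lines, no deps). The slope of the left solution at `p`.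
PROOF. On `(a, p]` `V' = n² W Y / h ≥ 0`, so `V` is nondecreasing. `m = (a + p)/2`: `V m (p - m) / max h ≤ ∫_m^p V/h = Y p - Y m ≤ 1` (or mean value theorem), `V' ≤ n² C` on `[m, p]`: `V p ≤ C + C n² ≤ 2 C n²`. `V p = 0` would give `V = 0` on `(a, p]`, `Y = 1`, `V' = n² W / h > 0` on `(a, p)`: impossible. -/
def SpecLKB : Prop :=
  ∀ (h : ℝ → ℝ) (a p q b : ℝ), Dumb h a p q b → ∃ C : ℝ, 0 < C ∧ ∀ n : ℕ, 1 ≤ n → ∀ Y V : ℝ → ℝ, LeftSol h a p b n Y V →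
    0 < V p ∧ V p ≤ C * (n : ℝ) ^ 2

/-- **LUN** (130 lines), USES REF, CAP. Uniqueness of the data at `p` (at `q`); the two functions agree near the cap.
PROOF. First item: for `z ∈ (a, p]` `h' = h` near `z`, so `W h' z = W h z` and `(Y', V')` solves the system of `h` on `(a, p]`. `D = Y - Y'`, `E = V - V'` solves it with `F = 0`, `D p = 0`, `|D| ≤ 1`: CAP with `R = 0` gives `E p = 0`.
Second item: the first one for the reflected functions (REF). -/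
def SpecLUN : Prop :=
  ∀ (h h' : ℝ → ℝ) (a p q b : ℝ), Dumb h a p q b → Dumb h' a p q b → ∀ n : ℕ, 1 ≤ n →
    ((∃ p' : ℝ, p < p' ∧ ∀ z < p', h' z = h z) → ∀ Y V Y' V' : ℝ → ℝ, LeftSol h a p b n Y V → LeftSol h' a p b n Y' V' → V p = V' p) ∧
    ((∃ q' : ℝ, q' < q ∧ ∀ z > q', h' z = h z) → ∀ Z U Z' U' : ℝ → ℝ, RightSol h a q b n Z U → RightSol h' a q b n Z' U' → U q = U' q)

/-! ### the neck -/

/-- **NKB** (230 lines), USES GRW. Polynomial bounds in the neck.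
PROOF. On `[p, q]`: `W ≤ 0` (`W p = W q = 0` by continuity), `-W ≥ c min (z - p) (q - z)` (`W'(p) < 0 < W'(q)`, `W < 0` inside, compactness), `|W'| ≤ M`, `h ≥ h₀ > 0`. `ω = -W + n⁻²`, `f = v² + n² ω y² ≥ v² + y²`.
`f' = 2 v (n² W y + F)/h - n² W' y² + 2 n² ω y v/h = 2 y v/h + 2 v F/h - n² W' y²`, so `|f'| ≤ (|W'|/ω + 2/h₀) f + R²/h₀ ≤ α f + R²/h₀` with `α = M (1/(c (z-p) + n⁻²) + 1/(c (q-z) + n⁻²)) + 2/h₀`; `∫_p^q α = (2 M / c) log (c (q - p) n² + 1) + 2 (q - p)/h₀`,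
`exp` of it is `≤ C n^B`. GRW: `f z ≤ C n^B (f z' + R²)`, and `f z' ≤ v² + C n² y²`. (Two-sided derivatives at `p`, `q` are part of `Sys .. (Icc p q)`.) -/
def SpecNKB : Prop :=
  ∀ (h : ℝ → ℝ) (a p q b : ℝ), Dumb h a p q b → ∃ (C : ℝ) (B : ℕ), 0 < C ∧ ∀ n : ℕ, 1 ≤ n → ∀ (F y v : ℝ → ℝ) (R : ℝ),
    Sys h n F y v (Icc p q) → 0 ≤ R → (∀ z ∈ Icc p q, |F z| ≤ R) →
    ∀ z ∈ Icc p q, ∀ z' ∈ Icc p q, |y z| + |v z| ≤ C * (n : ℝ) ^ B * (|y z'| + |v z'| + R)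

/-! ### bounded solutions -/

/-- The Wronskians of the left and the right solutions are bounded below. -/
def NonRes (h : ℝ → ℝ) (a p q b : ℝ) : Prop :=
  ∃ (c : ℝ) (B : ℕ), 0 < c ∧ ∀ n : ℕ, 2 ≤ n → ∀ Y V Z U : ℝ → ℝ, LeftSol h a p b n Y V → RightSol h a q b n Z U →
    c ≤ (n : ℝ) ^ B * |Y q * U q - V q * Z q|

/-- The a priori estimate for bounded solutions. -/
def Est (h : ℝ → ℝ) (a b : ℝ) : Prop :=
  ∃ (C : ℝ) (B : ℕ), 0 < C ∧ ∀ n : ℕ, 2 ≤ n → ∀ (F y v : ℝ → ℝ) (R M : ℝ), Sys h n F y v (Ioo a b) →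
    (∀ z ∈ Ioo a b, |F z| ≤ R ∧ |y z| ≤ M) → ∀ z ∈ Ioo a b, |y z| ≤ C * (n : ℝ) ^ B * R ∧ |v z| ≤ C * (n : ℝ) ^ B * R

/-- **VBD** (110 lines, no deps). A bound for `v` from a bound for `y`.
PROOF. Let `z ∈ (a, b)`. Since `∫_z^b dt/h = ∞` (`h t ≤ C (b - t)`) there is `z₁ ∈ (z, b)` with `∫_z^(z₁) dt/h = 1`. `T(x) = ∫_z^x dt/h`, Cauchy's mean value theorem (`exists_ratio_hasDerivAt_eq_ratio_slope`) for `y`, `T` gives `ξ ∈ (z, z₁)` with `v ξ = y z₁ - y z`, and for `v`, `T`: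
`|v ξ - v z| ≤ sup |n² W y + F| · 1 ≤ C n² Y₀ + R`. -/
def SpecVBD : Prop :=
  ∀ (h : ℝ → ℝ) (a p q b : ℝ), Dumb h a p q b → ∃ C : ℝ, 0 < C ∧ ∀ n : ℕ, 1 ≤ n → ∀ (F y v : ℝ → ℝ) (R Y₀ : ℝ),
    Sys h n F y v (Ioo a b) → (∀ z ∈ Ioo a b, |F z| ≤ R ∧ |y z| ≤ Y₀) → ∀ z ∈ Ioo a b, |v z| ≤ C * ((n : ℝ) ^ 2 * Y₀ + R)

/-- **EST** (260 lines), USES WRO, REF, CAP, LEX, LKB, NKB, VBD.
PROOF. `(Y, V)` left, `(Z, U)` right solution (LEX; REF). `x = (y, v)`, `A = (Y, V)`, `e = (Z, U)`, `s ∧ t = s₁ t₂ - s₂ t₁`. CAP for `y - y(p) Y` on `(a, p]` (source `F`): `|y - y(p) Y| ≤ C R` there and `|A ∧ x| (p) = |v p - y p V p| ≤ C n² R`. Reflected (REF): `|y - y(q) Z| ≤ C R` on `[q, b)`, `|e ∧ x| (q) ≤ C n² R`.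
`(A ∧ x)' = Y F/h` (WRO) and `|Y| + |V| ≤ C n^B` on `[p, q]` (NKB, `R = 0`, data at `p`: `1`, `V p ≤ C n²`): `|A ∧ x| (q) ≤ C n^B R` (mean value inequality). At `q`: `(A ∧ e) x = (A ∧ x) e - (e ∧ x) A`, `|A ∧ e| ≥ c n^(-B)`, `|e| ≤ C n²` (LKB reflected), `|A| ≤ C n^B`: `|y q| + |v q| ≤ C n^B R`; NKB (source `F`): the same on `[p, q]`, in
particular for `y p`; then `|y| ≤ |y p| + C R` on `(a, p]`, `|y| ≤ |y q| + C R` on `[q, b)`. `|v|`: VBD. (`R ≥ 0` as `|F| ≤ R`.) -/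
def SpecEST : Prop :=
  ∀ (h : ℝ → ℝ) (a p q b : ℝ), Dumb h a p q b → NonRes h a p q b → Est h a b

/-! ### the perturbation -/

/-- `√h + μ κ` in place of `√h`. -/
def pert (h κ : ℝ → ℝ) (μ : ℝ) (z : ℝ) : ℝ := h z + 2 * μ * (√(h z) * κ z) + (μ * κ z) ^ 2

/-- `κ` is smooth, zero off `[c, d]`. -/
def Bump (κ : ℝ → ℝ) (c d : ℝ) : Prop := ContDiff ℝ ∞ κ ∧ ∀ z, z ∉ Icc c d → κ z = 0

/-- **SQR** (120 lines, no deps). `W` in terms of `r = √h`: `W = -r³ r''`.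
PROOF. `h = r²` near `z`: `h' = 2 r r'`, `h'' = 2 r'² + 2 r r''`. `pert h κ μ = (r + μ κ)²` near `z`. -/
def SpecSQR : Prop :=
  (∀ (h : ℝ → ℝ) (z : ℝ), ContDiff ℝ ∞ h → 0 < h z → ContDiffAt ℝ ∞ (fun z => √(h z)) z ∧
    W h z = -(√(h z)) ^ 3 * deriv (deriv fun z => √(h z)) z) ∧
  (∀ (h κ : ℝ → ℝ) (μ z : ℝ), ContDiff ℝ ∞ h → ContDiff ℝ ∞ κ → 0 < h z → 0 < √(h z) + μ * κ z →
    pert h κ μ z = (√(h z) + μ * κ z) ^ 2 ∧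
    W (pert h κ μ) z = -(√(h z) + μ * κ z) ^ 3 * (deriv (deriv fun z => √(h z)) z + μ * deriv (deriv κ) z))

/-- **PD** (220 lines), USES SQR. Small perturbations in the neck.
PROOF. `√h κ` is `C^∞` on `ℝ` (`h > 0` near `[c, d]`, `κ = 0` near every point off `[c, d]`) and zero off `[c, d]`, so `(√h κ)^(i)` and `(κ²)^(i)` are bounded: third item. Off `[c, d]` `pert h κ μ = h` near `z`. On `[c, d]` `√h ≥ r₀ > 0`, `W h ≤ -w₀ < 0` and `|W (pert) - W h| ≤ C |μ|` (SQR or the first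
two derivatives of `pert - h`). -/
def SpecPD : Prop :=
  ∀ (h κ : ℝ → ℝ) (a p q b c d : ℝ), Dumb h a p q b → p < c → c < d → d < q → Bump κ c d → ∀ (N : ℕ) (δ : ℝ), 0 < δ →
    ∃ μ₀ : ℝ, 0 < μ₀ ∧ ∀ μ : ℝ, |μ| ≤ μ₀ → Dumb (pert h κ μ) a p q b ∧ (∀ z ∈ Icc p q, 0 < √(h z) + μ * κ z) ∧
      ContDiff ℝ ∞ (pert h κ μ) ∧ ∀ i ≤ N, ∀ z, |iteratedDeriv i (fun z => pert h κ μ z - h z) z| ≤ δ

/-- **DEP** (200 lines), USES GRW, SQR, PD. Continuous dependence for fixed `n`.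
PROOF. On `[p, q]` the coefficients `1/h`, `n² W/h = -n² r r''` (SQR) of the two systems differ by `≤ C |μ|` (off `[c, d]` not at all) and are bounded by `C`. `f = y² + v²`: `|f'| ≤ C f`, so `f ≤ C f(p)` (GRW). `D = y₁ - y`, `E = v₁ - v`, `f₁ = D² + E²`: `|f₁'| ≤ C f₁ + C μ² f(p)`, `f₁ p = 0`: GRW. -/
def SpecDEP : Prop :=
  ∀ (h κ : ℝ → ℝ) (a p q b c d : ℝ), Dumb h a p q b → p < c → c < d → d < q → Bump κ c d → ∀ n : ℕ,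
    ∃ C μ₀ : ℝ, 0 < C ∧ 0 < μ₀ ∧ ∀ μ : ℝ, |μ| ≤ μ₀ → ∀ y v y₁ v₁ : ℝ → ℝ, Sys h n O y v (Icc p q) → Sys (pert h κ μ) n O y₁ v₁ (Icc p q) →
      y₁ p = y p → v₁ p = v p → ∀ z ∈ Icc p q, |y₁ z - y z| + |v₁ z - v z| ≤ C * |μ| * (|y p| + |v p|)

/-- **CNT** (140 lines), USES PD, LUN, DEP. The Wronskian stays different from `0`.
PROOF. For small `μ` `pert h κ μ` is a dumbbell (PD) equal to `h` off `[c, d]`, so `V₁ p = V p`, `U₁ q = U q` (LUN), `Y₁ p = Y p = 1`, `Z₁ q = Z q = 1`. `Y₁ q → Y q`, `V₁ q → V q` as `μ → 0` (DEP): `Y₁ q U₁ q - V₁ q → Y q U q - V q ≠ 0`. -/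
def SpecCNT : Prop :=
  ∀ (h κ : ℝ → ℝ) (a p q b c d : ℝ), Dumb h a p q b → p < c → c < d → d < q → Bump κ c d → ∀ n : ℕ, 1 ≤ n → ∀ Y V Z U : ℝ → ℝ,
    LeftSol h a p b n Y V → RightSol h a q b n Z U → Y q * U q - V q * Z q ≠ 0 →
    ∃ μ₀ : ℝ, 0 < μ₀ ∧ ∀ μ : ℝ, |μ| ≤ μ₀ → ∀ Y₁ V₁ Z₁ U₁ : ℝ → ℝ, LeftSol (pert h κ μ) a p b n Y₁ V₁ → RightSol (pert h κ μ) a q b n Z₁ U₁ →
      Y₁ q * U₁ q - V₁ q * Z₁ q ≠ 0

/-- `κ'' r - κ r''`. -/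
def rho (r κ : ℝ → ℝ) (z : ℝ) : ℝ := deriv (deriv κ) z * r z - κ z * deriv (deriv r) z

/-- **LAG** (170 lines), USES SQR. The difference formula.
PROOF. `r = √h`, `r_μ = r + μ κ`; by SQR the systems are `y' = v / r_μ²`, `v' = -n² r_μ r_μ'' y`. `B = r_μ y` satisfies `B' = r_μ' y + v / r_μ`, `B'' = -(n² - 1) r_μ'' y`; `B₁ = r_μ' y₁` (parameter `μ'`) likewise. `(B B₁' - B' B₁)' = -(n² - 1) (r_μ'₁'' r_μ - r_μ'' r_μ'₁) y y₁ = -(n² - 1) (μ' - μ) ρ y y₁` (here `r_μ'₁ = r + μ' κ`). At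
`c`, `d` (`κ = κ' = 0` there) `B B₁' - B' B₁ = y v₁ - v y₁`. -/
def SpecLAG : Prop :=
  ∀ (h κ : ℝ → ℝ) (c d μ μ' : ℝ), c < d → ContDiff ℝ ∞ h → Bump κ c d → (∀ z ∈ Icc c d, 0 < h z ∧ 0 < √(h z) + μ * κ z ∧ 0 < √(h z) + μ' * κ z) →
    ∀ (n : ℕ) (y v y₁ v₁ : ℝ → ℝ), Sys (pert h κ μ) n O y v (Icc c d) → Sys (pert h κ μ') n O y₁ v₁ (Icc c d) →
      (y d * v₁ d - v d * y₁ d) - (y c * v₁ c - v c * y₁ c) =
        -(((n : ℝ) ^ 2 - 1) * (μ' - μ)) * ∫ z in c..d, rho (fun z => √(h z)) κ z * (y z * y₁ z)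

/-- **STB** (260 lines), USES UNQ, WRO, LUN, LKB, SQR, PD, DEP, LAG. A zero of the Wronskian is removed by a perturbation close to `p`.
PROOF. `r = √h`. `Y' p = V p / h p ≠ 0` (LKB), `W p = 0` (`W` changes sign), so `r'' p = 0` and `r Y'² - n² r'' Y² > 0` on some `(p, p + ε) ⊂ (p, min c q)`. `κ ≥ 0` a smooth bump, zero off `[c', d'] ⊂ (p, p + ε)`, not zero. Integrating by parts twice (`κ`, `κ'` vanish at `c'`, `d'`): `∫ ρ Y² = ∫ κ ((r Y²)'' - r'' Y²) = 2 ∫ κ (r Y'² - n² r'' Y²) =: 2 I > 0`,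
as `r Y'' = -n² r'' Y - 2 r' Y'` (from `(r² Y')' = -n² r r'' Y`). For small `μ ≠ 0`: `V₁ p = V p`, `U₁ q = U q` (LUN), so `(Y₁, V₁) = (Y, V)` at `p`, and at `c'` (UNQ on `[p, c']`, where `pert = h`; near `c'` use that both solve the system of `h` for `z < c'` and continuity). LAG with `μ = 0`, `μ' = μ` (`pert h κ 0 = h`): `(Y V₁ - V Y₁)(d') = -(n² - 1) μ ∫ ρ Y Y₁`, it is constant on
`[d', q]` (WRO), and `∫ ρ Y Y₁ → ∫ ρ Y² > 0` as `μ → 0` (DEP), so `(Y V₁ - V Y₁)(q) ≠ 0`. Now `Z q = Z₁ q = 1`, `U₁ q = U q = l`, `V q = l Y q` (the Wronskian of `h` is `0`), so `Y q (V₁ q - l Y₁ q) = (Y V₁ - V Y₁)(q) ≠ 0`. -/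
def SpecSTB : Prop :=
  ∀ (h : ℝ → ℝ) (a p q b c : ℝ), Dumb h a p q b → p < c → ∀ n : ℕ, 2 ≤ n → ∀ Y V Z U : ℝ → ℝ,
    LeftSol h a p b n Y V → RightSol h a q b n Z U → Y q * U q - V q * Z q = 0 →
    ∃ (κ : ℝ → ℝ) (c' d' μ₀ : ℝ), p < c' ∧ c' < d' ∧ d' < c ∧ d' < q ∧ Bump κ c' d' ∧ 0 < μ₀ ∧ ∀ μ : ℝ, 0 < μ → μ ≤ μ₀ →
      ∀ Y₁ V₁ Z₁ U₁ : ℝ → ℝ, LeftSol (pert h κ μ) a p b n Y₁ V₁ → RightSol (pert h κ μ) a q b n Z₁ U₁ → Y₁ q * U₁ q - V₁ q * Z₁ q ≠ 0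

/-- `h₁` is a dumbbell, equal to `h` off a compact subset of `(p, s)`, and `δ`-close to `h` in `C^N`. -/
def Near (h h₁ : ℝ → ℝ) (a p q b s : ℝ) (N : ℕ) (δ : ℝ) : Prop :=
  Dumb h₁ a p q b ∧ (∃ c d : ℝ, p < c ∧ c < d ∧ d < s ∧ ∀ z, z ∉ Icc c d → h₁ z = h z) ∧
    ∀ i ≤ N, ∀ z, |iteratedDeriv i (fun z => h₁ z - h z) z| ≤ δ

/-- **SML** (180 lines), USES REF, LEX, PD, CNT, STB. Finitely many `n`.
PROOF. Induction on `n₁`, for all `δ`. `n₁ ≤ 2`: `h₁ = h`. Step: let `h₁` be good for `n₁` and `δ/2`. Left and right solutions of `h₁` for `n₁` exist (LEX, REF). If their Wronskian at `q` is not `0`: take `h₁` (all left and right solutions have the same Wronskian: CNT with `μ = 0` and `κ = 0`). Otherwise STB (`c = s` there), CNT for the finitely many `m < n₁`, `2 ≤ m`, and PD with `δ/2`: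
`pert h₁ κ μ` for a small `μ > 0`. `Near` adds up (`iteratedDeriv` of a sum of smooth functions; the union of two compact intervals in `(p, s)` is contained in one). -/
def SpecSML : Prop :=
  ∀ (h : ℝ → ℝ) (a p q b s : ℝ), Dumb h a p q b → p < s → s ≤ q → ∀ (N n₁ : ℕ) (δ : ℝ), 0 < δ →
    ∃ h₁ : ℝ → ℝ, Near h h₁ a p q b s N δ ∧ ∀ n : ℕ, 2 ≤ n → n < n₁ → ∀ Y V Z U : ℝ → ℝ, LeftSol h₁ a p b n Y V → RightSol h₁ a q b n Z U →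
      Y q * U q - V q * Z q ≠ 0

/-! ### large `n`: oscillation -/

/-- `B'' = -λ² g B` on `[c, d]`, `B₁ = B'`; `g₁ = g'`, `g₂ = g''`, `m ≤ g ≤ M`, `|g'|, |g''| ≤ M`. -/
structure Osc (m M c d l : ℝ) (g g₁ g₂ B B₁ : ℝ → ℝ) : Prop where
  m0 : 0 < m
  cd : c < d
  l1 : 1 ≤ l
  b : ∀ z ∈ Icc c d, m ≤ g z ∧ g z ≤ M ∧ |g₁ z| ≤ M ∧ |g₂ z| ≤ M
  dg : ∀ z ∈ Icc c d, HasDerivAt g (g₁ z) z ∧ HasDerivAt g₁ (g₂ z) z
  cg : ContinuousOn g₂ (Icc c d)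
  dB : ∀ z ∈ Icc c d, HasDerivAt B (B₁ z) z ∧ HasDerivAt B₁ (-(l ^ 2 * g z * B z)) z

/-- The energy. -/
def En (l : ℝ) (g B B₁ : ℝ → ℝ) (z : ℝ) : ℝ := l ^ 2 * √(g z) * B z ^ 2 + B₁ z ^ 2 / √(g z)

/-- **ENJ** (170 lines), USES GRW. The energy is nearly constant.
PROOF. `E' = (g'/(2√g)) λ² B² - (g'/(2 g^(3/2))) B₁² = -φ (B B₁)'`, `φ = g'/(2 g^(3/2))`, as `(B B₁)' = B₁² - λ² g B²`. `|E'| ≤ (|g'|/(2g)) E`: GRW. `2 λ |B B₁| ≤ E`. `E z - E z' = -∫_(z')^z φ (B B₁)' = -[φ B B₁] + ∫ φ' B B₁`, `|φ|, |φ'| ≤ C`. -/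
def SpecENJ : Prop :=
  ∀ m M L : ℝ, 0 < m → 0 < L → ∃ C : ℝ, 0 < C ∧ ∀ (c d l : ℝ) (g g₁ g₂ B B₁ : ℝ → ℝ), Osc m M c d l g g₁ g₂ B B₁ → d - c ≤ L →
    ∀ z ∈ Icc c d, ∀ z' ∈ Icc c d, En l g B B₁ z ≤ C * En l g B B₁ z' ∧ |En l g B B₁ z - En l g B B₁ z'| ≤ C / l * En l g B B₁ z' ∧
      2 * l * |B z * B₁ z| ≤ En l g B B₁ z ∧ |B z| ≤ C / l * √(En l g B B₁ z')

/-- **AVG** (170 lines), USES ENJ.
PROOF. `λ² √g B² = E/2 - (B B₁)'/(2 √g)`, so `∫ f B² = (1/(2λ²)) ∫ (f/√g) E - (1/(2λ²)) ∫ (f/g) (B B₁)'`. In the first integral `|E - E(d)| ≤ (C/λ) E(d)`; integrate the second by parts, `|B B₁| ≤ C E(d)/λ`, `|f/g|, |(f/g)'| ≤ C`. -/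
def SpecAVG : Prop :=
  ∀ m M L : ℝ, 0 < m → 0 < L → ∃ C : ℝ, 0 < C ∧ ∀ (c d l : ℝ) (g g₁ g₂ B B₁ f f₁ : ℝ → ℝ), Osc m M c d l g g₁ g₂ B B₁ → d - c ≤ L →
    (∀ z ∈ Icc c d, HasDerivAt f (f₁ z) z ∧ |f z| ≤ M ∧ |f₁ z| ≤ M) → ContinuousOn f₁ (Icc c d) →
    |(∫ z in c..d, f z * B z ^ 2) - En l g B B₁ d / (2 * l ^ 2) * ∫ z in c..d, f z / √(g z)| ≤ C * En l g B B₁ d / l ^ 3

/-- **DIF** (170 lines), USES GRW, ENJ.
PROOF. `D = B' - B` (here `B'`, `g'` are the second solution and coefficient), `D₁ = B₁' - B₁`, `D₁' = -λ² g' D - λ² (g' - g) B`. `E_D = λ² √g' D² + D₁²/√g'`: `|E_D'| ≤ C E_D + 2 |D₁| λ² M η |B|/√g' ≤ C E_D + C λ² η² E(d)` (`λ |B| ≤ C √E(d)`), `E_D c = 0`: GRW: `E_D ≤ C λ² η² E(d)`. -/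
def SpecDIF : Prop :=
  ∀ m M L : ℝ, 0 < m → 0 < L → ∃ C : ℝ, 0 < C ∧ ∀ (c d l η : ℝ) (g g₁ g₂ B B₁ g' g₁' g₂' B' B₁' : ℝ → ℝ), Osc m M c d l g g₁ g₂ B B₁ →
    Osc m M c d l g' g₁' g₂' B' B₁' → d - c ≤ L → 0 ≤ η → (∀ z ∈ Icc c d, |g' z - g z| ≤ M * η) → B' c = B c → B₁' c = B₁ c →
    ∀ z ∈ Icc c d, |B' z - B z| ≤ C * η * √(En l g B B₁ d)

/-- **OSC** (200 lines), USES ENJ, AVG, DIF.
PROOF. `(B B₁' - B₁ B')' = -λ² (g' - g) B B' = -λ² η f B B'`, zero at `c`: `(B B₁' - B₁ B')(d) = -λ² η (∫ f B² + ∫ f B (B' - B))`. `|∫ f B (B' - B)| ≤ C (√E/λ) η √E`, `E = E(d)`; AVG: `|..| ≥ η E (γ/2 - C/λ - C λ η) ≥ η E γ/4` for `λ ≥ λ₀`, `λ η ≤ c₀`. Third item: `E'(d) ≤ C E'(c) ≤ C E(c) ≤ C E(d)` (the data at `c` are the same, `√g`, `√g'` are between `√m` and `√M`). -/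
def SpecOSC : Prop :=
  ∀ m M L γ : ℝ, 0 < m → 0 < L → 0 < γ → ∃ l₀ c₀ c₁ : ℝ, 0 < l₀ ∧ 0 < c₀ ∧ 0 < c₁ ∧
    ∀ (c d l η : ℝ) (g g₁ g₂ B B₁ g' g₁' g₂' B' B₁' f f₁ : ℝ → ℝ), Osc m M c d l g g₁ g₂ B B₁ →
    Osc m M c d l g' g₁' g₂' B' B₁' → d - c ≤ L → 0 ≤ η → l₀ ≤ l → l * η ≤ c₀ → (∀ z ∈ Icc c d, g' z - g z = η * f z) →
    (∀ z ∈ Icc c d, HasDerivAt f (f₁ z) z ∧ |f z| ≤ M ∧ |f₁ z| ≤ M) → ContinuousOn f₁ (Icc c d) → γ ≤ |∫ z in c..d, f z / √(g z)| →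
    B' c = B c → B₁' c = B₁ c →
    c₁ * η * En l g B B₁ d ≤ |B d * B₁' d - B₁ d * B' d| ∧ c₁ * En l g B B₁ c ≤ En l g B B₁ d ∧ c₁ * En l g' B' B₁' d ≤ En l g B B₁ d

/-- The leading coefficient. -/
def gam (h κ : ℝ → ℝ) (c d : ℝ) : ℝ :=
  ∫ z in c..d, rho (fun z => √(h z)) κ z / (h z * √(deriv (deriv fun z => √(h z)) z / √(h z)))

/-- `g_μ = r_μ''/r_μ`, `r_μ = √h + μ κ`. -/
def gm (h κ : ℝ → ℝ) (μ z : ℝ) : ℝ := (deriv (deriv fun z => √(h z)) z + μ * deriv (deriv κ) z) / (√(h z) + μ * κ z)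

/-- `f = ρ / (r_μ r_μ')`. -/
def fm (h κ : ℝ → ℝ) (μ μ' z : ℝ) : ℝ := rho (fun z => √(h z)) κ z / ((√(h z) + μ * κ z) * (√(h z) + μ' * κ z))

/-- **GBD** (260 lines), USES SQR. Uniform bounds.
PROOF. `r = √h` is `C^∞` near `[c, d]`, `r > 0`, `r'' > 0` (SQR: `W = -r³ r''`). All the functions are smooth in `(μ, μ', z)` near `{0}² × [c, d]`: explicit formulas for the derivatives (quotient rule), bounds by compactness. `g_μ' - g_μ = (μ' - μ) ρ/(r_μ r_μ')`. `∫ f/√g_μ → gam` as `μ, μ' → 0` (uniform convergence of the integrand, `fm h κ 0 0 / √(gm h κ 0)` is the integrand of `gam`). -/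
def SpecGBD : Prop :=
  ∀ (h κ : ℝ → ℝ) (c d : ℝ), c < d → ContDiff ℝ ∞ h → Bump κ c d → (∀ z ∈ Icc c d, 0 < h z ∧ W h z < 0) → gam h κ c d ≠ 0 →
    ∃ m M γ μ₁ : ℝ, 0 < m ∧ 0 < γ ∧ 0 < μ₁ ∧ ∀ μ μ' : ℝ, |μ| ≤ μ₁ → |μ'| ≤ μ₁ →
      (∀ z ∈ Icc c d, m ≤ √(h z) + μ * κ z ∧ ContDiffAt ℝ ∞ (gm h κ μ) z ∧ ContDiffAt ℝ ∞ (fm h κ μ μ') z ∧
        m ≤ gm h κ μ z ∧ gm h κ μ z ≤ M ∧ |deriv (gm h κ μ) z| ≤ M ∧ |deriv (deriv (gm h κ μ)) z| ≤ M ∧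
        |fm h κ μ μ' z| ≤ M ∧ |deriv (fm h κ μ μ') z| ≤ M ∧ gm h κ μ' z - gm h κ μ z = (μ' - μ) * fm h κ μ μ' z) ∧
      γ ≤ |∫ z in c..d, fm h κ μ μ' z / √(gm h κ μ z)|

/-- **BTR** (110 lines), USES SQR. The transformation `B = r_μ y`.
PROOF. `B' = r_μ' y + r_μ y' = r_μ' y + v/r_μ`, `(..)' = r_μ'' y + v'/r_μ = (1 - n²) r_μ'' y` (SQR: `v' = n² W y/h = -n² r_μ r_μ'' y`). -/
def SpecBTR : Prop :=
  ∀ (h κ : ℝ → ℝ) (c d μ : ℝ), ContDiff ℝ ∞ h → ContDiff ℝ ∞ κ → (∀ z ∈ Icc c d, 0 < h z ∧ 0 < √(h z) + μ * κ z) →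
    ∀ (n : ℕ) (y v : ℝ → ℝ), Sys (pert h κ μ) n O y v (Icc c d) → ∀ z ∈ Icc c d,
      HasDerivAt (fun z => (√(h z) + μ * κ z) * y z)
        ((deriv (fun z => √(h z)) z + μ * deriv κ z) * y z + v z / (√(h z) + μ * κ z)) z ∧
      HasDerivAt (fun z => (deriv (fun z => √(h z)) z + μ * deriv κ z) * y z + v z / (√(h z) + μ * κ z))
        (-(((n : ℝ) ^ 2 - 1) * gm h κ μ z * ((√(h z) + μ * κ z) * y z))) z

/-- **ROT** (260 lines), USES OSC, GBD, BTR. The data at `d` rotate when `μ` moves.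
PROOF. GBD, `λ = √(n² - 1) ≥ n/2`, `g = gm μ`, `g' = gm μ'`, `η = |μ' - μ|`, `f = ± fm μ μ'`; `B = r_μ y`, `B₁ = r_μ' y + v/r_μ` (BTR). At `c` and `d` `κ = κ' = 0` (smooth, zero off `[c, d]`), so the data `(B, B₁)` at `c` are the same for both, and `(y v₁ - v y₁)(d) = (B B₁' - B₁ B')(d)` (`v = r B₁ - r' B`). `X = n |y| + |v|` is comparable to `√E` at `c` and `d`. OSC. -/
def SpecROT : Prop :=
  ∀ (h κ : ℝ → ℝ) (c d : ℝ), c < d → ContDiff ℝ ∞ h → Bump κ c d → (∀ z ∈ Icc c d, 0 < h z ∧ W h z < 0) → gam h κ c d ≠ 0 →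
    ∃ (n₀ : ℕ) (c₀ c₁ μ₁ : ℝ), 0 < c₀ ∧ 0 < c₁ ∧ 0 < μ₁ ∧ ∀ n : ℕ, n₀ ≤ n → ∀ μ μ' : ℝ, |μ| ≤ μ₁ → |μ'| ≤ μ₁ → |μ - μ'| ≤ c₀ / n →
      ∀ y v y₁ v₁ : ℝ → ℝ, Sys (pert h κ μ) n O y v (Icc c d) → Sys (pert h κ μ') n O y₁ v₁ (Icc c d) → y c = y₁ c → v c = v₁ c →
        c₁ * |μ - μ'| * ((n * |y d| + |v d|) * (n * |y₁ d| + |v₁ d|)) ≤ |y d * v₁ d - v d * y₁ d| ∧
        c₁ * (n * |y c| + |v c|) ≤ n * |y d| + |v d| ∧ c₁ * (n * |y₁ c| + |v₁ c|) ≤ n * |y₁ d| + |v₁ d|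

/-- **GAM** (230 lines), USES SQR. A suitable `κ`.
PROOF. `r = √h > 0`, `r'' > 0` on `(p, q)` (SQR), `m = 1/(r² √(r''/r)) = |W|^(-1/2)`, smooth on `(p, q)`. For `κ` supported in `[c, d]`: `gam = ∫ (κ'' r - κ r'') m = ∫ κ ((r m)'' - r'' m) = ∫ κ (r m'' + 2 r' m') = ∫ κ (r² m')'/r` (integrate by parts twice). If `(r² m')' = 0` on `(p, q)` then `m' = k/r²` is bounded near `p`, so `m` is bounded near `p`; but `W → 0`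
at `p` (`W p = 0`, as `W` changes sign), `m → ∞`. So `(r² m')' z₀ ≠ 0` for some `z₀ ∈ (p, q)`; take for `κ` a smooth bump `≥ 0`, `κ z₀ > 0`, supported in a small interval around `z₀` where `(r² m')'` has a sign. -/
def SpecGAM : Prop :=
  ∀ (h : ℝ → ℝ) (a p q b : ℝ), Dumb h a p q b → ∃ (κ : ℝ → ℝ) (c d : ℝ), p < c ∧ c < d ∧ d < q ∧ Bump κ c d ∧ gam h κ c d ≠ 0

/-- **LOW** (280 lines), USES LIN, UNQ, WRO, LUN, NKB, PD, ROT.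
PROOF. `n₀`, `c₀`, `c₁`, `μ₁` from ROT for `h`, `κ`, `c`, `d`. `h₁ = h` near `[c, d]`, so near `[c, d]` `pert h₁ κ μ = pert h κ μ`. Let `μ₂ ≤ μ₁` be such that `pert h₁ κ μ` is a dumbbell for `|μ| ≤ μ₂` (PD for `h₁`); it equals `h₁` off `[c, d]`. The data `(1, V p)`, `(1, U q)` do not depend on `μ` (LUN). The solution `(y⁰, v⁰)` of the system of `h₁` with data `(1, V p)` at `p` (LIN) is equal to
`(Y, V)` on `[p, c]` (UNQ on `[p, c)`, continuity), so `(Y, V) c = (Y', V') c` and `|Y c| + |V c| ≥ n^(-B)/C` (NKB for `(y⁰, v⁰)`, `R = 0`). In the same way `(Z, U) = (Z', U')` on `[d, q]`, `|Z d| + |U d| ≥ n^(-B)/C`. Let `A = (Y, V)(d)`, `A' = (Y', V')(d)`, `e = (Z, U)(d)`, `|x| = n |x₁| + |x₂|`. `A ∧ e = Y q U q - V q Z q =: D` (WRO on `[d, q]`), `A' ∧ e = D'`.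
`(A ∧ A') e = (A ∧ e) A' - (A' ∧ e) A`, so `|A ∧ A'| |e| ≤ |D| |A'| + |D'| |A|`; ROT: `|A ∧ A'| ≥ c₁ |μ - μ'| |A| |A'|`, `|A|, |A'| ≥ c₁ |A(c)|`. Divide by `|A| |A'|`: `c₁ |μ - μ'| |e| ≤ |D|/|A| + |D'|/|A'|`. So with `B' = 2 B`: `c₁' |μ - μ'| ≤ n^(B') (|D| + |D'|)`. -/
def SpecLOW : Prop :=
  ∀ (h κ : ℝ → ℝ) (a p q b c d : ℝ), Dumb h a p q b → p < c → c < d → d < q → Bump κ c d → gam h κ c d ≠ 0 →
    ∃ (n₀ : ℕ) (c₀ : ℝ), 0 < c₀ ∧ ∀ (h₁ : ℝ → ℝ) (s : ℝ), Dumb h₁ a p q b → s < c → (∀ z, s < z → h₁ z = h z) →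
      ∃ (μ₂ c₁ : ℝ) (B : ℕ), 0 < μ₂ ∧ 0 < c₁ ∧ ∀ n : ℕ, n₀ ≤ n → 1 ≤ n → ∀ μ μ' : ℝ, |μ| ≤ μ₂ → |μ'| ≤ μ₂ → |μ - μ'| ≤ c₀ / n →
        ∀ Y V Z U Y' V' Z' U' : ℝ → ℝ, LeftSol (pert h₁ κ μ) a p b n Y V → RightSol (pert h₁ κ μ) a q b n Z U →
          LeftSol (pert h₁ κ μ') a p b n Y' V' → RightSol (pert h₁ κ μ') a q b n Z' U' →
          c₁ * |μ - μ'| ≤ (n : ℝ) ^ B * (|Y q * U q - V q * Z q| + |Y' q * U' q - V' q * Z' q|)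

/-- **MEA** (200 lines, no deps). The measure argument.
PROOF. `Bad n = {μ ∈ (0, μ₂) : |D n μ| < ε n^(-B-3)}`. In an interval of length `≤ c₀/n` two points of `Bad n` have distance `≤ 2 ε n^(-3)/c₁`, so the outer measure of `Bad n` is at most `(n μ₂/c₀ + 1) · 2 ε n^(-3)/c₁ ≤ C ε n^(-2)` (cover `(0, μ₂)` by `⌈n μ₂/c₀⌉ ≤ n μ₂/c₀ + 1` intervals; a set of diameter `≤ t` in `ℝ` has measure `≤ t`, or `≤ 2t`). The sum over `n ≥ 1` is `≤ C' ε < μ₂` for small `ε`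
(`measure_iUnion_le` holds for all sets): some `μ` is in no `Bad n`. -/
def SpecMEA : Prop :=
  ∀ (D : ℕ → ℝ → ℝ) (n₀ B : ℕ) (c₀ c₁ μ₂ : ℝ), 1 ≤ n₀ → 0 < c₀ → 0 < c₁ → 0 < μ₂ →
    (∀ n : ℕ, n₀ ≤ n → ∀ μ ∈ Ioo 0 μ₂, ∀ μ' ∈ Ioo 0 μ₂, |μ - μ'| ≤ c₀ / n → c₁ * |μ - μ'| ≤ (n : ℝ) ^ B * (|D n μ| + |D n μ'|)) →
    ∃ ε : ℝ, 0 < ε ∧ ∃ μ ∈ Ioo 0 μ₂, ∀ n : ℕ, n₀ ≤ n → ε ≤ (n : ℝ) ^ (B + 3) * |D n μ|

/-- **NRX** (260 lines), USES UNQ, REF, LEX, LUN, PD, SML, GAM, LOW, MEA, CNT. Small perturbations without resonances.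
PROOF. GAM: `κ`, `c`, `d`. LOW for `h`: `n₀`, `c₀` (take `n₀ ≥ 2`). SML with `s = (p + c)/2`, `δ/2`, `n₁ = n₀`: `h₁`, equal to `h` off a compact subset of `(p, s)`, Wronskians `≠ 0` for `2 ≤ n < n₀`. LOW for `h₁`: `μ₂`, `c₁`, `B`; make `μ₂` smaller: PD for `h₁`, `κ`, `δ/2`, and CNT for `h₁`, `κ` and the `n` with `2 ≤ n < n₀`.
(U) For a dumbbell the Wronskian `Y q U q - V q Z q` does not depend on the choice of the left and right solutions: `V p` is unique (LUN with `h' = h`), so `(Y, V)` is unique on `(a, b)` (UNQ), in the same way `(Z, U)`. For `μ ∈ (0, μ₂)`, `n ≥ n₀` let `D n μ` be the Wronskian for `pert h₁ κ μ` (LEX, REF give existence; by LOW the hypothesis of MEA holds).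
MEA: a good `μ`, `h₂ = pert h₁ κ μ`. For `n ≥ n₀` the bound is MEA's, for `2 ≤ n < n₀` the (unique) Wronskians are `≠ 0` by CNT: minimum of finitely many numbers. `Near h h₂`: add the two differences. -/
def SpecNRX : Prop :=
  ∀ (h : ℝ → ℝ) (a p q b : ℝ), Dumb h a p q b → ∀ (N : ℕ) (δ : ℝ), 0 < δ → ∃ h₂ : ℝ → ℝ, Near h h₂ a p q b q N δ ∧ NonRes h₂ a p q b

end

end Pool.Agent.Lib.MP478c11.DB
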